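import Pool.Agent.Lib.MP_3029eb_ag.AbhT1
import Pool.Agent.Lib.MP_3029eb_ag.H44Defs

/-!
# Local uniformization for valuations of transcendence defect one: definitions

Throughout `k` is an algebraically closed field of characteristic `p`, `W` is a normed field
(ultrametric) containing `k`.
-/

namespace Pool.Agent.Lib.TDO

open Pool.Agent.Lib.MP_3029eb_ag Pool.Agent.Lib.MP_3029eb_ag.Abh

/-- Standing assumptions: `k` has trivial norm and is the residue field, and any `r + 1` elements
of `W` satisfy a multiplicative relation of norm one (the rational rank is at most `r`). -/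
structure Amb (r : ℕ) (k W : Type) [Field k] [NormedField W] [Algebra k W] : Prop where
  unit : ∀ c : k, c ≠ 0 → ‖algebraMap k W c‖ = 1
  res : ∀ z : W, ‖z‖ ≤ 1 → ∃ c : k, ‖z - algebraMap k W c‖ < 1
  rank : ∀ z : Fin (r + 1) → W, (∀ i, z i ≠ 0) → ∃ a : Fin (r + 1) → ℤ, a ≠ 0 ∧ ‖mon z a‖ = 1

/-- Laurent polynomials in `r` variables with coefficients polynomials in one more variable `Y`. -/
abbrev LP (k : Type) [Field k] (r : ℕ) : Type := AddMonoidAlgebra k ((Fin r → ℤ) × ℕ)

/-- Evaluation of a Laurent polynomial. -/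
noncomputable def ev {k W : Type} [Field k] [Field W] [Algebra k W] {r : ℕ} (x : Fin r → W)
    (y : W) (P : LP k r) : W :=
  P.coeff.sum fun m c => algebraMap k W c * (mon x m.1 * y ^ m.2)

/-- The field `k(x, y)`. -/
noncomputable def Kxy (k : Type) {W : Type} [Field k] [Field W] [Algebra k W] {r : ℕ}
    (x : Fin r → W) (y : W) : IntermediateField k W :=
  IntermediateField.adjoin k (Set.range x ∪ {y})

/-- The closure of an intermediate field. -/
noncomputable def cl {k W : Type} [Field k] [NormedField W] [Algebra k W]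
    (E : IntermediateField k W) : IntermediateField k W :=
  { E.toSubfield.topologicalClosure with
    algebraMap_mem' := fun c =>
      E.toSubfield.le_topologicalClosure (E.algebraMap_mem c) }

/-- `(x, y)` are parameters: the `x i` have independent values of norm less than one, `y` has norm
less than one, and `x, y` are algebraically independent over `k`. -/
structure Par (k : Type) {W : Type} [Field k] [NormedField W] [Algebra k W] {r : ℕ}
    (x : Fin r → W) (y : W) : Prop where
  ind : Indep x
  y1 : ‖y‖ < 1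
  tr : ∀ P : LP k r, ev x y P = 0 → P = 0

/-- `LO x y`: the ring generated by `k`, `y` and the monomials `mon x a` of norm at most one. -/
def LO (k : Type) {W : Type} [Field k] [NormedField W] [Algebra k W] {r : ℕ}
    (x : Fin r → W) (y : W) : Subring W :=
  Subring.closure ((Set.range (algebraMap k W) ∪ {z | ∃ a : Fin r → ℤ, ‖mon x a‖ ≤ 1 ∧
    z = mon x a}) ∪ {y})

/-- `LL x y`: the ring of all Laurent polynomials in `x`, polynomial in `y`. -/
def LL (k : Type) {W : Type} [Field k] [Field W] [Algebra k W] {r : ℕ}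
    (x : Fin r → W) (y : W) : Subring W :=
  Subring.closure ((Set.range (algebraMap k W) ∪ {z | ∃ a : Fin r → ℤ, z = mon x a}) ∪ {y})

/-- `OO x y`: the localization of `LO x y` at the centre of the norm. -/
def OO (k : Type) {W : Type} [Field k] [NormedField W] [IsUltrametricDist W] [Algebra k W] {r : ℕ}
    (x : Fin r → W) (y : W) : Subring W :=
  locV (ball W) (LO k x y)

/-- `z` is a monomial in `x` times an element of norm one of the ring `A`. -/
def Mo {W : Type} [NormedField W] {r : ℕ} (A : Subring W) (x : Fin r → W) (z : W) : Prop :=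
  ∃ (a : Fin r → ℤ) (u : W), u ∈ A ∧ ‖u‖ = 1 ∧ z = mon x a * u

/-- `(x', y')` refines `(x, y)`. -/
structure Rf (k : Type) {W : Type} [Field k] [NormedField W] [IsUltrametricDist W] [Algebra k W]
    {r : ℕ} (x : Fin r → W) (y : W) (x' : Fin r → W) (y' : W) : Prop where
  fld : Kxy k x' y' = Kxy k x y
  le : OO k x y ≤ OO k x' y'
  mo : ∀ i, Mo (OO k x' y') x' (x i)
  genx : ∀ i, ∃ n ∈ LL k x y, ∃ d ∈ LL k x y, Mo (OO k x' y') x' n ∧ Mo (OO k x' y') x' d ∧
    x' i * d = n
  geny : ∃ n ∈ LL k x y, ∃ d ∈ LL k x y, Mo (OO k x' y') x' d ∧ y' * d = n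

/-- `(a0, d)` is the leading exponent of `P`: `a0` has the largest norm among all the exponents
`a` with `(a, j)` in the support of `P`, and `d` is the least `j` with `(a0, j)` in the support. -/
structure Lead {k W : Type} [Field k] [NormedField W] {r : ℕ} (x : Fin r → W) (P : LP k r)
    (a0 : Fin r → ℤ) (d : ℕ) : Prop where
  mem : P.coeff (a0, d) ≠ 0
  max : ∀ a j, P.coeff (a, j) ≠ 0 → ‖mon x a‖ ≤ ‖mon x a0‖
  min : ∀ j, P.coeff (a0, j) ≠ 0 → d ≤ j

/-- A stage: `y ^ e = mon x B * (c + y')`, and the monomials in `x, y` are the monomials in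
`x', c + y'` via the unimodular transformation `T`. -/
structure Stage {k W : Type} [Field k] [NormedField W] [Algebra k W] {r : ℕ}
    (x : Fin r → W) (y : W) (x' : Fin r → W) (y' : W) (e : ℕ) (B : Fin r → ℤ) (c : k)
    (T : ((Fin r → ℤ) × ℤ) ≃+ ((Fin r → ℤ) × ℤ)) : Prop where
  e1 : 1 ≤ e
  c0 : c ≠ 0
  ind : Indep x'
  y1 : ‖y'‖ < 1
  hT : T (-B, (e : ℤ)) = (0, 1)
  hw : y ^ e = mon x B * (algebraMap k W c + y')
  hm : ∀ (a : Fin r → ℤ) (j : ℤ), mon x a * y ^ j =
    mon x' (T (a, j)).1 * (algebraMap k W c + y') ^ (T (a, j)).2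

/-- A chart of `L` (relative to the separably closed field `S`). -/
structure Chart {k W : Type} [Field k] [NormedField W] [Algebra k W]
    (S L : IntermediateField k W) {r : ℕ} (x : Fin r → W) (y : W) : Prop where
  par : Par k x y
  xS : ∀ i, x i ∈ S
  yS : y ∈ S
  xL : ∀ i, x i ∈ L
  yL : y ∈ L
  dense : L ≤ cl (Kxy k x y)
  sep : ∀ z ∈ S, IsSeparable (Kxy k x y) z

/-- `L` has a chart. -/
def HasChart {k W : Type} [Field k] [NormedField W] [Algebra k W]
    (S : IntermediateField k W) (r : ℕ) (L : IntermediateField k W) : Prop :=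
  ∃ (x : Fin r → W) (y : W), Chart S L x y

end Pool.Agent.Lib.TDO
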