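import Pool.Agent.Lib.MP_3029eb_ag.ImpDefs
import Pool.Agent.Lib.TDO.Defs

/-!
# Module Transp: transport along an embedding of fields

`ι : K → W` a ring homomorphism, `V` the valuation ring of the `z` with `‖ι z‖ ≤ 1`.
`V.valuation z = 1 ↔ ‖ι z‖ = 1`, `V.valuation z < 1 ↔ ‖ι z‖ < 1` (inverse of `z` in `V` or not).
`A = locV V (closure (A0 ∪ g))`; `ι` maps it isomorphically onto
`locV (ball W) (closure (A0.map ι ∪ g.image ι))` (see `E10_locV_map` in `AbhE10` for the analogous
statement); all fields of `GoodPar2` and `MonV` transport (elements of the image ring lie in the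
range of `ι`; regularity and dimension by the ring isomorphism:
`IsRegularLocalRing.of_ringEquiv`, `ringKrullDim_eq_of_ringEquiv`).
-/

open Pool.Agent.Lib.MP_3029eb_ag Pool.Agent.Lib.MP_3029eb_ag.Abh

namespace Pool.Agent.Lib.TDO

private theorem Transp_one_iff {K : Type} [Field K] (V : ValuationSubring K) (z : K) :
    V.valuation z = 1 ↔ z ∈ V ∧ z⁻¹ ∈ V ∧ z ≠ 0 := by
  constructor
  · intro h
    have hz : z ≠ 0 := by rintro rfl; rw [map_zero] at h; exact zero_ne_one h
    refine ⟨(V.valuation_le_one_iff z).1 h.le, (V.valuation_le_one_iff _).1 ?_, hz⟩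
    rw [map_inv₀, h, inv_one]
  · rintro ⟨h1, h2, hz⟩
    have h3 := (V.valuation_le_one_iff z).2 h1
    have h4 := (V.valuation_le_one_iff _).2 h2
    refine le_antisymm h3 ?_
    have h5 : V.valuation z * V.valuation z⁻¹ = 1 := by
      rw [← map_mul, mul_inv_cancel₀ hz, map_one]
    calc (1 : V.ValueGroup) = V.valuation z * V.valuation z⁻¹ := h5.symm
      _ ≤ V.valuation z * 1 := mul_le_mul_right h4 _
      _ = V.valuation z := mul_one _

private theorem Transp_locV {K0 K : Type} [Field K0] [Field K] (φ : K0 →+* K)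
    (V : ValuationSubring K) (V0 : ValuationSubring K0)
    (hV0u : ∀ z, V0.valuation z = 1 ↔ V.valuation (φ z) = 1) (C : Subring K0) (z : K) :
    z ∈ locV V (C.map φ) ↔ ∃ z0 ∈ locV V0 C, φ z0 = z := by
  constructor
  · rintro ⟨_, ⟨a, ha, rfl⟩, _, ⟨b, hb, rfl⟩, hb1, hz⟩
    have hb1' : V0.valuation b = 1 := (hV0u b).2 hb1
    have hb0 : b ≠ 0 := by
      rintro rfl
      rw [map_zero] at hb1'
      exact zero_ne_one hb1'
    refine ⟨a / b, ⟨a, ha, b, hb, hb1', div_mul_cancel₀ _ hb0⟩, ?_⟩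
    rw [map_div₀, ← hz, mul_div_assoc, div_self, mul_one]
    rwa [Ne, map_eq_zero]
  · rintro ⟨z0, ⟨a, ha, b, hb, hb1, hz⟩, rfl⟩
    exact ⟨φ a, ⟨a, ha, rfl⟩, φ b, ⟨b, hb, rfl⟩, (hV0u b).1 hb1, by rw [← hz, map_mul]⟩

private theorem Transp_MonV {K0 K : Type} [Field K0] [Field K] (φ : K0 →+* K)
    (V : ValuationSubring K) (V0 : ValuationSubring K0)
    (hV0u : ∀ z, V0.valuation z = 1 ↔ V.valuation (φ z) = 1) {B : Subring K} {B0 : Subring K0}
    (hB : ∀ z ∈ B, ∃ z0 ∈ B0, φ z0 = z) {r : ℕ} {u : Fin r → K0} {f : K0}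
    (h : MonV V B (fun i => φ (u i)) (φ f)) : MonV V0 B0 u f := by
  obtain ⟨w, hw, hw1, β, hf⟩ := h
  obtain ⟨w0, hw0, rfl⟩ := hB w hw
  refine ⟨w0, hw0, (hV0u w0).2 hw1, β, φ.injective ?_⟩
  rw [hf, map_mul]
  congr 1
  unfold monN
  rw [map_prod]
  exact Finset.prod_congr rfl fun i _ => (map_pow _ _ _).symm

open Classical in
theorem transp {K W : Type} [Field K] [NormedField W] [IsUltrametricDist W] (ι : K →+* W)
    (V : ValuationSubring K) (hV : ∀ z, z ∈ V ↔ ‖ι z‖ ≤ 1) (A0 : Subring K) (g : Finset K)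
    {r : ℕ} (u : Fin r → K) (gs : Finset K)
    (h : Imp.GoodPar2 (ball W) (A0.map ι)
      (locV (ball W) (Subring.closure (((A0.map ι : Subring W) : Set W) ∪
        ((g.image ι : Finset W) : Set W)))) (fun i => ι (u i)) (gs.image ι)) :
    Imp.GoodPar2 V A0 (locV V (Subring.closure ((A0 : Set K) ∪ (g : Set K)))) u gs ∧
    ∀ f : K, MonV (ball W) (locV (ball W) (Subring.closure (((A0.map ι : Subring W) : Set W) ∪
        ((g.image ι : Finset W) : Set W)))) (fun i => ι (u i)) (ι f) →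
      MonV V (locV V (Subring.closure ((A0 : Set K) ∪ (g : Set K)))) u f := by
  have hV0 : ∀ z, z ∈ V ↔ ι z ∈ ball W := fun z => (hV z).trans (mem_ball (ι z)).symm
  have hV0u : ∀ z, V.valuation z = 1 ↔ (ball W).valuation (ι z) = 1 := by
    intro z
    rw [Transp_one_iff, Transp_one_iff, hV0, hV0, map_inv₀, Ne, Ne, map_eq_zero]
  have hlt : ∀ z, V.valuation z < 1 ↔ (ball W).valuation (ι z) < 1 := by
    intro z
    constructor
    · intro h1
      have h2 : ι z ∈ ball W := (hV0 z).1 ((V.valuation_le_one_iff z).1 h1.le)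
      exact lt_of_le_of_ne (((ball W).valuation_le_one_iff _).2 h2)
        fun h3 => h1.ne ((hV0u z).2 h3)
    · intro h1
      have h2 : z ∈ V := (hV0 z).2 (((ball W).valuation_le_one_iff _).1 h1.le)
      exact lt_of_le_of_ne ((V.valuation_le_one_iff _).2 h2) fun h3 => h1.ne ((hV0u z).1 h3)
  have hcl : Subring.closure (((A0.map ι : Subring W) : Set W) ∪
      ((g.image ι : Finset W) : Set W)) =
      (Subring.closure ((A0 : Set K) ∪ (g : Set K))).map ι := by
    rw [RingHom.map_closure, Set.image_union, Finset.coe_image]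
    rfl
  have hmem : ∀ z : W, z ∈ locV (ball W) (Subring.closure (((A0.map ι : Subring W) : Set W) ∪
      ((g.image ι : Finset W) : Set W))) ↔
      ∃ z0 ∈ locV V (Subring.closure ((A0 : Set K) ∪ (g : Set K))), ι z0 = z := by
    intro z
    rw [hcl]
    exact Transp_locV ι (ball W) V hV0u _ z
  generalize locV (ball W) (Subring.closure (((A0.map ι : Subring W) : Set W) ∪
      ((g.image ι : Finset W) : Set W))) = B at *
  generalize locV V (Subring.closure ((A0 : Set K) ∪ (g : Set K))) = B0 at *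
  have hB : ∀ z ∈ B0, ι z ∈ B := fun z hz => (hmem _).2 ⟨z, hz, rfl⟩
  have hB' : ∀ z, ι z ∈ B → z ∈ B0 := by
    intro z hz
    obtain ⟨z0, hz0, h1⟩ := (hmem _).1 hz
    rw [← ι.injective h1]
    exact hz0
  have hMon : ∀ f : K, MonV (ball W) B (fun i => ι (u i)) (ι f) → MonV V B0 u f := fun f hf =>
    Transp_MonV ι (ball W) V hV0u (fun z hz => (hmem z).1 hz) hf
  obtain ⟨e⟩ : Nonempty (B0 ≃+* B) := by
    refine ⟨RingEquiv.ofBijective
      ({ toFun := fun z => ⟨ι z.1, hB z.1 z.2⟩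
         map_one' := Subtype.ext (map_one ι)
         map_mul' := fun x y => Subtype.ext (map_mul ι x.1 y.1)
         map_zero' := Subtype.ext (map_zero ι)
         map_add' := fun x y => Subtype.ext (map_add ι x.1 y.1) } : B0 →+* B) ⟨?_, ?_⟩⟩
    · intro x y hxy
      exact Subtype.ext (ι.injective (congrArg Subtype.val hxy))
    · intro z
      obtain ⟨z0, hz0, h1⟩ := (hmem z.1).1 z.2
      exact ⟨⟨z0, hz0⟩, Subtype.ext h1⟩
  refine ⟨⟨⟨fun i => ?_, fun δ hδ => ?_⟩, fun i => hB' _ (h.mem i), fun i => (hlt _).2 (h.lt i),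
    fun y hy => ?_, fun y hy => ?_, fun z hz hz1 => ?_, ?_, ?_, fun z hz => ?_⟩, hMon⟩
  · intro h0
    apply h.ind.ne i
    rw [h0, map_zero]
  · refine h.ind.indep δ ?_
    have h1 : ι (mon u δ) = mon (fun i => ι (u i)) δ := by
      simp only [mon, map_prod, map_zpow₀]
    rw [← h1]
    exact (hV0u _).1 hδ
  · exact hB' _ (h.gmem _ (Finset.mem_image_of_mem ι hy))
  · exact (hlt _).2 (h.glt _ (Finset.mem_image_of_mem ι hy))
  · obtain ⟨c, d, hc, hd, hs⟩ := h.gen (ι z) (hB z hz) ((hlt z).1 hz1)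
    choose c0 hc0 hc0' using fun i => (hmem _).1 (hc i)
    choose d0 hd0 hd0' using fun y => (hmem _).1 (hd (ι y))
    refine ⟨c0, d0, hc0, hd0, ι.injective ?_⟩
    rw [hs, map_add, map_sum, map_sum, Finset.sum_image fun x _ y _ hxy => ι.injective hxy]
    congr 1
    · refine Finset.sum_congr rfl fun i _ => ?_
      rw [map_mul, hc0']
    · refine Finset.sum_congr rfl fun y _ => ?_
      rw [map_mul, hd0']
  · have := h.reg
    exact IsRegularLocalRing.of_ringEquiv e.symm
  · rw [ringKrullDim_eq_of_ringEquiv e, h.dim, Finset.card_image_of_injective _ ι.injective]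
  · obtain ⟨D, hD, hDm, hDz⟩ := h.den (ι z) (hB z hz)
    obtain ⟨D0, hD0, rfl⟩ := Subring.mem_map.1 hD
    refine ⟨D0, hD0, hMon D0 hDm, ?_⟩
    rw [← map_mul] at hDz
    obtain ⟨a, ha, h1⟩ := Subring.mem_map.1 hDz
    rw [← ι.injective h1]
    exact ha

end Pool.Agent.Lib.TDO
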