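import Pool.Agent.Lib.TDO.Ev

/-!
# Module Cl: closures of intermediate fields; complete intermediate fields; charts under refinement
-/

namespace Pool.Agent.Lib.TDO

open Pool.Agent.Lib.MP_3029eb_ag Pool.Agent.Lib.MP_3029eb_ag.Abh

section
variable {k W : Type} [Field k] [NormedField W] [Algebra k W]

theorem mem_cl_iff (E : IntermediateField k W) (z : W) :
    z ∈ cl E ↔ ∀ ε : ℝ, 0 < ε → ∃ w ∈ E, ‖z - w‖ < ε := by
  have h1 : z ∈ cl E ↔ z ∈ closure (E : Set W) := Iff.rfl
  rw [h1, Metric.mem_closure_iff]
  constructor
  · intro h ε hε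
    obtain ⟨w, hw, hd⟩ := h ε hε
    exact ⟨w, hw, by rwa [← dist_eq_norm]⟩
  · intro h ε hε
    obtain ⟨w, hw, hd⟩ := h ε hε
    exact ⟨w, hw, by rwa [dist_eq_norm]⟩

theorem le_cl (E : IntermediateField k W) : E ≤ cl E := fun _ hz => subset_closure hz

theorem cl_mono {E E' : IntermediateField k W} (h : E ≤ E') : cl E ≤ cl E' :=
  fun _ hz => closure_mono (show (E : Set W) ⊆ E' from h) hz

theorem cl_cl (E : IntermediateField k W) : cl (cl E) = cl E := by
  refine le_antisymm (fun z hz => ?_) (le_cl _)
  have h1 : z ∈ closure (closure (E : Set W)) := hz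
  rw [closure_closure] at h1
  exact h1

theorem cl_le_of_le_cl {E E' : IntermediateField k W} (h : E ≤ cl E') : cl E ≤ cl E' := by
  have h1 := cl_mono h
  rwa [cl_cl] at h1

/-- A complete subfield is closed. -/
theorem cl_eq_of_isComplete {L : IntermediateField k W} (hL : IsComplete (L : Set W)) :
    cl L = L := by
  refine le_antisymm (fun z hz => ?_) (le_cl _)
  have h1 : z ∈ closure (L : Set W) := hz
  rw [hL.isClosed.closure_eq] at h1
  exact h1

theorem cl_le_of_isComplete {E L : IntermediateField k W} (hL : IsComplete (L : Set W))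
    (h : E ≤ L) : cl E ≤ L := by
  have h1 := cl_mono h
  rwa [cl_eq_of_isComplete hL] at h1

/-- A closed subfield of a complete subfield is complete. -/
theorem isComplete_cl {E L : IntermediateField k W} (hL : IsComplete (L : Set W)) (h : E ≤ L) :
    IsComplete ((cl E : IntermediateField k W) : Set W) := by
  have h1 : IsClosed ((cl E : IntermediateField k W) : Set W) := by
    change IsClosed (closure (E : Set W))
    exact isClosed_closure
  intro f hf hfs
  have h2 : ((cl E : IntermediateField k W) : Set W) ⊆ L := cl_le_of_isComplete hL h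
  obtain ⟨x, -, hfx⟩ := hL f hf (hfs.trans (Filter.principal_mono.2 h2))
  refine ⟨x, ?_, hfx⟩
  rw [← h1.closure_eq, mem_closure_iff_clusterPt]
  exact Filter.NeBot.mono hf.1 (le_inf hfx hfs)

end

section
variable {k W : Type} [Field k] [NontriviallyNormedField W] [IsUltrametricDist W] [Algebra k W]

/-- Finite extensions of a complete subfield are complete. -/
private theorem cl_complete_aux {L : IntermediateField k W} (hL : IsComplete (L : Set W))
    (hnt : ∃ z ∈ L, z ≠ 0 ∧ ‖z‖ < 1) (G : Set W) (hfin : G.Finite)
    (hG : ∀ θ ∈ G, IsAlgebraic L θ) :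
    IsComplete ((L ⊔ IntermediateField.adjoin k G : IntermediateField k W) : Set W) := by
  let _ : NontriviallyNormedField L :=
    { (inferInstance : NormedField L) with
      non_trivial := by
        obtain ⟨w, hw, h0, h1⟩ := hnt
        refine ⟨⟨w⁻¹, L.inv_mem hw⟩, ?_⟩
        change 1 < ‖w⁻¹‖
        rw [norm_inv]
        exact (one_lt_inv₀ (norm_pos_iff.2 h0)).2 h1 }
  have _ : CompleteSpace L := hL.completeSpace_coe
  have _ : Finite G := hfin
  have _ : FiniteDimensional L (IntermediateField.adjoin L G) :=
    IntermediateField.finiteDimensional_adjoin fun x hx => (hG x hx).isIntegral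
  have h := Submodule.complete_of_finiteDimensional
    (Subalgebra.toSubmodule (IntermediateField.adjoin L G).toSubalgebra)
  have h2 : ((L ⊔ IntermediateField.adjoin k G : IntermediateField k W) : Set W) =
      (Subalgebra.toSubmodule (IntermediateField.adjoin L G).toSubalgebra : Set W) := by
    rw [← IntermediateField.restrictScalars_adjoin_eq_sup]
    rfl
  rw [h2]
  exact h

/-- A finite extension of a complete subfield (generated by one algebraic element) is complete:
`L ⊔ k⟮θ⟯`, restricted to `L`, is `L⟮θ⟯`, a finite dimensional normed space over the complete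
nontrivially normed field `L` (`FiniteDimensional.complete`).  If the norm is trivial on `L` every
ultrametric argument fails, so we assume an element of norm different from `0, 1` in `L`. -/
theorem isComplete_sup {L : IntermediateField k W} (hL : IsComplete (L : Set W))
    (hnt : ∃ z ∈ L, z ≠ 0 ∧ ‖z‖ < 1) (θ : W) (hθ : IsAlgebraic L θ) :
    IsComplete ((L ⊔ IntermediateField.adjoin k {θ} : IntermediateField k W) : Set W) :=
  cl_complete_aux hL hnt {θ} (Set.finite_singleton θ) fun x hx => by
    rw [Set.mem_singleton_iff.1 hx]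
    exact hθ

/-- The same for a finite set of algebraic elements. -/
theorem isComplete_sup_finset {L : IntermediateField k W} (hL : IsComplete (L : Set W))
    (hnt : ∃ z ∈ L, z ≠ 0 ∧ ‖z‖ < 1) (G : Finset W) (hG : ∀ θ ∈ G, IsAlgebraic L θ) :
    IsComplete ((L ⊔ IntermediateField.adjoin k (G : Set W) : IntermediateField k W) : Set W) :=
  cl_complete_aux hL hnt (G : Set W) G.finite_toSet fun x hx => hG x hx

/-- A chart gives a chart for every refinement. -/
theorem Chart.rf {S L : IntermediateField k W} {r : ℕ} {x : Fin r → W} {y : W}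
    (h : Chart S L x y) {x' : Fin r → W} {y' : W} (hP' : Par k x' y')
    (hrf : Rf k x y x' y') : Chart S L x' y' := by
  have hS : Kxy k x' y' ≤ S := by
    rw [hrf.fld]
    exact Kxy_le x y h.xS h.yS
  have hL : Kxy k x' y' ≤ L := by
    rw [hrf.fld]
    exact Kxy_le x y h.xL h.yL
  refine ⟨hP', fun i => hS (x_mem_Kxy x' y' i), hS (y_mem_Kxy x' y'),
    fun i => hL (x_mem_Kxy x' y' i), hL (y_mem_Kxy x' y'), ?_, ?_⟩
  · rw [hrf.fld]
    exact h.dense
  · rw [hrf.fld]
    exact h.sep

end

end Pool.Agent.Lib.TDO
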