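import Pool.Agent.Lib.TDO.Mon
import Pool.Agent.Lib.MP_3029eb_ag.AbhBase

/-!
# Module Ev: evaluation of Laurent polynomials, the rings LL, LO, OO, the field Kxy

`ev` is a sum over a finitely supported function.  `AddMonoidAlgebra` is a one-field structure
around `Finsupp` (field `coeff`) in this version of Mathlib; `AddMonoidAlgebra.lift` applied to the
monoid homomorphism `(a, j) ↦ mon x a * y ^ j` (defined when all `x i ≠ 0`) gives `ev` as an
algebra homomorphism (`AddMonoidAlgebra.lift_apply'`).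
-/

namespace Pool.Agent.Lib.TDO

open Pool.Agent.Lib.MP_3029eb_ag Pool.Agent.Lib.MP_3029eb_ag.Abh

variable {k W : Type} [Field k] {r : ℕ}

section algebra
variable [Field W] [Algebra k W] (x : Fin r → W) (y : W)

theorem ev_zero : ev x y (0 : LP k r) = 0 := by
  unfold ev
  rw [AddMonoidAlgebra.coeff_zero, Finsupp.sum_zero_index]

theorem ev_add (P Q : LP k r) : ev x y (P + Q) = ev x y P + ev x y Q := by
  unfold ev
  rw [AddMonoidAlgebra.coeff_add]
  exact Finsupp.sum_add_index' (fun a => by rw [map_zero, zero_mul])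
    (fun a b c => by rw [map_add, add_mul])

/-- `ev` as an additive homomorphism. -/
private noncomputable def evA : LP k r →+ W where
  toFun := ev x y
  map_zero' := ev_zero x y
  map_add' := ev_add x y

theorem ev_neg (P : LP k r) : ev x y (-P) = -ev x y P :=
  map_neg (evA x y) P

theorem ev_sub (P Q : LP k r) : ev x y (P - Q) = ev x y P - ev x y Q :=
  map_sub (evA x y) P Q

theorem ev_sum {ι : Type} (s : Finset ι) (P : ι → LP k r) :
    ev x y (∑ i ∈ s, P i) = ∑ i ∈ s, ev x y (P i) :=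
  map_sum (evA x y) P s

theorem ev_single (m : (Fin r → ℤ) × ℕ) (c : k) :
    ev x y (AddMonoidAlgebra.single m c : LP k r) = algebraMap k W c * (mon x m.1 * y ^ m.2) := by
  unfold ev
  rw [AddMonoidAlgebra.coeff_single]
  exact Finsupp.sum_single_index (by rw [map_zero, zero_mul])

theorem ev_one : ev x y (1 : LP k r) = 1 := by
  rw [AddMonoidAlgebra.one_def, ev_single]
  show algebraMap k W 1 * (mon x 0 * y ^ 0) = 1
  rw [mon_zero, map_one, pow_zero, mul_one, mul_one]

/-- The monoid homomorphism of the monomials. -/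
private noncomputable def monH (hx : ∀ i, x i ≠ 0) :
    Multiplicative ((Fin r → ℤ) × ℕ) →* W where
  toFun m := mon x (Multiplicative.toAdd m).1 * y ^ (Multiplicative.toAdd m).2
  map_one' := by
    show mon x 0 * y ^ 0 = 1
    rw [mon_zero, pow_zero, mul_one]
  map_mul' m n := by
    show mon x ((Multiplicative.toAdd m).1 + (Multiplicative.toAdd n).1) *
      y ^ ((Multiplicative.toAdd m).2 + (Multiplicative.toAdd n).2) = _
    rw [mon_add x hx, pow_add]; ring

theorem ev_mul (hx : ∀ i, x i ≠ 0) (P Q : LP k r) : ev x y (P * Q) = ev x y P * ev x y Q := by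
  have h : ∀ P : LP k r, ev x y P =
      AddMonoidAlgebra.lift k W ((Fin r → ℤ) × ℕ) (monH x y hx) P := fun P => rfl
  rw [h, h, h, map_mul]

/-- Multiplication by the monomial `mon x b * y ^ i` is a shift of the exponents. -/
theorem exists_shift (hx : ∀ i, x i ≠ 0) (P : LP k r) (b : Fin r → ℤ) :
    ∃ P' : LP k r, ev x y P' = mon x b * ev x y P ∧
      ∀ a j, P'.coeff (a, j) = P.coeff (a - b, j) := by
  refine ⟨AddMonoidAlgebra.ofCoeff (Finsupp.equivMapDomain
    ((Equiv.addRight b).prodCongr (Equiv.refl ℕ)) P.coeff), ?_, ?_⟩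
  · unfold ev
    rw [AddMonoidAlgebra.coeff_ofCoeff]
    show Finsupp.sum (Finsupp.equivMapDomain _ P.coeff) _ = _
    have h1 : Finsupp.sum (Finsupp.equivMapDomain
        ((Equiv.addRight b).prodCongr (Equiv.refl ℕ)) P.coeff)
        (fun m c => algebraMap k W c * (mon x m.1 * y ^ m.2)) =
        P.coeff.sum (fun m c => algebraMap k W c * (mon x (m.1 + b) * y ^ m.2)) := by
      rw [Finsupp.sum_equivMapDomain]
      rfl
    rw [h1, Finsupp.mul_sum]
    refine Finset.sum_congr rfl fun m _ => ?_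
    show algebraMap k W (P.coeff m) * (mon x (m.1 + b) * y ^ m.2) =
      mon x b * (algebraMap k W (P.coeff m) * (mon x m.1 * y ^ m.2))
    rw [mon_add x hx]; ring
  · intro a j
    show (Finsupp.equivMapDomain _ P.coeff) (a, j) = _
    rw [Finsupp.equivMapDomain_apply]
    congr 1

theorem ev_term_mem {A : Subring W} (hk : ∀ c : k, algebraMap k W c ∈ A) (hy : y ∈ A)
    (P : LP k r) (h : ∀ a j, P.coeff (a, j) ≠ 0 → mon x a ∈ A) : ev x y P ∈ A := by
  unfold ev
  refine sum_mem fun m hm => ?_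
  exact mul_mem (hk _) (mul_mem (h m.1 m.2 (Finsupp.mem_support_iff.1 hm)) (pow_mem hy _))

/-- The elements of `LL` are the values of Laurent polynomials. -/
theorem mem_LL_iff (hx : ∀ i, x i ≠ 0) (z : W) : z ∈ LL k x y ↔ ∃ P : LP k r, z = ev x y P := by
  constructor
  · intro hz
    induction hz using Subring.closure_induction with
    | mem z hz =>
      rcases hz with (⟨c, rfl⟩ | ⟨a, rfl⟩) | rfl
      · refine ⟨AddMonoidAlgebra.single (0, 0) c, ?_⟩
        rw [ev_single, mon_zero, pow_zero, mul_one, mul_one]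
      · refine ⟨AddMonoidAlgebra.single (a, 0) 1, ?_⟩
        rw [ev_single, map_one, pow_zero, mul_one, one_mul]
      · refine ⟨AddMonoidAlgebra.single (0, 1) 1, ?_⟩
        rw [ev_single, mon_zero, map_one, pow_one, one_mul, one_mul]
    | zero => exact ⟨0, (ev_zero x y).symm⟩
    | one => exact ⟨1, (ev_one x y).symm⟩
    | add z w _ _ h h' =>
      obtain ⟨P, rfl⟩ := h
      obtain ⟨Q, rfl⟩ := h'
      exact ⟨P + Q, (ev_add x y P Q).symm⟩
    | neg z _ h =>
      obtain ⟨P, rfl⟩ := h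
      exact ⟨-P, (ev_neg x y P).symm⟩
    | mul z w _ _ h h' =>
      obtain ⟨P, rfl⟩ := h
      obtain ⟨Q, rfl⟩ := h'
      exact ⟨P * Q, (ev_mul x y hx P Q).symm⟩
  · rintro ⟨P, rfl⟩
    refine ev_term_mem x y (fun c => Subring.subset_closure (Or.inl (Or.inl ⟨c, rfl⟩)))
      (Subring.subset_closure (Or.inr rfl)) P (fun a j _ => ?_)
    exact Subring.subset_closure (Or.inl (Or.inr ⟨a, rfl⟩))

theorem x_mem_Kxy (i : Fin r) : x i ∈ Kxy k x y :=
  IntermediateField.subset_adjoin k _ (Or.inl ⟨i, rfl⟩)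

theorem y_mem_Kxy : y ∈ Kxy k x y :=
  IntermediateField.subset_adjoin k _ (Or.inr rfl)

theorem mon_mem {E : IntermediateField k W} (h : ∀ i, x i ∈ E) (a : Fin r → ℤ) :
    mon x a ∈ E :=
  prod_mem fun i _ => zpow_mem (h i) _

theorem mon_mem_Kxy (a : Fin r → ℤ) : mon x a ∈ Kxy k x y :=
  mon_mem x (x_mem_Kxy x y) a

theorem LL_le_Kxy {z : W} (hz : z ∈ LL k x y) : z ∈ Kxy k x y := by
  have h : LL k x y ≤ (Kxy k x y).toSubalgebra.toSubring := by
    unfold LL
    rw [Subring.closure_le]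
    rintro w ((⟨c, rfl⟩ | ⟨a, rfl⟩) | rfl)
    · exact (Kxy k x y).algebraMap_mem c
    · exact mon_mem_Kxy x y a
    · exact y_mem_Kxy x _
  exact h hz

theorem Kxy_le {E : IntermediateField k W} (h : ∀ i, x i ∈ E) (hy : y ∈ E) : Kxy k x y ≤ E := by
  unfold Kxy
  rw [IntermediateField.adjoin_le_iff]
  rintro z (⟨i, rfl⟩ | rfl)
  · exact h i
  · exact hy

/-- Elements of `k(x, y)` are quotients of elements of `LL`
(`IntermediateField.mem_adjoin_iff_div` or an induction `IntermediateField.adjoin_induction`). -/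
theorem mem_Kxy_iff (z : W) :
    z ∈ Kxy k x y ↔ ∃ n ∈ LL k x y, ∃ d ∈ LL k x y, d ≠ 0 ∧ z * d = n := by
  constructor
  · intro hz
    unfold Kxy at hz
    rw [IntermediateField.mem_adjoin_iff_div] at hz
    obtain ⟨n, hn, d, hd, hnd⟩ := hz
    have h : ∀ w ∈ Algebra.adjoin k (Set.range x ∪ {y}), w ∈ LL k x y := by
      intro w hw
      induction hw using Algebra.adjoin_induction with
      | mem w hw =>
        rcases hw with ⟨i, rfl⟩ | rfl
        · exact Subring.subset_closure (Or.inl (Or.inr ⟨Pi.single i 1, (mon_single x i).symm⟩))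
        · exact Subring.subset_closure (Or.inr rfl)
      | algebraMap c => exact Subring.subset_closure (Or.inl (Or.inl ⟨c, rfl⟩))
      | add a b _ _ ha hb => exact add_mem ha hb
      | mul a b _ _ ha hb => exact mul_mem ha hb
    by_cases hd0 : d = 0
    · refine ⟨0, zero_mem _, 1, one_mem _, one_ne_zero, ?_⟩
      rw [hnd, hd0, div_zero, zero_mul]
    · exact ⟨n, h n hn, d, h d hd, hd0, by rw [hnd, div_mul_cancel₀ _ hd0]⟩
  · rintro ⟨n, hn, d, hd, hd0, h⟩
    have e : z = n / d := by rw [← h, mul_div_cancel_right₀ _ hd0]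
    rw [e]
    exact div_mem (LL_le_Kxy x y hn) (LL_le_Kxy x y hd)

end algebra

section norm
variable [NormedField W] [IsUltrametricDist W] [Algebra k W] {x : Fin r → W} {y : W}

theorem norm_algebraMap_le (hA : Amb r k W) (c : k) : ‖algebraMap k W c‖ ≤ 1 := by
  by_cases hc : c = 0
  · rw [hc, map_zero, norm_zero]; exact zero_le_one
  · exact (hA.unit c hc).le

theorem norm_ev_le (hA : Amb r k W) (P : LP k r) (C : ℝ) (hC : 0 ≤ C)
    (h : ∀ a j, P.coeff (a, j) ≠ 0 → ‖mon x a * y ^ j‖ ≤ C) : ‖ev x y P‖ ≤ C := by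
  unfold ev Finsupp.sum
  refine IsUltrametricDist.norm_sum_le_of_forall_le_of_nonneg hC fun m hm => ?_
  rw [norm_mul]
  exact (mul_le_of_le_one_left (norm_nonneg _) (norm_algebraMap_le hA _)).trans
    (h m.1 m.2 (Finsupp.mem_support_iff.1 hm))

theorem norm_ev_lt (hA : Amb r k W) (P : LP k r) (C : ℝ) (hC : 0 < C)
    (h : ∀ a j, P.coeff (a, j) ≠ 0 → ‖mon x a * y ^ j‖ < C) : ‖ev x y P‖ < C := by
  classical
  by_cases hP : P.coeff.support.Nonempty
  · obtain ⟨m, hm, hmax⟩ := Finset.exists_max_image P.coeff.support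
      (fun m => ‖mon x m.1 * y ^ m.2‖) hP
    refine lt_of_le_of_lt (norm_ev_le hA P (‖mon x m.1 * y ^ m.2‖) (norm_nonneg _) ?_)
      (h m.1 m.2 (Finsupp.mem_support_iff.1 hm))
    intro a j haj
    exact hmax (a, j) (Finsupp.mem_support_iff.2 haj)
  · have h0 : P.coeff = 0 := by
      rw [Finset.not_nonempty_iff_eq_empty, Finsupp.support_eq_empty] at hP
      exact hP
    have h1 : P = 0 := AddMonoidAlgebra.coeff_eq_zero.1 h0
    rw [h1, ev_zero, norm_zero]; exact hC

/-- A dominating term. -/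
theorem norm_ev_sub_lt (hA : Amb r k W) (P : LP k r) (a0 : Fin r → ℤ) (j0 : ℕ) (C : ℝ)
    (hC : 0 < C) (h : ∀ a j, P.coeff (a, j) ≠ 0 → (a, j) ≠ (a0, j0) → ‖mon x a * y ^ j‖ < C) :
    ‖ev x y P - algebraMap k W (P.coeff (a0, j0)) * (mon x a0 * y ^ j0)‖ < C := by
  classical
  have e : ev x y P - algebraMap k W (P.coeff (a0, j0)) * (mon x a0 * y ^ j0) =
      ev x y (P - AddMonoidAlgebra.single (a0, j0) (P.coeff (a0, j0))) := by
    rw [ev_sub, ev_single]
  rw [e]
  refine norm_ev_lt hA _ C hC fun a j haj => ?_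
  have h1 : (P - AddMonoidAlgebra.single (a0, j0) (P.coeff (a0, j0))).coeff (a, j) =
      P.coeff (a, j) - (Finsupp.single (a0, j0) (P.coeff (a0, j0))) (a, j) := rfl
  rw [h1] at haj
  by_cases hEq : (a, j) = (a0, j0)
  · rw [hEq, Finsupp.single_eq_same, sub_self] at haj
    exact absurd rfl haj
  · rw [Finsupp.single_apply, if_neg (fun hh => hEq hh.symm), sub_zero] at haj
    exact h a j haj hEq

/-- The elements of `LO` are the values of the Laurent polynomials with exponents of norm at most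
one. -/
theorem mem_LO_iff (hx : ∀ i, x i ≠ 0) (z : W) :
    z ∈ LO k x y ↔ ∃ P : LP k r, (∀ a j, P.coeff (a, j) ≠ 0 → ‖mon x a‖ ≤ 1) ∧ z = ev x y P := by
  classical
  constructor
  · intro hz
    have hsing : ∀ (b : Fin r → ℤ) (i : ℕ) (c : k), ‖mon x b‖ ≤ 1 →
        ∀ a j, (AddMonoidAlgebra.single (b, i) c : LP k r).coeff (a, j) ≠ 0 → ‖mon x a‖ ≤ 1 := by
      intro b i c hb a j haj
      rw [AddMonoidAlgebra.coeff_single] at haj
      have h1 := Finsupp.single_apply_ne_zero.1 haj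
      have h2 : a = b := congrArg Prod.fst h1.1
      rw [h2]; exact hb
    have h01 : ‖mon x (0 : Fin r → ℤ)‖ ≤ 1 := by rw [mon_zero, norm_one]
    induction hz using Subring.closure_induction with
    | mem z hz =>
      rcases hz with (⟨c, rfl⟩ | ⟨a, ha, rfl⟩) | rfl
      · refine ⟨AddMonoidAlgebra.single (0, 0) c, hsing _ _ _ h01, ?_⟩
        rw [ev_single, mon_zero, pow_zero, mul_one, mul_one]
      · refine ⟨AddMonoidAlgebra.single (a, 0) 1, hsing _ _ _ ha, ?_⟩
        rw [ev_single, map_one, pow_zero, mul_one, one_mul]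
      · refine ⟨AddMonoidAlgebra.single (0, 1) 1, hsing _ _ _ h01, ?_⟩
        rw [ev_single, mon_zero, map_one, pow_one, one_mul, one_mul]
    | zero => exact ⟨0, fun a j h => absurd rfl h, (ev_zero x y).symm⟩
    | one =>
      refine ⟨1, ?_, (ev_one x y).symm⟩
      rw [AddMonoidAlgebra.one_def]
      exact hsing 0 0 1 h01
    | add z w _ _ h h' =>
      obtain ⟨P, hP, rfl⟩ := h
      obtain ⟨Q, hQ, rfl⟩ := h'
      refine ⟨P + Q, fun a j haj => ?_, (ev_add x y P Q).symm⟩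
      by_cases h1 : P.coeff (a, j) = 0
      · refine hQ a j fun h2 => haj ?_
        show P.coeff (a, j) + Q.coeff (a, j) = 0
        rw [h1, h2, add_zero]
      · exact hP a j h1
    | neg z _ h =>
      obtain ⟨P, hP, rfl⟩ := h
      refine ⟨-P, fun a j haj => hP a j fun h1 => haj ?_, (ev_neg x y P).symm⟩
      show -P.coeff (a, j) = 0
      rw [h1, neg_zero]
    | mul z w _ _ h h' =>
      obtain ⟨P, hP, rfl⟩ := h
      obtain ⟨Q, hQ, rfl⟩ := h'
      refine ⟨P * Q, fun a j haj => ?_, (ev_mul x y hx P Q).symm⟩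
      have h1 : (a, j) ∈ (P * Q).coeff.support := Finsupp.mem_support_iff.2 haj
      have h2 := AddMonoidAlgebra.support_coeff_mul_subset P Q h1
      obtain ⟨m, hm, n, hn, hmn⟩ := Finset.mem_add.1 h2
      have h3 : a = m.1 + n.1 := congrArg Prod.fst hmn.symm
      rw [h3, mon_add x hx, norm_mul]
      exact mul_le_one₀ (hP m.1 m.2 (Finsupp.mem_support_iff.1 hm)) (norm_nonneg _)
        (hQ n.1 n.2 (Finsupp.mem_support_iff.1 hn))
  · rintro ⟨P, hP, rfl⟩
    refine ev_term_mem x y (fun c => Subring.subset_closure (Or.inl (Or.inl ⟨c, rfl⟩)))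
      (Subring.subset_closure (Or.inr rfl)) P (fun a j haj => ?_)
    exact Subring.subset_closure (Or.inl (Or.inr ⟨a, hP a j haj, rfl⟩))

theorem LO_le_LL : LO k x y ≤ LL k x y := by
  unfold LO
  rw [Subring.closure_le]
  rintro w ((⟨c, rfl⟩ | ⟨a, _, rfl⟩) | rfl)
  · exact Subring.subset_closure (Or.inl (Or.inl ⟨c, rfl⟩))
  · exact Subring.subset_closure (Or.inl (Or.inr ⟨a, rfl⟩))
  · exact Subring.subset_closure (Or.inr rfl)

theorem LO_le_ball (hA : Amb r k W) (hy : ‖y‖ ≤ 1) : LO k x y ≤ (ball W).toSubring := by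
  unfold LO
  rw [Subring.closure_le]
  rintro w ((⟨c, rfl⟩ | ⟨a, ha, rfl⟩) | rfl)
  · exact norm_algebraMap_le hA c
  · exact ha
  · exact hy

theorem norm_le_of_mem_LO (hA : Amb r k W) (hy : ‖y‖ ≤ 1) {z : W} (hz : z ∈ LO k x y) :
    ‖z‖ ≤ 1 :=
  LO_le_ball hA hy hz

theorem LO_le_OO (hA : Amb r k W) (hy : ‖y‖ ≤ 1) : LO k x y ≤ OO k x y := by
  have _ := hA
  have _ := hy
  exact le_locV _ _

theorem norm_le_of_mem_OO (hA : Amb r k W) (hy : ‖y‖ ≤ 1) {z : W} (hz : z ∈ OO k x y) :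
    ‖z‖ ≤ 1 :=
  locV_le (ball W) (LO_le_ball hA hy) hz

theorem inv_mem_OO (hA : Amb r k W) (hy : ‖y‖ ≤ 1) {z : W} (hz : z ∈ OO k x y) (h1 : ‖z‖ = 1) :
    z⁻¹ ∈ OO k x y := by
  have _ := hA
  have _ := hy
  obtain ⟨a, ha, b, hb, hb1, hab⟩ := hz
  have hz0 : z ≠ 0 := fun h => by rw [h, norm_zero] at h1; exact zero_ne_one h1
  refine ⟨b, hb, a, ha, ?_, ?_⟩
  · rw [ball_val_eq_one] at hb1 ⊢
    rw [← hab, norm_mul, h1, hb1, one_mul]
  · rw [← hab, inv_mul_cancel_left₀ hz0]

theorem OO_le_Kxy {z : W} (hz : z ∈ OO k x y) : z ∈ Kxy k x y := by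
  obtain ⟨a, ha, b, hb, hb1, hab⟩ := hz
  rw [ball_val_eq_one] at hb1
  have hb0 : b ≠ 0 := fun h => by rw [h, norm_zero] at hb1; exact zero_ne_one hb1
  exact (mem_Kxy_iff x y z).2 ⟨a, LO_le_LL ha, b, LO_le_LL hb, hb0, hab⟩

/-- the constants and the monomials of norm at most one lie in `LO` -/
theorem algebraMap_mem_LO (c : k) : algebraMap k W c ∈ LO k x y :=
  Subring.subset_closure (Or.inl (Or.inl ⟨c, rfl⟩))

theorem mon_mem_LO {a : Fin r → ℤ} (h : ‖mon x a‖ ≤ 1) : mon x a ∈ LO k x y :=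
  Subring.subset_closure (Or.inl (Or.inr ⟨a, h, rfl⟩))

theorem y_mem_LO : y ∈ LO k x y :=
  Subring.subset_closure (Or.inr rfl)

/-- An element of `LO` of norm less than one plus a constant; an element of `LO` of norm one is
`c * (1 - δ)` with `δ ∈ LO`, `‖δ‖ < 1`. -/
theorem LO_unit (hA : Amb r k W) (hy : ‖y‖ ≤ 1) {z : W} (hz : z ∈ LO k x y) (h1 : ‖z‖ = 1) :
    ∃ c : k, c ≠ 0 ∧ ∃ δ ∈ LO k x y, ‖δ‖ < 1 ∧ z = algebraMap k W c * (1 - δ) := by
  have _ := hy
  obtain ⟨c, hc⟩ := hA.res z h1.le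
  have hc0 : c ≠ 0 := by
    rintro rfl
    rw [map_zero, sub_zero, h1] at hc
    exact lt_irrefl _ hc
  have hc1 : algebraMap k W c ≠ 0 := fun h => hc0 ((map_eq_zero _).1 h)
  refine ⟨c, hc0, algebraMap k W c⁻¹ * (algebraMap k W c - z),
    mul_mem (algebraMap_mem_LO _) (sub_mem (algebraMap_mem_LO _) hz), ?_, ?_⟩
  · rw [norm_mul, hA.unit _ (inv_ne_zero hc0), one_mul, norm_sub_rev]
    exact hc
  · rw [map_inv₀]
    field_simp
    ring

/-! ### The predicate `Mo` for the ring `OO`. -/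

theorem Mo.mul {A : Subring W} (hx : ∀ i, x i ≠ 0) {z z' : W} (h : Mo A x z) (h' : Mo A x z') :
    Mo A x (z * z') := by
  obtain ⟨a, u, hu, hu1, rfl⟩ := h
  obtain ⟨a', u', hu', hu1', rfl⟩ := h'
  exact ⟨a + a', u * u', mul_mem hu hu', by rw [norm_mul, hu1, hu1', one_mul],
    by rw [mon_add x hx]; ring⟩

theorem Mo.mon (A : Subring W) (a : Fin r → ℤ) : Mo A x (mon x a) :=
  ⟨a, 1, one_mem _, norm_one, (mul_one _).symm⟩

theorem Mo.inv (hA : Amb r k W) (hx : ∀ i, x i ≠ 0) (hy : ‖y‖ ≤ 1) {z : W}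
    (h : Mo (OO k x y) x z) : Mo (OO k x y) x z⁻¹ := by
  have _ := hx
  obtain ⟨a, u, hu, hu1, rfl⟩ := h
  exact ⟨-a, u⁻¹, inv_mem_OO hA hy hu hu1, by rw [norm_inv, hu1, inv_one],
    by rw [mon_neg, mul_inv]⟩

theorem Mo.ne {A : Subring W} (hx : ∀ i, x i ≠ 0) {z : W} (h : Mo A x z) : z ≠ 0 := by
  obtain ⟨a, u, hu, hu1, rfl⟩ := h
  have hu0 : u ≠ 0 := fun h => by rw [h, norm_zero] at hu1; exact zero_ne_one hu1
  exact mul_ne_zero (mon_ne x hx a) hu0

/-- A monomial element of norm at most one lies in `OO`. -/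
theorem Mo.mem_OO (hA : Amb r k W) (hy : ‖y‖ ≤ 1) {z : W} (h : Mo (OO k x y) x z)
    (h1 : ‖z‖ ≤ 1) : z ∈ OO k x y := by
  obtain ⟨a, u, hu, hu1, rfl⟩ := h
  rw [norm_mul, hu1, mul_one] at h1
  exact mul_mem (LO_le_OO hA hy (mon_mem_LO h1)) hu

private theorem norm_mon_pos (hx : ∀ i, x i ≠ 0) (a : Fin r → ℤ) : 0 < ‖mon x a‖ :=
  norm_pos_iff.2 (mon_ne x hx a)

/-- `d = 0`: the value of a Laurent polynomial with leading exponent `(a0, 0)` is a monomial times
a unit; moreover it is `c x^a0 (1 + small)`.  Proof: `mon x (-a0) * ev x y P` is in `LO` (all its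
exponents `a - a0` have norm at most one), and all its terms except the constant one are small. -/
theorem lead_zero (hA : Amb r k W) (hx : Indep x) (hy : ‖y‖ < 1) {P : LP k r} {a0 : Fin r → ℤ}
    (h : Lead x P a0 0) : Mo (OO k x y) x (ev x y P) ∧
      ‖ev x y P - algebraMap k W (P.coeff (a0, 0)) * mon x a0‖ < ‖mon x a0‖ := by
  obtain ⟨P', hP', hP'c⟩ := exists_shift x y hx.ne P (-a0)
  have hpos := norm_mon_pos hx.ne a0
  have hshift : ∀ a : Fin r → ℤ, a - -a0 = a + a0 := fun a => sub_neg_eq_add a a0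
  have hle : ∀ a j, P'.coeff (a, j) ≠ 0 → ‖mon x a‖ ≤ 1 := by
    intro a j haj
    rw [hP'c, hshift] at haj
    have h1 := h.max _ _ haj
    rw [mon_add x hx.ne, norm_mul] at h1
    exact le_of_mul_le_mul_right (by rwa [one_mul]) hpos
  have hLO : ev x y P' ∈ LO k x y := (mem_LO_iff hx.ne _).2 ⟨P', hle, rfl⟩
  have hc0 : P'.coeff (0, 0) = P.coeff (a0, 0) := by rw [hP'c, hshift, zero_add]
  have hsm : ‖ev x y P' - algebraMap k W (P.coeff (a0, 0))‖ < 1 := by
    have h2 := norm_ev_sub_lt (x := x) (y := y) hA P' 0 0 1 one_pos (by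
      intro a j haj hne
      rw [norm_mul, norm_pow]
      by_cases ha : a = 0
      · have hj : j ≠ 0 := fun hj => hne (by rw [ha, hj])
        rw [ha, mon_zero, norm_one, one_mul]
        exact pow_lt_one₀ (norm_nonneg _) hy hj
      · have h3 : ‖mon x a‖ < 1 := lt_of_le_of_ne (hle a j haj) fun h4 => ha (hx.indep a h4)
        exact mul_lt_one_of_nonneg_of_lt_one_left (norm_nonneg _) h3
          (pow_le_one₀ (norm_nonneg _) hy.le))
    rwa [hc0, mon_zero, pow_zero, mul_one, mul_one] at h2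
  have hn1 : ‖ev x y P'‖ = 1 := by
    have h3 : ‖algebraMap k W (P.coeff (a0, 0))‖ = 1 := hA.unit _ h.mem
    have h4 : ‖ev x y P' - algebraMap k W (P.coeff (a0, 0))‖ <
        ‖algebraMap k W (P.coeff (a0, 0))‖ := by rw [h3]; exact hsm
    have h5 : ev x y P' = (ev x y P' - algebraMap k W (P.coeff (a0, 0))) +
        algebraMap k W (P.coeff (a0, 0)) := by ring
    rw [h5, IsUltrametricDist.norm_add_eq_max_of_norm_ne_norm h4.ne, max_eq_right h4.le, h3]
  have hev : ev x y P = mon x a0 * ev x y P' := by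
    rw [hP', mon_neg, mul_inv_cancel_left₀ (mon_ne x hx.ne a0)]
  refine ⟨⟨a0, ev x y P', LO_le_OO hA hy.le hLO, hn1, hev⟩, ?_⟩
  have h6 : ev x y P - algebraMap k W (P.coeff (a0, 0)) * mon x a0 =
      mon x a0 * (ev x y P' - algebraMap k W (P.coeff (a0, 0))) := by
    rw [hev]; ring
  rw [h6, norm_mul]
  exact mul_lt_of_lt_one_right hpos hsm

/-- Every nonzero Laurent polynomial has a leading exponent. -/
theorem exists_lead (hx : Indep x) (P : LP k r) (hP : P ≠ 0) : ∃ a0 d, Lead x P a0 d := by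
  classical
  have _ := hx
  have h0 : P.coeff.support.Nonempty := by
    rw [Finsupp.support_nonempty_iff]
    exact fun h => hP (AddMonoidAlgebra.coeff_eq_zero.1 h)
  obtain ⟨m, hm, hmax⟩ := Finset.exists_max_image P.coeff.support (fun m => ‖mon x m.1‖) h0
  have hex : ∃ j, P.coeff (m.1, j) ≠ 0 := ⟨m.2, Finsupp.mem_support_iff.1 hm⟩
  exact ⟨m.1, Nat.find hex, Nat.find_spec hex,
    fun a j haj => hmax (a, j) (Finsupp.mem_support_iff.2 haj),
    fun j hj => Nat.find_min' hex hj⟩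

/-- `‖ev x y P‖ ≤ ‖mon x a0‖`, with strict inequality if `d ≥ 1`. -/
theorem norm_ev_le_lead (hA : Amb r k W) (hx : Indep x) (hy : ‖y‖ < 1) {P : LP k r}
    {a0 : Fin r → ℤ} {d : ℕ} (h : Lead x P a0 d) :
    ‖ev x y P‖ ≤ ‖mon x a0‖ ∧ (1 ≤ d → ‖ev x y P‖ < ‖mon x a0‖) := by
  have hpos := norm_mon_pos hx.ne a0
  constructor
  · refine norm_ev_le hA P _ (norm_nonneg _) fun a j haj => ?_
    rw [norm_mul, norm_pow]
    exact (mul_le_of_le_one_right (norm_nonneg _) (pow_le_one₀ (norm_nonneg _) hy.le)).trans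
      (h.max a j haj)
  · intro hd
    refine norm_ev_lt hA P _ hpos fun a j haj => ?_
    rw [norm_mul, norm_pow]
    by_cases ha : a = a0
    · rw [ha] at haj ⊢
      have hj : 1 ≤ j := hd.trans (h.min j haj)
      exact mul_lt_of_lt_one_right hpos (pow_lt_one₀ (norm_nonneg _) hy (by omega))
    · refine lt_of_le_of_lt
        (mul_le_of_le_one_right (norm_nonneg _) (pow_le_one₀ (norm_nonneg _) hy.le)) ?_
      exact lt_of_le_of_ne (h.max a j haj) fun h4 => ha (norm_mon_inj hx h4)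

end norm

end Pool.Agent.Lib.TDO
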