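import Pool.Agent.Lib.TDO.Ev

/-!
# Module Tr: algebraic independence is inherited

`ev x y` injective means that `x 0, .., x (r-1), y` are algebraically independent over `k`
(Laurent polynomials times a monomial are polynomials).  If `x i` and `y` are algebraic over
`Kxy x' y'`, which is generated by `r + 1` elements, the transcendence degree of `Kxy x' y'` is
`r + 1`, so `x', y'` is a transcendence basis of it (`Algebra.trdeg`, or
`IsTranscendenceBasis` exchange: a spanning family of cardinality the transcendence degree).
-/

namespace Pool.Agent.Lib.TDO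

open Pool.Agent.Lib.MP_3029eb_ag Pool.Agent.Lib.MP_3029eb_ag.Abh

private lemma tr_prod {k W : Type} [Field k] [Field W] [Algebra k W] {r : ℕ} (x : Fin r → W)
    (y : W) (d : Option (Fin r) →₀ ℕ) (c : k) :
    MvPolynomial.aeval (fun o : Option (Fin r) => o.elim y x) (MvPolynomial.monomial d c) =
      algebraMap k W c * ((∏ i, x i ^ d (some i)) * y ^ d none) := by
  rw [MvPolynomial.aeval_monomial, Finsupp.prod_fintype _ _ (fun o => pow_zero _),
    Fintype.prod_option]
  simp only [Option.elim]
  ring

private lemma tr_ev {k W : Type} [Field k] [Field W] [Algebra k W] {r : ℕ} (x : Fin r → W)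
    (y : W) (P : LP k r) : ev x y P =
      ∑ m ∈ P.coeff.support, algebraMap k W (P.coeff m) * (mon x m.1 * y ^ m.2) := rfl

/-- `ev` injective iff algebraically independent. -/
theorem tr_iff {k W : Type} [Field k] [Field W] [Algebra k W] {r : ℕ} (x : Fin r → W) (y : W)
    (hx : ∀ i, x i ≠ 0) : (∀ P : LP k r, ev x y P = 0 → P = 0) ↔
      AlgebraicIndependent k (fun o : Option (Fin r) => o.elim y x) := by
  classical
  constructor
  · intro h
    rw [algebraicIndependent_iff]
    intro p hp
    set φ : (Option (Fin r) →₀ ℕ) → (Fin r → ℤ) × ℕ := fun d => (fun i => (d (some i) : ℤ), d none)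
      with hφ
    have hinj : Function.Injective φ := by
      intro d d' hd
      rw [hφ] at hd
      simp only [Prod.mk.injEq] at hd
      ext o
      cases o with
      | none => exact hd.2
      | some i =>
        have := congrFun hd.1 i
        exact_mod_cast this
    set P : LP k r := ∑ d ∈ p.support, AddMonoidAlgebra.single (φ d) (p.coeff d) with hP
    have hev : ev x y P = 0 := by
      rw [hP, ev_sum, ← hp]
      conv_rhs => rw [p.as_sum]
      rw [map_sum]
      refine Finset.sum_congr rfl (fun d _ => ?_)
      rw [ev_single, tr_prod]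
      congr 2
      unfold MP_3029eb_ag.Abh.mon
      refine Finset.prod_congr rfl (fun i _ => ?_)
      rw [hφ]
      exact zpow_natCast _ _
    have hP0 := h P hev
    rw [← MvPolynomial.support_eq_empty, Finset.eq_empty_iff_forall_notMem]
    intro d hd
    have h1 : P.coeff (φ d) = p.coeff d := by
      rw [hP, AddMonoidAlgebra.coeff_sum, Finsupp.finsetSum_apply,
        Finset.sum_eq_single_of_mem d hd]
      · rw [AddMonoidAlgebra.coeff_single, Finsupp.single_eq_same]
      · intro d' _ hne
        rw [AddMonoidAlgebra.coeff_single, Finsupp.single_eq_of_ne]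
        intro he
        exact hne (hinj he.symm)
    rw [hP0] at h1
    have h2 : p.coeff d ≠ 0 := MvPolynomial.mem_support_iff.1 hd
    exact h2 (by rw [← h1]; rfl)
  · intro h P hP
    rw [algebraicIndependent_iff] at h
    set N : ℕ := P.coeff.support.sup (fun m => Finset.univ.sup (fun i => (m.1 i).natAbs)) with hN
    have hNle : ∀ m ∈ P.coeff.support, ∀ i, 0 ≤ m.1 i + N := by
      intro m hm i
      have h1 : (m.1 i).natAbs ≤ Finset.univ.sup (fun i => (m.1 i).natAbs) :=
        Finset.le_sup (f := fun i => (m.1 i).natAbs) (Finset.mem_univ i)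
      have h2 : Finset.univ.sup (fun i => (m.1 i).natAbs) ≤ N :=
        Finset.le_sup (f := fun m : (Fin r → ℤ) × ℕ => Finset.univ.sup (fun i => (m.1 i).natAbs)) hm
      omega
    set ψ : (Fin r → ℤ) × ℕ → (Option (Fin r) →₀ ℕ) := fun m =>
      Finsupp.equivFunOnFinite.symm (fun o => o.elim m.2 (fun i => (m.1 i + N).toNat)) with hψ
    have hψs : ∀ m i, ψ m (some i) = (m.1 i + N).toNat := fun m i => rfl
    have hψn : ∀ m, ψ m none = m.2 := fun m => rfl
    have hinj : ∀ m ∈ P.coeff.support, ∀ m' ∈ P.coeff.support, ψ m = ψ m' → m = m' := by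
      intro m hm m' hm' he
      refine Prod.ext ?_ ?_
      · funext i
        have h1 := DFunLike.congr_fun he (some i)
        rw [hψs, hψs] at h1
        have h2 := hNle m hm i
        have h3 := hNle m' hm' i
        omega
      · have h1 := DFunLike.congr_fun he none
        rwa [hψn, hψn] at h1
    set p : MvPolynomial (Option (Fin r)) k :=
      ∑ m ∈ P.coeff.support, MvPolynomial.monomial (ψ m) (P.coeff m) with hp
    have hp0 : MvPolynomial.aeval (fun o : Option (Fin r) => o.elim y x) p = 0 := by
      have h1 : MvPolynomial.aeval (fun o : Option (Fin r) => o.elim y x) p =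
          mon x (fun _ => (N : ℤ)) * ev x y P := by
        rw [hp, map_sum, tr_ev, Finset.mul_sum]
        refine Finset.sum_congr rfl (fun m hm => ?_)
        rw [tr_prod, hψn]
        have h2 : ∏ i, x i ^ ψ m (some i) = mon x (fun _ => (N : ℤ)) * mon x m.1 := by
          unfold MP_3029eb_ag.Abh.mon
          rw [← Finset.prod_mul_distrib]
          refine Finset.prod_congr rfl (fun i _ => ?_)
          rw [hψs, ← zpow_natCast, Int.toNat_of_nonneg (hNle m hm i), add_comm,
            zpow_add₀ (hx i)]
        rw [h2]
        ring
      rw [h1, hP, mul_zero]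
    have hpz := h p hp0
    rw [← AddMonoidAlgebra.coeff_eq_zero]
    ext m
    by_contra hne
    have hm : m ∈ P.coeff.support := Finsupp.mem_support_iff.2 hne
    have h1 : p.coeff (ψ m) = P.coeff m := by
      rw [hp, MvPolynomial.coeff_sum, Finset.sum_eq_single_of_mem m hm]
      · rw [MvPolynomial.coeff_monomial, if_pos rfl]
      · intro m' hm' hne'
        rw [MvPolynomial.coeff_monomial, if_neg]
        intro he
        exact hne' (hinj m' hm' m hm he)
    rw [hpz, MvPolynomial.coeff_zero] at h1
    exact hne h1.symm

theorem tr_of_algebraic {k W : Type} [Field k] [Field W] [Algebra k W] {r : ℕ} (x : Fin r → W)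
    (y : W) (hx : ∀ i, x i ≠ 0) (h : ∀ P : LP k r, ev x y P = 0 → P = 0) (x' : Fin r → W)
    (y' : W) (hx' : ∀ i, x' i ≠ 0) (h1 : ∀ i, IsAlgebraic (Kxy k x' y') (x i))
    (h2 : IsAlgebraic (Kxy k x' y') y) : ∀ P : LP k r, ev x' y' P = 0 → P = 0 := by
  classical
  rw [tr_iff x y hx] at h
  rw [tr_iff x' y' hx']
  set v : Option (Fin r) → W := fun o => o.elim y x with hv
  set v' : Option (Fin r) → W := fun o => o.elim y' x' with hv'
  have hrange : Set.range v' = Set.range x' ∪ {y'} := by
    ext z
    simp only [Set.mem_range, Set.mem_union, Set.mem_singleton_iff]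
    constructor
    · rintro ⟨o, rfl⟩
      cases o with
      | none => exact Or.inr rfl
      | some i => exact Or.inl ⟨i, rfl⟩
    · rintro (⟨i, rfl⟩ | rfl)
      · exact ⟨some i, rfl⟩
      · exact ⟨none, rfl⟩
  have halg : ∀ o, IsAlgebraic (Algebra.adjoin k (Set.range v')) (v o) := by
    intro o
    have h3 : IsAlgebraic (IntermediateField.adjoin k (Set.range v')) (v o) := by
      rw [hrange]
      cases o with
      | none => exact h2
      | some i => exact h1 i
    exact IntermediateField.isAlgebraic_adjoin_iff.1 h3
  have hcl : Set.range v ⊆ (AlgebraicIndependent.matroid k W).closure (Set.range v') := by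
    rw [AlgebraicIndependent.matroid_closure_eq]
    rintro z ⟨o, rfl⟩
    exact halg o
  have hind : (AlgebraicIndependent.matroid k W).Indep (Set.range v) := by
    rw [AlgebraicIndependent.matroid_indep_iff]
    exact h.to_subtype_range
  have hfin : (Set.range v').Finite := Set.finite_range v'
  have hcard : (Set.range v).encard = (Fintype.card (Option (Fin r)) : ℕ∞) := by
    rw [← Set.image_univ, h.injective.encard_image, Set.encard_univ, ENat.card_eq_coe_fintype_card]
  have hcard' : (Set.range v').encard ≤ (Fintype.card (Option (Fin r)) : ℕ∞) := by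
    rw [← Set.image_univ]
    refine (Set.encard_image_le _ _).trans ?_
    rw [Set.encard_univ, ENat.card_eq_coe_fintype_card]
  have hrk : (Fintype.card (Option (Fin r)) : ℕ∞) ≤
      (AlgebraicIndependent.matroid k W).eRk (Set.range v') := by
    rw [← Matroid.eRk_closure_eq, ← hcard]
    exact hind.encard_le_eRk_of_subset hcl
  have hle := (AlgebraicIndependent.matroid k W).eRk_le_encard (Set.range v')
  have hrk' : (AlgebraicIndependent.matroid k W).eRk (Set.range v') = (Set.range v').encard :=
    le_antisymm hle (hcard'.trans hrk)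
  have hind' : (AlgebraicIndependent.matroid k W).Indep (Set.range v') :=
    (Matroid.indep_iff_eRk_eq_encard_of_finite hfin).2 hrk'
  have hinj' : Function.Injective v' := by
    have h3 : (Set.range v').encard = (Fintype.card (Option (Fin r)) : ℕ∞) :=
      le_antisymm hcard' (hrk.trans hle)
    have h4 : (v' '' Set.univ).encard = (Set.univ : Set (Option (Fin r))).encard := by
      rw [Set.image_univ, h3, Set.encard_univ, ENat.card_eq_coe_fintype_card]
    have h5 := Set.finite_univ.injOn_of_encard_image_eq h4
    exact Set.injOn_univ.1 h5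
  rw [AlgebraicIndependent.matroid_indep_iff] at hind'
  exact AlgebraicIndependent.of_subtype_range hinj' hind'

end Pool.Agent.Lib.TDO
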