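import Pool.Agent.Lib.TDO.BDefs
import Pool.Agent.Lib.TDO.Cl

/-!
# Module EtPres: existence of the etale equation
-/

namespace Pool.Agent.Lib.TDO

open Pool.Agent.Lib.MP_3029eb_ag Pool.Agent.Lib.MP_3029eb_ag.Abh

section
variable {k W : Type} [Field k] [NormedField W] [IsUltrametricDist W] [Algebra k W]

omit [IsUltrametricDist W] in
private lemma etp_prim (E : IntermediateField k W) (G : Finset W)
    (hG : ∀ g ∈ G, IsSeparable E g) :
    ∃ τ : W, IsSeparable E τ ∧
      E ⊔ IntermediateField.adjoin k {τ} = E ⊔ IntermediateField.adjoin k (G : Set W) := by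
  have hint : ∀ x ∈ (G : Set W), IsIntegral E x := fun x hx => (hG x hx).isIntegral
  have : FiniteDimensional E (IntermediateField.adjoin E (G : Set W)) :=
    IntermediateField.finiteDimensional_adjoin hint
  have : Algebra.IsSeparable E (IntermediateField.adjoin E (G : Set W)) :=
    (IntermediateField.isSeparable_adjoin_iff_isSeparable E W).2 hG
  obtain ⟨α, hα⟩ := Field.exists_primitive_element E (IntermediateField.adjoin E (G : Set W))
  have h1 : IntermediateField.adjoin E {(α : W)} = IntermediateField.adjoin E (G : Set W) := by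
    have h2 := congrArg IntermediateField.lift hα
    rwa [IntermediateField.lift_adjoin_simple, IntermediateField.lift_top] at h2
  refine ⟨α, ?_, ?_⟩
  · have h3 : IsSeparable E α := Algebra.IsSeparable.isSeparable E α
    have h4 := minpoly.algebraMap_eq (A := E)
      (B := IntermediateField.adjoin E (G : Set W)) (B' := W)
      (algebraMap (IntermediateField.adjoin E (G : Set W)) W).injective α
    unfold IsSeparable at h3 ⊢
    rw [← h4] at h3
    exact h3
  · rw [← IntermediateField.restrictScalars_adjoin_eq_sup,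
      ← IntermediateField.restrictScalars_adjoin_eq_sup, h1]

omit [IsUltrametricDist W] in
private lemma etp_pi (E : IntermediateField k W) (hnt : ∃ z ∈ E, z ≠ 0 ∧ ‖z‖ < 1) (ε : ℝ)
    (hε : 0 < ε) : ∃ π ∈ E, π ≠ 0 ∧ ‖π‖ < ε := by
  obtain ⟨z, hz, hz0, hz1⟩ := hnt
  obtain ⟨n, hn⟩ := exists_pow_lt_of_lt_one hε hz1
  exact ⟨z ^ n, pow_mem hz n, pow_ne_zero _ hz0, by rw [norm_pow]; exact hn⟩

end

/-- Primitive element theorem and Newton: `F2 = E ⊔ adjoin k G`, `G` finite, separable over `E`,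
contained in `cl E`.  `F2 = E(τ0)`, `g` the minimal polynomial of `τ0` over `E`, `g'(τ0) ≠ 0`.
Choose `π ∈ E`, `π ≠ 0` small such that `‖g_j(t)‖ ‖π‖^(j-1) < ‖g'(t)‖` for `j ≥ 2` and all `t` with
`‖t - τ0‖ ≤ ‖π‖` (`g_j` the Hasse derivatives), `‖g'(t)‖ = ‖g'(τ0)‖` there; choose `t0 ∈ E` with
`‖t0 - τ0‖ < ‖π‖`; `τ = (τ0 - t0) / π`, `P(T) = g(t0 + π T) / (g'(t0) π)`: irreducible (an affine
substitution of an irreducible polynomial), coefficient of `T` equal to `1`,
`‖c_0‖ = ‖τ + c_2 τ^2 + ..‖ = ‖τ‖ < 1`. -/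
theorem exists_et {k W : Type} [Field k] [NormedField W] [IsUltrametricDist W] [Algebra k W]
    (E : IntermediateField k W) (hnt : ∃ z ∈ E, z ≠ 0 ∧ ‖z‖ < 1) (G : Finset W)
    (hG : ∀ g ∈ G, IsSeparable E g ∧ g ∈ cl E) :
    ∃ (τ : W) (P : Polynomial E), Et E P τ ∧
      E ⊔ IntermediateField.adjoin k {τ} = E ⊔ IntermediateField.adjoin k (G : Set W) := by
  obtain ⟨τ0, hsep, hfld⟩ := etp_prim E G (fun g hg => (hG g hg).1)
  have hτcl : τ0 ∈ cl E := by
    have h1 : E ⊔ IntermediateField.adjoin k (G : Set W) ≤ cl E :=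
      sup_le (le_cl E) (IntermediateField.adjoin_le_iff.2 fun g hg => (hG g hg).2)
    have h2 : τ0 ∈ E ⊔ IntermediateField.adjoin k {τ0} :=
      (le_sup_right : IntermediateField.adjoin k {τ0} ≤ _)
        (IntermediateField.mem_adjoin_simple_self k τ0)
    rw [hfld] at h2
    exact h1 h2
  set g : Polynomial E := minpoly E τ0 with hgdef
  have hint : IsIntegral E τ0 := hsep.isIntegral
  have hgirr : Irreducible g := minpoly.irreducible hint
  have hgroot : Polynomial.aeval τ0 g = 0 := minpoly.aeval E τ0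
  have hder : Polynomial.aeval τ0 (Polynomial.derivative g) ≠ 0 :=
    Polynomial.Separable.aeval_derivative_ne_zero hsep hgroot
  set n := g.natDegree with hn
  -- the Hasse derivatives as functions on W
  let H : ℕ → W → W := fun j t => Polynomial.aeval t (Polynomial.hasseDeriv j g)
  have hH1 : ∀ t, H 1 t = Polynomial.aeval t (Polynomial.derivative g) := by
    intro t
    show Polynomial.aeval t (Polynomial.hasseDeriv 1 g) = _
    rw [Polynomial.hasseDeriv_one]
  have hcont : ∀ j, Continuous (H j) := by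
    intro j
    show Continuous fun t : W => Polynomial.aeval t (Polynomial.hasseDeriv j g)
    have : (fun t : W => Polynomial.aeval t (Polynomial.hasseDeriv j g)) =
        fun t : W => ((Polynomial.hasseDeriv j g).map (algebraMap E W)).eval t := by
      funext t
      rw [Polynomial.eval_map_algebraMap]
    rw [this]
    exact Polynomial.continuous _
  have hδ : 0 < ‖H 1 τ0‖ := by rw [hH1]; exact norm_pos_iff.2 hder
  set δ := ‖H 1 τ0‖ with hδdef
  -- a neighbourhood of τ0
  have hev : ∀ᶠ t in nhds τ0, ‖H 1 t - H 1 τ0‖ < δ ∧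
      ∀ j ∈ Finset.range (n + 1), ‖H j t‖ < ‖H j τ0‖ + 1 := by
    refine Filter.Eventually.and ?_ ?_
    · have h1 : Filter.Tendsto (fun t => ‖H 1 t - H 1 τ0‖) (nhds τ0)
          (nhds ‖H 1 τ0 - H 1 τ0‖) := ((hcont 1).sub continuous_const).norm.tendsto τ0
      rw [sub_self, norm_zero] at h1
      exact h1.eventually (gt_mem_nhds hδ)
    · rw [Filter.eventually_all_finset]
      intro j _
      exact ((hcont j).norm.tendsto τ0).eventually (gt_mem_nhds (lt_add_one _))
  obtain ⟨ρ, hρ, hball⟩ := Metric.eventually_nhds_iff.1 hev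
  set M : ℝ := ∑ j ∈ Finset.range (n + 1), (‖H j τ0‖ + 1) with hM
  have hMj : ∀ j ∈ Finset.range (n + 1), ‖H j τ0‖ + 1 ≤ M := fun j hj =>
    Finset.single_le_sum (f := fun j => ‖H j τ0‖ + 1)
      (fun i _ => add_nonneg (norm_nonneg _) zero_le_one) hj
  have hM1 : 1 ≤ M := by
    refine le_trans ?_ (hMj 0 (Finset.mem_range.2 (Nat.succ_pos _)))
    have := norm_nonneg (H 0 τ0)
    linarith
  have hMpos : 0 < M := lt_of_lt_of_le one_pos hM1
  obtain ⟨π, hπE, hπ0, hπ⟩ := etp_pi E hnt (min (min 1 ρ) (δ / M))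
    (lt_min (lt_min one_pos hρ) (div_pos hδ hMpos))
  have hπ1 : ‖π‖ < 1 := hπ.trans_le ((min_le_left _ _).trans (min_le_left _ _))
  have hπρ : ‖π‖ < ρ := hπ.trans_le ((min_le_left _ _).trans (min_le_right _ _))
  have hπδ : ‖π‖ * M < δ := by
    have : ‖π‖ < δ / M := hπ.trans_le (min_le_right _ _)
    rwa [lt_div_iff₀ hMpos] at this
  have hπpos : 0 < ‖π‖ := norm_pos_iff.2 hπ0
  obtain ⟨t0, ht0E, ht0⟩ := (mem_cl_iff E τ0).1 hτcl ‖π‖ hπpos
  obtain ⟨hb1, hb2⟩ := hball (y := t0) (by
    rw [dist_comm, dist_eq_norm]; exact ht0.trans hπρ)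
  have hder1 : ‖H 1 t0‖ = δ := by
    have h1 : H 1 t0 = H 1 τ0 + (H 1 t0 - H 1 τ0) := by ring
    rw [h1, IsUltrametricDist.norm_add_eq_max_of_norm_ne_norm (by rw [← hδdef]; exact hb1.ne')]
    exact max_eq_left hb1.le
  -- elements of the field E
  set πE : E := ⟨π, hπE⟩ with hπEdef
  set tE : E := ⟨t0, ht0E⟩ with htEdef
  have hπE0 : πE ≠ 0 := fun h => hπ0 (congrArg (fun z : E => (z : W)) h)
  set cE : E := (Polynomial.hasseDeriv 1 g).eval tE * πE with hcE
  have hHE : ∀ j, (((Polynomial.hasseDeriv j g).eval tE : E) : W) = H j t0 := by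
    intro j
    have := Polynomial.aeval_algebraMap_apply_eq_algebraMap_eval (A := W) tE
      (Polynomial.hasseDeriv j g)
    exact this.symm
  have hcE' : ((cE : E) : W) = H 1 t0 * π := by
    rw [hcE]
    show (((Polynomial.hasseDeriv 1 g).eval tE : E) : W) * (πE : W) = _
    rw [hHE]
  have hcn : ‖((cE : E) : W)‖ = δ * ‖π‖ := by rw [hcE', norm_mul, hder1]
  have hcE0 : cE ≠ 0 := by
    intro h
    rw [h] at hcn
    have h0 : ((0 : E) : W) = 0 := rfl
    rw [h0, norm_zero] at hcn
    exact (mul_pos hδ hπpos).ne hcn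
  set P : Polynomial E := Polynomial.C cE⁻¹ *
    ((Polynomial.taylor tE g).comp (Polynomial.C πE * Polynomial.X)) with hP
  have hPcoeff : ∀ j, P.coeff j = cE⁻¹ * ((Polynomial.hasseDeriv j g).eval tE * πE ^ j) := by
    intro j
    rw [hP, Polynomial.coeff_C_mul, Polynomial.comp_C_mul_X_coeff, Polynomial.taylor_coeff]
  have hPcoeff' : ∀ j, ((P.coeff j : E) : W) = ((cE : E) : W)⁻¹ * (H j t0 * π ^ j) := by
    intro j
    rw [hPcoeff]
    show ((cE : E) : W)⁻¹ * ((((Polynomial.hasseDeriv j g).eval tE : E) : W) * π ^ j) = _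
    rw [hHE]
  have hcomp : (Polynomial.taylor tE g).comp (Polynomial.C πE * Polynomial.X) =
      g.comp (Polynomial.C πE * Polynomial.X + Polynomial.C tE) := by
    rw [Polynomial.taylor_apply, Polynomial.comp_assoc, Polynomial.add_comp, Polynomial.X_comp,
      Polynomial.C_comp]
  set τ : W := (τ0 - t0) / π with hτ
  have hτ1 : ‖τ‖ < 1 := by
    rw [hτ, norm_div]
    exact (div_lt_one hπpos).2 ht0
  have hτ0 : π * τ + t0 = τ0 := by
    rw [hτ]; field_simp; ring
  have hroot : Polynomial.aeval τ P = 0 := by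
    rw [hP, map_mul, hcomp, Polynomial.aeval_comp]
    have h1 : Polynomial.aeval τ (Polynomial.C πE * Polynomial.X + Polynomial.C tE) = τ0 := by
      rw [map_add, map_mul, Polynomial.aeval_X, Polynomial.aeval_C, Polynomial.aeval_C]
      exact hτ0
    rw [h1, hgroot, mul_zero]
  have hirr : Irreducible P := by
    have hu : IsUnit (Polynomial.C cE⁻¹ : Polynomial E) :=
      Polynomial.isUnit_C.2 (IsUnit.mk0 _ (inv_ne_zero hcE0))
    rw [hP, irreducible_isUnit_mul hu, hcomp]
    have : Invertible πE := invertibleOfNonzero hπE0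
    have h1 : g.comp (Polynomial.C πE * Polynomial.X + Polynomial.C tE) =
        Polynomial.algEquivCMulXAddC πE tE g := by
      rw [Polynomial.algEquivCMulXAddC_apply]
      rfl
    rw [h1]
    exact (MulEquiv.irreducible_iff (Polynomial.algEquivCMulXAddC πE tE)).2 hgirr
  have hc1 : P.coeff 1 = 1 := by
    rw [hPcoeff, pow_one, ← hcE]
    exact inv_mul_cancel₀ hcE0
  -- coefficients j ≥ 2
  have hc2 : ∀ j, 2 ≤ j → ‖((P.coeff j : E) : W)‖ < 1 := by
    intro j hj
    by_cases hjn : j ≤ n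
    · rw [hPcoeff', norm_mul, norm_inv, hcn, norm_mul, norm_pow]
      have hHj : ‖H j t0‖ < M :=
        (hb2 j (Finset.mem_range.2 (Nat.lt_succ_of_le hjn))).trans_le
          (hMj j (Finset.mem_range.2 (Nat.lt_succ_of_le hjn)))
      have hpow : ‖π‖ ^ j ≤ ‖π‖ * ‖π‖ := by
        have h2 : ‖π‖ ^ j ≤ ‖π‖ ^ 2 := pow_le_pow_of_le_one (norm_nonneg _) hπ1.le hj
        rwa [pow_two] at h2
      rw [inv_mul_lt_iff₀ (mul_pos hδ hπpos), mul_one]
      calc ‖H j t0‖ * ‖π‖ ^ j ≤ M * (‖π‖ * ‖π‖) :=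
            mul_le_mul hHj.le hpow (pow_nonneg (norm_nonneg _) _) hMpos.le
        _ = (‖π‖ * M) * ‖π‖ := by ring
        _ < δ * ‖π‖ := mul_lt_mul_of_pos_right hπδ hπpos
    · have h0 : P.coeff j = 0 := by
        rw [hPcoeff, Polynomial.hasseDeriv_eq_zero_of_lt_natDegree g j (not_le.1 hjn),
          Polynomial.eval_zero, zero_mul, mul_zero]
      rw [h0]
      have h0' : ((0 : E) : W) = 0 := rfl
      rw [h0', norm_zero]
      exact one_pos
  -- the constant coefficient
  have hc0 : ‖((P.coeff 0 : E) : W)‖ < 1 := by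
    rw [Polynomial.aeval_eq_sum_range] at hroot
    have hmem0 : 0 ∈ Finset.range (P.natDegree + 1) := Finset.mem_range.2 (Nat.succ_pos _)
    rw [← Finset.add_sum_erase _ _ hmem0] at hroot
    have h1 : ((P.coeff 0 : E) : W) =
        -∑ j ∈ (Finset.range (P.natDegree + 1)).erase 0, P.coeff j • τ ^ j := by
      have h2 : P.coeff 0 • τ ^ 0 = ((P.coeff 0 : E) : W) := by
        rw [pow_zero, Algebra.smul_def, mul_one]
        rfl
      rw [h2] at hroot
      linear_combination hroot
    rw [h1, norm_neg]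
    refine Finset.sum_induction _ (fun z : W => ‖z‖ < 1) ?_ ?_ fun j hj => ?_
    · intro a b ha hb
      exact (IsUltrametricDist.norm_add_le_max a b).trans_lt (max_lt ha hb)
    · show ‖(0 : W)‖ < 1
      rw [norm_zero]; exact one_pos
    · have hj0 : j ≠ 0 := (Finset.mem_erase.1 hj).1
      show ‖P.coeff j • τ ^ j‖ < 1
      have h3 : P.coeff j • τ ^ j = ((P.coeff j : E) : W) * τ ^ j := by
        rw [Algebra.smul_def]; rfl
      rw [h3, norm_mul, norm_pow]
      have hle : ‖((P.coeff j : E) : W)‖ ≤ 1 := by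
        rcases Nat.lt_or_ge j 2 with h4 | h4
        · have h5 : j = 1 := by omega
          rw [h5, hc1]
          have h6 : ((1 : E) : W) = 1 := rfl
          rw [h6, norm_one]
        · exact (hc2 j h4).le
      have hpw : ‖τ‖ ^ j < 1 := pow_lt_one₀ (norm_nonneg _) hτ1 hj0
      calc ‖((P.coeff j : E) : W)‖ * ‖τ‖ ^ j ≤ 1 * ‖τ‖ ^ j :=
            mul_le_mul_of_nonneg_right hle (pow_nonneg (norm_nonneg _) _)
        _ < 1 := by rw [one_mul]; exact hpw
  refine ⟨τ, P, ⟨hirr, hc1, ?_, hroot, hτ1⟩, ?_⟩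
  · intro j hj
    rcases Nat.lt_or_ge j 2 with h4 | h4
    · have h5 : j = 0 := by omega
      rw [h5]; exact hc0
    · exact hc2 j h4
  · rw [← hfld]
    refine le_antisymm ?_ ?_
    · refine sup_le le_sup_left (IntermediateField.adjoin_simple_le_iff.2 ?_)
      have hE : ∀ z ∈ E, z ∈ E ⊔ IntermediateField.adjoin k {τ0} := fun z hz =>
        (le_sup_left : E ≤ _) hz
      have h2 : τ0 ∈ E ⊔ IntermediateField.adjoin k {τ0} :=
        (le_sup_right : IntermediateField.adjoin k {τ0} ≤ _)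
          (IntermediateField.mem_adjoin_simple_self k τ0)
      exact div_mem (sub_mem h2 (hE _ ht0E)) (hE _ hπE)
    · refine sup_le le_sup_left (IntermediateField.adjoin_simple_le_iff.2 ?_)
      have hE : ∀ z ∈ E, z ∈ E ⊔ IntermediateField.adjoin k {τ} := fun z hz =>
        (le_sup_left : E ≤ _) hz
      have h2 : τ ∈ E ⊔ IntermediateField.adjoin k {τ} :=
        (le_sup_right : IntermediateField.adjoin k {τ} ≤ _)
          (IntermediateField.mem_adjoin_simple_self k τ)
      rw [← hτ0]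
      exact add_mem (mul_mem (hE _ hπE) h2) (hE _ ht0E)

end Pool.Agent.Lib.TDO
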