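import Pool.Agent.Lib.TDO.Cl

/-!
# Module Iso: automorphisms over a complete field are isometries

`L` complete, not trivially normed; `N / L` algebraic inside `W`.  The norm of `W` restricted to
`N` is the spectral norm over `L` (`NormedAlgebra.norm_eq_spectralNorm`, for the complete
nontrivially normed field `L`), which is invariant (`spectralNorm_eq_of_equiv`).
-/

namespace Pool.Agent.Lib.TDO

theorem isometry_of_complete {k W : Type} [Field k] [NormedField W] [IsUltrametricDist W]
    [Algebra k W] (L : IntermediateField k W) (hL : IsComplete (L : Set W))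
    (hnt : ∃ z ∈ L, z ≠ 0 ∧ ‖z‖ < 1) (N : IntermediateField L W) [Algebra.IsAlgebraic L N]
    (σ : N ≃ₐ[L] N) (z : N) : ‖((σ z : N) : W)‖ = ‖(z : W)‖ := by
  let _ : NontriviallyNormedField L :=
    { (inferInstance : NormedField L) with
      non_trivial := by
        obtain ⟨w, hw, h0, h1⟩ := hnt
        refine ⟨⟨w⁻¹, L.inv_mem hw⟩, ?_⟩
        change 1 < ‖w⁻¹‖
        rw [norm_inv]
        exact (one_lt_inv₀ (norm_pos_iff.2 h0)).2 h1 }
  have _ : CompleteSpace L := hL.completeSpace_coe
  have _ : IsUltrametricDist L :=
    ⟨fun a b c => IsUltrametricDist.dist_triangle_max (a : W) (b : W) (c : W)⟩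
  let f : AbsoluteValue N ℝ :=
    { toFun := fun w => ‖(w : W)‖
      map_mul' := fun a b => by
        change ‖((a * b : N) : W)‖ = _
        rw [IntermediateField.coe_mul, norm_mul]
      nonneg' := fun a => norm_nonneg _
      eq_zero' := fun a => by
        rw [norm_eq_zero]
        exact ⟨fun h => Subtype.ext h, fun h => by rw [h]; rfl⟩
      add_le' := fun a b => by
        change ‖((a + b : N) : W)‖ ≤ _
        rw [IntermediateField.coe_add]
        exact norm_add_le _ _ }
  have h1 : ∀ w : N, f w = spectralNorm L N w :=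
    fun w => spectralNorm_unique_field_norm_ext (K := L) (L := N) (f := f) (fun _ => rfl) w
  have h2 : spectralNorm L N (σ z) = spectralNorm L N z := by
    unfold spectralNorm
    rw [minpoly.algEquiv_eq]
  calc ‖((σ z : N) : W)‖ = f (σ z) := rfl
    _ = f z := by rw [h1, h1, h2]
    _ = ‖(z : W)‖ := rfl

end Pool.Agent.Lib.TDO
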