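import Pool.Agent.Lib.TDO.Mon

/-!
# Module Um: unimodular transformations

Let `x` be independent, `y ≠ 0`, `e ≥ 1` with `‖y‖^e = ‖mon x B‖`, and suppose that no smaller
positive power of `‖y‖` is the norm of a monomial in `x` (so `(-B, e)` is primitive).

Proof.  The additive map `ν~ : ℤ^r × ℤ → ℝ`, `(a, j) ↦ -log ‖mon x a * y^j‖`, has kernel
`ℤ (-B, e)`: if `(a, j)` is in the kernel divide `j` by `e`: `j = q e + j'`, `0 ≤ j' < e`; then
`(a + q B, j')` is in the kernel, so `‖y‖^j'` is the norm of the monomial `-(a + qB)`, `j' = 0` by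
minimality and `a + q B = 0` by independence.  The image `M'` of `ν~` is a finitely generated
torsion-free (sub)group of `ℝ`, hence free (`Module.Free ℤ`); take a basis `ω'` of `M'`; its rank
is `r` (rank-nullity: `r + 1 = 1 + rank`).  Choose preimages `f i ∈ ℤ^r × ℤ` of the basis vectors,
change signs so that `ν~ (f i) > 0`.  Then `f 0, ..., f (r-1), (-B, e)` is a basis of `ℤ^r × ℤ`
(surjectivity and injectivity are immediate), and `T` is the inverse of
`(a', t) ↦ ∑ a' i • f i + t • (-B, e)`.  Put `x' i = mon x (f i).1 * y ^ (f i).2`.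
-/

namespace Pool.Agent.Lib.TDO

open Pool.Agent.Lib.MP_3029eb_ag Pool.Agent.Lib.MP_3029eb_ag.Abh

/-- the monomial with exponent `m` -/
private def umM {W : Type} [Field W] {r : ℕ} (x : Fin r → W) (y : W)
    (m : (Fin r → ℤ) × ℤ) : W := mon x m.1 * y ^ m.2

private lemma umM_add {W : Type} [Field W] {r : ℕ} {x : Fin r → W} {y : W}
    (hx : ∀ i, x i ≠ 0) (hy : y ≠ 0) (m m' : (Fin r → ℤ) × ℤ) :
    umM x y (m + m') = umM x y m * umM x y m' := by
  unfold umM
  rw [Prod.fst_add, Prod.snd_add, mon_add x hx, zpow_add₀ hy]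
  ring

private lemma umM_zero {W : Type} [Field W] {r : ℕ} {x : Fin r → W} {y : W} :
    umM x y 0 = 1 := by
  unfold umM
  rw [Prod.fst_zero, Prod.snd_zero, mon_zero, zpow_zero, one_mul]

private lemma umM_zsmul {W : Type} [Field W] {r : ℕ} {x : Fin r → W} {y : W}
    (n : ℤ) (m : (Fin r → ℤ) × ℤ) : umM x y (n • m) = umM x y m ^ n := by
  unfold umM
  rw [Prod.smul_fst, Prod.smul_snd, mon_zsmul, mul_zpow, smul_eq_mul, mul_comm n, zpow_mul]

private lemma umM_sum {W : Type} [Field W] {r : ℕ} {x : Fin r → W} {y : W}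
    (hx : ∀ i, x i ≠ 0) (hy : y ≠ 0) {ι : Type} (s : Finset ι) (f : ι → (Fin r → ℤ) × ℤ) :
    umM x y (∑ i ∈ s, f i) = ∏ i ∈ s, umM x y (f i) := by
  classical
  induction s using Finset.induction_on with
  | empty => rw [Finset.sum_empty, Finset.prod_empty, umM_zero]
  | insert i s hi ih => rw [Finset.sum_insert hi, Finset.prod_insert hi, umM_add hx hy, ih]

private noncomputable def umNu {W : Type} [NormedField W] {r : ℕ} (x : Fin r → W) (y : W) :
    ((Fin r → ℤ) × ℤ) →ₗ[ℤ] ℝ :=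
  AddMonoidHom.toIntLinearMap
    { toFun := fun m => nu x m.1 + (m.2 : ℝ) * (-Real.log ‖y‖)
      map_zero' := by simp
      map_add' := fun m m' => by
        rw [Prod.fst_add, Prod.snd_add, map_add]
        push_cast
        ring }

private lemma umNu_apply {W : Type} [NormedField W] {r : ℕ} (x : Fin r → W) (y : W)
    (m : (Fin r → ℤ) × ℤ) : umNu x y m = nu x m.1 + (m.2 : ℝ) * (-Real.log ‖y‖) := rfl

private lemma um_norm {W : Type} [NormedField W] {r : ℕ} {x : Fin r → W} {y : W}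
    (hx : ∀ i, x i ≠ 0) (hy : y ≠ 0) (m : (Fin r → ℤ) × ℤ) :
    ‖umM x y m‖ = Real.exp (-umNu x y m) := by
  unfold umM
  rw [norm_mul, norm_mon_eq_exp x hx, norm_zpow, ← Real.rpow_intCast,
    Real.rpow_def_of_pos (norm_pos_iff.2 hy), ← Real.exp_add, umNu_apply]
  congr 1
  ring

private lemma um_ker {W : Type} [NormedField W] {r : ℕ} {x : Fin r → W} (hx : Indep x) {y : W}
    (hy : y ≠ 0) {e : ℕ} (he : 1 ≤ e) {B : Fin r → ℤ} (hB : ‖y‖ ^ e = ‖mon x B‖)
    (hmin : ∀ e' : ℕ, 1 ≤ e' → e' < e → ∀ B' : Fin r → ℤ, ‖y‖ ^ e' ≠ ‖mon x B'‖)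
    (m : (Fin r → ℤ) × ℤ) (hm : umNu x y m = 0) :
    ∃ q : ℤ, m = q • ((-B, (e : ℤ)) : (Fin r → ℤ) × ℤ) := by
  obtain ⟨a, j⟩ := m
  have h1 : ‖umM x y (a, j)‖ = 1 := by rw [um_norm hx.ne hy, hm, neg_zero, Real.exp_zero]
  have hg : ‖umM x y (-B, (e : ℤ))‖ = 1 := by
    unfold umM
    rw [mon_neg, norm_mul, norm_inv, zpow_natCast, norm_pow, hB,
      inv_mul_cancel₀ (norm_ne_zero_iff.2 (mon_ne x hx.ne B))]
  set q := j / (e : ℤ) with hq
  have he0 : (0 : ℤ) < e := by omega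
  have hj' : 0 ≤ j % (e : ℤ) := Int.emod_nonneg _ he0.ne'
  have hj'' : j % (e : ℤ) < e := Int.emod_lt_of_pos _ he0
  have hjj : j - q * e = j % (e : ℤ) := by
    rw [hq, Int.emod_def]; ring
  have h2 : ‖umM x y ((a, j) + (-q) • (-B, (e : ℤ)))‖ = 1 := by
    rw [umM_add hx.ne hy, umM_zsmul, norm_mul, norm_zpow, h1, hg, one_zpow, one_mul]
  have h3 : (a, j) + (-q) • ((-B, (e : ℤ)) : (Fin r → ℤ) × ℤ) = (a + q • B, j % (e : ℤ)) := by
    rw [← hjj]
    refine Prod.ext ?_ ?_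
    · simp
    · simp only [Prod.snd_add, Prod.smul_snd, smul_eq_mul]; ring
  rw [h3] at h2
  have h4 : j % (e : ℤ) = ((j % (e : ℤ)).toNat : ℤ) := (Int.toNat_of_nonneg hj').symm
  have h5 : ‖y‖ ^ (j % (e : ℤ)).toNat = ‖mon x (-(a + q • B))‖ := by
    unfold umM at h2
    rw [h4, zpow_natCast, norm_mul, norm_pow] at h2
    rw [mon_neg, norm_inv]
    exact eq_inv_of_mul_eq_one_right h2
  have h6 : (j % (e : ℤ)).toNat = 0 := by
    by_contra h
    exact hmin _ (by omega) (by omega) _ h5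
  have h7 : j % (e : ℤ) = 0 := by omega
  rw [h6, pow_zero] at h5
  have h8 := hx.indep _ h5.symm
  refine ⟨q, Prod.ext ?_ ?_⟩
  · have h9 : a = -(q • B) := by
      rw [neg_eq_zero] at h8
      exact eq_neg_of_add_eq_zero_left h8
    rw [Prod.smul_fst, smul_neg]
    exact h9
  · rw [Prod.smul_snd, smul_eq_mul]
    change j = q * e
    omega

theorem exists_um {W : Type} [NormedField W] {r : ℕ} (x : Fin r → W) (hx : Indep x) (y : W)
    (hy : y ≠ 0) (e : ℕ) (he : 1 ≤ e) (B : Fin r → ℤ) (hB : ‖y‖ ^ e = ‖mon x B‖)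
    (hmin : ∀ e' : ℕ, 1 ≤ e' → e' < e → ∀ B' : Fin r → ℤ, ‖y‖ ^ e' ≠ ‖mon x B'‖) :
    ∃ (x' : Fin r → W) (T : ((Fin r → ℤ) × ℤ) ≃+ ((Fin r → ℤ) × ℤ)), Indep x' ∧
      T (-B, (e : ℤ)) = (0, 1) ∧
      ∀ (a : Fin r → ℤ) (j : ℤ), mon x a * y ^ j =
        mon x' (T (a, j)).1 * (y ^ e * mon x (-B)) ^ (T (a, j)).2 := by
  classical
  set g : (Fin r → ℤ) × ℤ := (-B, (e : ℤ)) with hg
  have hker := um_ker hx hy he hB hmin
  have hgnu : umNu x y g = 0 := by
    have h1 : ‖umM x y g‖ = 1 := by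
      rw [hg]
      unfold umM
      rw [mon_neg, norm_mul, norm_inv, zpow_natCast, norm_pow, hB,
        inv_mul_cancel₀ (norm_ne_zero_iff.2 (mon_ne x hx.ne B))]
    rw [um_norm hx.ne hy, Real.exp_eq_one_iff, neg_eq_zero] at h1
    exact h1
  let M' := LinearMap.range (umNu x y)
  have hfin : Module.Finite ℤ M' := Module.Finite.range _
  have htf : Module.IsTorsionFree ℤ M' := inferInstance
  have hfree : Module.Free ℤ M' := inferInstance
  let ρ : ((Fin r → ℤ) × ℤ) →ₗ[ℤ] M' := (umNu x y).rangeRestrict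
  obtain ⟨s, hs⟩ := ρ.exists_rightInverse_of_surjective (umNu x y).range_rangeRestrict
  have hρ : ∀ v, ((ρ v : M') : ℝ) = umNu x y v := fun v => rfl
  have hρs : ∀ m, ρ (s m) = m := fun m => LinearMap.congr_fun hs m
  have hρg : ρ g = 0 := Subtype.ext hgnu
  let E0 : (M' × ℤ) →ₗ[ℤ] ((Fin r → ℤ) × ℤ) :=
    LinearMap.coprod s (LinearMap.toSpanSingleton ℤ _ g)
  have hE0 : ∀ m t, E0 (m, t) = s m + t • g := fun m t => by
    simp [E0]
  have hbij : Function.Bijective E0 := by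
    constructor
    · rw [injective_iff_map_eq_zero]
      rintro ⟨m, t⟩ h
      rw [hE0] at h
      have h1 := congrArg ρ h
      rw [map_add, map_smul, hρs, hρg, smul_zero, add_zero, map_zero] at h1
      rw [h1, map_zero, zero_add] at h
      have h2 := congrArg Prod.snd h
      rw [hg, Prod.smul_snd, smul_eq_mul] at h2
      have h3 : t * (e : ℤ) = 0 := h2
      have h4 : t = 0 := by
        rcases mul_eq_zero.1 h3 with h | h
        · exact h
        · omega
      rw [h1, h4]; rfl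
    · intro v
      have h1 : umNu x y (v - s (ρ v)) = 0 := by
        rw [← hρ, map_sub, hρs, sub_self]; rfl
      obtain ⟨q, hq⟩ := hker _ h1
      refine ⟨(ρ v, q), ?_⟩
      rw [hE0, hg, ← hq]; abel
  let E1 : (M' × ℤ) ≃ₗ[ℤ] ((Fin r → ℤ) × ℤ) := LinearEquiv.ofBijective E0 hbij
  have hrank : Module.finrank ℤ M' = r := by
    have h1 := E1.finrank_eq
    rw [Module.finrank_prod, Module.finrank_prod, Module.finrank_self] at h1
    have h2 : Module.finrank ℤ (Fin r → ℤ) = r := by simp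
    omega
  let b0 : Module.Basis (Fin r) ℤ M' :=
    (Module.finBasis ℤ M').reindex (finCongr hrank)
  let b : Module.Basis (Fin r) ℤ M' :=
    b0.unitsSMul (fun i => if 0 < ((b0 i : M') : ℝ) then 1 else -1)
  have hb : ∀ i, 0 < ((b i : M') : ℝ) := by
    intro i
    have h0 : ((b0 i : M') : ℝ) ≠ 0 := by
      intro h
      exact b0.ne_zero i (Subtype.ext h)
    change 0 < ((Module.Basis.unitsSMul b0 _ i : M') : ℝ)
    rw [Module.Basis.unitsSMul_apply]
    split_ifs with h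
    · rw [one_smul]; exact h
    · rw [Units.neg_smul, one_smul]
      push_cast
      push Not at h
      have := lt_of_le_of_ne h h0
      linarith
  let T0 : ((Fin r → ℤ) × ℤ) ≃ₗ[ℤ] ((Fin r → ℤ) × ℤ) :=
    (LinearEquiv.prodCongr b.equivFun.symm (LinearEquiv.refl ℤ ℤ)).trans E1
  have hT0 : ∀ a t, T0 (a, t) = s (∑ i, a i • b i) + t • g := by
    intro a t
    change E0 (b.equivFun.symm a, t) = _
    rw [hE0, Module.Basis.equivFun_symm_apply]
  let T := T0.symm.toAddEquiv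
  have hTs : ∀ m, T.symm m = T0 m := fun m => rfl
  let f : Fin r → (Fin r → ℤ) × ℤ := fun i => s (b i)
  have hfnu : ∀ i, umNu x y (f i) = ((b i : M') : ℝ) := by
    intro i
    rw [← hρ, hρs]
  let x' : Fin r → W := fun i => umM x y (f i)
  have hmonx' : ∀ a, mon x' a = umM x y (s (∑ i, a i • b i)) := by
    intro a
    rw [map_sum, umM_sum hx.ne hy]
    unfold mon
    refine Finset.prod_congr rfl fun i _ => ?_
    rw [map_smul, umM_zsmul]
  have hMne : ∀ m, umM x y m ≠ 0 := fun m => mul_ne_zero (mon_ne x hx.ne _) (zpow_ne_zero _ hy)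
  refine ⟨x', T, ⟨fun i => hMne _, fun i => ?_, fun δ hδ => ?_⟩, ?_, ?_⟩
  · change ‖umM x y (f i)‖ < 1
    rw [um_norm hx.ne hy, hfnu, Real.exp_lt_one_iff]
    linarith [hb i]
  · rw [hmonx', um_norm hx.ne hy, Real.exp_eq_one_iff, neg_eq_zero, ← hρ, hρs] at hδ
    have h1 : (∑ i, δ i • b i : M') = 0 := Subtype.ext hδ
    have h2 : b.equivFun.symm δ = 0 := by
      rw [Module.Basis.equivFun_symm_apply]; exact h1
    exact (LinearEquiv.map_eq_zero_iff _).1 h2
  · rw [← T.symm_apply_eq.trans eq_comm, hTs, hT0]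
    simp
  · intro a j
    have h1 : (a, j) = T0 (T (a, j)) := (T.symm_apply_apply (a, j)).symm
    have h2 : umM x y (a, j) = umM x y (T0 (T (a, j))) := by rw [← h1]
    have h3 : T0 (T (a, j)) = s (∑ i, (T (a, j)).1 i • b i) + (T (a, j)).2 • g := hT0 _ _
    rw [h3, umM_add hx.ne hy, umM_zsmul, ← hmonx'] at h2
    have h4 : umM x y g = y ^ e * mon x (-B) := by
      rw [hg]
      unfold umM
      rw [zpow_natCast, mul_comm]
    rw [h4] at h2
    exact h2

/-- The same with nonnegative last exponents on a given finite set of exponents whose monomials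
have norm greater than one.  Proof: take `x', T` from `exists_um`, let `w = y^e * mon x (-B)`
(of norm one).  For `l : Fin r → ℤ` put `x'' i = x' i * w ^ (- l i)` (same norms) and
`T'' m = ((T m).1, (T m).2 + ∑ i, l i * (T m).1 i)`.  Choose `l i = - ⌈C * wt x' i⌉` with `C` large:
for `m ∈ X`, `nu x' (T m).1 < 0`, so `∑ i, l i * (T m).1 i ≥ C * |nu x' (T m).1| - ∑ |(T m).1 i|`. -/
theorem exists_um_nonneg {W : Type} [NormedField W] {r : ℕ} (x : Fin r → W) (hx : Indep x)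
    (y : W) (hy : y ≠ 0) (e : ℕ) (he : 1 ≤ e) (B : Fin r → ℤ) (hB : ‖y‖ ^ e = ‖mon x B‖)
    (hmin : ∀ e' : ℕ, 1 ≤ e' → e' < e → ∀ B' : Fin r → ℤ, ‖y‖ ^ e' ≠ ‖mon x B'‖)
    (X : Finset ((Fin r → ℤ) × ℤ)) (hX : ∀ m ∈ X, 1 < ‖mon x m.1 * y ^ m.2‖) :
    ∃ (x' : Fin r → W) (T : ((Fin r → ℤ) × ℤ) ≃+ ((Fin r → ℤ) × ℤ)), Indep x' ∧
      T (-B, (e : ℤ)) = (0, 1) ∧
      (∀ (a : Fin r → ℤ) (j : ℤ), mon x a * y ^ j =
        mon x' (T (a, j)).1 * (y ^ e * mon x (-B)) ^ (T (a, j)).2) ∧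
      ∀ m ∈ X, 0 ≤ (T m).2 := by
  classical
  obtain ⟨x', T, hx', hTg, hT⟩ := exists_um x hx y hy e he B hB hmin
  set w := y ^ e * mon x (-B) with hw
  have hw1 : ‖w‖ = 1 := by
    rw [hw, mon_neg, norm_mul, norm_inv, norm_pow, hB,
      mul_inv_cancel₀ (norm_ne_zero_iff.2 (mon_ne x hx.ne B))]
  have hw0 : w ≠ 0 := by rw [← norm_ne_zero_iff, hw1]; exact one_ne_zero
  -- the norms
  have hneg : ∀ m ∈ X, nu x' (T m).1 < 0 := by
    intro m hm
    have h1 := hX m hm
    rw [hT m.1 m.2, norm_mul, norm_zpow, hw1, one_zpow, mul_one, Prod.mk.eta,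
      norm_mon_eq_exp x' hx'.ne, Real.one_lt_exp_iff] at h1
    linarith
  obtain ⟨C, hC0, hC⟩ : ∃ C : ℝ, 0 ≤ C ∧ ∀ m ∈ X,
      |((T m).2 : ℝ)| + ∑ i, |((T m).1 i : ℝ)| ≤ C * (-nu x' (T m).1) := by
    refine ⟨∑ m ∈ X, (|((T m).2 : ℝ)| + ∑ i, |((T m).1 i : ℝ)|) / (-nu x' (T m).1), ?_, ?_⟩
    · refine Finset.sum_nonneg fun m hm => div_nonneg (by positivity) ?_
      linarith [hneg m hm]
    · intro m hm
      have h1 : 0 < -nu x' (T m).1 := by linarith [hneg m hm]
      rw [← div_le_iff₀ h1]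
      exact Finset.single_le_sum (f := fun m =>
        (|((T m).2 : ℝ)| + ∑ i, |((T m).1 i : ℝ)|) / (-nu x' (T m).1))
        (fun m hm => div_nonneg (by positivity) (by linarith [hneg m hm])) hm
  let l : Fin r → ℤ := fun i => -⌈C * wt x' i⌉
  let L : (Fin r → ℤ) →+ ℤ :=
    { toFun := fun a => ∑ i, l i * a i
      map_zero' := by simp
      map_add' := fun a b => by
        rw [← Finset.sum_add_distrib]
        exact Finset.sum_congr rfl fun i _ => by rw [Pi.add_apply]; ring }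
  have hL : ∀ a, L a = ∑ i, l i * a i := fun a => rfl
  let S : ((Fin r → ℤ) × ℤ) ≃+ ((Fin r → ℤ) × ℤ) :=
    { toFun := fun m => (m.1, m.2 + L m.1)
      invFun := fun m => (m.1, m.2 - L m.1)
      left_inv := fun m => by simp
      right_inv := fun m => by simp
      map_add' := fun m m' => by
        refine Prod.ext rfl ?_
        simp only [Prod.fst_add, Prod.snd_add, map_add]
        ring }
  have hS : ∀ m, S m = (m.1, m.2 + L m.1) := fun m => rfl
  let x'' : Fin r → W := fun i => x' i * w ^ (-l i)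
  have hmon : ∀ a, mon x'' a = mon x' a * w ^ (-L a) := by
    intro a
    unfold mon
    rw [hL, ← Finset.sum_neg_distrib]
    have : w ^ (∑ i, -(l i * a i)) = ∏ i, w ^ (-(l i * a i)) := by
      have h1 : ∀ s : Finset (Fin r), w ^ (∑ i ∈ s, -(l i * a i)) =
          ∏ i ∈ s, w ^ (-(l i * a i)) := by
        intro s
        induction s using Finset.induction_on with
        | empty => simp
        | insert i s hi ih => rw [Finset.sum_insert hi, Finset.prod_insert hi, zpow_add₀ hw0, ih]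
      exact h1 Finset.univ
    rw [this, ← Finset.prod_mul_distrib]
    refine Finset.prod_congr rfl fun i _ => ?_
    change (x' i * w ^ (-l i)) ^ a i = _
    rw [mul_zpow, ← zpow_mul, neg_mul]
  have hnorm : ∀ a, ‖mon x'' a‖ = ‖mon x' a‖ := by
    intro a
    rw [hmon, norm_mul, norm_zpow, hw1, one_zpow, mul_one]
  refine ⟨x'', T.trans S, ⟨fun i => mul_ne_zero (hx'.ne i) (zpow_ne_zero _ hw0), fun i => ?_,
    fun δ hδ => hx'.indep δ (by rw [← hnorm, hδ])⟩, ?_, ?_, ?_⟩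
  · change ‖x' i * w ^ (-l i)‖ < 1
    rw [norm_mul, norm_zpow, hw1, one_zpow, mul_one]
    exact hx'.lt i
  · rw [AddEquiv.trans_apply, hTg, hS]
    simp
  · intro a j
    rw [AddEquiv.trans_apply, hS, hT a j, hmon, mul_assoc, ← zpow_add₀ hw0]
    congr 2
    ring
  · intro m hm
    rw [AddEquiv.trans_apply, hS]
    change 0 ≤ (T m).2 + L (T m).1
    have h1 := hC m hm
    have h2 : (L (T m).1 : ℝ) ≥ C * (-nu x' (T m).1) - ∑ i, |((T m).1 i : ℝ)| := by
      rw [hL]
      have h3 : nu x' (T m).1 = ∑ i, ((T m).1 i : ℝ) * wt x' i := rfl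
      rw [h3, ← Finset.sum_neg_distrib, Finset.mul_sum, ge_iff_le, sub_le_iff_le_add]
      push_cast
      rw [← Finset.sum_add_distrib]
      refine Finset.sum_le_sum fun i _ => ?_
      change C * -(((T m).1 i : ℝ) * wt x' i) ≤
        ((-⌈C * wt x' i⌉ : ℤ) : ℝ) * ((T m).1 i : ℝ) + |((T m).1 i : ℝ)|
      push_cast
      have h4 := Int.le_ceil (C * wt x' i)
      have h5 := Int.ceil_lt_add_one (C * wt x' i)
      have h6 : |((⌈C * wt x' i⌉ : ℝ) - C * wt x' i) * ((T m).1 i : ℝ)| ≤ |((T m).1 i : ℝ)| := by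
        rw [abs_mul]
        apply mul_le_of_le_one_left (abs_nonneg _)
        rw [abs_le]
        constructor <;> linarith
      have h7 := (abs_le.1 h6).2
      linarith
    have h8 : -((T m).2 : ℝ) ≤ |((T m).2 : ℝ)| := neg_le_abs _
    have h9 : (0 : ℝ) ≤ (T m).2 + (L (T m).1 : ℝ) := by linarith
    exact_mod_cast h9

end Pool.Agent.Lib.TDO
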