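import Pool.Agent.Lib.TDO.Defs

/-!
# Local uniformization in transcendence defect one: definitions for the finite extensions
-/

namespace Pool.Agent.Lib.TDO

open Pool.Agent.Lib.MP_3029eb_ag Pool.Agent.Lib.MP_3029eb_ag.Abh

/-- An equation `c_0 + T + c_2 T^2 + .. + c_n T^n` with coefficients in `E`, irreducible over `E`,
all coefficients except that of `T` of norm less than one, with a root `τ` of norm less than one. -/
structure Et {k W : Type} [Field k] [NormedField W] [Algebra k W] (E : IntermediateField k W)
    (P : Polynomial E) (τ : W) : Prop where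
  irr : Irreducible P
  c1 : P.coeff 1 = 1
  cj : ∀ j, j ≠ 1 → ‖((P.coeff j : E) : W)‖ < 1
  root : Polynomial.aeval τ P = 0
  lt : ‖τ‖ < 1

/-- `BB x y τ`: the localization of `LO x y [τ]` at the centre of the norm. -/
def BB (k : Type) {W : Type} [Field k] [NormedField W] [IsUltrametricDist W] [Algebra k W] {r : ℕ}
    (x : Fin r → W) (y τ : W) : Subring W :=
  locV (ball W) (Subring.closure ((LO k x y : Set W) ∪ {τ}))

/-- `Bn x y τ`: the localization of `k[x, y, τ]` at the centre of the norm. -/
def Bn (k : Type) {W : Type} [Field k] [NormedField W] [IsUltrametricDist W] [Algebra k W] {r : ℕ}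
    (x : Fin r → W) (y τ : W) : Subring W :=
  locV (ball W) (Subring.closure ((Set.range (algebraMap k W) ∪ Set.range x) ∪ {y, τ}))

/-- The function field data: `F0` is finitely generated over `k`, contained in `S`, `S` is
separable algebraic over `F0`, and the closure of `F0` is complete. -/
structure FF {k W : Type} [Field k] [NormedField W] [Algebra k W]
    (S F0 : IntermediateField k W) : Prop where
  fg : F0.FG
  le : F0 ≤ S
  sep : ∀ z ∈ S, IsSeparable F0 z
  comp : IsComplete ((cl F0 : IntermediateField k W) : Set W)

end Pool.Agent.Lib.TDO
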