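import Mathlib

/-!
# Module Comb: the combinatorial lemma

Notation: `B s = b 0 + .. + b (s-1)`, `ρ s = nu (B s)`, `δ = a0 0` (so `a0 s = δ + d B s`),
`τ s = nu (a0 s) = nu δ + d ρ s`.  Shifted coordinates: `X~ s = {(a - j B s, j) | (a, j) ∈ X s}`; for
`(a', j) ∈ X~ s` put `v s (a', j) = nu a' + j ρ s = nu a`.

Proof.  `ρ s` is strictly increasing and bounded, let `ρ` be its supremum, `τ = nu δ + d ρ`
(`τ ≤ 0` in the first case of `h5`).  Call `(a, j) ∈ X~ s` relevant if `v s (a, j) ≤ τ`.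
`h2` says: for `(a, j) ∈ X~ (s+1)` there are `n`, `(a', j') ∈ X~ s`, `i ≤ j'` with
`(p^n a, p^n j) = (a' + (j' - i) B (s+1), i)`.

(1) A relevant element at `s+1` comes (by `h2`) from a relevant element at `s`:
`nu a' + j' ρ(s+1) = p^n v (s+1) (a, j) ≤ p^n τ ≤ τ` (or `n = 0`), and
`v s (a', j') ≤ nu a' + j' ρ(s+1)`.
(2) `nu a + j ρ 0 ≥ τ 0` for all `(a, j) ∈ X~ s`, all `s` (induction on `s`; `ρ 0 = 0`):
`nu a + j ρ 0 = p^-n (nu a' + (j' - i) ρ(s+1) + i ρ 0) ≥ p^-n τ 0 ≥ τ 0` (first case: `τ 0 < 0`).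
(3) For `s ≥ s2` there is no relevant `(a, j)` with `j > d`: subtract (2) from `v s (a, j) ≤ τ`:
`j (ρ s - ρ 0) ≤ d (ρ - ρ 0)`, false for `j ≥ d + 1` and `s` large.
(4) For `s ≥ s2` the relevant `(a, d)` at `s+1` are relevant `(a, d)` at `s` (`h2` forces `n = 0`,
`i = j' = d`).  Finite set `A0` at `s2`; `nu a ≥ nu δ` (by `h1`) and `nu a ≤ nu δ + d (ρ - ρ s)`;
so for `s ≥ s3` only `a = δ` (`nu` injective).
(5) If all `τ s < 0` and `τ < 0`: for `s ≥ s4` we have `n = 0` for the relevant elements, because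
`τ s ≤ nu a' + j' ρ (s+1) = p^n v ≤ p τ` is false for large `s` (`τ s → τ > p τ`).
Put `β = -δ/d` (real vector) if `τ = 0` and we are in the first case of `h5`, `β = 0` otherwise.
(6) `s5 = max`.  Choose `K ≥ 0` with `|a - δ - (d - j) β| ≤ (d - j) K` (sup norm) for the finitely
many `(a, j) ∈ X~ s5` with `j < d`.  CLAIM for `s ≥ s5`: every relevant `(a, j) ∈ X~ s` has `j ≤ d`
and `|a - δ - (d - j) β| ≤ (d - j) K`.  Given the claim at `s`, `h3` (its element is
`(δ + d B(s+1), 0)` or `(δ + (d-1) B(s+1), 1)` in shifted coordinates; it is relevant: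
`v s ≤ τ (s+1) ≤ τ`) gives `|B(s+1) - β| ≤ K`.  Step: if `n = 0`:
`a - δ - (d-j) β = [a' - δ - (d-j') β] + (j' - j) (B(s+1) - β)`.  If `n > 0` (then `τ = 0`,
`δ + d β = 0`): the same computation gives `|p^n a + i β| ≤ (d - i) K`, `i = p^n j`, hence
`|a + j β| ≤ (d - i) K / p^n ≤ (d - j) K` and `a - δ - (d-j) β = a + j β`.
CONCLUSION: all `B (s+1)`, `s ≥ s5`, lie in a bounded set of `ℤ^r`, but they are distinct.
-/

namespace Pool.Agent.Lib.TDO

theorem comb {r : ℕ} (nu : (Fin r → ℤ) →+ ℝ) (hnu : Function.Injective nu) (p d : ℕ)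
    (hp : 2 ≤ p) (hd : 1 ≤ d) (X : ℕ → Finset ((Fin r → ℤ) × ℕ)) (b a0 : ℕ → Fin r → ℤ)
    (hb : ∀ s, 0 < nu (b s)) (ha0 : ∀ s, a0 (s + 1) = a0 s + d • b s)
    (h1 : ∀ s, ∀ m ∈ X s, nu (a0 s) ≤ nu m.1)
    (h2 : ∀ s, ∀ m' ∈ X (s + 1), ∃ n : ℕ, ∃ m ∈ X s, p ^ n * m'.2 ≤ m.2 ∧
      p ^ n • m'.1 = m.1 + m.2 • b s)
    (h3 : ∀ s, (a0 s + d • b s, 0) ∈ X s ∨ (2 ≤ d ∧ (a0 s + (d - 1) • b s, 1) ∈ X s))
    (hbd : ∃ M : ℝ, ∀ s, nu (a0 s) ≤ M)
    (h5 : (∀ s, nu (a0 s) < 0) ∨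
      ∀ s, ∀ m' ∈ X (s + 1), ∃ m ∈ X s, m'.2 ≤ m.2 ∧ m'.1 = m.1 + m.2 • b s) : False := by
  classical
  have hp0 : (0 : ℝ) < p := by
    have : 0 < p := by omega
    exact_mod_cast this
  have hd0 : (0 : ℝ) < d := by exact_mod_cast hd
  have hpn : ∀ n : ℕ, (1 : ℝ) ≤ (p : ℝ) ^ n := fun n => one_le_pow₀ (by
    have : 1 ≤ p := by omega
    exact_mod_cast this)
  -- partial sums
  set B : ℕ → Fin r → ℤ := fun s => ∑ t ∈ Finset.range s, b t with hB
  have hB0 : B 0 = 0 := by rw [hB]; simp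
  have hBs : ∀ s, B (s + 1) = B s + b s := fun s => by
    rw [hB]; exact Finset.sum_range_succ _ _
  set ρ : ℕ → ℝ := fun s => nu (B s) with hρ
  have hρ0 : ρ 0 = 0 := by rw [hρ]; simp only; rw [hB0, map_zero]
  have hρs : ∀ s, ρ (s + 1) = ρ s + nu (b s) := fun s => by
    rw [hρ]; simp only; rw [hBs, map_add]
  have hρmono : StrictMono ρ := strictMono_nat_of_lt_succ fun s => by
    rw [hρs]; linarith [hb s]
  have hρnn : ∀ s, 0 ≤ ρ s := fun s => by
    rw [← hρ0]; exact hρmono.monotone (Nat.zero_le s)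
  set δ : Fin r → ℤ := a0 0 with hδ
  have ha : ∀ s, a0 s = δ + d • B s := by
    intro s
    induction s with
    | zero => rw [hB0, smul_zero, add_zero]
    | succ s ih => rw [ha0, ih, hBs, smul_add, add_assoc]
  have hT : ∀ s, nu (a0 s) = nu δ + d * ρ s := fun s => by
    rw [ha, map_add, map_nsmul, nsmul_eq_mul]
  -- limit
  obtain ⟨M, hM⟩ := hbd
  have hbdd : BddAbove (Set.range ρ) := by
    refine ⟨(M - nu δ) / d, ?_⟩
    rintro _ ⟨s, rfl⟩
    rw [le_div_iff₀ hd0]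
    have := hM s
    rw [hT] at this
    linarith
  set R : ℝ := ⨆ s, ρ s with hR
  have hlim : Filter.Tendsto ρ Filter.atTop (nhds R) := tendsto_atTop_ciSup hρmono.monotone hbdd
  have hρR : ∀ s, ρ s < R := fun s =>
    lt_of_lt_of_le (hρmono (Nat.lt_succ_self s)) (le_ciSup hbdd (s + 1))
  have hRpos : 0 < R := by
    have := hρR 0
    rwa [hρ0] at this
  set τ : ℝ := nu δ + d * R with hτ
  have hTτ : ∀ s, nu (a0 s) ≤ τ := fun s => by
    rw [hT, hτ]
    have := mul_le_mul_of_nonneg_left (hρR s).le hd0.le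
    linarith
  have hTlim : Filter.Tendsto (fun s => nu (a0 s)) Filter.atTop (nhds τ) := by
    have : (fun s => nu (a0 s)) = fun s => nu δ + d * ρ s := funext hT
    rw [this, hτ]
    exact (hlim.const_mul _).const_add _
  set C1 : Prop := ∀ s, nu (a0 s) < 0 with hC1
  have hC1τ : C1 → τ ≤ 0 := fun h => le_of_tendsto' hTlim fun s => (h s).le
  have H2 : ∀ s, ∀ m' ∈ X (s + 1), ∃ n : ℕ, ∃ m ∈ X s, p ^ n * m'.2 ≤ m.2 ∧
      p ^ n • m'.1 = m.1 + m.2 • b s ∧ (n = 0 ∨ C1) := by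
    intro s m' hm'
    rcases h5 with h | h
    · obtain ⟨n, m, hm, h6, h7⟩ := h2 s m' hm'
      exact ⟨n, m, hm, h6, h7, Or.inr h⟩
    · obtain ⟨m, hm, h6, h7⟩ := h s m' hm'
      exact ⟨0, m, hm, by simpa using h6, by simpa using h7, Or.inl rfl⟩
  -- nu of the relation
  have hnuR : ∀ (n : ℕ) (a1 a2 : Fin r → ℤ) (j : ℕ) (s : ℕ), p ^ n • a1 = a2 + j • b s →
      (p : ℝ) ^ n * nu a1 = nu a2 + j * nu (b s) := by
    intro n a1 a2 j s h
    have := congrArg nu h
    rw [map_add, map_nsmul, map_nsmul, nsmul_eq_mul, nsmul_eq_mul] at this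
    push_cast at this
    exact this
  -- (1)
  have P1 : ∀ s, ∀ m' ∈ X (s + 1), nu m'.1 ≤ τ → ∃ n : ℕ, ∃ m ∈ X s, nu m.1 ≤ τ ∧
      p ^ n * m'.2 ≤ m.2 ∧ p ^ n • m'.1 = m.1 + m.2 • b s ∧ (n = 0 ∨ C1) := by
    intro s m' hm' hrel
    obtain ⟨n, m, hm, h6, h7, h8⟩ := H2 s m' hm'
    refine ⟨n, m, hm, ?_, h6, h7, h8⟩
    have h9 := hnuR n m'.1 m.1 m.2 s h7
    have h10 : (0 : ℝ) ≤ m.2 * nu (b s) := mul_nonneg (Nat.cast_nonneg _) (hb s).le
    rcases h8 with rfl | hc
    · rw [pow_zero, one_mul] at h9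
      linarith
    · have h11 := hC1τ hc
      have h12 := hpn n
      nlinarith
  -- (2)
  have P2 : ∀ s, ∀ m ∈ X s, nu δ ≤ nu m.1 - m.2 * ρ s := by
    intro s
    induction s with
    | zero =>
      intro m hm
      rw [hρ0, mul_zero, sub_zero]
      exact h1 0 m hm
    | succ s ih =>
      intro m' hm'
      obtain ⟨n, m, hm, h6, h7, h8⟩ := H2 s m' hm'
      have h9 := hnuR n m'.1 m.1 m.2 s h7
      have h10 := ih m hm
      have h6' : (p : ℝ) ^ n * m'.2 ≤ m.2 := by exact_mod_cast h6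
      have h11 : (p : ℝ) ^ n * (nu m'.1 - m'.2 * ρ (s + 1)) =
          (nu m.1 - m.2 * ρ s) + (m.2 - (p : ℝ) ^ n * m'.2) * ρ (s + 1) := by
        have e : (p : ℝ) ^ n * (nu m'.1 - m'.2 * ρ (s + 1)) =
          (p : ℝ) ^ n * nu m'.1 - (p : ℝ) ^ n * m'.2 * ρ (s + 1) := by ring
        rw [e, h9, hρs]
        ring
      have h12 : 0 ≤ (m.2 - (p : ℝ) ^ n * m'.2) * ρ (s + 1) :=
        mul_nonneg (by linarith) (hρnn _)
      have h13 : nu δ ≤ (p : ℝ) ^ n * (nu m'.1 - m'.2 * ρ (s + 1)) := by linarith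
      rcases h8 with rfl | hc
      · rwa [pow_zero, one_mul] at h13
      · have h14 : nu δ < 0 := hc 0
        by_contra hcon
        push Not at hcon
        have h15 := hpn n
        have h16 : (p : ℝ) ^ n * (nu m'.1 - m'.2 * ρ (s + 1)) < nu δ := by
          have h17 : (p : ℝ) ^ n * (nu m'.1 - m'.2 * ρ (s + 1)) < (p : ℝ) ^ n * nu δ :=
            mul_lt_mul_of_pos_left hcon (by linarith)
          nlinarith
        linarith
  -- (3)
  have P3 : ∀ᶠ s in Filter.atTop, ∀ m ∈ X s, nu m.1 ≤ τ → m.2 ≤ d := by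
    have h6 : d * R / (d + 1) < R := by
      rw [div_lt_iff₀ (by linarith)]
      nlinarith
    filter_upwards [hlim.eventually_const_lt h6] with s hs m hm hrel
    by_contra hcon
    push Not at hcon
    have h7 := P2 s m hm
    have h8 : (d : ℝ) + 1 ≤ m.2 := by exact_mod_cast hcon
    rw [div_lt_iff₀ (by linarith)] at hs
    have h9 : ((d : ℝ) + 1) * ρ s ≤ m.2 * ρ s := mul_le_mul_of_nonneg_right h8 (hρnn s)
    rw [hτ] at hrel
    nlinarith
  obtain ⟨s2, hs2⟩ := Filter.eventually_atTop.1 P3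
  -- (4)
  have P4a : ∀ t, ∀ m ∈ X (s2 + t), nu m.1 ≤ τ → m.2 = d →
      ∃ m0 ∈ X s2, m.1 - d • B (s2 + t) = m0.1 - d • B s2 := by
    intro t
    induction t with
    | zero => exact fun m hm _ _ => ⟨m, hm, rfl⟩
    | succ t ih =>
      intro m' hm' hrel hd'
      obtain ⟨n, m, hm, h6, h7, h8, h9⟩ := P1 (s2 + t) m' hm' hrel
      have h10 := hs2 (s2 + t) (by omega) m hm h6
      rw [hd'] at h7
      have hn : n = 0 := by
        by_contra hn
        have : 2 ≤ p ^ n := by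
          calc 2 ≤ p := hp
            _ = p ^ 1 := (pow_one p).symm
            _ ≤ p ^ n := Nat.pow_le_pow_right (by omega) (by omega)
        nlinarith
      subst hn
      rw [pow_zero, one_mul] at h7
      rw [pow_zero, one_smul] at h8
      have hmd : m.2 = d := le_antisymm h10 h7
      obtain ⟨m0, hm0, h11⟩ := ih m hm h6 hmd
      refine ⟨m0, hm0, ?_⟩
      rw [← h11, h8, hmd, ← add_assoc, hBs, smul_add]
      abel
  have P4 : ∀ᶠ s in Filter.atTop, ∀ m ∈ X s, nu m.1 ≤ τ → m.2 = d → m.1 = δ + d • B s := by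
    have h6 : ∀ᶠ s in Filter.atTop, ∀ m0 ∈ X s2, nu δ < nu (m0.1 - d • B s2) →
        d * (R - ρ s) < nu (m0.1 - d • B s2) - nu δ := by
      rw [Filter.eventually_all_finset]
      intro m0 _
      by_cases h : nu δ < nu (m0.1 - d • B s2)
      · have h7 : Filter.Tendsto (fun s => d * (R - ρ s)) Filter.atTop (nhds (d * (R - R))) :=
          (hlim.const_sub R).const_mul _
        rw [sub_self, mul_zero] at h7
        filter_upwards [h7.eventually_lt_const (sub_pos.2 h)] with s hs _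
        exact hs
      · exact Filter.Eventually.of_forall fun s h' => absurd h' h
    filter_upwards [h6, Filter.eventually_ge_atTop s2] with s hs hs' m hm hrel hmd
    obtain ⟨t, rfl⟩ : ∃ t, s = s2 + t := ⟨s - s2, by omega⟩
    obtain ⟨m0, hm0, h7⟩ := P4a t m hm hrel hmd
    have h8 := P2 _ m hm
    rw [hmd] at h8
    have h9 : nu (m0.1 - d • B s2) = nu m.1 - d * ρ (s2 + t) := by
      rw [← h7, map_sub, map_nsmul, nsmul_eq_mul]
    have h10 : nu (m0.1 - d • B s2) = nu δ := by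
      by_contra hne
      have h11 : nu δ < nu (m0.1 - d • B s2) := lt_of_le_of_ne (by rw [h9]; exact h8) (Ne.symm hne)
      have h12 := hs m0 hm0 h11
      rw [h9] at h12
      rw [hτ] at hrel
      nlinarith
    have h11 := hnu h10
    rw [← h7] at h11
    rw [← h11]
    abel
  -- (5)
  have P5 : ∀ᶠ s in Filter.atTop, ∀ m' ∈ X (s + 1), nu m'.1 ≤ τ → ∃ n : ℕ, ∃ m ∈ X s,
      nu m.1 ≤ τ ∧ p ^ n * m'.2 ≤ m.2 ∧ p ^ n • m'.1 = m.1 + m.2 • b s ∧
      (n = 0 ∨ (C1 ∧ τ = 0)) := by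
    have h6 : ∀ᶠ s in Filter.atTop, τ < 0 → 2 * τ < nu (a0 s) := by
      by_cases h : τ < 0
      · filter_upwards [hTlim.eventually_const_lt (show 2 * τ < τ by linarith)] with s hs _
        exact hs
      · exact Filter.Eventually.of_forall fun s h' => absurd h' h
    filter_upwards [h6] with s hs m' hm' hrel
    obtain ⟨n, m, hm, h7, h8, h9, h10⟩ := P1 s m' hm' hrel
    refine ⟨n, m, hm, h7, h8, h9, ?_⟩
    rcases h10 with h10 | h10
    · exact Or.inl h10
    · by_cases hn : n = 0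
      · exact Or.inl hn
      · right
        refine ⟨h10, le_antisymm (hC1τ h10) ?_⟩
        by_contra hneg
        push Not at hneg
        have h11 := hs hneg
        have h12 := h1 s m hm
        have h13 := hnuR n m'.1 m.1 m.2 s h9
        have h14 : (0 : ℝ) ≤ m.2 * nu (b s) := mul_nonneg (Nat.cast_nonneg _) (hb s).le
        have h15 : (2 : ℝ) ≤ (p : ℝ) ^ n := by
          have : 2 ≤ p ^ n := by
            calc 2 ≤ p := hp
              _ = p ^ 1 := (pow_one p).symm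
              _ ≤ p ^ n := Nat.pow_le_pow_right (by omega) (by omega)
          exact_mod_cast this
        nlinarith
  obtain ⟨s5, hs5⟩ := Filter.eventually_atTop.1 (P3.and (P4.and P5))
  -- (6)
  set β : Fin r → ℝ := fun c => if C1 ∧ τ = 0 then -(δ c : ℝ) / d else 0 with hβ
  have hβ0 : C1 ∧ τ = 0 → ∀ c, (δ c : ℝ) + d * β c = 0 := by
    intro h c
    rw [hβ]
    simp only
    rw [if_pos h]
    field_simp
    ring
  set K : ℝ := ∑ m ∈ X s5, ∑ c, |((m.1 c : ℝ) - m.2 * B s5 c) - δ c - (d - m.2) * β c| with hK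
  have hK0 : 0 ≤ K := Finset.sum_nonneg fun _ _ => Finset.sum_nonneg fun _ _ => abs_nonneg _
  have hzc : ∀ (j : ℕ) (v : Fin r → ℤ) (c : Fin r), ((j • v) c : ℤ) = (j : ℤ) * v c := fun j v c => by
    rw [Pi.smul_apply, nsmul_eq_mul]
  -- consequence of the claim
  have claim_cons : ∀ s, (∀ m ∈ X s, nu m.1 ≤ τ → m.2 ≤ d ∧
      ∀ c, |((m.1 c : ℝ) - m.2 * B s c) - δ c - (d - m.2) * β c| ≤ (d - m.2) * K) →
      ∀ c, |(B (s + 1) c : ℝ) - β c| ≤ K := by
    intro s hcl c
    have hBsc : (B (s + 1) c : ℝ) = B s c + b s c := by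
      rw [hBs, Pi.add_apply]; push_cast; ring
    have ha0c : (a0 s c : ℝ) = δ c + d * B s c := by
      rw [ha, Pi.add_apply, hzc]; push_cast; ring
    rcases h3 s with h | ⟨hd2, h⟩
    · have h6 := (hcl _ h (by rw [← ha0]; exact hTτ _)).2 c
      simp only [Pi.add_apply, hzc, Nat.cast_zero, zero_mul, sub_zero] at h6
      push_cast at h6
      have e : ((a0 s c : ℝ) + d * b s c) - δ c - d * β c = d * ((B (s + 1) c : ℝ) - β c) := by
        rw [ha0c, hBsc]; ring
      rw [e, abs_mul, abs_of_pos hd0] at h6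
      exact le_of_mul_le_mul_left h6 hd0
    · have hd1 : ((d - 1 : ℕ) : ℝ) = (d : ℝ) - 1 := by
        rw [Nat.cast_sub hd, Nat.cast_one]
      have h6 := (hcl _ h (by
        have h7 : nu (a0 s + (d - 1) • b s) ≤ nu (a0 (s + 1)) := by
          rw [ha0, map_add, map_add, map_nsmul, map_nsmul, nsmul_eq_mul, nsmul_eq_mul, hd1]
          nlinarith [hb s]
        exact h7.trans (hTτ _))).2 c
      simp only [Pi.add_apply, hzc, Nat.cast_one, one_mul] at h6
      push_cast at h6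
      rw [hd1] at h6
      have hd1pos : (0 : ℝ) < (d : ℝ) - 1 := by
        have : (2 : ℝ) ≤ d := by exact_mod_cast hd2
        linarith
      have e : ((a0 s c : ℝ) + (d - 1) * b s c - B s c) - δ c - (d - 1) * β c
          = (d - 1) * ((B (s + 1) c : ℝ) - β c) := by
        rw [ha0c, hBsc]; ring
      rw [e, abs_mul, abs_of_pos hd1pos] at h6
      exact le_of_mul_le_mul_left h6 hd1pos
  have claim : ∀ t, ∀ m ∈ X (s5 + t), nu m.1 ≤ τ → m.2 ≤ d ∧
      ∀ c, |((m.1 c : ℝ) - m.2 * B (s5 + t) c) - δ c - (d - m.2) * β c| ≤ (d - m.2) * K := by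
    intro t
    induction t with
    | zero =>
      intro m hm hrel
      have hmd := (hs5 s5 le_rfl).1 m hm hrel
      refine ⟨hmd, fun c => ?_⟩
      rcases hmd.lt_or_eq with h | h
      · have h6 : |((m.1 c : ℝ) - m.2 * B s5 c) - δ c - (d - m.2) * β c| ≤ K := by
          refine (Finset.single_le_sum
            (f := fun c => |((m.1 c : ℝ) - m.2 * B s5 c) - δ c - (d - m.2) * β c|)
            (fun _ _ => abs_nonneg _) (Finset.mem_univ c)).trans ?_
          exact Finset.single_le_sum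
            (f := fun m : (Fin r → ℤ) × ℕ =>
              ∑ c, |((m.1 c : ℝ) - m.2 * B s5 c) - δ c - (d - m.2) * β c|)
            (fun _ _ => Finset.sum_nonneg fun _ _ => abs_nonneg _) hm
        have h7 : (1 : ℝ) ≤ d - m.2 := by
          have : (m.2 : ℝ) + 1 ≤ d := by exact_mod_cast h
          linarith
        exact h6.trans (le_mul_of_one_le_left hK0 h7)
      · have h6 := (hs5 s5 le_rfl).2.1 m hm hrel h
        have h7 : (m.1 c : ℝ) = δ c + d * B s5 c := by
          rw [h6, Pi.add_apply, hzc]; push_cast; ring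
        rw [add_zero, h, h7]
        have e : (δ c : ℝ) + d * B s5 c - d * B s5 c - δ c - (d - d) * β c = 0 := by ring
        rw [e, abs_zero, sub_self, zero_mul]
    | succ t ih =>
      intro m' hm' hrel
      have hBK := claim_cons (s5 + t) ih
      obtain ⟨n, m, hm, h6, h7, h8, h9⟩ := (hs5 (s5 + t) (by omega)).2.2 m' hm' hrel
      obtain ⟨hmd, hmK⟩ := ih m hm h6
      have hpn1 : 1 ≤ p ^ n := Nat.one_le_pow _ _ (by omega)
      have h10 : m'.2 ≤ p ^ n * m'.2 := Nat.le_mul_of_pos_left _ (by omega)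
      refine ⟨by omega, fun c => ?_⟩
      have hBc := hBK c
      have hmc := hmK c
      have hBsc : (B (s5 + t + 1) c : ℝ) = B (s5 + t) c + b (s5 + t) c := by
        rw [hBs, Pi.add_apply]; push_cast; ring
      have h8c : (p : ℝ) ^ n * m'.1 c = m.1 c + m.2 * b (s5 + t) c := by
        have := congrFun h8 c
        rw [Pi.add_apply, hzc, hzc] at this
        have h11 : (((p ^ n : ℕ) : ℤ) : ℝ) * (m'.1 c : ℝ) = (m.1 c : ℝ) + ((m.2 : ℤ) : ℝ) * b (s5 + t) c := by
          exact_mod_cast this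
        push_cast at h11
        exact h11
      have h7' : (p : ℝ) ^ n * m'.2 ≤ m.2 := by exact_mod_cast h7
      have hmd' : (m.2 : ℝ) ≤ d := by exact_mod_cast hmd
      -- main identity
      have key : |(p : ℝ) ^ n * ((m'.1 c : ℝ) - m'.2 * B (s5 + t + 1) c) - δ c -
          (d - (p : ℝ) ^ n * m'.2) * β c| ≤ (d - (p : ℝ) ^ n * m'.2) * K := by
        have e : (p : ℝ) ^ n * ((m'.1 c : ℝ) - m'.2 * B (s5 + t + 1) c) - δ c -
          (d - (p : ℝ) ^ n * m'.2) * β c =
          (((m.1 c : ℝ) - m.2 * B (s5 + t) c) - δ c - (d - m.2) * β c) +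
            (m.2 - (p : ℝ) ^ n * m'.2) * ((B (s5 + t + 1) c : ℝ) - β c) := by
          have e1 : (p : ℝ) ^ n * ((m'.1 c : ℝ) - m'.2 * B (s5 + t + 1) c) =
            (p : ℝ) ^ n * m'.1 c - (p : ℝ) ^ n * m'.2 * B (s5 + t + 1) c := by ring
          rw [e1, h8c, hBsc]
          ring
        rw [e]
        refine (abs_add_le _ _).trans ?_
        rw [abs_mul, abs_of_nonneg (show (0 : ℝ) ≤ m.2 - (p : ℝ) ^ n * m'.2 by linarith)]
        have h11 : (m.2 - (p : ℝ) ^ n * m'.2) * |(B (s5 + t + 1) c : ℝ) - β c| ≤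
            (m.2 - (p : ℝ) ^ n * m'.2) * K := mul_le_mul_of_nonneg_left hBc (by linarith)
        linarith
      rcases h9 with rfl | h9
      · rw [pow_zero, one_mul, one_mul] at key
        exact key
      · have hδβ := hβ0 h9 c
        have e2 : (p : ℝ) ^ n * ((m'.1 c : ℝ) - m'.2 * B (s5 + t + 1) c) - δ c -
          (d - (p : ℝ) ^ n * m'.2) * β c =
          (p : ℝ) ^ n * (((m'.1 c : ℝ) - m'.2 * B (s5 + t + 1) c) - δ c - (d - m'.2) * β c) := by
          have : (δ c : ℝ) = -(d * β c) := by linarith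
          rw [this]
          ring
        have hppos : (0 : ℝ) < (p : ℝ) ^ n := by positivity
        rw [e2, abs_mul, abs_of_pos hppos] at key
        have h12 : (d - (p : ℝ) ^ n * m'.2) * K ≤ (p : ℝ) ^ n * ((d - m'.2) * K) := by
          have h13 : (d : ℝ) - (p : ℝ) ^ n * m'.2 ≤ (p : ℝ) ^ n * (d - m'.2) := by
            have := hpn n
            nlinarith
          calc (d - (p : ℝ) ^ n * m'.2) * K ≤ ((p : ℝ) ^ n * (d - m'.2)) * K :=
                mul_le_mul_of_nonneg_right h13 hK0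
            _ = (p : ℝ) ^ n * ((d - m'.2) * K) := by ring
        exact le_of_mul_le_mul_left (key.trans h12) hppos
  -- conclusion
  have hfin : (Set.Icc (fun c => ⌈β c - K⌉) (fun c => ⌊β c + K⌋) : Set (Fin r → ℤ)).Finite :=
    Set.finite_Icc _ _
  have hinj : Function.Injective fun t => B (s5 + t + 1) := by
    intro t t' h
    have : ρ (s5 + t + 1) = ρ (s5 + t' + 1) := congrArg nu h
    have := hρmono.injective this
    omega
  refine Set.infinite_range_of_injective hinj (hfin.subset ?_)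
  rintro _ ⟨t, rfl⟩
  have h6 := claim_cons (s5 + t) (claim t)
  constructor
  · intro c
    have := abs_le.1 (h6 c)
    exact Int.ceil_le.2 (by linarith)
  · intro c
    have := abs_le.1 (h6 c)
    exact Int.le_floor.2 (by linarith)

end Pool.Agent.Lib.TDO
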