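import Mathlib

/-!
# Module PolyB: orders of vanishing of polynomials with few terms

All statements are about `Polynomial.taylor c φ = φ(T + c)`, `c ≠ 0`.
-/

namespace Pool.Agent.Lib.TDO

open Polynomial

/-- Vanishing Taylor coefficients give divisibility by a power of `X - C c`. -/
private theorem polyB_dvd {k : Type} [Field k] (c : k) (φ : k[X]) (d : ℕ)
    (h : ∀ i < d, (taylor c φ).coeff i = 0) : (X - C c) ^ d ∣ φ := by
  have h1 : X ^ d ∣ taylor c φ := X_pow_dvd_iff.2 h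
  obtain ⟨ψ, hψ⟩ := h1
  refine ⟨taylor (-c) ψ, ?_⟩
  have h2 := congrArg (taylor (-c)) hψ
  rw [taylor_taylor, neg_add_cancel, taylor_zero, taylor_mul, taylor_pow, taylor_X] at h2
  rw [h2, C_neg, ← sub_eq_add_neg]

/-- `φ = T^n ψ`, `deg ψ ≤ D`: the order of vanishing at `c ≠ 0` is at most `D`.
Proof: if the first `D + 1` Taylor coefficients vanish, `(T - c)^(D+1)` divides `φ`, hence `ψ`
(coprime to `T`), so `D + 1 ≤ D`. -/
theorem taylor_bound {k : Type} [Field k] (c : k) (hc : c ≠ 0) (φ : k[X]) (hφ : φ ≠ 0) (n D : ℕ)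
    (hn : ∀ i < n, φ.coeff i = 0) (hD : φ.natDegree ≤ n + D) :
    ∃ i ≤ D, (taylor c φ).coeff i ≠ 0 := by
  by_contra hcon
  push Not at hcon
  have h1 : (X - C c) ^ (D + 1) ∣ φ := polyB_dvd c φ (D + 1) fun i hi => hcon i (by omega)
  have h2 : (X : k[X]) ^ n ∣ φ := X_pow_dvd_iff.2 hn
  have hcop : IsCoprime ((X - C c) ^ (D + 1)) ((X : k[X]) ^ n) := by
    refine IsCoprime.pow ?_
    have h3 := isCoprime_X_sub_C_of_isUnit_sub (R := k) (a := c) (b := 0)
      (by rw [sub_zero]; exact hc.isUnit)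
    rwa [C_0, sub_zero] at h3
  have h4 := hcop.mul_dvd h1 h2
  have h5 := natDegree_le_of_dvd h4 hφ
  rw [natDegree_mul (pow_ne_zero _ (X_sub_C_ne_zero c)) (pow_ne_zero _ X_ne_zero),
    natDegree_pow, natDegree_pow, natDegree_X_sub_C, natDegree_X] at h5
  omega

private theorem polyB_eq {k : Type} [Field k] (c : k) (φ : k[X]) (d : ℕ)
    (hD : φ.natDegree ≤ d) (h : ∀ i < d, (taylor c φ).coeff i = 0) :
    ∃ e : k, φ = C e * (X - C c) ^ d := by
  obtain ⟨ψ, hψ⟩ := polyB_dvd c φ d h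
  by_cases hφ : φ = 0
  · exact ⟨0, by rw [hφ, C_0, zero_mul]⟩
  have hψ0 : ψ ≠ 0 := by
    rintro rfl
    rw [mul_zero] at hψ
    exact hφ hψ
  have h1 := congrArg natDegree hψ
  rw [natDegree_mul (pow_ne_zero _ (X_sub_C_ne_zero c)) hψ0, natDegree_pow,
    natDegree_X_sub_C] at h1
  have h2 : ψ.natDegree = 0 := by omega
  obtain ⟨e, he⟩ := natDegree_eq_zero.1 h2
  exact ⟨e, by rw [hψ, he, mul_comm]⟩

private theorem polyB_coeff {k : Type} [Field k] (c e : k) (hc : c ≠ 0) (he : e ≠ 0) (d : ℕ) :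
    (C e * (X - C c) ^ d).coeff 0 ≠ 0 ∧ (C e * (X - C c) ^ d).coeff d = e ∧
      (taylor c (C e * (X - C c) ^ d)).coeff d = e := by
  refine ⟨?_, ?_, ?_⟩
  · rw [coeff_zero_eq_eval_zero, eval_mul, eval_C, eval_pow, eval_sub, eval_X, eval_C, zero_sub]
    exact mul_ne_zero he (pow_ne_zero _ (neg_ne_zero.2 hc))
  · have h1 : ((X - C c) ^ d).Monic := (monic_X_sub_C c).pow d
    have h2 := h1.coeff_natDegree
    rw [natDegree_pow, natDegree_X_sub_C, mul_one] at h2
    rw [coeff_C_mul, h2, mul_one]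
  · rw [taylor_mul, taylor_C, taylor_pow, map_sub, taylor_X, taylor_C, add_sub_cancel_right,
      coeff_C_mul, coeff_X_pow_self, mul_one]

/-- Equality case: degree at most `d` and order `≥ d` at `c`: `φ = C (T - c)^d`. -/
theorem taylor_eq_case {k : Type} [Field k] (c : k) (hc : c ≠ 0) (φ : k[X]) (hφ : φ ≠ 0) (d : ℕ)
    (hD : φ.natDegree ≤ d) (h : ∀ i < d, (taylor c φ).coeff i = 0) :
    φ.coeff 0 ≠ 0 ∧ φ.coeff d ≠ 0 ∧ (taylor c φ).coeff d ≠ 0 := by
  obtain ⟨e, he⟩ := polyB_eq c φ d hD h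
  have he0 : e ≠ 0 := by
    rintro rfl
    rw [C_0, zero_mul] at he
    exact hφ he
  obtain ⟨h1, h2, h3⟩ := polyB_coeff c e hc he0 d
  rw [he]
  exact ⟨h1, by rw [h2]; exact he0, by rw [h3]; exact he0⟩

/-- The Taylor coefficients of the derivative. -/
private theorem polyB_der {k : Type} [Field k] (c : k) (φ : k[X]) (i : ℕ) :
    (taylor c (derivative φ)).coeff i = (taylor c φ).coeff (i + 1) * (i + 1) := by
  have h1 : taylor c (derivative φ) = derivative (taylor c φ) := by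
    rw [taylor_apply, taylor_apply, derivative_comp, derivative_add, derivative_X, derivative_C,
      add_zero, one_mul]
  rw [h1, coeff_derivative]

private theorem polyB_der_ne {k : Type} [Field k] (p : ℕ) [Fact p.Prime] [CharP k p] {φ : k[X]}
    (hφ : φ ≠ 0) (hp : ∀ i, φ.coeff i ≠ 0 → ¬ p ∣ i) : derivative φ ≠ 0 := by
  intro h0
  refine hφ ?_
  ext i
  rw [coeff_zero]
  by_contra hi
  have hpi := hp i hi
  rcases i with _ | i
  · exact hpi (dvd_zero p)
  · have h1 := congrArg (fun q => q.coeff i) h0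
    simp only [coeff_derivative, coeff_zero] at h1
    rcases mul_eq_zero.1 h1 with h2 | h2
    · exact hi h2
    · refine hpi ((CharP.cast_eq_zero_iff k p (i + 1)).1 ?_)
      push_cast
      exact h2

/-- Characteristic `p`, all exponents of `φ` prime to `p`: the Taylor coefficients with index
prime to `p` are those of the derivative.  `φ' = T^(n-1) χ` with `deg χ ≤ D`, `χ ≠ 0`, so the order
of `φ'` at `c` is at most `D`; `(taylor c φ').coeff i = (i+1) (taylor c φ).coeff (i+1)`. -/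
theorem taylor_bound_p {k : Type} [Field k] (p : ℕ) [Fact p.Prime] [CharP k p] (c : k)
    (hc : c ≠ 0) (φ : k[X]) (hφ : φ ≠ 0) (n D : ℕ) (hn : ∀ i < n, φ.coeff i = 0)
    (hD : φ.natDegree ≤ n + D) (hp : ∀ i, φ.coeff i ≠ 0 → ¬ p ∣ i) :
    ∃ i ≤ D + 1, ¬ p ∣ i ∧ (taylor c φ).coeff i ≠ 0 := by
  obtain ⟨i, hi, h1⟩ := taylor_bound c hc (derivative φ) (polyB_der_ne p hφ hp) (n - 1) D
    (fun i hi => by rw [coeff_derivative, hn (i + 1) (by omega), zero_mul])
    (by
      have h2 := natDegree_derivative_le φ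
      omega)
  rw [polyB_der] at h1
  refine ⟨i + 1, by omega, fun h2 => ?_, left_ne_zero_of_mul h1⟩
  refine right_ne_zero_of_mul h1 ?_
  have h3 := (CharP.cast_eq_zero_iff k p (i + 1)).2 h2
  push_cast at h3
  exact h3

/-- Equality case in characteristic `p`: `φ' = C (T - c)^(d-1)`, so the coefficient of `T` in `φ`
is not zero. -/
theorem taylor_eq_case_p {k : Type} [Field k] (p : ℕ) [Fact p.Prime] [CharP k p] (c : k)
    (hc : c ≠ 0) (φ : k[X]) (hφ : φ ≠ 0) (d : ℕ) (hd : 1 ≤ d) (hD : φ.natDegree ≤ d)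
    (hp : ∀ i, φ.coeff i ≠ 0 → ¬ p ∣ i)
    (h : ∀ i < d, ¬ p ∣ i → (taylor c φ).coeff i = 0) :
    φ.coeff 1 ≠ 0 ∧ φ.coeff d ≠ 0 ∧ ¬ p ∣ d ∧ (taylor c φ).coeff d ≠ 0 := by
  obtain ⟨d, rfl⟩ : ∃ d', d = d' + 1 := ⟨d - 1, by omega⟩
  obtain ⟨h1, h2, -⟩ := taylor_eq_case c hc (derivative φ) (polyB_der_ne p hφ hp) d
    (by
      have h2 := natDegree_derivative_le φ
      omega)
    (fun i hi => by
      rw [polyB_der]
      by_cases hpi : p ∣ i + 1
      · have h3 := (CharP.cast_eq_zero_iff k p (i + 1)).2 hpi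
        push_cast at h3
        rw [h3, mul_zero]
      · rw [h (i + 1) (by omega) hpi, zero_mul])
  rw [coeff_derivative] at h1 h2
  have hφd : φ.coeff (d + 1) ≠ 0 := left_ne_zero_of_mul h2
  have hφ1 : φ.coeff 1 ≠ 0 := left_ne_zero_of_mul h1
  have hdeg : φ.natDegree = d + 1 := le_antisymm hD (le_natDegree_of_ne_zero hφd)
  refine ⟨hφ1, hφd, hp _ hφd, ?_⟩
  have h3 : (taylor c φ).coeff (d + 1) = φ.coeff (d + 1) := by
    have h4 := coeff_taylor_natDegree (r := c) (f := φ)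
    rw [hdeg] at h4
    rw [h4, leadingCoeff, hdeg]
  rw [h3]
  exact hφd

/-- A monomial `b T^n`, `n` prime to `p`: the Taylor coefficient of index one is not zero. -/
theorem taylor_monomial_p {k : Type} [Field k] (p : ℕ) [Fact p.Prime] [CharP k p] (c : k)
    (hc : c ≠ 0) (b : k) (hb : b ≠ 0) (n : ℕ) (hn : ¬ p ∣ n) :
    (taylor c (monomial n b)).coeff 1 ≠ 0 := by
  rw [taylor_coeff_one, derivative_monomial, eval_monomial]
  refine mul_ne_zero (mul_ne_zero hb fun h => hn ?_) (pow_ne_zero _ hc)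
  exact (CharP.cast_eq_zero_iff k p n).1 h

end Pool.Agent.Lib.TDO
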