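import Mathlib

/-!
# Module KGen: Kummer generator
-/

namespace Pool.Agent.Lib.TDO

/-- A cyclic extension of prime degree `l` with the `l`-th roots of unity in the base: use
`exists_root_adjoin_eq_top_of_isCyclic`. -/
theorem exists_kummer_gen {A N : Type} [Field A] [Field N] [Algebra A N] [FiniteDimensional A N]
    [IsGalois A N] (l : ℕ) (hl : l.Prime) (hcard : Nat.card (N ≃ₐ[A] N) = l)
    (hroot : ∃ ζ : A, IsPrimitiveRoot ζ l) :
    ∃ w : N, w ^ l ∈ Set.range (algebraMap A N) ∧ IntermediateField.adjoin A {w} = ⊤ := by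
  have hfr : Module.finrank A N = l := by
    rw [← IsGalois.card_aut_eq_finrank]
    exact hcard
  have : Fact l.Prime := ⟨hl⟩
  have : IsCyclic (N ≃ₐ[A] N) := isCyclic_of_prime_card hcard
  obtain ⟨ζ, hζ⟩ := hroot
  have hK : (primitiveRoots (Module.finrank A N) A).Nonempty := by
    rw [hfr]
    exact ⟨ζ, (mem_primitiveRoots hl.pos).2 hζ⟩
  obtain ⟨α, h1, h2⟩ := exists_root_adjoin_eq_top_of_isCyclic A N hK
  rw [hfr] at h1
  exact ⟨α, h1, h2⟩

end Pool.Agent.Lib.TDO
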