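import Pool.Agent.Lib.TDO.Ev

/-!
# Module Subst: substitution of a stage into a Laurent polynomial

`P = ∑ P(m) X^a Y^j`, `m = (a, j)`; `X^a Y^j` becomes `X'^(T m).1 * (c + Y')^(T m).2`.  For a fixed
exponent `α` of `X'` collect the terms with `(T m).1 = α` in the polynomial
`part T P α = ∑ P(m) T^(T m).2`; the coefficient of `X'^α` is then `part T P α (c + Y')`, i.e.
`Polynomial.taylor c (part T P α)`.  Construct `P'` as
`∑ m ∈ P.coeff.support, ∑ i ∈ range ((T m).2.toNat + 1), single ((T m).1, i) (..)`, or with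
`Finsupp.onFinset`.  `ev x' y' P' = ev x y P` by `Stage.hm` termwise.
-/

namespace Pool.Agent.Lib.TDO

open Pool.Agent.Lib.MP_3029eb_ag Pool.Agent.Lib.MP_3029eb_ag.Abh

open Classical in
/-- The part of exponent `α` after substitution, as a polynomial in `w`. -/
noncomputable def part {k : Type} [Field k] {r : ℕ}
    (T : ((Fin r → ℤ) × ℤ) ≃+ ((Fin r → ℤ) × ℤ)) (P : LP k r) (α : Fin r → ℤ) :
    Polynomial k :=
  ∑ m ∈ P.coeff.support.filter (fun m => (T (m.1, (m.2 : ℤ))).1 = α),
    Polynomial.monomial (T (m.1, (m.2 : ℤ))).2.toNat (P.coeff m)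

/-- The coefficients of `part`: the terms of `part T P α` have pairwise different degrees. -/
theorem part_coeff {k : Type} [Field k] {r : ℕ}
    (T : ((Fin r → ℤ) × ℤ) ≃+ ((Fin r → ℤ) × ℤ)) (P : LP k r)
    (hT : ∀ a j, P.coeff (a, j) ≠ 0 → 0 ≤ (T (a, (j : ℤ))).2) (a : Fin r → ℤ) (j : ℕ)
    (h : P.coeff (a, j) ≠ 0) :
    (part T P (T (a, (j : ℤ))).1).coeff (T (a, (j : ℤ))).2.toNat = P.coeff (a, j) := by
  classical
  unfold part
  rw [Polynomial.finsetSum_coeff, Finset.sum_eq_single (a, j)]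
  · rw [Polynomial.coeff_monomial, if_pos rfl]
  · rintro ⟨a', j'⟩ hm hne
    rw [Finset.mem_filter, Finsupp.mem_support_iff] at hm
    rw [Polynomial.coeff_monomial, if_neg]
    intro heq
    refine hne ?_
    have h1 := hT a' j' hm.1
    have h2 := hT a j h
    have h3 : (T (a', (j' : ℤ))).2 = (T (a, (j : ℤ))).2 := by
      have h4 : ((T (a', (j' : ℤ))).2.toNat : ℤ) = ((T (a, (j : ℤ))).2.toNat : ℤ) := by
        exact_mod_cast heq
      rwa [Int.toNat_of_nonneg h1, Int.toNat_of_nonneg h2] at h4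
    have h5 : T (a', (j' : ℤ)) = T (a, (j : ℤ)) := Prod.ext hm.2 h3
    have h6 := T.injective h5
    rw [Prod.mk.injEq, Nat.cast_inj] at h6
    rw [h6.1, h6.2]
  · intro hn
    refine absurd ?_ hn
    rw [Finset.mem_filter]
    exact ⟨Finsupp.mem_support_iff.2 h, rfl⟩

theorem part_coeff_ne {k : Type} [Field k] {r : ℕ}
    (T : ((Fin r → ℤ) × ℤ) ≃+ ((Fin r → ℤ) × ℤ)) (P : LP k r)
    (hT : ∀ a j, P.coeff (a, j) ≠ 0 → 0 ≤ (T (a, (j : ℤ))).2) (α : Fin r → ℤ) (n : ℕ)
    (h : (part T P α).coeff n ≠ 0) :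
    ∃ a j, P.coeff (a, j) ≠ 0 ∧ T (a, (j : ℤ)) = (α, (n : ℤ)) := by
  classical
  unfold part at h
  rw [Polynomial.finsetSum_coeff] at h
  obtain ⟨⟨a, j⟩, hm, h1⟩ := Finset.exists_ne_zero_of_sum_ne_zero h
  rw [Finset.mem_filter, Finsupp.mem_support_iff] at hm
  rw [Polynomial.coeff_monomial] at h1
  have h2 : (T (a, (j : ℤ))).2.toNat = n := by
    by_contra hne
    rw [if_neg hne] at h1
    exact h1 rfl
  refine ⟨a, j, hm.1, Prod.ext hm.2 ?_⟩
  change (T (a, (j : ℤ))).2 = n
  rw [← h2, Int.toNat_of_nonneg (hT a j hm.1)]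

theorem exists_subst {k W : Type} [Field k] [NormedField W] [Algebra k W] {r : ℕ}
    {x : Fin r → W} {y : W} {x' : Fin r → W} {y' : W} {e : ℕ} {B : Fin r → ℤ} {c : k}
    {T : ((Fin r → ℤ) × ℤ) ≃+ ((Fin r → ℤ) × ℤ)} (h : Stage x y x' y' e B c T) (P : LP k r)
    (hT : ∀ a j, P.coeff (a, j) ≠ 0 → 0 ≤ (T (a, (j : ℤ))).2) :
    ∃ P' : LP k r, ev x' y' P' = ev x y P ∧
      ∀ α i, P'.coeff (α, i) = (Polynomial.taylor c (part T P α)).coeff i := by
  classical
  obtain ⟨q, hq⟩ : ∃ q : (Fin r → ℤ) × ℕ → Polynomial k, q = fun m =>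
    Polynomial.taylor c (Polynomial.monomial (T (m.1, (m.2 : ℤ))).2.toNat (P.coeff m)) := ⟨_, rfl⟩
  have hdeg : ∀ m, (q m).natDegree ≤ (T (m.1, (m.2 : ℤ))).2.toNat := by
    intro m
    rw [hq]
    dsimp only
    rw [Polynomial.natDegree_taylor]
    exact Polynomial.natDegree_monomial_le _
  refine ⟨∑ m ∈ P.coeff.support, ∑ i ∈ Finset.range ((T (m.1, (m.2 : ℤ))).2.toNat + 1),
    AddMonoidAlgebra.single ((T (m.1, (m.2 : ℤ))).1, i) ((q m).coeff i), ?_, ?_⟩
  · rw [ev_sum]
    unfold ev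
    rw [Finsupp.sum]
    refine Finset.sum_congr rfl fun m hm => ?_
    have hm' : P.coeff (m.1, m.2) ≠ 0 := Finsupp.mem_support_iff.1 hm
    have hnn := hT m.1 m.2 hm'
    have h1 := h.hm m.1 (m.2 : ℤ)
    rw [zpow_natCast] at h1
    have h2 : (algebraMap k W c + y') ^ (T (m.1, (m.2 : ℤ))).2 =
        (algebraMap k W c + y') ^ (T (m.1, (m.2 : ℤ))).2.toNat := by
      rw [← zpow_natCast, Int.toNat_of_nonneg hnn]
    have h3 : Polynomial.aeval y' (q m) = algebraMap k W (P.coeff m) *
        (algebraMap k W c + y') ^ (T (m.1, (m.2 : ℤ))).2.toNat := by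
      rw [hq]
      dsimp only
      rw [Polynomial.taylor_apply, Polynomial.aeval_comp, Polynomial.aeval_monomial, map_add,
        Polynomial.aeval_X, Polynomial.aeval_C, add_comm y']
    have h4 : Polynomial.aeval y' (q m) = ∑ i ∈ Finset.range ((T (m.1, (m.2 : ℤ))).2.toNat + 1),
        algebraMap k W ((q m).coeff i) * y' ^ i := by
      rw [Polynomial.aeval_eq_sum_range' (n := (T (m.1, (m.2 : ℤ))).2.toNat + 1)
        (Nat.lt_succ_of_le (hdeg m))]
      exact Finset.sum_congr rfl fun i _ => by rw [Algebra.smul_def]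
    have h5 : (∑ i ∈ Finset.range ((T (m.1, (m.2 : ℤ))).2.toNat + 1),
        AddMonoidAlgebra.single ((T (m.1, (m.2 : ℤ))).1, i) ((q m).coeff i) :
          LP k r).coeff.sum (fun m c => algebraMap k W c * (mon x' m.1 * y' ^ m.2)) =
        ∑ i ∈ Finset.range ((T (m.1, (m.2 : ℤ))).2.toNat + 1),
          algebraMap k W ((q m).coeff i) * (mon x' (T (m.1, (m.2 : ℤ))).1 * y' ^ i) := by
      change ev x' y' _ = _
      rw [ev_sum]
      exact Finset.sum_congr rfl fun i _ => by rw [ev_single]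
    rw [h5, h1, h2]
    calc ∑ i ∈ Finset.range ((T (m.1, (m.2 : ℤ))).2.toNat + 1),
          algebraMap k W ((q m).coeff i) * (mon x' (T (m.1, (m.2 : ℤ))).1 * y' ^ i)
        = mon x' (T (m.1, (m.2 : ℤ))).1 * ∑ i ∈ Finset.range ((T (m.1, (m.2 : ℤ))).2.toNat + 1),
          algebraMap k W ((q m).coeff i) * y' ^ i := by
          rw [Finset.mul_sum]
          exact Finset.sum_congr rfl fun i _ => by ring
      _ = _ := by
          rw [← h4, h3]
          ring
  · intro α i
    rw [AddMonoidAlgebra.coeff_sum, Finsupp.finsetSum_apply]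
    have h1 : ∀ m ∈ P.coeff.support,
        (∑ i ∈ Finset.range ((T (m.1, (m.2 : ℤ))).2.toNat + 1),
          AddMonoidAlgebra.single ((T (m.1, (m.2 : ℤ))).1, i) ((q m).coeff i) :
            LP k r).coeff (α, i) =
        if (T (m.1, (m.2 : ℤ))).1 = α then (q m).coeff i else 0 := by
      intro m _
      rw [AddMonoidAlgebra.coeff_sum, Finsupp.finsetSum_apply]
      by_cases hα : (T (m.1, (m.2 : ℤ))).1 = α
      · rw [if_pos hα]
        by_cases hi : i ∈ Finset.range ((T (m.1, (m.2 : ℤ))).2.toNat + 1)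
        · rw [Finset.sum_eq_single_of_mem i hi]
          · rw [AddMonoidAlgebra.coeff_single, Finsupp.single_apply, if_pos (by rw [hα])]
          · intro j _ hj
            rw [AddMonoidAlgebra.coeff_single, Finsupp.single_apply, if_neg]
            intro e
            exact hj (congrArg Prod.snd e)
        · rw [Finset.sum_eq_zero]
          · rw [Polynomial.coeff_eq_zero_of_natDegree_lt]
            rw [Finset.mem_range] at hi
            have := hdeg m
            omega
          · intro j hj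
            rw [AddMonoidAlgebra.coeff_single, Finsupp.single_apply, if_neg]
            intro e
            have e2 : j = i := congrArg Prod.snd e
            rw [e2] at hj
            exact hi hj
      · rw [if_neg hα, Finset.sum_eq_zero]
        intro j _
        rw [AddMonoidAlgebra.coeff_single, Finsupp.single_apply, if_neg]
        intro e
        exact hα (congrArg Prod.fst e)
    rw [Finset.sum_congr rfl h1, ← Finset.sum_filter]
    unfold part
    rw [map_sum, Polynomial.finsetSum_coeff, hq]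

end Pool.Agent.Lib.TDO
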