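import Pool.Agent.Lib.TDO.Defs

/-!
# Module Ambient: the ambient field

`Fc = UniformSpace.Completion F` (a complete nontrivially normed ultrametric field: the norm of the
completion is the continuous extension, the ultrametric inequality passes to the closure),
`W = AlgebraicClosure Fc` with the spectral norm (`spectralNorm.nontriviallyNormedField`,
`isNonarchimedean_spectralNorm`, `spectralNorm_extends`).  The closure of the image of `F` in `W` is
the image of `Fc`, which is complete.
`Amb` for `Fc`: every nonzero element of `Fc` has the norm of an element of `F`, and is congruent to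
it; so residue field and value group do not change.
`Amb` for `W`: `unit` clear.  `res`: let `‖z‖ ≤ 1`, `g` its minimal polynomial over `Fc`: monic with
coefficients of norm `≤ 1` (definition of the spectral norm); replace the coefficients by constants
`c_j ∈ k` at distance `< 1`: `g0 ∈ k[T]` monic splits, `g0 = ∏ (T - a_i)`, and
`∏ ‖z - a_i‖ = ‖g0(z)‖ = ‖g0(z) - g(z)‖ < 1`, so some `‖z - a_i‖ < 1`.  `rank`: for every `z ≠ 0` of `W`
some positive power of `‖z‖` is the norm of an element of `Fc` (`‖z‖^n = ‖constant coefficient of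
the minimal polynomial‖`: `spectralNorm_eq_norm_coeff_zero_rpow`), apply `rank` of `Fc`.
-/

namespace Pool.Agent.Lib.TDO

open Pool.Agent.Lib.MP_3029eb_ag Pool.Agent.Lib.MP_3029eb_ag.Abh
open Polynomial

private theorem ambient_norm_mon {L : Type} [NormedField L] {r : ℕ} (u : Fin r → L)
    (a : Fin r → ℤ) : ‖mon u a‖ = ∏ i, ‖u i‖ ^ a i := by
  unfold mon
  rw [norm_prod]
  exact Finset.prod_congr rfl fun i _ => norm_zpow _ _

/-- A dense extension has the same residue field and value group. -/
private theorem ambient_dense {k F K : Type} [Field k] [NormedField F] [NormedField K]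
    [IsUltrametricDist K] [Algebra k F] [Algebra k K] (j : F →+* K)
    (hj : ∀ z, ‖j z‖ = ‖z‖) (hjk : ∀ c : k, j (algebraMap k F c) = algebraMap k K c)
    (hd : ∀ z : K, ∀ ε : ℝ, 0 < ε → ∃ f : F, ‖z - j f‖ < ε) {r : ℕ} (hF : Amb r k F) :
    Amb r k K := by
  refine ⟨fun c hc => ?_, fun z hz => ?_, fun z hz => ?_⟩
  · rw [← hjk, hj]
    exact hF.unit c hc
  · obtain ⟨f, hf⟩ := hd z 1 one_pos
    have h1 : ‖f‖ ≤ 1 := by
      rw [← hj]
      have h2 : j f = z + -(z - j f) := by ring
      rw [h2]
      exact (IsUltrametricDist.norm_add_le_max _ _).trans (max_le hz (by rw [norm_neg]; exact hf.le))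
    obtain ⟨c, hc⟩ := hF.res f h1
    refine ⟨c, ?_⟩
    have h3 : z - algebraMap k K c = (z - j f) + (j (f - algebraMap k F c)) := by
      rw [map_sub, hjk]; ring
    rw [h3]
    refine (IsUltrametricDist.norm_add_le_max _ _).trans_lt (max_lt hf ?_)
    rw [hj]
    exact hc
  · have h1 : ∀ i, ∃ f : F, ‖z i - j f‖ < ‖z i‖ := fun i => hd (z i) _ (norm_pos_iff.mpr (hz i))
    choose f hf using h1
    have h2 : ∀ i, ‖f i‖ = ‖z i‖ := by
      intro i
      rw [← hj]
      have h3 : j (f i) = z i + -(z i - j (f i)) := by ring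
      rw [h3]
      have h4 : ‖-(z i - j (f i))‖ < ‖z i‖ := by rw [norm_neg]; exact hf i
      rw [IsUltrametricDist.norm_add_eq_max_of_norm_ne_norm h4.ne']
      exact max_eq_left h4.le
    obtain ⟨a, ha, ha1⟩ := hF.rank f fun i => norm_pos_iff.mp (by
      rw [h2]; exact norm_pos_iff.mpr (hz i))
    refine ⟨a, ha, ?_⟩
    rw [ambient_norm_mon] at ha1 ⊢
    rw [← ha1]
    exact Finset.prod_congr rfl fun i _ => by rw [h2]

/-- An algebraic extension with the spectral norm. -/
private theorem ambient_alg {k K W : Type} [Field k] [IsAlgClosed k] [NormedField K]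
    [NormedField W] [IsUltrametricDist W] [Algebra k K] [Algebra K W] [Algebra k W]
    [IsScalarTower k K W] (hext : ∀ z : K, ‖algebraMap K W z‖ = ‖z‖)
    (halg : ∀ z : W, IsIntegral K z)
    (hcoef : ∀ z : W, ‖z‖ ≤ 1 → ∀ j, ‖(minpoly K z).coeff j‖ ≤ 1)
    (hpow : ∀ z : W, z ≠ 0 → ∃ n : ℕ, 0 < n ∧ ∃ a : K, a ≠ 0 ∧ ‖z‖ ^ n = ‖a‖)
    {r : ℕ} (hK : Amb r k K) : Amb r k W := by
  refine ⟨fun c hc => ?_, fun z hz => ?_, fun z hz => ?_⟩
  · rw [IsScalarTower.algebraMap_apply k K W, hext]
    exact hK.unit c hc
  · set g := minpoly K z with hg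
    have h1 : ∀ j, ∃ c : k, ‖g.coeff j - algebraMap k K c‖ < 1 := fun j =>
      hK.res _ (hcoef z hz j)
    choose c hc using h1
    set n := g.natDegree with hn
    have hn0 : 0 < n := minpoly.natDegree_pos (halg z)
    have hgm : g.Monic := minpoly.monic (halg z)
    set g0 : k[X] := X ^ n + ∑ i : Fin n, C (c i) * X ^ (i : ℕ) with hg0
    have hg0m : g0.Monic := monic_X_pow_add (degree_sum_fin_lt _)
    have hsplit : g0.Splits := IsAlgClosed.splits g0
    -- the value of `g0`
    have h2 : aeval z g0 = z ^ n + ∑ i : Fin n, algebraMap k W (c i) * z ^ (i : ℕ) := by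
      rw [hg0, map_add, map_pow, aeval_X, map_sum]
      congr 1
      exact Finset.sum_congr rfl fun i _ => by rw [map_mul, map_pow, aeval_X, aeval_C]
    have h3 : (0 : W) = z ^ n + ∑ i : Fin n, algebraMap K W (g.coeff i) * z ^ (i : ℕ) := by
      have h4 : aeval z g = 0 := minpoly.aeval K z
      rw [aeval_eq_sum_range, Finset.sum_range_succ, ← hn] at h4
      have h5 : g.coeff n = 1 := hgm.coeff_natDegree
      rw [h5, one_smul, Finset.sum_range] at h4
      rw [← h4, add_comm]
      congr 1
      exact Finset.sum_congr rfl fun i _ => by rw [Algebra.smul_def]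
    have h6 : aeval z g0 = ∑ i : Fin n,
        algebraMap K W (algebraMap k K (c i) - g.coeff i) * z ^ (i : ℕ) := by
      have h7 : aeval z g0 = aeval z g0 - 0 := (sub_zero _).symm
      rw [h7, h3, h2, add_sub_add_left_eq_sub, ← Finset.sum_sub_distrib]
      exact Finset.sum_congr rfl fun i _ => by
        rw [map_sub, ← IsScalarTower.algebraMap_apply k K W]; ring
    have h8 : ‖aeval z g0‖ < 1 := by
      rw [h6]
      have : Nonempty (Fin n) := ⟨⟨0, hn0⟩⟩
      obtain ⟨i, -, hi⟩ := IsUltrametricDist.exists_norm_finsetSum_le_of_nonempty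
        (Finset.univ_nonempty (α := Fin n))
        fun i : Fin n => algebraMap K W (algebraMap k K (c i) - g.coeff i) * z ^ (i : ℕ)
      refine hi.trans_lt ?_
      rw [norm_mul, norm_pow, hext, norm_sub_rev]
      calc ‖g.coeff i - algebraMap k K (c i)‖ * ‖z‖ ^ (i : ℕ)
          ≤ ‖g.coeff i - algebraMap k K (c i)‖ * 1 :=
            mul_le_mul_of_nonneg_left (pow_le_one₀ (norm_nonneg _) hz) (norm_nonneg _)
        _ < 1 := by rw [mul_one]; exact hc i
    by_contra hcon
    push Not at hcon
    have h9 : aeval z g0 = (g0.roots.map fun a => z - algebraMap k W a).prod := by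
      conv_lhs => rw [hsplit.eq_prod_roots_of_monic hg0m]
      rw [map_multiset_prod, Multiset.map_map]
      congr 1
      refine Multiset.map_congr rfl fun a _ => ?_
      simp
    have h10 : (1 : ℝ) ≤ ‖aeval z g0‖ := by
      rw [h9]
      have h11 : ∀ s : Multiset k, (1 : ℝ) ≤ ‖(s.map fun a => z - algebraMap k W a).prod‖ := by
        intro s
        induction s using Multiset.induction_on with
        | empty => simp
        | cons a s ih =>
          rw [Multiset.map_cons, Multiset.prod_cons, norm_mul]
          exact one_le_mul_of_one_le_of_one_le (hcon a) ih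
      exact h11 _
    exact absurd h8 (not_lt.mpr h10)
  · have h1 : ∀ i, ∃ n : ℕ, 0 < n ∧ ∃ a : K, a ≠ 0 ∧ ‖z i‖ ^ n = ‖a‖ := fun i => hpow (z i) (hz i)
    choose n hn a ha hna using h1
    obtain ⟨b, hb, hb1⟩ := hK.rank a ha
    refine ⟨fun i => (n i : ℤ) * b i, fun h0 => hb ?_, ?_⟩
    · funext i
      have h2 := congrFun h0 i
      rw [Pi.zero_apply] at h2 ⊢
      rcases mul_eq_zero.mp h2 with h3 | h3
      · exact absurd h3 (by exact_mod_cast (hn i).ne')
      · exact h3
    · rw [ambient_norm_mon] at hb1 ⊢
      rw [← hb1]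
      exact Finset.prod_congr rfl fun i _ => by rw [← hna, zpow_mul, zpow_natCast]

private theorem ambient_isComplete_subset {W : Type} [UniformSpace W] {s t : Set W}
    (hs : IsComplete s) (ht : IsClosed t) (hts : t ⊆ s) : IsComplete t := by
  intro f hf hft
  obtain ⟨x, _, hx⟩ := hs f hf (hft.trans (Filter.principal_mono.mpr hts))
  have := hf.1
  exact ⟨x, ht.mem_of_tendsto (f := id) (b := f) hx (Filter.le_principal_iff.mp hft), hx⟩

private theorem ambient_ultra {F : Type} [NormedField F] [IsUltrametricDist F] :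
    IsUltrametricDist (UniformSpace.Completion F) := by
  refine IsUltrametricDist.isUltrametricDist_of_forall_norm_add_le_max_norm fun x y => ?_
  refine UniformSpace.Completion.induction_on₂ x y ?_ fun a b => ?_
  · exact isClosed_le ((continuous_fst.add continuous_snd).norm)
      (continuous_fst.norm.max continuous_snd.norm)
  · rw [← UniformSpace.Completion.coe_add, UniformSpace.Completion.norm_coe,
      UniformSpace.Completion.norm_coe, UniformSpace.Completion.norm_coe]
    exact IsUltrametricDist.norm_add_le_max a b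

/-- The algebraic closure of a complete field. -/
private theorem ambient_complete {k K : Type} [Field k] [IsAlgClosed k] [NontriviallyNormedField K]
    [IsUltrametricDist K] [CompleteSpace K] [Algebra k K] {r : ℕ} (hK : Amb r k K) :
    ∃ (W : Type) (_ : NontriviallyNormedField W) (_ : IsUltrametricDist W) (_ : Algebra k W)
      (_ : IsAlgClosed W) (ι : K →ₐ[k] W), (∀ z, ‖ι z‖ = ‖z‖) ∧ Amb r k W := by
  let W := AlgebraicClosure K
  let nf : NontriviallyNormedField W := spectralNorm.nontriviallyNormedField K W
  have hnorm : ∀ z : W, ‖z‖ = spectralNorm K W z := fun z => rfl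
  have hu : IsUltrametricDist W := by
    refine IsUltrametricDist.isUltrametricDist_of_forall_norm_add_le_max_norm fun x y => ?_
    rw [hnorm, hnorm, hnorm]
    exact isNonarchimedean_spectralNorm x y
  have hamb : Amb r k W := by
    refine ambient_alg (K := K) (fun z => ?_) (fun z => ?_) (fun z hz j => ?_) (fun z hz => ?_) hK
    · exact spectralNorm_extends z
    · exact (Algebra.IsAlgebraic.isAlgebraic (R := K) z).isIntegral
    · have h1 : spectralValue (minpoly K z) ≤ 1 := hz
      exact (spectralValue_le_one_iff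
        (minpoly.monic (Algebra.IsAlgebraic.isAlgebraic (R := K) z).isIntegral)).mp h1 j
    · have hint : IsIntegral K z := (Algebra.IsAlgebraic.isAlgebraic (R := K) z).isIntegral
      have hn : 0 < (minpoly K z).natDegree := minpoly.natDegree_pos hint
      refine ⟨(minpoly K z).natDegree, hn, (minpoly K z).coeff 0,
        minpoly.coeff_zero_ne_zero hint hz, ?_⟩
      have h1 := spectralNorm.spectralNorm_eq_norm_coeff_zero_rpow K W z
      rw [hnorm, h1, ← Real.rpow_natCast, ← Real.rpow_mul (norm_nonneg _), one_div,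
        inv_mul_cancel₀ (by exact_mod_cast hn.ne'), Real.rpow_one]
  exact ⟨W, nf, hu, inferInstance, inferInstance, IsScalarTower.toAlgHom k K W,
    fun z => spectralNorm_extends z, hamb⟩

theorem exists_amb {k F : Type} [Field k] [IsAlgClosed k] [NontriviallyNormedField F]
    [IsUltrametricDist F] [Algebra k F] {r : ℕ} (hF : Amb r k F) :
    ∃ (W : Type) (_ : NontriviallyNormedField W) (_ : IsUltrametricDist W) (_ : Algebra k W)
      (_ : IsAlgClosed W) (ι : F →ₐ[k] W), (∀ z, ‖ι z‖ = ‖z‖) ∧ Amb r k W ∧
      IsComplete (closure (Set.range ι)) := by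
  let Fc := UniformSpace.Completion F
  let j : F →+* Fc := UniformSpace.Completion.coeRingHom
  have hj : ∀ z, ‖j z‖ = ‖z‖ := fun z => UniformSpace.Completion.norm_coe z
  let nf : NontriviallyNormedField Fc :=
    { (inferInstance : NormedField Fc) with
      non_trivial := by
        obtain ⟨x, hx⟩ := NontriviallyNormedField.non_trivial (α := F)
        exact ⟨j x, by rw [hj]; exact hx⟩ }
  have hu : IsUltrametricDist Fc := ambient_ultra
  let alg : Algebra k Fc := (j.comp (algebraMap k F)).toAlgebra
  have hd : ∀ z : Fc, ∀ ε : ℝ, 0 < ε → ∃ f : F, ‖z - j f‖ < ε := by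
    intro z ε hε
    obtain ⟨f, hf⟩ := (Metric.denseRange_iff.mp
      (UniformSpace.Completion.denseRange_coe (α := F))) z ε hε
    exact ⟨f, by rw [← dist_eq_norm]; exact hf⟩
  have hK : Amb r k Fc := ambient_dense (k := k) (F := F) (K := Fc) j hj (fun c => rfl) hd hF
  obtain ⟨W, nfW, huW, algW, hac, ι, hι, hamb⟩ := ambient_complete hK
  let j' : F →ₐ[k] Fc := { j with commutes' := fun c => rfl }
  refine ⟨W, nfW, huW, algW, hac, ι.comp j', fun z => ?_, hamb, ?_⟩
  · rw [AlgHom.comp_apply, hι]
    exact hj z
  · have hiso : Isometry ι := AddMonoidHomClass.isometry_of_norm ι hι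
    have h1 : IsComplete (Set.range ι) := by
      rw [← Set.image_univ]
      exact (isComplete_image_iff hiso.isUniformInducing).mpr
        (completeSpace_iff_isComplete_univ.mp inferInstance)
    refine ambient_isComplete_subset h1 isClosed_closure ?_
    refine closure_minimal ?_ h1.isClosed
    rintro _ ⟨z, rfl⟩
    exact ⟨j' z, rfl⟩

end Pool.Agent.Lib.TDO
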