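import Pool.Agent.Lib.TDO.Defs

/-!
# Module Mon: monomials with integral exponents and their values

Everything is elementary (zpow_add₀, Finset.prod_mul_distrib, Real.log). Several facts exist in
`Pool.Agent.Lib.MP_3029eb_ag.AbhC3` (C3_mon_neg, C3_mon_ne_zero) and `AbhT1`.
-/

namespace Pool.Agent.Lib.TDO

open Pool.Agent.Lib.MP_3029eb_ag Pool.Agent.Lib.MP_3029eb_ag.Abh

theorem mon_zero {W : Type} [Field W] {r : ℕ} (x : Fin r → W) : mon x 0 = 1 := by
  simp [mon]

theorem mon_neg {W : Type} [Field W] {r : ℕ} (x : Fin r → W) (a : Fin r → ℤ) :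
    mon x (-a) = (mon x a)⁻¹ := by
  unfold mon
  rw [← Finset.prod_inv_distrib]
  exact Finset.prod_congr rfl fun i _ => by rw [Pi.neg_apply, zpow_neg]

theorem mon_add {W : Type} [Field W] {r : ℕ} (x : Fin r → W) (hx : ∀ i, x i ≠ 0)
    (a b : Fin r → ℤ) : mon x (a + b) = mon x a * mon x b := by
  unfold mon
  rw [← Finset.prod_mul_distrib]
  exact Finset.prod_congr rfl fun i _ => by rw [Pi.add_apply, zpow_add₀ (hx i)]

theorem mon_ne {W : Type} [Field W] {r : ℕ} (x : Fin r → W) (hx : ∀ i, x i ≠ 0)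
    (a : Fin r → ℤ) : mon x a ≠ 0 := by
  unfold mon
  exact Finset.prod_ne_zero_iff.2 fun i _ => zpow_ne_zero _ (hx i)

theorem mon_zsmul {W : Type} [Field W] {r : ℕ} (x : Fin r → W) (n : ℤ) (a : Fin r → ℤ) :
    mon x (n • a) = mon x a ^ n := by
  unfold mon
  rw [← Finset.prod_zpow]
  exact Finset.prod_congr rfl fun i _ => by rw [Pi.smul_apply, smul_eq_mul, zpow_mul']

theorem mon_nsmul {W : Type} [Field W] {r : ℕ} (x : Fin r → W) (n : ℕ) (a : Fin r → ℤ) :
    mon x (n • a) = mon x a ^ n := by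
  rw [← natCast_zsmul, mon_zsmul, zpow_natCast]

theorem mon_single {W : Type} [Field W] {r : ℕ} (x : Fin r → W) (i : Fin r) :
    mon x (Pi.single i 1) = x i := by
  unfold mon
  rw [Finset.prod_eq_single i]
  · rw [Pi.single_eq_same, zpow_one]
  · intro j _ hj
    rw [Pi.single_eq_of_ne hj, zpow_zero]
  · intro h
    exact absurd (Finset.mem_univ i) h

/-- Different monomials have different norms. -/
theorem norm_mon_inj {W : Type} [NormedField W] {r : ℕ} {x : Fin r → W} (hx : Indep x)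
    {a b : Fin r → ℤ} (h : ‖mon x a‖ = ‖mon x b‖) : a = b := by
  have hb : ‖mon x b‖ ≠ 0 := norm_ne_zero_iff.2 (mon_ne x hx.ne b)
  have h1 : ‖mon x (a + -b)‖ = 1 := by
    rw [mon_add x hx.ne, mon_neg, norm_mul, norm_inv, h, mul_inv_cancel₀ hb]
  have h2 := hx.indep _ h1
  rwa [← sub_eq_add_neg, sub_eq_zero] at h2

/-- The additive value `nu x a = - log ‖mon x a‖`, as an additive map. -/
noncomputable def nu {W : Type} [NormedField W] {r : ℕ} (x : Fin r → W) :
    (Fin r → ℤ) →+ ℝ where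
  toFun a := ∑ i, (a i : ℝ) * wt x i
  map_zero' := by simp
  map_add' a b := by
    rw [← Finset.sum_add_distrib]
    exact Finset.sum_congr rfl fun i _ => by rw [Pi.add_apply]; push_cast; ring

theorem norm_mon_eq_exp {W : Type} [NormedField W] {r : ℕ} (x : Fin r → W) (hx : ∀ i, x i ≠ 0)
    (a : Fin r → ℤ) : ‖mon x a‖ = Real.exp (-nu x a) := by
  have h1 : -nu x a = ∑ i, (a i : ℝ) * Real.log ‖x i‖ := by
    change -∑ i, (a i : ℝ) * wt x i = _
    rw [← Finset.sum_neg_distrib]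
    exact Finset.sum_congr rfl fun i _ => by unfold wt; ring
  rw [h1, Real.exp_sum]
  unfold mon
  rw [norm_prod]
  refine Finset.prod_congr rfl fun i _ => ?_
  rw [norm_zpow, ← Real.rpow_intCast, Real.rpow_def_of_pos (norm_pos_iff.2 (hx i)), mul_comm]

theorem nu_injective {W : Type} [NormedField W] {r : ℕ} {x : Fin r → W} (hx : Indep x) :
    Function.Injective (nu x) := by
  intro a b h
  refine norm_mon_inj hx ?_
  rw [norm_mon_eq_exp x hx.ne, norm_mon_eq_exp x hx.ne, h]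

theorem norm_mon_le_iff {W : Type} [NormedField W] {r : ℕ} {x : Fin r → W} (hx : Indep x)
    (a b : Fin r → ℤ) : ‖mon x a‖ ≤ ‖mon x b‖ ↔ nu x b ≤ nu x a := by
  rw [norm_mon_eq_exp x hx.ne, norm_mon_eq_exp x hx.ne, Real.exp_le_exp, neg_le_neg_iff]

theorem norm_mon_lt_iff {W : Type} [NormedField W] {r : ℕ} {x : Fin r → W} (hx : Indep x)
    (a b : Fin r → ℤ) : ‖mon x a‖ < ‖mon x b‖ ↔ nu x b < nu x a := by
  rw [norm_mon_eq_exp x hx.ne, norm_mon_eq_exp x hx.ne, Real.exp_lt_exp, neg_lt_neg_iff]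

/-- There are monomials of arbitrarily small norm (here `r` is positive): powers of `x 0`. -/
theorem exists_mon_lt {W : Type} [NormedField W] {r : ℕ} (hr : 0 < r) {x : Fin r → W}
    (hx : Indep x) (C : ℝ) (hC : 0 < C) :
    ∃ N : Fin r → ℤ, (∀ i, 0 ≤ N i) ∧ ‖mon x N‖ < C := by
  obtain ⟨n, hn⟩ := exists_pow_lt_of_lt_one hC (hx.lt ⟨0, hr⟩)
  refine ⟨n • Pi.single ⟨0, hr⟩ 1, fun i => ?_, ?_⟩
  · have h1 : (0 : Fin r → ℤ) ≤ Pi.single ⟨0, hr⟩ 1 := by
      rw [Pi.le_def]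
      intro j
      by_cases hj : j = ⟨0, hr⟩
      · rw [hj, Pi.single_eq_same]
        exact zero_le_one
      · rw [Pi.single_eq_of_ne hj]
        exact le_rfl
    have h2 : (0 : Fin r → ℤ) ≤ n • Pi.single ⟨0, hr⟩ 1 := nsmul_nonneg h1 n
    exact h2 i
  · rw [mon_nsmul, mon_single, norm_pow]
    exact hn

end Pool.Agent.Lib.TDO
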