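import Pool.Agent.Lib.TDO.Ev

/-!
# Module Red: reduction of a Laurent polynomial modulo `s^p - s`
-/

namespace Pool.Agent.Lib.TDO

open Pool.Agent.Lib.MP_3029eb_ag Pool.Agent.Lib.MP_3029eb_ag.Abh

/-- The restriction of a Laurent polynomial to a set of exponents. -/
private theorem red_restrict {k : Type} [Field k] {r : ℕ} (P : LP k r)
    (S : (Fin r → ℤ) × ℕ → Prop) : ∃ P' : LP k r,
      (∀ a j, S (a, j) → P'.coeff (a, j) = P.coeff (a, j)) ∧
      (∀ a j, ¬ S (a, j) → P'.coeff (a, j) = 0) := by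
  classical
  refine ⟨AddMonoidAlgebra.ofCoeff (P.coeff.filter S), fun a j h => ?_, fun a j h => ?_⟩
  · rw [AddMonoidAlgebra.coeff_ofCoeff, Finsupp.filter_apply, if_pos h]
  · rw [AddMonoidAlgebra.coeff_ofCoeff, Finsupp.filter_apply, if_neg h]

private theorem red_root {k : Type} [Field k] [IsAlgClosed k] (p : ℕ) [Fact p.Prime] (c0 : k) :
    ∃ c : k, c ^ p - c = c0 := by
  have hp : 1 < p := (Fact.out : p.Prime).one_lt
  have hdeg : (Polynomial.X ^ p - (Polynomial.X + Polynomial.C c0) : Polynomial k).degree = p := by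
    rw [Polynomial.degree_sub_eq_left_of_degree_lt]
    · exact Polynomial.degree_X_pow p
    · rw [Polynomial.degree_X_pow, Polynomial.degree_X_add_C]
      exact_mod_cast hp
  obtain ⟨c, hc⟩ := IsAlgClosed.exists_root
    (Polynomial.X ^ p - (Polynomial.X + Polynomial.C c0) : Polynomial k) (by
      rw [hdeg]
      exact_mod_cast (by omega : p ≠ 0))
  refine ⟨c, ?_⟩
  rw [Polynomial.IsRoot.def, Polynomial.eval_sub, Polynomial.eval_pow, Polynomial.eval_X,
    Polynomial.eval_add, Polynomial.eval_X, Polynomial.eval_C] at hc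
  linear_combination hc

/-- dropping a part of norm at most one -/
private theorem red_drop {k W : Type} [Field k] [IsAlgClosed k] [NormedField W]
    [IsUltrametricDist W] [Algebra k W] {r : ℕ} (hA : Amb r k W) (p : ℕ) [Fact p.Prime]
    {x : Fin r → W} {y : W} (P P' : LP k r)
    (h : ∀ a j, (P - P').coeff (a, j) ≠ 0 → ‖mon x a * y ^ j‖ ≤ 1) :
    ∃ c : k, ‖ev x y P - ev x y P' - ((algebraMap k W c) ^ p - algebraMap k W c)‖ < 1 := by
  have h1 : ‖ev x y (P - P')‖ ≤ 1 := norm_ev_le hA (P - P') 1 zero_le_one h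
  obtain ⟨c0, hc0⟩ := hA.res _ h1
  obtain ⟨c, hc⟩ := red_root p c0
  refine ⟨c, ?_⟩
  rw [← ev_sub, ← map_pow, ← map_sub, hc]
  exact hc0

/-- the decomposition of an exponent as a power of `p` times an indivisible exponent -/
private theorem red_decomp (p : ℕ) (hp : 2 ≤ p) {r : ℕ} (N : ℕ) : ∀ (a : Fin r → ℤ) (j : ℕ)
    (i : Fin r), a i ≠ 0 → (a i).natAbs ≤ N → ∃ (n : ℕ) (m0 : (Fin r → ℤ) × ℕ),
      a = p ^ n • m0.1 ∧ j = p ^ n * m0.2 ∧ ¬ ((∃ a' : Fin r → ℤ, m0.1 = p • a') ∧ p ∣ m0.2) := by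
  induction N with
  | zero =>
    intro a j i hi h
    exact absurd (Int.natAbs_eq_zero.1 (by omega)) hi
  | succ N ih =>
    intro a j i hi h
    by_cases hd : (∃ a' : Fin r → ℤ, a = p • a') ∧ p ∣ j
    · obtain ⟨⟨a', ha'⟩, j', hj'⟩ := hd
      have e : a i = p * a' i := by
        rw [ha', Pi.smul_apply, nsmul_eq_mul]
      have hi' : a' i ≠ 0 := by
        intro h0
        rw [h0, mul_zero] at e
        exact hi e
      have hlt : (a' i).natAbs ≤ N := by
        have h1 : (a i).natAbs = p * (a' i).natAbs := by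
          rw [e, Int.natAbs_mul, Int.natAbs_natCast]
        have h2 : 0 < (a' i).natAbs := Int.natAbs_pos.2 hi'
        have h3 : 2 * (a' i).natAbs ≤ p * (a' i).natAbs := Nat.mul_le_mul_right _ hp
        omega
      obtain ⟨n, m0, h1, h2, h3⟩ := ih a' j' i hi' hlt
      refine ⟨n + 1, m0, ?_, ?_, h3⟩
      · rw [ha', h1, smul_smul, pow_succ']
      · rw [hj', h2, pow_succ']
        ring
    · exact ⟨0, (a, j), by simp, by simp, hd⟩

/-- telescoping -/
private theorem red_tel {W : Type} [Field W] (p : ℕ) [Fact p.Prime] [CharP W p] (g : W) (n : ℕ) :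
    g ^ p ^ n - g = (∑ i ∈ Finset.range n, g ^ p ^ i) ^ p - ∑ i ∈ Finset.range n, g ^ p ^ i := by
  rw [sum_pow_char, ← Finset.sum_sub_distrib]
  have h : ∀ i ∈ Finset.range n, (g ^ p ^ i) ^ p - g ^ p ^ i =
      (fun i => g ^ p ^ i) (i + 1) - (fun i => g ^ p ^ i) i := by
    intro i _
    simp only
    rw [← pow_mul, ← pow_succ]
  rw [Finset.sum_congr rfl h]
  have h2 := Finset.sum_range_sub (fun i => g ^ p ^ i) n
  simp only at h2 ⊢
  rw [h2, pow_zero, pow_one]

/-- Reduced Laurent polynomials: all exponents `(a, j)` have `‖mon x a‖ > 1` and are not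
divisible by `p`. -/
def RedP (p : ℕ) {k W : Type} [Field k] [NormedField W] {r : ℕ} (x : Fin r → W)
    (P : LP k r) : Prop :=
  ∀ a j, P.coeff (a, j) ≠ 0 → 1 < ‖mon x a‖ ∧ ¬ ((∃ a' : Fin r → ℤ, a = p • a') ∧ p ∣ j)

/-- Proof.  Drop the terms with `‖mon x a‖ ≤ 1`: such a term is either the constant term
(`a = 0`, `j = 0`: a constant is `s^p - s`, `k` algebraically closed) or has norm less than one
(`‖mon x a‖ < 1`, or `a = 0` and `j ≥ 1`, `‖y‖ < 1`).  Every other exponent is uniquely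
`m = p^n • m0` with `m0` not divisible by `p` (`a ≠ 0`); replace the term `c X^m` by
`c^(1/p^n) X^m0`; with `g = c^(1/p^n) mon x m0.1 y^m0.2` we have
`g^(p^n) - g = ∑_{i<n} ((g^(p^i))^p - g^(p^i))`, an element `s^p - s` with
`s = ∑ g^(p^i) ∈ LL`.  The coefficient of the new polynomial at `m0` is the sum of the
`p^n`-th roots of the coefficients of `P` at `p^n • m0`, `n ≥ 0`.
Last statement: `α` maximal and `‖mon x α‖ > 1`: `‖mon x (p^n • α)‖ > ‖mon x α‖` for `n ≥ 1`, so
only `n = 0` contributes at `(α, j)`. -/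
theorem exists_red {k W : Type} [Field k] [IsAlgClosed k] [NormedField W] [IsUltrametricDist W]
    [Algebra k W] {r : ℕ} (hA : Amb r k W) (p : ℕ) [Fact p.Prime] [CharP k p] {x : Fin r → W}
    {y : W} (hx : Indep x) (hy : ‖y‖ < 1) (P : LP k r) :
    ∃ P' : LP k r, RedP p x P' ∧
      (∃ s ∈ LL k x y, ‖ev x y P - ev x y P' - (s ^ p - s)‖ < 1) ∧
      (∀ a j, P'.coeff (a, j) ≠ 0 → ∃ n : ℕ, P.coeff (p ^ n • a, p ^ n * j) ≠ 0) ∧
      ∀ α : Fin r → ℤ, 1 < ‖mon x α‖ → (∀ a j, P.coeff (a, j) ≠ 0 → ‖mon x a‖ ≤ ‖mon x α‖) →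
        ∀ j, ¬ ((∃ a' : Fin r → ℤ, α = p • a') ∧ p ∣ j) → P'.coeff (α, j) = P.coeff (α, j) := by
  classical
  have hp2 : 2 ≤ p := (Fact.out : p.Prime).two_le
  have : CharP W p := charP_of_injective_algebraMap (algebraMap k W).injective p
  -- first step: drop the exponents of norm at most one
  obtain ⟨P1, hP1, hP1'⟩ := red_restrict P (fun m => 1 < ‖mon x m.1‖)
  obtain ⟨c, hc⟩ := red_drop (x := x) (y := y) hA p P P1 (by
    intro a j h
    rw [AddMonoidAlgebra.coeff_sub, Finsupp.sub_apply] at h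
    by_cases h1 : 1 < ‖mon x a‖
    · rw [hP1 a j h1, sub_self] at h
      exact absurd rfl h
    · push Not at h1
      rw [norm_mul, norm_pow]
      exact mul_le_one₀ h1 (by positivity) (pow_le_one₀ (norm_nonneg _) hy.le))
  have hsup : ∀ m : (Fin r → ℤ) × ℕ, m ∈ P1.coeff.support → 1 < ‖mon x m.1‖ ∧
      P.coeff m = P1.coeff m := by
    intro m hm
    have h1 : P1.coeff m ≠ 0 := Finsupp.mem_support_iff.1 hm
    by_cases h2 : 1 < ‖mon x m.1‖
    · exact ⟨h2, (hP1 m.1 m.2 h2).symm⟩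
    · exact absurd (hP1' m.1 m.2 h2) h1
  -- second step: the decomposition of the exponents and the roots of the coefficients
  have hdec : ∀ m : (Fin r → ℤ) × ℕ, ∃ (n : ℕ) (m0 : (Fin r → ℤ) × ℕ) (d : k),
      m ∈ P1.coeff.support → m.1 = p ^ n • m0.1 ∧ m.2 = p ^ n * m0.2 ∧
        ¬ ((∃ a' : Fin r → ℤ, m0.1 = p • a') ∧ p ∣ m0.2) ∧ d ^ p ^ n = P1.coeff m := by
    intro m
    by_cases hm : m ∈ P1.coeff.support
    · have h1 := (hsup m hm).1
      have h2 : ∃ i, m.1 i ≠ 0 := by
        by_contra hcon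
        push Not at hcon
        have : m.1 = 0 := funext hcon
        rw [this, mon_zero, norm_one] at h1
        exact lt_irrefl _ h1
      obtain ⟨i, hi⟩ := h2
      obtain ⟨n, m0, e1, e2, e3⟩ := red_decomp p hp2 _ m.1 m.2 i hi le_rfl
      obtain ⟨d, hd⟩ := IsAlgClosed.exists_pow_nat_eq (P1.coeff m)
        (show 0 < p ^ n from pow_pos (by omega) n)
      exact ⟨n, m0, d, fun _ => ⟨e1, e2, e3, hd⟩⟩
    · exact ⟨0, m, 0, fun h => absurd h hm⟩
  choose nn m0 dd hdd using hdec
  set P' : LP k r := ∑ m ∈ P1.coeff.support, AddMonoidAlgebra.single (m0 m) (dd m) with hP'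
  have hcoeff : ∀ b : (Fin r → ℤ) × ℕ, P'.coeff b =
      ∑ m ∈ P1.coeff.support, if m0 m = b then dd m else 0 := by
    intro b
    rw [hP', AddMonoidAlgebra.coeff_sum, Finsupp.finsetSum_apply]
    refine Finset.sum_congr rfl (fun m _ => ?_)
    rw [AddMonoidAlgebra.coeff_single, Finsupp.single_apply]
  have hex : ∀ b : (Fin r → ℤ) × ℕ, P'.coeff b ≠ 0 → ∃ m ∈ P1.coeff.support, m0 m = b := by
    intro b hb
    rw [hcoeff b] at hb
    obtain ⟨m, hm, h⟩ := Finset.exists_ne_zero_of_sum_ne_zero hb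
    refine ⟨m, hm, ?_⟩
    by_contra hcon
    rw [if_neg hcon] at h
    exact h rfl
  set g : (Fin r → ℤ) × ℕ → W := fun m => algebraMap k W (dd m) *
    (mon x (m0 m).1 * y ^ (m0 m).2) with hg
  have hterm : ∀ m ∈ P1.coeff.support, algebraMap k W (P1.coeff m) * (mon x m.1 * y ^ m.2) =
      g m ^ p ^ nn m := by
    intro m hm
    obtain ⟨e1, e2, e3, e4⟩ := hdd m hm
    rw [hg]
    simp only
    rw [mul_pow, mul_pow, ← map_pow, e4, ← mon_nsmul, ← e1, ← pow_mul, mul_comm (m0 m).2, ← e2]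
  have hev1 : ev x y P1 = ∑ m ∈ P1.coeff.support, g m ^ p ^ nn m := by
    unfold ev
    rw [Finsupp.sum]
    exact Finset.sum_congr rfl hterm
  have hev2 : ev x y P' = ∑ m ∈ P1.coeff.support, g m := by
    rw [hP', ev_sum]
    exact Finset.sum_congr rfl (fun m _ => ev_single x y (m0 m) (dd m))
  set S : W := ∑ m ∈ P1.coeff.support, ∑ i ∈ Finset.range (nn m), g m ^ p ^ i with hS
  have hdiff : ev x y P1 - ev x y P' = S ^ p - S := by
    rw [hev1, hev2, ← Finset.sum_sub_distrib, hS, sum_pow_char, ← Finset.sum_sub_distrib]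
    exact Finset.sum_congr rfl (fun m _ => red_tel p (g m) (nn m))
  refine ⟨P', ?_, ⟨algebraMap k W c + S, ?_, ?_⟩, ?_, ?_⟩
  · -- reducedness
    intro b j hb
    obtain ⟨m, hm, h⟩ := hex (b, j) hb
    obtain ⟨e1, e2, e3, e4⟩ := hdd m hm
    rw [h] at e1 e3
    refine ⟨?_, e3⟩
    have h1 := (hsup m hm).1
    rw [e1] at h1
    simp only at h1
    rw [mon_nsmul, norm_pow] at h1
    by_contra hcon
    push Not at hcon
    have := pow_le_one₀ (n := p ^ nn m) (norm_nonneg (mon x b)) hcon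
    linarith
  · -- membership
    have hmonLL : ∀ a : Fin r → ℤ, mon x a ∈ LL k x y := fun a =>
      Subring.subset_closure (Or.inl (Or.inr ⟨a, rfl⟩))
    have hcLL : ∀ c : k, algebraMap k W c ∈ LL k x y := fun c =>
      Subring.subset_closure (Or.inl (Or.inl ⟨c, rfl⟩))
    have hyLL : y ∈ LL k x y := Subring.subset_closure (Or.inr rfl)
    refine Subring.add_mem _ (hcLL c) ?_
    refine Subring.sum_mem _ (fun m _ => Subring.sum_mem _ (fun i _ => Subring.pow_mem _ ?_ _))
    exact Subring.mul_mem _ (hcLL _) (Subring.mul_mem _ (hmonLL _) (Subring.pow_mem _ hyLL _))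
  · have e : ev x y P - ev x y P' - ((algebraMap k W c + S) ^ p - (algebraMap k W c + S)) =
        ev x y P - ev x y P1 - ((algebraMap k W c) ^ p - algebraMap k W c) := by
      rw [add_pow_char]
      linear_combination hdiff
    rw [e]
    exact hc
  · intro a j h
    obtain ⟨m, hm, he⟩ := hex (a, j) h
    obtain ⟨e1, e2, e3, e4⟩ := hdd m hm
    refine ⟨nn m, ?_⟩
    rw [he] at e1 e2
    simp only at e1 e2
    rw [← e1, ← e2]
    have h1 := (hsup m hm).2
    have h2 : P.coeff (m.1, m.2) = P1.coeff m := h1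
    rw [h2]
    exact Finsupp.mem_support_iff.1 hm
  · intro α hα hmax j hnd
    have hα1 : P1.coeff (α, j) = P.coeff (α, j) := hP1 α j hα
    rw [hcoeff, ← hα1]
    have key : ∀ m ∈ P1.coeff.support, m0 m = (α, j) → m = (α, j) ∧ dd m = P1.coeff m := by
      intro m hm he
      obtain ⟨e1, e2, e3, e4⟩ := hdd m hm
      rw [he] at e1 e2
      simp only at e1 e2
      have hn : nn m = 0 := by
        by_contra hcon
        have h1 : ‖mon x m.1‖ ≤ ‖mon x α‖ := by
          refine hmax m.1 m.2 ?_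
          have h2 := (hsup m hm).2
          have h3 : P.coeff (m.1, m.2) = P1.coeff m := h2
          rw [h3]
          exact Finsupp.mem_support_iff.1 hm
        rw [e1, mon_nsmul, norm_pow] at h1
        have h2 : 1 < p ^ nn m := Nat.one_lt_pow hcon (by omega)
        have h3 : ‖mon x α‖ ^ 1 < ‖mon x α‖ ^ p ^ nn m := pow_lt_pow_right₀ hα h2
        rw [pow_one] at h3
        linarith
      rw [hn, pow_zero] at e1 e2 e4
      rw [pow_one] at e4
      rw [one_smul] at e1
      rw [one_mul] at e2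
      exact ⟨Prod.ext e1 e2, e4⟩
    by_cases hz : (α, j) ∈ P1.coeff.support
    · rw [Finset.sum_eq_single (α, j)]
      · obtain ⟨e1, e2, e3, e4⟩ := hdd (α, j) hz
        have hn : nn (α, j) = 0 := by
          by_contra hcon
          obtain ⟨n', hn'⟩ := Nat.exists_eq_succ_of_ne_zero hcon
          apply hnd
          rw [hn', pow_succ'] at e1 e2
          refine ⟨⟨p ^ n' • (m0 (α, j)).1, ?_⟩, ?_⟩
          · rw [smul_smul]
            exact e1
          · exact ⟨p ^ n' * (m0 (α, j)).2, by rw [← mul_assoc]; exact e2⟩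
        rw [hn, pow_zero] at e1 e2 e4
        rw [pow_one] at e4
        rw [one_smul] at e1
        rw [one_mul] at e2
        rw [if_pos (Prod.ext e1.symm e2.symm), e4]
      · intro m hm hne
        rw [if_neg]
        intro he
        exact hne (key m hm he).1
      · intro h
        exact absurd hz h
    · rw [Finset.sum_eq_zero]
      · exact (Finsupp.notMem_support_iff.1 hz).symm
      · intro m hm
        rw [if_neg]
        intro he
        rw [(key m hm he).1] at hm
        exact hz hm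

/-- Dropping terms of norm at most one: `P1` is the part of `P` of the terms with
`‖mon x a * y^j‖ > 1`. -/
theorem exists_drop {k W : Type} [Field k] [IsAlgClosed k] [NormedField W] [IsUltrametricDist W]
    [Algebra k W] {r : ℕ} (hA : Amb r k W) (p : ℕ) [Fact p.Prime] [CharP k p] {x : Fin r → W}
    {y : W} (P : LP k r) :
    ∃ P' : LP k r, (∃ c : k, ‖ev x y P - ev x y P' - ((algebraMap k W c) ^ p -
        algebraMap k W c)‖ < 1) ∧
      ∀ a j, P'.coeff (a, j) = if 1 < ‖mon x a * y ^ j‖ then P.coeff (a, j) else 0 := by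
  obtain ⟨P', h1, h2⟩ := red_restrict P (fun m => 1 < ‖mon x m.1 * y ^ m.2‖)
  refine ⟨P', red_drop (x := x) (y := y) hA p P P' ?_, ?_⟩
  · intro a j h
    rw [AddMonoidAlgebra.coeff_sub, Finsupp.sub_apply] at h
    by_cases h3 : 1 < ‖mon x a * y ^ j‖
    · rw [h1 a j h3, sub_self] at h
      exact absurd rfl h
    · exact not_lt.1 h3
  · intro a j
    by_cases h3 : 1 < ‖mon x a * y ^ j‖
    · rw [if_pos h3]
      exact h1 a j h3
    · rw [if_neg h3]
      exact h2 a j h3

end Pool.Agent.Lib.TDO
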