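import Mathlib

/-!
# Module ASGen: Artin-Schreier generator
-/

namespace Pool.Agent.Lib.TDO

/-- Artin-Schreier: a Galois extension of degree `p` in characteristic `p`.  Let `g` be a
generator.  The linear map `D = g - 1` satisfies `D^p = 0`, `D ≠ 0`; let `m` be maximal with
`D^m ≠ 0` (`1 ≤ m < p`), `z` with `D^m z = b ≠ 0`; `D b = 0` so `b ∈ A`; `θ = D^(m-1) z / b` has
`D θ = 1`, i.e. `g θ = θ + 1`.  Then `θ^p - θ` is fixed and `θ ∉ A` generates. -/
theorem exists_as_gen {A N : Type} [Field A] [Field N] [Algebra A N] [FiniteDimensional A N]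
    [IsGalois A N] (p : ℕ) [Fact p.Prime] [CharP A p] (hcard : Nat.card (N ≃ₐ[A] N) = p) :
    ∃ θ : N, θ ^ p - θ ∈ Set.range (algebraMap A N) ∧ IntermediateField.adjoin A {θ} = ⊤ := by
  classical
  have hp : p.Prime := Fact.out
  have : CharP N p := charP_of_injective_algebraMap (algebraMap A N).injective p
  have hfr : Module.finrank A N = p := by
    rw [← IsGalois.card_aut_eq_finrank]
    exact hcard
  have : IsCyclic (N ≃ₐ[A] N) := isCyclic_of_prime_card hcard
  obtain ⟨g, hg⟩ := IsCyclic.exists_generator (α := N ≃ₐ[A] N)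
  have hord : orderOf g = p := by
    rw [orderOf_eq_card_of_forall_mem_zpowers hg, hcard]
  obtain ⟨z, hz⟩ := Algebra.trace_surjective A N (1 : A)
  have hsum : ∑ i ∈ Finset.range p, (g ^ i) z = 1 := by
    have h1 := trace_eq_sum_automorphisms (K := A) z
    rw [hz, map_one] at h1
    rw [h1, ← IsCyclic.image_range_orderOf hg, hord, Finset.sum_image]
    intro i hi j hj hij
    have hi' := Finset.mem_range.1 hi
    have hj' := Finset.mem_range.1 hj
    exact pow_injOn_Iio_orderOf (by rw [hord]; exact hi') (by rw [hord]; exact hj') hij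
  set θ : N := - ∑ i ∈ Finset.range p, (i : N) * (g ^ i) z with hθ
  have hgθ : g θ = θ + 1 := by
    have hgp : (g ^ p) z = z := by
      rw [← hord, pow_orderOf_eq_one, AlgEquiv.one_apply]
    have e1 : g θ = - ∑ i ∈ Finset.range p, (i : N) * (g ^ (i + 1)) z := by
      rw [hθ, map_neg, map_sum]
      congr 1
      refine Finset.sum_congr rfl (fun i _ => ?_)
      rw [map_mul, map_natCast, pow_succ', AlgEquiv.mul_apply]
    have e2 : ∑ i ∈ Finset.range p, ((i : N) + 1) * (g ^ (i + 1)) z =
        ∑ i ∈ Finset.range p, (i : N) * (g ^ i) z := by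
      have h2 := Finset.sum_range_succ' (fun i : ℕ => (i : N) * (g ^ i) z) p
      have h3 := Finset.sum_range_succ (fun i : ℕ => (i : N) * (g ^ i) z) p
      rw [h3] at h2
      have hp0 : ((p : ℕ) : N) = 0 := CharP.cast_eq_zero N p
      rw [hp0, zero_mul, add_zero] at h2
      simp only [Nat.cast_add, Nat.cast_one, Nat.cast_zero, zero_mul, add_zero] at h2
      exact h2.symm
    have e3 : ∑ i ∈ Finset.range p, (g ^ (i + 1)) z = 1 := by
      have h2 := Finset.sum_range_succ' (fun i : ℕ => (g ^ i) z) p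
      have h3 := Finset.sum_range_succ (fun i : ℕ => (g ^ i) z) p
      rw [h3, hsum, hgp, pow_zero, AlgEquiv.one_apply] at h2
      exact (add_right_cancel h2).symm
    have e4 : ∑ i ∈ Finset.range p, ((i : N) + 1) * (g ^ (i + 1)) z =
        ∑ i ∈ Finset.range p, (i : N) * (g ^ (i + 1)) z +
          ∑ i ∈ Finset.range p, (g ^ (i + 1)) z := by
      rw [← Finset.sum_add_distrib]
      refine Finset.sum_congr rfl (fun i _ => ?_)
      ring
    rw [e1, hθ, ← e2, e4, e3]
    ring
  have hfix : g (θ ^ p - θ) = θ ^ p - θ := by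
    rw [map_sub, map_pow, hgθ, add_pow_char, one_pow]
    ring
  have hall : ∀ σ : N ≃ₐ[A] N, σ (θ ^ p - θ) = θ ^ p - θ := by
    intro σ
    have hσ : σ ∈ Subgroup.zpowers g := hg σ
    have hle : Subgroup.zpowers g ≤ MulAction.stabilizer (N ≃ₐ[A] N) (θ ^ p - θ) := by
      rw [Subgroup.zpowers_le, MulAction.mem_stabilizer_iff]
      exact hfix
    exact MulAction.mem_stabilizer_iff.1 (hle hσ)
  refine ⟨θ, (IsGalois.mem_range_algebraMap_iff_fixed _).2 hall, ?_⟩
  have hsimple := IntermediateField.isSimpleOrder_of_finrank_prime (F := A) (E := N)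
    (by rw [hfr]; exact hp)
  rcases hsimple.eq_bot_or_eq_top (IntermediateField.adjoin A {θ}) with h | h
  · exfalso
    have h1 : θ ∈ (⊥ : IntermediateField A N) := by
      rw [← h]
      exact IntermediateField.mem_adjoin_simple_self A θ
    have h2 := (IsGalois.mem_bot_iff_fixed θ).1 h1 g
    rw [hgθ] at h2
    exact one_ne_zero (add_eq_left.1 h2)
  · exact h

end Pool.Agent.Lib.TDO
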