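import Pool.Agent.Lib.TDO.StepDefs
import Pool.Agent.Lib.TDO.ASGen

/-!
# Module AChain: towers of Artin-Schreier extensions
-/

namespace Pool.Agent.Lib.TDO

open IntermediateField

section step
variable {A N : Type} [Field A] [Field N] [Algebra A N] [FiniteDimensional A N] [IsGalois A N]

/-- If `H` has index `p` in `K` and is normalized by `K`, then the fixed field of `H` is an
Artin-Schreier extension of the fixed field of `K`. -/
private theorem achain_step (p : ℕ) [Fact p.Prime] [CharP A p] (H K : Subgroup (N ≃ₐ[A] N))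
    (hle : H ≤ K) (hcard : Nat.card K = p * Nat.card H)
    (hnorm : ∀ g ∈ K, ∀ h ∈ H, g * h * g⁻¹ ∈ H) :
    AStep (A := A) (N := N) p (fixedField K) (fixedField H) := by
  have hE : fixedField K ≤ fixedField H := by
    intro x hx
    rw [mem_fixedField_iff] at hx ⊢
    exact fun f hf => hx f (hle hf)
  obtain ⟨E, hEK⟩ : ∃ E, E = fixedField K := ⟨_, rfl⟩
  obtain ⟨E', hEH⟩ : ∃ E', E' = fixedField H := ⟨_, rfl⟩
  rw [← hEK, ← hEH] at hE ⊢
  obtain ⟨M, hM⟩ : ∃ M, M = extendScalars hE := ⟨_, rfl⟩
  have hmemM : ∀ x : N, x ∈ M ↔ x ∈ E' := by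
    intro x
    rw [hM, mem_extendScalars]
  -- normality
  have hfixE : E.fixingSubgroup = K := by rw [hEK, fixingSubgroup_fixedField]
  have hfixE' : E'.fixingSubgroup = H := by rw [hEH, fixingSubgroup_fixedField]
  have hres : ∀ σ : N ≃ₐ[E] N, σ.restrictScalars A ∈ K := by
    intro σ
    rw [← hfixE, IntermediateField.mem_fixingSubgroup_iff]
    intro x hx
    exact σ.commutes ⟨x, hx⟩
  have hresH : ∀ σ : N ≃ₐ[E] N, σ ∈ M.fixingSubgroup ↔ σ.restrictScalars A ∈ H := by
    intro σ
    rw [← hfixE', IntermediateField.mem_fixingSubgroup_iff,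
      IntermediateField.mem_fixingSubgroup_iff]
    constructor
    · intro h x hx
      exact h x ((hmemM x).2 hx)
    · intro h x hx
      exact h x ((hmemM x).1 hx)
  have hnormal : M.fixingSubgroup.Normal := by
    refine ⟨fun n hn g => ?_⟩
    rw [hresH] at hn ⊢
    exact hnorm _ (hres g) _ hn
  have hgal : IsGalois E M := by
    have h1 := IsGalois.of_fixedField_normal_subgroup M.fixingSubgroup
    rwa [IsGalois.fixedField_fixingSubgroup] at h1
  -- the degree
  have hrank : Module.finrank E M = p := by
    have h1 : Module.finrank E N = Nat.card K := by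
      rw [hEK]; exact finrank_fixedField_eq_card K
    have h2 : Module.finrank M N = Nat.card H := by
      have h3 : Module.finrank E' N = Nat.card H := by
        rw [hEH]; exact finrank_fixedField_eq_card H
      rw [← h3, hM]
      rfl
    have h4 := Module.finrank_mul_finrank E M N
    rw [h1, h2, hcard] at h4
    exact Nat.eq_of_mul_eq_mul_right Nat.card_pos h4
  have hch : CharP E p := charP_of_injective_algebraMap (algebraMap A E).injective p
  have hcardM : Nat.card (M ≃ₐ[E] M) = p := by
    rw [← hrank]
    exact IsGalois.card_aut_eq_finrank E M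
  obtain ⟨θ, ⟨c, hc⟩, htop⟩ := exists_as_gen (A := E) (N := M) p hcardM
  refine ⟨(θ : N), ?_, le_antisymm ?_ ?_⟩
  · have h5 := congrArg (fun z : M => (z : N)) hc
    have h6 : (θ : N) ^ p - (θ : N) = (c : N) := h5.symm
    rw [h6]
    exact c.2
  · -- `E' ≤ E ⊔ A(θ)`
    have hle1 : E ≤ E ⊔ adjoin A {(θ : N)} := le_sup_left
    have h7 : adjoin E {(θ : N)} ≤ extendScalars hle1 := by
      rw [adjoin_simple_le_iff, mem_extendScalars]
      exact (le_sup_right : adjoin A {(θ : N)} ≤ _) (mem_adjoin_simple_self A (θ : N))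
    intro x hx
    have hxM : x ∈ M := (hmemM x).2 hx
    have h8 : (⟨x, hxM⟩ : M) ∈ adjoin E {θ} := by
      rw [htop]
      exact IntermediateField.mem_top
    have h9 : x ∈ (adjoin E {θ}).map M.val := ⟨⟨x, hxM⟩, h8, rfl⟩
    rw [adjoin_map, Set.image_singleton] at h9
    exact (mem_extendScalars hle1).1 (h7 h9)
  · refine sup_le hE ?_
    rw [adjoin_simple_le_iff]
    exact (hmemM _).1 θ.2

end step

/-- Strong induction on `H.relIndex G'`.  If `H ≠ G'` there is `G''` with `H ≤ G'' < G'`, normal of
index `p` in the `p`-group `G'` (a maximal subgroup containing `H`: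
`Sylow`, `IsPGroup`, normalizer condition); `exists_as_gen`. -/
theorem astep_chain {A N : Type} [Field A] [Field N] [Algebra A N] [FiniteDimensional A N]
    [IsGalois A N] (p : ℕ) [Fact p.Prime] [CharP A p] (H G' : Subgroup (N ≃ₐ[A] N))
    (hle : H ≤ G') (hp : IsPGroup p G') :
    Relation.ReflTransGen (AStep (A := A) (N := N) p) (IntermediateField.fixedField G')
      (IntermediateField.fixedField H) := by
  have hpr : p.Prime := Fact.out
  obtain ⟨b, hb⟩ := hp.exists_card_eq
  -- induction on `b - a` with `card H = p ^ a`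
  have key : ∀ n : ℕ, ∀ H : Subgroup (N ≃ₐ[A] N), H ≤ G' → ∀ a, Nat.card H = p ^ a →
      a + n = b → Relation.ReflTransGen (AStep (A := A) (N := N) p)
        (IntermediateField.fixedField G') (IntermediateField.fixedField H) := by
    intro n
    induction n with
    | zero =>
      intro H hH a ha hab
      have h1 : H = G' := by
        refine Subgroup.eq_of_le_of_card_ge hH ?_
        rw [ha, hb, ← hab, add_zero]
      rw [h1]
    | succ n ih =>
      intro H hH a ha hab
      have hcard1 : Nat.card (H.subgroupOf G') = p ^ a := by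
        rw [← ha]
        exact Nat.card_congr (Subgroup.subgroupOfEquivOfLe hH).toEquiv
      obtain ⟨K₁, hK₁, hle₁⟩ := Sylow.exists_subgroup_card_pow_succ (G := G') (p := p) (n := a)
        (by rw [hb]; exact pow_dvd_pow p (by omega)) hcard1
      obtain ⟨K, hK⟩ : ∃ K, K = K₁.map G'.subtype := ⟨_, rfl⟩
      have hKG : K ≤ G' := by
        rw [hK]
        exact Subgroup.map_subtype_le K₁
      have hHK : H ≤ K := by
        rw [hK]
        intro x hx
        exact ⟨⟨x, hH hx⟩, hle₁ (Subgroup.mem_subgroupOf.2 hx), rfl⟩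
      have hcK : Nat.card K = p ^ (a + 1) := by
        rw [hK, ← hK₁]
        exact Nat.card_congr (K₁.equivMapOfInjective G'.subtype G'.subtype_injective).toEquiv.symm
      refine Relation.ReflTransGen.tail (ih K hKG (a + 1) hcK (by omega)) ?_
      refine achain_step p H K hHK (by rw [hcK, ha, pow_succ']) ?_
      -- normality of a subgroup of index `p`
      have hcs : Nat.card (H.subgroupOf K) = p ^ a := by
        rw [← ha]
        exact Nat.card_congr (Subgroup.subgroupOfEquivOfLe hHK).toEquiv
      have hidx : (H.subgroupOf K).index = p := by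
        have h2 := (H.subgroupOf K).card_mul_index
        rw [hcs, hcK, pow_succ] at h2
        exact Nat.eq_of_mul_eq_mul_left (pow_pos hpr.pos a) h2
      have hnormal : (H.subgroupOf K).Normal := by
        refine Subgroup.normal_of_index_eq_minFac_card ?_
        rw [hidx, hcK, hpr.pow_minFac (Nat.succ_ne_zero a)]
      intro g hg h hh
      have h3 := hnormal.conj_mem ⟨h, hHK hh⟩ (Subgroup.mem_subgroupOf.2 hh) ⟨g, hg⟩
      exact Subgroup.mem_subgroupOf.1 h3
  have hpH : IsPGroup p H := hp.to_le hle
  obtain ⟨a, ha⟩ := hpH.exists_card_eq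
  have hab : a ≤ b := by
    have h1 := Subgroup.card_le_of_le hle
    rw [ha, hb] at h1
    exact (Nat.pow_le_pow_iff_right hpr.one_lt).1 h1
  exact key (b - a) H hle a ha (by omega)

end Pool.Agent.Lib.TDO
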