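import Pool.Agent.Lib.TDO.PerB
import Pool.Agent.Lib.TDO.EtPres
import Pool.Agent.Lib.TDO.DimFG
import Pool.Agent.Lib.TDO.Tr
import Pool.Agent.Lib.MP_3029eb_ag.ImpDefs
import Pool.Agent.Lib.MP_3029eb_ag.AbhBase

/-!
# Module FinalW: embedded local uniformization inside `W`

`(x, y)` a chart of `cl F0` with `x i, y ∈ F0`; `A0 = locV (k[G0])`, `G0 ⊆ F0` finite, of norm `≤ 1`,
every element of `F0` is a fraction of elements of `A0`.
Proof.  `exists_et` for `E = Kxy k x y` and generators of `F0` (separable over `E`, in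
`cl F0 ≤ cl E`): `τ`, `P`, `F0 = E ⊔ k(τ)`.  Write `x i = a_i / b_i`, `y = a / b`, `τ = a' / b'` with
`a_i, b_i, .. ∈ A0` nonzero denominators.  `thmB` for
`Z' = (Z ∪ G0 ∪ {a_i, b_i, b, b', τ}) \ 0`: stage `(x1, y1)`; `Rf.mo, Rf.genx, Rf.geny`.
`perron_BB` for the units and their inverses, and all exponents occurring: `x2`,
`B = Bn k x2 y1 τ`, such that all `z ∈ Z'`, `x i`, and the `n_i, d_i, d` of `genx, geny` are
`unit of B * mon x2 (exponent)`, exponent natural for elements of norm `≤ 1`, and `τ ∈ (x2) B`.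
`g = {x2 i, y1, τ}` (a `Finset`, `⊆ F0`).  `locV (closure (A0 ∪ g)) = B` as `A0 ⊆ B`
(generators in `B`, `k ⊆ A0`).  `GoodPar2`: `u = x2`, `gs = {y1}`: `ind` from `Indep`, `gen` from
`Bn_gen`, `reg, dim` from `reg_fg` with `n = r + 1` (`x, y` algebraically independent: `tr_iff`; `y1 ≠ 0`
and `y1 ∉ {..}`: `gs.card = 1`).  `den`: the set of `z` with `D z ∈ A0`, `D ∈ A0` monomial
(`MonV`), is a subring (`denRing` in `AbhE0`, `locV_le_denRing`) containing `LL k x y` (the `a_i, b_i, b`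
are monomial), the quotients `x2 i = mon x1 e = ∏ (n_j / d_j)^(e_j)`, `y1 = n / d`, and `τ`.
`MonV (ball W) B x2 f`: `f = w * monN x2 β`, `w ∈ B` of value one.
-/

open Pool.Agent.Lib.MP_3029eb_ag Pool.Agent.Lib.MP_3029eb_ag.Abh

namespace Pool.Agent.Lib.TDO

section fw

variable {k W : Type} [Field k] [NormedField W] [IsUltrametricDist W] [Algebra k W] {r : ℕ}

/-- Laurent polynomials have denominators in `A0` with the property `M`. -/
private theorem fw_LL {A0 : Subring W} (M : W → Prop) (h1 : M 1)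
    (hmul : ∀ z z', M z → M z' → M (z * z')) (hk : ∀ c : k, algebraMap k W c ∈ A0)
    {x : Fin r → W} {y : W} (hx : ∀ i, x i ≠ 0) (a b : Fin r → W)
    (ha : ∀ i, a i ∈ A0 ∧ M (a i)) (hb : ∀ i, b i ∈ A0 ∧ M (b i)) (hab : ∀ i, x i * b i = a i)
    (ya yb : W) (hya : ya ∈ A0) (hyb : yb ∈ A0 ∧ M yb) (hy : y * yb = ya) (n : W)
    (hn : n ∈ LL k x y) : ∃ D ∈ A0, M D ∧ D * n ∈ A0 := by
  classical
  have hpow : ∀ z, M z → ∀ m : ℕ, M (z ^ m) := by
    intro z hz m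
    induction m with
    | zero => rw [pow_zero]; exact h1
    | succ m ih => rw [pow_succ]; exact hmul _ _ ih hz
  have hzpow : ∀ (i : Fin r) (e : ℤ), ∃ D ∈ A0, M D ∧ D * x i ^ e ∈ A0 := by
    intro i e
    rcases Int.eq_nat_or_neg e with ⟨m, rfl | rfl⟩
    · refine ⟨b i ^ m, pow_mem (hb i).1 m, hpow _ (hb i).2 m, ?_⟩
      rw [zpow_natCast, ← mul_pow, mul_comm (b i), hab i]
      exact pow_mem (ha i).1 m
    · refine ⟨a i ^ m, pow_mem (ha i).1 m, hpow _ (ha i).2 m, ?_⟩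
      have e1 : a i ^ m * x i ^ (-(m : ℤ)) = b i ^ m := by
        rw [zpow_neg, zpow_natCast, ← hab i, mul_pow]
        have h2 : x i ^ m ≠ 0 := pow_ne_zero m (hx i)
        field_simp
      rw [e1]
      exact pow_mem (hb i).1 m
  have hmon : ∀ (e : Fin r → ℤ) (s : Finset (Fin r)), ∃ D ∈ A0, M D ∧
      D * ∏ i ∈ s, x i ^ e i ∈ A0 := by
    intro e s
    induction s using Finset.induction_on with
    | empty => exact ⟨1, one_mem _, h1, by simp⟩
    | insert i s hi ih =>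
      obtain ⟨D, hD, hMD, hDm⟩ := ih
      obtain ⟨D', hD', hMD', hDm'⟩ := hzpow i (e i)
      refine ⟨D' * D, mul_mem hD' hD, hmul _ _ hMD' hMD, ?_⟩
      rw [Finset.prod_insert hi]
      have e1 : D' * D * (x i ^ e i * ∏ i ∈ s, x i ^ e i) =
          (D' * x i ^ e i) * (D * ∏ i ∈ s, x i ^ e i) := by ring
      rw [e1]
      exact mul_mem hDm' hDm
  unfold LL at hn
  induction hn using Subring.closure_induction with
  | mem z hz =>
    rcases hz with (⟨c, rfl⟩ | ⟨e, rfl⟩) | hz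
    · exact ⟨1, one_mem _, h1, by rw [one_mul]; exact hk c⟩
    · exact hmon e Finset.univ
    · rw [Set.mem_singleton_iff.1 hz]
      refine ⟨yb, hyb.1, hyb.2, ?_⟩
      rw [mul_comm, hy]
      exact hya
  | zero => exact ⟨1, one_mem _, h1, by rw [mul_zero]; exact zero_mem _⟩
  | one => exact ⟨1, one_mem _, h1, by rw [mul_one]; exact one_mem _⟩
  | add z z' _ _ h h' =>
    obtain ⟨D, hD, hMD, hDm⟩ := h
    obtain ⟨D', hD', hMD', hDm'⟩ := h'
    refine ⟨D * D', mul_mem hD hD', hmul _ _ hMD hMD', ?_⟩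
    have e1 : D * D' * (z + z') = D' * (D * z) + D * (D' * z') := by ring
    rw [e1]
    exact add_mem (mul_mem hD' hDm) (mul_mem hD hDm')
  | neg z _ h =>
    obtain ⟨D, hD, hMD, hDm⟩ := h
    exact ⟨D, hD, hMD, by rw [mul_neg]; exact neg_mem hDm⟩
  | mul z z' _ _ h h' =>
    obtain ⟨D, hD, hMD, hDm⟩ := h
    obtain ⟨D', hD', hMD', hDm'⟩ := h'
    refine ⟨D * D', mul_mem hD hD', hmul _ _ hMD hMD', ?_⟩
    have e1 : D * D' * (z * z') = (D * z) * (D' * z') := by ring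
    rw [e1]
    exact mul_mem hDm hDm'

/-- Perron transform for a finite set of monomial elements. -/
private theorem fw_perron (hA : Amb r k W) {x : Fin r → W} {y τ : W} (hP : Par k x y)
    (hτ : ‖τ‖ ≤ 1) (T : Finset W) (hT : ∀ z ∈ T, Mo (BB k x y τ) x z ∧ ‖z‖ ≤ 1) :
    ∃ x' : Fin r → W, Indep x' ∧ Mt x x' ∧
      (∀ z ∈ T, MonV (ball W) (Bn k x' y τ) x' z) ∧
      ∀ z ∈ T, ‖z‖ < 1 → ∃ w ∈ Bn k x' y τ, ∃ β : Fin r → ℕ, (∀ i, 1 ≤ β i) ∧
        z = w * monN x' β := by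
  classical
  have hex : ∀ z : W, ∃ (a : Fin r → ℤ) (u : W), z ∈ T → u ∈ BB k x y τ ∧ ‖u‖ = 1 ∧
      z = mon x a * u := by
    intro z
    by_cases hz : z ∈ T
    · obtain ⟨a, u, h1, h2, h3⟩ := (hT z hz).1
      exact ⟨a, u, fun _ => ⟨h1, h2, h3⟩⟩
    · exact ⟨0, 0, fun h => absurd h hz⟩
  choose a u hau using hex
  have hnorm : ∀ z ∈ T, ‖mon x (a z)‖ = ‖z‖ := by
    intro z hz
    obtain ⟨_, h2, h3⟩ := hau z hz
    have h4 := congrArg (fun t => ‖t‖) h3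
    simp only [norm_mul, h2, mul_one] at h4
    exact h4.symm
  obtain ⟨x', hx', hMt, hZ, hY⟩ := perron_BB hA hP hτ (T.image u)
    (by
      intro z hz
      obtain ⟨t, ht, rfl⟩ := Finset.mem_image.1 hz
      exact (hau t ht).1)
    ((T.filter fun z => ‖z‖ < 1).image a)
    (by
      intro e he
      obtain ⟨t, ht, rfl⟩ := Finset.mem_image.1 he
      rw [Finset.mem_filter] at ht
      rw [hnorm t ht.1]
      exact ht.2)
  have hlt : ∀ z ∈ T, ‖z‖ < 1 → ∃ β : Fin r → ℕ, (∀ i, 1 ≤ β i) ∧ z = u z * monN x' β := by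
    intro z hz h1
    obtain ⟨β, hβ, h2⟩ := hY (a z) (Finset.mem_image.2 ⟨z, Finset.mem_filter.2 ⟨hz, h1⟩, rfl⟩)
    refine ⟨β, hβ, ?_⟩
    rw [mul_comm, ← h2]
    exact (hau z hz).2.2
  have hu : ∀ z ∈ T, u z ∈ Bn k x' y τ := fun z hz => hZ _ (Finset.mem_image.2 ⟨z, hz, rfl⟩)
  refine ⟨x', hx', hMt, fun z hz => ?_, fun z hz h1 => ?_⟩
  · rcases lt_or_eq_of_le (hT z hz).2 with h1 | h1
    · obtain ⟨β, _, h2⟩ := hlt z hz h1
      exact ⟨u z, hu z hz, (ball_val_eq_one _).2 (hau z hz).2.1, β, h2⟩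
    · have h2 : a z = 0 := hP.ind.indep _ (by rw [hnorm z hz, h1])
      have h3 : z = u z := by
        have h4 := (hau z hz).2.2
        rw [h2, mon_zero, one_mul] at h4
        exact h4
      exact ⟨u z, hu z hz, (ball_val_eq_one _).2 (hau z hz).2.1, 0, by
        rw [E0_monN_zero, mul_one]; exact h3⟩
  · obtain ⟨β, hβ, h2⟩ := hlt z hz h1
    exact ⟨u z, hu z hz, β, hβ, h2⟩

private theorem fw_inv {C : Subring W} {z : W} (hz : z ∈ locV (ball W) C) (h1 : ‖z‖ = 1) :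
    z⁻¹ ∈ locV (ball W) C := by
  obtain ⟨a, ha, b, hb, hb1, hab⟩ := hz
  have h0 : z ≠ 0 := by
    rintro rfl
    rw [norm_zero] at h1
    exact zero_ne_one h1
  refine ⟨b, hb, a, ha, ?_, ?_⟩
  · rw [← hab, map_mul, hb1, mul_one]
    exact (ball_val_eq_one z).2 h1
  · rw [← hab]
    field_simp

/-- `τ` is in the ideal generated by `x`. -/
private theorem fw_tau (E : IntermediateField k W) (P : Polynomial E) (τ : W) (h : Et E P τ)
    (C : Subring W) (hCn : ∀ z ∈ locV (ball W) C, ‖z‖ ≤ 1) (hτ : τ ∈ locV (ball W) C)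
    (hc : ∀ j, j ≠ 1 → ((P.coeff j : E) : W) ∈ locV (ball W) C) {x : Fin r → W} (i0 : Fin r)
    (h0 : ∃ b ∈ locV (ball W) C, ((P.coeff 0 : E) : W) = b * x i0) :
    ∃ b : Fin r → W, (∀ i, b i ∈ locV (ball W) C) ∧ τ = ∑ i, b i * x i := by
  classical
  obtain ⟨b, hb, hb0⟩ := h0
  obtain ⟨R, hR⟩ : ∃ R : Polynomial E, R = P.divX.divX := ⟨_, rfl⟩
  have hP1 : P = (R * Polynomial.X + Polynomial.C 1) * Polynomial.X +
      Polynomial.C (P.coeff 0) := by
    have e1 : P.divX * Polynomial.X + Polynomial.C (P.coeff 0) = P := Polynomial.divX_mul_X_add P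
    have e2 : P.divX.divX * Polynomial.X + Polynomial.C (P.divX.coeff 0) = P.divX :=
      Polynomial.divX_mul_X_add P.divX
    have e3 : P.divX.coeff 0 = 1 := by
      rw [Polynomial.coeff_divX, zero_add]
      exact h.c1
    rw [e3] at e2
    rw [hR, e2, e1]
  obtain ⟨q, hq⟩ : ∃ q : W, q = Polynomial.aeval τ R := ⟨_, rfl⟩
  have hqm : q ∈ locV (ball W) C := by
    rw [hq, Polynomial.aeval_eq_sum_range]
    refine Subring.sum_mem _ fun j _ => ?_
    rw [Algebra.smul_def]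
    refine mul_mem ?_ (pow_mem hτ j)
    have e1 : R.coeff j = P.coeff (j + 1 + 1) := by
      rw [hR, Polynomial.coeff_divX, Polynomial.coeff_divX]
    change ((R.coeff j : E) : W) ∈ locV (ball W) C
    rw [e1]
    exact hc _ (by omega)
  have heq : (q * τ + 1) * τ + b * x i0 = 0 := by
    have h1 := h.root
    rw [hP1] at h1
    simp only [map_add, map_mul, Polynomial.aeval_X, Polynomial.aeval_C, map_one] at h1
    rw [← hq] at h1
    rw [← hb0]
    exact h1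
  have hqt : ‖q * τ‖ < 1 := by
    rw [norm_mul]
    calc ‖q‖ * ‖τ‖ ≤ 1 * ‖τ‖ := mul_le_mul_of_nonneg_right (hCn q hqm) (norm_nonneg _)
      _ < 1 := by rw [one_mul]; exact h.lt
  have hu : ‖q * τ + 1‖ = 1 := by
    rw [IsUltrametricDist.norm_add_eq_max_of_norm_ne_norm (by rw [norm_one]; exact hqt.ne),
      norm_one, max_eq_right hqt.le]
  have hum : q * τ + 1 ∈ locV (ball W) C := add_mem (mul_mem hqm hτ) (one_mem _)
  have hne : q * τ + 1 ≠ 0 := by
    intro h1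
    rw [h1, norm_zero] at hu
    exact zero_ne_one hu
  refine ⟨fun i => if i = i0 then -((q * τ + 1)⁻¹ * b) else 0, fun i => ?_, ?_⟩
  · by_cases hi : i = i0
    · simp only [if_pos hi]
      exact neg_mem (mul_mem (fw_inv hum hu) hb)
    · simp only [if_neg hi]
      exact zero_mem _
  · rw [Finset.sum_eq_single i0]
    · have h2 : (q * τ + 1) * τ = -(b * x i0) := by linear_combination heq
      have h3 : -((q * τ + 1)⁻¹ * b) * x i0 = (q * τ + 1)⁻¹ * ((q * τ + 1) * τ) := by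
        rw [h2]; ring
      simp only [if_true]
      rw [h3, inv_mul_cancel_left₀ hne]
    · intro i _ hi
      simp only [if_neg hi, zero_mul]
    · intro hi
      exact absurd (Finset.mem_univ i0) hi

/-- Denominators: integral powers. -/
private theorem fw_den_mon {V : ValuationSubring W} {A0 A : Subring W} {n r' : ℕ}
    {u : Fin n → W} {x : Fin r' → W} (h1 : ∀ i, Den V A0 A u (x i))
    (h2 : ∀ i, Den V A0 A u (x i)⁻¹) (e : Fin r' → ℤ) : Den V A0 A u (mon x e) := by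
  unfold mon
  change _ ∈ denRing V A0 A u
  refine Subring.prod_mem _ fun i _ => ?_
  rcases Int.eq_nat_or_neg (e i) with ⟨m, hm | hm⟩
  · rw [hm, zpow_natCast]
    exact pow_mem (show x i ∈ denRing V A0 A u from h1 i) m
  · rw [hm, zpow_neg, zpow_natCast, ← inv_pow]
    exact pow_mem (show (x i)⁻¹ ∈ denRing V A0 A u from h2 i) m

/-- The ring generated by `A0` and the new elements is `Bn`. -/
private theorem fw_heq {x2 : Fin r → W} {y1 τ : W} {A0 : Subring W} {G0 g : Set W}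
    (hA0 : A0 = locV (ball W) (Subring.closure (Set.range (algebraMap k W) ∪ G0)))
    (hg : g = Set.range x2 ∪ {y1, τ}) (hG : ∀ z ∈ G0, z ∈ Bn k x2 y1 τ) :
    locV (ball W) (Subring.closure ((A0 : Set W) ∪ g)) = Bn k x2 y1 τ := by
  have hsub : Subring.closure ((Set.range (algebraMap k W) ∪ Set.range x2) ∪ {y1, τ}) ≤
      Bn k x2 y1 τ := C2_le_locV _ _
  have hgen : ∀ z ∈ (Set.range (algebraMap k W) ∪ Set.range x2) ∪ {y1, τ}, z ∈ Bn k x2 y1 τ :=
    fun z hz => hsub (Subring.subset_closure hz)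
  have hBB : locV (ball W) (Bn k x2 y1 τ) = Bn k x2 y1 τ := C2_locV_locV _ _
  have hA0B : A0 ≤ Bn k x2 y1 τ := by
    rw [hA0, ← hBB]
    refine C2_locV_mono _ ?_
    rw [Subring.closure_le]
    rintro z (hz | hz)
    · exact hgen z (Or.inl (Or.inl hz))
    · exact hG z hz
  refine le_antisymm ?_ ?_
  · rw [← hBB]
    refine C2_locV_mono _ ?_
    rw [Subring.closure_le]
    rintro z (hz | hz)
    · exact hA0B hz
    · rw [hg] at hz
      rcases hz with hz | hz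
      · exact hgen z (Or.inl (Or.inr hz))
      · exact hgen z (Or.inr hz)
  · unfold Bn
    refine C2_locV_mono _ (Subring.closure_mono ?_)
    rintro z ((hz | hz) | hz)
    · left
      rw [hA0]
      exact C2_le_locV _ _ (Subring.subset_closure (Or.inl hz))
    · right
      rw [hg]
      exact Or.inl hz
    · right
      rw [hg]
      exact Or.inr hz

/-- `Bn` is regular of dimension `r + 1`. -/
private theorem fw_reg (hA : Amb r k W) {x2 : Fin r → W} {y1 τ : W} (hP : Par k x2 y1)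
    (hτ1 : ‖τ‖ < 1) (hτ : ∃ b : Fin r → W, (∀ i, b i ∈ Bn k x2 y1 τ) ∧ τ = ∑ i, b i * x2 i) :
    IsRegularLocalRing (Bn k x2 y1 τ) ∧ ringKrullDim (Bn k x2 y1 τ) = (r + 1 : ℕ) := by
  classical
  obtain ⟨g, hg⟩ : ∃ g : Finset W, g = Finset.univ.image x2 ∪ {y1, τ} := ⟨_, rfl⟩
  have hgS : (g : Set W) = Set.range x2 ∪ {y1, τ} := by
    rw [hg]
    simp only [Finset.coe_union, Finset.coe_image, Finset.coe_univ, Set.image_univ,
      Finset.coe_insert, Finset.coe_singleton]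
  have heq : locV (ball W) (Subring.closure (Set.range (algebraMap k W) ∪ (g : Set W))) =
      Bn k x2 y1 τ := by
    rw [hgS, ← Set.union_assoc]
    rfl
  have hmem : ∀ z ∈ (g : Set W), z ∈ Bn k x2 y1 τ := by
    intro z hz
    rw [← heq]
    exact C2_le_locV _ _ (Subring.subset_closure (Or.inr hz))
  obtain ⟨β, hβ⟩ : ∃ β : Fin (r + 1) → W, β = Fin.cons y1 x2 := ⟨_, rfl⟩
  have hβg : ∀ i, β i ∈ (g : Set W) := by
    intro i
    rw [hβ, hgS]
    refine Fin.cases ?_ (fun j => ?_) i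
    · rw [Fin.cons_zero]
      exact Or.inr (Or.inl rfl)
    · rw [Fin.cons_succ]
      exact Or.inl ⟨j, rfl⟩
  have hβ1 : ∀ i, ‖β i‖ < 1 := by
    intro i
    rw [hβ]
    refine Fin.cases ?_ (fun j => ?_) i
    · rw [Fin.cons_zero]
      exact hP.y1
    · rw [Fin.cons_succ]
      exact hP.ind.lt j
  have hind : AlgebraicIndependent k β := by
    have h1 := (tr_iff x2 y1 hP.ind.ne).1 hP.tr
    have h2 : β = (fun o : Option (Fin r) => o.elim y1 x2) ∘ finSuccEquiv r := by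
      funext i
      rw [hβ]
      refine Fin.cases ?_ (fun j => ?_) i
      · simp only [Fin.cons_zero, Function.comp_apply, finSuccEquiv_zero, Option.elim_none]
      · simp only [Fin.cons_succ, Function.comp_apply, finSuccEquiv_succ, Option.elim_some]
    rw [h2]
    exact h1.comp _ (finSuccEquiv r).injective
  have h := reg_fg hA g (by
      intro z hz
      have hz' : z ∈ (g : Set W) := hz
      rw [hgS] at hz'
      rcases hz' with ⟨i, rfl⟩ | (rfl | hz')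
      · exact (hP.ind.lt i).le
      · exact hP.y1.le
      · rw [Set.mem_singleton_iff.1 hz']
        exact hτ1.le) (r + 1) β
    (fun i => IntermediateField.subset_adjoin k _ (hβg i)) hind β
    (fun i => C2_le_locV _ _ (Subring.subset_closure (Or.inr (hβg i)))) hβ1 (by
      intro z hz h1
      rw [heq] at hz ⊢
      obtain ⟨b, b0, hb, hb0, hzb⟩ := Bn_gen hA hP.ind hP.y1 hτ1 hτ z hz h1
      refine ⟨Fin.cons b0 b, fun i => ?_, ?_⟩
      · refine Fin.cases ?_ (fun j => ?_) i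
        · rw [Fin.cons_zero]; exact hb0
        · rw [Fin.cons_succ]; exact hb j
      · rw [Fin.sum_univ_succ, hβ]
        simp only [Fin.cons_zero, Fin.cons_succ]
        rw [hzb, add_comm])
  rw [heq] at h
  exact h

/-- The denominators. -/
private theorem fw_den {A0 B : Subring W} (hk : ∀ c : k, algebraMap k W c ∈ A0) {n : ℕ}
    {u : Fin n → W} {x x1 : Fin r → W} {y y1 τ : W} (hx : ∀ i, x i ≠ 0) (hx1 : ∀ i, x1 i ≠ 0)
    (a b : Fin r → W) (ha : ∀ i, a i ∈ A0 ∧ MonV (ball W) B u (a i))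
    (hb : ∀ i, b i ∈ A0 ∧ MonV (ball W) B u (b i)) (hab : ∀ i, x i * b i = a i)
    (ya yb : W) (hya : ya ∈ A0) (hyb : yb ∈ A0 ∧ MonV (ball W) B u yb) (hy : y * yb = ya)
    (τa τb : W) (hτa : τa ∈ A0) (hτb : τb ∈ A0 ∧ MonV (ball W) B u τb) (hτ : τ * τb = τa)
    (N D P Q : Fin r → W) (hN : ∀ i, N i ∈ LL k x y) (hD : ∀ i, D i ∈ LL k x y)
    (hND : ∀ i, x1 i * D i = N i)
    (hP : ∀ i, P i ∈ A0 ∧ P i * N i ∈ A0 ∧ MonV (ball W) B u (P i * N i))
    (hQ : ∀ i, Q i ∈ A0 ∧ Q i * D i ∈ A0 ∧ MonV (ball W) B u (Q i * D i))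
    (yn yd F : W) (hyn : yn ∈ LL k x y) (hnd : y1 * yd = yn)
    (hF : F ∈ A0 ∧ F * yd ∈ A0 ∧ MonV (ball W) B u (F * yd)) :
    (∀ e : Fin r → ℤ, Den (ball W) A0 B u (mon x1 e)) ∧ Den (ball W) A0 B u y1 ∧
      Den (ball W) A0 B u τ := by
  have hLL : ∀ z ∈ LL k x y, Den (ball W) A0 B u z := fun z hz =>
    fw_LL (MonV (ball W) B u) MonV.one (fun _ _ h h' => h.mul h') hk hx a b ha hb hab ya yb hya
      hyb hy z hz
  refine ⟨fw_den_mon (fun i => ?_) (fun i => ?_), ?_, ?_⟩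
  · exact Den.div (Den.mul (Den.of_mem (hQ i).1) (hLL _ (hN i))) (Den.of_mem (hQ i).2.1)
      (hQ i).2.2 (by rw [← hND i]; ring)
  · exact Den.div (Den.mul (Den.of_mem (hP i).1) (hLL _ (hD i))) (Den.of_mem (hP i).2.1)
      (hP i).2.2 (by
        rw [← hND i]
        have h1 := hx1 i
        field_simp)
  · exact Den.div (Den.mul (Den.of_mem hF.1) (hLL _ hyn)) (Den.of_mem hF.2.1) hF.2.2
      (by rw [← hnd]; ring)
  · exact Den.div (Den.of_mem hτa) (Den.of_mem hτb.1) hτb.2 hτ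

private theorem fw_Mo_one (A : Subring W) (x : Fin r → W) : Mo A x 1 := by
  refine ⟨0, 1, one_mem _, norm_one, ?_⟩
  rw [mul_one]
  simp [mon]

private theorem fw_Mo_mul {A : Subring W} {x : Fin r → W} (hx : ∀ i, x i ≠ 0) {z z' : W}
    (h : Mo A x z) (h' : Mo A x z') : Mo A x (z * z') := by
  obtain ⟨a, u, h1, h2, rfl⟩ := h
  obtain ⟨a', u', h1', h2', rfl⟩ := h'
  refine ⟨a + a', u * u', mul_mem h1 h1', by rw [norm_mul, h2, h2', one_mul], ?_⟩
  rw [mon_add x hx]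
  ring

private theorem fw_Mo_mono {A A' : Subring W} (hAA : A ≤ A') {x : Fin r → W} {z : W}
    (h : Mo A x z) : Mo A' x z := by
  obtain ⟨a, u, h1, h2, h3⟩ := h
  exact ⟨a, u, hAA h1, h2, h3⟩

private theorem fw_A0 (hk : ∀ c : k, ‖algebraMap k W c‖ ≤ 1) (F0 : IntermediateField k W)
    (G0 : Finset W) (hG0 : ∀ z ∈ G0, z ∈ F0 ∧ ‖z‖ ≤ 1) (A0 : Subring W)
    (hA0 : A0 = locV (ball W) (Subring.closure (Set.range (algebraMap k W) ∪ (G0 : Set W)))) :
    (∀ z ∈ A0, z ∈ F0 ∧ ‖z‖ ≤ 1) ∧ (∀ c : k, algebraMap k W c ∈ A0) ∧ ∀ z ∈ G0, z ∈ A0 := by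
  have h1 : Subring.closure (Set.range (algebraMap k W) ∪ (G0 : Set W)) ≤
      (ball W).toSubring := by
    rw [Subring.closure_le]
    rintro z (⟨c, rfl⟩ | hz)
    · exact hk c
    · exact (hG0 z hz).2
  have h2 : Subring.closure (Set.range (algebraMap k W) ∪ (G0 : Set W)) ≤
      F0.toSubfield.toSubring := by
    rw [Subring.closure_le]
    rintro z (⟨c, rfl⟩ | hz)
    · exact F0.algebraMap_mem c
    · exact (hG0 z hz).1
  refine ⟨fun z hz => ?_, fun c => ?_, fun z hz => ?_⟩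
  · rw [hA0] at hz
    refine ⟨?_, locV_le _ h1 hz⟩
    obtain ⟨a, ha, b, hb, hb1, hab⟩ := hz
    have hb0 : b ≠ 0 := by
      rintro rfl
      rw [map_zero] at hb1
      exact zero_ne_one hb1
    have h3 : z = a / b := by
      rw [eq_div_iff hb0]
      exact hab
    rw [h3]
    exact F0.div_mem (h2 ha) (h2 hb)
  · rw [hA0]
    exact C2_le_locV _ _ (Subring.subset_closure (Or.inl ⟨c, rfl⟩))
  · rw [hA0]
    exact C2_le_locV _ _ (Subring.subset_closure (Or.inr hz))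

/-- `monN` with a positive exponent is divisible. -/
private theorem fw_monN_dvd (x : Fin r → W) (β : Fin r → ℕ) (i0 : Fin r) (h : 1 ≤ β i0) :
    monN x β = monN x (β - Pi.single i0 1) * x i0 := by
  classical
  have h1 : β = (β - Pi.single i0 1) + Pi.single i0 1 := by
    funext i
    rw [Pi.add_apply, Pi.sub_apply]
    by_cases hi : i = i0
    · subst hi
      rw [Pi.single_eq_same]
      omega
    · rw [Pi.single_eq_of_ne hi]
      omega
  conv_lhs => rw [h1, E0_monN_add]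
  congr 1
  unfold monN
  rw [Finset.prod_eq_single i0]
  · rw [Pi.single_eq_same, pow_one]
  · intro j _ hj
    rw [Pi.single_eq_of_ne hj, pow_zero]
  · intro h2
    exact absurd (Finset.mem_univ i0) h2

end fw

theorem final_W {k W : Type} [Field k] [IsAlgClosed k] [NormedField W] [IsUltrametricDist W]
    [Algebra k W] {r : ℕ} (hA : Amb r k W) (hr : 0 < r) (S F0 : IntermediateField k W)
    (hF : FF S F0) (x : Fin r → W) (y : W) (h : Chart S (cl F0) x y) (hx : ∀ i, x i ∈ F0)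
    (hy : y ∈ F0) (G0 : Finset W) (hG0 : ∀ z ∈ G0, z ∈ F0 ∧ ‖z‖ ≤ 1) (A0 : Subring W)
    (hA0 : A0 = locV (ball W) (Subring.closure (Set.range (algebraMap k W) ∪ (G0 : Set W))))
    (hfrac : ∀ z ∈ F0, ∃ a ∈ A0, ∃ b ∈ A0, b ≠ 0 ∧ z * b = a) (Z : Finset W)
    (hZ : ∀ z ∈ Z, z ∈ F0 ∧ z ≠ 0 ∧ ‖z‖ ≤ 1) :
    ∃ (g : Finset W) (u : Fin r → W) (gs : Finset W), (∀ t ∈ g, ‖t‖ ≤ 1 ∧ t ∈ F0) ∧
      (∀ i, u i ∈ F0) ∧ (∀ t ∈ gs, t ∈ F0) ∧ gs.card = 1 ∧
      Imp.GoodPar2 (ball W) A0 (locV (ball W) (Subring.closure ((A0 : Set W) ∪ (g : Set W)))) u gs ∧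
      ∀ f ∈ Z, MonV (ball W) (locV (ball W) (Subring.closure ((A0 : Set W) ∪ (g : Set W)))) u f := by
  classical
  obtain ⟨hP, hxS, hyS, hxL, hyL, hdense, hsep⟩ := h
  have hk1 : ∀ c : k, ‖algebraMap k W c‖ ≤ 1 := by
    intro c
    by_cases hc : c = 0
    · rw [hc, map_zero, norm_zero]; exact zero_le_one
    · exact (hA.unit c hc).le
  obtain ⟨hA0mem, hkA0, hG0A0⟩ := fw_A0 hk1 F0 G0 hG0 A0 hA0
  have hEF : Kxy k x y ≤ F0 := by
    unfold Kxy
    rw [IntermediateField.adjoin_le_iff]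
    rintro z (⟨i, rfl⟩ | hz)
    · exact hx i
    · rw [Set.mem_singleton_iff.1 hz]
      exact hy
  have hxE : ∀ i, x i ∈ Kxy k x y := fun i =>
    IntermediateField.subset_adjoin k _ (Or.inl ⟨i, rfl⟩)
  -- the etale equation
  obtain ⟨Gf, hGf⟩ := hF.fg
  have hGfF : ∀ g ∈ Gf, g ∈ F0 := by
    intro g hg
    rw [← hGf]
    exact IntermediateField.subset_adjoin k _ hg
  obtain ⟨τ, P, hEt, hfld⟩ := exists_et (Kxy k x y)
    ⟨x ⟨0, hr⟩, hxE _, hP.ind.ne _, hP.ind.lt _⟩ Gf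
    (fun g hg => ⟨hsep g (hF.le (hGfF g hg)), hdense (le_cl F0 (hGfF g hg))⟩)
  have hF0 : Kxy k x y ⊔ IntermediateField.adjoin k {τ} = F0 := by
    rw [hfld, hGf]
    exact sup_eq_right.2 hEF
  have hτF : τ ∈ F0 := by
    rw [← hF0]
    exact (le_sup_right : IntermediateField.adjoin k {τ} ≤ _)
      (IntermediateField.subset_adjoin k _ rfl)
  have hτcl : τ ∈ cl (Kxy k x y) := hdense (le_cl F0 hτF)
  have hτ1 := hEt.lt
  -- the fractions
  have hfx : ∀ i, ∃ a ∈ A0, ∃ b ∈ A0, b ≠ 0 ∧ x i * b = a := fun i => hfrac _ (hx i)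
  choose ax hax bx hbx hbx0 habx using hfx
  obtain ⟨ya, hya, yb, hyb, hyb0, hyab⟩ := hfrac y hy
  obtain ⟨τa, hτa, τb, hτb, hτb0, hτab⟩ := hfrac τ hτF
  have hax0 : ∀ i, ax i ≠ 0 := by
    intro i
    rw [← habx i]
    exact mul_ne_zero (hP.ind.ne i) (hbx0 i)
  obtain ⟨Z1, hZ1⟩ : ∃ Z1 : Finset W, Z1 = Z ∪ (G0.filter (· ≠ 0)) ∪
    (Finset.univ.image ax ∪ Finset.univ.image bx) ∪ {yb, τb} := ⟨_, rfl⟩
  have hZ1mem : ∀ z ∈ Z1, z ∈ F0 ∧ z ≠ 0 ∧ ‖z‖ ≤ 1 := by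
    intro z hz
    rw [hZ1] at hz
    simp only [Finset.mem_union, Finset.mem_filter, Finset.mem_image, Finset.mem_univ, true_and,
      Finset.mem_insert, Finset.mem_singleton] at hz
    rcases hz with ((hz | ⟨hz, hz0⟩) | (⟨i, rfl⟩ | ⟨i, rfl⟩)) | (rfl | rfl)
    · exact hZ z hz
    · exact ⟨(hG0 z hz).1, hz0, (hG0 z hz).2⟩
    · exact ⟨(hA0mem _ (hax i)).1, hax0 i, (hA0mem _ (hax i)).2⟩
    · exact ⟨(hA0mem _ (hbx i)).1, hbx0 i, (hA0mem _ (hbx i)).2⟩
    · exact ⟨(hA0mem _ hyb).1, hyb0, (hA0mem _ hyb).2⟩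
    · exact ⟨(hA0mem _ hτb).1, hτb0, (hA0mem _ hτb).2⟩
  -- monomialization
  obtain ⟨x1, y1, hP1, hRf, hco, hMo1⟩ := thmB hA hr hP (Kxy k x y) rfl P τ hEt hτcl Z1
    (fun z hz => ⟨by rw [hF0]; exact (hZ1mem z hz).1, (hZ1mem z hz).2.1⟩)
  have hOB : OO k x1 y1 ≤ BB k x1 y1 τ := OO_le_BB x1 y1 τ
  have hM1 := fw_Mo_one (BB k x1 y1 τ) x1
  have hMm : ∀ z z', Mo (BB k x1 y1 τ) x1 z → Mo (BB k x1 y1 τ) x1 z' →
      Mo (BB k x1 y1 τ) x1 (z * z') := fun _ _ h h' => fw_Mo_mul hP1.ind.ne h h'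
  have hZ1ax : ∀ i, ax i ∈ Z1 := by
    intro i
    rw [hZ1]
    simp only [Finset.mem_union, Finset.mem_image, Finset.mem_univ, true_and]
    exact Or.inl (Or.inr (Or.inl ⟨i, rfl⟩))
  have hZ1bx : ∀ i, bx i ∈ Z1 := by
    intro i
    rw [hZ1]
    simp only [Finset.mem_union, Finset.mem_image, Finset.mem_univ, true_and]
    exact Or.inl (Or.inr (Or.inr ⟨i, rfl⟩))
  have hZ1yb : yb ∈ Z1 := by
    rw [hZ1]
    simp only [Finset.mem_union, Finset.mem_insert, Finset.mem_singleton, true_or, or_true]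
  have hZ1τb : τb ∈ Z1 := by
    rw [hZ1]
    simp only [Finset.mem_union, Finset.mem_insert, Finset.mem_singleton, or_true]
  have hLL1 : ∀ n ∈ LL k x y, ∃ D ∈ A0, Mo (BB k x1 y1 τ) x1 D ∧ D * n ∈ A0 := fun n hn =>
    fw_LL (Mo (BB k x1 y1 τ) x1) hM1 hMm hkA0 hP.ind.ne ax bx
      (fun i => ⟨hax i, hMo1 _ (hZ1ax i)⟩) (fun i => ⟨hbx i, hMo1 _ (hZ1bx i)⟩) habx ya yb hya
      ⟨hyb, hMo1 _ hZ1yb⟩ hyab n hn
  have hgx : ∀ i, ∃ n ∈ LL k x y, ∃ d ∈ LL k x y, Mo (OO k x1 y1) x1 n ∧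
      Mo (OO k x1 y1) x1 d ∧ x1 i * d = n := hRf.genx
  choose N hN D hD hNM hDM hND using hgx
  obtain ⟨yn, hyn, yd, hyd, hydM, hynd⟩ := hRf.geny
  have hPex : ∀ i, ∃ D' ∈ A0, Mo (BB k x1 y1 τ) x1 D' ∧ D' * N i ∈ A0 := fun i => hLL1 _ (hN i)
  have hQex : ∀ i, ∃ D' ∈ A0, Mo (BB k x1 y1 τ) x1 D' ∧ D' * D i ∈ A0 := fun i => hLL1 _ (hD i)
  choose Pd hPd hPdM hPdN using hPex
  choose Qd hQd hQdM hQdD using hQex
  obtain ⟨F, hFA, hFM, hFd⟩ := hLL1 yd hyd
  -- the finite set for the Perron transform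
  obtain ⟨T, hT⟩ : ∃ T : Finset W, T = Z1 ∪
    ((P.support.erase 1).image fun j => ((P.coeff j : Kxy k x y) : W)) ∪
    (Finset.univ.image (fun i => Pd i * N i) ∪ Finset.univ.image (fun i => Qd i * D i)) ∪
    {F * yd} := ⟨_, rfl⟩
  have hTmem : ∀ z ∈ T, Mo (BB k x1 y1 τ) x1 z ∧ ‖z‖ ≤ 1 := by
    intro z hz
    rw [hT] at hz
    simp only [Finset.mem_union, Finset.mem_image, Finset.mem_univ, true_and,
      Finset.mem_singleton, Finset.mem_erase, Polynomial.mem_support_iff] at hz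
    rcases hz with ((hz | ⟨j, ⟨hj1, hj0⟩, rfl⟩) | (⟨i, rfl⟩ | ⟨i, rfl⟩)) | rfl
    · exact ⟨hMo1 z hz, (hZ1mem z hz).2.2⟩
    · exact ⟨fw_Mo_mono hOB (hco j hj1 hj0), (hEt.cj j hj1).le⟩
    · exact ⟨hMm _ _ (hPdM i) (fw_Mo_mono hOB (hNM i)), (hA0mem _ (hPdN i)).2⟩
    · exact ⟨hMm _ _ (hQdM i) (fw_Mo_mono hOB (hDM i)), (hA0mem _ (hQdD i)).2⟩
    · exact ⟨hMm _ _ hFM (fw_Mo_mono hOB hydM), (hA0mem _ hFd).2⟩
  have hTZ1 : ∀ z ∈ Z1, z ∈ T := by
    intro z hz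
    rw [hT]
    simp only [Finset.mem_union]
    exact Or.inl (Or.inl (Or.inl hz))
  have hTco : ∀ j, j ≠ 1 → P.coeff j ≠ 0 → ((P.coeff j : Kxy k x y) : W) ∈ T := by
    intro j hj1 hj0
    rw [hT]
    simp only [Finset.mem_union, Finset.mem_image, Finset.mem_erase, Polynomial.mem_support_iff]
    exact Or.inl (Or.inl (Or.inr ⟨j, ⟨hj1, hj0⟩, rfl⟩))
  have hTN : ∀ i, Pd i * N i ∈ T := by
    intro i
    rw [hT]
    simp only [Finset.mem_union, Finset.mem_image, Finset.mem_univ, true_and]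
    exact Or.inl (Or.inr (Or.inl ⟨i, rfl⟩))
  have hTD : ∀ i, Qd i * D i ∈ T := by
    intro i
    rw [hT]
    simp only [Finset.mem_union, Finset.mem_image, Finset.mem_univ, true_and]
    exact Or.inl (Or.inr (Or.inr ⟨i, rfl⟩))
  have hTF : F * yd ∈ T := by
    rw [hT]
    simp only [Finset.mem_union, Finset.mem_singleton, or_true]
  obtain ⟨x2, hx2, hMt, hMV, hlt⟩ := fw_perron hA hP1 hτ1.le T hTmem
  have hP2 : Par k x2 y1 := hMt.par hP1 hx2
  -- the ring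
  have hsubB : Subring.closure ((Set.range (algebraMap k W) ∪ Set.range x2) ∪ {y1, τ}) ≤
      Bn k x2 y1 τ := C2_le_locV _ _
  have hx2B : ∀ i, x2 i ∈ Bn k x2 y1 τ := fun i =>
    hsubB (Subring.subset_closure (Or.inl (Or.inr ⟨i, rfl⟩)))
  have hy1B : y1 ∈ Bn k x2 y1 τ := hsubB (Subring.subset_closure (Or.inr (Or.inl rfl)))
  have hτB : τ ∈ Bn k x2 y1 τ := hsubB (Subring.subset_closure (Or.inr (Or.inr rfl)))
  have hMVmem : ∀ z ∈ T, z ∈ Bn k x2 y1 τ := fun z hz => (hMV z hz).mem hx2B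
  have hBball : Bn k x2 y1 τ ≤ (ball W).toSubring := by
    refine locV_le _ ?_
    rw [Subring.closure_le]
    rintro z ((⟨c, rfl⟩ | ⟨i, rfl⟩) | (rfl | hz))
    · exact hk1 c
    · exact (hx2.lt i).le
    · exact hP1.y1.le
    · rw [Set.mem_singleton_iff.1 hz]
      exact hτ1.le
  have hG0B : ∀ z ∈ (G0 : Set W), z ∈ Bn k x2 y1 τ := by
    intro z hz
    by_cases h0 : z = 0
    · rw [h0]; exact zero_mem _
    · refine hMVmem z (hTZ1 z ?_)
      rw [hZ1]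
      simp only [Finset.mem_union, Finset.mem_filter]
      exact Or.inl (Or.inl (Or.inr ⟨hz, h0⟩))
  have hτsum : ∃ b : Fin r → W, (∀ i, b i ∈ Bn k x2 y1 τ) ∧ τ = ∑ i, b i * x2 i := by
    refine fw_tau (Kxy k x y) P τ hEt _ (fun z hz => hBball hz) hτB (fun j hj => ?_) ⟨0, hr⟩ ?_
    · by_cases h0 : P.coeff j = 0
      · rw [h0]
        exact zero_mem _
      · exact hMVmem _ (hTco j hj h0)
    · by_cases h0 : P.coeff 0 = 0
      · exact ⟨0, zero_mem _, by rw [h0, zero_mul]; rfl⟩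
      · obtain ⟨w, hw, β, hβ, hwβ⟩ := hlt _ (hTco 0 zero_ne_one h0) (hEt.cj 0 zero_ne_one)
        refine ⟨w * monN x2 (β - Pi.single ⟨0, hr⟩ 1), mul_mem hw (E0_monN_mem _ hx2B _), ?_⟩
        rw [hwβ, fw_monN_dvd x2 β ⟨0, hr⟩ (hβ _), mul_assoc]
  obtain ⟨hreg, hdim⟩ := fw_reg hA hP2 hτ1 hτsum
  -- the new elements are in `F0`
  have hx1F : ∀ i, x1 i ∈ F0 := fun i => hEF (by
    rw [← hRf.fld]
    exact IntermediateField.subset_adjoin k _ (Or.inl ⟨i, rfl⟩))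
  have hy1F : y1 ∈ F0 := hEF (by
    rw [← hRf.fld]
    exact IntermediateField.subset_adjoin k _ (Or.inr rfl))
  have hx2F : ∀ i, x2 i ∈ F0 := by
    intro i
    obtain ⟨e, he⟩ := hMt.inv i
    rw [he]
    unfold mon
    exact F0.toSubfield.prod_mem fun j _ => F0.toSubfield.zpow_mem (hx1F j) _
  obtain ⟨g, hg⟩ : ∃ g : Finset W, g = Finset.univ.image x2 ∪ {y1, τ} := ⟨_, rfl⟩
  have hgS : (g : Set W) = Set.range x2 ∪ {y1, τ} := by
    rw [hg]
    simp only [Finset.coe_union, Finset.coe_image, Finset.coe_univ, Set.image_univ,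
      Finset.coe_insert, Finset.coe_singleton]
  have heq : locV (ball W) (Subring.closure ((A0 : Set W) ∪ (g : Set W))) = Bn k x2 y1 τ :=
    fw_heq hA0 hgS hG0B
  obtain ⟨hden1, hdeny, hdenτ⟩ := fw_den (u := x2) (B := Bn k x2 y1 τ) hkA0 hP.ind.ne hP1.ind.ne
    ax bx (fun i => ⟨hax i, hMV _ (hTZ1 _ (hZ1ax i))⟩)
    (fun i => ⟨hbx i, hMV _ (hTZ1 _ (hZ1bx i))⟩) habx ya yb hya ⟨hyb, hMV _ (hTZ1 _ hZ1yb)⟩ hyab
    τa τb hτa ⟨hτb, hMV _ (hTZ1 _ hZ1τb)⟩ hτab N D Pd Qd hN hD hND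
    (fun i => ⟨hPd i, hPdN i, hMV _ (hTN i)⟩) (fun i => ⟨hQd i, hQdD i, hMV _ (hTD i)⟩) yn yd F
    hyn hynd ⟨hFA, hFd, hMV _ hTF⟩
  have hden : Bn k x2 y1 τ ≤ denRing (ball W) A0 (Bn k x2 y1 τ) x2 := by
    refine locV_le_denRing ?_ hsubB
    rw [Subring.closure_le]
    rintro z ((⟨c, rfl⟩ | ⟨i, rfl⟩) | (rfl | hz))
    · exact Den.of_mem (hkA0 c)
    · obtain ⟨e, he⟩ := hMt.inv i
      change Den (ball W) A0 (Bn k x2 y1 τ) x2 (x2 i)
      rw [he]
      exact hden1 e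
    · exact hdeny
    · rw [Set.mem_singleton_iff.1 hz]
      exact hdenτ
  refine ⟨g, x2, {y1}, ?_, hx2F, ?_, Finset.card_singleton _, ?_, ?_⟩
  · intro t ht
    have ht' : t ∈ (g : Set W) := ht
    rw [hgS] at ht'
    rcases ht' with ⟨i, rfl⟩ | (rfl | ht')
    · exact ⟨(hx2.lt i).le, hx2F i⟩
    · exact ⟨hP1.y1.le, hy1F⟩
    · rw [Set.mem_singleton_iff.1 ht']
      exact ⟨hτ1.le, hτF⟩
  · intro t ht
    rw [Finset.mem_singleton.1 ht]
    exact hy1F
  · rw [heq]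
    refine ⟨⟨hx2.ne, fun δ hδ => hx2.indep δ ((ball_val_eq_one _).1 hδ)⟩, hx2B,
      fun i => (ball_val_lt_one _).2 (hx2.lt i), ?_, ?_, ?_, hreg, ?_, fun z hz => hden hz⟩
    · intro t ht
      rw [Finset.mem_singleton.1 ht]
      exact hy1B
    · intro t ht
      rw [Finset.mem_singleton.1 ht]
      exact (ball_val_lt_one _).2 hP1.y1
    · intro z hz h1
      obtain ⟨b, b0, hb, hb0, hzb⟩ := Bn_gen hA hx2 hP1.y1 hτ1 hτsum z hz
        ((ball_val_lt_one _).1 h1)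
      exact ⟨b, fun _ => b0, hb, fun _ => hb0, by rw [Finset.sum_singleton]; exact hzb⟩
    · rw [hdim, Finset.card_singleton, add_comm 1 r]
      rfl
  · intro f hf
    rw [heq]
    refine hMV f (hTZ1 f ?_)
    rw [hZ1]
    simp only [Finset.mem_union]
    exact Or.inl (Or.inl (Or.inl hf))

end Pool.Agent.Lib.TDO
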