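import Pool.Agent.Lib.TDO.Ev

/-!
# Module Pert: perturbation of Laurent polynomials

`B` is a subring closed under `locV`, `q ∈ B`, `‖q‖ < 1`, the `x i ∈ B` divide a power of `q`.
`x'' i = x i + q^N b = x i (1 + q^(N-C) b')`, so `(x'' i)^n = (x i)^n (1 + q^(N-C) b'')` for all
`n ∈ ℤ` (`1 + q^(N-C) b'` is a unit of `B` when `N > C`), `(x i)^n ∈ q^(-C |n|) B`; finite sums and
products.
-/

namespace Pool.Agent.Lib.TDO

open Pool.Agent.Lib.MP_3029eb_ag Pool.Agent.Lib.MP_3029eb_ag.Abh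

section aux

variable {W : Type} [NormedField W] [IsUltrametricDist W] (B : Subring W)

/-- elements congruent to one modulo `q ^ M` -/
private def Cong (q : W) (M : ℕ) (u : W) : Prop := ∃ s ∈ B, u = 1 + q ^ M * s

variable {B}

private lemma pert_val_one {u : W} (h : ‖u‖ = 1) : (ball W).valuation u = 1 := by
  have hu : u ∈ ball W := h.le
  have hu0 : u ≠ 0 := by
    intro h0; rw [h0, norm_zero] at h; exact zero_ne_one h
  have hi : u⁻¹ ∈ ball W := by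
    rw [mem_ball, norm_inv, h, inv_one]
  have h1 : IsUnit (⟨u, hu⟩ : ball W) :=
    ⟨⟨⟨u, hu⟩, ⟨u⁻¹, hi⟩, Subtype.ext (mul_inv_cancel₀ hu0), Subtype.ext (inv_mul_cancel₀ hu0)⟩,
      rfl⟩
  exact (ValuationSubring.valuation_eq_one_iff (ball W) ⟨u, hu⟩).1 h1

private lemma inv_mem_of_norm_one (hBl : locV (ball W) B = B)
    {u : W} (hu : u ∈ B) (h1 : ‖u‖ = 1) : u⁻¹ ∈ B := by
  rw [← hBl]
  have hu0 : u ≠ 0 := by
    intro h; rw [h, norm_zero] at h1; exact zero_ne_one h1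
  refine ⟨1, one_mem _, u, hu, ?_, inv_mul_cancel₀ hu0⟩
  exact pert_val_one h1

private lemma Cong.mem {q : W} (hq : q ∈ B) {M : ℕ} {u : W} (h : Cong B q M u) : u ∈ B := by
  obtain ⟨s, hs, rfl⟩ := h
  exact add_mem (one_mem _) (mul_mem (pow_mem hq M) hs)

private lemma Cong.norm {q : W} (hB : B ≤ (ball W).toSubring) (hq1 : ‖q‖ < 1) {M : ℕ}
    (hM : 1 ≤ M) {u : W} (h : Cong B q M u) : ‖u‖ = 1 := by
  obtain ⟨s, hs, rfl⟩ := h
  have h1 : ‖s‖ ≤ 1 := hB hs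
  have h2 : ‖q ^ M * s‖ < 1 := by
    rw [norm_mul, norm_pow]
    have h3 : ‖q‖ ^ M < 1 := pow_lt_one₀ (norm_nonneg _) hq1 (by omega)
    have h4 : 0 ≤ ‖q‖ ^ M := by positivity
    nlinarith [norm_nonneg s]
  have h5 : ‖(1 : W)‖ ≠ ‖q ^ M * s‖ := by rw [norm_one]; exact h2.ne'
  rw [IsUltrametricDist.norm_add_eq_max_of_norm_ne_norm h5, norm_one, max_eq_left h2.le]

private lemma Cong.one (q : W) (M : ℕ) : Cong B q M 1 := ⟨0, zero_mem _, by ring⟩

private lemma Cong.mul {q : W} (hq : q ∈ B) {M : ℕ} {u v : W} (h : Cong B q M u)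
    (h' : Cong B q M v) : Cong B q M (u * v) := by
  have hv := h'.mem hq
  obtain ⟨s, hs, rfl⟩ := h
  obtain ⟨t, ht, rfl⟩ := h'
  exact ⟨t + s * (1 + q ^ M * t), add_mem ht (mul_mem hs hv), by ring⟩

private lemma Cong.inv {q : W} (hB : B ≤ (ball W).toSubring) (hBl : locV (ball W) B = B)
    (hq : q ∈ B) (hq1 : ‖q‖ < 1) {M : ℕ} (hM : 1 ≤ M) {u : W} (h : Cong B q M u) :
    Cong B q M u⁻¹ := by
  have h1 := h.norm hB hq1 hM
  have hu := h.mem hq
  have hi := inv_mem_of_norm_one hBl hu h1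
  have hu0 : u ≠ 0 := by
    intro h; rw [h, norm_zero] at h1; exact zero_ne_one h1
  obtain ⟨s, hs, he⟩ := h
  refine ⟨-(s * u⁻¹), neg_mem (mul_mem hs hi), ?_⟩
  have h2 : q ^ M * s = u - 1 := by rw [he]; ring
  have h3 : 1 + q ^ M * -(s * u⁻¹) = 1 - (q ^ M * s) * u⁻¹ := by ring
  rw [h3, h2, sub_mul, mul_inv_cancel₀ hu0]
  ring

private lemma Cong.zpow {q : W} (hB : B ≤ (ball W).toSubring) (hBl : locV (ball W) B = B)
    (hq : q ∈ B) (hq1 : ‖q‖ < 1) {M : ℕ} (hM : 1 ≤ M) {u : W} (h : Cong B q M u) (n : ℤ) :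
    Cong B q M (u ^ n) := by
  have hnat : ∀ m : ℕ, Cong B q M (u ^ m) := by
    intro m
    induction m with
    | zero => rw [pow_zero]; exact Cong.one q M
    | succ m ih => rw [pow_succ]; exact ih.mul hq h
  rcases Int.eq_nat_or_neg n with ⟨m, rfl | rfl⟩
  · rw [zpow_natCast]; exact hnat m
  · rw [zpow_neg, zpow_natCast]; exact (hnat m).inv hB hBl hq hq1 hM

private lemma Cong.mon {q : W} (hB : B ≤ (ball W).toSubring) (hBl : locV (ball W) B = B)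
    (hq : q ∈ B) (hq1 : ‖q‖ < 1) {M : ℕ} (hM : 1 ≤ M) {r : ℕ} {u : Fin r → W}
    (h : ∀ i, Cong B q M (u i)) (a : Fin r → ℤ) : Cong B q M (mon u a) := by
  unfold MP_3029eb_ag.Abh.mon
  refine Finset.prod_induction _ (Cong B q M) (fun _ _ h h' => h.mul hq h') (Cong.one q M)
    (fun i _ => (h i).zpow hB hBl hq hq1 hM (a i))

private lemma exists_den {q : W} (hq : q ∈ B) {r : ℕ} (x : Fin r → W)
    (hx : ∀ i, x i ≠ 0 ∧ x i ∈ B ∧ ∃ C : ℕ, ∃ b ∈ B, q ^ C = x i * b) (a : Fin r → ℤ) :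
    ∃ D : ℕ, q ^ D * mon x a ∈ B := by
  unfold MP_3029eb_ag.Abh.mon
  refine Finset.prod_induction (fun i => x i ^ a i) (fun z => ∃ D : ℕ, q ^ D * z ∈ B) ?_ ?_ ?_
  · rintro z w ⟨D, hD⟩ ⟨E, hE⟩
    refine ⟨D + E, ?_⟩
    have h1 : q ^ (D + E) * (z * w) = (q ^ D * z) * (q ^ E * w) := by ring
    rw [h1]
    exact mul_mem hD hE
  · exact ⟨0, by simp⟩
  · intro i _
    obtain ⟨h0, hB', C, b, hb, hC⟩ := hx i
    rcases Int.eq_nat_or_neg (a i) with ⟨m, h | h⟩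
    · refine ⟨0, ?_⟩
      rw [h, zpow_natCast, pow_zero, one_mul]
      exact pow_mem hB' m
    · refine ⟨C * m, ?_⟩
      rw [h, zpow_neg, zpow_natCast, pow_mul, hC, mul_pow]
      have h1 : x i ^ m * b ^ m * (x i ^ m)⁻¹ = b ^ m := by
        rw [mul_comm (x i ^ m) (b ^ m), mul_assoc, mul_inv_cancel₀ (pow_ne_zero _ h0), mul_one]
      rw [h1]
      exact pow_mem hb m

private lemma pow_sub_mem {y y'' : W} (hy : y ∈ B) (hy'' : y'' ∈ B) (j : ℕ) :
    ∃ t ∈ B, y'' ^ j - y ^ j = (y'' - y) * t := by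
  induction j with
  | zero => exact ⟨0, zero_mem _, by ring⟩
  | succ j ih =>
    obtain ⟨t, ht, h⟩ := ih
    refine ⟨y'' * t + y ^ j, add_mem (mul_mem hy'' ht) (pow_mem hy j), ?_⟩
    have h1 : y'' ^ (j + 1) - y ^ (j + 1) = y'' * (y'' ^ j - y ^ j) + (y'' - y) * y ^ j := by ring
    rw [h1, h]
    ring

end aux

theorem pert {k W : Type} [Field k] [NormedField W] [IsUltrametricDist W] [Algebra k W]
    {r : ℕ} (B : Subring W) (hB : B ≤ (ball W).toSubring) (hBl : locV (ball W) B = B)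
    (hk : ∀ c : k, algebraMap k W c ∈ B) (q : W) (hq : q ∈ B) (hq0 : q ≠ 0) (hq1 : ‖q‖ < 1)
    (x : Fin r → W) (y : W) (hx : ∀ i, x i ≠ 0 ∧ x i ∈ B ∧ ∃ C : ℕ, ∃ b ∈ B, q ^ C = x i * b)
    (hy : y ∈ B) (P : LP k r) :
    ∃ C : ℕ, ∀ N : ℕ, C ≤ N → ∀ (x'' : Fin r → W) (y'' : W),
      (∀ i, ∃ b ∈ B, x'' i - x i = q ^ N * b) → (∃ b ∈ B, y'' - y = q ^ N * b) →
      (∀ i, x'' i ≠ 0) ∧ ∃ b ∈ B, ev x'' y'' P - ev x y P = q ^ (N - C) * b := by
  classical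
  have hx' : ∀ i, ∃ C : ℕ, ∃ b ∈ B, q ^ C = x i * b := fun i => (hx i).2.2
  choose Ci bi hbi hCi using hx'
  set C1 : ℕ := Finset.univ.sup Ci with hC1
  have hCle : ∀ i, Ci i ≤ C1 := fun i => Finset.le_sup (Finset.mem_univ i)
  have hden : ∀ a : Fin r → ℤ, ∃ D : ℕ, q ^ D * mon x a ∈ B := exists_den hq x hx
  choose D hD using hden
  set C2 : ℕ := P.coeff.support.sup (fun m => D m.1) with hC2
  -- the units
  have hunit : ∀ N : ℕ, C1 + 1 ≤ N → ∀ x'' : Fin r → W, (∀ i, ∃ b ∈ B, x'' i - x i = q ^ N * b) →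
      ∃ u : Fin r → W, (∀ i, Cong B q (N - C1) (u i)) ∧ ∀ i, x'' i = x i * u i := by
    intro N hN x'' hx''
    choose b hb he using hx''
    refine ⟨fun i => 1 + q ^ (N - C1) * (q ^ (C1 - Ci i) * bi i * b i), fun i =>
      ⟨_, mul_mem (mul_mem (pow_mem hq _) (hbi i)) (hb i), rfl⟩, fun i => ?_⟩
    have h1 : q ^ N = q ^ (N - C1) * q ^ (C1 - Ci i) * q ^ Ci i := by
      rw [← pow_add, ← pow_add]
      congr 1
      have := hCle i
      omega
    have h2 : x'' i = x i + q ^ N * b i := by rw [← he i]; ring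
    rw [h2, h1, hCi i]
    ring
  refine ⟨C1 + C2 + 1, fun N hN x'' y'' hx'' hy'' => ?_⟩
  obtain ⟨u, hu, hxu⟩ := hunit N (by omega) x'' hx''
  have hM : 1 ≤ N - C1 := by omega
  have hu1 : ∀ i, u i ≠ 0 := by
    intro i h
    have := (hu i).norm hB hq1 hM
    rw [h, norm_zero] at this
    exact zero_ne_one this
  refine ⟨fun i => by rw [hxu i]; exact mul_ne_zero (hx i).1 (hu1 i), ?_⟩
  obtain ⟨b, hb, hyb⟩ := hy''
  have hy''B : y'' ∈ B := by
    have : y'' = y + q ^ N * b := by rw [← hyb]; ring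
    rw [this]
    exact add_mem hy (mul_mem (pow_mem hq N) hb)
  -- one monomial
  have hmono : ∀ m ∈ P.coeff.support, ∃ b ∈ B,
      algebraMap k W (P.coeff m) * (mon x'' m.1 * y'' ^ m.2) -
        algebraMap k W (P.coeff m) * (mon x m.1 * y ^ m.2) = q ^ (N - (C1 + C2 + 1)) * b := by
    intro m hm
    have hDm : D m.1 ≤ C2 := Finset.le_sup (f := fun m => D m.1) hm
    have hmx : mon x'' m.1 = mon x m.1 * mon u m.1 := by
      unfold MP_3029eb_ag.Abh.mon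
      rw [← Finset.prod_mul_distrib]
      refine Finset.prod_congr rfl (fun i _ => ?_)
      rw [hxu i, mul_zpow]
    obtain ⟨s, hs, hms⟩ := Cong.mon hB hBl hq hq1 hM hu m.1
    obtain ⟨t, ht, hyt⟩ := pow_sub_mem hy hy''B m.2
    have hqN : q ^ N = q ^ (N - C1) * q ^ C1 := by
      rw [← pow_add]; congr 1; omega
    have hqM : q ^ (N - C1) = q ^ (N - (C1 + C2 + 1)) * (q ^ (C2 + 1 - D m.1) * q ^ D m.1) := by
      rw [← pow_add, ← pow_add]; congr 1; omega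
    refine ⟨algebraMap k W (P.coeff m) * (q ^ (C2 + 1 - D m.1) * (q ^ D m.1 * mon x m.1) *
      (s * y'' ^ m.2 + q ^ C1 * (b * t))), ?_, ?_⟩
    · exact mul_mem (hk _) (mul_mem (mul_mem (pow_mem hq _) (hD m.1))
        (add_mem (mul_mem hs (pow_mem hy''B _)) (mul_mem (pow_mem hq _) (mul_mem hb ht))))
    · have h1 : y'' ^ m.2 = y ^ m.2 + q ^ N * b * t := by
        rw [← hyb, ← hyt]; ring
      have h2 : mon x'' m.1 * y'' ^ m.2 - mon x m.1 * y ^ m.2 =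
          q ^ (N - C1) * (mon x m.1 * (s * y'' ^ m.2 + q ^ C1 * (b * t))) := by
        have h3 : mon x'' m.1 * y'' ^ m.2 = mon x m.1 * (q ^ (N - C1) * s * y'' ^ m.2) +
            mon x m.1 * y'' ^ m.2 := by
          rw [hmx, hms]; ring
        rw [h3]
        have h4 : mon x m.1 * y'' ^ m.2 = mon x m.1 * y ^ m.2 +
            mon x m.1 * (q ^ (N - C1) * q ^ C1 * b * t) := by
          rw [h1, hqN]; ring
        rw [h4]
        ring
      rw [← mul_sub, h2, hqM]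
      ring
  -- the sum
  have hsum : ev x'' y'' P - ev x y P = ∑ m ∈ P.coeff.support,
      (algebraMap k W (P.coeff m) * (mon x'' m.1 * y'' ^ m.2) -
        algebraMap k W (P.coeff m) * (mon x m.1 * y ^ m.2)) := by
    rw [Finset.sum_sub_distrib]
    rfl
  rw [hsum]
  refine Finset.sum_induction _ (fun z => ∃ b ∈ B, z = q ^ (N - (C1 + C2 + 1)) * b) ?_ ?_ hmono
  · rintro z w ⟨b1, hb1, rfl⟩ ⟨b2, hb2, rfl⟩
    exact ⟨b1 + b2, add_mem hb1 hb2, by ring⟩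
  · exact ⟨0, zero_mem _, by ring⟩

end Pool.Agent.Lib.TDO
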