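import Pool.Agent.Lib.TDO.LemH1
import Pool.Agent.Lib.TDO.Dens
import Pool.Agent.Lib.TDO.Unram
import Pool.Agent.Lib.TDO.Pert
import Pool.Agent.Lib.TDO.Tr

/-!
# Module LemH: from a chart of `cl F1` to a chart of `cl F1` with elements in `F1`

Proof.  Take `lemH_data`, `B = Bn k x2 y1 τ`, `q = ∏ i, x2 i`.
(6) `x2 i * d_i = n_i`, `y1 * d = n`, with `n_i = ev x y P_i`, `d_i = ev x y Q_i` etc.
(`mem_LL_iff`); `pert` for all of them: for `N` large, with
`x''_i := ev r r_0 P_i / ev r r_0 Q_i ∈ F1`, `y'' := ev r r_0 P_0 / ev r r_0 Q_0 ∈ F1`: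
`x''_i - x2 i ∈ q^2 B`, `y'' - y1 ∈ q^2 B`.  (`d_i b = q^C`, so
`ev r r_0 Q_i = d_i (1 + q^(N - C' - C) b b')`, a unit factor; quotient estimate.)
(7) `q^2 = x2 i * (element of B of norm < 1)`, so `x''_i = x2 i * v_i`, `v_i` a unit of `B`; and
`y1 = y'' - q^2 b'` with `q^2 b' ∈ (x'') B`.  With `Bn_gen` the maximal ideal of `B` is generated
by `x'', y''`; `x''` is independent (same norms of monomials as `x2`), `‖y''‖ < 1`.
(8) `dens`: `B ⊆ cl (Kxy k x'' y'')`, so `Kxy k x2 y1 ⊔ adjoin {τ} = F1 ⊔ Kxy ≤ cl (Kxy k x'' y'')`,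
`cl F1 ≤ cl (Kxy k x'' y'')`.  `unram` with `G = {x2 i, y1, τ}`: `F1 ⊔ Kxy` is separable over
`Kxy k x'' y''`; `S` is separable over `F1` (`FF.sep`), hence over `Kxy k x'' y''` (transitivity:
the minimal polynomial of `z` over `F1` has coefficients separable over `Kxy k x'' y''`).  `Par` by
`tr_of_algebraic`.
-/

namespace Pool.Agent.Lib.TDO

open Pool.Agent.Lib.MP_3029eb_ag Pool.Agent.Lib.MP_3029eb_ag.Abh

section aux

variable {k W : Type} [Field k] [NormedField W] [IsUltrametricDist W] [Algebra k W] {r : ℕ}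

private theorem LemH_norm_one_add {b : W} (hb : ‖b‖ < 1) : ‖1 + b‖ = 1 := by
  rw [IsUltrametricDist.norm_add_eq_max_of_norm_ne_norm (by rw [norm_one]; exact hb.ne'),
    norm_one, max_eq_left hb.le]

private theorem LemH_inv_mem {B : Subring W} (hBl : locV (ball W) B = B) {u : W} (hu : u ∈ B)
    (h1 : ‖u‖ = 1) : u⁻¹ ∈ B := by
  rw [← hBl]
  have hu0 : u ≠ 0 := fun h => by rw [h, norm_zero] at h1; exact zero_ne_one h1
  exact ⟨1, one_mem _, u, hu, (ball_val_eq_one u).2 h1, inv_mul_cancel₀ hu0⟩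

private theorem LemH_norm_le {B : Subring W} (hB : B ≤ (ball W).toSubring) {b : W} (hb : b ∈ B) :
    ‖b‖ ≤ 1 := hB hb

private theorem LemH_quot (B : Subring W) (hB : B ≤ (ball W).toSubring)
    (hBl : locV (ball W) B = B)
    (hk : ∀ c : k, algebraMap k W c ∈ B) (q : W) (hq : q ∈ B) (hq0 : q ≠ 0) (hq1 : ‖q‖ < 1)
    (x : Fin r → W) (y : W) (hx : ∀ i, x i ≠ 0 ∧ x i ∈ B ∧ ∃ C : ℕ, ∃ b ∈ B, q ^ C = x i * b)
    (hy : y ∈ B) (w : W) (hw : w ∈ B) (P Q : LP k r) (hPQ : w * ev x y Q = ev x y P)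
    (hQ : ∃ C : ℕ, ∃ b ∈ B, q ^ C = ev x y Q * b) :
    ∃ C : ℕ, ∀ N : ℕ, C ≤ N → ∀ (x'' : Fin r → W) (y'' : W),
      (∀ i, ∃ b ∈ B, x'' i - x i = q ^ N * b) → (∃ b ∈ B, y'' - y = q ^ N * b) →
      ∃ b ∈ B, ev x'' y'' P / ev x'' y'' Q - w = q ^ 2 * b := by
  obtain ⟨C1, h1⟩ := pert B hB hBl hk q hq hq0 hq1 x y hx hy Q
  obtain ⟨C2, h2⟩ := pert B hB hBl hk q hq hq0 hq1 x y hx hy P
  obtain ⟨C, b, hb, hqC⟩ := hQ
  refine ⟨C1 + C2 + C + 2, fun N hN x'' y'' hx'' hy'' => ?_⟩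
  obtain ⟨_, b1, hb1, e1⟩ := h1 N (by omega) x'' y'' hx'' hy''
  obtain ⟨_, b2, hb2, e2⟩ := h2 N (by omega) x'' y'' hx'' hy''
  have hd : ev x y Q ≠ 0 := by
    intro h
    rw [h, zero_mul] at hqC
    exact pow_ne_zero C hq0 hqC
  obtain ⟨m1, hm1⟩ : ∃ m, N - C1 = C + (m + 2) := ⟨N - C1 - C - 2, by omega⟩
  obtain ⟨m2, hm2⟩ : ∃ m, N - C2 = C + (m + 2) := ⟨N - C2 - C - 2, by omega⟩
  rw [hm1, pow_add, hqC] at e1
  rw [hm2, pow_add, hqC] at e2
  have hu : 1 + q ^ (m1 + 2) * (b * b1) ∈ B :=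
    add_mem (one_mem _) (mul_mem (pow_mem hq _) (mul_mem hb hb1))
  have hu1 : ‖1 + q ^ (m1 + 2) * (b * b1)‖ = 1 := by
    refine LemH_norm_one_add ?_
    rw [norm_mul, norm_pow]
    exact mul_lt_one_of_nonneg_of_lt_one_left (pow_nonneg (norm_nonneg _) _)
      (pow_lt_one₀ (norm_nonneg _) hq1 (by omega)) (LemH_norm_le hB (mul_mem hb hb1))
  have hu0 : 1 + q ^ (m1 + 2) * (b * b1) ≠ 0 := fun h => by
    rw [h, norm_zero] at hu1; exact zero_ne_one hu1
  have hui := LemH_inv_mem hBl hu hu1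
  have e3 : ev x'' y'' Q = ev x y Q * (1 + q ^ (m1 + 2) * (b * b1)) := by
    have h3 : ev x'' y'' Q = ev x y Q + ev x y Q * b * q ^ (m1 + 2) * b1 := by
      rw [← e1]; ring
    rw [h3]; ring
  have e4 : ev x'' y'' P = ev x y Q * (w + q ^ (m2 + 2) * (b * b2)) := by
    have h3 : ev x'' y'' P = ev x y P + ev x y Q * b * q ^ (m2 + 2) * b2 := by
      rw [← e2]; ring
    rw [h3, ← hPQ]; ring
  refine ⟨(1 + q ^ (m1 + 2) * (b * b1))⁻¹ * (q ^ m2 * (b * b2) - w * (q ^ m1 * (b * b1))),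
    mul_mem hui (sub_mem (mul_mem (pow_mem hq _) (mul_mem hb hb2))
      (mul_mem hw (mul_mem (pow_mem hq _) (mul_mem hb hb1)))), ?_⟩
  rw [e3, e4, mul_div_mul_left _ _ hd, div_sub' hu0, div_eq_mul_inv]
  have e5 : w + q ^ (m2 + 2) * (b * b2) - (1 + q ^ (m1 + 2) * (b * b1)) * w =
      q ^ 2 * (q ^ m2 * (b * b2) - w * (q ^ m1 * (b * b1))) := by ring
  rw [e5]; ring

omit [IsUltrametricDist W] in
private theorem LemH_ev_mem {F : IntermediateField k W} {x : Fin r → W} {y : W}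
    (hx : ∀ i, x i ∈ F) (hy : y ∈ F) (P : LP k r) : ev x y P ∈ F := by
  unfold ev
  refine sum_mem fun m _ => ?_
  exact mul_mem (F.algebraMap_mem _) (mul_mem (mon_mem x hx m.1) (pow_mem hy _))

omit [IsUltrametricDist W] in
/-- transitivity of separability -/
private theorem LemH_sep_trans {E F : IntermediateField k W} (hEF : E ≤ F)
    (hF : ∀ z ∈ F, IsSeparable E z) {z : W} (hz : IsSeparable F z) : IsSeparable E z := by
  letI : Algebra E F := (IntermediateField.inclusion hEF).toRingHom.toAlgebra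
  haveI : IsScalarTower E F W := IsScalarTower.of_algebraMap_eq fun a => rfl
  haveI : Algebra.IsSeparable E F := ⟨fun w => by
    have h1 := hF (w : W) w.2
    unfold IsSeparable at h1 ⊢
    have h2 : minpoly E ((algebraMap F W) w) = minpoly E w :=
      minpoly.algebraMap_eq (algebraMap F W).injective w
    rw [← h2]
    exact h1⟩
  exact IsSeparable.of_algebra_isSeparable_of_isSeparable E hz

end aux

theorem lemH {k W : Type} [Field k] [IsAlgClosed k] [NormedField W] [IsUltrametricDist W]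
    [Algebra k W] {r : ℕ} (hA : Amb r k W) (hr : 0 < r) (S F1 : IntermediateField k W)
    (hF : FF S F1) (h : HasChart S r (cl F1)) :
    ∃ (x : Fin r → W) (y : W), Chart S (cl F1) x y ∧ (∀ i, x i ∈ F1) ∧ y ∈ F1 := by
  classical
  obtain ⟨x, y, hC⟩ := h
  obtain ⟨x2, y1, τ, hP, hτ1, hK, hF12, hτq, hx, hy, hxi, hy1, happ⟩ :=
    lemH_data hA hr S F1 hF x y hC
  set B : Subring W := Bn k x2 y1 τ with hBdef
  set q : W := ∏ i, x2 i with hqdef
  have hkB : ∀ c : k, algebraMap k W c ∈ B := fun c =>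
    le_locV _ _ (Subring.subset_closure (Or.inl (Or.inl ⟨c, rfl⟩)))
  have hx2B : ∀ i, x2 i ∈ B := fun i =>
    le_locV _ _ (Subring.subset_closure (Or.inl (Or.inr ⟨i, rfl⟩)))
  have hy1B : y1 ∈ B := le_locV _ _ (Subring.subset_closure (Or.inr (Or.inl rfl)))
  have hτB : τ ∈ B := le_locV _ _ (Subring.subset_closure (Or.inr (Or.inr rfl)))
  have hB : B ≤ (ball W).toSubring := by
    refine locV_le _ ?_
    rw [Subring.closure_le]
    rintro z ((⟨c, rfl⟩ | ⟨i, rfl⟩) | (rfl | rfl))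
    · exact norm_algebraMap_le hA c
    · exact (hP.ind.lt i).le
    · exact hP.y1.le
    · exact hτ1.le
  have hBl : locV (ball W) B = B := locV_locV _ _
  have hq : q ∈ B := prod_mem fun i _ => hx2B i
  have hq0 : q ≠ 0 := Finset.prod_ne_zero_iff.2 fun i _ => hP.ind.ne i
  -- the cofactors
  have hp : ∀ i, ∃ p ∈ B, q = x2 i * p := fun i =>
    ⟨∏ j ∈ Finset.univ.erase i, x2 j, prod_mem fun j _ => hx2B j,
      (Finset.mul_prod_erase Finset.univ x2 (Finset.mem_univ i)).symm⟩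
  choose p hpB hqp using hp
  have i0 : Fin r := ⟨0, hr⟩
  have hq1 : ‖q‖ < 1 := by
    rw [hqp i0, norm_mul]
    exact mul_lt_one_of_nonneg_of_lt_one_left (norm_nonneg _) (hP.ind.lt i0)
      (LemH_norm_le hB (hpB i0))
  have hxx : ∀ i, x i ≠ 0 ∧ x i ∈ B ∧ ∃ C : ℕ, ∃ b ∈ B, q ^ C = x i * b := fun i =>
    ⟨hC.par.ind.ne i, (hx i).1, (hx i).2⟩
  -- the Laurent polynomials
  have hPQ : ∀ i, ∃ P Q : LP k r, x2 i * ev x y Q = ev x y P ∧
      ∃ C : ℕ, ∃ b ∈ B, q ^ C = ev x y Q * b := by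
    intro i
    obtain ⟨n, hn, d, hd, hnd, hqd⟩ := hxi i
    obtain ⟨P, rfl⟩ := (mem_LL_iff x y hC.par.ind.ne n).1 hn
    obtain ⟨Q, rfl⟩ := (mem_LL_iff x y hC.par.ind.ne d).1 hd
    exact ⟨P, Q, hnd, hqd⟩
  choose P Q hPQ hQ using hPQ
  obtain ⟨P0, Q0, hPQ0, hQ0⟩ : ∃ P Q : LP k r, y1 * ev x y Q = ev x y P ∧
      ∃ C : ℕ, ∃ b ∈ B, q ^ C = ev x y Q * b := by
    obtain ⟨n, hn, d, hd, hnd, hqd⟩ := hy1
    obtain ⟨P, rfl⟩ := (mem_LL_iff x y hC.par.ind.ne n).1 hn
    obtain ⟨Q, rfl⟩ := (mem_LL_iff x y hC.par.ind.ne d).1 hd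
    exact ⟨P, Q, hnd, hqd⟩
  have hcx := fun i => LemH_quot B hB hBl hkB q hq hq0 hq1 x y hxx hy (x2 i) (hx2B i) (P i) (Q i)
    (hPQ i) (hQ i)
  choose Cx hCx using hcx
  obtain ⟨Cy, hCy⟩ := LemH_quot B hB hBl hkB q hq hq0 hq1 x y hxx hy y1 hy1B P0 Q0 hPQ0 hQ0
  obtain ⟨rx, ry, hrx, hry, hrxe, hrye⟩ := happ (∑ i, Cx i + Cy)
  have hxe : ∀ i, ∃ b ∈ B, ev rx ry (P i) / ev rx ry (Q i) - x2 i = q ^ 2 * b := fun i =>
    hCx i _ ((Finset.single_le_sum (fun _ _ => Nat.zero_le _) (Finset.mem_univ i)).trans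
      (Nat.le_add_right _ _)) rx ry hrxe hrye
  obtain ⟨b0, hb0, hye⟩ := hCy _ (Nat.le_add_left _ _) rx ry hrxe hrye
  choose bx hbx hxe using hxe
  -- the new parameters
  set xx : Fin r → W := fun i => ev rx ry (P i) / ev rx ry (Q i) with hxxdef
  set yy : W := ev rx ry P0 / ev rx ry Q0 with hyydef
  have hxxF : ∀ i, xx i ∈ F1 := fun i =>
    div_mem (LemH_ev_mem hrx hry _) (LemH_ev_mem hrx hry _)
  have hyyF : yy ∈ F1 := div_mem (LemH_ev_mem hrx hry _) (LemH_ev_mem hrx hry _)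
  -- units
  have hv : ∀ i, ∃ v ∈ B, ‖v‖ = 1 ∧ xx i = x2 i * v := by
    intro i
    refine ⟨1 + p i * q * bx i, add_mem (one_mem _) (mul_mem (mul_mem (hpB i) hq) (hbx i)),
      LemH_norm_one_add ?_, ?_⟩
    · rw [mul_comm (p i) q, mul_assoc, norm_mul]
      exact mul_lt_one_of_nonneg_of_lt_one_left (norm_nonneg _) hq1
        (LemH_norm_le hB (mul_mem (hpB i) (hbx i)))
    · have h1 : xx i = x2 i + q ^ 2 * bx i := by
        rw [← hxe i]; ring
      rw [h1, pow_two]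
      nth_rewrite 1 [hqp i]
      ring
  choose v hvB hv1 hxv using hv
  have hv0 : ∀ i, v i ≠ 0 := fun i h => by
    have := hv1 i
    rw [h, norm_zero] at this
    exact zero_ne_one this
  have hviB : ∀ i, (v i)⁻¹ ∈ B := fun i => LemH_inv_mem hBl (hvB i) (hv1 i)
  have hx2v : ∀ i, x2 i = xx i * (v i)⁻¹ := fun i => by
    rw [hxv i, mul_inv_cancel_right₀ (hv0 i)]
  have hxxB : ∀ i, xx i ∈ B := fun i => by rw [hxv i]; exact mul_mem (hx2B i) (hvB i)
  have hnx : ∀ i, ‖xx i‖ = ‖x2 i‖ := fun i => by rw [hxv i, norm_mul, hv1 i, mul_one]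
  have hind : Indep xx := by
    refine ⟨fun i => ?_, fun i => by rw [hnx i]; exact hP.ind.lt i, fun δ hδ => ?_⟩
    · rw [← norm_pos_iff, hnx i]; exact norm_pos_iff.2 (hP.ind.ne i)
    · refine hP.ind.indep δ ?_
      rw [← hδ]
      unfold mon
      rw [norm_prod, norm_prod]
      exact Finset.prod_congr rfl fun i _ => by rw [norm_zpow, norm_zpow, hnx i]
  have hyy1 : yy = y1 + q ^ 2 * b0 := by rw [← hye]; ring
  have hyyB : yy ∈ B := by
    rw [hyy1]; exact add_mem hy1B (mul_mem (pow_mem hq _) hb0)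
  have hyyn : ‖yy‖ < 1 := by
    rw [hyy1]
    refine lt_of_le_of_lt (IsUltrametricDist.norm_add_le_max _ _) (max_lt hP.y1 ?_)
    rw [norm_mul, norm_pow]
    exact mul_lt_one_of_nonneg_of_lt_one_left (pow_nonneg (norm_nonneg _) _)
      (pow_lt_one₀ (norm_nonneg _) hq1 two_ne_zero) (LemH_norm_le hB hb0)
  -- generation of the maximal ideal
  have hτx : ∃ b : Fin r → W, (∀ i, b i ∈ Bn k x2 y1 τ) ∧ τ = ∑ i, b i * x2 i := by
    obtain ⟨b, hb, hτb⟩ := hτq
    refine ⟨Pi.single i0 (p i0 * b), fun i => ?_, ?_⟩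
    · by_cases hi : i = i0
      · rw [hi, Pi.single_eq_same]; exact mul_mem (hpB i0) hb
      · rw [Pi.single_eq_of_ne hi]; exact zero_mem _
    · rw [Finset.sum_eq_single i0]
      · rw [Pi.single_eq_same, hτb, hqp i0]; ring
      · intro j _ hj
        rw [Pi.single_eq_of_ne hj, zero_mul]
      · intro hj; exact absurd (Finset.mem_univ _) hj
  set β : Option (Fin r) → W := fun o => o.elim yy xx with hβdef
  have hβB : ∀ o, β o ∈ B := by
    intro o
    cases o with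
    | none => exact hyyB
    | some i => exact hxxB i
  have hβ1 : ∀ o, ‖β o‖ < 1 := by
    intro o
    cases o with
    | none => exact hyyn
    | some i => exact hind.lt i
  have hgen : ∀ z ∈ B, ‖z‖ < 1 → ∃ b : Option (Fin r) → W, (∀ o, b o ∈ B) ∧
      z = ∑ o, b o * β o := by
    intro z hz hz1
    obtain ⟨b, c, hb, hc, hzb⟩ := Bn_gen hA hP.ind hP.y1 hτ1 hτx z hz hz1
    refine ⟨fun o => o.elim c (fun i => b i * (v i)⁻¹ +
      (Pi.single i0 (-(c * ((v i0)⁻¹ * (p i0 * (q * b0))))) : Fin r → W) i), ?_, ?_⟩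
    · intro o
      cases o with
      | none => exact hc
      | some i =>
        refine add_mem (mul_mem (hb i) (hviB i)) ?_
        by_cases hi : i = i0
        · rw [hi, Pi.single_eq_same]
          exact neg_mem (mul_mem hc (mul_mem (hviB i0) (mul_mem (hpB i0) (mul_mem hq hb0))))
        · rw [Pi.single_eq_of_ne hi]; exact zero_mem _
    · rw [Fintype.sum_option]
      show z = c * yy + ∑ i, (b i * (v i)⁻¹ +
        (Pi.single i0 (-(c * ((v i0)⁻¹ * (p i0 * (q * b0))))) : Fin r → W) i) * xx i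
      have h1 : ∀ i, (b i * (v i)⁻¹ +
          (Pi.single i0 (-(c * ((v i0)⁻¹ * (p i0 * (q * b0))))) : Fin r → W) i) * xx i =
          b i * x2 i +
          (Pi.single i0 (-(c * ((v i0)⁻¹ * (p i0 * (q * b0))))) : Fin r → W) i * xx i := by
        intro i
        rw [add_mul, hx2v i]; ring
      rw [Finset.sum_congr rfl fun i _ => h1 i, Finset.sum_add_distrib,
        Finset.sum_eq_single (s := Finset.univ) (f := fun i =>
          (Pi.single i0 (-(c * ((v i0)⁻¹ * (p i0 * (q * b0))))) : Fin r → W) i * xx i) i0]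
      · rw [Pi.single_eq_same]
        have h2 : q ^ 2 * b0 = xx i0 * ((v i0)⁻¹ * (p i0 * (q * b0))) := by
          rw [← mul_assoc (xx i0), ← hx2v i0, ← mul_assoc (x2 i0), ← hqp i0]; ring
        rw [hzb, hyy1, h2]; ring
      · intro j _ hj
        show (Pi.single i0 _ : Fin r → W) j * xx j = 0
        rw [Pi.single_eq_of_ne hj, zero_mul]
      · intro hj; exact absurd (Finset.mem_univ _) hj
  have hrange : Set.range β = Set.range xx ∪ {yy} := by
    ext z
    constructor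
    · rintro ⟨o, rfl⟩
      cases o with
      | none => exact Or.inr rfl
      | some i => exact Or.inl ⟨i, rfl⟩
    · rintro (⟨i, rfl⟩ | rfl)
      · exact ⟨some i, rfl⟩
      · exact ⟨none, rfl⟩
  have hadj : IntermediateField.adjoin k (Set.range β) = Kxy k xx yy := by
    rw [hrange]; rfl
  -- density
  have hBcl : ∀ z ∈ B, z ∈ cl (Kxy k xx yy) := fun z hz => by
    have h1 := dens hA B hB hkB β hβB hβ1 hgen z hz
    rwa [hadj] at h1
  have hF1le : F1 ≤ Kxy k x2 y1 ⊔ IntermediateField.adjoin k {τ} := by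
    rw [hK, ← hF12]; exact le_sup_left
  have hsup : Kxy k x2 y1 ⊔ IntermediateField.adjoin k {τ} ≤ cl (Kxy k xx yy) := by
    refine sup_le (Kxy_le x2 y1 (fun i => hBcl _ (hx2B i)) (hBcl _ hy1B)) ?_
    rw [IntermediateField.adjoin_le_iff, Set.singleton_subset_iff]
    exact hBcl _ hτB
  have hdense : cl F1 ≤ cl (Kxy k xx yy) := cl_le_of_le_cl (hF1le.trans hsup)
  -- separability
  set G : Finset W := (Finset.univ.image x2) ∪ {y1, τ} with hGdef
  have hGset : (Set.range (algebraMap k W) ∪ (G : Set W)) =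
      ((Set.range (algebraMap k W) ∪ Set.range x2) ∪ {y1, τ}) := by
    rw [hGdef]
    push_cast
    rw [Set.image_univ, Set.union_assoc]
  have hGB : locV (ball W) (Subring.closure (Set.range (algebraMap k W) ∪ (G : Set W))) = B := by
    rw [hGset, hBdef]; rfl
  have hGn : ∀ g ∈ G, ‖g‖ ≤ 1 := by
    intro g hg
    rw [hGdef, Finset.mem_union, Finset.mem_image, Finset.mem_insert, Finset.mem_singleton] at hg
    rcases hg with ⟨i, _, rfl⟩ | rfl | rfl
    · exact (hP.ind.lt i).le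
    · exact hP.y1.le
    · exact hτ1.le
  have hsepG : ∀ z ∈ IntermediateField.adjoin k (G : Set W), IsSeparable (Kxy k xx yy) z := by
    intro z hz
    have h1 := unram hA G hGn β (by rw [hGB]; exact hβB) hβ1 (by rw [hGB]; exact hgen) z hz
    rwa [hadj] at h1
  have hGle : Kxy k x2 y1 ⊔ IntermediateField.adjoin k {τ} ≤
      IntermediateField.adjoin k (G : Set W) := by
    have hmem : ∀ g ∈ G, g ∈ IntermediateField.adjoin k (G : Set W) := fun g hg =>
      IntermediateField.subset_adjoin k _ hg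
    refine sup_le (Kxy_le x2 y1 (fun i => hmem _ ?_) (hmem _ ?_)) ?_
    · rw [hGdef]
      exact Finset.mem_union_left _ (Finset.mem_image_of_mem _ (Finset.mem_univ i))
    · rw [hGdef]
      exact Finset.mem_union_right _ (Finset.mem_insert_self _ _)
    · rw [IntermediateField.adjoin_le_iff, Set.singleton_subset_iff]
      refine hmem _ ?_
      rw [hGdef]
      exact Finset.mem_union_right _ (Finset.mem_insert_of_mem (Finset.mem_singleton_self _))
  have hKF : Kxy k xx yy ≤ F1 := Kxy_le xx yy hxxF hyyF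
  have hsepF : ∀ z ∈ F1, IsSeparable (Kxy k xx yy) z := fun z hz => hsepG z (hGle (hF1le hz))
  have hpar : Par k xx yy := by
    refine ⟨hind, hyyn, ?_⟩
    refine tr_of_algebraic x2 y1 hP.ind.ne hP.tr xx yy hind.ne (fun i => ?_) ?_
    · exact (hsepG _ (hGle (le_sup_left (a := Kxy k x2 y1) (x_mem_Kxy x2 y1 i)))).isIntegral.isAlgebraic
    · exact (hsepG _ (hGle (le_sup_left (a := Kxy k x2 y1) (y_mem_Kxy x2 y1)))).isIntegral.isAlgebraic
  exact ⟨xx, yy, ⟨hpar, fun i => hF.le (hxxF i), hF.le hyyF, fun i => le_cl F1 (hxxF i),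
    le_cl F1 hyyF, hdense, fun z hz => LemH_sep_trans hKF hsepF (hF.sep z hz)⟩, hxxF, hyyF⟩

end Pool.Agent.Lib.TDO
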