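import Mathlib

/-!
# Module DiffRank

Use `exists_isTranscendenceBasis_and_isSeparable_of_perfectField`: a separating transcendence basis
`s`.  Generators: `Ω[F⁄k(s)] = 0` as `F / k(s)` is separable, so the `D t`, `t ∈ s`, span.  Independence:
the derivations `∂/∂t` of the rational function field `k(s)` extend to the separable extension `F`
(formally etale: `Algebra.FormallyEtale.of_isSeparable`; then `Ω[F⁄k] = F ⊗ Ω[k(s)⁄k]`), and
`Ω` of the polynomial ring is free (`KaehlerDifferential.mvPolynomialBasis`), localization.
-/

namespace Pool.Agent.Lib.TDO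

open scoped IntermediateField.algebraAdjoinAdjoin in
private lemma formallyEtale_adjoin {k F : Type} [Field k] [Field F] [Algebra k F] {ι : Type}
    (v : ι → F) [Algebra.IsSeparable (IntermediateField.adjoin k (Set.range v)) F] :
    Algebra.FormallyEtale (Algebra.adjoin k (Set.range v)) F := by
  have h1 : Algebra.FormallyEtale (Algebra.adjoin k (Set.range v))
      (IntermediateField.adjoin k (Set.range v)) :=
    .of_isLocalization (nonZeroDivisors _)
  have h2 : Algebra.FormallyEtale (IntermediateField.adjoin k (Set.range v)) F :=
    Algebra.FormallyEtale.of_isSeparable _ F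
  exact .comp _ (IntermediateField.adjoin k (Set.range v)) _

private lemma finrank_of_basis {k F : Type} [Field k] [Field F] [Algebra k F] {ι : Type}
    [Fintype ι] (v : ι → F) (hv : AlgebraicIndependent k v)
    (het : Algebra.FormallyEtale (Algebra.adjoin k (Set.range v)) F) :
    Module.finrank F (Ω[F⁄k]) = Fintype.card ι := by
  let _ : Algebra (MvPolynomial ι k) (Algebra.adjoin k (Set.range v)) :=
    (hv.aevalEquiv : MvPolynomial ι k →+* Algebra.adjoin k (Set.range v)).toAlgebra
  let _ : Algebra (MvPolynomial ι k) F :=
    ((algebraMap (Algebra.adjoin k (Set.range v)) F).comp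
      (hv.aevalEquiv : MvPolynomial ι k →+* Algebra.adjoin k (Set.range v))).toAlgebra
  have : IsScalarTower (MvPolynomial ι k) (Algebra.adjoin k (Set.range v)) F :=
    IsScalarTower.of_algebraMap_eq (fun _ => rfl)
  have : IsScalarTower k (MvPolynomial ι k) F := by
    refine IsScalarTower.of_algebraMap_eq (fun c => ?_)
    have h1 : algebraMap (MvPolynomial ι k) F (algebraMap k (MvPolynomial ι k) c) =
      algebraMap (Algebra.adjoin k (Set.range v)) F (hv.aevalEquiv (algebraMap k _ c)) := rfl
    rw [h1, AlgEquiv.commutes]
    rfl
  have e : MvPolynomial ι k ≃ₐ[MvPolynomial ι k] Algebra.adjoin k (Set.range v) :=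
    AlgEquiv.ofRingEquiv (f := hv.aevalEquiv.toRingEquiv) (fun x => rfl)
  have h1 : Algebra.FormallyEtale (MvPolynomial ι k) (Algebra.adjoin k (Set.range v)) :=
    Algebra.FormallyEtale.of_equiv e
  have h2 : Algebra.FormallyEtale (MvPolynomial ι k) F :=
    Algebra.FormallyEtale.comp _ (Algebra.adjoin k (Set.range v)) _
  have e2 := KaehlerDifferential.tensorKaehlerEquivOfFormallyEtale k (MvPolynomial ι k) F
  have b := (KaehlerDifferential.mvPolynomialBasis k ι).baseChange F
  rw [← e2.finrank_eq, Module.finrank_eq_card_basis b]

/-- The module of differentials of a finitely generated extension of an algebraically closed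
(perfect) field has dimension the transcendence degree. -/
theorem diff_rank {k F : Type} [Field k] [PerfectField k] [Field F] [Algebra k F]
    [Algebra.EssFiniteType k F] (n : ℕ) (htr : Algebra.trdeg k F = n) :
    Module.finrank F (Ω[F⁄k]) = n := by
  classical
  obtain ⟨s, hs, hsep⟩ := exists_isTranscendenceBasis_and_isSeparable_of_perfectField k F
  have hrange : Set.range ((↑) : s → F) = (s : Set F) := by simp
  have hsep' : Algebra.IsSeparable (IntermediateField.adjoin k (Set.range ((↑) : s → F))) F := by
    rw [hrange]; exact hsep
  have h1 := finrank_of_basis ((↑) : s → F) hs.1 (formallyEtale_adjoin _)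
  rw [h1]
  have h2 := hs.cardinalMk_eq_trdeg
  rw [htr, Cardinal.mk_fintype] at h2
  exact_mod_cast h2

end Pool.Agent.Lib.TDO
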