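import Mathlib

/-!
# Module SepDiff

`E = k(s)`: `Ω[F⁄E]` is the quotient of `Ω[F⁄k]` by the span of the `D e`, `e ∈ E`, so it vanishes;
`F` is essentially of finite type over `E`; `Algebra.FormallyUnramified.iff_isSeparable`.
-/

namespace Pool.Agent.Lib.TDO

/-- A spanning family of differentials gives a separating transcendence basis. -/
theorem sep_of_diff {k F : Type} [Field k] [Field F] [Algebra k F] [Algebra.EssFiniteType k F]
    (s : Set F) (hs : Submodule.span F (KaehlerDifferential.D k F '' s) = ⊤) (z : F) :
    IsSeparable (IntermediateField.adjoin k s) z := by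
  set E := IntermediateField.adjoin k s with hE
  have hess : Algebra.EssFiniteType E F := Algebra.EssFiniteType.of_comp k E F
  have hmap : ∀ x : F, KaehlerDifferential.map k E F F (KaehlerDifferential.D k F x) =
      KaehlerDifferential.D E F x := by
    intro x
    rw [KaehlerDifferential.map_D]
    rfl
  have hzero : ∀ ω : Ω[F⁄k], KaehlerDifferential.map k E F F ω = 0 := by
    intro ω
    have hω : ω ∈ Submodule.span F (KaehlerDifferential.D k F '' s) := by
      rw [hs]; exact Submodule.mem_top
    induction hω using Submodule.span_induction with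
    | mem x hx =>
      obtain ⟨y, hy, rfl⟩ := hx
      rw [hmap]
      have hyE : y ∈ E := IntermediateField.subset_adjoin k s hy
      have : algebraMap E F ⟨y, hyE⟩ = y := rfl
      rw [← this]
      exact Derivation.map_algebraMap _ _
    | zero => exact map_zero _
    | add x y _ _ hx hy => rw [map_add, hx, hy, add_zero]
    | smul a x _ hx => rw [map_smul, hx, smul_zero]
  have hD : ∀ x : F, KaehlerDifferential.D E F x = 0 := by
    intro x
    rw [← hmap, hzero]
  have hsub : Subsingleton (Ω[F⁄E]) := by
    have hspan := KaehlerDifferential.span_range_derivation E F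
    have hbot : (⊤ : Submodule F (Ω[F⁄E])) = ⊥ := by
      rw [← hspan, Submodule.span_eq_bot]
      rintro x ⟨y, rfl⟩
      exact hD y
    exact (Submodule.subsingleton_iff F).1 (subsingleton_of_bot_eq_top hbot.symm)
  have hunr : Algebra.FormallyUnramified E F := ⟨hsub⟩
  have := (Algebra.FormallyUnramified.iff_isSeparable E F).1 hunr
  exact Algebra.IsSeparable.isSeparable E z

end Pool.Agent.Lib.TDO
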