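import Pool.Agent.Lib.TDO.Tr
import Pool.Agent.Lib.TDO.DiffRank
import Pool.Agent.Lib.TDO.SepDiff

/-!
# Module Start: the first chart

`F / k` finitely generated of transcendence degree `r + 1`, `k` algebraically closed.
(1) `exists_isTranscendenceBasis_and_isSeparable_of_perfectField`: a separating transcendence
basis, so `Ω[F⁄k]` has dimension `r + 1` (generated by the `D s`: `F` is formally unramified over
`k(s)`; and independent: extend the derivations of the rational function field `k(s)` to the
separable extension `F`; Mathlib may have this: `rank` of `Ω` in terms of `trdeg`, formally smooth /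
etale over `MvPolynomial`).  (`diff_basis`.)
(2) Elements `s` of `F` with `‖s‖ ≤ 1` or `s⁻¹`, minus constants: the `D s` with `‖s‖ < 1` span
`Ω[F⁄k]` (`D s⁻¹ = - s⁻² D s`).
(3) Given independent `x`: construct `x' i = x i * u i`, `u i ∈ {1} ∪ {1 + s : ‖s‖ < 1}` with
`D x' 0, .., D x' (r-1)` linearly independent: if `D (x i)` is in the span `V` of the previous ones
choose `s`, `‖s‖ < 1`, with `D s ∉ V` (possible as `dim V < r + 1`): `D (x i (1+s)) = (1+s) D (x i) +
x i D s ∉ V`.  Then `y = s` with `D s` not in the span: `D x' 0, .., D x' (r-1), D y` is a basis of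
`Ω[F⁄k]`, so `Ω[F⁄k(x', y)] = 0`: formally unramified, and `F / k(x', y)` essentially of finite type, hence
separable algebraic (`Algebra.FormallyUnramified.iff_isSeparable`).
`‖mon x' a‖ = ‖mon x a‖`, so `x'` is independent.
-/

namespace Pool.Agent.Lib.TDO

open Pool.Agent.Lib.MP_3029eb_ag Pool.Agent.Lib.MP_3029eb_ag.Abh

section aux

variable {k F : Type} [Field k] [NormedField F] [IsUltrametricDist F] [Algebra k F] {r : ℕ}

/-- the differentials of the elements of norm less than one span -/
private lemma start_span (hF : Amb r k F) (V : Submodule F (Ω[F⁄k])) (hV : V ≠ ⊤) :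
    ∃ s : F, ‖s‖ < 1 ∧ KaehlerDifferential.D k F s ∉ V := by
  by_contra hcon
  push Not at hcon
  apply hV
  rw [eq_top_iff, ← KaehlerDifferential.span_range_derivation, Submodule.span_le]
  rintro _ ⟨z, rfl⟩
  rcases le_or_gt ‖z‖ 1 with h | h
  · obtain ⟨c, hc⟩ := hF.res z h
    have h1 := hcon _ hc
    rw [map_sub, Derivation.map_algebraMap, sub_zero] at h1
    exact h1
  · have hz0 : z ≠ 0 := by
      intro h0; rw [h0, norm_zero] at h; linarith
    have h1 : ‖z⁻¹‖ < 1 := by
      rw [norm_inv]
      exact inv_lt_one_of_one_lt₀ h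
    have h2 := hcon _ h1
    have h3 : KaehlerDifferential.D k F z = -(z ^ 2) • KaehlerDifferential.D k F z⁻¹ := by
      rw [Derivation.leibniz_inv, smul_smul]
      have h4 : -z ^ 2 * -z⁻¹ ^ 2 = 1 := by
        field_simp
      rw [h4, one_smul]
    rw [SetLike.mem_coe, h3]
    exact V.smul_mem _ h2

/-- adjust the parameters by units so that the differentials become independent -/
private lemma start_units (hF : Amb r k F) [Algebra.EssFiniteType k F]
    (hdim : Module.finrank F (Ω[F⁄k]) = r + 1) (x : Fin r → F) (hx : ∀ i, x i ≠ 0)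
    (t : Finset (Fin r)) : ∃ u : Fin r → F, (∀ i, ‖u i‖ = 1) ∧
      LinearIndepOn F (fun i => KaehlerDifferential.D k F (x i * u i)) (t : Set (Fin r)) := by
  classical
  induction t using Finset.induction_on with
  | empty => exact ⟨fun _ => 1, fun _ => norm_one, by simp⟩
  | insert a t hat ih =>
    obtain ⟨u, hu, hli⟩ := ih
    set v : Fin r → Ω[F⁄k] := fun i => KaehlerDifferential.D k F (x i * u i) with hv
    set V : Submodule F (Ω[F⁄k]) := Submodule.span F (v '' (t : Set (Fin r))) with hV
    have hVtop : V ≠ ⊤ := by
      intro htop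
      have h1 : Module.finrank F V ≤ t.card := by
        have h2 : (v '' (t : Set (Fin r))) = ((t.image v : Finset (Ω[F⁄k])) : Set (Ω[F⁄k])) := by
          rw [Finset.coe_image]
        rw [hV, h2]
        exact (finrank_span_finset_le_card _).trans Finset.card_image_le
      have h3 : Module.finrank F V = r + 1 := by rw [htop, finrank_top, hdim]
      have h4 : t.card ≤ r := by
        have := Finset.card_le_univ t
        rwa [Fintype.card_fin] at this
      omega
    obtain ⟨c, hc1, hc⟩ : ∃ c : F, ‖c‖ = 1 ∧ KaehlerDifferential.D k F (x a * c) ∉ V := by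
      by_cases h : KaehlerDifferential.D k F (x a) ∈ V
      · obtain ⟨s, hs, hsV⟩ := start_span hF V hVtop
        refine ⟨1 + s, ?_, ?_⟩
        · have h5 : ‖(1 : F)‖ ≠ ‖s‖ := by rw [norm_one]; exact hs.ne'
          rw [IsUltrametricDist.norm_add_eq_max_of_norm_ne_norm h5, norm_one, max_eq_left hs.le]
        · intro hmem
          rw [Derivation.leibniz, map_add, Derivation.map_one_eq_zero, zero_add] at hmem
          have h6 : x a • KaehlerDifferential.D k F s ∈ V := by
            have h7 := V.sub_mem hmem (V.smul_mem (1 + s) h)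
            rwa [add_sub_cancel_right] at h7
          exact hsV ((V.smul_mem_iff (hx a)).1 h6)
      · exact ⟨1, norm_one, by rwa [mul_one]⟩
    refine ⟨Function.update u a c, ?_, ?_⟩
    · intro i
      by_cases hi : i = a
      · subst hi; rw [Function.update_self]; exact hc1
      · rw [Function.update_of_ne hi]; exact hu i
    · rw [Finset.coe_insert]
      have hcongr : Set.EqOn (fun i => KaehlerDifferential.D k F (x i * Function.update u a c i)) v
          (t : Set (Fin r)) := by
        intro i hi
        have hia : i ≠ a := by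
          rintro rfl
          exact hat (Finset.mem_coe.1 hi)
        simp only [hv, Function.update_of_ne hia]
      refine LinearIndepOn.insert (hli.congr hcongr.symm) ?_
      rw [Set.EqOn.image_eq hcongr]
      simp only [Function.update_self]
      exact hc

end aux

theorem exists_start {k F : Type} [Field k] [IsAlgClosed k] [NormedField F]
    [IsUltrametricDist F] [Algebra k F] [Algebra.EssFiniteType k F] {r : ℕ} (hF : Amb r k F)
    (htr : Algebra.trdeg k F = (r + 1 : ℕ)) (x : Fin r → F) (hx : Indep x) :
    ∃ (x' : Fin r → F) (y : F), Par k x' y ∧ ∀ z : F, IsSeparable (Kxy k x' y) z := by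
  classical
  have hdim : Module.finrank F (Ω[F⁄k]) = r + 1 := diff_rank (r + 1) htr
  obtain ⟨u, hu, hli⟩ := start_units hF hdim x hx.ne Finset.univ
  rw [Finset.coe_univ, linearIndepOn_univ_iff] at hli
  set x' : Fin r → F := fun i => x i * u i with hx'
  have hu0 : ∀ i, u i ≠ 0 := by
    intro i h; have := hu i; rw [h, norm_zero] at this; exact zero_ne_one this
  set V : Submodule F (Ω[F⁄k]) :=
    Submodule.span F (Set.range (fun i => KaehlerDifferential.D k F (x' i))) with hV
  have hVtop : V ≠ ⊤ := by
    intro htop
    have h1 : Module.finrank F V = r := by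
      rw [hV, finrank_span_eq_card hli, Fintype.card_fin]
    have h3 : Module.finrank F V = r + 1 := by rw [htop, finrank_top, hdim]
    omega
  obtain ⟨y, hy1, hyV⟩ := start_span hF V hVtop
  set w : Option (Fin r) → Ω[F⁄k] := fun o => o.elim (KaehlerDifferential.D k F y)
    (fun i => KaehlerDifferential.D k F (x' i)) with hw
  have hwli : LinearIndependent F w := by
    rw [linearIndependent_option]
    exact ⟨hli, hyV⟩
  have hspan : Submodule.span F (Set.range w) = ⊤ := by
    apply hwli.span_eq_top_of_card_eq_finrank
    rw [Fintype.card_option, Fintype.card_fin, hdim]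
  have himage : KaehlerDifferential.D k F '' (Set.range x' ∪ {y}) = Set.range w := by
    ext ω
    constructor
    · rintro ⟨z, (⟨i, rfl⟩ | hz), rfl⟩
      · exact ⟨some i, rfl⟩
      · rw [Set.mem_singleton_iff] at hz
        subst hz
        exact ⟨none, rfl⟩
    · rintro ⟨o, rfl⟩
      cases o with
      | none => exact ⟨y, Or.inr rfl, rfl⟩
      | some i => exact ⟨x' i, Or.inl ⟨i, rfl⟩, rfl⟩
  have hsep : ∀ z : F, IsSeparable (Kxy k x' y) z := by
    intro z
    apply sep_of_diff
    rw [himage, hspan]
  have hmon : ∀ a : Fin r → ℤ, ‖mon x' a‖ = ‖mon x a‖ := by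
    intro a
    unfold MP_3029eb_ag.Abh.mon
    rw [norm_prod, norm_prod]
    refine Finset.prod_congr rfl (fun i _ => ?_)
    rw [norm_zpow, norm_zpow, hx', norm_mul, hu, mul_one]
  have hind : Indep x' := by
    refine ⟨fun i => mul_ne_zero (hx.ne i) (hu0 i), fun i => ?_, fun δ hδ => ?_⟩
    · rw [hx', norm_mul, hu, mul_one]; exact hx.lt i
    · exact hx.indep δ (by rw [← hmon]; exact hδ)
  refine ⟨x', y, ⟨hind, hy1, ?_⟩, hsep⟩
  rw [tr_iff x' y hind.ne]
  set v : Option (Fin r) → F := fun o => o.elim y x' with hv
  have hrange : Set.range v = Set.range x' ∪ {y} := by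
    ext z
    constructor
    · rintro ⟨o, rfl⟩
      cases o with
      | none => exact Or.inr rfl
      | some i => exact Or.inl ⟨i, rfl⟩
    · rintro (⟨i, rfl⟩ | hz)
      · exact ⟨some i, rfl⟩
      · rw [Set.mem_singleton_iff] at hz
        subst hz
        exact ⟨none, rfl⟩
  have halg : Algebra.IsAlgebraic (Algebra.adjoin k (Set.range v)) F := by
    refine ⟨fun z => ?_⟩
    have h3 : IsAlgebraic (IntermediateField.adjoin k (Set.range v)) z := by
      rw [hrange]
      exact (hsep z).isIntegral.isAlgebraic
    exact IntermediateField.isAlgebraic_adjoin_iff.1 h3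
  have hle : Cardinal.mk (Option (Fin r)) ≤ Algebra.trdeg k F := by
    rw [htr, Cardinal.mk_fintype, Fintype.card_option, Fintype.card_fin]
  exact (Algebra.IsAlgebraic.isTranscendenceBasis_of_le_trdeg_of_finite k v hle).1

end Pool.Agent.Lib.TDO
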