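import Pool.Agent.Lib.TDO.ThmA2
import Pool.Agent.Lib.TDO.Um
import Pool.Agent.Lib.TDO.Tr
import Pool.Agent.Lib.TDO.Cl

/-!
# Module Kummer: the Kummer step

Proof.  Let `(x, y)` be a chart of `L`, `u = w^l ∈ L`, `u ≠ 0` (otherwise trivial).  Approximate
`u` by `g ∈ Kxy x y` with `‖u - g‖ < ‖u‖`, `thmA`: after refining, `g = mon x b * v`, `v` a unit of
`OO`, hence (residue) `u = c mon x b (1 + δ)`, `c ∈ k`, `c ≠ 0`, `δ ∈ L`, `‖δ‖ < 1`.  `c (1 + δ)` has
an `l`-th root `t ∈ L` (`k` algebraically closed; `1 + δ` has an `l`-th root in the complete field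
`L` by Newton/Hensel, since `l` is invertible: `one_root`).  `w1 := w / t`, `w1^l = mon x b`,
`L(w1) = L(w)`; `w1 ∈ S` (`T^l - mon x b` is separable).
If `b = l • b'`: `(w1 / mon x b')^l = 1`, so `w1 ∈ L` (roots of unity are in `k`).
Otherwise minimality holds (as in CaseA) and `exists_um` for `(x, w1)`, `e = l`, `B = b`:
`η = w1^l * mon x (-b) = 1`, so `x i = mon x' (T(single i 1, 0)).1`, `w1 = mon x' (..)`,
`x' i = mon x a * w1^j`: `Kxy x' y = Kxy x y (w1)`.  Chart `(x', y)`: density, separability are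
clear; `Par k x' y` by `tr_of_algebraic`.
-/

namespace Pool.Agent.Lib.TDO

open Pool.Agent.Lib.MP_3029eb_ag Pool.Agent.Lib.MP_3029eb_ag.Abh

private theorem kummer_sub_le {W : Type} [NormedField W] [IsUltrametricDist W] (x y : W) :
    ‖x - y‖ ≤ max ‖x‖ ‖y‖ := by
  have h := IsUltrametricDist.norm_add_le_max x (-y)
  rwa [norm_neg, ← sub_eq_add_neg] at h

private theorem kummer_one_sub_pow {W : Type} [NormedField W] [IsUltrametricDist W] {a : W}
    {ρ : ℝ} (hρ1 : ρ ≤ 1) (ha : ‖a - 1‖ ≤ ρ) (n : ℕ) :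
    ‖a ^ n - 1‖ ≤ ρ := by
  have hρ0 : 0 ≤ ρ := (norm_nonneg _).trans ha
  have ha1 : ‖a‖ ≤ 1 := by
    have h : a = (a - 1) + 1 := by ring
    rw [h]
    exact (IsUltrametricDist.norm_add_le_max _ _).trans (max_le (ha.trans hρ1) (by simp))
  induction n with
  | zero => simpa using hρ0
  | succ n ih =>
    have h : a ^ (n + 1) - 1 = a * (a ^ n - 1) + (a - 1) := by ring
    rw [h]
    refine (IsUltrametricDist.norm_add_le_max _ _).trans (max_le ?_ ha)
    rw [norm_mul]
    calc ‖a‖ * ‖a ^ n - 1‖ ≤ 1 * ρ := by gcongr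
      _ = ρ := one_mul ρ

/-- `l`-th roots of `1 + δ` in a complete subfield, `l` invertible of norm one. -/
theorem one_root {k W : Type} [Field k] [NormedField W] [IsUltrametricDist W]
    [Algebra k W] {r : ℕ} (hA : Amb r k W) (l : ℕ) (hl : (l : k) ≠ 0)
    {L : IntermediateField k W} (hL : IsComplete (L : Set W)) {δ : W} (hδ : δ ∈ L)
    (h1 : ‖δ‖ < 1) : ∃ t ∈ L, ‖t‖ < 1 ∧ (1 + t) ^ l = 1 + δ := by
  have hln : ‖(l : W)‖ = 1 := by
    have := hA.unit (l : k) hl
    rwa [map_natCast] at this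
  have hl0 : (l : W) ≠ 0 := by
    intro h
    rw [h, norm_zero] at hln
    exact zero_ne_one hln
  set ρ : ℝ := ‖δ‖ with hρ
  have hρ0 : 0 ≤ ρ := norm_nonneg _
  set Φ : W → W := fun t => t - ((1 + t) ^ l - 1 - δ) / l with hΦ
  set s : Set W := (L : Set W) ∩ Metric.closedBall 0 ρ with hs
  have hsc : IsComplete s := by
    intro f hf hfs
    obtain ⟨x, hx, hfx⟩ := hL f hf (hfs.trans (Filter.principal_mono.2 Set.inter_subset_left))
    refine ⟨x, ⟨hx, ?_⟩, hfx⟩
    exact isClosed_iff_forall_filter.1 Metric.isClosed_closedBall x f hf.1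
      (hfs.trans (Filter.principal_mono.2 Set.inter_subset_right)) hfx
  have hmem : ∀ t ∈ s, t ∈ L ∧ ‖t‖ ≤ ρ := by
    intro t ht
    exact ⟨ht.1, by simpa using ht.2⟩
  -- the contraction estimate
  have hcontr : ∀ t u : W, ‖t‖ ≤ ρ → ‖u‖ ≤ ρ → ‖Φ t - Φ u‖ ≤ ρ * ‖t - u‖ := by
    intro t u ht hu
    have hgeom : (1 + t) ^ l - (1 + u) ^ l =
        (∑ i ∈ Finset.range l, (1 + t) ^ i * (1 + u) ^ (l - 1 - i)) * (t - u) := by
      have h := (Commute.all (1 + t) (1 + u)).geom_sum₂_mul l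
      rw [← h]
      ring
    have h2 : Φ t - Φ u = (t - u) * (((l : W) -
        ∑ i ∈ Finset.range l, (1 + t) ^ i * (1 + u) ^ (l - 1 - i)) / l) := by
      have h3 : Φ t - Φ u = (t - u) - ((1 + t) ^ l - (1 + u) ^ l) / l := by
        simp only [hΦ]; ring
      rw [h3, hgeom]
      field_simp
    have h4 : (l : W) - ∑ i ∈ Finset.range l, (1 + t) ^ i * (1 + u) ^ (l - 1 - i) =
        ∑ i ∈ Finset.range l, (1 - (1 + t) ^ i * (1 + u) ^ (l - 1 - i)) := by
      rw [Finset.sum_sub_distrib]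
      simp
    rw [h2, norm_mul, norm_div, hln, div_one, mul_comm, h4]
    refine mul_le_mul_of_nonneg_right ?_ (norm_nonneg _)
    refine IsUltrametricDist.norm_sum_le_of_forall_le_of_nonneg hρ0 fun i _ => ?_
    have e1 : ‖(1 + t) ^ i - 1‖ ≤ ρ :=
      kummer_one_sub_pow h1.le (by rwa [add_sub_cancel_left]) i
    have e2 : ‖(1 + u) ^ (l - 1 - i) - 1‖ ≤ ρ :=
      kummer_one_sub_pow h1.le (by rwa [add_sub_cancel_left]) _
    have e3 : ‖(1 + u) ^ (l - 1 - i)‖ ≤ 1 := by
      have h : (1 + u) ^ (l - 1 - i) = ((1 + u) ^ (l - 1 - i) - 1) + 1 := by ring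
      rw [h]
      exact (IsUltrametricDist.norm_add_le_max _ _).trans (max_le (e2.trans h1.le) (by simp))
    have h5 : 1 - (1 + t) ^ i * (1 + u) ^ (l - 1 - i) =
        -(((1 + t) ^ i - 1) * (1 + u) ^ (l - 1 - i) + ((1 + u) ^ (l - 1 - i) - 1)) := by ring
    rw [h5, norm_neg]
    refine (IsUltrametricDist.norm_add_le_max _ _).trans (max_le ?_ e2)
    rw [norm_mul]
    calc ‖(1 + t) ^ i - 1‖ * ‖(1 + u) ^ (l - 1 - i)‖ ≤ ρ * 1 := by gcongr
      _ = ρ := mul_one ρ
  have hΦ0 : Φ 0 = δ / l := by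
    simp only [hΦ]
    simp [neg_div]
  have hΦs : Set.MapsTo Φ s s := by
    intro t ht
    obtain ⟨htL, htn⟩ := hmem t ht
    have hΦL : Φ t ∈ L := by
      simp only [hΦ]
      exact sub_mem htL (div_mem (sub_mem (sub_mem (pow_mem (add_mem (one_mem L) htL) l)
        (one_mem L)) hδ) (natCast_mem L l))
    refine ⟨hΦL, ?_⟩
    rw [mem_closedBall_zero_iff]
    have h2 := hcontr t 0 htn (by rw [norm_zero]; exact hρ0)
    have h3 : Φ t = (Φ t - Φ 0) + Φ 0 := by ring
    rw [h3]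
    refine (IsUltrametricDist.norm_add_le_max _ _).trans (max_le (h2.trans ?_) ?_)
    · rw [sub_zero]
      calc ρ * ‖t‖ ≤ 1 * ρ := by gcongr
        _ = ρ := one_mul ρ
    · rw [hΦ0, norm_div, hln, div_one]
  have hK : ContractingWith ⟨ρ, hρ0⟩ (hΦs.restrict Φ s s) := by
    refine ⟨by exact_mod_cast h1, ?_⟩
    refine LipschitzWith.of_dist_le_mul fun a b => ?_
    obtain ⟨_, ha⟩ := hmem a a.2
    obtain ⟨_, hb⟩ := hmem b b.2
    change dist (Φ a) (Φ b) ≤ ρ * dist (a : W) (b : W)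
    rw [dist_eq_norm, dist_eq_norm]
    exact hcontr a b ha hb
  have h0s : (0 : W) ∈ s := ⟨zero_mem L, by simpa using hρ0⟩
  obtain ⟨t, hts, hfix, -⟩ := ContractingWith.exists_fixedPoint' hsc hΦs hK h0s
    (edist_ne_top _ _)
  obtain ⟨htL, htn⟩ := hmem t hts
  refine ⟨t, htL, lt_of_le_of_lt htn h1, ?_⟩
  have h2 : t - ((1 + t) ^ l - 1 - δ) / l = t := hfix
  have h3 : ((1 + t) ^ l - 1 - δ) / l = 0 := by
    have := sub_eq_self.1 h2
    exact this
  rw [div_eq_zero_iff] at h3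
  rcases h3 with h3 | h3
  · linear_combination h3
  · exact absurd h3 hl0

private theorem kummer_root_of_unity {k W : Type} [Field k] [IsAlgClosed k] [Field W]
    [Algebra k W] {l : ℕ} (hl : 0 < l) {z : W} (hz : z ^ l = 1) :
    ∃ c : k, algebraMap k W c = z := by
  have hint : IsIntegral k z := by
    refine ⟨Polynomial.X ^ l - Polynomial.C 1, Polynomial.monic_X_pow_sub_C 1 hl.ne', ?_⟩
    simp [hz]
  have h1 := IsAlgClosed.degree_eq_one_of_irreducible k (minpoly.irreducible hint)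
  exact minpoly.mem_range_of_degree_eq_one k z h1

private theorem kummer_sep_mono {k W : Type} [Field k] [Field W] [Algebra k W]
    {E E' : IntermediateField k W} (h : E ≤ E') {z : W} (hz : IsSeparable E z) :
    IsSeparable E' z := by
  let _ := (IntermediateField.inclusion h).toRingHom.toAlgebra
  have : IsScalarTower E E' W := IsScalarTower.of_algebraMap_eq (fun _ => rfl)
  exact hz.tower_top E'

/-- an element with `z ^ l ∈ S` is separable over `S`, `l` invertible -/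
private theorem kummer_sep {k W : Type} [Field k] [Field W] [Algebra k W]
    (S : IntermediateField k W) {l : ℕ} (hl : (l : k) ≠ 0) {z : W} (hz0 : z ≠ 0)
    (hz : z ^ l ∈ S) : IsSeparable S z := by
  have hlS : (l : S) ≠ 0 := by
    intro h
    apply hl
    have h1 : algebraMap k S (l : k) = 0 := by rw [map_natCast]; exact h
    exact (map_eq_zero _).1 h1
  have hl1 : l ≠ 0 := by
    rintro rfl
    simp at hl
  have hsep : (Polynomial.X ^ l - Polynomial.C (⟨z ^ l, hz⟩ : S)).Separable := by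
    apply Polynomial.separable_X_pow_sub_C _ hlS
    intro h
    have := congrArg (fun w : S => (w : W)) h
    exact pow_ne_zero l hz0 this
  have h0 : Polynomial.aeval z (Polynomial.X ^ l - Polynomial.C (⟨z ^ l, hz⟩ : S)) = 0 := by
    rw [map_sub, map_pow, Polynomial.aeval_X, Polynomial.aeval_C]
    exact sub_self _
  exact hsep.of_dvd (minpoly.dvd S z h0)

private theorem kummer_min {W : Type} [NormedField W] {r : ℕ} {x : Fin r → W} (hx : Indep x)
    {l : ℕ} (hl : l.Prime) {b : Fin r → ℤ} (hb : ¬ ∃ b' : Fin r → ℤ, b = l • b') {ζ : W}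
    (hζ0 : ζ ≠ 0) (hζp : ‖ζ‖ ^ l = ‖mon x b‖) (e' : ℕ) (he1 : 1 ≤ e') (he2 : e' < l)
    (B' : Fin r → ℤ) : ‖ζ‖ ^ e' ≠ ‖mon x B'‖ := by
  intro hB'
  have hζpos : 0 < ‖ζ‖ := norm_pos_iff.2 hζ0
  have hcop : Nat.Coprime e' l := (Nat.coprime_of_lt_prime (by omega) he2 hl).symm
  have hbez := Nat.gcd_eq_gcd_ab e' l
  rw [hcop.gcd_eq_one] at hbez
  set u := Nat.gcdA e' l
  set v := Nat.gcdB e' l
  have h1 : ‖ζ‖ = ‖mon x (u • B' + v • b)‖ := by
    rw [mon_add x hx.ne, mon_zsmul, mon_zsmul, norm_mul, norm_zpow, norm_zpow, ← hB', ← hζp,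
      ← zpow_natCast, ← zpow_natCast, ← zpow_mul, ← zpow_mul, ← zpow_add₀ hζpos.ne']
    have : (e' : ℤ) * u + (l : ℤ) * v = 1 := by
      rw [← hbez, Nat.cast_one]
    rw [this, zpow_one]
  have h2 : ‖mon x b‖ = ‖mon x (l • (u • B' + v • b))‖ := by
    rw [← hζp, mon_nsmul, norm_pow, ← h1]
  exact hb ⟨_, norm_mon_inj hx h2⟩

private theorem kummer_chart_rf {k W : Type} [Field k] [NormedField W] [IsUltrametricDist W]
    [Algebra k W] {S L : IntermediateField k W} {r : ℕ} (hr : 0 < r) {x : Fin r → W} {y : W}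
    (h : Chart S L x y) {x' : Fin r → W} {y' : W} (hP' : Par k x' y')
    (hrf : Rf k x y x' y') : Chart S L x' y' := by
  let _ : NontriviallyNormedField W :=
    { (inferInstance : NormedField W) with
      non_trivial := by
        refine ⟨(x ⟨0, hr⟩)⁻¹, ?_⟩
        rw [norm_inv]
        exact (one_lt_inv₀ (norm_pos_iff.2 (h.par.ind.ne _))).2 (h.par.ind.lt _) }
  exact Chart.rf h hP' hrf

private theorem kummer_sup_eq {k W : Type} [Field k] [Field W] [Algebra k W]
    (L : IntermediateField k W) {w t : W} (ht : t ∈ L) (ht0 : t ≠ 0) :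
    L ⊔ IntermediateField.adjoin k {w / t} = L ⊔ IntermediateField.adjoin k {w} := by
  apply le_antisymm
  · refine sup_le le_sup_left ?_
    rw [IntermediateField.adjoin_simple_le_iff]
    exact div_mem ((le_sup_right : _ ≤ L ⊔ IntermediateField.adjoin k {w})
      (IntermediateField.mem_adjoin_simple_self k w))
      ((le_sup_left : L ≤ L ⊔ IntermediateField.adjoin k {w}) ht)
  · refine sup_le le_sup_left ?_
    rw [IntermediateField.adjoin_simple_le_iff]
    have h1 : w = (w / t) * t := by field_simp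
    rw [h1]
    have h2 : w / t * t / t = w / t := by field_simp
    rw [h2]
    exact mul_mem ((le_sup_right : _ ≤ L ⊔ IntermediateField.adjoin k {w / t})
      (IntermediateField.mem_adjoin_simple_self k _))
      ((le_sup_left : L ≤ L ⊔ IntermediateField.adjoin k {w / t}) ht)

theorem kummer_step {k W : Type} [Field k] [IsAlgClosed k] [NormedField W] [IsUltrametricDist W]
    [Algebra k W] {r : ℕ} (hA : Amb r k W) (hr : 0 < r)
    (S L : IntermediateField k W) (hS : ∀ z : W, IsSeparable S z → z ∈ S)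
    (hL : IsComplete (L : Set W)) (h : HasChart S r L) (l : ℕ) (hl : l.Prime)
    (hlk : (l : k) ≠ 0) (w : W) (hw : w ^ l ∈ L) :
    HasChart S r (L ⊔ IntermediateField.adjoin k {w}) := by
  classical
  by_cases hw0 : w = 0
  · have h1 : L ⊔ IntermediateField.adjoin k {w} = L := by
      rw [hw0, IntermediateField.adjoin_zero, sup_bot_eq]
    rw [h1]; exact h
  obtain ⟨x₁, y₁, hC₁⟩ := h
  set u : W := w ^ l with hu
  have hu0 : u ≠ 0 := pow_ne_zero l hw0
  have hun : 0 < ‖u‖ := norm_pos_iff.2 hu0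
  obtain ⟨g, hg, hgu⟩ := (mem_cl_iff _ _).1 (hC₁.dense hw) ‖u‖ hun
  have hgn : ‖g‖ = ‖u‖ := by
    have h1 : g = u + -(u - g) := by ring
    rw [h1, IsUltrametricDist.norm_add_eq_max_of_norm_ne_norm (by rw [norm_neg]; exact hgu.ne'),
      norm_neg]
    exact max_eq_left hgu.le
  have hg0 : g ≠ 0 := by
    intro h0
    rw [h0, norm_zero] at hgn
    linarith
  obtain ⟨x, y, hP, hrf, b, v, hvO, hvn, hgb⟩ := thmA hA hr hC₁.par g hg hg0
  have hC : Chart S L x y := kummer_chart_rf hr hC₁ hP hrf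
  have hx : ∀ i, x i ≠ 0 := hP.ind.ne
  have hmb0 : mon x b ≠ 0 := mon_ne x hx b
  have hmbn : ‖mon x b‖ = ‖u‖ := by
    rw [← hgn, hgb, norm_mul, hvn, mul_one]
  have hmbL : mon x b ∈ L := mon_mem _ hC.xL b
  obtain ⟨c, hc⟩ := hA.res v hvn.le
  have hc0 : c ≠ 0 := by
    rintro rfl
    rw [map_zero, sub_zero, hvn] at hc
    exact lt_irrefl _ hc
  have hcn : ‖algebraMap k W c‖ = 1 := hA.unit c hc0
  have hcW : algebraMap k W c ≠ 0 := by
    intro h0
    rw [h0, norm_zero] at hcn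
    exact zero_ne_one hcn
  set m : W := algebraMap k W c * mon x b with hm
  have hm0 : m ≠ 0 := mul_ne_zero hcW hmb0
  have hmL : m ∈ L := mul_mem (L.algebraMap_mem c) hmbL
  set δ : W := u / m - 1 with hδ
  have hδL : δ ∈ L := sub_mem (div_mem hw hmL) (one_mem L)
  have hδn : ‖δ‖ < 1 := by
    have h1 : δ = ((u - g) + mon x b * (v - algebraMap k W c)) / m := by
      rw [hδ, hgb, hm]
      field_simp
      ring
    rw [h1, norm_div, hm, norm_mul, hcn, one_mul, div_lt_one (norm_pos_iff.2 hmb0)]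
    refine lt_of_le_of_lt (IsUltrametricDist.norm_add_le_max _ _) (max_lt ?_ ?_)
    · rw [hmbn]; exact hgu
    · rw [norm_mul]
      calc ‖mon x b‖ * ‖v - algebraMap k W c‖ < ‖mon x b‖ * 1 :=
            mul_lt_mul_of_pos_left hc (norm_pos_iff.2 hmb0)
        _ = ‖mon x b‖ := mul_one _
  obtain ⟨t1, ht1L, ht1n, ht1⟩ := one_root hA l hlk hL hδL hδn
  obtain ⟨d, hd⟩ := IsAlgClosed.exists_pow_nat_eq c hl.pos
  set t : W := algebraMap k W d * (1 + t1) with ht
  have htL : t ∈ L := mul_mem (L.algebraMap_mem d) (add_mem (one_mem L) ht1L)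
  have htl : t ^ l = u / mon x b := by
    rw [ht, mul_pow, ← map_pow, hd, ht1, hδ, hm]
    field_simp
    ring
  have ht0 : t ≠ 0 := by
    intro h0
    rw [h0, zero_pow hl.ne_zero] at htl
    exact div_ne_zero hu0 hmb0 htl.symm
  set w1 : W := w / t with hw1
  have hw1l : w1 ^ l = mon x b := by
    rw [hw1, div_pow, htl, ← hu]
    field_simp
  have hw10 : w1 ≠ 0 := div_ne_zero hw0 ht0
  rw [← kummer_sup_eq L (w := w) htL ht0, ← hw1]
  have hw1S : w1 ∈ S := hS w1 (kummer_sep S hlk hw10 (by rw [hw1l]; exact mon_mem _ hC.xS b))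
  by_cases hb : ∃ b' : Fin r → ℤ, b = l • b'
  · obtain ⟨b', hb'⟩ := hb
    have hz : (w1 / mon x b') ^ l = 1 := by
      rw [div_pow, hw1l, hb', mon_nsmul]
      exact div_self (pow_ne_zero l (mon_ne x hx b'))
    obtain ⟨e, he⟩ := kummer_root_of_unity (k := k) hl.pos hz
    have hw1L : w1 ∈ L := by
      have h1 : w1 = algebraMap k W e * mon x b' := by
        rw [he, div_mul_cancel₀ _ (mon_ne x hx b')]
      rw [h1]
      exact mul_mem (L.algebraMap_mem e) (mon_mem _ hC.xL b')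
    have h1 : L ⊔ IntermediateField.adjoin k {w1} = L := by
      apply le_antisymm (sup_le le_rfl _) le_sup_left
      rw [IntermediateField.adjoin_simple_le_iff]
      exact hw1L
    rw [h1]
    exact ⟨x, y, hC⟩
  · have hζp : ‖w1‖ ^ l = ‖mon x b‖ := by rw [← norm_pow, hw1l]
    obtain ⟨x', T, hx'ind, -, hT⟩ := exists_um x hP.ind w1 hw10 l hl.one_le b hζp
      (kummer_min hP.ind hl hb hw10 hζp)
    have hη : w1 ^ l * mon x (-b) = 1 := by
      rw [hw1l, mon_neg, mul_inv_cancel₀ hmb0]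
    have hT' : ∀ (a : Fin r → ℤ) (j : ℤ), mon x a * w1 ^ j = mon x' (T (a, j)).1 := by
      intro a j
      rw [hT a j, hη, one_zpow, mul_one]
    have hx'0 : ∀ i, x' i ≠ 0 := hx'ind.ne
    have hxi : ∀ i, x i ∈ Kxy k x' y := by
      intro i
      have h1 := hT' (Pi.single i 1) 0
      rw [zpow_zero, mul_one, mon_single] at h1
      rw [h1]
      exact mon_mem_Kxy _ _ _
    have hw1K : w1 ∈ Kxy k x' y := by
      have h1 := hT' 0 1
      rw [mon_zero, one_mul, zpow_one] at h1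
      rw [h1]
      exact mon_mem_Kxy _ _ _
    have hx'i : ∀ i, ∃ (a : Fin r → ℤ) (j : ℤ), x' i = mon x a * w1 ^ j := by
      intro i
      refine ⟨(T.symm (Pi.single i 1, 0)).1, (T.symm (Pi.single i 1, 0)).2, ?_⟩
      rw [hT', Prod.mk.eta, AddEquiv.apply_symm_apply, mon_single]
    have hK : Kxy k x y ≤ Kxy k x' y := Kxy_le _ _ hxi (y_mem_Kxy _ _)
    set L' := L ⊔ IntermediateField.adjoin k {w1} with hL'
    have hLL' : L ≤ L' := le_sup_left
    have hw1L' : w1 ∈ L' :=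
      (le_sup_right : _ ≤ L ⊔ IntermediateField.adjoin k {w1})
        (IntermediateField.mem_adjoin_simple_self k w1)
    refine ⟨x', y, ⟨hx'ind, hP.y1, ?_⟩, ?_, hC.yS, ?_, hLL' hC.yL, ?_, ?_⟩
    · exact tr_of_algebraic x y hx hP.tr x' y hx'0
        (fun i => isAlgebraic_algebraMap (⟨x i, hxi i⟩ : Kxy k x' y))
        (isAlgebraic_algebraMap (⟨y, y_mem_Kxy _ _⟩ : Kxy k x' y))
    · intro i
      obtain ⟨a, j, h⟩ := hx'i i
      rw [h]
      exact mul_mem (mon_mem _ hC.xS a) (zpow_mem hw1S j)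
    · intro i
      obtain ⟨a, j, h⟩ := hx'i i
      rw [h]
      exact mul_mem (hLL' (mon_mem _ hC.xL a)) (zpow_mem hw1L' j)
    · refine sup_le (hC.dense.trans (cl_mono hK)) ?_
      rw [IntermediateField.adjoin_simple_le_iff]
      exact le_cl _ hw1K
    · intro z hz
      exact kummer_sep_mono hK (hC.sep z hz)

end Pool.Agent.Lib.TDO
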