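import Mathlib

/-!
# Module Wild: the ramification group

`G = N ≃ₐ[A] N` acts by isometries, residue field `k` (algebraically closed, characteristic `p`,
contained in `A`).  For `w ≠ 0` in `N` and `g ∈ G` let `χ g w ∈ k` be the residue of `g w / w`
(norm one).  `χ (g h) w = χ g w * χ h w`: `g h w / w = (g (h w) / h w) (h w / w)` and
`h w = χ h w * w * (1 + small)`, so `g (h w) / h w` and `g w / w` have the same residue.
`P = {g | ∀ w ≠ 0, ‖g w - w‖ < ‖w‖}` is the kernel of the homomorphism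
`G → (N^* → k^*)`, `g ↦ χ g`, to a commutative group: normal and contains the commutators.
An element `g ∈ P` of prime order `l ≠ p`: `k` contains a primitive `l`-th root of unity `ζ`;
`minpoly A g.toLinearMap = X^l - 1` (`minpoly_algEquiv_toLinearMap`), so there is `v ≠ 0` with
`g v = ζ v` (see the proof of `exists_root_adjoin_eq_top_of_isCyclic`), `‖g v - v‖ = ‖ζ - 1‖ ‖v‖ = ‖v‖`,
contradiction.  So `P` is a `p`-group (Cauchy).  The index is prime to `p`: otherwise there is
`g ∉ P` with `g^p ∈ P`, so `χ g w ^ p = 1`, `χ g w = 1` for all `w` (characteristic `p`).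
-/

namespace Pool.Agent.Lib.TDO

section

variable {k A N : Type} [Field k] [Field A] [NormedField N] [IsUltrametricDist N] [Algebra A N]
  [Algebra k A] [Algebra k N] [IsScalarTower k A N]

omit [IsUltrametricDist N] in
private theorem wild_fix (σ : N ≃ₐ[A] N) (c : k) : σ (algebraMap k N c) = algebraMap k N c := by
  rw [IsScalarTower.algebraMap_apply k A N c, AlgEquiv.commutes]

private theorem wild_add {a b : N} {C : ℝ} (ha : ‖a‖ < C) (hb : ‖b‖ < C) : ‖a + b‖ < C :=
  lt_of_le_of_lt (IsUltrametricDist.norm_add_le_max a b) (max_lt ha hb)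

private theorem wild_sub {a b : N} {C : ℝ} (ha : ‖a‖ < C) (hb : ‖b‖ < C) : ‖a - b‖ < C := by
  rw [sub_eq_add_neg]
  exact wild_add ha (by rwa [norm_neg])

/-- the residue of a product -/
private theorem wild_mul (hn : ∀ c : k, ‖algebraMap k N c‖ ≤ 1)
    (hiso : ∀ (σ : N ≃ₐ[A] N) (z : N), ‖σ z‖ = ‖z‖) {g h : N ≃ₐ[A] N} {w : N} {a b : k}
    (hg : ‖g w - algebraMap k N a * w‖ < ‖w‖) (hh : ‖h w - algebraMap k N b * w‖ < ‖w‖) :
    ‖(g * h) w - algebraMap k N (a * b) * w‖ < ‖w‖ := by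
  have h1 : (g * h) w - algebraMap k N (a * b) * w =
      g (h w - algebraMap k N b * w) + algebraMap k N b * (g w - algebraMap k N a * w) := by
    rw [AlgEquiv.mul_apply, map_sub, map_mul g, wild_fix (A := A), map_mul (algebraMap k N)]
    ring
  rw [h1]
  apply wild_add
  · rwa [hiso]
  · rw [norm_mul]
    calc ‖algebraMap k N b‖ * ‖g w - algebraMap k N a * w‖
        ≤ 1 * ‖g w - algebraMap k N a * w‖ := mul_le_mul_of_nonneg_right (hn b) (norm_nonneg _)
      _ < ‖w‖ := by rwa [one_mul]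

private theorem wild_pow (hn : ∀ c : k, ‖algebraMap k N c‖ ≤ 1)
    (hiso : ∀ (σ : N ≃ₐ[A] N) (z : N), ‖σ z‖ = ‖z‖) {g : N ≃ₐ[A] N} {w : N} {a : k} (hw : w ≠ 0)
    (hg : ‖g w - algebraMap k N a * w‖ < ‖w‖) (n : ℕ) :
    ‖(g ^ n) w - algebraMap k N (a ^ n) * w‖ < ‖w‖ := by
  induction n with
  | zero => simpa using hw
  | succ n ih =>
    rw [pow_succ, pow_succ]
    exact wild_mul hn hiso ih hg

/-- the wild group -/
private def wildP (hiso : ∀ (σ : N ≃ₐ[A] N) (z : N), ‖σ z‖ = ‖z‖) : Subgroup (N ≃ₐ[A] N) where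
  carrier := {g | ∀ w : N, w ≠ 0 → ‖g w - w‖ < ‖w‖}
  mul_mem' := by
    intro g h hg hh w hw
    have h1 : (g * h) w - w = (g (h w) - h w) + (h w - w) := by
      rw [AlgEquiv.mul_apply]
      ring
    rw [h1]
    apply wild_add
    · have h2 := hg (h w) (by simpa using hw)
      rwa [hiso h w] at h2
    · exact hh w hw
  one_mem' := by
    intro w hw
    simpa using hw
  inv_mem' := by
    intro g hg w hw
    have h1 : g⁻¹ w ≠ 0 := by simpa using hw
    have h2 := hg (g⁻¹ w) h1
    have h3 : g (g⁻¹ w) = w := by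
      rw [← AlgEquiv.mul_apply, mul_inv_cancel, AlgEquiv.one_apply]
    rw [h3, hiso, norm_sub_rev] at h2
    exact h2

private theorem mem_wildP (hiso : ∀ (σ : N ≃ₐ[A] N) (z : N), ‖σ z‖ = ‖z‖) {g : N ≃ₐ[A] N} :
    g ∈ wildP hiso ↔ ∀ w : N, w ≠ 0 → ‖g w - w‖ < ‖w‖ := Iff.rfl

/-- elements of order prime to the characteristic are trivial -/
private theorem wild_order (hiso : ∀ (σ : N ≃ₐ[A] N) (z : N), ‖σ z‖ = ‖z‖) {g : N ≃ₐ[A] N}
    (hg : g ∈ wildP hiso) {l : ℕ} (hl : ‖(l : N)‖ = 1) (hgl : g ^ l = 1) : g = 1 := by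
  have hl0 : (l : N) ≠ 0 := by
    intro h
    rw [h, norm_zero] at hl
    exact zero_ne_one hl
  let S : N → N := fun w => ∑ i ∈ Finset.range l, (g ^ i) w
  have hS1 : ∀ w, g (S w) = S w := by
    intro w
    show g (∑ i ∈ Finset.range l, (g ^ i) w) = ∑ i ∈ Finset.range l, (g ^ i) w
    rw [map_sum]
    have h1 : ∀ i, g ((g ^ i) w) = (g ^ (i + 1)) w := by
      intro i
      rw [pow_succ', AlgEquiv.mul_apply]
    simp only [h1]
    have h2 := Finset.sum_range_succ' (fun i => (g ^ i) w) l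
    rw [Finset.sum_range_succ (fun i => (g ^ i) w) l] at h2
    rw [hgl, pow_zero] at h2
    exact (add_right_cancel h2).symm
  ext w
  rw [AlgEquiv.one_apply]
  -- the part of trace zero
  obtain ⟨e, he⟩ : ∃ e : N, e = S w / l := ⟨_, rfl⟩
  have hge : g e = e := by
    rw [he, map_div₀, hS1, map_natCast]
  have hgie : ∀ i : ℕ, (g ^ i) e = e := by
    intro i
    induction i with
    | zero => rfl
    | succ i ih => rw [pow_succ, AlgEquiv.mul_apply, hge, ih]
  have hw' : w - e = 0 := by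
    by_contra hne
    have h1 : S (w - e) = 0 := by
      show ∑ i ∈ Finset.range l, (g ^ i) (w - e) = 0
      simp only [map_sub, hgie]
      rw [Finset.sum_sub_distrib, Finset.sum_const, Finset.card_range, nsmul_eq_mul, he]
      show S w - l * (S w / l) = 0
      rw [mul_div_cancel₀ _ hl0, sub_self]
    have h2 : S (w - e) = ∑ i ∈ Finset.range l, ((g ^ i) (w - e) - (w - e)) + l * (w - e) := by
      rw [Finset.sum_sub_distrib, Finset.sum_const, Finset.card_range, nsmul_eq_mul,
        sub_add_cancel]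
    have h3 : ‖∑ i ∈ Finset.range l, ((g ^ i) (w - e) - (w - e))‖ < ‖w - e‖ := by
      refine Finset.sum_induction _ (fun x => ‖x‖ < ‖w - e‖) (fun a b ha hb => wild_add ha hb)
        (by rw [norm_zero]; exact norm_pos_iff.2 hne) ?_
      intro i _
      exact (mem_wildP hiso).1 (pow_mem hg i) (w - e) hne
    have h4 : l * (w - e) = -∑ i ∈ Finset.range l, ((g ^ i) (w - e) - (w - e)) := by
      rw [h1] at h2
      exact eq_neg_of_add_eq_zero_right h2.symm
    have h5 : ‖(l : N) * (w - e)‖ = ‖w - e‖ := by rw [norm_mul, hl, one_mul]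
    rw [h4, norm_neg] at h5
    exact h3.ne h5
  have h6 : w = e := sub_eq_zero.1 hw'
  rw [h6]
  exact hge

end

theorem exists_wild {k A N : Type} [Field k] [IsAlgClosed k] [Field A] [NormedField N]
    [IsUltrametricDist N] [Algebra A N] [Algebra k A] [Algebra k N] [IsScalarTower k A N]
    [FiniteDimensional A N] (p : ℕ) [Fact p.Prime] [CharP k p]
    (hunit : ∀ c : k, c ≠ 0 → ‖algebraMap k N c‖ = 1)
    (hres : ∀ z : N, ‖z‖ ≤ 1 → ∃ c : k, ‖z - algebraMap k N c‖ < 1)
    (hiso : ∀ (σ : N ≃ₐ[A] N) (z : N), ‖σ z‖ = ‖z‖) :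
    ∃ P : Subgroup (N ≃ₐ[A] N), P.Normal ∧ IsPGroup p P ∧
      (∀ g h : N ≃ₐ[A] N, g * h * g⁻¹ * h⁻¹ ∈ P) ∧ Nat.Coprime p P.index := by
  have hpp : p.Prime := Fact.out
  have hn : ∀ c : k, ‖algebraMap k N c‖ ≤ 1 := by
    intro c
    by_cases hc : c = 0
    · rw [hc, map_zero, norm_zero]
      exact zero_le_one
    · exact (hunit c hc).le
  -- residues
  have hχ : ∀ (g : N ≃ₐ[A] N) (w : N), w ≠ 0 → ∃ a : k, ‖g w - algebraMap k N a * w‖ < ‖w‖ := by
    intro g w hw
    have hw0 : 0 < ‖w‖ := norm_pos_iff.2 hw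
    obtain ⟨a, ha⟩ := hres (g w / w) (by rw [norm_div, hiso, div_self hw0.ne'])
    refine ⟨a, ?_⟩
    have h1 : g w - algebraMap k N a * w = (g w / w - algebraMap k N a) * w := by
      rw [sub_mul, div_mul_cancel₀ _ hw]
    rw [h1, norm_mul]
    calc ‖g w / w - algebraMap k N a‖ * ‖w‖ < 1 * ‖w‖ := mul_lt_mul_of_pos_right ha hw0
      _ = ‖w‖ := one_mul _
  have huniq : ∀ (a : k) (w : N), w ≠ 0 → ‖algebraMap k N a * w‖ < ‖w‖ → a = 0 := by
    intro a w hw h
    by_contra ha
    rw [norm_mul, hunit a ha, one_mul] at h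
    exact lt_irrefl _ h
  have hcomm : ∀ g h : N ≃ₐ[A] N, g * h * g⁻¹ * h⁻¹ ∈ wildP hiso := by
    intro g h
    rw [mem_wildP]
    intro w hw
    obtain ⟨v, hv⟩ : ∃ v, v = (g⁻¹ * h⁻¹) w := ⟨_, rfl⟩
    have hv0 : v ≠ 0 := by
      rw [hv]
      simpa using hw
    have hvn : ‖v‖ = ‖w‖ := by rw [hv, hiso]
    obtain ⟨a, ha⟩ := hχ g v hv0
    obtain ⟨b, hb⟩ := hχ h v hv0
    have h1 := wild_mul hn hiso ha hb
    have h2 := wild_mul hn hiso hb ha
    rw [mul_comm b a] at h2
    have h3 := wild_sub h1 h2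
    have h4 : (g * h) v - algebraMap k N (a * b) * v - ((h * g) v - algebraMap k N (a * b) * v) =
        (g * h) v - (h * g) v := by ring
    rw [h4, hvn] at h3
    have h5 : (g * h) v = (g * h * g⁻¹ * h⁻¹) w := by
      have h7 : g * h * (g⁻¹ * h⁻¹) = g * h * g⁻¹ * h⁻¹ := by group
      rw [hv, ← AlgEquiv.mul_apply, h7]
    have h6 : (h * g) v = w := by
      rw [hv, ← AlgEquiv.mul_apply]
      have : h * g * (g⁻¹ * h⁻¹) = 1 := by group
      rw [this, AlgEquiv.one_apply]
    rwa [h5, h6] at h3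
  have hnormal : (wildP hiso).Normal := by
    constructor
    intro n hn' g
    have h1 : g * n * g⁻¹ = (g * n * g⁻¹ * n⁻¹) * n := by group
    rw [h1]
    exact mul_mem (hcomm g n) hn'
  have hfin : Finite (N ≃ₐ[A] N) := inferInstance
  refine ⟨wildP hiso, hnormal, ?_, hcomm, ?_⟩
  · -- a `p`-group
    have hcard : Nat.card (wildP hiso) ≠ 0 := Nat.card_pos.ne'
    have huni : ∀ {d : ℕ}, d.Prime → d ∣ Nat.card (wildP hiso) → d = p := by
      intro l hl hdvd
      by_contra hlp
      have : Fact l.Prime := ⟨hl⟩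
      obtain ⟨g, hg⟩ := exists_prime_orderOf_dvd_card' l hdvd
      have hlk : (l : k) ≠ 0 := by
        intro h
        rw [CharP.cast_eq_zero_iff k p] at h
        exact hlp ((Nat.prime_dvd_prime_iff_eq hpp hl).1 h).symm
      have hln : ‖(l : N)‖ = 1 := by
        have h1 := hunit (l : k) hlk
        rwa [map_natCast] at h1
      have hgl : (g : N ≃ₐ[A] N) ^ l = 1 := by
        have h2 : g ^ l = 1 := by
          rw [← hg]
          exact pow_orderOf_eq_one g
        have h3 := congrArg Subtype.val h2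
        simpa using h3
      have h1 := wild_order hiso g.2 hln hgl
      have h2 : g = 1 := Subtype.ext h1
      rw [h2, orderOf_one] at hg
      exact hl.one_lt.ne hg
    have h1 := Nat.eq_prime_pow_of_unique_prime_dvd hcard huni
    exact IsPGroup.of_card h1
  · -- the index
    rw [Nat.Prime.coprime_iff_not_dvd hpp]
    intro hdvd
    have := hnormal
    have hdvd' : p ∣ Nat.card ((N ≃ₐ[A] N) ⧸ wildP hiso) := hdvd
    obtain ⟨q, hq⟩ := exists_prime_orderOf_dvd_card' p hdvd'
    obtain ⟨g, rfl⟩ := QuotientGroup.mk_surjective q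
    have hgp : g ^ p ∈ wildP hiso := by
      rw [← QuotientGroup.eq_one_iff, QuotientGroup.mk_pow, ← hq]
      exact pow_orderOf_eq_one _
    have hgn : g ∈ wildP hiso := by
      rw [mem_wildP]
      intro w hw
      obtain ⟨a, ha⟩ := hχ g w hw
      have h1 := wild_pow hn hiso hw ha p
      have h2 := (mem_wildP hiso).1 hgp w hw
      have h3 := wild_sub h2 h1
      have h4 : (g ^ p) w - w - ((g ^ p) w - algebraMap k N (a ^ p) * w) =
          algebraMap k N (a ^ p - 1) * w := by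
        rw [map_sub, map_one]
        ring
      rw [h4] at h3
      have h5 := huniq _ w hw h3
      have h6 : a = 1 := by
        have h7 : (a - 1) ^ p = 0 := by rw [sub_pow_char, one_pow, h5]
        exact sub_eq_zero.1 (pow_eq_zero_iff hpp.ne_zero |>.1 h7)
      rw [h6, map_one, one_mul] at ha
      exact ha
    rw [(QuotientGroup.eq_one_iff g).2 hgn, orderOf_one] at hq
    exact hpp.one_lt.ne hq

end Pool.Agent.Lib.TDO
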