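import Pool.Agent.Lib.TDO.ASStep
import Pool.Agent.Lib.TDO.Kummer
import Pool.Agent.Lib.TDO.Iso
import Pool.Agent.Lib.TDO.Wild
import Pool.Agent.Lib.TDO.KChain
import Pool.Agent.Lib.TDO.AChain

/-!
# Module Tower: finite separable extensions

`KTower S r L`: by finitely many Kummer extensions of prime degree invertible in `k`, `L` is
enlarged to a field which has a chart.

Proof of `tower`.  `A := L`, `N :=` the normal closure in `W` of the field generated over `L` by the
finite set `G` of separable elements (`W` is algebraically closed): finite Galois over `L`.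
`exists_wild` with `hiso` from `isometry_of_complete` (norm induced from `W`) gives `P`.
(a) `kstep_chain` with `H = P`, `G' = ⊤`: chain of Kummer steps from `fixedField ⊤ = ⊥` to
`fixedField P`; all fields have charts by `kummer_step` (as `L` has one; they are complete by
`isComplete_sup`; an intermediate field `E` of `N / L` is regarded as the intermediate field
`{z | z ∈ E}` of `W / k`, it contains `L`).
(b) `U = fixingSubgroup L'`, `L' = L ⊔ adjoin G`; `astep_chain` with `H = P ⊓ U`, `G' = P`: so
`fixedField (P ⊓ U)` has a chart (`as_step`).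
(c) `kstep_chain` with `H = P ⊓ U`, `G' = U` (the index of `P ⊓ U` in `U` divides the index of `P`):
chain of Kummer steps from `fixedField U = L'` to `fixedField (P ⊓ U)`: `KTower`
(`Relation.ReflTransGen.head_induction_on`).
-/

namespace Pool.Agent.Lib.TDO

open Pool.Agent.Lib.MP_3029eb_ag Pool.Agent.Lib.MP_3029eb_ag.Abh

/-- A tower of Kummer extensions leading to a field with a chart. -/
inductive KTower {k W : Type} [Field k] [NormedField W] [Algebra k W]
    (S : IntermediateField k W) (r : ℕ) : IntermediateField k W → Prop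
  | base (L : IntermediateField k W) : HasChart S r L → KTower S r L
  | step (L : IntermediateField k W) (l : ℕ) (w : W) : l.Prime → (l : k) ≠ 0 → w ^ l ∈ L →
      KTower S r (L ⊔ IntermediateField.adjoin k {w}) → KTower S r L

/-- An intermediate field of `N / L` as an intermediate field of `W / k`. -/
private noncomputable def TowerT {k W : Type} [Field k] [Field W] [Algebra k W]
    {L : IntermediateField k W} (N : IntermediateField L W) (E : IntermediateField L N) :
    IntermediateField k W :=
  (IntermediateField.lift E).restrictScalars k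

private theorem tower_mem {k W : Type} [Field k] [Field W] [Algebra k W]
    {L : IntermediateField k W} {N : IntermediateField L W} {E : IntermediateField L N} {z : W} :
    z ∈ TowerT N E ↔ ∃ w ∈ E, (w : W) = z := by
  constructor
  · intro h
    have h1 : z ∈ IntermediateField.lift E := h
    exact h1
  · intro h
    have h1 : z ∈ IntermediateField.lift E := h
    exact h1

private theorem tower_bot {k W : Type} [Field k] [Field W] [Algebra k W]
    {L : IntermediateField k W} (N : IntermediateField L W) : TowerT N ⊥ = L := by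
  ext z
  rw [tower_mem]
  constructor
  · rintro ⟨w, hw, rfl⟩
    obtain ⟨a, rfl⟩ := IntermediateField.mem_bot.mp hw
    exact a.2
  · intro hz
    exact ⟨algebraMap L N ⟨z, hz⟩, IntermediateField.mem_bot.mpr ⟨_, rfl⟩, rfl⟩

private theorem tower_le {k W : Type} [Field k] [Field W] [Algebra k W]
    {L : IntermediateField k W} (N : IntermediateField L W) (E : IntermediateField L N) :
    L ≤ TowerT N E := by
  intro z hz
  exact tower_mem.mpr ⟨algebraMap L N ⟨z, hz⟩, E.algebraMap_mem _, rfl⟩

private theorem tower_sup {k W : Type} [Field k] [Field W] [Algebra k W]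
    {L : IntermediateField k W} (N : IntermediateField L W) (E : IntermediateField L N)
    (S : Set N) : TowerT N (E ⊔ IntermediateField.adjoin L S) =
      TowerT N E ⊔ IntermediateField.adjoin k ((fun w : N => (w : W)) '' S) := by
  apply le_antisymm
  · intro z hz
    obtain ⟨v, hv, rfl⟩ := tower_mem.mp hz
    have hLM : L ≤ TowerT N E ⊔ IntermediateField.adjoin k ((fun w : N => (w : W)) '' S) :=
      (tower_le N E).trans le_sup_left
    have h1 : E ⊔ IntermediateField.adjoin L S ≤
        (IntermediateField.extendScalars hLM).comap N.val := by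
      refine sup_le ?_ ?_
      · intro w hw
        have h2 : (w : W) ∈ TowerT N E ⊔
            IntermediateField.adjoin k ((fun w : N => (w : W)) '' S) :=
          (le_sup_left (a := TowerT N E)) (tower_mem.mpr ⟨w, hw, rfl⟩)
        exact h2
      · rw [IntermediateField.adjoin_le_iff]
        intro w hw
        have h2 : (w : W) ∈ TowerT N E ⊔
            IntermediateField.adjoin k ((fun w : N => (w : W)) '' S) :=
          (le_sup_right (a := TowerT N E)) (IntermediateField.subset_adjoin k _ ⟨w, hw, rfl⟩)
        exact h2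
    exact h1 hv
  · refine sup_le ?_ ?_
    · intro z hz
      obtain ⟨v, hv, rfl⟩ := tower_mem.mp hz
      exact tower_mem.mpr ⟨v, (le_sup_left (a := E)) hv, rfl⟩
    · rw [IntermediateField.adjoin_le_iff]
      rintro _ ⟨w, hw, rfl⟩
      exact tower_mem.mpr ⟨w, (le_sup_right (a := E))
        (IntermediateField.subset_adjoin L S hw), rfl⟩

theorem tower {k W : Type} [Field k] [IsAlgClosed k] [NontriviallyNormedField W]
    [IsUltrametricDist W] [Algebra k W] [IsAlgClosed W] {r : ℕ} (hA : Amb r k W) (hr : 0 < r)
    (p : ℕ) [Fact p.Prime] [CharP k p] (S L : IntermediateField k W)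
    (hS : ∀ z : W, IsSeparable S z → z ∈ S) (hL : IsComplete (L : Set W))
    (h : HasChart S r L) (G : Finset W) (hG : ∀ θ ∈ G, IsSeparable L θ) :
    KTower S r (L ⊔ IntermediateField.adjoin k (G : Set W)) := by
  classical
  -- a small element
  have hnt : ∃ z ∈ L, z ≠ 0 ∧ ‖z‖ < 1 := by
    obtain ⟨x, y, hc⟩ := h
    exact ⟨x ⟨0, hr⟩, hc.xL _, hc.par.ind.ne _, hc.par.ind.lt _⟩
  -- the normal closure
  set F : Polynomial L := ∏ θ ∈ G, minpoly L θ with hF
  have hsplit : (F.map (algebraMap L W)).Splits := IsAlgClosed.splits _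
  let N : IntermediateField L W := IntermediateField.adjoin L (F.rootSet W)
  have hSF : F.IsSplittingField L N := IntermediateField.adjoin_rootSet_isSplittingField hsplit
  have hfd : FiniteDimensional L N := Polynomial.IsSplittingField.finiteDimensional N F
  have hnorm : Normal L N := Normal.of_isSplittingField F
  have hmono : ∀ θ ∈ G, (minpoly L θ).Monic := fun θ hθ =>
    minpoly.monic (hG θ hθ).isIntegral
  have hF0 : F ≠ 0 := (Polynomial.monic_prod_of_monic _ _ hmono).ne_zero
  have hsepN : Algebra.IsSeparable L N := by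
    rw [IntermediateField.isSeparable_adjoin_iff_isSeparable]
    intro z hz
    rw [Polynomial.mem_rootSet] at hz
    obtain ⟨-, hz⟩ := hz
    rw [hF, map_prod, Finset.prod_eq_zero_iff] at hz
    obtain ⟨θ, hθ, hz⟩ := hz
    have h1 : minpoly L θ = minpoly L z :=
      minpoly.eq_of_irreducible_of_monic (minpoly.irreducible (hG θ hθ).isIntegral) hz
        (hmono θ hθ)
    have h2 : IsSeparable L θ := hG θ hθ
    unfold IsSeparable at h2 ⊢
    rwa [← h1]
  have hgal : IsGalois L N := IsGalois.mk
  have hGN : ∀ θ ∈ G, θ ∈ N := by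
    intro θ hθ
    apply IntermediateField.subset_adjoin
    rw [Polynomial.mem_rootSet]
    refine ⟨hF0, ?_⟩
    rw [hF, map_prod]
    exact Finset.prod_eq_zero hθ (minpoly.aeval L θ)
  have halg : Algebra.IsAlgebraic L N := inferInstance
  -- the ramification group
  have hchar : CharP L p := charP_of_injective_algebraMap (algebraMap k L).injective p
  obtain ⟨P, hPn, hPp, hPc, hPi⟩ := exists_wild (k := k) (A := L) (N := N) p
    (fun c hc => hA.unit c hc) (fun z hz => hA.res z hz)
    (fun σ z => isometry_of_complete L hL hnt N σ z)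
  have hroots : ∀ l : ℕ, l.Prime → (l : L) ≠ 0 → ∃ ζ : L, IsPrimitiveRoot ζ l := by
    intro l hl hl0
    have h1 : (l : k) ≠ 0 := fun h0 => hl0 (by
      rw [← map_natCast (algebraMap k L), h0, map_zero])
    have : NeZero (l : k) := ⟨h1⟩
    have : NeZero l := ⟨hl.ne_zero⟩
    obtain ⟨ζ, hζ⟩ := HasEnoughRootsOfUnity.exists_primitiveRoot k l
    exact ⟨algebraMap k L ζ, hζ.map_of_injective (algebraMap k L).injective⟩
  -- one step keeps completeness
  have hcomp : ∀ (E : IntermediateField L N) (w : N) (P : Polynomial (TowerT N E)),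
      P ≠ 0 → Polynomial.aeval (w : W) P = 0 → IsComplete ((TowerT N E : IntermediateField k W) : Set W) →
      IsComplete ((TowerT N E ⊔ IntermediateField.adjoin k {(w : W)} :
        IntermediateField k W) : Set W) := by
    intro E w P hP hw hc
    refine isComplete_sup hc ?_ _ ⟨P, hP, hw⟩
    obtain ⟨z, hz, hz0, hz1⟩ := hnt
    exact ⟨z, tower_le N E hz, hz0, hz1⟩
  have hstep : ∀ (E : IntermediateField L N) (w : N),
      TowerT N (E ⊔ IntermediateField.adjoin L {w}) =
        TowerT N E ⊔ IntermediateField.adjoin k {(w : W)} := by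
    intro E w
    rw [tower_sup, Set.image_singleton]
  -- (a) Kummer steps up
  have hK : ∀ E : IntermediateField L N, Relation.ReflTransGen (KStep (A := L) (N := N))
      (IntermediateField.fixedField ⊤) E →
      IsComplete ((TowerT N E : IntermediateField k W) : Set W) ∧ HasChart S r (TowerT N E) := by
    intro E hE
    induction hE with
    | refl =>
      rw [show IntermediateField.fixedField (⊤ : Subgroup (N ≃ₐ[L] N)) = ⊥ from
        IsGalois.tfae.out 0 1 |>.mp hgal, tower_bot]
      exact ⟨hL, h⟩
    | tail _ hs ih =>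
      obtain ⟨l, hl, hl0, w, hw, rfl⟩ := hs
      rename_i E1 _
      have hwl : (w : W) ^ l ∈ TowerT N E1 := tower_mem.mpr ⟨w ^ l, hw, rfl⟩
      have hl1 : (l : k) ≠ 0 := fun h0 => hl0 (by
        rw [← map_natCast (algebraMap k L), h0, map_zero])
      rw [hstep]
      refine ⟨hcomp E1 w (Polynomial.X ^ l - Polynomial.C ⟨_, hwl⟩)
        (Polynomial.X_pow_sub_C_ne_zero hl.pos _) (by simp) ih.1, ?_⟩
      exact kummer_step hA hr S _ hS ih.1 ih.2 l hl hl1 _ hwl
  -- (b) Artin-Schreier steps up
  have hAS : ∀ E0 E : IntermediateField L N, Relation.ReflTransGen (AStep (A := L) (N := N) p)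
      E0 E → IsComplete ((TowerT N E0 : IntermediateField k W) : Set W) →
      HasChart S r (TowerT N E0) →
      IsComplete ((TowerT N E : IntermediateField k W) : Set W) ∧ HasChart S r (TowerT N E) := by
    intro E0 E hE hc hch
    induction hE with
    | refl => exact ⟨hc, hch⟩
    | tail _ hs ih =>
      obtain ⟨w, hw, rfl⟩ := hs
      rename_i E1 _
      have hwl : (w : W) ^ p - (w : W) ∈ TowerT N E1 := tower_mem.mpr ⟨w ^ p - w, hw, rfl⟩
      rw [hstep]
      have hp1 : 1 < p := (Fact.out : p.Prime).one_lt
      refine ⟨hcomp E1 w (Polynomial.X ^ p - Polynomial.X - Polynomial.C ⟨_, hwl⟩) ?_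
        (by simp) ih.1, ?_⟩
      · intro h0
        have h1 := congrArg (fun q => Polynomial.coeff q p) h0
        simp [Polynomial.coeff_X, Polynomial.coeff_C, hp1.ne,
          (Nat.zero_lt_of_lt hp1).ne'] at h1
      · exact as_step hA hr p S _ hS ih.1 ih.2 _ hwl
  -- the subgroup of `L'`
  set L' : IntermediateField L N := IntermediateField.adjoin L {w : N | (w : W) ∈ G} with hL'
  set U : Subgroup (N ≃ₐ[L] N) := L'.fixingSubgroup with hU
  have hTL' : TowerT N L' = L ⊔ IntermediateField.adjoin k (G : Set W) := by
    have h1 : L' = ⊥ ⊔ IntermediateField.adjoin L {w : N | (w : W) ∈ G} := by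
      rw [bot_sup_eq]
    rw [h1, tower_sup, tower_bot]
    congr 2
    ext z
    constructor
    · rintro ⟨w, hw, rfl⟩
      exact hw
    · intro hz
      exact ⟨⟨z, hGN z hz⟩, hz, rfl⟩
  have hbase := hK _ (kstep_chain p hroots P ⊤ le_top (fun g _ h _ => hPc g h)
    (by rw [Subgroup.relIndex_top_right]; exact hPi))
  have hPU := hAS _ _ (astep_chain p (P ⊓ U) P inf_le_left hPp) hbase.1 hbase.2
  -- (c) Kummer steps down
  have hchain := kstep_chain p hroots (P ⊓ U) U inf_le_right
    (fun g hg h hh => ⟨hPc g h, U.mul_mem (U.mul_mem (U.mul_mem hg hh) (U.inv_mem hg))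
      (U.inv_mem hh)⟩)
    (by
      rw [Subgroup.inf_relIndex_right]
      exact Nat.Coprime.coprime_dvd_right (Subgroup.relIndex_dvd_index_of_normal P U) hPi)
  have hfix : IntermediateField.fixedField U = L' := IsGalois.fixedField_fixingSubgroup L'
  have hdown : ∀ E : IntermediateField L N, Relation.ReflTransGen (KStep (A := L) (N := N)) E
      (IntermediateField.fixedField (P ⊓ U)) → KTower S r (TowerT N E) := by
    intro E hE
    induction hE using Relation.ReflTransGen.head_induction_on with
    | refl => exact KTower.base _ hPU.2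
    | head hs _ ih =>
      obtain ⟨l, hl, hl0, w, hw, rfl⟩ := hs
      have hl1 : (l : k) ≠ 0 := fun h0 => hl0 (by
        rw [← map_natCast (algebraMap k L), h0, map_zero])
      refine KTower.step _ l (w : W) hl hl1 (tower_mem.mpr ⟨w ^ l, hw, rfl⟩) ?_
      rw [← hstep]
      exact ih
  rw [hfix] at hchain
  rw [← hTL']
  exact hdown _ hchain

end Pool.Agent.Lib.TDO
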