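import Pool.Agent.Lib.TDO.Descend
import Pool.Agent.Lib.TDO.FinalW
import Pool.Agent.Lib.TDO.Transp
import Pool.Agent.Lib.TDO.Ambient
import Pool.Agent.Lib.TDO.Start
import Pool.Agent.Lib.TDO.LemH
import Pool.Agent.Lib.TDO.Tower
import Pool.Agent.Lib.MP_3029eb_ag.AbhC1
import Pool.Agent.Lib.MP_3029eb_ag.ImpSub

/-!
# Module Main: assembly

`main_chart`: the function field, embedded in a large algebraically closed normed field, has a
chart (start, tower, descent, choice of parameters in the function field).  `main_ball`,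
`main_emb`: embedded local uniformization of a local domain essentially of finite type.
-/

open Pool.Agent.Lib.MP_3029eb_ag Pool.Agent.Lib.MP_3029eb_ag.Abh

namespace Pool.Agent.Lib.TDO

/-- the separable closure of `F0` in `W`, as an extension of `k` -/
noncomputable def main_S {k W : Type} [Field k] [Field W] [Algebra k W]
    (F0 : IntermediateField k W) : IntermediateField k W :=
  (separableClosure F0 W).restrictScalars k

theorem main_mem_S {k W : Type} [Field k] [Field W] [Algebra k W]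
    {F0 : IntermediateField k W} {z : W} : z ∈ main_S F0 ↔ IsSeparable F0 z :=
  mem_separableClosure_iff

theorem main_S_closed {k W : Type} [Field k] [Field W] [Algebra k W]
    (F0 : IntermediateField k W) (z : W) (hz : IsSeparable (main_S F0) z) : z ∈ main_S F0 := by
  have h1 : IsSeparable (separableClosure F0 W) z := hz
  have h2 : z ∈ separableClosure (separableClosure F0 W) W := mem_separableClosure_iff.2 h1
  rw [separableClosure.separableClosure_eq_bot, IntermediateField.mem_bot] at h2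
  obtain ⟨w, hw⟩ := h2
  rw [← hw]
  exact w.2

theorem main_ev {k F W : Type} [Field k] [Field F] [Field W] [Algebra k F] [Algebra k W]
    (ι : F →ₐ[k] W) {r : ℕ} (x : Fin r → F) (y : F) (P : LP k r) :
    ev (fun i => ι (x i)) (ι y) P = ι (ev x y P) := by
  unfold ev
  rw [Finsupp.sum, Finsupp.sum, map_sum]
  refine Finset.sum_congr rfl fun m _ => ?_
  rw [map_mul, map_mul, map_pow, AlgHom.commutes]
  have h : mon (fun i => ι (x i)) m.1 = ι (mon x m.1) := by
    unfold mon
    rw [map_prod]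
    exact Finset.prod_congr rfl fun i _ => (map_zpow₀ ι _ _).symm
  rw [h]

theorem main_Kxy {k F W : Type} [Field k] [Field F] [Field W] [Algebra k F] [Algebra k W]
    (ι : F →ₐ[k] W) {r : ℕ} (x : Fin r → F) (y : F) :
    Kxy k (fun i => ι (x i)) (ι y) = (Kxy k x y).map ι := by
  unfold Kxy
  rw [IntermediateField.adjoin_map, Set.image_union, Set.image_singleton, ← Set.range_comp]
  rfl

theorem main_sep {k F W : Type} [Field k] [Field F] [Field W] [Algebra k F] [Algebra k W]
    (ι : F →ₐ[k] W) (E : IntermediateField k F) (z : F) (hz : IsSeparable E z) :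
    IsSeparable (E.map ι) (ι z) := by
  have h1 : IsIntegral E z := hz.isIntegral
  let φ : E →+* E.map ι :=
    { toFun := fun w => ⟨ι w, ⟨w, w.2, rfl⟩⟩
      map_one' := Subtype.ext (map_one ι)
      map_mul' := fun a b => Subtype.ext (map_mul ι _ _)
      map_zero' := Subtype.ext (map_zero ι)
      map_add' := fun a b => Subtype.ext (map_add ι _ _) }
  have h2 : (((minpoly E z).map φ).map (algebraMap (E.map ι) W)).eval (ι z) = 0 := by
    rw [Polynomial.map_map]
    have e1 : (algebraMap (E.map ι) W).comp φ = (ι : F →+* W).comp (algebraMap E F) := by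
      ext w; rfl
    rw [e1, ← Polynomial.map_map]
    have h3 : ((minpoly E z).map (algebraMap E F)).eval z = 0 := by
      rw [Polynomial.eval_map_algebraMap]
      exact minpoly.aeval E z
    have h4 := Polynomial.eval_map_apply (f := (ι : F →+* W)) (p := (minpoly E z).map (algebraMap E F)) z
    rw [h3, map_zero] at h4
    exact h4
  have h5 : minpoly (E.map ι) (ι z) ∣ (minpoly E z).map φ := by
    refine minpoly.dvd _ _ ?_
    rw [← Polynomial.eval_map_algebraMap]
    exact h2
  exact Polynomial.Separable.of_dvd (Polynomial.Separable.map hz) h5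

theorem main_sep_le {k W : Type} [Field k] [Field W] [Algebra k W]
    {E F : IntermediateField k W} (h : E ≤ F) {z : W} (hz : IsSeparable E z) :
    IsSeparable F z := by
  let _ : Algebra E F := (IntermediateField.inclusion h).toRingHom.toAlgebra
  have _ : IsScalarTower E F W := IsScalarTower.of_algebraMap_eq fun _ => rfl
  exact hz.tower_top F

theorem main_sep_trans {k W : Type} [Field k] [Field W] [Algebra k W]
    {E F : IntermediateField k W} (hEF : E ≤ F)
    (hF : ∀ z ∈ F, IsSeparable E z) {z : W} (hz : IsSeparable F z) : IsSeparable E z := by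
  let _ : Algebra E F := (IntermediateField.inclusion hEF).toRingHom.toAlgebra
  have _ : IsScalarTower E F W := IsScalarTower.of_algebraMap_eq fun a => rfl
  have _ : Algebra.IsSeparable E F := ⟨fun w => by
    have h1 := hF (w : W) w.2
    unfold IsSeparable at h1 ⊢
    have h2 : minpoly E ((algebraMap F W) w) = minpoly E w :=
      minpoly.algebraMap_eq (algebraMap F W).injective w
    rw [← h2]
    exact h1⟩
  exact IsSeparable.of_algebra_isSeparable_of_isSeparable E hz

theorem main_chart {k F : Type} [Field k] [IsAlgClosed k] [NontriviallyNormedField F]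
    [IsUltrametricDist F] [Algebra k F] [Algebra.EssFiniteType k F] {r : ℕ} (hF : Amb r k F)
    (hr : 0 < r) (p : ℕ) [Fact p.Prime] [CharP k p] (htr : Algebra.trdeg k F = (r + 1 : ℕ))
    (x : Fin r → F) (hx : Indep x) :
    ∃ (W : Type) (_ : NontriviallyNormedField W) (_ : IsUltrametricDist W) (_ : Algebra k W)
      (ι : F →ₐ[k] W) (S : IntermediateField k W) (x' : Fin r → W) (y' : W),
      (∀ z, ‖ι z‖ = ‖z‖) ∧ Amb r k W ∧ FF S ι.fieldRange ∧ Chart S (cl ι.fieldRange) x' y' ∧
      (∀ i, x' i ∈ ι.fieldRange) ∧ y' ∈ ι.fieldRange := by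
  classical
  obtain ⟨W, i1, i2, i3, i4, ι, hι, hA, hcomp⟩ := exists_amb hF
  set F0 : IntermediateField k W := ι.fieldRange with hF0
  set S : IntermediateField k W := main_S F0 with hSdef
  have hS : ∀ z : W, IsSeparable S z → z ∈ S := main_S_closed F0
  have hle : F0 ≤ S := fun z hz =>
    main_mem_S.2 (isSeparable_algebraMap (F := F0) (K := W) (⟨z, hz⟩ : F0))
  have hmemF : ∀ z : F, ι z ∈ F0 := fun z => ⟨z, rfl⟩
  -- finite generation
  obtain ⟨G0, hG0⟩ : (⊤ : IntermediateField k F).FG :=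
    IntermediateField.fg_top_iff.2 ‹Algebra.EssFiniteType k F›
  set G : Finset W := G0.image ι with hG
  have hadj : IntermediateField.adjoin k (G : Set W) = F0 := by
    rw [hG, Finset.coe_image]
    have h1 := IntermediateField.adjoin_map k (G0 : Set F) ι
    rw [hG0] at h1
    rw [← AlgHom.fieldRange_eq_map] at h1
    exact h1.symm
  have hFG : F0.FG := ⟨G, hadj⟩
  have hcomp' : IsComplete ((cl F0 : IntermediateField k W) : Set W) := by
    have h1 : ((cl F0 : IntermediateField k W) : Set W) = closure (Set.range ι) := rfl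
    rw [h1]
    exact hcomp
  have hFF : FF S F0 := ⟨hFG, hle, fun z hz => main_mem_S.1 hz, hcomp'⟩
  -- start
  obtain ⟨x1, y1, hP1, hsep1⟩ := exists_start hF htr x hx
  set x2 : Fin r → W := fun i => ι (x1 i) with hx2
  set y2 : W := ι y1 with hy2
  have hmon : ∀ a : Fin r → ℤ, mon x2 a = ι (mon x1 a) := by
    intro a
    unfold mon
    rw [map_prod]
    exact Finset.prod_congr rfl fun i _ => (map_zpow₀ ι _ _).symm
  have hP2 : Par k x2 y2 := by
    refine ⟨⟨fun i => ?_, fun i => ?_, fun δ hδ => ?_⟩, ?_, fun P hP => ?_⟩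
    · exact (map_ne_zero ι).2 (hP1.ind.ne i)
    · show ‖ι (x1 i)‖ < 1
      rw [hι]; exact hP1.ind.lt i
    · apply hP1.ind.indep
      rw [hmon, hι] at hδ
      exact hδ
    · rw [hy2, hι]; exact hP1.y1
    · rw [hx2, hy2, main_ev, map_eq_zero] at hP
      exact hP1.tr P hP
  set E : IntermediateField k W := Kxy k x2 y2 with hE
  have hEmap : E = (Kxy k x1 y1).map ι := main_Kxy ι x1 y1
  have hEF : E ≤ F0 := by
    rw [hEmap]
    rintro _ ⟨z, _, rfl⟩
    exact hmemF z
  have hsepF : ∀ z ∈ F0, IsSeparable E z := by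
    rintro _ ⟨z, rfl⟩
    rw [hEmap]
    exact main_sep ι _ z (hsep1 z)
  have hsepS : ∀ z ∈ S, IsSeparable E z := fun z hz =>
    main_sep_trans hEF hsepF (main_mem_S.1 hz)
  set L0 : IntermediateField k W := cl E with hL0
  have hEcl : E ≤ cl F0 := hEF.trans (le_cl F0)
  have hL0c : IsComplete (L0 : Set W) := isComplete_cl hcomp' hEcl
  have hx2E : ∀ i, x2 i ∈ E := fun i => x_mem_Kxy x2 y2 i
  have hy2E : y2 ∈ E := y_mem_Kxy x2 y2
  have hch : Chart S L0 x2 y2 :=
    ⟨hP2, fun i => hle (hmemF _), hle (hmemF _), fun i => le_cl E (hx2E i), le_cl E hy2E, le_rfl,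
      hsepS⟩
  have hi : 0 < r := hr
  have hntE : ∃ z ∈ E, z ≠ 0 ∧ ‖z‖ < 1 :=
    ⟨x2 ⟨0, hr⟩, hx2E _, hP2.ind.ne _, hP2.ind.lt _⟩
  have hGsep : ∀ θ ∈ G, IsSeparable L0 θ := by
    intro θ hθ
    have hθF : θ ∈ F0 := by
      rw [← hadj]; exact IntermediateField.subset_adjoin k _ hθ
    exact main_sep_le (le_cl E) (hsepF θ hθF)
  have hT := tower hA hr p S L0 hS hL0c ⟨x2, y2, hch⟩ G hGsep
  have hcl : L0 ⊔ IntermediateField.adjoin k (G : Set W) = cl F0 := by
    apply le_antisymm
    · refine sup_le ?_ ?_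
      · exact cl_mono hEF
      · rw [hadj]; exact le_cl F0
    · refine cl_le_of_isComplete (isComplete_sup_finset hL0c ?_ G fun θ hθ =>
        (hGsep θ hθ).isIntegral.isAlgebraic) ?_
      · obtain ⟨z, hz, h⟩ := hntE
        exact ⟨z, le_cl E hz, h⟩
      · rw [← hadj]; exact le_sup_right
  rw [hcl] at hT
  have hntF : ∃ z ∈ F0, z ≠ 0 ∧ ‖z‖ < 1 := by
    obtain ⟨z, hz, h⟩ := hntE
    exact ⟨z, hEF hz, h⟩
  have hD := descend hA hr S F0 hS hFF hntF hT
  obtain ⟨x', y', hc, hx', hy'⟩ := lemH hA hr S F0 hFF hD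
  exact ⟨W, i1, i2, i3, ι, S, x', y', hι, hA, hFF, hc, hx', hy'⟩

open Classical in
theorem main_ball (p : ℕ) [Fact p.Prime] (k : Type) [Field k] [IsAlgClosed k] [CharP k p]
    (R K : Type) [CommRing R] [IsDomain R] [IsLocalRing R] [Algebra k R]
    [Algebra.EssFiniteType k R] [NontriviallyNormedField K] [IsUltrametricDist K] [Algebra R K]
    [IsFractionRing R K] [Algebra k K] [IsScalarTower k R K]
    (hRV : ∀ a : R, algebraMap R K a ∈ ball K)
    (hRm : ∀ a : R, a ∈ IsLocalRing.maximalIdeal R ↔ (ball K).valuation (algebraMap R K a) < 1)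
    (hres : ∀ z ∈ ball K, ∃ c : k, (ball K).valuation (z - algebraMap k K c) < 1)
    (r : ℕ) (hr : 0 < r) (htr : Algebra.trdeg k K = (r + 1 : ℕ)) (x : Fin r → K)
    (hx0 : ∀ i, x i ≠ 0)
    (hx : ∀ m : Fin r → ℤ, (ball K).valuation (∏ i, x i ^ m i) = 1 → m = 0)
    (hrank : ∀ z : Fin (r + 1) → K, (∀ i, z i ≠ 0) →
      ∃ m : Fin (r + 1) → ℤ, m ≠ 0 ∧ (ball K).valuation (∏ i, z i ^ m i) = 1) :
    Imp.EMB2 (ball K) (algebraMap R K).range r 1 := by
  have hinj : Function.Injective (algebraMap R K) := IsFractionRing.injective R K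
  have hRn : ∀ a : R, ‖algebraMap R K a‖ ≤ 1 := fun a => (mem_ball _).1 (hRV a)
  have hunit : ∀ a : R, IsUnit a ↔ ‖algebraMap R K a‖ = 1 := by
    intro a
    have h1 := hRm a
    rw [ball_val_lt_one, IsLocalRing.mem_maximalIdeal, mem_nonunits_iff] at h1
    constructor
    · intro h
      by_contra hne
      exact (h1.2 (lt_of_le_of_ne (hRn a) hne)) h
    · intro h
      by_contra hne
      exact absurd (h1.1 hne) (by rw [h]; exact lt_irrefl _)
  have hkR : ∀ c : k, algebraMap k K c = algebraMap R K (algebraMap k R c) := fun c =>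
    IsScalarTower.algebraMap_apply k R K c
  have hefK : Algebra.EssFiniteType k K := by
    have h1 : Algebra.EssFiniteType R K :=
      Algebra.EssFiniteType.of_isLocalization K (nonZeroDivisors R)
    exact Algebra.EssFiniteType.comp k R K
  have hF : Amb r k K := by
    refine ⟨fun c hc => ?_, fun z hz => ?_, fun z hz => ?_⟩
    · rw [hkR, ← hunit]
      exact (IsUnit.mk0 c hc).map (algebraMap k R)
    · obtain ⟨c, hc⟩ := hres z ((mem_ball _).2 hz)
      exact ⟨c, (ball_val_lt_one _).1 hc⟩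
    · obtain ⟨m, hm, h1⟩ := hrank z hz
      exact ⟨m, hm, (ball_val_eq_one _).1 h1⟩
  -- elements of value less than one
  have hxne : ∀ i, ‖x i‖ ≠ 1 := by
    intro i h1
    have h2 := hx (Pi.single i 1) (by
      rw [ball_val_eq_one, Finset.prod_eq_single i]
      · rw [Pi.single_eq_same, zpow_one]; exact h1
      · intro j _ hj
        rw [Pi.single_eq_of_ne hj, zpow_zero]
      · intro h; exact absurd (Finset.mem_univ i) h)
    have h3 := congrFun h2 i
    rw [Pi.single_eq_same] at h3
    exact one_ne_zero h3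
  let σ : Fin r → ℤ := fun i => if ‖x i‖ < 1 then 1 else -1
  have hσ : ∀ i, σ i ≠ 0 := by
    intro i
    show (if ‖x i‖ < 1 then (1 : ℤ) else -1) ≠ 0
    split_ifs <;> norm_num
  have hind : Indep (fun i => x i ^ σ i) := by
    refine ⟨fun i => zpow_ne_zero _ (hx0 i), fun i => ?_, fun δ hδ => ?_⟩
    · show ‖x i ^ (if ‖x i‖ < 1 then (1 : ℤ) else -1)‖ < 1
      split_ifs with h
      · rw [zpow_one]; exact h
      · rw [zpow_neg_one, norm_inv]
        exact inv_lt_one_of_one_lt₀ (lt_of_le_of_ne (not_lt.1 h) (hxne i).symm)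
    · have h1 : mon (fun i => x i ^ σ i) δ = ∏ i, x i ^ (σ i * δ i) := by
        unfold mon
        exact Finset.prod_congr rfl fun i _ => (zpow_mul _ _ _).symm
      have h2 := hx (fun i => σ i * δ i) (by rw [ball_val_eq_one, ← h1]; exact hδ)
      funext i
      have h3 := congrFun h2 i
      exact (mul_eq_zero.1 h3).resolve_left (hσ i)
  obtain ⟨W, i1, i2, i3, ι, S, x', y', hι, hA, hFF, hch, hx', hy'⟩ :=
    main_chart hF hr p htr _ hind
  have hιinj : Function.Injective ι := ι.toRingHom.injective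
  set A0 : Subring K := (algebraMap R K).range with hA0def
  let ι' : K →+* W := (ι : K →+* W)
  -- the generators
  obtain ⟨G, hG⟩ := (Algebra.essFiniteType_iff k R).1 (inferInstance : Algebra.EssFiniteType k R)
  let φ : R →+* W := ι'.comp (algebraMap R K)
  have hφk : ∀ c : k, φ (algebraMap k R c) = algebraMap k W c := by
    intro c
    show ι (algebraMap R K (algebraMap k R c)) = _
    rw [← hkR, AlgHom.commutes]
  let G0 : Finset W := G.image φ
  have hφmem : ∀ a : R, φ a ∈ ι.fieldRange := fun a => ⟨algebraMap R K a, rfl⟩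
  have hφn : ∀ a : R, ‖φ a‖ = ‖algebraMap R K a‖ := fun a => hι _
  have hG0 : ∀ z ∈ G0, z ∈ ι.fieldRange ∧ ‖z‖ ≤ 1 := by
    intro z hz
    obtain ⟨a, _, rfl⟩ := Finset.mem_image.1 hz
    exact ⟨hφmem a, (hφn a).le.trans (hRn a)⟩
  have hadj : ∀ t ∈ Algebra.adjoin k (G : Set R),
      φ t ∈ Subring.closure (Set.range (algebraMap k W) ∪ (G0 : Set W)) := by
    intro t ht
    induction ht using Algebra.adjoin_induction with
    | mem a ha =>
      exact Subring.subset_closure (Or.inr (Finset.mem_coe.2 (Finset.mem_image_of_mem φ ha)))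
    | algebraMap c =>
      rw [hφk]
      exact Subring.subset_closure (Or.inl ⟨c, rfl⟩)
    | add a b _ _ ha hb => rw [map_add]; exact add_mem ha hb
    | mul a b _ _ ha hb => rw [map_mul]; exact mul_mem ha hb
  have hA0 : A0.map ι' =
      locV (ball W) (Subring.closure (Set.range (algebraMap k W) ∪ (G0 : Set W))) := by
    apply le_antisymm
    · rintro _ ⟨_, ⟨a, rfl⟩, rfl⟩
      obtain ⟨t, ht, htu, hat⟩ := hG a
      refine ⟨φ (a * t), hadj _ hat, φ t, hadj _ ht, ?_, ?_⟩
      · rw [ball_val_eq_one, hφn]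
        exact (hunit t).1 htu
      · rw [map_mul]; rfl
    · have hcl : Subring.closure (Set.range (algebraMap k W) ∪ (G0 : Set W)) ≤ A0.map ι' := by
        rw [Subring.closure_le]
        rintro z (⟨c, rfl⟩ | hz)
        · exact ⟨algebraMap R K (algebraMap k R c), ⟨_, rfl⟩, hφk c⟩
        · obtain ⟨a, _, rfl⟩ := Finset.mem_image.1 (Finset.mem_coe.1 hz)
          exact ⟨algebraMap R K a, ⟨_, rfl⟩, rfl⟩
      rintro z ⟨a, ha, b, hb, hb1, hz⟩
      obtain ⟨_, ⟨a', rfl⟩, rfl⟩ := hcl ha
      obtain ⟨_, ⟨b', rfl⟩, rfl⟩ := hcl hb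
      rw [ball_val_eq_one] at hb1
      have hbu : IsUnit b' := (hunit b').2 (by rw [← hφn]; exact hb1)
      obtain ⟨u, rfl⟩ := hbu
      refine ⟨algebraMap R K (a' * ((u⁻¹ : Rˣ) : R)), ⟨_, rfl⟩, ?_⟩
      rw [map_mul, map_mul, ← hz, mul_assoc, ← map_mul, ← map_mul, Units.mul_inv, map_one,
        map_one, mul_one]
  have hfrac : ∀ z ∈ ι.fieldRange, ∃ a ∈ A0.map ι', ∃ b ∈ A0.map ι', b ≠ 0 ∧ z * b = a := by
    rintro _ ⟨z, rfl⟩
    obtain ⟨⟨a, b⟩, hab⟩ := IsLocalization.surj (nonZeroDivisors R) z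
    refine ⟨φ a, ⟨_, ⟨a, rfl⟩, rfl⟩, φ b, ⟨_, ⟨b, rfl⟩, rfl⟩, ?_, ?_⟩
    · intro h0
      have h1 : (b : R) = 0 := by
        apply hinj
        apply hιinj
        rw [map_zero, map_zero]
        exact h0
      exact nonZeroDivisors.ne_zero b.2 h1
    · show ι z * ι (algebraMap R K b) = ι (algebraMap R K a)
      rw [← map_mul, hab]
  intro s hs
  obtain ⟨g, u, gs, hg, hu, hgs, hcard, hgood, hmono⟩ :=
    final_W hA hr S ι.fieldRange hFF x' y' hch hx' hy' G0 hG0 (A0.map ι') hA0 hfrac
      (s.image ι) (by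
        intro z hz
        obtain ⟨f, hf, rfl⟩ := Finset.mem_image.1 hz
        obtain ⟨hf0, hfV, _⟩ := hs f hf
        exact ⟨⟨f, rfl⟩, (map_ne_zero ι).2 hf0, by rw [hι]; exact (mem_ball _).1 hfV⟩)
  choose u' hu' using hu
  let g' : Finset K := g.preimage ι hιinj.injOn
  let gs' : Finset K := gs.preimage ι hιinj.injOn
  have hg' : g'.image ι' = g := by
    ext t
    rw [Finset.mem_image]
    constructor
    · rintro ⟨a, ha, rfl⟩
      exact Finset.mem_preimage.1 ha
    · intro ht
      obtain ⟨a, ha⟩ := (hg t ht).2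
      exact ⟨a, Finset.mem_preimage.2 (by rw [show ι a = t from ha]; exact ht), ha⟩
  have hgs' : gs'.image ι' = gs := by
    ext t
    rw [Finset.mem_image]
    constructor
    · rintro ⟨a, ha, rfl⟩
      exact Finset.mem_preimage.1 ha
    · intro ht
      obtain ⟨a, ha⟩ := hgs t ht
      exact ⟨a, Finset.mem_preimage.2 (by rw [show ι a = t from ha]; exact ht), ha⟩
  have hu'' : (fun i => ι' (u' i)) = u := funext fun i => hu' i
  have hV : ∀ z, z ∈ ball K ↔ ‖ι' z‖ ≤ 1 := by
    intro z
    rw [mem_ball, ← hι z]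
    exact Iff.rfl
  obtain ⟨hG1, hM1⟩ := transp ι' (ball K) hV A0 g' u' gs' (by
    rw [hg', hgs', hu'']
    exact hgood)
  refine ⟨g', u', gs', ?_, ?_, hG1, ?_⟩
  · intro t ht
    rw [hV]
    exact (hg _ (Finset.mem_preimage.1 ht)).1
  · rw [← hcard, ← hgs']
    exact (Finset.card_image_of_injective gs' (f := ι') hιinj).symm
  · intro f hf
    apply hM1
    rw [hg', hu'']
    exact hmono _ (Finset.mem_image_of_mem ι hf)

/-- Embedded local uniformization. -/
theorem main_emb (p : ℕ) [Fact p.Prime] (k : Type) [Field k] [IsAlgClosed k] [CharP k p]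
    (R K : Type) [CommRing R] [IsDomain R] [IsLocalRing R] [Algebra k R]
    [Algebra.EssFiniteType k R] [Field K] [Algebra R K] [IsFractionRing R K] [Algebra k K]
    [IsScalarTower k R K] (V : ValuationSubring K)
    (harch : ∀ a b : K, a ≠ 0 → V.valuation b < 1 →
      ∃ n : ℕ, V.valuation (b ^ n) ≤ V.valuation a)
    (hRV : ∀ a : R, algebraMap R K a ∈ V)
    (hRm : ∀ a : R, a ∈ IsLocalRing.maximalIdeal R ↔ V.valuation (algebraMap R K a) < 1)
    (hres : ∀ z ∈ V, ∃ c : k, V.valuation (z - algebraMap k K c) < 1)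
    (r : ℕ) (hr : 0 < r) (htr : Algebra.trdeg k K = (r + 1 : ℕ)) (x : Fin r → K)
    (hx0 : ∀ i, x i ≠ 0)
    (hx : ∀ m : Fin r → ℤ, V.valuation (∏ i, x i ^ m i) = 1 → m = 0)
    (hrank : ∀ z : Fin (r + 1) → K, (∀ i, z i ≠ 0) →
      ∃ m : Fin (r + 1) → ℤ, m ≠ 0 ∧ V.valuation (∏ i, z i ^ m i) = 1) :
    Imp.EMB2 V (algebraMap R K).range r 1 := by
  have hV : V ≠ ⊤ := by
    rintro rfl
    have h1 : ∀ z : K, z ≠ 0 → (⊤ : ValuationSubring K).valuation z = 1 := by
      intro z hz
      rw [C1_val_one_iff]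
      exact ⟨ValuationSubring.mem_top _, ValuationSubring.mem_top _, hz⟩
    have h2 := hx (fun _ => 1) (h1 _ (Finset.prod_ne_zero_iff.2 fun i _ =>
      zpow_ne_zero _ (hx0 i)))
    have h3 := congrFun h2 ⟨0, hr⟩
    exact one_ne_zero h3
  obtain ⟨v, hna, hnt, hVv⟩ := exists_absval V hV harch
  let iN : NormedField K := v.toNormedField
  have hnorm : ∀ z : K, ‖z‖ = v z := fun z => rfl
  let iNN : NontriviallyNormedField K :=
    { v.toNormedField with
      non_trivial := by
        obtain ⟨y, hy0, hy⟩ := hnt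
        refine ⟨y⁻¹, ?_⟩
        have h1 : v y⁻¹ = (v y)⁻¹ := map_inv₀ v y
        show 1 < v y⁻¹
        rw [h1]
        exact (one_lt_inv₀ (v.pos hy0)).2 hy }
  have iU : IsUltrametricDist K :=
    IsUltrametricDist.isUltrametricDist_of_forall_norm_add_le_max_norm hna
  have hVb : V = ball K := by
    ext z
    rw [hVv, mem_ball]
    exact Iff.rfl
  subst hVb
  exact main_ball p k R K hRV hRm hres r hr htr x hx0 hx hrank

end Pool.Agent.Lib.TDO
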