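import Pool.Agent.Lib.TDO.Ev
import Pool.Agent.Lib.MP_3029eb_ag.AbhBase

/-!
# Module StageRf: a stage gives parameters and a refinement; Rf is a preorder

Write `w = algebraMap c + y'` (norm one, `w, w⁻¹ ∈ OO k x' y'`: `w ∈ LO k x' y'` has norm one).
From `Stage.hm`: `x i = mon x (single i 1) * y^0 = mon x' α * w^m`,
`y = mon x' γ * w^m'`; conversely, as `T` is bijective, `x' i = mon x' (single i 1) * w^0 =
mon x a * y^j` with `(a, j) = T.symm (single i 1, 0)` and `y' = y^e * mon x (-B) - c`.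
So `Kxy x' y' = Kxy x y`.
`LO x y ≤ OO x' y'`: a monomial `mon x a` of norm `≤ 1` is `mon x' (T (a,0)).1 * w ^ (T (a,0)).2`,
the first factor has the same norm and lies in `LO x' y'`, and `w^n ∈ OO x' y'`; same for `y`;
hence `OO x y ≤ OO x' y'` (elements of norm one of `OO x' y'` are invertible there).
`tr`: if `ev x' y' P' = 0`, write `P'` as a polynomial in `w` (translation `Y' = w - c`):
`∑ q (a', t) mon x' a' * w^t = 0`, the `q` not all zero if `P' ≠ 0`; the monomials
`mon x' a' * w^t = mon x a * y^j` with `(a, j) = T.symm (a', t)` are pairwise different Laurent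
monomials in `x, y`; multiply by `y^N` to get a nonzero `P : LP k r` with `ev x y P = 0`.
`genx, geny`: `x' i = mon x a * y^j` is a quotient of elements of `LL k x y` which are monomials
times units (as `x i, y` are), `y' = (y^e - c mon x B) / mon x B`.
-/

namespace Pool.Agent.Lib.TDO

open Pool.Agent.Lib.MP_3029eb_ag Pool.Agent.Lib.MP_3029eb_ag.Abh

variable {k W : Type} [Field k] [NormedField W] [IsUltrametricDist W] [Algebra k W] {r : ℕ}

private lemma sr_norm_w (hA : Amb r k W) {c : k} (hc : c ≠ 0) {y' : W} (hy : ‖y'‖ < 1) :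
    ‖algebraMap k W c + y'‖ = 1 := by
  have h1 : ‖algebraMap k W c‖ = 1 := hA.unit c hc
  have h2 : ‖y'‖ ≠ ‖algebraMap k W c‖ := by rw [h1]; exact ne_of_lt hy
  rw [add_comm, IsUltrametricDist.norm_add_eq_max_of_norm_ne_norm h2, h1, max_eq_right hy.le]

private lemma sr_w_mem_LO {x : Fin r → W} {y : W} (c : k) : algebraMap k W c + y ∈ LO k x y :=
  add_mem (algebraMap_mem_LO c) y_mem_LO

private lemma sr_w_zpow_mem (hA : Amb r k W) {c : k} (hc : c ≠ 0) {x : Fin r → W} {y : W}
    (hy : ‖y‖ < 1) (n : ℤ) : (algebraMap k W c + y) ^ n ∈ OO k x y := by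
  have h1 : algebraMap k W c + y ∈ OO k x y := LO_le_OO hA hy.le (sr_w_mem_LO c)
  have h2 := inv_mem_OO hA hy.le h1 (sr_norm_w hA hc hy)
  cases n with
  | ofNat n => rw [Int.ofNat_eq_natCast, zpow_natCast]; exact pow_mem h1 n
  | negSucc n => rw [zpow_negSucc, ← inv_pow]; exact pow_mem h2 _

/-- monomials in `x`, `y` are monomial for `x'` -/
private lemma sr_mo (hA : Amb r k W) {x : Fin r → W} {y : W} {x' : Fin r → W}
    {y' : W} {e : ℕ} {B : Fin r → ℤ} {c : k} {T : ((Fin r → ℤ) × ℤ) ≃+ ((Fin r → ℤ) × ℤ)}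
    (h : Stage x y x' y' e B c T) (a : Fin r → ℤ) (j : ℤ) :
    Mo (OO k x' y') x' (mon x a * y ^ j) := by
  refine ⟨(T (a, j)).1, (algebraMap k W c + y') ^ (T (a, j)).2, sr_w_zpow_mem hA h.c0 h.y1 _, ?_,
    h.hm a j⟩
  rw [norm_zpow, sr_norm_w hA h.c0 h.y1, one_zpow]

private lemma sr_y_ne {x : Fin r → W} {y : W} (hx : ∀ i, x i ≠ 0) (hA : Amb r k W)
    {x' : Fin r → W}
    {y' : W} {e : ℕ} {B : Fin r → ℤ} {c : k} {T : ((Fin r → ℤ) × ℤ) ≃+ ((Fin r → ℤ) × ℤ)}
    (h : Stage x y x' y' e B c T) : y ≠ 0 := by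
  intro h0
  have h1 := h.hw
  rw [h0, zero_pow (by have := h.e1; omega)] at h1
  have h2 : algebraMap k W c + y' ≠ 0 := by
    rw [← norm_ne_zero_iff, sr_norm_w hA h.c0 h.y1]; exact one_ne_zero
  exact mul_ne_zero (mon_ne x hx B) h2 h1.symm

omit [IsUltrametricDist W] in
private lemma sr_x' (x : Fin r → W) {y : W} {x' : Fin r → W}
    {y' : W} {e : ℕ} {B : Fin r → ℤ} {c : k} {T : ((Fin r → ℤ) × ℤ) ≃+ ((Fin r → ℤ) × ℤ)}
    (h : Stage x y x' y' e B c T) (m : (Fin r → ℤ) × ℤ) :
    mon x' m.1 * (algebraMap k W c + y') ^ m.2 = mon x (T.symm m).1 * y ^ (T.symm m).2 := by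
  have := h.hm (T.symm m).1 (T.symm m).2
  rw [Prod.mk.eta, T.apply_symm_apply] at this
  exact this.symm

private lemma sr_OO_le (hA : Amb r k W) {x : Fin r → W} {y : W} {x' : Fin r → W} {y' : W}
    (hy' : ‖y'‖ ≤ 1) (h : LO k x y ≤ OO k x' y') : OO k x y ≤ OO k x' y' := by
  rintro z ⟨a, ha, b, hb, hb1, hz⟩
  rw [ball_val_eq_one] at hb1
  have hb0 : b ≠ 0 := by rw [← norm_ne_zero_iff, hb1]; exact one_ne_zero
  have h1 := inv_mem_OO hA hy' (h hb) hb1
  have h2 : z = a * b⁻¹ := by rw [← hz, mul_assoc, mul_inv_cancel₀ hb0, mul_one]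
  rw [h2]
  exact mul_mem (h ha) h1

theorem stage_rf (hA : Amb r k W) {x : Fin r → W} {y : W} (hP : Par k x y) {x' : Fin r → W}
    {y' : W} {e : ℕ} {B : Fin r → ℤ} {c : k} {T : ((Fin r → ℤ) × ℤ) ≃+ ((Fin r → ℤ) × ℤ)}
    (h : Stage x y x' y' e B c T) : Rf k x y x' y' ∧ Mo (OO k x' y') x' y := by
  have hx := hP.ind.ne
  have hx' := h.ind.ne
  have hy0 : y ≠ 0 := sr_y_ne hx hA h
  have hw1 := sr_norm_w hA h.c0 h.y1
  have hmoy : Mo (OO k x' y') x' y := by
    have := sr_mo hA h 0 1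
    rwa [mon_zero, one_mul, zpow_one] at this
  have hmox : ∀ a, Mo (OO k x' y') x' (mon x a) := by
    intro a
    have := sr_mo hA h a 0
    rwa [zpow_zero, mul_one] at this
  have hx'i : ∀ i, x' i = mon x (T.symm (Pi.single i 1, 0)).1 * y ^ (T.symm (Pi.single i 1, 0)).2 := by
    intro i
    have := sr_x' x h (Pi.single i 1, 0)
    rwa [zpow_zero, mul_one, mon_single] at this
  have hy'e : y' * mon x B = y ^ e - algebraMap k W c * mon x B := by
    rw [h.hw]; ring
  have hmB : mon x B ≠ 0 := mon_ne x hx B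
  refine ⟨⟨?_, ?_, ?_, ?_, ?_⟩, hmoy⟩
  · apply le_antisymm
    · apply Kxy_le
      · intro i
        rw [hx'i]
        exact mul_mem (mon_mem_Kxy x y _) (zpow_mem (y_mem_Kxy x y) _)
      · have : y' = (y ^ e - algebraMap k W c * mon x B) * (mon x B)⁻¹ := by
          rw [← hy'e, mul_assoc, mul_inv_cancel₀ hmB, mul_one]
        rw [this]
        exact mul_mem (sub_mem (pow_mem (y_mem_Kxy x y) _)
          (mul_mem (IntermediateField.algebraMap_mem _ _) (mon_mem_Kxy x y _)))
          (inv_mem (mon_mem_Kxy x y _))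
    · have hwm : algebraMap k W c + y' ∈ Kxy k x' y' :=
        add_mem (IntermediateField.algebraMap_mem _ _) (y_mem_Kxy x' y')
      apply Kxy_le
      · intro i
        have := h.hm (Pi.single i 1) 0
        rw [zpow_zero, mul_one, mon_single] at this
        rw [this]
        exact mul_mem (mon_mem_Kxy x' y' _) (zpow_mem hwm _)
      · have := h.hm 0 1
        rw [mon_zero, one_mul, zpow_one] at this
        rw [this]
        exact mul_mem (mon_mem_Kxy x' y' _) (zpow_mem hwm _)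
  · apply sr_OO_le hA h.y1.le
    unfold LO
    rw [Subring.closure_le]
    rintro z ((⟨c', rfl⟩ | ⟨a, ha, rfl⟩) | hz)
    · exact LO_le_OO hA h.y1.le (algebraMap_mem_LO c')
    · exact Mo.mem_OO hA h.y1.le (hmox a) ha
    · rw [Set.mem_singleton_iff] at hz
      rw [hz]
      exact Mo.mem_OO hA h.y1.le hmoy hP.y1.le
  · intro i
    have := hmox (Pi.single i 1)
    rwa [mon_single] at this
  · intro i
    have hLm : ∀ a, mon x a ∈ LL k x y := fun a => Subring.subset_closure (Or.inl (Or.inr ⟨a, rfl⟩))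
    have hLy : y ∈ LL k x y := Subring.subset_closure (Or.inr rfl)
    set a := (T.symm (Pi.single i 1, 0)).1 with ha
    set j := (T.symm (Pi.single i 1, 0)).2 with hj
    refine ⟨mon x a * y ^ j.toNat, mul_mem (hLm a) (pow_mem hLy _), y ^ (-j).toNat,
      pow_mem hLy _, ?_, ?_, ?_⟩
    · have := sr_mo hA h a (j.toNat : ℤ)
      rwa [zpow_natCast] at this
    · have := sr_mo hA h 0 ((-j).toNat : ℤ)
      rwa [zpow_natCast, mon_zero, one_mul] at this
    · rw [hx'i, ← ha, ← hj, mul_assoc, ← zpow_natCast, ← zpow_natCast, ← zpow_add₀ hy0]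
      congr 2
      omega
  · refine ⟨y ^ e - algebraMap k W c * mon x B, ?_, mon x B,
      Subring.subset_closure (Or.inl (Or.inr ⟨B, rfl⟩)), hmox B, hy'e⟩
    have h1 : y ∈ LL k x y := Subring.subset_closure (Or.inr rfl)
    have h2 : algebraMap k W c ∈ LL k x y := Subring.subset_closure (Or.inl (Or.inl ⟨c, rfl⟩))
    have h3 : mon x B ∈ LL k x y := Subring.subset_closure (Or.inl (Or.inr ⟨B, rfl⟩))
    exact sub_mem (pow_mem h1 _) (mul_mem h2 h3)

/-! ### transcendence -/

private noncomputable def srF (c : k) : Multiplicative ((Fin r → ℤ) × ℕ) →* LP k r where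
  toFun m := AddMonoidAlgebra.single (m.toAdd.1, 0) 1 *
    (AddMonoidAlgebra.single (0, 1) 1 - algebraMap k (LP k r) c) ^ m.toAdd.2
  map_one' := by
    simp only [toAdd_one, Prod.fst_zero, Prod.snd_zero, pow_zero, mul_one]
    rfl
  map_mul' m m' := by
    simp only [toAdd_mul, Prod.fst_add, Prod.snd_add, pow_add]
    have : (AddMonoidAlgebra.single (m.toAdd.1 + m'.toAdd.1, 0) 1 : LP k r) =
        AddMonoidAlgebra.single (m.toAdd.1, 0) 1 * AddMonoidAlgebra.single (m'.toAdd.1, 0) 1 := by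
      rw [AddMonoidAlgebra.single_mul_single]; simp
    rw [this]; ring

private noncomputable def srPsi (c : k) : LP k r →ₐ[k] LP k r :=
  AddMonoidAlgebra.lift k (LP k r) ((Fin r → ℤ) × ℕ) (srF c)

private lemma srPsi_single (c : k) (a : Fin r → ℤ) (j : ℕ) :
    srPsi c (AddMonoidAlgebra.single (a, j) 1) = AddMonoidAlgebra.single (a, 0) 1 *
      (AddMonoidAlgebra.single (0, 1) 1 - algebraMap k (LP k r) c) ^ j := by
  unfold srPsi
  rw [AddMonoidAlgebra.lift_single, one_smul]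
  rfl

private lemma sr_pow_single (j : ℕ) :
    (AddMonoidAlgebra.single ((0 : Fin r → ℤ), 1) 1 : LP k r) ^ j =
      AddMonoidAlgebra.single (0, j) 1 := by
  rw [AddMonoidAlgebra.single_pow]
  simp

private lemma srPsi_inv (c : k) (P : LP k r) : srPsi (-c) (srPsi c P) = P := by
  have : (srPsi (-c)).comp (srPsi c) = AlgHom.id k (LP k r) := by
    apply AddMonoidAlgebra.algHom_ext
    · rintro ⟨a, j⟩
      rw [AlgHom.comp_apply, srPsi_single, map_mul, map_pow, map_sub, srPsi_single, srPsi_single,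
        AlgHom.commutes, pow_zero, mul_one, pow_one, AlgHom.id_apply]
      have h1 : (AddMonoidAlgebra.single ((0 : Fin r → ℤ), 0) 1 : LP k r) = 1 := rfl
      rw [h1, one_mul, map_neg, sub_neg_eq_add, add_sub_cancel_right, sr_pow_single,
        AddMonoidAlgebra.single_mul_single]
      simp
    · ext
  exact congrArg (fun f => f P) this

omit [IsUltrametricDist W] in
private lemma sr_ev_psi {x : Fin r → W} (hx : ∀ i, x i ≠ 0) (w : W) (c : k) (P : LP k r) :
    ev x w (srPsi c P) = ev x (w - algebraMap k W c) P := by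
  induction P using AddMonoidAlgebra.induction_linear with
  | zero => rw [map_zero, ev_zero, ev_zero]
  | add P Q hP hQ => rw [map_add, ev_add, ev_add, hP, hQ]
  | single m b =>
    obtain ⟨a, j⟩ := m
    have h1 : (AddMonoidAlgebra.single (a, j) b : LP k r) =
        b • AddMonoidAlgebra.single (a, j) 1 := by simp
    have h2 : ∀ (b : k) (P : LP k r), ev x w (b • P) = algebraMap k W b * ev x w P := by
      intro b P
      have : b • P = AddMonoidAlgebra.single (0, 0) b * P := by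
        have h3 : (AddMonoidAlgebra.single ((0 : Fin r → ℤ), 0) b : LP k r) =
          b • (1 : LP k r) := by
          have : (1 : LP k r) = AddMonoidAlgebra.single ((0 : Fin r → ℤ), 0) 1 := rfl
          rw [this]; simp
        rw [h3, smul_mul_assoc, one_mul]
      rw [this, ev_mul x w hx, ev_single, mon_zero, pow_zero, one_mul, mul_one]
    have h3 : ∀ n : ℕ, ev x w ((AddMonoidAlgebra.single ((0 : Fin r → ℤ), 1) 1 -
        algebraMap k (LP k r) c) ^ n) = (w - algebraMap k W c) ^ n := by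
      intro n
      induction n with
      | zero => rw [pow_zero, pow_zero, ev_one]
      | succ n ih =>
        rw [pow_succ, pow_succ, ev_mul x w hx, ih, ev_sub, ev_single]
        have : algebraMap k (LP k r) c = AddMonoidAlgebra.single (0, 0) c := rfl
        rw [this, ev_single, mon_zero]
        simp
    rw [h1, map_smul, h2, srPsi_single, ev_mul x w hx, ev_single, h3, ← h1, ev_single]
    simp

omit [IsUltrametricDist W] in
private lemma sr_li_iff (x : Fin r → W) (y : W) : (∀ P : LP k r, ev x y P = 0 → P = 0) ↔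
    LinearIndependent k (fun m : (Fin r → ℤ) × ℕ => mon x m.1 * y ^ m.2) := by
  have h : ∀ l : ((Fin r → ℤ) × ℕ) →₀ k, ev x y (AddMonoidAlgebra.ofCoeff l) =
      Finsupp.linearCombination k (fun m : (Fin r → ℤ) × ℕ => mon x m.1 * y ^ m.2) l := by
    intro l
    rw [Finsupp.linearCombination_apply]
    unfold ev
    rw [AddMonoidAlgebra.coeff_ofCoeff]
    exact Finsupp.sum_congr fun m _ => (Algebra.smul_def _ _).symm
  rw [linearIndependent_iff]
  constructor
  · intro hP l hl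
    rw [← h] at hl
    have := hP _ hl
    rw [← AddMonoidAlgebra.coeff_eq_zero, AddMonoidAlgebra.coeff_ofCoeff] at this
    exact this
  · intro hl P hP
    have h1 : P = AddMonoidAlgebra.ofCoeff P.coeff := rfl
    rw [h1, h] at hP
    rw [← AddMonoidAlgebra.coeff_eq_zero]
    exact hl _ hP

omit [IsUltrametricDist W] in
private lemma sr_li_zpow {x : Fin r → W} {y : W} (hy : y ≠ 0)
    (h : LinearIndependent k (fun m : (Fin r → ℤ) × ℕ => mon x m.1 * y ^ m.2)) :
    LinearIndependent k (fun m : (Fin r → ℤ) × ℤ => mon x m.1 * y ^ m.2) := by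
  rw [linearIndependent_iff_finset_linearIndependent]
  intro s
  obtain ⟨M, hM⟩ : ∃ M : ℕ, ∀ m ∈ s, 0 ≤ m.2 + M := by
    refine ⟨s.sup fun m => (-m.2).toNat, fun m hm => ?_⟩
    have : (-m.2).toNat ≤ s.sup fun m => (-m.2).toNat :=
      Finset.le_sup (f := fun m : (Fin r → ℤ) × ℤ => (-m.2).toNat) hm
    omega
  let f : s → (Fin r → ℤ) × ℕ := fun m => (m.1.1, (m.1.2 + M).toNat)
  have hf : Function.Injective f := by
    rintro ⟨m, hm⟩ ⟨m', hm'⟩ hmm
    have h1 : m.1 = m'.1 := congrArg (fun q : (Fin r → ℤ) × ℕ => q.1) hmm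
    have h2 : (m.2 + M).toNat = (m'.2 + M).toNat :=
      congrArg (fun q : (Fin r → ℤ) × ℕ => q.2) hmm
    have h3 := hM m hm
    have h4 := hM m' hm'
    have h5 : m.2 = m'.2 := by omega
    exact Subtype.ext (Prod.ext h1 h5)
  have h1 := h.comp f hf
  have h2 := h1.map' (LinearMap.mulLeft k (y ^ (-(M : ℤ)))) (by
    rw [LinearMap.ker_eq_bot]
    exact mul_right_injective₀ (zpow_ne_zero _ hy))
  have heq : (LinearMap.mulLeft k (y ^ (-(M : ℤ)))) ∘
      ((fun m : (Fin r → ℤ) × ℕ => mon x m.1 * y ^ m.2) ∘ f) =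
      fun m : s => mon x m.1.1 * y ^ m.1.2 := by
    funext m
    have h3 := hM m.1 m.2
    simp only [Function.comp_apply, LinearMap.mulLeft_apply, f]
    rw [← zpow_natCast, Int.toNat_of_nonneg h3, zpow_add₀ hy, zpow_neg, zpow_natCast]
    field_simp
  rw [heq] at h2
  exact h2

theorem stage_par (hA : Amb r k W) {x : Fin r → W} {y : W} (hP : Par k x y) {x' : Fin r → W}
    {y' : W} {e : ℕ} {B : Fin r → ℤ} {c : k} {T : ((Fin r → ℤ) × ℤ) ≃+ ((Fin r → ℤ) × ℤ)}
    (h : Stage x y x' y' e B c T) : Par k x' y' := by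
  refine ⟨h.ind, h.y1, ?_⟩
  have hy0 : y ≠ 0 := sr_y_ne hP.ind.ne hA h
  have h1 := sr_li_zpow hy0 ((sr_li_iff x y).1 hP.tr)
  let f : (Fin r → ℤ) × ℕ → (Fin r → ℤ) × ℤ := fun m => T.symm (m.1, (m.2 : ℤ))
  have hf : Function.Injective f := by
    rintro ⟨a, j⟩ ⟨a', j'⟩ hm
    have h2 := T.symm.injective hm
    rw [Prod.mk.injEq, Nat.cast_inj] at h2
    exact Prod.ext h2.1 h2.2
  have h2 := h1.comp f hf
  have heq : (fun m : (Fin r → ℤ) × ℤ => mon x m.1 * y ^ m.2) ∘ f =
      fun m : (Fin r → ℤ) × ℕ => mon x' m.1 * (algebraMap k W c + y') ^ m.2 := by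
    funext m
    have := sr_x' x h (m.1, (m.2 : ℤ))
    rw [zpow_natCast] at this
    exact this.symm
  rw [heq] at h2
  have h3 := (sr_li_iff x' (algebraMap k W c + y')).2 h2
  intro P hP0
  have h4 : y' = (algebraMap k W c + y') - algebraMap k W c := by ring
  rw [h4, ← sr_ev_psi h.ind.ne] at hP0
  have h5 := h3 _ hP0
  rw [← srPsi_inv c P, h5, map_zero]

/-! ### `Mo` -/

private lemma sr_mo_zpow (hA : Amb r k W) {x : Fin r → W} {y : W} (hx : ∀ i, x i ≠ 0)
    (hy : ‖y‖ ≤ 1) {z : W} (h : Mo (OO k x y) x z) (n : ℤ) : Mo (OO k x y) x (z ^ n) := by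
  have hn : ∀ {z : W}, Mo (OO k x y) x z → ∀ n : ℕ, Mo (OO k x y) x (z ^ n) := by
    intro z hz n
    induction n with
    | zero =>
      rw [pow_zero, ← mon_zero x]
      exact Mo.mon _ _
    | succ n ih => rw [pow_succ]; exact Mo.mul hx ih hz
  cases n with
  | ofNat n => rw [Int.ofNat_eq_natCast, zpow_natCast]; exact hn h n
  | negSucc n => rw [zpow_negSucc, ← inv_pow]; exact hn (Mo.inv hA hx hy h) _

private lemma sr_mo_mon (hA : Amb r k W) {x x' : Fin r → W} {y' : W} (hx' : ∀ i, x' i ≠ 0)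
    (hy' : ‖y'‖ ≤ 1) (h : ∀ i, Mo (OO k x' y') x' (x i)) (a : Fin r → ℤ) :
    Mo (OO k x' y') x' (mon x a) := by
  classical
  unfold mon
  have : ∀ s : Finset (Fin r), Mo (OO k x' y') x' (∏ i ∈ s, x i ^ a i) := by
    intro s
    induction s using Finset.induction_on with
    | empty =>
      rw [Finset.prod_empty, ← mon_zero x']
      exact Mo.mon _ _
    | insert i s hi ih =>
      rw [Finset.prod_insert hi]
      exact Mo.mul hx' (sr_mo_zpow hA hx' hy' (h i) _) ih
  exact this Finset.univ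

/-- Monomial elements stay monomial under refinement. -/
theorem Rf.mo_mo (hA : Amb r k W) {x : Fin r → W} {y : W} (hP : Par k x y) {x' : Fin r → W}
    {y' : W} (hP' : Par k x' y') (h : Rf k x y x' y') {z : W} (hz : Mo (OO k x y) x z) :
    Mo (OO k x' y') x' z := by
  obtain ⟨a, u, hu, hu1, rfl⟩ := hz
  refine Mo.mul hP'.ind.ne (sr_mo_mon hA hP'.ind.ne hP'.y1.le h.mo a) ?_
  refine ⟨0, u, h.le hu, hu1, ?_⟩
  rw [mon_zero, one_mul]

theorem Rf.refl (hA : Amb r k W) {x : Fin r → W} {y : W} (hP : Par k x y) : Rf k x y x y := by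
  have hm : ∀ i, Mo (OO k x y) x (x i) := by
    intro i
    have := Mo.mon (OO k x y) (x := x) (Pi.single i 1)
    rwa [mon_single] at this
  have h1 : Mo (OO k x y) x 1 := by
    have := Mo.mon (OO k x y) (x := x) 0
    rwa [mon_zero] at this
  refine ⟨rfl, le_refl _, hm, fun i => ⟨x i, ?_, 1, one_mem _, hm i, h1, mul_one _⟩,
    y, Subring.subset_closure (Or.inr rfl), 1, one_mem _, h1, mul_one _⟩
  refine Subring.subset_closure (Or.inl (Or.inr ⟨Pi.single i 1, ?_⟩))
  rw [mon_single]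

/-- `genx, geny` for the composition: substitute `x' i = n i / d i`, `y' = n / d` in an element of
`LL k x' y'`: it becomes an element of `LL k x y` divided by a product of elements `n i, d i, d` of
`LL k x y` which are monomial for `x', y'`, hence for `x'', y''` (`Rf.mo_mo`). -/
theorem Rf.trans (hA : Amb r k W) {x : Fin r → W} {y : W} (hP : Par k x y) {x' : Fin r → W}
    {y' : W} (hP' : Par k x' y') {x'' : Fin r → W} {y'' : W} (hP'' : Par k x'' y'')
    (h : Rf k x y x' y') (h' : Rf k x' y' x'' y'') : Rf k x y x'' y'' := by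
  classical
  have hx'' := hP''.ind.ne
  have hmm : ∀ {z : W}, Mo (OO k x' y') x' z → Mo (OO k x'' y'') x'' z :=
    fun hz => Rf.mo_mo hA hP' hP'' h' hz
  have h1 : Mo (OO k x'' y'') x'' 1 := by
    have := Mo.mon (OO k x'' y'') (x := x'') 0
    rwa [mon_zero] at this
  -- elements of `LL k x' y'` are quotients
  have hxz : ∀ (i : Fin r) (n : ℤ), ∃ N ∈ LL k x y, ∃ D ∈ LL k x y,
      Mo (OO k x'' y'') x'' D ∧ x' i ^ n * D = N := by
    intro i n
    obtain ⟨N, hN, D, hD, hmN, hmD, hND⟩ := h.genx i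
    have hN0 : N ≠ 0 := Mo.ne hP'.ind.ne hmN
    have hx0 : x' i ≠ 0 := hP'.ind.ne i
    have hD0 : D ≠ 0 := Mo.ne hP'.ind.ne hmD
    cases n with
    | ofNat n =>
      refine ⟨N ^ n, pow_mem hN n, D ^ n, pow_mem hD n, ?_, ?_⟩
      · have := sr_mo_zpow hA hx'' hP''.y1.le (hmm hmD) n
        rwa [zpow_natCast] at this
      · rw [Int.ofNat_eq_natCast, zpow_natCast, ← mul_pow, hND]
    | negSucc n =>
      refine ⟨D ^ (n + 1), pow_mem hD _, N ^ (n + 1), pow_mem hN _, ?_, ?_⟩
      · have := sr_mo_zpow hA hx'' hP''.y1.le (hmm hmN) ((n + 1 : ℕ) : ℤ)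
        rwa [zpow_natCast] at this
      · rw [zpow_negSucc, ← hND, mul_pow]
        field_simp
  have hmon : ∀ a : Fin r → ℤ, ∃ N ∈ LL k x y, ∃ D ∈ LL k x y,
      Mo (OO k x'' y'') x'' D ∧ mon x' a * D = N := by
    intro a
    unfold mon
    have : ∀ s : Finset (Fin r), ∃ N ∈ LL k x y, ∃ D ∈ LL k x y,
        Mo (OO k x'' y'') x'' D ∧ (∏ i ∈ s, x' i ^ a i) * D = N := by
      intro s
      induction s using Finset.induction_on with
      | empty => exact ⟨1, one_mem _, 1, one_mem _, h1, by rw [Finset.prod_empty, one_mul]⟩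
      | insert i s hi ih =>
        obtain ⟨N, hN, D, hD, hmD, hND⟩ := ih
        obtain ⟨N', hN', D', hD', hmD', hND'⟩ := hxz i (a i)
        refine ⟨N' * N, mul_mem hN' hN, D' * D, mul_mem hD' hD, Mo.mul hx'' hmD' hmD, ?_⟩
        rw [Finset.prod_insert hi, ← hND, ← hND']; ring
    exact this Finset.univ
  have hLL : ∀ z ∈ LL k x' y', ∃ N ∈ LL k x y, ∃ D ∈ LL k x y,
      Mo (OO k x'' y'') x'' D ∧ z * D = N := by
    intro z hz
    unfold LL at hz
    induction hz using Subring.closure_induction with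
    | mem z hz =>
      rcases hz with (⟨c, rfl⟩ | ⟨a, rfl⟩) | hz
      · exact ⟨algebraMap k W c, Subring.subset_closure (Or.inl (Or.inl ⟨c, rfl⟩)), 1, one_mem _,
          h1, mul_one _⟩
      · exact hmon a
      · rw [Set.mem_singleton_iff] at hz
        rw [hz]
        obtain ⟨N, hN, D, hD, hmD, hND⟩ := h.geny
        exact ⟨N, hN, D, hD, hmm hmD, hND⟩
    | zero => exact ⟨0, zero_mem _, 1, one_mem _, h1, zero_mul _⟩
    | one => exact ⟨1, one_mem _, 1, one_mem _, h1, one_mul _⟩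
    | add z z' _ _ hz hz' =>
      obtain ⟨N, hN, D, hD, hmD, hND⟩ := hz
      obtain ⟨N', hN', D', hD', hmD', hND'⟩ := hz'
      refine ⟨N * D' + N' * D, add_mem (mul_mem hN hD') (mul_mem hN' hD), D * D',
        mul_mem hD hD', Mo.mul hx'' hmD hmD', ?_⟩
      rw [← hND, ← hND']; ring
    | neg z _ hz =>
      obtain ⟨N, hN, D, hD, hmD, hND⟩ := hz
      exact ⟨-N, neg_mem hN, D, hD, hmD, by rw [← hND]; ring⟩
    | mul z z' _ _ hz hz' =>
      obtain ⟨N, hN, D, hD, hmD, hND⟩ := hz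
      obtain ⟨N', hN', D', hD', hmD', hND'⟩ := hz'
      refine ⟨N * N', mul_mem hN hN', D * D', mul_mem hD hD', Mo.mul hx'' hmD hmD', ?_⟩
      rw [← hND, ← hND']; ring
  refine ⟨h'.fld.trans h.fld, h.le.trans h'.le, fun i => hmm (h.mo i), ?_, ?_⟩
  · intro i
    obtain ⟨n, hn, d, hd, hmn, hmd, hnd⟩ := h'.genx i
    obtain ⟨N, hN, D, hD, hmD, hND⟩ := hLL n hn
    obtain ⟨N', hN', D', hD', hmD', hND'⟩ := hLL d hd
    refine ⟨N * D', mul_mem hN hD', N' * D, mul_mem hN' hD, ?_, ?_, ?_⟩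
    · rw [← hND]
      exact Mo.mul hx'' (Mo.mul hx'' hmn hmD) hmD'
    · rw [← hND']
      exact Mo.mul hx'' (Mo.mul hx'' hmd hmD') hmD
    · rw [← hND, ← hND', ← hnd]; ring
  · obtain ⟨n, hn, d, hd, hmd, hnd⟩ := h'.geny
    obtain ⟨N, hN, D, hD, hmD, hND⟩ := hLL n hn
    obtain ⟨N', hN', D', hD', hmD', hND'⟩ := hLL d hd
    refine ⟨N * D', mul_mem hN hD', N' * D, mul_mem hN' hD, ?_, ?_⟩
    · rw [← hND']
      exact Mo.mul hx'' (Mo.mul hx'' hmd hmD') hmD
    · rw [← hND, ← hND', ← hnd]; ring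

end Pool.Agent.Lib.TDO
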