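import Pool.Agent.Lib.TDO.StageAS
import Pool.Agent.Lib.TDO.StageRf
import Pool.Agent.Lib.TDO.Comb

/-!
# Module ASRun: after finitely many stages `d ≤ 1`

Proof.  Strong induction on `d` as in `thmA_LP` (for all `x, y, P` simultaneously, with the
hypotheses `hred, hne`).  `hne` is preserved: `Kxy x' y' = Kxy x y`, and
`ev x' y' P' - (s'^p - s') = (ev x y P - ((s + s')^p - (s + s'))) - (small)`.
An infinite run of the second alternative with constant `d ≥ 2` contradicts `comb` (`nu x`,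
first alternative in `h5`: `‖mon x (a0_s)‖ > 1` by `RedP` and `Lead.mem`, hence also the bound
`M = 0`; in `h3` the second case uses `2 ≤ d`).
-/

namespace Pool.Agent.Lib.TDO

open Pool.Agent.Lib.MP_3029eb_ag Pool.Agent.Lib.MP_3029eb_ag.Abh

section
variable {k W : Type} [Field k] [NormedField W] [IsUltrametricDist W] [Algebra k W] {r : ℕ}

/-- the hypothesis -/
private def ASRunH (p : ℕ) (k : Type) {W : Type} [Field k] [NormedField W]
    [Algebra k W] {r : ℕ} (x : Fin r → W) (y : W) (P : LP k r) : Prop :=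
  ∀ s ∈ Kxy k x y, 1 ≤ ‖ev x y P - (s ^ p - s)‖

/-- the conclusion -/
private def ASRunQ (p : ℕ) (k : Type) {W : Type} [Field k] [NormedField W] [IsUltrametricDist W]
    [Algebra k W] {r : ℕ} (x : Fin r → W) (y : W) (P : LP k r) : Prop :=
  ∃ (x' : Fin r → W) (y' : W) (P' : LP k r) (a0' : Fin r → ℤ) (d' : ℕ),
      Par k x' y' ∧ Rf k x y x' y' ∧ RedP p x' P' ∧
      (∃ s ∈ Kxy k x y, ‖ev x y P - ev x' y' P' - (s ^ p - s)‖ < 1) ∧
      Lead x' P' a0' d' ∧ d' ≤ 1

omit [IsUltrametricDist W] in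
private theorem frob_add (p : ℕ) [Fact p.Prime] [CharP k p] (s t : W) :
    (s + t) ^ p = s ^ p + t ^ p := by
  have : CharP W p := charP_of_injective_algebraMap (algebraMap k W).injective p
  exact add_pow_char s t p

private theorem small_add (p : ℕ) [Fact p.Prime] [CharP k p] {f g h s t : W}
    (h1 : ‖f - g - (s ^ p - s)‖ < 1) (h2 : ‖g - h - (t ^ p - t)‖ < 1) :
    ‖f - h - ((s + t) ^ p - (s + t))‖ < 1 := by
  have e : f - h - ((s + t) ^ p - (s + t)) = (f - g - (s ^ p - s)) + (g - h - (t ^ p - t)) := by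
    rw [frob_add (k := k) p]; ring
  rw [e]
  exact lt_of_le_of_lt (IsUltrametricDist.norm_add_le_max _ _) (max_lt h1 h2)

private theorem asrun_H (p : ℕ) [Fact p.Prime] [CharP k p] {x x' : Fin r → W} {y y' : W}
    {P P' : LP k r} (hH : ASRunH p k x y P) (hrf : Rf k x y x' y')
    (hs : ∃ s ∈ Kxy k x y, ‖ev x y P - ev x' y' P' - (s ^ p - s)‖ < 1) :
    ASRunH p k x' y' P' := by
  obtain ⟨s, hsK, hs1⟩ := hs
  intro t ht
  by_contra hcon
  push Not at hcon
  rw [hrf.fld] at ht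
  have h := hH (s + t) (add_mem hsK ht)
  have h2 := small_add (k := k) p (h := (0 : W)) hs1 (by rwa [sub_zero])
  rw [sub_zero] at h2
  linarith

private theorem asrun_Q (hA : Amb r k W) (p : ℕ) [Fact p.Prime] [CharP k p]
    {x x' : Fin r → W} {y y' : W} {P P' : LP k r} (hP : Par k x y) (hP' : Par k x' y')
    (hrf : Rf k x y x' y')
    (hs : ∃ s ∈ Kxy k x y, ‖ev x y P - ev x' y' P' - (s ^ p - s)‖ < 1)
    (hQ : ASRunQ p k x' y' P') : ASRunQ p k x y P := by
  obtain ⟨s, hsK, hs1⟩ := hs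
  obtain ⟨x'', y'', P'', a0', d', hP'', hrf', hred, ⟨t, htK, ht1⟩, hl, hd⟩ := hQ
  rw [hrf.fld] at htK
  exact ⟨x'', y'', P'', a0', d', hP'', Rf.trans hA hP hP' hP'' hrf hrf', hred,
    ⟨s + t, add_mem hsK htK, small_add (k := k) p hs1 ht1⟩, hl, hd⟩

private theorem asrun_aux [IsAlgClosed k] (hA : Amb r k W) (p : ℕ) [Fact p.Prime] [CharP k p]
    (d : ℕ) : ∀ (x : Fin r → W) (y : W) (P : LP k r) (a0 : Fin r → ℤ), Par k x y →
    RedP p x P → ASRunH p k x y P → Lead x P a0 d → ASRunQ p k x y P := by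
  classical
  induction d using Nat.strong_induction_on with
  | _ d ih =>
    intro x y0 P0 a00 hP0 hred0 hH0 hl0
    rcases Nat.lt_or_ge 1 d with hd | hd
    swap
    · have hp : p ≠ 0 := (Fact.out : p.Prime).ne_zero
      exact ⟨x, y0, P0, a00, d, hP0, Rf.refl hA hP0, hred0, ⟨0, zero_mem _, by
        rw [zero_pow hp, sub_self, sub_self, sub_self, norm_zero]; exact one_pos⟩, hl0, hd⟩
    by_contra hQ0
    -- states
    have hstep : ∀ s : {s : W × LP k r × (Fin r → ℤ) // Par k x s.1 ∧ RedP p x s.2.1 ∧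
        ASRunH p k x s.1 s.2.1 ∧ Lead x s.2.1 s.2.2 d ∧
        ¬ ASRunQ p k x s.1 s.2.1}, ∃ s' : {s : W × LP k r × (Fin r → ℤ) // Par k x s.1 ∧
        RedP p x s.2.1 ∧ ASRunH p k x s.1 s.2.1 ∧
        Lead x s.2.1 s.2.2 d ∧ ¬ ASRunQ p k x s.1 s.2.1}, ∃ b : Fin r → ℤ,
        s'.1.2.2 = s.1.2.2 + d • b ∧ ‖mon x b‖ < 1 ∧
        (s.1.2.1.coeff (s.1.2.2 + d • b, 0) ≠ 0 ∨
          s.1.2.1.coeff (s.1.2.2 + (d - 1) • b, 1) ≠ 0) ∧
        ∀ a' j', s'.1.2.1.coeff (a', j') ≠ 0 →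
          ∃ n : ℕ, ∃ a j, s.1.2.1.coeff (a, j) ≠ 0 ∧ p ^ n * j' ≤ j ∧
            p ^ n • a' = a + j • b := by
      rintro ⟨⟨y, P, a0⟩, hP, hred, hH, hl, hQ⟩
      simp only at hP hred hH hl hQ
      rcases stage_AS hA p hP P hred hl hd hH with
        ⟨x', y', P', a0', d', hP', hrf, hred', hs, hl', hd'⟩ |
        ⟨y', P', b, c, -, -, hP', hrf, hred', hs, hl', hb, hc1, hX⟩
      · exact absurd (asrun_Q hA p hP hP' hrf hs (ih d' hd' x' y' P' a0' hP' hred'
          (asrun_H p hH hrf hs) hl')) hQ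
      · exact ⟨⟨(y', P', a0 + d • b), hP', hred', asrun_H p hH hrf hs, hl', fun hQ' =>
          hQ (asrun_Q hA p hP hP' hrf hs hQ')⟩, b, rfl, hb, hc1, hX⟩
    choose next b h1 h2 h3 h5 using hstep
    set st : ℕ → {s : W × LP k r × (Fin r → ℤ) // Par k x s.1 ∧ RedP p x s.2.1 ∧
        ASRunH p k x s.1 s.2.1 ∧ Lead x s.2.1 s.2.2 d ∧
        ¬ ASRunQ p k x s.1 s.2.1} := fun n => next^[n] ⟨(y0, P0, a00), hP0, hred0, hH0, hl0, hQ0⟩
        with hst
    have hsucc : ∀ n, st (n + 1) = next (st n) := fun n => by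
      rw [hst]; exact Function.iterate_succ_apply' _ _ _
    have hind : Indep x := hP0.ind
    have hneg : ∀ n, nu x (st n).1.2.2 < 0 := fun n => by
      have h := ((st n).2.2.1 _ _ (st n).2.2.2.2.1.mem).1
      rw [← norm_one (α := W), ← mon_zero x, norm_mon_lt_iff hind, map_zero] at h
      exact h
    refine comb (nu x) (nu_injective hind) p d (Fact.out : p.Prime).two_le (by omega)
      (fun n => (st n).1.2.1.coeff.support)
      (fun n => b (st n)) (fun n => (st n).1.2.2) ?_ ?_ ?_ ?_ ?_ ⟨0, fun n => (hneg n).le⟩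
      (Or.inl hneg)
    · intro n
      have h := h2 (st n)
      rw [← norm_one (α := W), ← mon_zero x, norm_mon_lt_iff hind, map_zero] at h
      exact h
    · intro n
      rw [hsucc]
      exact h1 (st n)
    · intro n m hm
      have h := (st n).2.2.2.2.1.max m.1 m.2 (Finsupp.mem_support_iff.1 hm)
      rwa [norm_mon_le_iff hind] at h
    · intro n m' hm'
      rw [hsucc] at hm'
      obtain ⟨i, a, j, h6, h7, h8⟩ := h5 (st n) m'.1 m'.2 (Finsupp.mem_support_iff.1 hm')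
      exact ⟨i, (a, j), Finsupp.mem_support_iff.2 h6, h7, h8⟩
    · intro n
      rcases h3 (st n) with h | h
      · exact Or.inl (Finsupp.mem_support_iff.2 h)
      · exact Or.inr ⟨by omega, Finsupp.mem_support_iff.2 h⟩

end

theorem as_run {k W : Type} [Field k] [IsAlgClosed k] [NormedField W] [IsUltrametricDist W]
    [Algebra k W] {r : ℕ} (hA : Amb r k W) (p : ℕ) [Fact p.Prime] [CharP k p] {x : Fin r → W}
    {y : W} (hP : Par k x y) (P : LP k r) (hred : RedP p x P)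
    (hne : ∀ s ∈ Kxy k x y, 1 ≤ ‖ev x y P - (s ^ p - s)‖) :
    ∃ (x' : Fin r → W) (y' : W) (P' : LP k r) (a0' : Fin r → ℤ) (d' : ℕ),
      Par k x' y' ∧ Rf k x y x' y' ∧ RedP p x' P' ∧
      (∃ s ∈ Kxy k x y, ‖ev x y P - ev x' y' P' - (s ^ p - s)‖ < 1) ∧
      Lead x' P' a0' d' ∧ d' ≤ 1 := by
  have hP0 : P ≠ 0 := by
    rintro rfl
    have h := hne 0 (zero_mem _)
    rw [ev_zero, zero_pow (Fact.out : p.Prime).ne_zero, sub_self, sub_self, norm_zero] at h
    linarith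
  obtain ⟨a0, d, hl⟩ := exists_lead hP.ind P hP0
  exact asrun_aux hA p d x y P a0 hP hred hne hl

end Pool.Agent.Lib.TDO
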