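import Pool.Agent.Lib.TDO.Cl
import Pool.Agent.Lib.TDO.Tr
import Pool.Agent.Lib.TDO.Red
import Pool.Agent.Lib.TDO.Um

/-!
# Module CaseA: the Artin-Schreier step for `d = 0`

`f = ev x y P = c mon x a0 (1 + δ)`, `δ = ∑ c_m mon x b y^j` a finite sum of terms of norm less
than one (`(b, j) = (a - a0, j) ≠ 0`), `‖mon x a0‖ > 1`, `a0 ∉ pℤ^r` (`RedP`).
`ζ = θ⁻¹`: `ζ^p = (1 - ζ^(p-1)) / f` (because `θ^p (1 - ζ^(p-1)) = f`), `‖ζ‖ < 1`,
`‖ζ‖^p = ‖mon x (-a0)‖`.  Minimality: if `‖ζ‖^e' = ‖mon x B'‖`, `1 ≤ e' < p`, Bezout gives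
`‖ζ‖ = ‖mon x c‖`, hence `-a0 = p c`, contradiction.  `exists_um` with `y := ζ`, `e = p`,
`B = -a0`: `x'`, `T`, `η := ζ^p * mon x a0`, `mon x a * ζ^j = mon x' (T(a,j)).1 * η^(T(a,j)).2`.
`η = c⁻¹ (1 - ζ^(p-1)) / (1 + δ)`.  Write `x i = mon x' (A i) η^(m i)`, `ζ = mon x' g η^(m0)`; then
`η (1 + δ) = c⁻¹ (1 - ζ^(p-1))` reads `η = Φ(η)`,
`Φ(H) = c⁻¹ (1 - mon x' ((p-1) g) H^((p-1) m0)) / (1 + ∑ c_m mon x' (..) H^(..) y^j)`; every
occurring term has norm `≤ ρ < 1` for `‖H‖ = 1`, and for `‖H1‖ = ‖H2‖ = 1`, `‖H1 - H2‖ < 1`, `n ∈ ℤ`: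
`‖H1^n - H2^n‖ ≤ ‖H1 - H2‖`; so `‖Φ H1 - Φ H2‖ ≤ ρ ‖H1 - H2‖`.  `H_0 = c⁻¹` (`‖η - c⁻¹‖ < 1`),
`H_(n+1) = Φ(H_n) ∈ k(x', y)`, `H_n → η`.  So `η ∈ cl k(x', y)` and `x i, ζ, θ ∈ cl k(x', y)`.
Separability: `η` is a root of the Laurent polynomial
`G(H) = H (1 + δ(H)) - c⁻¹ (1 - ζ(H)^(p-1))` over `k(x', y)` (times a power of `H` a polynomial)
with `G'(η) = 1 + small ≠ 0`; so `η` is separable over `k(x', y)`, and `x i, θ ∈ k(x', y)(η)`.
`Par k x' y` by `tr_of_algebraic`.
-/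

namespace Pool.Agent.Lib.TDO

open Pool.Agent.Lib.MP_3029eb_ag Pool.Agent.Lib.MP_3029eb_ag.Abh

private theorem exists_rho {ι : Type} (s : Finset ι) (f : ι → ℝ) (h : ∀ i ∈ s, f i < 1) :
    ∃ ρ : ℝ, 0 < ρ ∧ ρ < 1 ∧ ∀ i ∈ s, f i ≤ ρ := by
  classical
  induction s using Finset.induction_on with
  | empty => exact ⟨1 / 2, by norm_num, by norm_num, fun i hi => absurd hi (Finset.notMem_empty i)⟩
  | insert a s _ ih =>
    obtain ⟨ρ, h0, h1, h2⟩ := ih fun i hi => h i (Finset.mem_insert_of_mem hi)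
    refine ⟨max ρ (f a), lt_max_of_lt_left h0, max_lt h1 (h a (Finset.mem_insert_self _ _)),
      fun i hi => ?_⟩
    rcases Finset.mem_insert.1 hi with rfl | hi
    · exact le_max_right _ _
    · exact (h2 i hi).trans (le_max_left _ _)

private theorem norm_sum_le' {W ι : Type} [NormedField W] [IsUltrametricDist W] (s : Finset ι)
    (f : ι → W) {C : ℝ} (hC : 0 ≤ C) (h : ∀ i ∈ s, ‖f i‖ ≤ C) : ‖∑ i ∈ s, f i‖ ≤ C :=
  IsUltrametricDist.norm_sum_le_of_forall_le_of_nonneg hC h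

private theorem norm_eq_one_of {W : Type} [NormedField W] [IsUltrametricDist W] {a b : W}
    (ha : ‖a‖ = 1) (h : ‖b - a‖ < 1) : ‖b‖ = 1 := by
  have h1 : b = a + (b - a) := by ring
  rw [h1, IsUltrametricDist.norm_add_eq_max_of_norm_ne_norm (by rw [ha]; exact h.ne'), ha]
  exact max_eq_left h.le

private theorem powdiff {W : Type} [NormedField W] [IsUltrametricDist W] {Y1 Y2 : W}
    (h1 : ‖Y1‖ = 1) (h2 : ‖Y2‖ = 1) (j : ℕ) : ‖Y1 ^ j - Y2 ^ j‖ ≤ ‖Y1 - Y2‖ := by
  induction j with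
  | zero =>
    rw [pow_zero, pow_zero, sub_self, norm_zero]
    exact norm_nonneg _
  | succ j ih =>
    have e : Y1 ^ (j + 1) - Y2 ^ (j + 1) = Y1 * (Y1 ^ j - Y2 ^ j) + (Y1 - Y2) * Y2 ^ j := by ring
    rw [e]
    refine (IsUltrametricDist.norm_add_le_max _ _).trans (max_le ?_ ?_)
    · rw [norm_mul, h1, one_mul]
      exact ih
    · rw [norm_mul, norm_pow, h2, one_pow, mul_one]

private theorem zpowdiff {W : Type} [NormedField W] [IsUltrametricDist W] {Y1 Y2 : W}
    (h1 : ‖Y1‖ = 1) (h2 : ‖Y2‖ = 1) (n : ℤ) : ‖Y1 ^ n - Y2 ^ n‖ ≤ ‖Y1 - Y2‖ := by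
  have n1 : Y1 ≠ 0 := by rw [← norm_pos_iff, h1]; exact one_pos
  have n2 : Y2 ≠ 0 := by rw [← norm_pos_iff, h2]; exact one_pos
  rcases Int.le_total 0 n with hn | hn
  · obtain ⟨j, rfl⟩ := Int.eq_ofNat_of_zero_le hn
    rw [zpow_natCast, zpow_natCast]
    exact powdiff h1 h2 j
  · obtain ⟨j, hj⟩ := Int.eq_ofNat_of_zero_le (show (0 : ℤ) ≤ -n by omega)
    have hn' : n = -(j : ℤ) := by omega
    rw [hn', zpow_neg, zpow_neg, zpow_natCast, zpow_natCast]
    have e : (Y1 ^ j)⁻¹ - (Y2 ^ j)⁻¹ = -((Y1 ^ j - Y2 ^ j) * ((Y1 ^ j)⁻¹ * (Y2 ^ j)⁻¹)) := by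
      have a1 := pow_ne_zero j n1
      have a2 := pow_ne_zero j n2
      field_simp
      ring
    rw [e, norm_neg, norm_mul, norm_mul, norm_inv, norm_inv, norm_pow, norm_pow, h1, h2, one_pow,
      inv_one, mul_one, mul_one]
    exact powdiff h1 h2 j

private theorem sep_crit {E L : Type} [Field E] [Field L] [Algebra E L] (x : L) (P : Polynomial L)
    (hc : ∀ i, P.coeff i ∈ Set.range (algebraMap E L)) (h0 : P.eval x = 0)
    (h1 : P.derivative.eval x ≠ 0) : IsSeparable E x := by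
  obtain ⟨Q, hQ⟩ := (Polynomial.mem_lifts _).1 ((Polynomial.lifts_iff_coeff_lifts P).2 hc)
  have hQ0 : Polynomial.aeval x Q = 0 := by
    rw [Polynomial.aeval_def, ← Polynomial.eval_map, hQ, h0]
  have hQ1 : Polynomial.aeval x Q.derivative ≠ 0 := by
    rw [Polynomial.aeval_def, ← Polynomial.eval_map, ← Polynomial.derivative_map, hQ]
    exact h1
  have hQne : Q ≠ 0 := by
    rintro rfl
    simp at hQ1
  have hint : IsIntegral E x := IsAlgebraic.isIntegral ⟨Q, hQne, hQ0⟩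
  obtain ⟨R, hR⟩ := minpoly.dvd E x hQ0
  have hd : (minpoly E x).derivative ≠ 0 := by
    intro h
    apply hQ1
    rw [hR, Polynomial.derivative_mul, h, zero_mul, zero_add, map_mul, minpoly.aeval, zero_mul]
  exact (Polynomial.separable_iff_derivative_ne_zero (minpoly.irreducible hint)).2 hd

private theorem ev_eq_sum {k W : Type} [Field k] [Field W] [Algebra k W] {r : ℕ} (x : Fin r → W)
    (y : W) (P : LP k r) :
    ev x y P = ∑ m ∈ P.coeff.support, algebraMap k W (P.coeff m) * (mon x m.1 * y ^ m.2) := rfl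

/-- an equation `η + ∑ α i η ^ n i = c0` with small `α i` and units `η`, `c0` -/
private theorem eq_lemma {k W ι : Type} [Field k] [NormedField W] [IsUltrametricDist W]
    [Algebra k W] (E : IntermediateField k W) (c0 : W) (hc0E : c0 ∈ E) (hc0 : ‖c0‖ = 1)
    (s : Finset ι) (α : ι → W) (hαE : ∀ i ∈ s, α i ∈ E) (hα : ∀ i ∈ s, ‖α i‖ < 1) (n : ι → ℤ)
    (η : W) (hη : ‖η‖ = 1) (heq : η + ∑ i ∈ s, α i * η ^ n i = c0) :
    η ∈ cl E ∧ IsSeparable E η := by
  classical
  obtain ⟨ρ, hρ0, hρ1, hρ⟩ := exists_rho s (fun i => ‖α i‖) hα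
  have hη0 : η ≠ 0 := by rw [← norm_pos_iff, hη]; exact one_pos
  have hsmall : ∀ H : W, ‖H‖ = 1 → ‖∑ i ∈ s, α i * H ^ n i‖ ≤ ρ := fun H hH =>
    norm_sum_le' _ _ hρ0.le fun i hi => by
      rw [norm_mul, norm_zpow, hH, one_zpow, mul_one]
      exact hρ i hi
  constructor
  · rw [mem_cl_iff]
    have hseq : ∀ m : ℕ, ∃ H ∈ E, ‖H‖ = 1 ∧ ‖H - η‖ ≤ ρ ^ m := by
      intro m
      induction m with
      | zero =>
        refine ⟨c0, hc0E, hc0, ?_⟩
        rw [pow_zero, sub_eq_add_neg]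
        refine (IsUltrametricDist.norm_add_le_max _ _).trans (max_le hc0.le ?_)
        rw [norm_neg]
        exact hη.le
      | succ m ih =>
        obtain ⟨H, hHE, hH1, hH2⟩ := ih
        refine ⟨c0 - ∑ i ∈ s, α i * H ^ n i, sub_mem hc0E (sum_mem fun i hi =>
          mul_mem (hαE i hi) (zpow_mem hHE _)), ?_, ?_⟩
        · refine norm_eq_one_of hc0 ?_
          rw [sub_sub_cancel_left, norm_neg]
          exact lt_of_le_of_lt (hsmall H hH1) hρ1
        · have e : c0 - ∑ i ∈ s, α i * H ^ n i - η = -∑ i ∈ s, α i * (H ^ n i - η ^ n i) := by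
            rw [← heq]
            simp only [mul_sub, Finset.sum_sub_distrib]
            ring
          rw [e, norm_neg]
          refine norm_sum_le' _ _ (by positivity) fun i hi => ?_
          rw [norm_mul, pow_succ']
          exact mul_le_mul (hρ i hi) ((zpowdiff hH1 hη (n i)).trans hH2) (norm_nonneg _) hρ0.le
    intro ε hε
    obtain ⟨m, hm⟩ := exists_pow_lt_of_lt_one hε hρ1
    obtain ⟨H, hHE, -, hH2⟩ := hseq m
    exact ⟨H, hHE, by rw [norm_sub_rev]; exact lt_of_le_of_lt hH2 hm⟩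
  · -- exponent shift
    obtain ⟨M, hM⟩ : ∃ M : ℕ, ∀ i ∈ s, 0 ≤ (M : ℤ) + n i := by
      refine ⟨∑ i ∈ s, (n i).natAbs, fun i hi => ?_⟩
      have h1 : (n i).natAbs ≤ ∑ i ∈ s, (n i).natAbs :=
        Finset.single_le_sum (f := fun i => (n i).natAbs) (fun _ _ => Nat.zero_le _) hi
      omega
    have hN : ∀ i ∈ s, ∃ N : ℕ, (M : ℤ) + n i = N := fun i hi =>
      Int.eq_ofNat_of_zero_le (hM i hi)
    set e : ι → ℕ := fun i => ((M : ℤ) + n i).toNat with he
    have heN : ∀ i ∈ s, ((e i : ℕ) : ℤ) = M + n i := fun i hi => Int.toNat_of_nonneg (hM i hi)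
    set G : Polynomial W := Polynomial.X ^ (M + 1) +
      (∑ i ∈ s, Polynomial.C (α i) * Polynomial.X ^ e i) -
      Polynomial.C c0 * Polynomial.X ^ M with hG
    have hpow : ∀ i ∈ s, η ^ e i = η ^ M * η ^ n i := fun i hi => by
      rw [← zpow_natCast, heN i hi, zpow_add₀ hη0, zpow_natCast]
    refine sep_crit η G ?_ ?_ ?_
    · have hCE : ∀ z ∈ E, (Polynomial.C z : Polynomial W) ∈ (Polynomial.mapRingHom
          (algebraMap E W)).range := fun z hz => ⟨Polynomial.C ⟨z, hz⟩, by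
        rw [Polynomial.coe_mapRingHom, Polynomial.map_C]; rfl⟩
      have hXE : (Polynomial.X : Polynomial W) ∈ (Polynomial.mapRingHom
          (algebraMap E W)).range := ⟨Polynomial.X, by
        rw [Polynomial.coe_mapRingHom, Polynomial.map_X]⟩
      have hGE : G ∈ (Polynomial.mapRingHom (algebraMap E W)).range := by
        rw [hG]
        exact sub_mem (add_mem (pow_mem hXE _) (sum_mem fun i hi => mul_mem (hCE _ (hαE i hi))
          (pow_mem hXE _))) (mul_mem (hCE _ hc0E) (pow_mem hXE _))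
      obtain ⟨Q, hQ⟩ := hGE
      intro i
      rw [← hQ, Polynomial.coe_mapRingHom, Polynomial.coeff_map]
      exact ⟨_, rfl⟩
    · rw [hG, Polynomial.eval_sub, Polynomial.eval_add, Polynomial.eval_finsetSum,
        Polynomial.eval_mul, Polynomial.eval_pow, Polynomial.eval_pow, Polynomial.eval_C,
        Polynomial.eval_X]
      have h1 : ∑ i ∈ s, Polynomial.eval η (Polynomial.C (α i) * Polynomial.X ^ e i) =
          η ^ M * ∑ i ∈ s, α i * η ^ n i := by
        rw [Finset.mul_sum]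
        refine Finset.sum_congr rfl fun i hi => ?_
        rw [Polynomial.eval_mul, Polynomial.eval_C, Polynomial.eval_pow, Polynomial.eval_X,
          hpow i hi]
        ring
      rw [h1, ← heq]
      ring
    · -- derivative
      have hder : η * G.derivative.eval η = η ^ M * (η + (M : W) * (η - c0)) +
          ∑ i ∈ s, α i * ((e i : W) * η ^ e i) := by
        have hX : ∀ j : ℕ, η * ((j : W) * η ^ (j - 1)) = (j : W) * η ^ j := by
          intro j
          rcases j with _ | j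
          · simp
          · rw [Nat.add_sub_cancel, pow_succ]; ring
        rw [hG, Polynomial.derivative_sub, Polynomial.derivative_add, Polynomial.derivative_sum,
          Polynomial.derivative_C_mul, Polynomial.derivative_X_pow, Polynomial.derivative_X_pow,
          Polynomial.eval_sub, Polynomial.eval_add, Polynomial.eval_finsetSum]
        simp only [Polynomial.eval_mul, Polynomial.eval_C, Polynomial.eval_pow, Polynomial.eval_X,
          Polynomial.derivative_C_mul, Polynomial.derivative_X_pow]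
        have h2 : η * ∑ i ∈ s, α i * ((e i : W) * η ^ (e i - 1)) =
            ∑ i ∈ s, α i * ((e i : W) * η ^ e i) := by
          rw [Finset.mul_sum]
          refine Finset.sum_congr rfl fun i _ => ?_
          rw [← hX (e i)]
          ring
        have h3 := hX (M + 1)
        have h4 := hX M
        calc η * (((M + 1 : ℕ) : W) * η ^ (M + 1 - 1) +
              ∑ i ∈ s, α i * ((e i : W) * η ^ (e i - 1)) - c0 * ((M : W) * η ^ (M - 1)))
            = η * (((M + 1 : ℕ) : W) * η ^ (M + 1 - 1)) +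
              η * ∑ i ∈ s, α i * ((e i : W) * η ^ (e i - 1)) -
              c0 * (η * ((M : W) * η ^ (M - 1))) := by ring
          _ = ((M + 1 : ℕ) : W) * η ^ (M + 1) + ∑ i ∈ s, α i * ((e i : W) * η ^ e i) -
              c0 * ((M : W) * η ^ M) := by rw [h2, h3, h4]
          _ = _ := by push_cast; ring
      intro h0
      rw [h0, mul_zero] at hder
      have h5 : ‖η - c0‖ < 1 := by
        have : η - c0 = -∑ i ∈ s, α i * η ^ n i := by rw [← heq]; ring
        rw [this, norm_neg]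
        exact lt_of_le_of_lt (hsmall η hη) hρ1
      have h6 : ‖∑ i ∈ s, α i * ((e i : W) * η ^ e i)‖ < 1 := by
        refine lt_of_le_of_lt (norm_sum_le' _ _ hρ0.le fun i hi => ?_) hρ1
        rw [norm_mul, norm_mul, norm_pow, hη, one_pow, mul_one]
        exact (mul_le_of_le_one_right (norm_nonneg _)
          (IsUltrametricDist.norm_natCast_le_one W (e i))).trans (hρ i hi)
      have h7 : ‖η ^ M * (η + (M : W) * (η - c0))‖ = 1 := by
        rw [norm_mul, norm_pow, hη, one_pow, one_mul]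
        refine norm_eq_one_of hη ?_
        rw [add_sub_cancel_left, norm_mul]
        exact lt_of_le_of_lt (mul_le_of_le_one_left (norm_nonneg _)
          (IsUltrametricDist.norm_natCast_le_one W M)) h5
      have h8 : ∑ i ∈ s, α i * ((e i : W) * η ^ e i) = -(η ^ M * (η + (M : W) * (η - c0))) := by
        linear_combination -hder
      rw [h8, norm_neg, h7] at h6
      exact lt_irrefl _ h6

theorem case_A {k W : Type} [Field k] [NormedField W] [IsUltrametricDist W]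
    [Algebra k W] {r : ℕ} (hA : Amb r k W) (p : ℕ) [Fact p.Prime] [CharP k p]
    {x : Fin r → W} {y : W} (hP : Par k x y) (P : LP k r) (hred : RedP p x P)
    {a0 : Fin r → ℤ} (hl : Lead x P a0 0) (θ : W) (hθ : θ ^ p - θ = ev x y P) :
    ∃ x' : Fin r → W, Par k x' y ∧
      (∀ i, ∃ (a : Fin r → ℤ) (j : ℤ), x' i = mon x a * θ ^ j) ∧
      (∀ i, x i ∈ cl (Kxy k x' y)) ∧ θ ∈ cl (Kxy k x' y) ∧
      (∀ i, IsSeparable (Kxy k x' y) (x i)) ∧ IsSeparable (Kxy k x' y) θ := by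
  classical
  have hp : p.Prime := Fact.out
  have hx : ∀ i, x i ≠ 0 := hP.ind.ne
  have hc : P.coeff (a0, 0) ≠ 0 := hl.mem
  obtain ⟨h1a0, hpa0⟩ := hred a0 0 hc
  have hna0 : ¬ ∃ a' : Fin r → ℤ, a0 = p • a' := fun h => hpa0 ⟨h, dvd_zero p⟩
  set f : W := ev x y P with hf
  have hmpos : 0 < ‖mon x a0‖ := norm_pos_iff.2 (mon_ne x hx a0)
  have hfn : ‖f‖ = ‖mon x a0‖ := by
    have h1 := (lead_zero hA hP.ind hP.y1 hl).2
    have h2 : ‖algebraMap k W (P.coeff (a0, 0)) * mon x a0‖ = ‖mon x a0‖ := by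
      rw [norm_mul, hA.unit _ hc, one_mul]
    have h3 : f = algebraMap k W (P.coeff (a0, 0)) * mon x a0 +
        (f - algebraMap k W (P.coeff (a0, 0)) * mon x a0) := by ring
    rw [h3, IsUltrametricDist.norm_add_eq_max_of_norm_ne_norm (by rw [h2]; exact h1.ne'), h2]
    exact max_eq_left h1.le
  -- the norm of `θ`
  have hθ1 : 1 < ‖θ‖ := by
    by_contra hcon
    push Not at hcon
    have : ‖f‖ ≤ 1 := by
      rw [← hθ, sub_eq_add_neg]
      refine (IsUltrametricDist.norm_add_le_max _ _).trans (max_le ?_ ?_)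
      · rw [norm_pow]; exact pow_le_one₀ (norm_nonneg _) hcon
      · rw [norm_neg]; exact hcon
    rw [hfn] at this
    linarith
  have hθ0 : θ ≠ 0 := by
    rintro rfl
    rw [norm_zero] at hθ1
    linarith
  have hθp : ‖θ‖ ^ p = ‖mon x a0‖ := by
    rw [← hfn, ← hθ, sub_eq_add_neg, IsUltrametricDist.norm_add_eq_max_of_norm_ne_norm, norm_neg,
      norm_pow]
    · refine (max_eq_left ?_).symm
      exact le_self_pow₀ hθ1.le hp.ne_zero
    · rw [norm_neg, norm_pow]
      exact (lt_self_pow₀ hθ1 hp.one_lt).ne'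
  set ζ : W := θ⁻¹ with hζ
  have hζ0 : ζ ≠ 0 := inv_ne_zero hθ0
  have hζ1 : ‖ζ‖ < 1 := by
    rw [hζ, norm_inv]
    exact inv_lt_one_of_one_lt₀ hθ1
  have hζp : ‖ζ‖ ^ p = ‖mon x (-a0)‖ := by
    rw [hζ, norm_inv, inv_pow, hθp, mon_neg, norm_inv]
  have hζpos : 0 < ‖ζ‖ := norm_pos_iff.2 hζ0
  have hmin : ∀ e' : ℕ, 1 ≤ e' → e' < p → ∀ B' : Fin r → ℤ, ‖ζ‖ ^ e' ≠ ‖mon x B'‖ := by
    intro e' he1 he2 B' hB'
    have hcop : Nat.Coprime e' p := (Nat.coprime_of_lt_prime (by omega) he2 hp).symm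
    have hbez := Nat.gcd_eq_gcd_ab e' p
    rw [hcop.gcd_eq_one] at hbez
    set u := Nat.gcdA e' p
    set v := Nat.gcdB e' p
    have h1 : ‖ζ‖ = ‖mon x (u • B' + v • (-a0))‖ := by
      rw [mon_add x hx, mon_zsmul, mon_zsmul, norm_mul, norm_zpow, norm_zpow, ← hB', ← hζp,
        ← zpow_natCast, ← zpow_natCast, ← zpow_mul, ← zpow_mul, ← zpow_add₀ hζpos.ne']
      have : (e' : ℤ) * u + (p : ℤ) * v = 1 := by
        rw [← hbez, Nat.cast_one]
      rw [this, zpow_one]
    have h2 : ‖mon x (-a0)‖ = ‖mon x (p • (u • B' + v • (-a0)))‖ := by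
      rw [← hζp, mon_nsmul, norm_pow, ← h1]
    have h3 := norm_mon_inj hP.ind h2
    apply hna0
    refine ⟨-(u • B' + v • (-a0)), ?_⟩
    rw [smul_neg, ← h3, neg_neg]
  obtain ⟨x', T, hx'ind, -, hT⟩ := exists_um x hP.ind ζ hζ0 p hp.one_le (-a0) hζp hmin
  rw [neg_neg] at hT
  set η : W := ζ ^ p * mon x a0 with hη
  have hη1 : ‖η‖ = 1 := by
    rw [hη, norm_mul, norm_pow, hζp, mon_neg, norm_inv, inv_mul_cancel₀ hmpos.ne']
  set E := Kxy k x' y with hE
  have hx'0 : ∀ i, x' i ≠ 0 := hx'ind.ne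
  set c0 : W := algebraMap k W (P.coeff (a0, 0))⁻¹ with hc0
  have hc0n : ‖c0‖ = 1 := hA.unit _ (inv_ne_zero hc)
  have hc0E : c0 ∈ E := E.algebraMap_mem _
  have hTx : ∀ a : Fin r → ℤ, mon x a = mon x' (T (a, 0)).1 * η ^ (T (a, 0)).2 := fun a => by
    have := hT a 0
    rwa [zpow_zero, mul_one] at this
  have hTz : ∀ j : ℤ, ζ ^ j = mon x' (T (0, j)).1 * η ^ (T (0, j)).2 := fun j => by
    have := hT 0 j
    rwa [mon_zero, one_mul] at this
  have hnx' : ∀ (a : Fin r → ℤ) (j : ℤ), ‖mon x' (T (a, j)).1‖ = ‖mon x a * ζ ^ j‖ := fun a j => by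
    rw [hT, norm_mul, norm_zpow, hη1, one_zpow, mul_one]
  -- the equation
  set s : Finset (Option ((Fin r → ℤ) × ℕ)) :=
    Finset.insertNone (P.coeff.support.erase (a0, 0)) with hs
  set α : Option ((Fin r → ℤ) × ℕ) → W := fun o => match o with
    | none => c0 * mon x' (T (0, (p : ℤ) - 1)).1
    | some m => c0 * algebraMap k W (P.coeff m) * (mon x' (T (m.1 - a0, 0)).1 * y ^ m.2) with hα
  set n : Option ((Fin r → ℤ) × ℕ) → ℤ := fun o => match o with
    | none => (T (0, (p : ℤ) - 1)).2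
    | some m => (T (m.1 - a0, 0)).2 + 1 with hn
  have hη0 : η ≠ 0 := by rw [← norm_pos_iff, hη1]; exact one_pos
  have hαE : ∀ o ∈ s, α o ∈ E := by
    intro o _
    rcases o with _ | m
    · exact mul_mem hc0E (mon_mem_Kxy x' y _)
    · exact mul_mem (mul_mem hc0E (E.algebraMap_mem _)) (mul_mem (mon_mem_Kxy x' y _)
        (pow_mem (y_mem_Kxy x' y) _))
  have hα1 : ∀ o ∈ s, ‖α o‖ < 1 := by
    intro o ho
    rcases o with _ | m
    · change ‖c0 * mon x' (T (0, (p : ℤ) - 1)).1‖ < 1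
      rw [norm_mul, hc0n, one_mul, hnx', mon_zero, one_mul, norm_zpow]
      have : (p : ℤ) - 1 = ((p - 1 : ℕ) : ℤ) := by
        have := hp.one_lt
        omega
      rw [this, zpow_natCast]
      exact pow_lt_one₀ (norm_nonneg _) hζ1 (by have := hp.one_lt; omega)
    · rw [hs, Finset.some_mem_insertNone, Finset.mem_erase] at ho
      obtain ⟨hne, hm⟩ := ho
      change ‖c0 * algebraMap k W (P.coeff m) * (mon x' (T (m.1 - a0, 0)).1 * y ^ m.2)‖ < 1
      rw [norm_mul, norm_mul, hc0n, one_mul, hA.unit _ (Finsupp.mem_support_iff.1 hm), one_mul,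
        norm_mul, hnx', zpow_zero, mul_one, norm_pow]
      by_cases h : m.1 = a0
      · rw [h, sub_self, mon_zero, norm_one, one_mul]
        refine pow_lt_one₀ (norm_nonneg _) hP.y1 fun h2 => hne ?_
        exact Prod.ext h h2
      · have h3 := hl.max m.1 m.2 (Finsupp.mem_support_iff.1 hm)
        have h4 : ‖mon x m.1‖ < ‖mon x a0‖ :=
          lt_of_le_of_ne h3 fun h' => h (norm_mon_inj hP.ind h')
        have h5 : ‖mon x (m.1 - a0)‖ < 1 := by
          rw [sub_eq_add_neg, mon_add x hx, norm_mul, mon_neg, norm_inv, ← div_eq_mul_inv,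
            div_lt_one hmpos]
          exact h4
        exact lt_of_le_of_lt (mul_le_of_le_one_right (norm_nonneg _)
          (pow_le_one₀ (norm_nonneg _) hP.y1.le)) h5
  have hθf : f * ζ ^ p = 1 - ζ ^ (p - 1) := by
    obtain ⟨q, hq⟩ : ∃ q, p = q + 1 := ⟨p - 1, by have := hp.one_lt; omega⟩
    rw [← hθ, hq, Nat.add_sub_cancel, hζ]
    have h1 : θ ^ (q + 1) * θ⁻¹ ^ (q + 1) = 1 := by
      rw [← mul_pow, mul_inv_cancel₀ hθ0, one_pow]
    have h2 : θ * θ⁻¹ ^ (q + 1) = θ⁻¹ ^ q := by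
      rw [pow_succ]
      field_simp
    rw [sub_mul, h1, h2]
  have heq : η + ∑ o ∈ s, α o * η ^ n o = c0 := by
    have hmem : (a0, 0) ∈ P.coeff.support := Finsupp.mem_support_iff.2 hc
    rw [hs, Finset.sum_insertNone]
    have t0 : α none * η ^ n none = c0 * ζ ^ (p - 1) := by
      change c0 * mon x' (T (0, (p : ℤ) - 1)).1 * η ^ (T (0, (p : ℤ) - 1)).2 = _
      rw [mul_assoc, ← hTz]
      have : (p : ℤ) - 1 = ((p - 1 : ℕ) : ℤ) := by
        have := hp.one_lt
        omega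
      rw [this, zpow_natCast]
    have t1 : ∑ m ∈ P.coeff.support.erase (a0, 0), α (some m) * η ^ n (some m) =
        η * (c0 * mon x (-a0) * f - 1) := by
      have h1 : c0 * mon x (-a0) * f - 1 = ∑ m ∈ P.coeff.support.erase (a0, 0),
          c0 * mon x (-a0) * (algebraMap k W (P.coeff m) * (mon x m.1 * y ^ m.2)) := by
        rw [hf, ev_eq_sum, Finset.mul_sum, ← Finset.add_sum_erase _ _ hmem]
        have : c0 * mon x (-a0) * (algebraMap k W (P.coeff (a0, 0)) *
            (mon x (a0, 0).1 * y ^ ((a0, 0) : (Fin r → ℤ) × ℕ).2)) = 1 := by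
          have e1 : c0 * algebraMap k W (P.coeff (a0, 0)) = 1 := by
            rw [hc0, ← map_mul, inv_mul_cancel₀ hc, map_one]
          have e2 : mon x (-a0) * mon x a0 = 1 := by
            rw [mon_neg, inv_mul_cancel₀ (mon_ne x hx a0)]
          simp only [pow_zero, mul_one]
          calc _ = (c0 * algebraMap k W (P.coeff (a0, 0))) * (mon x (-a0) * mon x a0) := by ring
            _ = 1 := by rw [e1, e2, one_mul]
        rw [this, add_sub_cancel_left]
      rw [h1, Finset.mul_sum]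
      refine Finset.sum_congr rfl fun m _ => ?_
      change c0 * algebraMap k W (P.coeff m) * (mon x' (T (m.1 - a0, 0)).1 * y ^ m.2) *
        η ^ ((T (m.1 - a0, 0)).2 + 1) = _
      have h2 : mon x m.1 * mon x (-a0) = mon x' (T (m.1 - a0, 0)).1 * η ^ (T (m.1 - a0, 0)).2 := by
        rw [← mon_add x hx, ← sub_eq_add_neg, hTx]
      rw [zpow_add_one₀ hη0]
      calc _ = c0 * algebraMap k W (P.coeff m) * y ^ m.2 * η *
            (mon x' (T (m.1 - a0, 0)).1 * η ^ (T (m.1 - a0, 0)).2) := by ring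
        _ = _ := by rw [← h2]; ring
    rw [t0, t1]
    have h3 : η * (mon x (-a0) * f) = 1 - ζ ^ (p - 1) := by
      rw [← hθf, hη]
      have e2 : mon x (-a0) * mon x a0 = 1 := by
        rw [mon_neg, inv_mul_cancel₀ (mon_ne x hx a0)]
      calc _ = f * ζ ^ p * (mon x (-a0) * mon x a0) := by ring
        _ = _ := by rw [e2, mul_one]
    have h4 : η * (c0 * mon x (-a0) * f - 1) = c0 * (η * (mon x (-a0) * f)) - η := by ring
    rw [h4, h3]
    ring
  obtain ⟨hηcl, hηsep⟩ := eq_lemma E c0 hc0E hc0n s α hαE hα1 n η hη1 heq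
  -- conclusions
  have hmonE : ∀ a, mon x' a ∈ E := fun a => mon_mem_Kxy x' y a
  have hxi : ∀ i, x i = mon x' (T (Pi.single i 1, 0)).1 * η ^ (T (Pi.single i 1, 0)).2 := fun i => by
    rw [← hTx, mon_single]
  have hζe : ζ = mon x' (T (0, 1)).1 * η ^ (T (0, 1)).2 := by
    rw [← hTz, zpow_one]
  have hEcl : E ≤ cl E := le_cl E
  have hsepA : Algebra.IsSeparable E (IntermediateField.adjoin E {η}) :=
    (IntermediateField.isSeparable_adjoin_simple_iff_isSeparable E W).2 hηsep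
  have hηA : η ∈ IntermediateField.adjoin E {η} := IntermediateField.mem_adjoin_simple_self E η
  have hEA : ∀ z ∈ E, z ∈ IntermediateField.adjoin E {η} := fun z hz =>
    (IntermediateField.adjoin E {η}).algebraMap_mem ⟨z, hz⟩
  have hsepz : ∀ z ∈ IntermediateField.adjoin E {η}, IsSeparable E z := fun z hz =>
    IntermediateField.isSeparable_of_mem_isSeparable E W hz
  have hxsep : ∀ i, IsSeparable E (x i) := fun i => by
    rw [hxi i]
    exact hsepz _ (mul_mem (hEA _ (hmonE _)) (zpow_mem hηA _))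
  have hθsep : IsSeparable E θ := by
    have : θ = ζ⁻¹ := by rw [hζ, inv_inv]
    rw [this, hζe]
    exact hsepz _ (inv_mem (mul_mem (hEA _ (hmonE _)) (zpow_mem hηA _)))
  have hyE : IsAlgebraic E y := isAlgebraic_algebraMap (⟨y, y_mem_Kxy x' y⟩ : E)
  refine ⟨x', ⟨hx'ind, hP.y1, tr_of_algebraic x y hx hP.tr x' y hx'0
    (fun i => (hxsep i).isIntegral.isAlgebraic) hyE⟩, ?_, ?_, ?_, hxsep, hθsep⟩
  · intro i
    refine ⟨(T.symm (Pi.single i 1, 0)).1, -(T.symm (Pi.single i 1, 0)).2, ?_⟩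
    have h1 := hT (T.symm (Pi.single i 1, 0)).1 (T.symm (Pi.single i 1, 0)).2
    rw [Prod.mk.eta, T.apply_symm_apply] at h1
    simp only [zpow_zero, mul_one, mon_single] at h1
    rw [← h1, hζ, inv_zpow, zpow_neg]
  · intro i
    rw [hxi i]
    exact mul_mem (hEcl (hmonE _)) (zpow_mem hηcl _)
  · have : θ = ζ⁻¹ := by rw [hζ, inv_inv]
    rw [this, hζe]
    exact inv_mem (mul_mem (hEcl (hmonE _)) (zpow_mem hηcl _))

end Pool.Agent.Lib.TDO
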