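import Pool.Agent.Lib.TDO.Cl

/-!
# Module Wp: Artin-Schreier elements in complete fields
-/

namespace Pool.Agent.Lib.TDO

open Pool.Agent.Lib.MP_3029eb_ag Pool.Agent.Lib.MP_3029eb_ag.Abh

variable {k W : Type} [Field k] [IsAlgClosed k] [NormedField W] [IsUltrametricDist W]
  [Algebra k W] {r : ℕ}

omit [IsAlgClosed k] [IsUltrametricDist W] in
private theorem wp_charP (p : ℕ) [CharP k p] : CharP W p :=
  charP_of_injective_algebraMap (algebraMap k W).injective p

/-- `s = -(g + g^p + g^(p^2) + ..)` converges in the complete field `L`. -/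
theorem wp_small (p : ℕ) [Fact p.Prime] [CharP k p] {L : IntermediateField k W}
    (hL : IsComplete (L : Set W)) {g : W} (hg : g ∈ L) (h1 : ‖g‖ < 1) :
    ∃ s ∈ L, s ^ p - s = g := by
  have hp : p.Prime := Fact.out
  have hW : CharP W p := wp_charP (k := k) p
  obtain ⟨u, hu⟩ : ∃ u : ℕ → W, u = fun n => -∑ i ∈ Finset.range n, g ^ p ^ i := ⟨_, rfl⟩
  have huL : ∀ n, u n ∈ (L : Set W) := by
    intro n
    rw [hu]
    exact neg_mem (sum_mem fun i _ => pow_mem hg _)
  have hpow : ∀ n, n ≤ p ^ n := fun n => (Nat.lt_pow_self hp.one_lt).le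
  have hC : CauchySeq u := by
    refine cauchySeq_of_le_geometric ‖g‖ 1 h1 fun n => ?_
    have e : u n - u (n + 1) = g ^ p ^ n := by
      rw [hu]
      dsimp only
      rw [Finset.sum_range_succ]
      ring
    rw [dist_eq_norm, e, norm_pow, one_mul]
    exact pow_le_pow_of_le_one (norm_nonneg _) h1.le (hpow n)
  obtain ⟨s, hs, hlim⟩ := cauchySeq_tendsto_of_isComplete hL huL hC
  refine ⟨s, hs, ?_⟩
  have hterm : ∀ n, u n ^ p - u n = g - g ^ p ^ n := by
    intro n
    rw [hu]
    dsimp only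
    have e1 : (-∑ i ∈ Finset.range n, g ^ p ^ i) ^ p =
        -∑ i ∈ Finset.range n, g ^ p ^ (i + 1) := by
      have e2 := sub_pow_char (0 : W) (∑ i ∈ Finset.range n, g ^ p ^ i) (p := p)
      rw [zero_sub, zero_pow hp.ne_zero, zero_sub, sum_pow_char] at e2
      rw [e2]
      congr 1
      refine Finset.sum_congr rfl fun i _ => ?_
      rw [← pow_mul, pow_succ]
    rw [e1]
    have e3 : ∑ i ∈ Finset.range n, g ^ p ^ (i + 1) + g =
        ∑ i ∈ Finset.range n, g ^ p ^ i + g ^ p ^ n := by
      rw [← Finset.sum_range_succ (fun i => g ^ p ^ i) n,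
        Finset.sum_range_succ' (fun i => g ^ p ^ i) n, pow_zero, pow_one]
    linear_combination -e3
  have h2 : Filter.Tendsto (fun n => u n ^ p - u n) Filter.atTop (nhds (s ^ p - s)) :=
    (hlim.pow p).sub hlim
  have h3 : Filter.Tendsto (fun n => g - g ^ p ^ n) Filter.atTop (nhds (g - 0)) := by
    refine Filter.Tendsto.sub tendsto_const_nhds ?_
    have h4 : Filter.Tendsto (fun n : ℕ => p ^ n) Filter.atTop Filter.atTop :=
      Filter.tendsto_atTop_mono hpow Filter.tendsto_id
    exact (tendsto_pow_atTop_nhds_zero_of_norm_lt_one h1).comp h4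
  rw [sub_zero] at h3
  have h5 : (fun n => u n ^ p - u n) = fun n => g - g ^ p ^ n := funext hterm
  rw [h5] at h2
  exact tendsto_nhds_unique h2 h3

/-- An element of norm at most one of a complete `L` is `s^p - s` (constants: `k` is
algebraically closed; `g - c` small). -/
theorem wp_le_one (hA : Amb r k W) (p : ℕ) [Fact p.Prime] [CharP k p]
    {L : IntermediateField k W} (hL : IsComplete (L : Set W)) {g : W} (hg : g ∈ L)
    (h1 : ‖g‖ ≤ 1) : ∃ s ∈ L, s ^ p - s = g := by
  have hp : p.Prime := Fact.out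
  have hW : CharP W p := wp_charP (k := k) p
  obtain ⟨c, hc⟩ := hA.res g h1
  obtain ⟨s, hs, hsg⟩ := wp_small (k := k) p hL (L.sub_mem hg (L.algebraMap_mem c)) hc
  obtain ⟨a, ha⟩ : ∃ a : k, a ^ p - a = c := by
    have hdeg : (Polynomial.X ^ p - Polynomial.X - Polynomial.C c : Polynomial k).degree ≠ 0 := by
      have h2 : (Polynomial.X ^ p - (Polynomial.X + Polynomial.C c) : Polynomial k).degree = p := by
        rw [Polynomial.degree_sub_eq_left_of_degree_lt, Polynomial.degree_X_pow]
        rw [Polynomial.degree_X_pow, Polynomial.degree_X_add_C]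
        exact_mod_cast hp.one_lt
      rw [sub_sub, h2]
      exact_mod_cast hp.ne_zero
    obtain ⟨a, ha⟩ := IsAlgClosed.exists_root _ hdeg
    refine ⟨a, ?_⟩
    rw [Polynomial.IsRoot.def, Polynomial.eval_sub, Polynomial.eval_sub, Polynomial.eval_pow,
      Polynomial.eval_X, Polynomial.eval_C, sub_eq_zero] at ha
    exact ha
  refine ⟨s + algebraMap k W a, L.add_mem hs (L.algebraMap_mem a), ?_⟩
  rw [add_pow_char s (algebraMap k W a) (p := p)]
  have h3 : (algebraMap k W a) ^ p - algebraMap k W a = algebraMap k W c := by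
    rw [← map_pow, ← map_sub, ha]
  linear_combination hsg + h3

omit [IsUltrametricDist W] in
/-- Fixed points of the Frobenius map. -/
private theorem wp_fix (p : ℕ) [Fact p.Prime] [CharP W p] {x : W} (hx : x ^ p = x) :
    ∃ n : ℕ, x = n := by
  have hp : p.Prime := Fact.out
  have h1 : (Polynomial.X ^ p - Polynomial.X : Polynomial (ZMod p)).roots =
      Finset.univ.val := by
    have h2 := FiniteField.roots_X_pow_card_sub_X (ZMod p)
    rwa [ZMod.card] at h2
  have hdeg : (Polynomial.X ^ p - Polynomial.X : Polynomial (ZMod p)).natDegree = p :=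
    FiniteField.X_pow_card_sub_X_natDegree_eq (ZMod p) hp.one_lt
  have hmon : (Polynomial.X ^ p - Polynomial.X : Polynomial (ZMod p)).Monic := by
    refine Polynomial.monic_X_pow_sub ?_
    rw [Polynomial.degree_X]
    exact_mod_cast hp.one_lt
  have h3 := Polynomial.prod_multiset_X_sub_C_of_monic_of_roots_card_eq hmon (by
    rw [h1, hdeg, Finset.card_val, Finset.card_univ, ZMod.card])
  rw [h1] at h3
  have h4 := congrArg (Polynomial.eval₂ (ZMod.castHom (dvd_refl p) W) x) h3
  have h5 : (Multiset.map (fun a => Polynomial.X - Polynomial.C a)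
      (Finset.univ : Finset (ZMod p)).val).prod = ∏ a : ZMod p, (Polynomial.X - Polynomial.C a) :=
    rfl
  rw [h5, Polynomial.eval₂_finsetProd, Polynomial.eval₂_sub, Polynomial.eval₂_pow,
    Polynomial.eval₂_X, hx, sub_self, Finset.prod_eq_zero_iff] at h4
  obtain ⟨a, -, ha⟩ := h4
  rw [Polynomial.eval₂_sub, Polynomial.eval₂_X, Polynomial.eval₂_C, sub_eq_zero] at ha
  refine ⟨a.val, ?_⟩
  rw [ha]
  have h6 := ZMod.natCast_zmod_val a
  conv_lhs => rw [← h6]
  rw [map_natCast]

/-- If `f - (s^p - s)` has norm at most one for some `s ∈ L` then every root of `T^p - T - f` is in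
`L` (the roots differ by elements of the prime field). -/
theorem wp_mem (hA : Amb r k W) (p : ℕ) [Fact p.Prime] [CharP k p]
    {L : IntermediateField k W} (hL : IsComplete (L : Set W)) {θ s : W} (hs : s ∈ L)
    (hθ : θ ^ p - θ ∈ L) (h1 : ‖θ ^ p - θ - (s ^ p - s)‖ ≤ 1) : θ ∈ L := by
  have hW : CharP W p := wp_charP (k := k) p
  obtain ⟨u, hu, hug⟩ := wp_le_one hA p hL
    (L.sub_mem hθ (L.sub_mem (pow_mem hs p) hs)) h1
  have h2 : (θ - s - u) ^ p = θ - s - u := by
    rw [sub_pow_char (θ - s) u (p := p), sub_pow_char θ s (p := p)]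
    linear_combination -hug
  obtain ⟨n, hn⟩ := wp_fix p h2
  have h3 : θ = s + u + n := by rw [← hn]; ring
  rw [h3]
  exact L.add_mem (L.add_mem hs hu) (natCast_mem L n)

/-- Change of the generator: if `f' ∈ L` and `‖f - f' - (s^p - s)‖ ≤ 1`, `s ∈ L`, then there is
`θ'` with `θ'^p - θ' = f'` and `L(θ') = L(θ)`, `θ' - θ ∈ L`. -/
theorem wp_change (hA : Amb r k W) (p : ℕ) [Fact p.Prime] [CharP k p]
    {L : IntermediateField k W} (hL : IsComplete (L : Set W)) {θ s f' : W} (hs : s ∈ L)
    (hf' : f' ∈ L) (hθ : θ ^ p - θ ∈ L) (h1 : ‖θ ^ p - θ - f' - (s ^ p - s)‖ ≤ 1) :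
    ∃ θ' : W, θ' ^ p - θ' = f' ∧ θ' - θ ∈ L ∧
      L ⊔ IntermediateField.adjoin k {θ'} = L ⊔ IntermediateField.adjoin k {θ} := by
  have hW : CharP W p := wp_charP (k := k) p
  obtain ⟨u, hu, hug⟩ := wp_le_one hA p hL
    (L.sub_mem (L.sub_mem hθ hf') (L.sub_mem (pow_mem hs p) hs)) h1
  have hmem : ∀ E : IntermediateField k W, ∀ z : W, z ∈ E ⊔ IntermediateField.adjoin k {z} :=
    fun E z => (le_sup_right : IntermediateField.adjoin k {z} ≤ _)
      (IntermediateField.mem_adjoin_simple_self k z)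
  refine ⟨θ - s - u, ?_, ?_, le_antisymm ?_ ?_⟩
  · rw [sub_pow_char (θ - s) u (p := p), sub_pow_char θ s (p := p)]
    linear_combination -hug
  · have e : θ - s - u - θ = -(s + u) := by ring
    rw [e]
    exact L.neg_mem (L.add_mem hs hu)
  · refine sup_le le_sup_left ?_
    rw [IntermediateField.adjoin_simple_le_iff]
    exact sub_mem (sub_mem (hmem L θ) ((le_sup_left : L ≤ _) hs)) ((le_sup_left : L ≤ _) hu)
  · refine sup_le le_sup_left ?_
    rw [IntermediateField.adjoin_simple_le_iff]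
    have e : θ = (θ - s - u) + s + u := by ring
    have h2 := add_mem (add_mem (hmem L (θ - s - u))
      ((le_sup_left : L ≤ L ⊔ IntermediateField.adjoin k {θ - s - u}) hs))
      ((le_sup_left : L ≤ L ⊔ IntermediateField.adjoin k {θ - s - u}) hu)
    rw [← e] at h2
    exact h2

end Pool.Agent.Lib.TDO
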