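import Pool.Agent.Lib.TDO.ThmA2
import Pool.Agent.Lib.TDO.Wp
import Pool.Agent.Lib.TDO.ASRun
import Pool.Agent.Lib.TDO.CaseA
import Pool.Agent.Lib.TDO.CaseB

/-!
# Module ASStep: the Artin-Schreier step

Proof.  If `θ ∈ L` the field does not change.  Let `(x, y)` be a chart of `L`,
`f = θ^p - θ ∈ L ≤ cl (Kxy x y)`.  `approx_LP` (`ε = 1`): a refined chart (`Chart.rf`) and `P0`
with `‖f - ev x y P0‖ < 1`; `exists_red`: `P` reduced with
`‖f - ev x y P - (s^p - s)‖ < 1`, `s ∈ L`.  `hne` holds for `P`: otherwise `θ ∈ L` (`wp_mem`).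
`as_run`: a new stage, `P'`, `d' ≤ 1`, still `‖f - ev x' y' P' - (s'^p - s')‖ < 1`.  `wp_change`:
`θ'` with `θ'^p - θ' = ev x' y' P'`, `L(θ') = L(θ)`.  `θ' ∈ S`: it is a root of the separable
polynomial `T^p - T - ev P'` over `S` (`hS`).
`d' = 0`: `case_A`; `d' = 1`: `case_B`.  Density: the closure of the new `Kxy` contains `x, y, θ'`,
hence `Kxy x y`, hence `cl (Kxy x y) ≥ L`, hence `L ⊔ k(θ')`.  Separability: every `z ∈ S` is
separable over `Kxy x y`, and `x i, y, θ'` are separable over the new `Kxy`, transitivity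
(`Kxy new (x, y)` is separable over `Kxy new`, and `z` is separable over it).
-/

namespace Pool.Agent.Lib.TDO

open Pool.Agent.Lib.MP_3029eb_ag Pool.Agent.Lib.MP_3029eb_ag.Abh

/-- Transitivity of separability in the form needed. -/
theorem sep_trans {k W : Type} [Field k] [Field W] [Algebra k W] {r : ℕ} {x : Fin r → W} {y : W}
    {x' : Fin r → W} {y' : W} (h1 : ∀ i, IsSeparable (Kxy k x' y') (x i))
    (h2 : IsSeparable (Kxy k x' y') y) {z : W} (hz : IsSeparable (Kxy k x y) z) :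
    IsSeparable (Kxy k x' y') z := by
  have hsep : Algebra.IsSeparable (Kxy k x' y')
      (IntermediateField.adjoin (Kxy k x' y') (Set.range x ∪ {y})) := by
    rw [IntermediateField.isSeparable_adjoin_iff_isSeparable]
    rintro w (⟨i, rfl⟩ | hw)
    · exact h1 i
    · rw [Set.mem_singleton_iff.1 hw]; exact h2
  set E := IntermediateField.adjoin (Kxy k x' y') (Set.range x ∪ {y}) with hE
  have hle : Kxy k x y ≤ E.restrictScalars k := by
    unfold Kxy
    rw [IntermediateField.adjoin_le_iff]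
    intro w hw
    exact IntermediateField.subset_adjoin (Kxy k x' y') _ hw
  letI : Algebra (Kxy k x y) E :=
    (((IntermediateField.inclusion hle : Kxy k x y →ₐ[k] E.restrictScalars k) :
      Kxy k x y →+* E.restrictScalars k)).toAlgebra
  haveI : IsScalarTower (Kxy k x y) E W := IsScalarTower.of_algebraMap_eq (fun _ => rfl)
  have h3 : IsSeparable E z := hz.tower_top E
  exact IsSeparable.of_algebra_isSeparable_of_isSeparable _ h3

private theorem ass_char {k W : Type} [Field k] [Field W] [Algebra k W] (p : ℕ) [CharP k p] :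
    CharP W p :=
  charP_of_injective_algebraMap (algebraMap k W).injective p

private theorem ass_add {k W : Type} [Field k] [Field W] [Algebra k W] (p : ℕ) [Fact p.Prime]
    [CharP k p] (a b : W) : (a + b) ^ p = a ^ p + b ^ p := by
  haveI := ass_char (k := k) (W := W) p
  exact add_pow_char a b p

/-- roots of `T^p - T - c` are separable -/
private theorem ass_sep {k W : Type} [Field k] [Field W] [Algebra k W] (p : ℕ) [Fact p.Prime]
    [CharP k p] (S : IntermediateField k W) (θ : W) (h : θ ^ p - θ ∈ S) : IsSeparable S θ := by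
  haveI : CharP S p := ass_char (k := k) (W := S) p
  have hmon : (Polynomial.X ^ p - Polynomial.X - Polynomial.C (⟨θ ^ p - θ, h⟩ : S)).aeval θ = 0 := by
    simp
  have hsep : (Polynomial.X ^ p - Polynomial.X -
      Polynomial.C (⟨θ ^ p - θ, h⟩ : S)).Separable := by
    rw [Polynomial.separable_def]
    have hd : Polynomial.derivative (Polynomial.X ^ p - Polynomial.X -
      Polynomial.C (⟨θ ^ p - θ, h⟩ : S)) = -1 := by
      rw [Polynomial.derivative_sub, Polynomial.derivative_sub, Polynomial.derivative_C,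
        Polynomial.derivative_X, Polynomial.derivative_X_pow, CharP.cast_eq_zero]
      simp
    rw [hd]
    exact isCoprime_one_right.neg_right
  exact hsep.of_dvd (minpoly.dvd S θ hmon)

private theorem ass_cong {k W : Type} [Field k] [NormedField W] [IsUltrametricDist W] [Algebra k W]
    (p : ℕ) [Fact p.Prime] [CharP k p] {f g h s t : W} (h1 : ‖f - g - (s ^ p - s)‖ < 1)
    (h2 : ‖g - h - (t ^ p - t)‖ < 1) : ‖f - h - ((s + t) ^ p - (s + t))‖ < 1 := by
  have e : f - h - ((s + t) ^ p - (s + t)) =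
      (f - g - (s ^ p - s)) + (g - h - (t ^ p - t)) := by
    rw [ass_add (k := k) p]; ring
  rw [e]
  exact (IsUltrametricDist.norm_add_le_max _ _).trans_lt (max_lt h1 h2)

private theorem ass_main {k W : Type} [Field k] [IsAlgClosed k] [NontriviallyNormedField W]
    [IsUltrametricDist W] [Algebra k W] {r : ℕ} (hA : Amb r k W) (hr : 0 < r) (p : ℕ)
    [Fact p.Prime] [CharP k p]
    (S L : IntermediateField k W) (hS : ∀ z : W, IsSeparable S z → z ∈ S)
    (hL : IsComplete (L : Set W)) (h : HasChart S r L) (θ : W) (hθ : θ ^ p - θ ∈ L)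
    (hθL : θ ∉ L) :
    HasChart S r (L ⊔ IntermediateField.adjoin k {θ}) := by
  obtain ⟨x, y, hC⟩ := h
  obtain ⟨x1, y1, P0, hP1, hR1, hf0⟩ := approx_LP hA hr hC.par (θ ^ p - θ) (hC.dense hθ) 1 one_pos
  have hC1 : Chart S L x1 y1 := hC.rf hP1 hR1
  have hKL1 : Kxy k x1 y1 ≤ L := Kxy_le x1 y1 hC1.xL hC1.yL
  obtain ⟨P1, hred1, ⟨s1, hs1, hs1'⟩, -, -⟩ := exists_red hA p (y := y1) hP1.ind hP1.y1 P0
  have hs1L : s1 ∈ L := hKL1 (LL_le_Kxy x1 y1 hs1)
  have hp0 : p ≠ 0 := (Fact.out : p.Prime).ne_zero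
  have hf1 : ‖(θ ^ p - θ) - ev x1 y1 P1 - (s1 ^ p - s1)‖ < 1 := by
    have e : (θ ^ p - θ) - ev x1 y1 P1 - (s1 ^ p - s1) =
        ((θ ^ p - θ) - ev x1 y1 P0) + (ev x1 y1 P0 - ev x1 y1 P1 - (s1 ^ p - s1)) := by ring
    rw [e]
    exact (IsUltrametricDist.norm_add_le_max _ _).trans_lt (max_lt hf0 hs1')
  have hne : ∀ s ∈ Kxy k x1 y1, 1 ≤ ‖ev x1 y1 P1 - (s ^ p - s)‖ := by
    intro s hs
    by_contra hlt
    push Not at hlt
    have h2 : ‖ev x1 y1 P1 - 0 - (s ^ p - s)‖ < 1 := by simpa using hlt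
    have h3 := ass_cong (k := k) p hf1 h2
    rw [sub_zero] at h3
    exact hθL (wp_mem hA p hL (L.add_mem hs1L (hKL1 hs)) hθ h3.le)
  obtain ⟨x2, y2, P2, a0, d, hP2, hR2, hred2, ⟨s2, hs2, hs2'⟩, hl, hd⟩ :=
    as_run hA p hP1 P1 hred1 hne
  have hC2 : Chart S L x2 y2 := hC1.rf hP2 hR2
  have hKL2 : Kxy k x2 y2 ≤ L := Kxy_le x2 y2 hC2.xL hC2.yL
  have hKS2 : Kxy k x2 y2 ≤ S := Kxy_le x2 y2 hC2.xS hC2.yS
  have hx2 : ∀ i, x2 i ≠ 0 := fun i => hP2.ind.ne i
  have hf'K : ev x2 y2 P2 ∈ Kxy k x2 y2 :=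
    LL_le_Kxy x2 y2 ((mem_LL_iff x2 y2 hx2 _).2 ⟨P2, rfl⟩)
  have hf2 := ass_cong (k := k) p hf1 hs2'
  obtain ⟨θ', hθ', hdiff, hsup⟩ := wp_change hA p hL (L.add_mem hs1L (hKL1 hs2)) (hKL2 hf'K) hθ
    hf2.le
  rw [← hsup]
  have hθS : θ' ∈ S := hS θ' (ass_sep p S θ' (by rw [hθ']; exact hKS2 hf'K))
  have hLle : L ≤ L ⊔ IntermediateField.adjoin k {θ'} := le_sup_left
  have hθL' : θ' ∈ L ⊔ IntermediateField.adjoin k {θ'} :=
    (le_sup_right : IntermediateField.adjoin k {θ'} ≤ _)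
      (IntermediateField.mem_adjoin_simple_self k θ')
  have hd' : d = 0 ∨ d = 1 := by omega
  rcases hd' with rfl | rfl
  · obtain ⟨x3, hP3, hx3, hcl, hθcl, hsep3, -⟩ := case_A hA p hP2 P2 hred2 hl θ' hθ'
    refine ⟨x3, y2, hP3, ?_, hC2.yS, ?_, hLle hC2.yL, ?_, ?_⟩
    · intro i
      obtain ⟨a, j, e⟩ := hx3 i
      rw [e]
      exact S.mul_mem (mon_mem x2 hC2.xS a) (zpow_mem hθS j)
    · intro i
      obtain ⟨a, j, e⟩ := hx3 i
      rw [e]
      exact IntermediateField.mul_mem _ (mon_mem x2 (fun i => hLle (hC2.xL i)) a)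
        (zpow_mem hθL' j)
    · refine sup_le (hC2.dense.trans (cl_le_of_le_cl (Kxy_le x2 y2 hcl ?_))) ?_
      · exact le_cl _ (y_mem_Kxy x3 y2)
      · rw [IntermediateField.adjoin_le_iff]
        rintro w hw
        rw [Set.mem_singleton_iff.1 hw]
        exact hθcl
    · intro z hz
      refine sep_trans hsep3 ?_ (hC2.sep z hz)
      exact isSeparable_algebraMap (K := W) (⟨y2, y_mem_Kxy x3 y2⟩ : Kxy k x3 y2)
  · obtain ⟨N, hP3, hcl, hsep3⟩ := case_B hA hr p hP2 P2 hl θ' hθ'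
    have hmonne : mon x2 N ≠ 0 := by
      unfold mon
      exact Finset.prod_ne_zero_iff.2 fun i _ => zpow_ne_zero _ (hx2 i)
    have hθK : θ' ∈ Kxy k x2 (mon x2 N * θ') := by
      have h3 : θ' = (mon x2 N)⁻¹ * (mon x2 N * θ') := by
        field_simp
      rw [h3]
      refine IntermediateField.mul_mem _ (IntermediateField.inv_mem _ ?_) ?_
      · convert mon_mem_Kxy (k := k) x2 (mon x2 N * θ') N using 2
        congr 1
        field_simp
      · convert y_mem_Kxy (k := k) x2 (mon x2 N * θ') using 2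
        congr 1
        field_simp
    refine ⟨x2, mon x2 N * θ', hP3, hC2.xS, ?_, fun i => hLle (hC2.xL i), ?_, ?_, ?_⟩
    · exact S.mul_mem (mon_mem x2 hC2.xS N) hθS
    · exact IntermediateField.mul_mem _ (mon_mem x2 (fun i => hLle (hC2.xL i)) N) hθL'
    · refine sup_le (hC2.dense.trans (cl_le_of_le_cl (Kxy_le x2 y2 ?_ hcl))) ?_
      · intro i
        exact le_cl _ (x_mem_Kxy x2 _ i)
      · rw [IntermediateField.adjoin_le_iff]
        rintro w hw
        rw [Set.mem_singleton_iff.1 hw]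
        exact le_cl _ hθK
    · intro z hz
      refine sep_trans ?_ hsep3 (hC2.sep z hz)
      intro i
      exact isSeparable_algebraMap (K := W)
        (⟨x2 i, x_mem_Kxy x2 _ i⟩ : Kxy k x2 (mon x2 N * θ'))

theorem as_step {k W : Type} [Field k] [IsAlgClosed k] [NormedField W] [IsUltrametricDist W]
    [Algebra k W] {r : ℕ} (hA : Amb r k W) (hr : 0 < r) (p : ℕ) [Fact p.Prime] [CharP k p]
    (S L : IntermediateField k W) (hS : ∀ z : W, IsSeparable S z → z ∈ S)
    (hL : IsComplete (L : Set W)) (h : HasChart S r L) (θ : W) (hθ : θ ^ p - θ ∈ L) :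
    HasChart S r (L ⊔ IntermediateField.adjoin k {θ}) := by
  by_cases hθL : θ ∈ L
  · have e : L ⊔ IntermediateField.adjoin k {θ} = L := by
      rw [sup_eq_left, IntermediateField.adjoin_le_iff]
      rintro w hw
      rw [Set.mem_singleton_iff.1 hw]
      exact hθL
    rw [e]
    exact h
  · obtain ⟨x, y, hC⟩ := h
    letI : NontriviallyNormedField W :=
      { (inferInstance : NormedField W) with
        non_trivial := by
          refine ⟨(x ⟨0, hr⟩)⁻¹, ?_⟩
          have h0 : x ⟨0, hr⟩ ≠ 0 := hC.par.ind.ne _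
          have h1 : ‖x ⟨0, hr⟩‖ < 1 := hC.par.ind.lt _
          rw [norm_inv]
          exact (one_lt_inv₀ (norm_pos_iff.2 h0)).2 h1 }
    exact ass_main hA hr p S L hS hL ⟨x, y, hC⟩ θ hθ hθL

end Pool.Agent.Lib.TDO
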