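import Pool.Agent.Lib.TDO.BDefs

/-!
# Module Appr: approximation by elements of the base ring

`τ = -(c_0 + c_2 τ^2 + ..)`; `τ_0 = 0`, `τ_(n+1) = -∑_{j ≠ 1} c_j τ_n^j ∈ R0`;
`τ - τ_(n+1) = -∑_{j ≥ 2} c_j (τ^j - τ_n^j) ∈ q (τ - τ_n) B`, and `τ ∈ B`, so `τ - τ_n ∈ q^n B`.
For `z = N(τ) / D(τ)`, `N, D` polynomials over `R0`, `‖D(τ)‖ = 1`: `D(τ) - D(τ_n) ∈ q^n B` (`n ≥ 1`) has
norm less than one, so `D(τ_n) ∈ R0` has norm one and is invertible in `R0`;
`z' = N(τ_n) / D(τ_n)`.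
-/

namespace Pool.Agent.Lib.TDO

open Pool.Agent.Lib.MP_3029eb_ag Pool.Agent.Lib.MP_3029eb_ag.Abh

private theorem appr_val {W : Type} [NormedField W] [IsUltrametricDist W] {z : W} :
    (ball W).valuation z = 1 ↔ ‖z‖ = 1 := by
  have h1 : (ball W).valuation z ≤ 1 ↔ ‖z‖ ≤ 1 := (ball W).valuation_le_one_iff z
  constructor
  · intro h
    have hz0 : z ≠ 0 := by
      rintro rfl
      rw [map_zero] at h
      exact zero_ne_one h
    refine le_antisymm (h1.1 h.le) ?_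
    have h2 : (ball W).valuation z⁻¹ ≤ 1 := by
      rw [map_inv₀, h, inv_one]
    have h3 : ‖z⁻¹‖ ≤ 1 := ((ball W).valuation_le_one_iff z⁻¹).1 h2
    rw [norm_inv] at h3
    exact (inv_le_one₀ (norm_pos_iff.2 hz0)).1 h3
  · intro h
    have hz0 : z ≠ 0 := by
      rintro rfl
      rw [norm_zero] at h
      exact zero_ne_one h
    refine le_antisymm (h1.2 h.le) ?_
    have h3 : ‖z⁻¹‖ ≤ 1 := by rw [norm_inv, h, inv_one]
    have h2 : (ball W).valuation z⁻¹ ≤ 1 := ((ball W).valuation_le_one_iff z⁻¹).2 h3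
    rw [map_inv₀] at h2
    exact (inv_le_one₀ (zero_lt_iff.2 ((Valuation.ne_zero_iff _).2 hz0))).1 h2

/-- Elements of `R0[τ]` are approximated by elements of `R0`. -/
private theorem appr_cl {W : Type} [Field W] {B R0 : Subring W} (hR : R0 ≤ B) {τ : W}
    (hτ : τ ∈ B) {z : W} (hz : z ∈ Subring.closure ((R0 : Set W) ∪ {τ})) :
    z ∈ B ∧ ∀ t ∈ R0, ∃ y ∈ R0, ∃ e ∈ B, z - y = (τ - t) * e := by
  induction hz using Subring.closure_induction with
  | mem z hz =>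
    rcases hz with hz | hz
    · exact ⟨hR hz, fun t _ => ⟨z, hz, 0, B.zero_mem, by ring⟩⟩
    · rw [Set.mem_singleton_iff] at hz
      subst hz
      exact ⟨hτ, fun t ht => ⟨t, ht, 1, B.one_mem, by ring⟩⟩
  | zero => exact ⟨B.zero_mem, fun t _ => ⟨0, R0.zero_mem, 0, B.zero_mem, by ring⟩⟩
  | one => exact ⟨B.one_mem, fun t _ => ⟨1, R0.one_mem, 0, B.zero_mem, by ring⟩⟩
  | add x y _ _ hx hy =>
    refine ⟨B.add_mem hx.1 hy.1, fun t ht => ?_⟩
    obtain ⟨x', hx', e, he, h1⟩ := hx.2 t ht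
    obtain ⟨y', hy', e', he', h2⟩ := hy.2 t ht
    exact ⟨x' + y', R0.add_mem hx' hy', e + e', B.add_mem he he', by
      linear_combination h1 + h2⟩
  | neg x _ hx =>
    refine ⟨B.neg_mem hx.1, fun t ht => ?_⟩
    obtain ⟨x', hx', e, he, h1⟩ := hx.2 t ht
    exact ⟨-x', R0.neg_mem hx', -e, B.neg_mem he, by linear_combination -h1⟩
  | mul x y _ _ hx hy =>
    refine ⟨B.mul_mem hx.1 hy.1, fun t ht => ?_⟩
    obtain ⟨x', hx', e, he, h1⟩ := hx.2 t ht
    obtain ⟨y', hy', e', he', h2⟩ := hy.2 t ht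
    exact ⟨x' * y', R0.mul_mem hx' hy', x * e' + e * y', B.add_mem (B.mul_mem hx.1 he')
      (B.mul_mem he (hR hy')), by linear_combination x * h2 + y' * h1⟩

theorem appr {W : Type} [NormedField W] [IsUltrametricDist W] (B R0 : Subring W)
    (hB : B ≤ (ball W).toSubring) (hBl : locV (ball W) B = B) (hR : R0 ≤ B)
    (hRl : locV (ball W) R0 = R0) (q : W) (hq : q ∈ B) (hq1 : ‖q‖ < 1) (τ : W) (hτ : τ ∈ B)
    (c : Polynomial W) (hc : ∀ j, c.coeff j ∈ R0) (hc1 : c.coeff 1 = 1)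
    (hcq : ∀ j, j ≠ 1 → ∃ b ∈ B, c.coeff j = q * b) (hroot : c.eval τ = 0) (N : ℕ) (z : W)
    (hz : z ∈ locV (ball W) (Subring.closure ((R0 : Set W) ∪ {τ}))) :
    ∃ z' ∈ R0, ∃ b ∈ B, z - z' = q ^ N * b := by
  -- the approximations of `τ`
  have hbase : ∀ n : ℕ, ∃ t ∈ R0, ∃ b ∈ B, τ - t = q ^ n * b := by
    intro n
    induction n with
    | zero => exact ⟨0, R0.zero_mem, τ, hτ, by ring⟩
    | succ n ih =>
      obtain ⟨t, ht, b, hb, htb⟩ := ih
      obtain ⟨d, hd⟩ : ∃ d : Polynomial W, d = c - Polynomial.X := ⟨_, rfl⟩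
      have hdR : ∀ j, d.coeff j ∈ R0 := by
        intro j
        rw [hd, Polynomial.coeff_sub, Polynomial.coeff_X]
        refine R0.sub_mem (hc j) ?_
        split_ifs
        · exact R0.one_mem
        · exact R0.zero_mem
      have hdq : ∀ j, ∃ b ∈ B, d.coeff j = q * b := by
        intro j
        by_cases hj : j = 1
        · refine ⟨0, B.zero_mem, ?_⟩
          rw [hd, hj, Polynomial.coeff_sub, hc1, Polynomial.coeff_X_one, sub_self, mul_zero]
        · obtain ⟨b, hb, h1⟩ := hcq j hj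
          refine ⟨b, hb, ?_⟩
          rw [hd, Polynomial.coeff_sub, Polynomial.coeff_X_of_ne_one hj, sub_zero, h1]
      choose β hβ hdβ using hdq
      have hpow : ∀ j : ℕ, ∃ e ∈ B, τ ^ j - t ^ j = (τ - t) * e := by
        intro j
        obtain ⟨e, he⟩ := sub_dvd_pow_sub_pow (⟨τ, hτ⟩ : B) ⟨t, hR ht⟩ j
        exact ⟨e, e.2, congrArg Subtype.val he⟩
      choose e he hpe using hpow
      have hτd : d.eval τ = -τ := by
        rw [hd, Polynomial.eval_sub, Polynomial.eval_X, hroot, zero_sub]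
      refine ⟨-d.eval t, ?_, b * -∑ j ∈ Finset.range (d.natDegree + 1), β j * e j, ?_, ?_⟩
      · rw [Polynomial.eval_eq_sum_range]
        exact R0.neg_mem (R0.sum_mem fun j _ => R0.mul_mem (hdR j) (R0.pow_mem ht j))
      · exact B.mul_mem hb (B.neg_mem (B.sum_mem fun j _ => B.mul_mem (hβ j) (he j)))
      · have h1 : d.eval τ - d.eval t = q * (τ - t) *
            ∑ j ∈ Finset.range (d.natDegree + 1), β j * e j := by
          rw [Polynomial.eval_eq_sum_range, Polynomial.eval_eq_sum_range,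
            ← Finset.sum_sub_distrib, Finset.mul_sum]
          refine Finset.sum_congr rfl fun j _ => ?_
          rw [← mul_sub, hpe, hdβ]
          ring
        rw [hτd, htb] at h1
        linear_combination -h1
  obtain ⟨a, ha, b, hb, hb1, hzb⟩ := hz
  rw [appr_val] at hb1
  obtain ⟨M, hM⟩ : ∃ M, M = N + 1 := ⟨_, rfl⟩
  obtain ⟨t, ht, β, hβ, htβ⟩ := hbase M
  obtain ⟨haB, ha2⟩ := appr_cl hR hτ ha
  obtain ⟨hbB, hb2⟩ := appr_cl hR hτ hb
  obtain ⟨a', ha', e, he, h1⟩ := ha2 t ht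
  obtain ⟨b', hb', e', he', h2⟩ := hb2 t ht
  rw [htβ] at h1 h2
  have hle : ∀ x ∈ B, ‖x‖ ≤ 1 := fun x hx => (mem_ball x).1 (hB hx)
  have hqM : ‖q ^ M * β * e'‖ < 1 := by
    rw [norm_mul, norm_mul, norm_pow, hM, pow_succ]
    have h3 : ‖q‖ ^ N ≤ 1 := pow_le_one₀ (norm_nonneg _) hq1.le
    have h4 := hle β hβ
    have h5 := hle e' he'
    calc ‖q‖ ^ N * ‖q‖ * ‖β‖ * ‖e'‖ ≤ 1 * ‖q‖ * 1 * 1 := by gcongr
      _ < 1 := by rw [one_mul, mul_one, mul_one]; exact hq1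
  have hb'1 : ‖b'‖ = 1 := by
    have h3 : b' = b + -(q ^ M * β * e') := by linear_combination -h2
    rw [h3, IsUltrametricDist.norm_add_eq_max_of_norm_ne_norm, norm_neg, hb1,
      max_eq_left hqM.le]
    rw [norm_neg, hb1]
    exact hqM.ne'
  have hb0 : b ≠ 0 := by
    rintro rfl
    rw [norm_zero] at hb1
    exact zero_ne_one hb1
  have hb'0 : b' ≠ 0 := by
    rintro rfl
    rw [norm_zero] at hb'1
    exact zero_ne_one hb'1
  have hz' : a' * b'⁻¹ ∈ R0 := by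
    rw [← hRl]
    refine ⟨a', ha', b', hb', appr_val.2 hb'1, ?_⟩
    rw [mul_assoc, inv_mul_cancel₀ hb'0, mul_one]
  have hinv : (b * b')⁻¹ ∈ B := by
    rw [← hBl]
    refine ⟨1, B.one_mem, b * b', B.mul_mem hbB (hR hb'), appr_val.2 ?_, ?_⟩
    · rw [norm_mul, hb1, hb'1, one_mul]
    · exact inv_mul_cancel₀ (mul_ne_zero hb0 hb'0)
  refine ⟨a' * b'⁻¹, hz', q * (β * ((e * b - a * e') * (b * b')⁻¹)), ?_, ?_⟩
  · exact B.mul_mem hq (B.mul_mem hβ (B.mul_mem (B.sub_mem (B.mul_mem he hbB)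
      (B.mul_mem haB he')) hinv))
  · have h3 : z = a * b⁻¹ := by rw [← hzb, mul_assoc, mul_inv_cancel₀ hb0, mul_one]
    have h4 : a * b' - a' * b = q ^ M * β * (e * b - a * e') := by
      linear_combination b * h1 - a * h2
    have h5 : z - a' * b'⁻¹ = (a * b' - a' * b) * (b * b')⁻¹ := by
      rw [h3]
      field_simp
    rw [h5, h4, hM, pow_succ]
    ring

end Pool.Agent.Lib.TDO
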