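import Mathlib

/-!
# Module Tol: the total order lemma

`N0, N1, N2` nonarchimedean absolute values on `E[T]`, equal on `E`, `N0 ≤ N1`, `N0 ≤ N2`.
Proof.  If `N0 = N1` or `N0 = N2` done.  Let `D_i` be the minimal degree of a polynomial `Q` with
`N0 Q < N_i Q`, `Q_i` monic of this degree with `N0 Q_i < N_i Q_i` (`i = 1, 2`; divide by the leading
coefficient).
CLAIM: `N_i f = max_j N0 (z_j) (N_i Q_i)^j` for the `Q_i`-adic expansion `f = ∑ z_j Q_i^j`,
`deg z_j < D_i` (for which `N_i z_j = N0 z_j`).  Let `M` be the maximum; if `N_i f < M` drop the terms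
of value `< M` and divide by a power of `Q_i`: `z_0 ≠ 0`, `N0 z_0 = M`, and
`N0 (z_j Q_i^j) < N_i (z_j Q_i^j) = M` for `j ≥ 1`, so `N0 f = M > N_i f ≥ N0 f`, contradiction.
COMPARE (wlog `D_1 ≤ D_2`).  `D_1 < D_2`: `N2 z_j = N0 z_j`, `N2 Q_1 = N0 Q_1 < N1 Q_1`, so
`N2 f ≤ N1 f` for all `f`.  `D_1 = D_2`: if `N2 Q_1 ≤ N1 Q_1` then `N2 ≤ N1` by the claim for `1` (the
`z_j` have degree `< D_2`, `N2 z_j = N0 z_j`).  If `N1 Q_1 < N2 Q_1` then `N0 Q_1 < N2 Q_1`, the claim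
for `2` holds with `Q_1` in place of `Q_2`, and `N1 ≤ N2`.
-/

namespace Pool.Agent.Lib.TDO

open Polynomial

private theorem tol_dom {E : Type} [Field E] (N : AbsoluteValue E[X] ℝ)
    (h : ∀ f g, N (f + g) ≤ max (N f) (N g)) {a b : E[X]} (hab : N b < N a) :
    N (a + b) = N a := by
  refine le_antisymm ((h a b).trans (max_le le_rfl hab.le)) ?_
  have h1 := h (a + b) (-b)
  rw [add_neg_cancel_right, N.map_neg] at h1
  rcases le_max_iff.1 h1 with h2 | h2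
  · exact h2
  · exact absurd hab (not_lt.2 h2)

/-- One step of the expansion. -/
private theorem tol_step {E : Type} [Field E] (N0 N : AbsoluteValue E[X] ℝ)
    (h0 : ∀ f g, N0 (f + g) ≤ max (N0 f) (N0 g)) (h : ∀ f g, N (f + g) ≤ max (N f) (N g))
    (hle : ∀ f, N0 f ≤ N f) {Q z g : E[X]} (hQ : N0 Q < N Q) (hz : N z = N0 z) :
    N (z + Q * g) = max (N z) (N Q * N g) := by
  rw [← N.map_mul]
  rcases lt_trichotomy (N z) (N (Q * g)) with h1 | h1 | h1
  · rw [add_comm, tol_dom N h h1, max_eq_right h1.le]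
  · refine le_antisymm (h _ _) ?_
    rw [← h1, max_self]
    by_contra hcon
    rw [not_le] at hcon
    have hM : 0 < N z := lt_of_le_of_lt (N.nonneg _) hcon
    rw [N.map_mul] at h1
    have hg : 0 < N g := by
      rcases (N.nonneg g).lt_or_eq with h2 | h2
      · exact h2
      · rw [← h2, mul_zero] at h1
        exact absurd h1 hM.ne'
    have h3 : N0 (Q * g) < N0 z := by
      rw [N0.map_mul, ← hz, h1]
      calc N0 Q * N0 g ≤ N0 Q * N g := mul_le_mul_of_nonneg_left (hle g) (N0.nonneg Q)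
        _ < N Q * N g := mul_lt_mul_of_pos_right hQ hg
    have h4 := tol_dom N0 h0 h3
    have h5 := hle (z + Q * g)
    rw [h4, ← hz] at h5
    exact absurd hcon (not_lt.2 h5)
  · rw [tol_dom N h h1, max_eq_left h1.le]

private theorem tol_le {E : Type} [Field E] (N0 Na Nb : AbsoluteValue E[X] ℝ)
    (h0 : ∀ f g, N0 (f + g) ≤ max (N0 f) (N0 g)) (ha : ∀ f g, Na (f + g) ≤ max (Na f) (Na g))
    (hb : ∀ f g, Nb (f + g) ≤ max (Nb f) (Nb g)) (hle : ∀ f, N0 f ≤ Nb f) {Q : E[X]}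
    (hQ : Q.Monic) (hD : 1 ≤ Q.natDegree) (hQ1 : N0 Q < Nb Q) (hQ2 : Na Q ≤ Nb Q)
    (hza : ∀ z : E[X], z.natDegree < Q.natDegree → Na z = N0 z)
    (hzb : ∀ z : E[X], z.natDegree < Q.natDegree → Nb z = N0 z) (f : E[X]) : Na f ≤ Nb f := by
  obtain ⟨n, hn⟩ : ∃ n, n = f.natDegree := ⟨_, rfl⟩
  induction n using Nat.strong_induction_on generalizing f with
  | _ n ih =>
    by_cases hf : f.natDegree < Q.natDegree
    · rw [hza f hf, hzb f hf]
    · have hQ0 : Q ≠ 1 := by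
        rintro rfl
        rw [natDegree_one] at hD
        omega
      have hz : (f %ₘ Q).natDegree < Q.natDegree := natDegree_modByMonic_lt f hQ hQ0
      have hg : (f /ₘ Q).natDegree < n := by
        rw [natDegree_divByMonic f hQ, hn]
        omega
      have hfe : f = f %ₘ Q + Q * (f /ₘ Q) := (modByMonic_add_div f Q).symm
      have h1 := tol_step N0 Nb h0 hb hle (z := f %ₘ Q) (g := f /ₘ Q) hQ1 (hzb _ hz)
      have h2 := ih _ hg (f /ₘ Q) rfl
      have h3 : Na f ≤ max (Na (f %ₘ Q)) (Na Q * Na (f /ₘ Q)) := by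
        rw [← Na.map_mul]
        conv_lhs => rw [hfe]
        exact ha _ _
      have h4 : Nb f = max (Nb (f %ₘ Q)) (Nb Q * Nb (f /ₘ Q)) := by
        rw [← h1, ← hfe]
      rw [h4, hzb _ hz]
      refine h3.trans (max_le_max ?_ ?_)
      · rw [hza _ hz]
      · exact mul_le_mul hQ2 h2 (Na.nonneg _) (Nb.nonneg _)

/-- The minimal polynomial on which the absolute values differ. -/
private theorem tol_min {E : Type} [Field E] (N0 N : AbsoluteValue E[X] ℝ)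
    (hc : ∀ e : E, N (C e) = N0 (C e)) (hle : ∀ f, N0 f ≤ N f) (hne : ¬ ∀ f, N f ≤ N0 f) :
    ∃ Q : E[X], Q.Monic ∧ 1 ≤ Q.natDegree ∧ N0 Q < N Q ∧
      ∀ z : E[X], z.natDegree < Q.natDegree → N z = N0 z := by
  classical
  have hex : ∃ n, ∃ P : E[X], P.natDegree = n ∧ N0 P < N P := by
    push Not at hne
    obtain ⟨P, hP⟩ := hne
    exact ⟨_, P, rfl, hP⟩
  obtain ⟨P, hPn, hP⟩ := Nat.find_spec hex
  have hmin : ∀ z : E[X], z.natDegree < P.natDegree → N z = N0 z := by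
    intro z hz
    refine le_antisymm (not_lt.1 fun h1 => ?_) (hle z)
    rw [hPn] at hz
    exact Nat.find_min hex hz ⟨z, rfl, h1⟩
  have hP0 : P ≠ 0 := by
    rintro rfl
    rw [N0.map_zero, N.map_zero] at hP
    exact lt_irrefl _ hP
  have hlc : P.leadingCoeff⁻¹ ≠ 0 := inv_ne_zero (leadingCoeff_ne_zero.2 hP0)
  have hdeg : (P * C P.leadingCoeff⁻¹).natDegree = P.natDegree :=
    natDegree_mul_C hlc
  refine ⟨P * C P.leadingCoeff⁻¹, monic_mul_leadingCoeff_inv hP0, ?_, ?_, ?_⟩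
  · rw [hdeg]
    by_contra h1
    have h2 : P.natDegree = 0 := by omega
    obtain ⟨e, he⟩ := natDegree_eq_zero.1 h2
    rw [← he, hc] at hP
    exact lt_irrefl _ hP
  · rw [N0.map_mul, N.map_mul, hc]
    refine mul_lt_mul_of_pos_right hP (N0.pos ?_)
    rwa [Ne, C_eq_zero]
  · intro z hz
    rw [hdeg] at hz
    exact hmin z hz

theorem tol {E : Type} [Field E] (N0 N1 N2 : AbsoluteValue (Polynomial E) ℝ)
    (h0 : ∀ f g, N0 (f + g) ≤ max (N0 f) (N0 g)) (h1 : ∀ f g, N1 (f + g) ≤ max (N1 f) (N1 g))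
    (h2 : ∀ f g, N2 (f + g) ≤ max (N2 f) (N2 g))
    (hc1 : ∀ e : E, N1 (Polynomial.C e) = N0 (Polynomial.C e))
    (hc2 : ∀ e : E, N2 (Polynomial.C e) = N0 (Polynomial.C e))
    (h01 : ∀ f, N0 f ≤ N1 f) (h02 : ∀ f, N0 f ≤ N2 f) :
    (∀ f, N1 f ≤ N2 f) ∨ (∀ f, N2 f ≤ N1 f) := by
  by_cases hn1 : ∀ f, N1 f ≤ N0 f
  · exact Or.inl fun f => (hn1 f).trans (h02 f)
  by_cases hn2 : ∀ f, N2 f ≤ N0 f
  · exact Or.inr fun f => (hn2 f).trans (h01 f)
  obtain ⟨Q1, hQ1, hD1, hlt1, hz1⟩ := tol_min N0 N1 hc1 h01 hn1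
  obtain ⟨Q2, hQ2, hD2, hlt2, hz2⟩ := tol_min N0 N2 hc2 h02 hn2
  rcases le_total Q1.natDegree Q2.natDegree with h | h
  · rcases le_total (N2 Q1) (N1 Q1) with h3 | h3
    · exact Or.inr (tol_le N0 N2 N1 h0 h2 h1 h01 hQ1 hD1 hlt1 h3
        (fun z hz => hz2 z (hz.trans_le h)) hz1)
    · exact Or.inl (tol_le N0 N1 N2 h0 h1 h2 h02 hQ1 hD1 (hlt1.trans_le h3) h3 hz1
        (fun z hz => hz2 z (hz.trans_le h)))
  · rcases le_total (N1 Q2) (N2 Q2) with h3 | h3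
    · exact Or.inl (tol_le N0 N1 N2 h0 h1 h2 h02 hQ2 hD2 hlt2 h3
        (fun z hz => hz1 z (hz.trans_le h)) hz2)
    · exact Or.inr (tol_le N0 N2 N1 h0 h2 h1 h01 hQ2 hD2 (hlt2.trans_le h3) h3 hz2
        (fun z hz => hz1 z (hz.trans_le h)))

end Pool.Agent.Lib.TDO
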