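import Pool.Agent.Lib.TDO.Gfac
import Pool.Agent.Lib.TDO.Tol
import Pool.Agent.Lib.TDO.Tr

/-!
# Module CompG: `G` and `G ∘ σ` are comparable on `BB`

`s = (x, y)` is a good stage (`hs`), `t = (x1, y1)` a later good stage with Gauss norm `G`, `σ` an
isometric automorphism with `σ (BB s) ⊆ BB t` and `σ (x i)` monomial at `t`.
Proof.  `Ex = IntermediateField.adjoin k (range x)`; `φ : Ex[T] → N`, `T ↦ y`, injective
(`Par.tr`).  `N0 = ‖φ ·‖`, `N1 = G (φ ·)`, `N2 = G (σ (φ ·))`.  On `Ex` they agree: a nonzero element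
of `Ex` is a quotient of finite sums `∑ c_a mon x a`, with `‖mon x a‖ = G (mon x a) = G (σ (mon x a))`
(the `x i` are monomial at `t`, `Rf.mo`, `OO_le_BB`, `GS.mo`; `‖σ (mon x a)‖ = ‖mon x a‖`), pairwise
different, so all three norms of the sum are the maximum.  `N0 ≤ N1, N2` on `k[x^±][T]`: such an
element is `mon x a * z` with `z ∈ LO k x y ≤ BB s ≤ BB t` (multiply by a small monomial),
`GS.norm_le`; in general multiply by a nonzero element of `k[x^±]`.  `tol` gives the alternative on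
`LL k x y`; it extends to `OO k x y` (`z d = n`, `d ∈ LO` of norm one, `G d = G (σ d) = 1`:
`GS.eq_one`) and to `BB k x y τ` by `GS.ap` at the stage `s` (`z - z' = mon x a * b`,
`G (mon x a b) ≤ ‖mon x a‖`, `G (σ (mon x a b)) ≤ ‖mon x a‖`, arbitrarily small).
-/

namespace Pool.Agent.Lib.TDO

open Pool.Agent.Lib.MP_3029eb_ag Pool.Agent.Lib.MP_3029eb_ag.Abh

section aux

variable {k N : Type} [Field k] [NormedField N] [IsUltrametricDist N] [Algebra k N] {r : ℕ}

/-- The monoid homomorphism of the monomials in `x`. -/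
private noncomputable def cg_hom (x : Fin r → N) (hx : ∀ i, x i ≠ 0) :
    Multiplicative (Fin r → ℤ) →* N where
  toFun a := Abh.mon x a.toAdd
  map_one' := mon_zero x
  map_mul' a b := mon_add x hx a.toAdd b.toAdd

omit [IsUltrametricDist N] in
private lemma cg_rep (x : Fin r → N) (hx : ∀ i, x i ≠ 0) {z : N}
    (hz : z ∈ Algebra.adjoin k (Set.range x)) :
    ∃ f : (Fin r → ℤ) →₀ k, z = f.sum fun a c => algebraMap k N c * Abh.mon x a := by
  have hle : Algebra.adjoin k (Set.range x) ≤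
      (AddMonoidAlgebra.lift k N (Fin r → ℤ) (cg_hom x hx)).range := by
    apply Algebra.adjoin_le
    rintro _ ⟨i, rfl⟩
    refine ⟨AddMonoidAlgebra.single (Pi.single i 1) 1, ?_⟩
    have h1 : AddMonoidAlgebra.lift k N (Fin r → ℤ) (cg_hom x hx)
        (AddMonoidAlgebra.single (Pi.single i 1) 1) =
        (1 : k) • Abh.mon x (Pi.single i 1) := AddMonoidAlgebra.lift_single _ _ _
    refine h1.trans ?_
    rw [one_smul]
    exact mon_single x i
  obtain ⟨Q, rfl⟩ := hle hz
  exact ⟨Q.coeff, rfl⟩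

/-- An absolute value with the same values on the monomials has the same values on the sums. -/
private lemma cg_val (hA : Amb r k N) {x : Fin r → N} (hx : Indep x) (H : AbsoluteValue N ℝ)
    (hna : ∀ a b, H (a + b) ≤ max (H a) (H b))
    (hk : ∀ c : k, c ≠ 0 → H (algebraMap k N c) = 1)
    (hm : ∀ a : Fin r → ℤ, H (Abh.mon x a) = ‖Abh.mon x a‖) (f : (Fin r → ℤ) →₀ k) :
    H (f.sum fun a c => algebraMap k N c * Abh.mon x a) =
      ‖f.sum fun a c => algebraMap k N c * Abh.mon x a‖ := by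
  by_cases hs : f.support.Nonempty
  · obtain ⟨a0, ha0, hmax⟩ := Finset.exists_max_image f.support (fun a => ‖Abh.mon x a‖) hs
    have hlt : ∀ j ∈ f.support, j ≠ a0 → ‖Abh.mon x j‖ < ‖Abh.mon x a0‖ := fun j hj hne =>
      lt_of_le_of_ne (hmax j hj) (fun h => hne (norm_mon_inj hx h))
    have hH : ∀ j ∈ f.support, H (algebraMap k N (f j) * Abh.mon x j) = ‖Abh.mon x j‖ := by
      intro j hj
      rw [map_mul, hk _ (Finsupp.mem_support_iff.1 hj), one_mul, hm]
    have hN : ∀ j ∈ f.support, ‖algebraMap k N (f j) * Abh.mon x j‖ = ‖Abh.mon x j‖ := by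
      intro j hj
      rw [norm_mul, hA.unit _ (Finsupp.mem_support_iff.1 hj), one_mul]
    unfold Finsupp.sum
    have h1 := IsNonarchimedean.apply_sum_eq_of_lt (f := fun z : N => H z) hna
      (fun a => (H.map_neg a).symm) (s := f.support)
      (l := fun a => algebraMap k N (f a) * Abh.mon x a) ha0
      (fun j hj hne => by
        show H (algebraMap k N (f j) * Abh.mon x j) < H (algebraMap k N (f a0) * Abh.mon x a0)
        rw [hH j hj, hH a0 ha0]; exact hlt j hj hne)
    have h2 := IsNonarchimedean.apply_sum_eq_of_lt (f := fun z : N => ‖z‖)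
      (fun a b => IsUltrametricDist.norm_add_le_max a b)
      (fun a => (norm_neg a).symm) (s := f.support)
      (l := fun a => algebraMap k N (f a) * Abh.mon x a) ha0
      (fun j hj hne => by
        show ‖algebraMap k N (f j) * Abh.mon x j‖ < ‖algebraMap k N (f a0) * Abh.mon x a0‖
        rw [hN j hj, hN a0 ha0]; exact hlt j hj hne)
    have h3 := hH a0 ha0
    have h4 := hN a0 ha0
    exact (h1.trans h3).trans (h2.trans h4).symm
  · rw [Finset.not_nonempty_iff_eq_empty, Finsupp.support_eq_empty] at hs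
    rw [hs, Finsupp.sum_zero_index, map_zero, norm_zero]

private lemma cg_field (hA : Amb r k N) {x : Fin r → N} (hx : Indep x) (H : AbsoluteValue N ℝ)
    (hna : ∀ a b, H (a + b) ≤ max (H a) (H b))
    (hk : ∀ c : k, c ≠ 0 → H (algebraMap k N c) = 1)
    (hm : ∀ a : Fin r → ℤ, H (Abh.mon x a) = ‖Abh.mon x a‖) {e : N}
    (he : e ∈ IntermediateField.adjoin k (Set.range x)) : H e = ‖e‖ := by
  rw [IntermediateField.mem_adjoin_iff_div] at he
  obtain ⟨n, hn, d, hd, rfl⟩ := he
  obtain ⟨f, hf⟩ := cg_rep x hx.ne hn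
  obtain ⟨g, hg⟩ := cg_rep x hx.ne hd
  have h1 : H n = ‖n‖ := by rw [hf]; exact cg_val hA hx H hna hk hm f
  have h2 : H d = ‖d‖ := by rw [hg]; exact cg_val hA hx H hna hk hm g
  rw [map_div₀, norm_div, h1, h2]

omit [IsUltrametricDist N] in
private lemma cg_adj_LO {x : Fin r → N} (hx : Indep x) (y : N) {z : N}
    (hz : z ∈ Algebra.adjoin k (Set.range x)) : z ∈ LO k x y := by
  induction hz using Algebra.adjoin_induction with
  | mem z hz =>
    obtain ⟨i, rfl⟩ := hz
    apply Subring.subset_closure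
    refine Or.inl (Or.inr ⟨Pi.single i 1, ?_, ?_⟩)
    · rw [mon_single]; exact (hx.lt i).le
    · rw [mon_single]
  | algebraMap c => exact Subring.subset_closure (Or.inl (Or.inl ⟨c, rfl⟩))
  | add a b _ _ ha hb => exact add_mem ha hb
  | mul a b _ _ ha hb => exact mul_mem ha hb

omit [IsUltrametricDist N] in
private lemma cg_y_LO (x : Fin r → N) (y : N) : y ∈ LO k x y :=
  Subring.subset_closure (Or.inr rfl)

omit [IsUltrametricDist N] in
/-- A common denominator. -/
private lemma cg_den {x : Fin r → N} (hx : Indep x) (y : N)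
    (f : Polynomial (IntermediateField.adjoin k (Set.range x))) :
    ∃ D ∈ Algebra.adjoin k (Set.range x), D ≠ 0 ∧ D * Polynomial.aeval y f ∈ LO k x y := by
  induction f using Polynomial.induction_on' with
  | add f g hf hg =>
    obtain ⟨D, hD, hD0, hf⟩ := hf
    obtain ⟨D', hD', hD0', hg⟩ := hg
    refine ⟨D * D', mul_mem hD hD', mul_ne_zero hD0 hD0', ?_⟩
    have h : D * D' * Polynomial.aeval y (f + g) = D' * (D * Polynomial.aeval y f) +
        D * (D' * Polynomial.aeval y g) := by rw [map_add]; ring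
    rw [h]
    exact add_mem (mul_mem (cg_adj_LO hx y hD') hf) (mul_mem (cg_adj_LO hx y hD) hg)
  | monomial n e =>
    obtain ⟨e, he⟩ := e
    have he' := he
    rw [IntermediateField.mem_adjoin_iff_div] at he'
    obtain ⟨a, ha, d, hd, h⟩ := he'
    have hev : Polynomial.aeval y (Polynomial.monomial n
        (⟨e, he⟩ : IntermediateField.adjoin k (Set.range x))) = e * y ^ n := by
      rw [Polynomial.aeval_monomial]; rfl
    rw [hev]
    by_cases hd0 : d = 0
    · refine ⟨1, one_mem _, one_ne_zero, ?_⟩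
      rw [h, hd0, div_zero, zero_mul, mul_zero]
      exact zero_mem _
    · refine ⟨d, hd, hd0, ?_⟩
      have h2 : d * (e * y ^ n) = a * y ^ n := by
        rw [h, ← mul_assoc, mul_div_cancel₀ _ hd0]
      rw [h2]
      exact mul_mem (cg_adj_LO hx y ha) (pow_mem (cg_y_LO x y) n)

/-- `‖z‖ ≤ H z` on `Ex[y]`. -/
private lemma cg_le {x : Fin r → N} (hx : Indep x) (y : N) (H : AbsoluteValue N ℝ)
    (hE : ∀ e ∈ IntermediateField.adjoin k (Set.range x), H e = ‖e‖)
    (hL : ∀ z ∈ LO k x y, ‖z‖ ≤ H z)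
    (f : Polynomial (IntermediateField.adjoin k (Set.range x))) :
    ‖Polynomial.aeval y f‖ ≤ H (Polynomial.aeval y f) := by
  obtain ⟨D, hD, hD0, hf⟩ := cg_den hx y f
  have h1 := hL _ hf
  have h2 : H D = ‖D‖ := hE D (IntermediateField.algebra_adjoin_le_adjoin k _ hD)
  rw [norm_mul, map_mul, h2] at h1
  exact le_of_mul_le_mul_left h1 (norm_pos_iff.2 hD0)

omit [IsUltrametricDist N] in
private lemma cg_LO_range (x : Fin r → N) (y : N) {z : N} (hz : z ∈ LO k x y) :
    ∃ f : Polynomial (IntermediateField.adjoin k (Set.range x)), Polynomial.aeval y f = z := by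
  have hle : LO k x y ≤ (Polynomial.aeval (R := IntermediateField.adjoin k (Set.range x))
      y).range.toSubring := by
    unfold LO
    rw [Subring.closure_le]
    rintro w ((⟨c, rfl⟩ | ⟨a, _, rfl⟩) | rfl)
    · exact ⟨Polynomial.C (algebraMap k _ c), by
        show Polynomial.aeval y (Polynomial.C (algebraMap k _ c)) = _
        rw [Polynomial.aeval_C]; rfl⟩
    · have hm : Abh.mon x a ∈ IntermediateField.adjoin k (Set.range x) :=
        mon_mem x (fun i => IntermediateField.subset_adjoin k (Set.range x) (Set.mem_range_self i)) a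
      exact ⟨Polynomial.C (⟨Abh.mon x a, hm⟩ : IntermediateField.adjoin k (Set.range x)), by
        show Polynomial.aeval y
          (Polynomial.C (⟨Abh.mon x a, hm⟩ : IntermediateField.adjoin k (Set.range x))) = _
        rw [Polynomial.aeval_C]; rfl⟩
    · exact ⟨Polynomial.X, by
        show Polynomial.aeval w Polynomial.X = w
        rw [Polynomial.aeval_X]⟩
  exact hle hz

omit [IsUltrametricDist N] in
private lemma cg_inj {x : Fin r → N} {y : N} (hP : Par k x y) :
    Function.Injective (Polynomial.aeval (R := IntermediateField.adjoin k (Set.range x)) y) := by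
  have h1 := (tr_iff x y hP.ind.ne).1 hP.tr
  have hx : AlgebraicIndependent k x := by
    have h2 := h1.comp (fun i : Fin r => some i) (Option.some_injective _)
    exact h2
  have h3 : Transcendental (Algebra.adjoin k (Set.range x)) y :=
    (hx.option_iff_transcendental y).1 h1
  have h4 : Transcendental (IntermediateField.adjoin k (Set.range x)) y :=
    IntermediateField.transcendental_adjoin_iff.2 h3
  exact transcendental_iff_injective.1 h4

private lemma cg_prod (H : AbsoluteValue N ℝ) {x : Fin r → N} (h : ∀ i, H (x i) = ‖x i‖)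
    (a : Fin r → ℤ) : H (Abh.mon x a) = ‖Abh.mon x a‖ := by
  unfold MP_3029eb_ag.Abh.mon
  rw [map_prod, norm_prod]
  refine Finset.prod_congr rfl (fun i _ => ?_)
  rw [map_zpow₀, norm_zpow, h i]

/-- The transfer from `LO` to `BB`. -/
private lemma cg_transfer (hA : Amb r k N) (hr : 0 < r) {x : Fin r → N} {y : N}
    {E : IntermediateField k N} {P : Polynomial E} {τ : N} {G0 : AbsoluteValue N ℝ}
    (hs : GS k x y E P τ G0) (H1 H2 : AbsoluteValue N ℝ)
    (hna1 : ∀ a b, H1 (a + b) ≤ max (H1 a) (H1 b)) (hna2 : ∀ a b, H2 (a + b) ≤ max (H2 a) (H2 b))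
    (hm1 : ∀ a : Fin r → ℤ, H1 (Abh.mon x a) = ‖Abh.mon x a‖)
    (hm2 : ∀ a : Fin r → ℤ, H2 (Abh.mon x a) = ‖Abh.mon x a‖)
    (hB1 : ∀ z ∈ BB k x y τ, H1 z ≤ 1) (hB2 : ∀ z ∈ BB k x y τ, H2 z ≤ 1)
    (hu1 : ∀ z ∈ BB k x y τ, ‖z‖ = 1 → H1 z = 1) (hu2 : ∀ z ∈ BB k x y τ, ‖z‖ = 1 → H2 z = 1)
    (hL : ∀ z ∈ LO k x y, H1 z ≤ H2 z) {z : N} (hz : z ∈ BB k x y τ) : H1 z ≤ H2 z := by
  have hy := hs.par.y1
  by_contra hcon
  rw [not_le] at hcon
  have hpos : 0 < H1 z := lt_of_le_of_lt (H2.nonneg z) hcon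
  obtain ⟨z', hz', a, ha, b, hb, he⟩ := hs.ap hA hr (H1 z) hpos hz
  have hsm1 : H1 (z - z') < H1 z := by
    rw [he, map_mul, hm1]
    have h1 := hB1 b hb
    have h2 := H1.nonneg b
    nlinarith [norm_nonneg (Abh.mon x a)]
  have hsm2 : H2 (z - z') < H1 z := by
    rw [he, map_mul, hm2]
    have h1 := hB2 b hb
    have h2 := H2.nonneg b
    nlinarith [norm_nonneg (Abh.mon x a)]
  have h3 : H1 z ≤ H1 z' := by
    have h4 := hna1 (z - z') z'
    rw [sub_add_cancel] at h4
    rcases le_max_iff.1 h4 with h5 | h5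
    · exact absurd h5 (not_le.2 hsm1)
    · exact h5
  have h4 : H2 z' < H1 z := by
    have h5 := hna2 z (-(z - z'))
    rw [H2.map_neg, ← sub_eq_add_neg, sub_sub_cancel] at h5
    exact lt_of_le_of_lt h5 (max_lt hcon hsm2)
  obtain ⟨n, hn, d, hd, hd1, hnd⟩ := hz'
  have hd2 : ‖d‖ = 1 := by
    have h5 : (ball N).valuation d ≤ 1 := hd1.le
    have h6 : ‖d‖ ≤ 1 := ((ball N).valuation_le_one_iff d).1 h5
    refine le_antisymm h6 ?_
    have hd0 : d ≠ 0 := by
      rintro rfl
      rw [map_zero] at hd1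
      exact zero_ne_one hd1
    have h7 : (ball N).valuation d⁻¹ ≤ 1 := by rw [map_inv₀, hd1, inv_one]
    have h8 : ‖d⁻¹‖ ≤ 1 := ((ball N).valuation_le_one_iff d⁻¹).1 h7
    rw [norm_inv] at h8
    exact (inv_le_one₀ (norm_pos_iff.2 hd0)).1 h8
  have hdB : d ∈ BB k x y τ := OO_le_BB x y τ (LO_le_OO hA hy.le hd)
  have h5 : H1 z' = H1 n := by rw [← hnd, map_mul, hu1 d hdB hd2, mul_one]
  have h6 : H2 z' = H2 n := by rw [← hnd, map_mul, hu2 d hdB hd2, mul_one]
  have h7 := hL n hn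
  rw [← h5, ← h6] at h7
  exact absurd (h3.trans h7) (not_le.2 h4)

end aux

theorem comp_G {k N : Type} [Field k] [NormedField N] [IsUltrametricDist N] [Algebra k N]
    {r : ℕ} (hA : Amb r k N) (hr : 0 < r) {x : Fin r → N} {y : N} {E : IntermediateField k N}
    {P : Polynomial E} {τ : N} {G0 : AbsoluteValue N ℝ} (hs : GS k x y E P τ G0)
    {x1 : Fin r → N} {y1 : N} {G : AbsoluteValue N ℝ} (ht : GS k x1 y1 E P τ G)
    (hrf : Rf k x y x1 y1) (σ : N ≃ₐ[k] N) (hiso : ∀ z, ‖σ z‖ = ‖z‖)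
    (hσB : ∀ z ∈ BB k x y τ, σ z ∈ BB k x1 y1 τ)
    (hσx : ∀ i, Mo (BB k x1 y1 τ) x1 (σ (x i))) :
    (∀ z ∈ BB k x y τ, G (σ z) ≤ G z) ∨ (∀ z ∈ BB k x y τ, G z ≤ G (σ z)) := by
  classical
  have hy := hs.par.y1
  have hy1 := ht.par.y1
  have hBB : BB k x y τ ≤ BB k x1 y1 τ := BB_mono hA hy1.le hs.et.lt.le hrf.le
  have hLB : ∀ z ∈ LO k x y, z ∈ BB k x y τ := fun z hz =>
    OO_le_BB x y τ (LO_le_OO hA hy.le hz)
  -- the second absolute value
  set G' : AbsoluteValue N ℝ := G.comp (f := (σ : N →+* N)) σ.injective with hG'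
  have hG'a : ∀ z, G' z = G (σ z) := fun z => rfl
  have hna' : ∀ a b, G' (a + b) ≤ max (G' a) (G' b) := by
    intro a b
    rw [hG'a, hG'a, hG'a, map_add]
    exact ht.na _ _
  -- on `BB`
  have hB1 : ∀ z ∈ BB k x y τ, G z ≤ 1 := fun z hz => ht.le_one hA (hBB hz)
  have hB2 : ∀ z ∈ BB k x y τ, G' z ≤ 1 := fun z hz => ht.le_one hA (hσB z hz)
  have hu1 : ∀ z ∈ BB k x y τ, ‖z‖ = 1 → G z = 1 := fun z hz h1 => ht.eq_one hA (hBB hz) h1
  have hu2 : ∀ z ∈ BB k x y τ, ‖z‖ = 1 → G' z = 1 := fun z hz h1 =>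
    ht.eq_one hA (hσB z hz) ((hiso z).trans h1)
  have hl1 : ∀ z ∈ LO k x y, ‖z‖ ≤ G z := fun z hz => ht.norm_le hA hr (hBB (hLB z hz))
  have hl2 : ∀ z ∈ LO k x y, ‖z‖ ≤ G' z := fun z hz => by
    have h1 := ht.norm_le hA hr (hσB z (hLB z hz))
    rw [hiso] at h1
    exact h1
  -- on the constants and the monomials
  have hkB : ∀ c : k, algebraMap k N c ∈ LO k x y := fun c =>
    Subring.subset_closure (Or.inl (Or.inl ⟨c, rfl⟩))
  have hk1 : ∀ c : k, c ≠ 0 → G (algebraMap k N c) = 1 := fun c hc =>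
    hu1 _ (hLB _ (hkB c)) (hA.unit c hc)
  have hk2 : ∀ c : k, c ≠ 0 → G' (algebraMap k N c) = 1 := fun c hc =>
    hu2 _ (hLB _ (hkB c)) (hA.unit c hc)
  have hm1 : ∀ a : Fin r → ℤ, G (Abh.mon x a) = ‖Abh.mon x a‖ := cg_prod G (fun i => by
    obtain ⟨a, u, hu, hu1, he⟩ := hrf.mo i
    exact ht.mo hA ⟨a, u, OO_le_BB x1 y1 τ hu, hu1, he⟩)
  have hm2 : ∀ a : Fin r → ℤ, G' (Abh.mon x a) = ‖Abh.mon x a‖ := cg_prod G' (fun i => by
    rw [hG'a, ht.mo hA (hσx i), hiso])
  have hE1 : ∀ e ∈ IntermediateField.adjoin k (Set.range x), G e = ‖e‖ := fun e he =>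
    cg_field hA hs.par.ind G ht.na hk1 hm1 he
  have hE2 : ∀ e ∈ IntermediateField.adjoin k (Set.range x), G' e = ‖e‖ := fun e he =>
    cg_field hA hs.par.ind G' hna' hk2 hm2 he
  -- the total order lemma
  have hinj := cg_inj (k := k) hs.par
  set φ : Polynomial (IntermediateField.adjoin k (Set.range x)) →+* N :=
    (Polynomial.aeval (R := IntermediateField.adjoin k (Set.range x)) y).toRingHom with hφ
  have hφa : ∀ f, φ f = Polynomial.aeval y f := fun f => rfl
  have hφi : Function.Injective φ := hinj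
  have hφC : ∀ e : IntermediateField.adjoin k (Set.range x), φ (Polynomial.C e) = (e : N) := by
    intro e
    rw [hφa, Polynomial.aeval_C]
    rfl
  have hNapp : ∀ z : N, NormedField.toAbsoluteValue N z = ‖z‖ := fun z => rfl
  have htol := tol ((NormedField.toAbsoluteValue N).comp (f := φ) hφi) (G.comp (f := φ) hφi)
    (G'.comp (f := φ) hφi)
    (fun f g => by
      show ‖φ (f + g)‖ ≤ max ‖φ f‖ ‖φ g‖
      rw [map_add]; exact IsUltrametricDist.norm_add_le_max _ _)
    (fun f g => by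
      show G (φ (f + g)) ≤ max (G (φ f)) (G (φ g))
      rw [map_add]; exact ht.na _ _)
    (fun f g => by
      show G' (φ (f + g)) ≤ max (G' (φ f)) (G' (φ g))
      rw [map_add]; exact hna' _ _)
    (fun e => by
      show G (φ (Polynomial.C e)) = ‖φ (Polynomial.C e)‖
      rw [hφC]; exact hE1 _ e.2)
    (fun e => by
      show G' (φ (Polynomial.C e)) = ‖φ (Polynomial.C e)‖
      rw [hφC]; exact hE2 _ e.2)
    (fun f => cg_le hs.par.ind y G hE1 hl1 f)
    (fun f => cg_le hs.par.ind y G' hE2 hl2 f)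
  rcases htol with h | h
  · right
    intro z hz
    rw [← hG'a]
    refine cg_transfer hA hr hs G G' ht.na hna' hm1 hm2 hB1 hB2 hu1 hu2 (fun w hw => ?_) hz
    obtain ⟨f, rfl⟩ := cg_LO_range x y hw
    exact h f
  · left
    intro z hz
    rw [← hG'a]
    refine cg_transfer hA hr hs G' G hna' ht.na hm2 hm1 hB2 hB1 hu2 hu1 (fun w hw => ?_) hz
    obtain ⟨f, rfl⟩ := cg_LO_range x y hw
    exact h f

end Pool.Agent.Lib.TDO
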