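import Pool.Agent.Lib.TDO.TameD
import Pool.Agent.Lib.TDO.Tower
import Pool.Agent.Lib.TDO.Cl

/-!
# Module Descend: going down the Kummer tower

`ff_adjoin`: if `FF S F0`, `w' ∈ W`, `w'^l ∈ F0`, `l` invertible, then `w' ∈ S` (separable over
`F0 ≤ S`), `FF S (F0 ⊔ k(w'))`, and `cl (F0 ⊔ k(w')) = cl F0 ⊔ k(w')` (the right side is complete:
`isComplete_sup`, needs an element of norm `< 1`, `≠ 0` in `F0`).
`descend`: induction on `KTower` generalizing `F0` with `L = cl F0`.  Step: `w^l ∈ cl F0`.  If
`w ∈ cl F0` then `L ⊔ k(w) = L`.  Otherwise choose `u ∈ F0` with `‖w^l - u‖ < ‖w^l‖`; `one_root` in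
`cl F0` gives `t` with `(1 + t)^l = u / w^l`; `w' = w (1 + t)`: `w'^l = u ∈ F0`,
`cl F0 ⊔ k(w') = cl F0 ⊔ k(w)`.  `F1 = F0 ⊔ k(w')`: induction hypothesis for `F1`, then
`tame_descent`.
-/

namespace Pool.Agent.Lib.TDO

open Pool.Agent.Lib.MP_3029eb_ag Pool.Agent.Lib.MP_3029eb_ag.Abh

private theorem Descend_sep {k W : Type} [Field k] [Field W] [Algebra k W]
    (K : IntermediateField k W) (l : ℕ) (hlk : (l : k) ≠ 0) (w : W) (hw : w ^ l ∈ K) :
    IsSeparable K w := by
  by_cases hw0 : w = 0
  · have h1 := isSeparable_algebraMap (K := W) (0 : K)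
    rw [map_zero] at h1
    rw [hw0]
    exact h1
  · have hlK : (l : K) ≠ 0 := by
      intro h
      apply hlk
      apply (algebraMap k K).injective
      rw [map_natCast, map_zero]
      exact h
    have ha : (⟨w ^ l, hw⟩ : K) ≠ 0 := fun h => pow_ne_zero l hw0 (congrArg Subtype.val h)
    have h1 := Polynomial.separable_X_pow_sub_C (⟨w ^ l, hw⟩ : K) hlK ha
    refine Polynomial.Separable.of_dvd h1 (minpoly.dvd K w ?_)
    rw [map_sub, map_pow, Polynomial.aeval_X, Polynomial.aeval_C]
    exact sub_self _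

private theorem Descend_up {k W : Type} [Field k] [Field W] [Algebra k W]
    {K K' : IntermediateField k W} (h : K ≤ K') {z : W} (hz : IsSeparable K z) :
    IsSeparable K' z := by
  have h1 : ((minpoly K z).map (IntermediateField.inclusion h).toRingHom).Separable :=
    Polynomial.Separable.map hz
  refine Polynomial.Separable.of_dvd h1 (minpoly.dvd K' z ?_)
  have h2 := minpoly.aeval K z
  rw [Polynomial.aeval_def] at h2 ⊢
  rw [Polynomial.eval₂_map]
  exact h2

theorem ff_adjoin {k W : Type} [Field k] [NontriviallyNormedField W]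
    [IsUltrametricDist W] [Algebra k W] (S F0 : IntermediateField k W)
    (hS : ∀ z : W, IsSeparable S z → z ∈ S) (hF : FF S F0) (hnt : ∃ z ∈ F0, z ≠ 0 ∧ ‖z‖ < 1)
    (l : ℕ) (hlk : (l : k) ≠ 0) (w : W) (hw : w ^ l ∈ F0) :
    FF S (F0 ⊔ IntermediateField.adjoin k {w}) ∧
      cl (F0 ⊔ IntermediateField.adjoin k {w}) = cl F0 ⊔ IntermediateField.adjoin k {w} := by
  obtain ⟨z, hz, hz0, hz1⟩ := hnt
  have halg : IsAlgebraic (cl F0) w :=
    (Descend_sep (cl F0) l hlk w (le_cl F0 hw)).isIntegral.isAlgebraic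
  have hcomp : IsComplete ((cl F0 ⊔ IntermediateField.adjoin k {w} : IntermediateField k W) :
      Set W) := isComplete_sup hF.comp ⟨z, le_cl F0 hz, hz0, hz1⟩ w halg
  have heq : cl (F0 ⊔ IntermediateField.adjoin k {w}) =
      cl F0 ⊔ IntermediateField.adjoin k {w} := by
    refine le_antisymm ?_ ?_
    · exact cl_le_of_isComplete hcomp (sup_le_sup_right (le_cl F0) _)
    · exact sup_le (cl_mono le_sup_left) (le_sup_right.trans (le_cl _))
  refine ⟨⟨?_, ?_, ?_, ?_⟩, heq⟩
  · refine IntermediateField.fg_sup hF.fg ?_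
    exact IntermediateField.fg_adjoin_of_finite (Set.finite_singleton w)
  · refine sup_le hF.le (IntermediateField.adjoin_simple_le_iff.2 (hS w ?_))
    exact Descend_sep S l hlk w (hF.le hw)
  · intro y hy
    exact Descend_up le_sup_left (hF.sep y hy)
  · rw [heq]
    exact hcomp

private theorem Descend_main {k W : Type} [Field k] [IsAlgClosed k] [NontriviallyNormedField W]
    [IsUltrametricDist W] [Algebra k W] {r : ℕ} (hA : Amb r k W) (hr : 0 < r)
    (S : IntermediateField k W) (hS : ∀ z : W, IsSeparable S z → z ∈ S)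
    (L : IntermediateField k W) (h : KTower S r L) : ∀ F0 : IntermediateField k W, L = cl F0 →
      FF S F0 → (∃ z ∈ F0, z ≠ 0 ∧ ‖z‖ < 1) → HasChart S r L := by
  induction h with
  | base L hL => exact fun _ _ _ _ => hL
  | step L l w hl hlk hw hT ih =>
    intro F0 hL hF hnt
    by_cases hwL : w ∈ L
    · have h1 : L ⊔ IntermediateField.adjoin k {w} = L :=
        sup_eq_left.2 (IntermediateField.adjoin_simple_le_iff.2 hwL)
      have h2 := ih F0 (h1.trans hL) hF hnt
      rw [h1] at h2
      exact h2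
    · have hw0 : w ≠ 0 := fun h0 => hwL (h0 ▸ zero_mem _)
      have hwl0 : w ^ l ≠ 0 := pow_ne_zero _ hw0
      have hwL' : w ^ l ∈ cl F0 := hL ▸ hw
      obtain ⟨u, hu, hun⟩ := (mem_cl_iff F0 (w ^ l)).1 hwL' ‖w ^ l‖ (norm_pos_iff.2 hwl0)
      have hδm : u / w ^ l - 1 ∈ cl F0 :=
        sub_mem (div_mem (le_cl F0 hu) hwL') (one_mem _)
      have hδ : ‖u / w ^ l - 1‖ < 1 := by
        have h1 : u / w ^ l - 1 = -(w ^ l - u) / w ^ l := by
          field_simp
          ring
        rw [h1, norm_div, norm_neg, div_lt_one (norm_pos_iff.2 hwl0)]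
        exact hun
      obtain ⟨t, ht, ht1, htl⟩ := one_root hA l hlk hF.comp hδm hδ
      rw [add_sub_cancel] at htl
      have ht0 : (1 : W) + t ≠ 0 := by
        intro h0
        have h1 : t = -1 := by linear_combination h0
        rw [h1, norm_neg, norm_one] at ht1
        exact lt_irrefl _ ht1
      have htc : (1 : W) + t ∈ cl F0 := add_mem (one_mem _) ht
      have hw'l : (w * (1 + t)) ^ l ∈ F0 := by
        rw [mul_pow, htl, mul_div_cancel₀ _ hwl0]
        exact hu
      have hw' : w * (1 + t) ∉ cl F0 := by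
        intro h1
        apply hwL
        rw [hL]
        have h2 := div_mem h1 htc
        rwa [mul_div_cancel_right₀ _ ht0] at h2
      have hsup : cl F0 ⊔ IntermediateField.adjoin k {w * (1 + t)} =
          cl F0 ⊔ IntermediateField.adjoin k {w} := by
        refine le_antisymm (sup_le le_sup_left ?_) (sup_le le_sup_left ?_)
        · refine IntermediateField.adjoin_simple_le_iff.2 (mul_mem ?_ ?_)
          · exact (le_sup_right : IntermediateField.adjoin k {w} ≤ _)
              (IntermediateField.mem_adjoin_simple_self k w)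
          · exact (le_sup_left : cl F0 ≤ _) htc
        · refine IntermediateField.adjoin_simple_le_iff.2 ?_
          have h1 : w * (1 + t) ∈ cl F0 ⊔ IntermediateField.adjoin k {w * (1 + t)} :=
            (le_sup_right : IntermediateField.adjoin k {w * (1 + t)} ≤ _)
              (IntermediateField.mem_adjoin_simple_self k _)
          have h2 := div_mem h1 ((le_sup_left : cl F0 ≤
            cl F0 ⊔ IntermediateField.adjoin k {w * (1 + t)}) htc)
          rwa [mul_div_cancel_right₀ _ ht0] at h2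
      obtain ⟨hF1, hcl⟩ := ff_adjoin S F0 hS hF hnt l hlk (w * (1 + t)) hw'l
      have hLeq : L ⊔ IntermediateField.adjoin k {w} =
          cl (F0 ⊔ IntermediateField.adjoin k {w * (1 + t)}) := by
        rw [hcl, hsup, hL]
      obtain ⟨z, hz, hz0, hz1⟩ := hnt
      have h3 := ih (F0 ⊔ IntermediateField.adjoin k {w * (1 + t)}) hLeq hF1
        ⟨z, (le_sup_left : F0 ≤ _) hz, hz0, hz1⟩
      rw [hLeq] at h3
      rw [hL]
      exact tame_descent hA hr S F0 hS hF l hl hlk (w * (1 + t)) hw'l hw' hF1 h3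

theorem descend {k W : Type} [Field k] [IsAlgClosed k] [NontriviallyNormedField W]
    [IsUltrametricDist W] [Algebra k W] {r : ℕ} (hA : Amb r k W) (hr : 0 < r)
    (S F0 : IntermediateField k W) (hS : ∀ z : W, IsSeparable S z → z ∈ S) (hF : FF S F0)
    (hnt : ∃ z ∈ F0, z ≠ 0 ∧ ‖z‖ < 1) (h : KTower S r (cl F0)) : HasChart S r (cl F0) :=
  Descend_main hA hr S hS (cl F0) h F0 rfl hF hnt

end Pool.Agent.Lib.TDO
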