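import Pool.Agent.Lib.TDO.Gfac

/-!
# Module Eig: eigen-parameters

`BB = BB k x y τ` is `σ`-stable, `σ (x i) = x i * u i`, `σ^l = 1`, `l` invertible in `k`.
`x`: let `ζ i ∈ k` be the residue of `u i`.  `∏_{j<l} σ^j (u i) = 1` and `σ` is an isometry over `k`, so
`ζ i ^ l = 1`.  `σ^j (x i) / x i = ∏_{m<j} σ^m (u i) ∈ BB` has residue `(ζ i)^j`.
`U i = (1/l) ∑_{j<l} (ζ i)^(-j) σ^j (x i) / x i ∈ BB` has residue `1`, and
`σ (x i * U i) = ζ i * (x i * U i)`.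
`y`: write `I = y^2 BB + {z ∈ BB | G z < 1}` (`σ`-stable ideal: first `σ y ∈ y BB + {G < 1}` by
`GS.norm_lt`, `‖σ y‖ = ‖y‖ < 1`).  `σ y = y b + n`, `b = ζ0 + (norm < 1)`, so `σ y ∈ ζ0 y + I`
(`GS.norm_lt` again), and `σ^j y ∈ ζ0^j y + I`.  `ζ0^l = 1`: otherwise `y = σ^l y` gives
`(1 - ζ0^l) y ∈ I`, `y (unit) ∈ {G < 1}`, but `G y = 1`.  `Y = (1/l) ∑ ζ0^(-j) σ^j y ∈ y + I`, so
`Y = y (1 + y b') + n'` with `G n' < 1`, `GS.lt_one` for `n'`; `σ Y = ζ0 Y`.
-/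

namespace Pool.Agent.Lib.TDO

open Pool.Agent.Lib.MP_3029eb_ag Pool.Agent.Lib.MP_3029eb_ag.Abh

section Eig

variable {k N : Type} [Field k] [NormedField N] [IsUltrametricDist N] [Algebra k N] {r : ℕ}

/-- the eigen-projection -/
private noncomputable def Eig_pr (σ : N ≃ₐ[k] N) (l : ℕ) (ζ : k) (z : N) : N :=
  (algebraMap k N (l : k))⁻¹ * ∑ j ∈ Finset.range l, algebraMap k N (ζ⁻¹ ^ j) * (σ ^ j) z

private lemma Eig_pr_eig (σ : N ≃ₐ[k] N) {l : ℕ} (hσ : σ ^ l = 1) {ζ : k} (hζ : ζ ^ l = 1)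
    (hζ0 : ζ ≠ 0) (z : N) : σ (Eig_pr σ l ζ z) = algebraMap k N ζ * Eig_pr σ l ζ z := by
  unfold Eig_pr
  rw [map_mul, map_inv₀, AlgEquiv.commutes, mul_left_comm]
  congr 1
  rw [map_sum, Finset.mul_sum]
  have h1 : ∀ j, σ (algebraMap k N (ζ⁻¹ ^ j) * (σ ^ j) z) =
      algebraMap k N ζ * (algebraMap k N (ζ⁻¹ ^ (j + 1)) * (σ ^ (j + 1)) z) := by
    intro j
    rw [map_mul, AlgEquiv.commutes, ← mul_assoc, ← map_mul, pow_succ ζ⁻¹ j, pow_succ' σ j,
      AlgEquiv.mul_apply, mul_left_comm, mul_inv_cancel₀ hζ0, mul_one]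
  rw [Finset.sum_congr rfl fun j _ => h1 j]
  have h2 := Finset.sum_range_succ'
    (fun j => algebraMap k N ζ * (algebraMap k N (ζ⁻¹ ^ j) * (σ ^ j) z)) l
  have h3 := Finset.sum_range_succ
    (fun j => algebraMap k N ζ * (algebraMap k N (ζ⁻¹ ^ j) * (σ ^ j) z)) l
  rw [h3] at h2
  have h4 : algebraMap k N ζ * (algebraMap k N (ζ⁻¹ ^ l) * (σ ^ l) z) =
      algebraMap k N ζ * (algebraMap k N (ζ⁻¹ ^ 0) * (σ ^ 0) z) := by
    rw [hσ, inv_pow, hζ, inv_one, pow_zero, pow_zero]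
  rw [h4] at h2
  exact (add_right_cancel h2).symm

private lemma Eig_norm_alg (hA : Amb r k N) {c : k} (hc : c ≠ 0) : ‖algebraMap k N c‖ = 1 :=
  hA.unit c hc

private lemma Eig_norm_alg_le (hA : Amb r k N) (c : k) : ‖algebraMap k N c‖ ≤ 1 := by
  rcases eq_or_ne c 0 with h | h
  · rw [h, map_zero, norm_zero]
    exact zero_le_one
  · exact (hA.unit c h).le

private lemma Eig_eq_of_norm (hA : Amb r k N) {c d : k}
    (h : ‖algebraMap k N c - algebraMap k N d‖ < 1) : c = d := by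
  by_contra hne
  rw [← map_sub, hA.unit _ (sub_ne_zero.2 hne)] at h
  exact lt_irrefl _ h

private lemma Eig_add_lt {a b : N} {C : ℝ} (ha : ‖a‖ < C) (hb : ‖b‖ < C) : ‖a + b‖ < C :=
  lt_of_le_of_lt (IsUltrametricDist.norm_add_le_max a b) (max_lt ha hb)

private lemma Eig_sum_lt {s : Finset ℕ} {f : ℕ → N} (h : ∀ j ∈ s, ‖f j‖ < 1) :
    ‖∑ j ∈ s, f j‖ < 1 := by
  induction s using Finset.induction_on with
  | empty => simp
  | insert a s ha ih =>
    rw [Finset.sum_insert ha]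
    exact Eig_add_lt (h a (Finset.mem_insert_self a s))
      (ih fun j hj => h j (Finset.mem_insert_of_mem hj))

private lemma Eig_norm_eq_one {z : N} (h : ‖z - 1‖ < 1) : ‖z‖ = 1 := by
  have h1 : ‖z‖ ≤ 1 := by
    have : z = (z - 1) + 1 := by ring
    rw [this]
    refine (IsUltrametricDist.norm_add_le_max _ _).trans (max_le h.le ?_)
    rw [norm_one]
  by_contra h2
  have h3 : ‖z‖ < 1 := lt_of_le_of_ne h1 h2
  have h4 : ‖(1 : N)‖ < 1 := by
    have : (1 : N) = z + -(z - 1) := by ring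
    rw [this]
    exact Eig_add_lt h3 (by rwa [norm_neg])
  rw [norm_one] at h4
  exact lt_irrefl _ h4

private lemma Eig_mem_of_LO {x : Fin r → N} {y τ z : N} (hz : z ∈ LO k x y) : z ∈ BB k x y τ :=
  ⟨z, Subring.subset_closure (Or.inl hz), 1, one_mem _, map_one _, by rw [mul_one]⟩

private lemma Eig_alg_mem {x : Fin r → N} {y τ : N} (c : k) : algebraMap k N c ∈ BB k x y τ :=
  Eig_mem_of_LO (Subring.subset_closure (Or.inl (Or.inl ⟨c, rfl⟩)))

private lemma Eig_y_mem {x : Fin r → N} {y τ : N} : y ∈ BB k x y τ :=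
  Eig_mem_of_LO (Subring.subset_closure (Or.inr rfl))

private lemma Eig_pow_mem {B : Subring N} {σ : N ≃ₐ[k] N} (hB : ∀ z ∈ B, σ z ∈ B) (j : ℕ) {z : N}
    (hz : z ∈ B) : (σ ^ j) z ∈ B := by
  induction j with
  | zero => rwa [pow_zero, AlgEquiv.one_apply]
  | succ j ih =>
    rw [pow_succ', AlgEquiv.mul_apply]
    exact hB _ ih

private lemma Eig_pr_mem (hA : Amb r k N) {x : Fin r → N} {y τ : N} {σ : N ≃ₐ[k] N}
    (hB : ∀ z ∈ BB k x y τ, σ z ∈ BB k x y τ) {l : ℕ} (hl : (l : k) ≠ 0) (ζ : k) {z : N}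
    (hz : z ∈ BB k x y τ) : Eig_pr σ l ζ z ∈ BB k x y τ := by
  unfold Eig_pr
  refine mul_mem ?_ (sum_mem fun j _ => mul_mem (Eig_alg_mem _) (Eig_pow_mem hB j hz))
  rw [← map_inv₀]
  exact Eig_alg_mem _

/-- The part for one `x i`. -/
private lemma Eig_x (hA : Amb r k N) {x : Fin r → N} {y τ : N} (σ : N ≃ₐ[k] N)
    (hiso : ∀ z, ‖σ z‖ = ‖z‖) (l : ℕ) (hl : (l : k) ≠ 0) (hσ : σ ^ l = 1) {z u : N}
    (hz : z ≠ 0) (hu : u ∈ BB k x y τ) (hu1 : ‖u‖ = 1) (hzu : σ z = z * u)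
    (hB : ∀ z ∈ BB k x y τ, σ z ∈ BB k x y τ) :
    ∃ U ∈ BB k x y τ, ‖U‖ = 1 ∧ ∃ c : k, σ (z * U) = algebraMap k N c * (z * U) := by
  obtain ⟨ζ, hζ⟩ := hA.res u hu1.le
  have hw : ∀ j : ℕ, ∃ w ∈ BB k x y τ, (σ ^ j) z = z * w ∧
      ‖w - algebraMap k N (ζ ^ j)‖ < 1 := by
    intro j
    induction j with
    | zero =>
      refine ⟨1, one_mem _, by rw [pow_zero, AlgEquiv.one_apply, mul_one], ?_⟩
      rw [pow_zero, map_one, sub_self, norm_zero]
      exact one_pos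
    | succ j ih =>
      obtain ⟨w, hw1, hw2, hw3⟩ := ih
      refine ⟨u * σ w, mul_mem hu (hB w hw1), ?_, ?_⟩
      · rw [pow_succ', AlgEquiv.mul_apply, hw2, map_mul, hzu, mul_assoc]
      · have e : u * σ w - algebraMap k N (ζ ^ (j + 1)) =
            u * (σ w - algebraMap k N (ζ ^ j)) +
              (u - algebraMap k N ζ) * algebraMap k N (ζ ^ j) := by
          rw [pow_succ', map_mul]
          ring
        rw [e]
        apply Eig_add_lt
        · rw [norm_mul, hu1, one_mul]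
          have : σ w - algebraMap k N (ζ ^ j) = σ (w - algebraMap k N (ζ ^ j)) := by
            rw [map_sub, AlgEquiv.commutes]
          rw [this, hiso]
          exact hw3
        · rw [norm_mul]
          exact mul_lt_one_of_nonneg_of_lt_one_left (norm_nonneg _) hζ (Eig_norm_alg_le hA _)
  choose w hw1 hw2 hw3 using hw
  have hζl : ζ ^ l = 1 := by
    have h1 := hw2 l
    rw [hσ, AlgEquiv.one_apply] at h1
    have h2 : w l = 1 := mul_left_cancel₀ hz (by rw [← h1, mul_one])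
    have h3 := hw3 l
    rw [h2, ← map_one (algebraMap k N)] at h3
    exact (Eig_eq_of_norm hA h3).symm
  have hζ0 : ζ ≠ 0 := by
    rintro rfl
    rw [map_zero, sub_zero, hu1] at hζ
    exact lt_irrefl _ hζ
  have hpr : Eig_pr σ l ζ z = z * ((algebraMap k N (l : k))⁻¹ *
      ∑ j ∈ Finset.range l, algebraMap k N (ζ⁻¹ ^ j) * w j) := by
    unfold Eig_pr
    rw [mul_left_comm z]
    congr 1
    rw [Finset.mul_sum]
    apply Finset.sum_congr rfl
    intro j _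
    rw [hw2 j]
    ring
  refine ⟨(algebraMap k N (l : k))⁻¹ *
      ∑ j ∈ Finset.range l, algebraMap k N (ζ⁻¹ ^ j) * w j, ?_, ?_, ζ, ?_⟩
  · refine mul_mem ?_ (sum_mem fun j _ => mul_mem (Eig_alg_mem _) (hw1 j))
    rw [← map_inv₀]
    exact Eig_alg_mem _
  · apply Eig_norm_eq_one
    have hl0 : algebraMap k N (l : k) ≠ 0 := fun h0 => hl ((map_eq_zero _).1 h0)
    have e : (algebraMap k N (l : k))⁻¹ *
        ∑ j ∈ Finset.range l, algebraMap k N (ζ⁻¹ ^ j) * w j - 1 =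
        (algebraMap k N (l : k))⁻¹ *
          ∑ j ∈ Finset.range l, (algebraMap k N (ζ⁻¹ ^ j) * w j - 1) := by
      rw [Finset.sum_sub_distrib, mul_sub]
      congr 1
      rw [Finset.sum_const, Finset.card_range, nsmul_eq_mul, mul_one, map_natCast,
        inv_mul_cancel₀]
      rwa [map_natCast] at hl0
    rw [e, norm_mul, norm_inv, hA.unit _ hl, inv_one, one_mul]
    apply Eig_sum_lt
    intro j _
    have e2 : algebraMap k N (ζ⁻¹ ^ j) * w j - 1 =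
        algebraMap k N (ζ⁻¹ ^ j) * (w j - algebraMap k N (ζ ^ j)) := by
      rw [mul_sub, ← map_mul, ← mul_pow, inv_mul_cancel₀ hζ0, one_pow, map_one]
    rw [e2, norm_mul, hA.unit _ (pow_ne_zero _ (inv_ne_zero hζ0)), one_mul]
    exact hw3 j
  · rw [← hpr]
    exact Eig_pr_eig σ hσ hζl hζ0 z

/-- `z ∈ y^2 B + {G < 1}` -/
private def Eig_I (B : Subring N) (G : AbsoluteValue N ℝ) (y z : N) : Prop :=
  ∃ b ∈ B, G (z - y ^ 2 * b) < 1

private lemma Eig_I_add {B : Subring N} {G : AbsoluteValue N ℝ}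
    (hna : ∀ a b, G (a + b) ≤ max (G a) (G b)) {y z w : N}
    (hz : Eig_I B G y z) (hw : Eig_I B G y w) : Eig_I B G y (z + w) := by
  obtain ⟨b, hb, h1⟩ := hz
  obtain ⟨c, hc, h2⟩ := hw
  refine ⟨b + c, add_mem hb hc, ?_⟩
  have e : z + w - y ^ 2 * (b + c) = (z - y ^ 2 * b) + (w - y ^ 2 * c) := by ring
  rw [e]
  exact lt_of_le_of_lt (hna _ _) (max_lt h1 h2)

private lemma Eig_I_zero {B : Subring N} {G : AbsoluteValue N ℝ} {y : N} : Eig_I B G y 0 := by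
  refine ⟨0, zero_mem _, ?_⟩
  rw [mul_zero, sub_zero, map_zero]
  exact one_pos

private lemma Eig_I_mul {B : Subring N} {G : AbsoluteValue N ℝ} {y z c : N}
    (hc : c ∈ B) (hc1 : G c ≤ 1) (hz : Eig_I B G y z) : Eig_I B G y (c * z) := by
  obtain ⟨b, hb, h1⟩ := hz
  refine ⟨c * b, mul_mem hc hb, ?_⟩
  have e : c * z - y ^ 2 * (c * b) = c * (z - y ^ 2 * b) := by ring
  rw [e, map_mul]
  exact mul_lt_one_of_nonneg_of_lt_one_right hc1 (apply_nonneg G _) h1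

private lemma Eig_I_sum {B : Subring N} {G : AbsoluteValue N ℝ}
    (hna : ∀ a b, G (a + b) ≤ max (G a) (G b)) {y : N} {s : Finset ℕ} {f : ℕ → N}
    (h : ∀ j ∈ s, Eig_I B G y (f j)) : Eig_I B G y (∑ j ∈ s, f j) := by
  induction s using Finset.induction_on with
  | empty =>
    rw [Finset.sum_empty]
    exact Eig_I_zero
  | insert a s ha ih =>
    rw [Finset.sum_insert ha]
    exact Eig_I_add hna (h a (Finset.mem_insert_self a s))
      (ih fun j hj => h j (Finset.mem_insert_of_mem hj))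

/-- The part for `y`. -/
private lemma Eig_y (hA : Amb r k N) (hr : 0 < r) {x : Fin r → N} {y : N}
    {E : IntermediateField k N} {P : Polynomial E} {τ : N} {G : AbsoluteValue N ℝ}
    (h : GS k x y E P τ G)
    (σ : N ≃ₐ[k] N) (hiso : ∀ z, ‖σ z‖ = ‖z‖) (l : ℕ) (hl : (l : k) ≠ 0) (hσ : σ ^ l = 1)
    (hinv : ∀ z, G (σ z) = G z) (hB : ∀ z ∈ BB k x y τ, σ z ∈ BB k x y τ) :
    ∃ (v n : N) (a : Fin r → ℤ),
      v ∈ BB k x y τ ∧ ‖v‖ = 1 ∧ n ∈ BB k x y τ ∧ ‖mon x a‖ < 1 ∧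
      ∃ c : k, σ (y * v + mon x a * n) = algebraMap k N c * (y * v + mon x a * n) := by
  set B := BB k x y τ with hBdef
  have hy1 : ‖y‖ < 1 := h.par.y1
  have hyB : y ∈ B := Eig_y_mem
  have hle : ∀ z ∈ B, G z ≤ 1 := fun z hz => GS.le_one hA h hz
  have hGy : G y = 1 := by
    have h1 := h.ev (AddMonoidAlgebra.single ((0 : Fin r → ℤ), 1) (1 : k))
    rw [ev_single] at h1
    have h2 : algebraMap k N 1 * (mon x ((0 : Fin r → ℤ), 1).1 * y ^ ((0 : Fin r → ℤ), 1).2) =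
        y := by
      show algebraMap k N 1 * (mon x 0 * y ^ 1) = y
      rw [mon_zero, map_one, pow_one, one_mul, one_mul]
    rw [h2] at h1
    rw [h1]
    have h3 := gauss_single (k := k) (x := x) (0 : Fin r → ℤ) 1 (1 : k) one_ne_zero
    rw [h3, mon_zero, norm_one]
  -- first approximation of `σ y`
  obtain ⟨b1, hb1, hb1'⟩ := GS.norm_lt hA hr h (z := σ y) (hB y hyB) (by rw [hiso]; exact hy1)
  have hb1n : ‖b1‖ ≤ 1 := norm_le_of_mem_BB hA hy1.le h.et.lt.le hb1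
  obtain ⟨ζ, hζ⟩ := hA.res b1 hb1n
  have hIσ : ∀ z, Eig_I B G y z → Eig_I B G y (σ z) := by
    rintro z ⟨b, hb, hz⟩
    refine ⟨b1 ^ 2 * σ b, mul_mem (pow_mem hb1 2) (hB b hb), ?_⟩
    have e : σ z - y ^ 2 * (b1 ^ 2 * σ b) = σ (z - y ^ 2 * b) +
        (σ y - y * b1) * ((σ y + y * b1) * σ b) := by
      rw [map_sub, map_mul, map_pow]
      ring
    rw [e]
    refine lt_of_le_of_lt (h.na _ _) (max_lt ?_ ?_)
    · rw [hinv]
      exact hz
    · rw [map_mul]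
      refine mul_lt_one_of_nonneg_of_lt_one_left (apply_nonneg G _) hb1' ?_
      exact hle _ (mul_mem (add_mem (hB y hyB) (mul_mem hyB hb1)) (hB b hb))
  have hσy : Eig_I B G y (σ y - algebraMap k N ζ * y) := by
    obtain ⟨b', hb', hb''⟩ := GS.norm_lt hA hr h (z := b1 - algebraMap k N ζ)
      (sub_mem hb1 (Eig_alg_mem ζ)) hζ
    refine ⟨b', hb', ?_⟩
    have e : σ y - algebraMap k N ζ * y - y ^ 2 * b' =
        (σ y - y * b1) + y * (b1 - algebraMap k N ζ - y * b') := by ring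
    rw [e]
    refine lt_of_le_of_lt (h.na _ _) (max_lt hb1' ?_)
    rw [map_mul, hGy, one_mul]
    exact hb''
  have hσj : ∀ j : ℕ, Eig_I B G y ((σ ^ j) y - algebraMap k N (ζ ^ j) * y) := by
    intro j
    induction j with
    | zero =>
      rw [pow_zero, AlgEquiv.one_apply, pow_zero, map_one, one_mul, sub_self]
      exact Eig_I_zero
    | succ j ih =>
      have e : (σ ^ (j + 1)) y - algebraMap k N (ζ ^ (j + 1)) * y =
          σ ((σ ^ j) y - algebraMap k N (ζ ^ j) * y) +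
            algebraMap k N (ζ ^ j) * (σ y - algebraMap k N ζ * y) := by
        rw [pow_succ' σ, AlgEquiv.mul_apply, map_sub, map_mul, AlgEquiv.commutes, pow_succ ζ j,
          map_mul]
        ring
      rw [e]
      exact Eig_I_add h.na (hIσ _ ih) (Eig_I_mul (Eig_alg_mem _) (hle _ (Eig_alg_mem _)) hσy)
  have hζl : ζ ^ l = 1 := by
    by_contra hne
    obtain ⟨b, hb, h1⟩ := hσj l
    rw [hσ, AlgEquiv.one_apply] at h1
    have hc : (1 : k) - ζ ^ l ≠ 0 := sub_ne_zero.2 (Ne.symm hne)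
    have e : y - algebraMap k N (ζ ^ l) * y - y ^ 2 * b =
        y * (algebraMap k N (1 - ζ ^ l) - y * b) := by
      rw [map_sub, map_one]
      ring
    rw [e, map_mul, hGy, one_mul] at h1
    have hmem : algebraMap k N (1 - ζ ^ l) - y * b ∈ B :=
      sub_mem (Eig_alg_mem _) (mul_mem hyB hb)
    have hbn : ‖b‖ ≤ 1 := norm_le_of_mem_BB hA hy1.le h.et.lt.le hb
    have hyb : ‖y * b‖ < 1 := by
      rw [norm_mul]
      exact mul_lt_one_of_nonneg_of_lt_one_left (norm_nonneg _) hy1 hbn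
    have hn1 : ‖algebraMap k N (1 - ζ ^ l) - y * b‖ = 1 := by
      have h2 := hA.unit _ hc
      have h3 : ‖algebraMap k N (1 - ζ ^ l) + -(y * b)‖ = max ‖algebraMap k N (1 - ζ ^ l)‖
          ‖-(y * b)‖ := by
        apply IsUltrametricDist.norm_add_eq_max_of_norm_ne_norm
        rw [norm_neg, h2]
        exact hyb.ne'
      rw [sub_eq_add_neg, h3, norm_neg, h2, max_eq_left hyb.le]
    have h4 := GS.eq_one hA h hmem hn1
    rw [h4] at h1
    exact lt_irrefl _ h1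
  have hζ0 : ζ ≠ 0 := by
    rintro rfl
    have hl0 : l ≠ 0 := by
      rintro rfl
      exact hl Nat.cast_zero
    rw [zero_pow hl0] at hζl
    exact zero_ne_one hζl
  set Y := Eig_pr σ l ζ y with hY
  have hYmem : Y ∈ B := Eig_pr_mem hA hB hl ζ hyB
  have hl0 : algebraMap k N (l : k) ≠ 0 := fun h0 => hl ((map_eq_zero _).1 h0)
  have hYI : Eig_I B G y (Y - y) := by
    have e : Y - y = (algebraMap k N (l : k))⁻¹ * ∑ j ∈ Finset.range l,
        algebraMap k N (ζ⁻¹ ^ j) * ((σ ^ j) y - algebraMap k N (ζ ^ j) * y) := by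
      have e1 : ∀ j, algebraMap k N (ζ⁻¹ ^ j) * ((σ ^ j) y - algebraMap k N (ζ ^ j) * y) =
          algebraMap k N (ζ⁻¹ ^ j) * (σ ^ j) y - y := by
        intro j
        rw [mul_sub, ← mul_assoc, ← map_mul, ← mul_pow, inv_mul_cancel₀ hζ0, one_pow, map_one,
          one_mul]
      rw [Finset.sum_congr rfl fun j _ => e1 j, Finset.sum_sub_distrib, mul_sub, hY]
      unfold Eig_pr
      congr 1
      rw [Finset.sum_const, Finset.card_range, nsmul_eq_mul, map_natCast, ← mul_assoc,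
        inv_mul_cancel₀, one_mul]
      rwa [map_natCast] at hl0
    rw [e]
    have h5 : (algebraMap k N (l : k))⁻¹ ∈ B := by
      rw [← map_inv₀]
      exact Eig_alg_mem _
    refine Eig_I_mul h5 (hle _ h5) (Eig_I_sum h.na fun j _ => ?_)
    exact Eig_I_mul (Eig_alg_mem _) (hle _ (Eig_alg_mem _)) (hσj j)
  obtain ⟨b', hb', h6⟩ := hYI
  have hmem : Y - y - y ^ 2 * b' ∈ B :=
    sub_mem (sub_mem hYmem hyB) (mul_mem (pow_mem hyB 2) hb')
  obtain ⟨a, ha, n, hn, h7⟩ := GS.lt_one hA hr h hmem h6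
  have hYe : y * (1 + y * b') + mon x a * n = Y := by
    rw [← h7]
    ring
  refine ⟨1 + y * b', n, a, add_mem (one_mem _) (mul_mem hyB hb'), ?_, hn, ha, ζ, ?_⟩
  · apply Eig_norm_eq_one
    rw [add_sub_cancel_left, norm_mul]
    exact mul_lt_one_of_nonneg_of_lt_one_left (norm_nonneg _) hy1
      (norm_le_of_mem_BB hA hy1.le h.et.lt.le hb')
  · rw [hYe]
    exact Eig_pr_eig σ hσ hζl hζ0 y

end Eig

theorem eigen {k N : Type} [Field k] [NormedField N] [IsUltrametricDist N] [Algebra k N]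
    {r : ℕ} (hA : Amb r k N) (hr : 0 < r) {x : Fin r → N} {y : N} {E : IntermediateField k N}
    {P : Polynomial E} {τ : N} {G : AbsoluteValue N ℝ} (h : GS k x y E P τ G)
    (σ : N ≃ₐ[k] N) (hiso : ∀ z, ‖σ z‖ = ‖z‖) (l : ℕ) (hl : (l : k) ≠ 0) (hσ : σ ^ l = 1)
    (hinv : ∀ z, G (σ z) = G z)
    (hx : ∀ i, ∃ u ∈ BB k x y τ, ‖u‖ = 1 ∧ σ (x i) = x i * u)
    (hB : ∀ z ∈ BB k x y τ, σ z ∈ BB k x y τ) :
    ∃ (U : Fin r → N) (v n : N) (a : Fin r → ℤ),
      (∀ i, U i ∈ BB k x y τ ∧ ‖U i‖ = 1 ∧ ∃ c : k, σ (x i * U i) = algebraMap k N c * (x i * U i)) ∧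
      v ∈ BB k x y τ ∧ ‖v‖ = 1 ∧ n ∈ BB k x y τ ∧ ‖mon x a‖ < 1 ∧
      ∃ c : k, σ (y * v + mon x a * n) = algebraMap k N c * (y * v + mon x a * n) := by
  have h1 : ∀ i, ∃ U ∈ BB k x y τ, ‖U‖ = 1 ∧ ∃ c : k, σ (x i * U) = algebraMap k N c * (x i * U) := by
    intro i
    obtain ⟨u, hu, hu1, hu2⟩ := hx i
    exact Eig_x hA σ hiso l hl hσ (h.par.ind.ne i) hu hu1 hu2 hB
  choose U hU1 hU2 hU3 using h1
  obtain ⟨v, n, a, h2⟩ := Eig_y hA hr h σ hiso l hl hσ hinv hB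
  exact ⟨U, v, n, a, fun i => ⟨hU1 i, hU2 i, hU3 i⟩, h2⟩

end Pool.Agent.Lib.TDO
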