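import Pool.Agent.Lib.TDO.ThmB

/-!
# Module PerB: Perron transforms: from `BB` to the noetherian ring `Bn`

`Pool.Agent.Lib.MP_3029eb_ag.Abh.refine`: for independent `x` and a finite set `Δ` of exponents of
monomials of norm less than one there is `x'` independent, `x i = monN x' (A i)`,
`x' i = mon x (B i)`, `A B = 1`, such that all `mon x δ`, `δ ∈ Δ`, are monomials `monN x' β`.
To get exponents `β ≥ (1, .., 1)` for `δ ∈ Y`, add to `Δ` the exponents `N δ - ∑ single i 1` for
`δ ∈ Y` with `N` so large that these have norm less than one, and the `single i 1`: in the new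
coordinates `N β ≥ ∑_i A i ≥ (1, .., 1)` coordinatewise (no coordinate vanishes on all `A i`,
because `A` is invertible), so `β ≥ 1`.
Each `z ∈ BB k x y τ` is a quotient of two elements of `Subring.closure (LO k x y ∪ {τ})`, which
involve finitely many monomials `mon x a` of norm `≤ 1` (`a = 0` or norm `< 1`); apply the lemma to
all of them.
-/

namespace Pool.Agent.Lib.TDO

open Pool.Agent.Lib.MP_3029eb_ag Pool.Agent.Lib.MP_3029eb_ag.Abh

variable {k W : Type} [Field k] [NormedField W] [IsUltrametricDist W] [Algebra k W] {r : ℕ}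

private theorem PerB_val (z : W) : (ball W).valuation z = 1 ↔ ‖z‖ = 1 := by
  constructor
  · intro h
    have h0 : z ≠ 0 := by
      rintro rfl
      rw [map_zero] at h
      exact zero_ne_one h
    have h1 : ‖z‖ ≤ 1 := (mem_ball z).1 ((ball W).valuation_le_one_iff z |>.1 h.le)
    have h2 : ‖z⁻¹‖ ≤ 1 := by
      apply (mem_ball z⁻¹).1 ((ball W).valuation_le_one_iff z⁻¹ |>.1 _)
      rw [map_inv₀, h, inv_one]
    rw [norm_inv] at h2
    exact le_antisymm h1 ((inv_le_one₀ (norm_pos_iff.2 h0)).1 h2)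
  · intro h
    have h0 : z ≠ 0 := by
      rintro rfl
      rw [norm_zero] at h
      exact zero_ne_one h
    have h1 : (ball W).valuation z ≤ 1 := (ball W).valuation_le_one_iff z |>.2 ((mem_ball z).2 h.le)
    have h2 : (ball W).valuation z⁻¹ ≤ 1 := by
      apply (ball W).valuation_le_one_iff z⁻¹ |>.2
      rw [mem_ball, norm_inv, h, inv_one]
    rw [map_inv₀] at h2
    have h3 : 0 < (ball W).valuation z := by
      rw [zero_lt_iff]
      exact (map_ne_zero _).2 h0
    exact le_antisymm h1 ((inv_le_one₀ h3).1 h2)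

private theorem PerB_locV_mono {A B : Subring W} (h : A ≤ B) :
    locV (ball W) A ≤ locV (ball W) B := by
  rintro z ⟨a, ha, b, hb, h1, h2⟩
  exact ⟨a, h ha, b, h hb, h1, h2⟩

private theorem PerB_le_locV (A : Subring W) : A ≤ locV (ball W) A :=
  fun z hz => ⟨z, hz, 1, one_mem _, map_one _, mul_one z⟩

/-- `x'` is obtained from `x` by a unimodular monomial transformation, `x` monomials with
nonnegative exponents in `x'`. -/
structure Mt {W : Type} [Field W] {r : ℕ} (x x' : Fin r → W) : Prop where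
  pos : ∀ i, ∃ β : Fin r → ℕ, x i = monN x' β
  inv : ∀ i, ∃ a : Fin r → ℤ, x' i = mon x a

private theorem PerB_mat {x x' : Fin r → W} (hx : Indep x) (h : Mt x x') :
    ∃ B : Matrix (Fin r) (Fin r) ℤ, ∀ a : Fin r → ℤ, mon x' a = mon x (Matrix.vecMul a B) := by
  choose B hB using h.inv
  exact ⟨B, fun a => T1_mon_mon x x' hx.ne B hB a⟩

private theorem PerB_mat' {x x' : Fin r → W} (hx' : Indep x') (h : Mt x x') :
    ∃ A : Matrix (Fin r) (Fin r) ℤ, ∀ a : Fin r → ℤ, mon x a = mon x' (Matrix.vecMul a A) := by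
  choose A hA using h.pos
  refine ⟨fun i j => ((A i j : ℕ) : ℤ), fun a => T1_mon_mon x' x hx'.ne _ (fun i => ?_) a⟩
  rw [hA i, ← T1_mon_natCast]

theorem Mt.LO_eq {x x' : Fin r → W} (hx : Indep x) (hx' : Indep x') (h : Mt x x') (y : W) :
    LO k x' y = LO k x y := by
  obtain ⟨A, hA⟩ := PerB_mat' hx' h
  obtain ⟨B, hB⟩ := PerB_mat hx h
  have hset : {z : W | ∃ a : Fin r → ℤ, ‖mon x' a‖ ≤ 1 ∧ z = mon x' a} =
      {z : W | ∃ a : Fin r → ℤ, ‖mon x a‖ ≤ 1 ∧ z = mon x a} := by
    ext z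
    constructor
    · rintro ⟨a, h1, h2⟩
      rw [hB] at h1 h2
      exact ⟨_, h1, h2⟩
    · rintro ⟨a, h1, h2⟩
      rw [hA] at h1 h2
      exact ⟨_, h1, h2⟩
  unfold LO
  rw [hset]

theorem Mt.par {x x' : Fin r → W} {y : W} (hP : Par k x y) (hx' : Indep x') (h : Mt x x') :
    Par k x' y := by
  obtain ⟨B, hB⟩ := PerB_mat hP.ind h
  refine ⟨hx', hP.y1, fun P hP0 => ?_⟩
  set f : (Fin r → ℤ) × ℕ → (Fin r → ℤ) × ℕ := fun m => (Matrix.vecMul m.1 B, m.2) with hf
  have hfinj : Function.Injective f := by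
    rintro ⟨a, i⟩ ⟨b, j⟩ hab
    simp only [hf, Prod.mk.injEq] at hab
    have h1 : a = b := by
      apply norm_mon_inj hx'
      rw [hB, hB, hab.1]
    rw [h1, hab.2]
  have hev : ev x y (AddMonoidAlgebra.ofCoeff (Finsupp.mapDomain f P.coeff) : LP k r) = 0 := by
    rw [← hP0]
    unfold ev
    show (Finsupp.mapDomain f P.coeff).sum _ = _
    rw [Finsupp.sum_mapDomain_index]
    · refine Finsupp.sum_congr (fun m _ => ?_)
      rw [hB]
    · intro m
      rw [map_zero, zero_mul]
    · intro m c d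
      rw [map_add, add_mul]
  have h0 := hP.tr _ hev
  have h1 : Finsupp.mapDomain f P.coeff = 0 := congrArg AddMonoidAlgebra.coeff h0
  have h2 : P.coeff = 0 := by
    apply Finsupp.mapDomain_injective hfinj
    rw [h1, Finsupp.mapDomain_zero]
  have h3 : AddMonoidAlgebra.ofCoeff P.coeff = (0 : LP k r) := by
    rw [h2]
    rfl
  exact h3

private theorem PerB_mon_mem_LL (x : Fin r → W) (y : W) (a : Fin r → ℤ) : mon x a ∈ LL k x y :=
  Subring.subset_closure (Or.inl (Or.inr ⟨a, rfl⟩))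

theorem Mt.rf (hA : Amb r k W) {x x' : Fin r → W} {y : W} (hP : Par k x y) (hx' : Indep x')
    (h : Mt x x') : Rf k x y x' y := by
  have hLO : LO k x' y = LO k x y := h.LO_eq hP.ind hx' y
  refine ⟨?_, ?_, ?_, ?_, ?_⟩
  · apply le_antisymm
    · refine Kxy_le _ _ (fun i => ?_) (y_mem_Kxy x y)
      obtain ⟨a, ha⟩ := h.inv i
      rw [ha]
      exact mon_mem_Kxy x y a
    · refine Kxy_le _ _ (fun i => ?_) (y_mem_Kxy x' y)
      obtain ⟨β, hβ⟩ := h.pos i
      rw [hβ, ← T1_mon_natCast]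
      exact mon_mem_Kxy x' y _
  · show locV (ball W) (LO k x y) ≤ locV (ball W) (LO k x' y)
    rw [hLO]
  · intro i
    obtain ⟨β, hβ⟩ := h.pos i
    exact ⟨fun j => (β j : ℤ), 1, one_mem _, norm_one, by rw [hβ, ← T1_mon_natCast, mul_one]⟩
  · intro i
    obtain ⟨a, ha⟩ := h.inv i
    refine ⟨x' i, ?_, 1, one_mem _, ?_, ?_, mul_one _⟩
    · rw [ha]
      exact PerB_mon_mem_LL x y a
    · exact ⟨Pi.single i 1, 1, one_mem _, norm_one, by rw [mon_single, mul_one]⟩
    · exact ⟨0, 1, one_mem _, norm_one, by rw [mon_zero, mul_one]⟩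
  · refine ⟨y, Subring.subset_closure (Or.inr rfl), 1, one_mem _, ?_, mul_one _⟩
    exact ⟨0, 1, one_mem _, norm_one, by rw [mon_zero, mul_one]⟩

theorem Bn_le_BB (hA : Amb r k W) {x : Fin r → W} {y τ : W} (hx : Indep x) :
    Bn k x y τ ≤ BB k x y τ := by
  apply PerB_locV_mono
  rw [Subring.closure_le]
  rintro z ((⟨c, rfl⟩ | ⟨i, rfl⟩) | hz)
  · exact Subring.subset_closure (Or.inl (Subring.subset_closure (Or.inl (Or.inl ⟨c, rfl⟩))))
  · refine Subring.subset_closure (Or.inl (Subring.subset_closure (Or.inl (Or.inr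
      ⟨Pi.single i 1, ?_, ?_⟩))))
    · rw [mon_single]
      exact (hx.lt i).le
    · rw [mon_single]
  · rcases hz with hz | hz
    · rw [hz]
      exact Subring.subset_closure (Or.inl (Subring.subset_closure (Or.inr rfl)))
    · rw [Set.mem_singleton_iff] at hz
      rw [hz]
      exact Subring.subset_closure (Or.inr rfl)

/-- The ring generated by constants, finitely many monomials, `y` and `τ`. -/
private def PerBF (k : Type) {W : Type} [Field k] [NormedField W] [Algebra k W] {r : ℕ}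
    (x : Fin r → W) (y τ : W) (Δ : Finset (Fin r → ℤ)) : Subring W :=
  Subring.closure ((Set.range (algebraMap k W) ∪ (fun a => mon x a) '' (Δ : Set (Fin r → ℤ))) ∪
    {y, τ})

private theorem PerBF_mono {x : Fin r → W} {y τ : W} {Δ Δ' : Finset (Fin r → ℤ)} (h : Δ ⊆ Δ') :
    PerBF k x y τ Δ ≤ PerBF k x y τ Δ' := by
  unfold PerBF
  rw [Subring.closure_le]
  rintro z ((hz | ⟨a, ha, rfl⟩) | hz)
  · exact Subring.subset_closure (Or.inl (Or.inl hz))
  · exact Subring.subset_closure (Or.inl (Or.inr ⟨a, h ha, rfl⟩))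
  · exact Subring.subset_closure (Or.inr hz)

private theorem PerB_fin {x : Fin r → W} (hx : Indep x) (y τ : W) {c : W}
    (hc : c ∈ Subring.closure ((LO k x y : Set W) ∪ {τ})) :
    ∃ Δ : Finset (Fin r → ℤ), (∀ a ∈ Δ, ‖mon x a‖ < 1) ∧ c ∈ PerBF k x y τ Δ := by
  classical
  have hbin : ∀ (a b : W), (∃ Δ : Finset (Fin r → ℤ), (∀ a ∈ Δ, ‖mon x a‖ < 1) ∧
      a ∈ PerBF k x y τ Δ) → (∃ Δ : Finset (Fin r → ℤ), (∀ a ∈ Δ, ‖mon x a‖ < 1) ∧
      b ∈ PerBF k x y τ Δ) → ∃ Δ : Finset (Fin r → ℤ), (∀ a ∈ Δ, ‖mon x a‖ < 1) ∧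
      a ∈ PerBF k x y τ Δ ∧ b ∈ PerBF k x y τ Δ := by
    rintro a b ⟨Δ, h1, h2⟩ ⟨Δ', h1', h2'⟩
    refine ⟨Δ ∪ Δ', fun d hd => ?_, PerBF_mono Finset.subset_union_left h2,
      PerBF_mono Finset.subset_union_right h2'⟩
    rcases Finset.mem_union.1 hd with hd | hd
    · exact h1 d hd
    · exact h1' d hd
  have hLO : ∀ c ∈ LO k x y, ∃ Δ : Finset (Fin r → ℤ), (∀ a ∈ Δ, ‖mon x a‖ < 1) ∧
      c ∈ PerBF k x y τ Δ := by
    intro c hc
    unfold LO at hc
    induction hc using Subring.closure_induction with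
    | mem z hz =>
      rcases hz with (hz | ⟨a, ha, rfl⟩) | hz
      · exact ⟨∅, fun a ha => absurd ha (Finset.notMem_empty _),
          Subring.subset_closure (Or.inl (Or.inl hz))⟩
      · rcases ha.lt_or_eq with hlt | heq
        · refine ⟨{a}, fun b hb => ?_, Subring.subset_closure (Or.inl (Or.inr ⟨a, ?_, rfl⟩))⟩
          · rw [Finset.mem_singleton.1 hb]
            exact hlt
          · exact Finset.mem_coe.2 (Finset.mem_singleton_self a)
        · have h0 := hx.indep a heq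
          rw [h0, mon_zero]
          exact ⟨∅, fun a ha => absurd ha (Finset.notMem_empty _), one_mem _⟩
      · rw [Set.mem_singleton_iff] at hz
        rw [hz]
        exact ⟨∅, fun a ha => absurd ha (Finset.notMem_empty _),
          Subring.subset_closure (Or.inr (Or.inl rfl))⟩
    | zero => exact ⟨∅, fun a ha => absurd ha (Finset.notMem_empty _), zero_mem _⟩
    | one => exact ⟨∅, fun a ha => absurd ha (Finset.notMem_empty _), one_mem _⟩
    | add a b _ _ iha ihb =>
      obtain ⟨Δ, h1, h2, h3⟩ := hbin a b iha ihb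
      exact ⟨Δ, h1, add_mem h2 h3⟩
    | neg a _ iha =>
      obtain ⟨Δ, h1, h2⟩ := iha
      exact ⟨Δ, h1, neg_mem h2⟩
    | mul a b _ _ iha ihb =>
      obtain ⟨Δ, h1, h2, h3⟩ := hbin a b iha ihb
      exact ⟨Δ, h1, mul_mem h2 h3⟩
  induction hc using Subring.closure_induction with
  | mem z hz =>
    rcases hz with hz | hz
    · exact hLO z hz
    · rw [Set.mem_singleton_iff] at hz
      rw [hz]
      exact ⟨∅, fun a ha => absurd ha (Finset.notMem_empty _),
        Subring.subset_closure (Or.inr (Or.inr rfl))⟩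
  | zero => exact ⟨∅, fun a ha => absurd ha (Finset.notMem_empty _), zero_mem _⟩
  | one => exact ⟨∅, fun a ha => absurd ha (Finset.notMem_empty _), one_mem _⟩
  | add a b _ _ iha ihb =>
    obtain ⟨Δ, h1, h2, h3⟩ := hbin a b iha ihb
    exact ⟨Δ, h1, add_mem h2 h3⟩
  | neg a _ iha =>
    obtain ⟨Δ, h1, h2⟩ := iha
    exact ⟨Δ, h1, neg_mem h2⟩
  | mul a b _ _ iha ihb =>
    obtain ⟨Δ, h1, h2, h3⟩ := hbin a b iha ihb
    exact ⟨Δ, h1, mul_mem h2 h3⟩

private theorem PerB_BB {x : Fin r → W} (hx : Indep x) {y τ : W} {z : W}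
    (hz : z ∈ BB k x y τ) :
    ∃ Δ : Finset (Fin r → ℤ), (∀ a ∈ Δ, ‖mon x a‖ < 1) ∧
      z ∈ locV (ball W) (PerBF k x y τ Δ) := by
  classical
  obtain ⟨a, ha, b, hb, h1, h2⟩ := hz
  obtain ⟨Δ, g1, g2⟩ := PerB_fin hx y τ ha
  obtain ⟨Δ', g1', g2'⟩ := PerB_fin hx y τ hb
  refine ⟨Δ ∪ Δ', fun d hd => ?_, a, PerBF_mono Finset.subset_union_left g2, b,
    PerBF_mono Finset.subset_union_right g2', h1, h2⟩
  rcases Finset.mem_union.1 hd with hd | hd
  · exact g1 d hd
  · exact g1' d hd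

private theorem PerB_BBfin {x : Fin r → W} (hx : Indep x) {y τ : W} (Z : Finset W)
    (hZ : ∀ z ∈ Z, z ∈ BB k x y τ) :
    ∃ Δ : Finset (Fin r → ℤ), (∀ a ∈ Δ, ‖mon x a‖ < 1) ∧
      ∀ z ∈ Z, z ∈ locV (ball W) (PerBF k x y τ Δ) := by
  classical
  induction Z using Finset.induction_on with
  | empty => exact ⟨∅, fun a ha => absurd ha (Finset.notMem_empty _),
      fun a ha => absurd ha (Finset.notMem_empty _)⟩
  | insert z Z _ ih =>
    obtain ⟨Δ, h1, h2⟩ := ih (fun z' hz' => hZ z' (Finset.mem_insert_of_mem hz'))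
    obtain ⟨Δ', h1', h2'⟩ := PerB_BB hx (hZ z (Finset.mem_insert_self _ _))
    refine ⟨Δ ∪ Δ', fun d hd => ?_, fun w hw => ?_⟩
    · rcases Finset.mem_union.1 hd with hd | hd
      · exact h1 d hd
      · exact h1' d hd
    · rcases Finset.mem_insert.1 hw with rfl | hw
      · exact PerB_locV_mono (PerBF_mono Finset.subset_union_right) h2'
      · exact PerB_locV_mono (PerBF_mono Finset.subset_union_left) (h2 w hw)

/-- the sum of the unit vectors -/
private theorem PerB_mon_one (x : Fin r → W) : mon x (fun _ => (1 : ℤ)) = ∏ i, x i := by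
  unfold mon
  exact Finset.prod_congr rfl (fun i _ => zpow_one _)

private theorem PerB_pow {x : Fin r → W} (hx : Indep x) {a : Fin r → ℤ} (ha : ‖mon x a‖ < 1) :
    ∃ N : ℕ, ‖mon x ((N : ℕ) • a - fun _ => (1 : ℤ))‖ < 1 := by
  have h0 : 0 < ‖mon x (fun _ => (1 : ℤ))‖ := norm_pos_iff.2 (mon_ne x hx.ne _)
  obtain ⟨N, hN⟩ := exists_pow_lt_of_lt_one h0 ha
  refine ⟨N, ?_⟩
  rw [sub_eq_add_neg, mon_add x hx.ne, mon_neg, mon_nsmul, norm_mul, norm_inv, norm_pow,
    ← div_eq_mul_inv, div_lt_one h0]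
  exact hN

theorem perron_BB (hA : Amb r k W) {x : Fin r → W} {y τ : W} (hP : Par k x y) (hτ : ‖τ‖ ≤ 1)
    (Z : Finset W) (hZ : ∀ z ∈ Z, z ∈ BB k x y τ) (Y : Finset (Fin r → ℤ))
    (hY : ∀ a ∈ Y, ‖mon x a‖ < 1) :
    ∃ x' : Fin r → W, Indep x' ∧ Mt x x' ∧ (∀ z ∈ Z, z ∈ Bn k x' y τ) ∧
      ∀ a ∈ Y, ∃ β : Fin r → ℕ, (∀ i, 1 ≤ β i) ∧ mon x a = monN x' β := by
  classical
  have hx := hP.ind
  obtain ⟨Δ, hΔ1, hΔ2⟩ := PerB_BBfin hx Z hZ
  have hex : ∀ a : Fin r → ℤ, ∃ N : ℕ, a ∈ Y → ‖mon x (N • a - fun _ => (1 : ℤ))‖ < 1 := by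
    intro a
    by_cases ha : a ∈ Y
    · obtain ⟨N, hN⟩ := PerB_pow hx (hY a ha)
      exact ⟨N, fun _ => hN⟩
    · exact ⟨0, fun h => absurd h ha⟩
  choose N hN using hex
  obtain ⟨x', A, B, hx', hA1, hB1, hAB, hmon⟩ := refine x hx
    (Δ ∪ (Y ∪ Y.image (fun a => N a • a - fun _ => (1 : ℤ)))) (by
      intro δ hδ
      rcases Finset.mem_union.1 hδ with h | h
      · exact hΔ1 δ h
      · rcases Finset.mem_union.1 h with h | h
        · exact hY δ h
        · obtain ⟨a, ha, rfl⟩ := Finset.mem_image.1 h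
          exact hN a ha)
  have hMt : Mt x x' := ⟨fun i => ⟨A i, hA1 i⟩, fun i => ⟨B i, hB1 i⟩⟩
  refine ⟨x', hx', hMt, ?_, ?_⟩
  · intro z hz
    have hle : PerBF k x y τ Δ ≤
        Subring.closure ((Set.range (algebraMap k W) ∪ Set.range x') ∪ {y, τ}) := by
      unfold PerBF
      rw [Subring.closure_le]
      rintro w ((hw | ⟨a, ha, rfl⟩) | hw)
      · exact Subring.subset_closure (Or.inl (Or.inl hw))
      · obtain ⟨β, hβ⟩ := hmon a (Finset.mem_union_left _ ha)
        show mon x a ∈ Subring.closure ((Set.range (algebraMap k W) ∪ Set.range x') ∪ {y, τ})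
        rw [hβ]
        unfold monN
        have hxi : ∀ i, x' i ∈
            Subring.closure ((Set.range (algebraMap k W) ∪ Set.range x') ∪ {y, τ}) :=
          fun i => Subring.subset_closure (Or.inl (Or.inr ⟨i, rfl⟩))
        exact prod_mem (fun i _ => pow_mem (hxi i) _)
      · exact Subring.subset_closure (Or.inr hw)
    exact PerB_locV_mono hle (hΔ2 z hz)
  · intro a ha
    obtain ⟨β, hβ⟩ := hmon a (Finset.mem_union_right _ (Finset.mem_union_left _ ha))
    obtain ⟨γ, hγ⟩ := hmon (N a • a - fun _ => (1 : ℤ)) (Finset.mem_union_right _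
      (Finset.mem_union_right _ (Finset.mem_image_of_mem _ ha)))
    refine ⟨β, ?_, hβ⟩
    -- the key identity
    have hone : mon x (fun _ => (1 : ℤ)) = mon x' (fun j => ∑ i, (A i j : ℤ)) := by
      rw [PerB_mon_one]
      have h1 : ∀ i, x i = mon x' (fun j => (A i j : ℤ)) := fun i => by
        rw [hA1 i, ← T1_mon_natCast]
      unfold mon at h1 ⊢
      calc ∏ i, x i = ∏ i, ∏ j, x' j ^ (A i j : ℤ) := Finset.prod_congr rfl (fun i _ => h1 i)
        _ = ∏ j, ∏ i, x' j ^ (A i j : ℤ) := Finset.prod_comm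
        _ = ∏ j, x' j ^ (∑ i, (A i j : ℤ)) :=
          Finset.prod_congr rfl (fun j _ => T1_zpow_sum _ _ (hx'.ne j) _)
    have hid : mon x' (N a • (fun i => (β i : ℤ))) =
        mon x' ((fun i => (γ i : ℤ)) + fun j => ∑ i, (A i j : ℤ)) := by
      rw [mon_nsmul, mon_add x' hx'.ne, T1_mon_natCast, T1_mon_natCast, ← hβ, ← hγ, ← hone,
        ← mon_add x hx.ne, sub_add_cancel, mon_nsmul]
    have hvec := norm_mon_inj hx' (congrArg norm hid)
    -- the columns of A do not vanish
    have hMAB : (Matrix.of (fun i j => (A i j : ℤ)) : Matrix (Fin r) (Fin r) ℤ) *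
        Matrix.of (fun i j => B i j) = 1 := by
      ext i j
      rw [Matrix.mul_apply, Matrix.one_apply, ← hAB i j]
      rfl
    have hMBA := mul_eq_one_comm.1 hMAB
    intro j
    have hcol : 1 ≤ ∑ i, (A i j : ℤ) := by
      by_contra hcon
      push Not at hcon
      have h1 : ∑ i, (A i j : ℤ) = 0 := by
        have h2 : 0 ≤ ∑ i, (A i j : ℤ) := Finset.sum_nonneg (fun i _ => Int.natCast_nonneg _)
        omega
      rw [Finset.sum_eq_zero_iff_of_nonneg (fun i _ => Int.natCast_nonneg _)] at h1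
      have h2 := congrFun (congrFun hMBA j) j
      rw [Matrix.mul_apply, Matrix.one_apply_eq] at h2
      rw [Finset.sum_eq_zero] at h2
      · exact zero_ne_one h2
      · intro i hi
        have h3 : (Matrix.of (fun i j => (A i j : ℤ)) : Matrix (Fin r) (Fin r) ℤ) i j = 0 :=
          h1 i hi
        rw [h3, mul_zero]
    have hj := congrFun hvec j
    simp only [Pi.smul_apply, Pi.add_apply, nsmul_eq_mul] at hj
    rcases Nat.eq_zero_or_pos (β j) with h0 | h0
    · exfalso
      rw [h0, Nat.cast_zero, mul_zero] at hj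
      have : (0 : ℤ) ≤ (γ j : ℤ) := Int.natCast_nonneg _
      omega
    · exact h0

/-- The maximal ideal of `Bn` is generated by `x, y` when `c_0` (the constant coefficient of the
equation of `τ`) is in the ideal generated by `x` and all coefficients are in `Bn`: then
`τ (1 + c_2 τ + ..) = -c_0` puts `τ` into it. -/
theorem Bn_gen (hA : Amb r k W) {x : Fin r → W} {y τ : W} (hx : Indep x) (hy : ‖y‖ < 1)
    (hτ1 : ‖τ‖ < 1) (hτ : ∃ b : Fin r → W, (∀ i, b i ∈ Bn k x y τ) ∧ τ = ∑ i, b i * x i)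
    (z : W) (hz : z ∈ Bn k x y τ) (h1 : ‖z‖ < 1) :
    ∃ (b : Fin r → W) (b0 : W), (∀ i, b i ∈ Bn k x y τ) ∧ b0 ∈ Bn k x y τ ∧
      z = ∑ i, b i * x i + b0 * y := by
  classical
  set R : Subring W :=
    Subring.closure ((Set.range (algebraMap k W) ∪ Set.range x) ∪ {y, τ}) with hR
  have hRB : R ≤ Bn k x y τ := PerB_le_locV R
  -- the norms
  have hRn : ∀ w ∈ R, ‖w‖ ≤ 1 := by
    intro w hw
    have hle : R ≤ (ball W).toSubring := by
      rw [hR, Subring.closure_le]
      rintro v ((⟨c, rfl⟩ | ⟨i, rfl⟩) | hv)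
      · exact norm_algebraMap_le hA c
      · exact (hx.lt i).le
      · rcases hv with hv | hv
        · rw [hv]
          exact hy.le
        · rw [Set.mem_singleton_iff] at hv
          rw [hv]
          exact hτ1.le
    exact hle hw
  have hBn : ∀ w ∈ Bn k x y τ, ‖w‖ ≤ 1 := by
    rintro w ⟨a, ha, b, hb, hb1, hab⟩
    rw [PerB_val] at hb1
    have h2 : ‖w‖ * ‖b‖ = ‖a‖ := by rw [← norm_mul, hab]
    rw [hb1, mul_one] at h2
    rw [h2]
    exact hRn a ha
  -- the ideal
  let I : Set W := {w | ∃ (b : Fin r → W) (b0 : W), (∀ i, b i ∈ Bn k x y τ) ∧ b0 ∈ Bn k x y τ ∧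
      w = ∑ i, b i * x i + b0 * y}
  have hI0 : (0 : W) ∈ I := ⟨0, 0, fun i => zero_mem _, zero_mem _, by simp⟩
  have hIadd : ∀ u ∈ I, ∀ v ∈ I, u + v ∈ I := by
    rintro u ⟨b, b0, h1, h2, rfl⟩ v ⟨c, c0, g1, g2, rfl⟩
    refine ⟨fun i => b i + c i, b0 + c0, fun i => add_mem (h1 i) (g1 i), add_mem h2 g2, ?_⟩
    have : ∑ i, (b i + c i) * x i = ∑ i, b i * x i + ∑ i, c i * x i := by
      rw [← Finset.sum_add_distrib]
      exact Finset.sum_congr rfl (fun i _ => add_mul _ _ _)
    rw [this]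
    ring
  have hImul : ∀ u ∈ I, ∀ v ∈ Bn k x y τ, v * u ∈ I := by
    rintro u ⟨b, b0, h1, h2, rfl⟩ v hv
    refine ⟨fun i => v * b i, v * b0, fun i => mul_mem hv (h1 i), mul_mem hv h2, ?_⟩
    have : ∑ i, v * b i * x i = v * ∑ i, b i * x i := by
      rw [Finset.mul_sum]
      exact Finset.sum_congr rfl (fun i _ => mul_assoc _ _ _)
    rw [this]
    ring
  have hIlt : ∀ u ∈ I, ‖u‖ < 1 := by
    rintro u ⟨b, b0, g1, g2, rfl⟩
    refine (IsUltrametricDist.norm_add_le_max _ _).trans_lt (max_lt ?_ ?_)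
    · have hs : ∀ s : Finset (Fin r), ‖∑ i ∈ s, b i * x i‖ < 1 := by
        intro s
        induction s using Finset.induction_on with
        | empty =>
          rw [Finset.sum_empty, norm_zero]
          exact zero_lt_one
        | insert i s hi ih =>
          rw [Finset.sum_insert hi]
          refine (IsUltrametricDist.norm_add_le_max _ _).trans_lt (max_lt ?_ ih)
          rw [norm_mul]
          exact (mul_le_of_le_one_left (norm_nonneg _) (hBn _ (g1 i))).trans_lt (hx.lt i)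
      exact hs _
    · rw [norm_mul]
      exact (mul_le_of_le_one_left (norm_nonneg _) (hBn _ g2)).trans_lt hy
  have hIx : ∀ i, x i ∈ I := fun i => ⟨Pi.single i 1, 0, fun j => by
      by_cases hj : j = i
      · rw [hj, Pi.single_eq_same]
        exact one_mem _
      · rw [Pi.single_eq_of_ne hj]
        exact zero_mem _, zero_mem _, by
      rw [Finset.sum_eq_single i]
      · rw [Pi.single_eq_same, one_mul, zero_mul, add_zero]
      · intro j _ hj
        rw [Pi.single_eq_of_ne hj, zero_mul]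
      · intro h
        exact absurd (Finset.mem_univ i) h⟩
  have hIy : y ∈ I := ⟨0, 1, fun j => zero_mem _, one_mem _, by simp⟩
  have hIτ : τ ∈ I := by
    obtain ⟨b, hb1, hb2⟩ := hτ
    exact ⟨b, 0, hb1, zero_mem _, by rw [zero_mul, add_zero]; exact hb2⟩
  -- every element of `R` is a constant plus an element of `I`
  have hdec : ∀ w ∈ R, ∃ c : k, w - algebraMap k W c ∈ I := by
    intro w hw
    have hkB : ∀ c : k, algebraMap k W c ∈ Bn k x y τ := fun c =>
      hRB (Subring.subset_closure (Or.inl (Or.inl ⟨c, rfl⟩)))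
    have hw' : w ∈ Subring.closure ((Set.range (algebraMap k W) ∪ Set.range x) ∪ {y, τ}) := hw
    have hcl : w ∈ Subring.closure ((Set.range (algebraMap k W) ∪ Set.range x) ∪ {y, τ}) ∧
        ∃ c : k, w - algebraMap k W c ∈ I := by
      induction hw' using Subring.closure_induction with
      | mem z hz =>
        refine ⟨Subring.subset_closure hz, ?_⟩
        rcases hz with (⟨c, rfl⟩ | ⟨i, rfl⟩) | hz
        · exact ⟨c, by rw [sub_self]; exact hI0⟩
        · exact ⟨0, by rw [map_zero, sub_zero]; exact hIx i⟩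
        · rcases hz with hz | hz
          · rw [hz]
            exact ⟨0, by rw [map_zero, sub_zero]; exact hIy⟩
          · rw [Set.mem_singleton_iff] at hz
            rw [hz]
            exact ⟨0, by rw [map_zero, sub_zero]; exact hIτ⟩
      | zero => exact ⟨zero_mem _, 0, by rw [map_zero, sub_zero]; exact hI0⟩
      | one => exact ⟨one_mem _, 1, by rw [map_one, sub_self]; exact hI0⟩
      | add a b ha hb iha ihb =>
        obtain ⟨g1, c, hc⟩ := iha (by exact ha)
        obtain ⟨g2, d, hd⟩ := ihb (by exact hb)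
        refine ⟨add_mem g1 g2, c + d, ?_⟩
        have h := hIadd _ hc _ hd
        have e : a + b - algebraMap k W (c + d) =
            a - algebraMap k W c + (b - algebraMap k W d) := by
          rw [map_add]; ring
        rw [e]
        exact h
      | neg a ha iha =>
        obtain ⟨g1, c, hc⟩ := iha (by exact ha)
        refine ⟨neg_mem g1, -c, ?_⟩
        have h := hImul _ hc (-1) (neg_mem (one_mem _))
        have e : -a - algebraMap k W (-c) = -1 * (a - algebraMap k W c) := by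
          rw [map_neg]; ring
        rw [e]
        exact h
      | mul a b ha hb iha ihb =>
        obtain ⟨g1, c, hc⟩ := iha (by exact ha)
        obtain ⟨g2, d, hd⟩ := ihb (by exact hb)
        refine ⟨mul_mem g1 g2, c * d, ?_⟩
        have h3 := hImul _ hd a (hRB g1)
        have h4 := hImul _ hc (algebraMap k W d) (hkB d)
        have h := hIadd _ h3 _ h4
        have e : a * b - algebraMap k W (c * d) = a * (b - algebraMap k W d) +
            algebraMap k W d * (a - algebraMap k W c) := by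
          rw [map_mul]; ring
        rw [e]
        exact h
    exact hcl.2
  obtain ⟨n, hn, d, hd, hd1, hzd⟩ := hz
  have hd2 : ‖d‖ = 1 := (PerB_val d).1 hd1
  have hd0 : d ≠ 0 := by
    rintro rfl
    rw [norm_zero] at hd2
    exact zero_ne_one hd2
  have hn1 : ‖n‖ < 1 := by
    rw [← hzd, norm_mul, hd2, mul_one]
    exact h1
  obtain ⟨c, hc⟩ := hdec n hn
  have hc0 : c = 0 := by
    by_contra hne
    have h2 := hA.unit c hne
    have h3 : algebraMap k W c = n - (n - algebraMap k W c) := by ring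
    have h4 : ‖n - (n - algebraMap k W c)‖ < 1 := by
      rw [sub_eq_add_neg]
      refine (IsUltrametricDist.norm_add_le_max _ _).trans_lt (max_lt hn1 ?_)
      rw [norm_neg]
      exact hIlt _ hc
    rw [← h3, h2] at h4
    exact lt_irrefl _ h4
  rw [hc0, map_zero, sub_zero] at hc
  have hdinv : d⁻¹ ∈ Bn k x y τ := ⟨1, one_mem _, d, hd, hd1, inv_mul_cancel₀ hd0⟩
  have h := hImul _ hc _ hdinv
  have e : d⁻¹ * n = z := by
    rw [← hzd, mul_comm z d, inv_mul_cancel_left₀ hd0]
  rw [e] at h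
  exact h

end Pool.Agent.Lib.TDO
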