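import Pool.Agent.Lib.TDO.StabG
import Pool.Agent.Lib.TDO.Eig
import Pool.Agent.Lib.TDO.PerB
import Pool.Agent.Lib.TDO.Dens
import Pool.Agent.Lib.TDO.Unram
import Pool.Agent.Lib.TDO.Tr

/-!
# Module EigCh: a chart of eigen-elements

`stab_G` gives the good stage `(x1, y1)`, `eigen` gives `U, v, n, a`.  `perron_BB` (for `(x1, y1)`, `Z =`
the elements `U i, (U i)⁻¹, v, v⁻¹, n` and the cofactors `u_j` of the coefficients
`P.coeff j = mon x1 a_j * u_j`, `Y =` the exponents `a`, `a_j`) gives `x2` with `Mt x1 x2`; let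
`B = Bn k x2 y1 τ`.  `τ ∈ (∏ x2 i) B` (`c_0` is; `τ (1 + c_2 τ + ..) = - c_0`), so `Bn_gen` holds.
`x2 i = mon x1 (e i)` (`Mt.inv`); put `X i = mon (fun j => x1 j * U j) (e i) = x2 i * mon U (e i)`,
an eigen-element, `mon U (e i)` a unit of `B`; `Y = y1 v + mon x1 a n`, with
`mon x1 a ∈ (x2) B`.  So the maximal ideal of `B` is generated by the `X i` and `Y`; `X` independent
(`‖mon X b‖ = ‖mon x2 b‖`), `‖Y‖ < 1`.  `dens`: `B ⊆ cl (Kxy k X Y)`, and `N = E(τ)` is generated by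
`x2, y1, τ ∈ B`.  `unram` with `G = {x2 i, y1, τ}`: everything is separable over `Kxy k X Y`.
`Par k X Y` by `tr_of_algebraic`.
-/

namespace Pool.Agent.Lib.TDO

open Pool.Agent.Lib.MP_3029eb_ag Pool.Agent.Lib.MP_3029eb_ag.Abh

section EigCh

variable {k N : Type} [Field k] [NormedField N] [IsUltrametricDist N] [Algebra k N] {r : ℕ}

private lemma EigCh_mon_mul (x U : Fin r → N) (e : Fin r → ℤ) :
    mon (fun j => x j * U j) e = mon x e * mon U e := by
  unfold mon
  rw [← Finset.prod_mul_distrib]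
  exact Finset.prod_congr rfl fun i _ => mul_zpow _ _ _

private lemma EigCh_mon_map (σ : N ≃ₐ[k] N) (x : Fin r → N) (e : Fin r → ℤ) :
    σ (mon x e) = mon (fun j => σ (x j)) e := by
  unfold mon
  rw [map_prod]
  exact Finset.prod_congr rfl fun i _ => map_zpow₀ σ _ _

private lemma EigCh_mon_alg (c : Fin r → k) (e : Fin r → ℤ) :
    mon (fun j => algebraMap k N (c j)) e = algebraMap k N (∏ i, c i ^ e i) := by
  unfold mon
  rw [map_prod]
  exact Finset.prod_congr rfl fun i _ => (map_zpow₀ (algebraMap k N) _ _).symm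

private lemma EigCh_zpow_mem {B : Subring N} {z : N} (h : z ∈ B) (h' : z⁻¹ ∈ B) (n : ℤ) :
    z ^ n ∈ B := by
  rcases n.eq_nat_or_neg with ⟨m, rfl | rfl⟩
  · rw [zpow_natCast]
    exact pow_mem h m
  · rw [zpow_neg, zpow_natCast, ← inv_pow]
    exact pow_mem h' m

private lemma EigCh_mon_mem {B : Subring N} {U : Fin r → N} (h : ∀ i, U i ∈ B)
    (h' : ∀ i, (U i)⁻¹ ∈ B) (e : Fin r → ℤ) : mon U e ∈ B := by
  unfold mon
  exact prod_mem fun i _ => EigCh_zpow_mem (h i) (h' i) _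

private lemma EigCh_norm_mon {U : Fin r → N} (h : ∀ i, ‖U i‖ = 1) (e : Fin r → ℤ) :
    ‖mon U e‖ = 1 := by
  unfold mon
  rw [norm_prod]
  exact Finset.prod_eq_one fun i _ => by rw [norm_zpow, h i, one_zpow]

private lemma EigCh_le_loc (A : Subring N) : A ≤ locV (ball N) A :=
  fun z hz => ⟨z, hz, 1, one_mem _, map_one _, mul_one z⟩

private lemma EigCh_inv_loc {A : Subring N} {z : N}
    (hz : z ∈ locV (ball N) A) (h1 : ‖z‖ = 1) : z⁻¹ ∈ locV (ball N) A := by
  obtain ⟨a, ha, b, hb, hb1, h⟩ := hz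
  have hb2 := (ball_val_eq_one _).1 hb1
  have hz0 : z ≠ 0 := by
    rintro rfl
    rw [norm_zero] at h1
    exact zero_ne_one h1
  have ha1 : ‖a‖ = 1 := by rw [← h, norm_mul, h1, hb2, mul_one]
  refine ⟨b, hb, a, ha, (ball_val_eq_one _).2 ha1, ?_⟩
  rw [← h]
  field_simp

private lemma EigCh_add_lt {a b : N} {C : ℝ} (ha : ‖a‖ < C) (hb : ‖b‖ < C) : ‖a + b‖ < C :=
  lt_of_le_of_lt (IsUltrametricDist.norm_add_le_max a b) (max_lt ha hb)

private lemma EigCh_sum_lt {s : Finset ℕ} {f : ℕ → N} (h : ∀ j ∈ s, ‖f j‖ < 1) :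
    ‖∑ j ∈ s, f j‖ < 1 := by
  induction s using Finset.induction_on with
  | empty => simp
  | insert a s ha ih =>
    rw [Finset.sum_insert ha]
    exact EigCh_add_lt (h a (Finset.mem_insert_self a s))
      (ih fun j hj => h j (Finset.mem_insert_of_mem hj))

private lemma EigCh_norm_eq_one {z : N} (h : ‖z‖ < 1) : ‖1 + z‖ = 1 := by
  have h3 : ‖1 + z‖ = max ‖(1 : N)‖ ‖z‖ := by
    apply IsUltrametricDist.norm_add_eq_max_of_norm_ne_norm
    rw [norm_one]
    exact h.ne'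
  rw [h3, norm_one, max_eq_left h.le]

/-- a monomial with exponents at least one is a multiple of each coordinate -/
private lemma EigCh_monN {B : Subring N} {x : Fin r → N} (hx : ∀ i, x i ∈ B) (i0 : Fin r)
    {β : Fin r → ℕ} (hβ : 1 ≤ β i0) : ∃ m ∈ B, monN x β = x i0 * m := by
  classical
  refine ⟨x i0 ^ (β i0 - 1) * ∏ i ∈ Finset.univ.erase i0, x i ^ β i, ?_, ?_⟩
  · exact mul_mem (pow_mem (hx i0) _) (prod_mem fun i _ => pow_mem (hx i) _)
  · unfold monN
    rw [← Finset.mul_prod_erase Finset.univ _ (Finset.mem_univ i0), ← mul_assoc, ← pow_succ',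
      Nat.sub_add_cancel hβ]

/-- `τ` lies in the ideal generated by `x i0` -/
private lemma EigCh_tau {E : IntermediateField k N} {P : Polynomial E} {τ : N} (hEt : Et E P τ)
    {A : Subring N} (hA1 : ∀ a ∈ A, ‖a‖ ≤ 1) (hτA : τ ∈ locV (ball N) A) {t : N}
    (ht : t ∈ locV (ball N) A) (ht1 : ‖t‖ < 1)
    (hc : ∀ j, j ≠ 1 → ∃ b ∈ locV (ball N) A, ((P.coeff j : E) : N) = t * b) :
    ∃ b ∈ locV (ball N) A, τ = t * b := by
  choose! b hb hbc using hc
  have hB1 : ∀ z ∈ locV (ball N) A, ‖z‖ ≤ 1 := by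
    rintro z ⟨a, ha, b, hb, hb1, h⟩
    have hb2 := (ball_val_eq_one _).1 hb1
    have h1 : ‖z‖ = ‖a‖ := by rw [← h, norm_mul, hb2, mul_one]
    rw [h1]
    exact hA1 a ha
  -- the sum of the higher terms
  set n := P.natDegree with hn
  set S : N := ∑ j ∈ Finset.Ico 2 (n + 2), t * (b j * τ ^ (j - 1)) with hS
  have hroot : ((P.coeff 0 : E) : N) + τ * (1 + S) = 0 := by
    have h0 := hEt.root
    rw [Polynomial.aeval_eq_sum_range' (n := n + 2) (by omega), Finset.range_eq_Ico,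
      Finset.sum_eq_sum_Ico_succ_bot (by omega), Finset.sum_eq_sum_Ico_succ_bot (by omega),
      zero_add, one_add_one_eq_two, hEt.c1] at h0
    rw [hS, mul_add, mul_one, Finset.mul_sum]
    have e1 : ∀ j ∈ Finset.Ico 2 (n + 2), τ * (t * (b j * τ ^ (j - 1))) = P.coeff j • τ ^ j := by
      intro j hj
      rw [Finset.mem_Ico] at hj
      have h2 : τ ^ j = τ * τ ^ (j - 1) := by
        rw [← pow_succ']
        congr 1
        omega
      rw [Algebra.smul_def]
      show τ * (t * (b j * τ ^ (j - 1))) = ((P.coeff j : E) : N) * τ ^ j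
      rw [hbc j (by omega), h2]
      ring
    rw [Finset.sum_congr rfl e1, ← add_assoc]
    have e2 : (P.coeff 0) • τ ^ 0 = ((P.coeff 0 : E) : N) := by
      rw [pow_zero, Algebra.smul_def, mul_one]
      rfl
    rw [e2, one_smul, pow_one, ← add_assoc] at h0
    exact h0
  have hterm : ∀ j ∈ Finset.Ico 2 (n + 2), b j * τ ^ (j - 1) ∈ locV (ball N) A := by
    intro j hj
    rw [Finset.mem_Ico] at hj
    exact mul_mem (hb j (by omega)) (pow_mem hτA _)
  have hSmem : S ∈ locV (ball N) A := sum_mem fun j hj => mul_mem ht (hterm j hj)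
  have hS1 : ‖S‖ < 1 := by
    apply EigCh_sum_lt
    intro j hj
    rw [norm_mul]
    exact mul_lt_one_of_nonneg_of_lt_one_left (norm_nonneg _) ht1 (hB1 _ (hterm j hj))
  have hD1 : ‖1 + S‖ = 1 := EigCh_norm_eq_one hS1
  have hD0 : 1 + S ≠ 0 := by
    intro h0
    rw [h0, norm_zero] at hD1
    exact zero_ne_one hD1
  have hDinv : (1 + S)⁻¹ ∈ locV (ball N) A :=
    EigCh_inv_loc (add_mem (one_mem _) hSmem) hD1
  refine ⟨-(b 0 * (1 + S)⁻¹), neg_mem (mul_mem (hb 0 (by omega)) hDinv), ?_⟩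
  have h5 : τ = -((P.coeff 0 : E) : N) * (1 + S)⁻¹ := by
    rw [eq_mul_inv_iff_mul_eq₀ hD0]
    linear_combination hroot
  rw [hbc 0 (by omega)] at h5
  rw [h5]
  ring

end EigCh

theorem eigen_chart {k N : Type} [Field k] [NormedField N] [IsUltrametricDist N] [Algebra k N]
    {r : ℕ} (hA : Amb r k N) (hr : 0 < r) {x : Fin r → N} {y : N} (hP : Par k x y)
    (E : IntermediateField k N) (hE : Kxy k x y = E) (P : Polynomial E) (τ : N) (hEt : Et E P τ)
    (hd : τ ∈ cl E) (htop : E ⊔ IntermediateField.adjoin k {τ} = ⊤) (σ : N ≃ₐ[k] N)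
    (hiso : ∀ z, ‖σ z‖ = ‖z‖) (l : ℕ) (hl : (l : k) ≠ 0) (hσ : σ ^ l = 1) :
    ∃ (X : Fin r → N) (Y : N), Par k X Y ∧ (∀ z : N, z ∈ cl (Kxy k X Y)) ∧
      (∀ z : N, IsSeparable (Kxy k X Y) z) ∧
      (∀ i, ∃ c : k, σ (X i) = algebraMap k N c * X i) ∧
      ∃ c : k, σ Y = algebraMap k N c * Y := by
  classical
  have hl1 : 1 ≤ l := by
    rcases Nat.eq_zero_or_pos l with h | h
    · rw [h, Nat.cast_zero] at hl
      exact absurd rfl hl
    · exact h
  obtain ⟨x1, y1, G, hrf, hGS, hinv, hx1, hBst⟩ :=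
    stab_G hA hr hP E hE P τ hEt hd htop σ hiso l hl1 hσ
  obtain ⟨U, v, n, a, hU, hv, hv1, hn, ha, cY, hcY⟩ :=
    eigen hA hr hGS σ hiso l hl hσ hinv hx1 hBst
  have hP1 : Par k x1 y1 := hGS.par
  have hτ1 : ‖τ‖ < 1 := hEt.lt
  -- the coefficients
  have hco : ∀ j, ∃ (aj : Fin r → ℤ) (uj : N), j ≠ 1 → P.coeff j ≠ 0 →
      uj ∈ BB k x1 y1 τ ∧ ‖mon x1 aj‖ < 1 ∧ ((P.coeff j : E) : N) = mon x1 aj * uj := by
    intro j
    by_cases h1 : j ≠ 1 ∧ P.coeff j ≠ 0
    · obtain ⟨aj, uj, h2, h3, h4⟩ := hGS.good j h1.1 h1.2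
      refine ⟨aj, uj, fun _ _ => ⟨OO_le_BB x1 y1 τ h2, ?_, h4⟩⟩
      have h5 := hEt.cj j h1.1
      rw [h4, norm_mul, h3, mul_one] at h5
      exact h5
    · exact ⟨0, 0, fun h2 h3 => absurd ⟨h2, h3⟩ h1⟩
  choose aj uj haj using hco
  set J : Finset ℕ := P.support.filter (fun j => j ≠ 1) with hJ
  have hJmem : ∀ j, j ∈ J ↔ P.coeff j ≠ 0 ∧ j ≠ 1 := by
    intro j
    rw [hJ, Finset.mem_filter, Polynomial.mem_support_iff]
  set Z : Finset N := (Finset.univ.image U ∪ Finset.univ.image (fun i => (U i)⁻¹)) ∪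
    ({v, v⁻¹, n} ∪ J.image uj) with hZ
  set Yf : Finset (Fin r → ℤ) := {a} ∪ J.image aj with hYf
  have hZB : ∀ z ∈ Z, z ∈ BB k x1 y1 τ := by
    intro z hz
    rw [hZ, Finset.mem_union, Finset.mem_union, Finset.mem_union, Finset.mem_image,
      Finset.mem_image, Finset.mem_image, Finset.mem_insert, Finset.mem_insert,
      Finset.mem_singleton] at hz
    rcases hz with (⟨i, -, rfl⟩ | ⟨i, -, rfl⟩) | ((rfl | rfl | rfl) | ⟨j, hj, rfl⟩)
    · exact (hU i).1
    · exact inv_mem_BB (hU i).1 (hU i).2.1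
    · exact hv
    · exact inv_mem_BB hv hv1
    · exact hn
    · rw [hJmem] at hj
      exact (haj j hj.2 hj.1).1
  have hYB : ∀ b ∈ Yf, ‖mon x1 b‖ < 1 := by
    intro b hb
    rw [hYf, Finset.mem_union, Finset.mem_singleton, Finset.mem_image] at hb
    rcases hb with rfl | ⟨j, hj, rfl⟩
    · exact ha
    · rw [hJmem] at hj
      exact (haj j hj.2 hj.1).2.1
  obtain ⟨x2, hx2, hMt, hZn, hYn⟩ := perron_BB hA hP1 hτ1.le Z hZB Yf hYB
  have hP2 : Par k x2 y1 := hMt.par hP1 hx2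
  set A : Subring N := Subring.closure ((Set.range (algebraMap k N) ∪ Set.range x2) ∪ {y1, τ})
    with hAdef
  have hBn : Bn k x2 y1 τ = locV (ball N) A := rfl
  have hB1 : ∀ z ∈ Bn k x2 y1 τ, ‖z‖ ≤ 1 := fun z hz =>
    norm_le_of_mem_BB hA hP1.y1.le hτ1.le (Bn_le_BB hA hx2 hz)
  have hA1 : ∀ z ∈ A, ‖z‖ ≤ 1 := fun z hz => hB1 z (EigCh_le_loc A hz)
  have hkB : ∀ c : k, algebraMap k N c ∈ Bn k x2 y1 τ := fun c =>
    EigCh_le_loc A (Subring.subset_closure (Or.inl (Or.inl ⟨c, rfl⟩)))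
  have hxB : ∀ i, x2 i ∈ Bn k x2 y1 τ := fun i =>
    EigCh_le_loc A (Subring.subset_closure (Or.inl (Or.inr ⟨i, rfl⟩)))
  have hyB : y1 ∈ Bn k x2 y1 τ :=
    EigCh_le_loc A (Subring.subset_closure (Or.inr (Or.inl rfl)))
  have hτB : τ ∈ Bn k x2 y1 τ :=
    EigCh_le_loc A (Subring.subset_closure (Or.inr (Or.inr rfl)))
  set i0 : Fin r := ⟨0, hr⟩ with hi0
  have hmonY : ∀ b ∈ Yf, ∃ m ∈ Bn k x2 y1 τ, mon x1 b = x2 i0 * m := by
    intro b hb
    obtain ⟨β, hβ, hβ'⟩ := hYn b hb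
    rw [hβ']
    exact EigCh_monN hxB i0 (hβ i0)
  have hUB : ∀ i, U i ∈ Bn k x2 y1 τ := fun i => hZn _ (by
    rw [hZ]
    exact Finset.mem_union_left _ (Finset.mem_union_left _
      (Finset.mem_image_of_mem _ (Finset.mem_univ i))))
  have hUB' : ∀ i, (U i)⁻¹ ∈ Bn k x2 y1 τ := fun i => hZn _ (by
    rw [hZ]
    exact Finset.mem_union_left _ (Finset.mem_union_right _
      (Finset.mem_image.2 ⟨i, Finset.mem_univ i, rfl⟩)))
  have hvB : v ∈ Bn k x2 y1 τ := hZn _ (by
    rw [hZ]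
    exact Finset.mem_union_right _ (Finset.mem_union_left _ (by simp)))
  have hvB' : v⁻¹ ∈ Bn k x2 y1 τ := hZn _ (by
    rw [hZ]
    exact Finset.mem_union_right _ (Finset.mem_union_left _ (by simp)))
  have hnB : n ∈ Bn k x2 y1 τ := hZn _ (by
    rw [hZ]
    exact Finset.mem_union_right _ (Finset.mem_union_left _ (by simp)))
  -- `τ` in the ideal
  obtain ⟨bτ, hbτ, hbτ'⟩ : ∃ b ∈ Bn k x2 y1 τ, τ = x2 i0 * b := by
    refine EigCh_tau hEt hA1 hτB (hxB i0) (hx2.lt i0) ?_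
    intro j hj
    by_cases h0 : P.coeff j = 0
    · refine ⟨0, zero_mem _, ?_⟩
      rw [h0, mul_zero]
      rfl
    · obtain ⟨-, -, h3⟩ := haj j hj h0
      obtain ⟨m, hm, hm'⟩ := hmonY (aj j) (by
        rw [hYf]
        exact Finset.mem_union_right _ (Finset.mem_image_of_mem _ ((hJmem j).2 ⟨h0, hj⟩)))
      refine ⟨m * uj j, mul_mem hm (hZn _ ?_), ?_⟩
      · rw [hZ]
        exact Finset.mem_union_right _ (Finset.mem_union_right _
          (Finset.mem_image_of_mem _ ((hJmem j).2 ⟨h0, hj⟩)))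
      · rw [h3, hm', mul_assoc]
  have hgen0 : ∀ z ∈ Bn k x2 y1 τ, ‖z‖ < 1 → ∃ (b : Fin r → N) (b0 : N),
      (∀ i, b i ∈ Bn k x2 y1 τ) ∧ b0 ∈ Bn k x2 y1 τ ∧ z = ∑ i, b i * x2 i + b0 * y1 := by
    intro z hz hz1
    obtain ⟨bf, hbf0, hbf⟩ : ∃ bf : Fin r → N, bf i0 = bτ ∧ ∀ i, i ≠ i0 → bf i = 0 :=
      ⟨fun i => if i = i0 then bτ else 0, if_pos rfl, fun i hi => if_neg hi⟩
    refine Bn_gen hA hx2 hP1.y1 hτ1 ⟨bf, fun i => ?_, ?_⟩ z hz hz1
    · by_cases h : i = i0
      · rw [h, hbf0]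
        exact hbτ
      · rw [hbf i h]
        exact zero_mem _
    · rw [Finset.sum_eq_single i0 (fun i _ hi => by rw [hbf i hi, zero_mul])
        (fun h => absurd (Finset.mem_univ i0) h), hbf0, mul_comm]
      exact hbτ'
  -- the new parameters
  choose e he using hMt.inv
  set W : Fin r → N := fun i => mon U (e i) with hW
  have hWB : ∀ i, W i ∈ Bn k x2 y1 τ := fun i => EigCh_mon_mem hUB hUB' _
  have hW1 : ∀ i, ‖W i‖ = 1 := fun i => EigCh_norm_mon (fun j => (hU j).2.1) _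
  have hWB' : ∀ i, (W i)⁻¹ ∈ Bn k x2 y1 τ := fun i => EigCh_inv_loc (hWB i) (hW1 i)
  have hW0 : ∀ i, W i ≠ 0 := by
    intro i h0
    have := hW1 i
    rw [h0, norm_zero] at this
    exact zero_ne_one this
  set X : Fin r → N := fun i => x2 i * W i with hX
  have hXe : ∀ i, X i = mon (fun j => x1 j * U j) (e i) := by
    intro i
    rw [EigCh_mon_mul, ← he i]
  have hXB : ∀ i, X i ∈ Bn k x2 y1 τ := fun i => mul_mem (hxB i) (hWB i)
  have hXn : ∀ i, ‖X i‖ = ‖x2 i‖ := by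
    intro i
    simp only [hX]
    rw [norm_mul, hW1, mul_one]
  set Y : N := y1 * v + mon x1 a * n with hY
  obtain ⟨ma, hma, hma'⟩ := hmonY a (by
    rw [hYf]
    exact Finset.mem_union_left _ (Finset.mem_singleton_self a))
  have hYmem : Y ∈ Bn k x2 y1 τ := by
    rw [hY, hma']
    exact add_mem (mul_mem hyB hvB) (mul_mem (mul_mem (hxB i0) hma) hnB)
  have hY1 : ‖Y‖ < 1 := by
    rw [hY]
    apply EigCh_add_lt
    · rw [norm_mul, hv1, mul_one]
      exact hP1.y1
    · rw [norm_mul]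
      exact mul_lt_one_of_nonneg_of_lt_one_left (norm_nonneg _) ha (hB1 n hnB)
  have hv0 : v ≠ 0 := by
    rintro rfl
    rw [norm_zero] at hv1
    exact zero_ne_one hv1
  set β : Option (Fin r) → N := fun o => o.elim Y X with hβ
  have hβB : ∀ o, β o ∈ Bn k x2 y1 τ := by
    rintro (_ | i)
    · exact hYmem
    · exact hXB i
  have hβ1 : ∀ o, ‖β o‖ < 1 := by
    rintro (_ | i)
    · exact hY1
    · show ‖X i‖ < 1
      rw [hXn]
      exact hx2.lt i
  have hgen : ∀ z ∈ Bn k x2 y1 τ, ‖z‖ < 1 → ∃ b : Option (Fin r) → N,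
      (∀ o, b o ∈ Bn k x2 y1 τ) ∧ z = ∑ o, b o * β o := by
    intro z hz hz1
    obtain ⟨b, b0, hb, hb0, hzb⟩ := hgen0 z hz hz1
    refine ⟨fun o => o.elim (b0 * v⁻¹) (fun i => b i * (W i)⁻¹ -
      (if i = i0 then b0 * v⁻¹ * (n * ma * (W i)⁻¹) else 0)), ?_, ?_⟩
    · rintro (_ | i)
      · exact mul_mem hb0 hvB'
      · refine sub_mem (mul_mem (hb i) (hWB' i)) ?_
        by_cases h : i = i0
        · rw [if_pos h]
          exact mul_mem (mul_mem hb0 hvB') (mul_mem (mul_mem hnB hma) (hWB' i))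
        · rw [if_neg h]
          exact zero_mem _
    · rw [Fintype.sum_option]
      show z = b0 * v⁻¹ * Y + ∑ i, (b i * (W i)⁻¹ -
        (if i = i0 then b0 * v⁻¹ * (n * ma * (W i)⁻¹) else 0)) * (x2 i * W i)
      have e1 : ∀ i, (b i * (W i)⁻¹ -
          (if i = i0 then b0 * v⁻¹ * (n * ma * (W i)⁻¹) else 0)) * (x2 i * W i) =
          b i * x2 i - (if i = i0 then b0 * v⁻¹ * (n * ma) * x2 i else 0) := by
        intro i
        have h0 := hW0 i
        by_cases h : i = i0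
        · rw [if_pos h, if_pos h]
          field_simp
        · rw [if_neg h, if_neg h]
          field_simp
          ring
      rw [Finset.sum_congr rfl fun i _ => e1 i, Finset.sum_sub_distrib,
        Finset.sum_ite_eq' Finset.univ i0, if_pos (Finset.mem_univ i0), hzb, hY, hma']
      field_simp
      ring
  have hrange : Set.range β = Set.range X ∪ {Y} := by
    ext z
    constructor
    · rintro ⟨_ | i, rfl⟩
      · exact Or.inr rfl
      · exact Or.inl ⟨i, rfl⟩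
    · rintro (⟨i, rfl⟩ | hz)
      · exact ⟨some i, rfl⟩
      · rw [Set.mem_singleton_iff] at hz
        exact ⟨none, hz.symm⟩
  have hKXY : IntermediateField.adjoin k (Set.range β) = Kxy k X Y := by
    unfold Kxy
    rw [hrange]
  -- density
  have hdens : ∀ z ∈ Bn k x2 y1 τ, z ∈ cl (Kxy k X Y) := by
    intro z hz
    rw [← hKXY]
    exact dens hA (Bn k x2 y1 τ) (fun z hz => hB1 z hz) hkB β hβB hβ1 hgen z hz
  have hEK : Kxy k x2 y1 = E := by
    rw [(hMt.rf hA hP1 hx2).fld, hGS.fld]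
  have hdense : ∀ z : N, z ∈ cl (Kxy k X Y) := by
    have h1 : E ≤ cl (Kxy k X Y) := by
      rw [← hEK]
      exact Kxy_le _ _ (fun i => hdens _ (hxB i)) (hdens _ hyB)
    have h2 : IntermediateField.adjoin k {τ} ≤ cl (Kxy k X Y) := by
      rw [IntermediateField.adjoin_le_iff, Set.singleton_subset_iff]
      exact hdens _ hτB
    intro z
    have h3 : z ∈ (⊤ : IntermediateField k N) := IntermediateField.mem_top
    rw [← htop] at h3
    exact (sup_le h1 h2) h3
  -- separability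
  have hsep : ∀ z : N, IsSeparable (Kxy k X Y) z := by
    set Gf : Finset N := Finset.univ.image x2 ∪ {y1, τ} with hGf
    have hGc : (Gf : Set N) = Set.range x2 ∪ {y1, τ} := by
      rw [hGf]
      push_cast
      rw [Set.image_univ]
    have hloc : locV (ball N) (Subring.closure (Set.range (algebraMap k N) ∪ (Gf : Set N))) =
        Bn k x2 y1 τ := by
      rw [hGc, ← Set.union_assoc]
      rfl
    intro z
    have h1 := unram hA Gf (fun g hg => by
      rw [hGf, Finset.mem_union, Finset.mem_image, Finset.mem_insert, Finset.mem_singleton] at hg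
      rcases hg with ⟨i, -, rfl⟩ | rfl | rfl
      · exact (hx2.lt i).le
      · exact hP1.y1.le
      · exact hτ1.le) β (by rw [hloc]; exact hβB) hβ1 (by rw [hloc]; exact hgen) z (by
      have h3 : z ∈ (⊤ : IntermediateField k N) := IntermediateField.mem_top
      rw [← htop] at h3
      have h4 : E ≤ IntermediateField.adjoin k (Gf : Set N) := by
        rw [← hEK]
        refine Kxy_le _ _ (fun i => ?_) ?_
        · apply IntermediateField.subset_adjoin
          rw [hGc]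
          exact Or.inl ⟨i, rfl⟩
        · apply IntermediateField.subset_adjoin
          rw [hGc]
          exact Or.inr (Or.inl rfl)
      have h5 : IntermediateField.adjoin k {τ} ≤ IntermediateField.adjoin k (Gf : Set N) := by
        rw [IntermediateField.adjoin_le_iff, Set.singleton_subset_iff]
        apply IntermediateField.subset_adjoin
        rw [hGc]
        exact Or.inr (Or.inr rfl)
      exact (sup_le h4 h5) h3)
    rw [hKXY] at h1
    exact h1
  have halg : ∀ z : N, IsAlgebraic (Kxy k X Y) z := fun z => (hsep z).isIntegral.isAlgebraic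
  have hXind : Indep X := by
    refine ⟨fun i => mul_ne_zero (hx2.ne i) (hW0 i), fun i => ?_, fun δ hδ => ?_⟩
    · rw [hXn]
      exact hx2.lt i
    · apply hx2.indep δ
      have h1 : mon X δ = mon x2 δ * mon W δ := EigCh_mon_mul x2 W δ
      rw [h1, norm_mul, EigCh_norm_mon hW1, mul_one] at hδ
      exact hδ
  refine ⟨X, Y, ⟨hXind, hY1, ?_⟩, hdense, hsep, ?_, ?_⟩
  · exact tr_of_algebraic x2 y1 hx2.ne hP2.tr X Y hXind.ne (fun i => halg _) (halg _)
  · intro i
    choose c hc using fun j => (hU j).2.2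
    refine ⟨∏ j, c j ^ e i j, ?_⟩
    rw [hXe, EigCh_mon_map, ← EigCh_mon_alg, ← EigCh_mon_mul]
    congr 1
    funext j
    exact hc j
  · exact ⟨cY, hcY⟩

end Pool.Agent.Lib.TDO
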