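import Pool.Agent.Lib.TDO.BDefs
import Pool.Agent.Lib.TDO.Cl
import Pool.Agent.Lib.MP_3029eb_ag.AbhBase

/-!
# Module EtLem: the etale lemma

`P = c_0 + T + c_2 T^2 + ..` over `E`, `P(τ) = 0`, `‖τ‖ < 1`, `τ ∈ cl E`.
Let `R = Subring.closure ({e ∈ E | ‖e‖ ≤ 1} ∪ {τ})`, `O = locV (ball W) R`.
For `h ∈ V_E[T]` (`V_E = {e ∈ E | ‖e‖ ≤ 1}`) with `h(τ) ≠ 0` choose `t ∈ V_E` with
`‖t - τ‖ < ‖h(τ)‖` (density); `h(τ) = h(t) + (τ - t) h1`, `h1 ∈ R`, `‖h(t)‖ = ‖h(τ)‖`;
`0 = P(τ) = P(t) + (τ - t) P1`, `P1 = P1(τ, t) ∈ R`, `‖P1 - 1‖ < 1` (all `c_j`, `j ≥ 2`, small), so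
`τ - t = -P(t) / P1`, `‖P(t)‖ = ‖τ - t‖ < ‖h(t)‖`, hence `h(τ) / h(t) = 1 - (P(t)/h(t)) h1 / P1 ∈ O`
has norm one.  A general `z ≠ 0` of `E(τ)` is a quotient of two `h(τ)` (after scaling by `E`;
`E ⊔ adjoin k {τ}` is generated by `τ` over `E`).
-/

namespace Pool.Agent.Lib.TDO

open Pool.Agent.Lib.MP_3029eb_ag Pool.Agent.Lib.MP_3029eb_ag.Abh

section
variable {k W : Type} [Field k] [NormedField W] [IsUltrametricDist W] [Algebra k W]

private lemma etl_sum_lt {ι : Type} (s : Finset ι) (f : ι → W) (h : ∀ i ∈ s, ‖f i‖ < 1) :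
    ‖∑ i ∈ s, f i‖ < 1 := by
  refine Finset.sum_induction f (fun z => ‖z‖ < 1) ?_ ?_ h
  · intro a b ha hb
    exact (IsUltrametricDist.norm_add_le_max a b).trans_lt (max_lt ha hb)
  · show ‖(0 : W)‖ < 1
    rw [norm_zero]; exact one_pos

/-- difference of the values of a polynomial at two points of a subring of the unit ball -/
private lemma etl_diff (E : IntermediateField k W) (R : Subring W)
    (hR1 : ∀ z ∈ R, ‖z‖ ≤ 1) (hER : ∀ e ∈ E, ‖e‖ ≤ 1 → e ∈ R)
    (q : Polynomial E) (hq : ∀ j, ‖((q.coeff j : E) : W)‖ ≤ 1) (s t : W) (hs : s ∈ R)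
    (ht : t ∈ R) :
    ∃ m ∈ R, Polynomial.aeval s q - Polynomial.aeval t q = m * (s - t) ∧
      ((∀ j, ‖((q.coeff j : E) : W)‖ < 1) → ‖m‖ < 1) := by
  have hg : ∀ n : ℕ, (∑ i ∈ Finset.range n, s ^ i * t ^ (n - 1 - i)) ∈ R := fun n =>
    Subring.sum_mem _ fun i _ => Subring.mul_mem _ (Subring.pow_mem _ hs _)
      (Subring.pow_mem _ ht _)
  refine ⟨∑ j ∈ Finset.range (q.natDegree + 1), ((q.coeff j : E) : W) *
      (∑ i ∈ Finset.range j, s ^ i * t ^ (j - 1 - i)), ?_, ?_, ?_⟩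
  · exact Subring.sum_mem _ fun j _ =>
      Subring.mul_mem _ (hER _ (q.coeff j).2 (hq j)) (hg j)
  · rw [Polynomial.aeval_eq_sum_range, Polynomial.aeval_eq_sum_range, Finset.sum_mul,
      ← Finset.sum_sub_distrib]
    refine Finset.sum_congr rfl fun j _ => ?_
    rw [mul_assoc, geom_sum₂_mul, mul_sub]
    rfl
  · intro hlt
    refine etl_sum_lt _ _ fun j _ => ?_
    rw [norm_mul]
    calc ‖((q.coeff j : E) : W)‖ * ‖∑ i ∈ Finset.range j, s ^ i * t ^ (j - 1 - i)‖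
        ≤ ‖((q.coeff j : E) : W)‖ * 1 :=
          mul_le_mul_of_nonneg_left (hR1 _ (hg j)) (norm_nonneg _)
      _ < 1 := by rw [mul_one]; exact hlt j

/-- the value of an integral polynomial at an integral point of `E` -/
private lemma etl_val (E : IntermediateField k W) (q : Polynomial E)
    (hq : ∀ j, ‖((q.coeff j : E) : W)‖ ≤ 1) (t : W) (htE : t ∈ E) (ht : ‖t‖ ≤ 1) :
    Polynomial.aeval t q ∈ E ∧ ‖Polynomial.aeval t q‖ ≤ 1 := by
  rw [Polynomial.aeval_eq_sum_range]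
  constructor
  · exact sum_mem fun j _ => mul_mem (q.coeff j).2 (pow_mem htE _)
  · refine Finset.sum_induction _ (fun z => ‖z‖ ≤ 1) ?_ ?_ fun j _ => ?_
    · intro a b ha hb
      exact (IsUltrametricDist.norm_add_le_max a b).trans (max_le ha hb)
    · show ‖(0 : W)‖ ≤ 1
      rw [norm_zero]; exact zero_le_one
    · show ‖((q.coeff j : E) : W) * t ^ j‖ ≤ 1
      rw [norm_mul, norm_pow]
      exact mul_le_one₀ (hq j) (pow_nonneg (norm_nonneg _) _) (pow_le_one₀ (norm_nonneg _) ht)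


omit [IsUltrametricDist W] in
private lemma etl_scale (E : IntermediateField k W) (q : Polynomial E) (hq : q ≠ 0) :
    ∃ (c : E) (q' : Polynomial E), c ≠ 0 ∧ q = Polynomial.C c * q' ∧
      ∀ j, ‖((q'.coeff j : E) : W)‖ ≤ 1 := by
  have hne : q.support.Nonempty := Polynomial.support_nonempty.2 hq
  obtain ⟨i, hi, hmax⟩ := Finset.exists_max_image q.support
    (fun j => ‖((q.coeff j : E) : W)‖) hne
  have hc : q.coeff i ≠ 0 := Polynomial.mem_support_iff.1 hi
  refine ⟨q.coeff i, Polynomial.C (q.coeff i)⁻¹ * q, hc, ?_, fun j => ?_⟩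
  · rw [← mul_assoc, ← Polynomial.C_mul, mul_inv_cancel₀ hc, Polynomial.C_1, one_mul]
  · rw [Polynomial.coeff_C_mul]
    have h1 : (((q.coeff i)⁻¹ * q.coeff j : E) : W) =
        ((q.coeff i : E) : W)⁻¹ * ((q.coeff j : E) : W) := by
      push_cast; rfl
    rw [h1, norm_mul, norm_inv]
    have hc' : ((q.coeff i : E) : W) ≠ 0 := by
      intro h; exact hc (by exact_mod_cast h)
    have hpos : 0 < ‖((q.coeff i : E) : W)‖ := norm_pos_iff.2 hc'
    rcases eq_or_ne (q.coeff j) 0 with h0 | h0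
    · rw [h0]
      have : ((0 : E) : W) = 0 := rfl
      rw [this, norm_zero, mul_zero]; exact zero_le_one
    · have h2 := hmax j (Polynomial.mem_support_iff.2 h0)
      rw [inv_mul_le_iff₀ hpos, mul_one]
      exact h2


omit [IsUltrametricDist W] in
private lemma etl_poly (E : IntermediateField k W) (τ : W) (hτ : IsAlgebraic E τ) (z : W)
    (hz : z ∈ E ⊔ IntermediateField.adjoin k {τ}) :
    ∃ q : Polynomial E, z = Polynomial.aeval τ q := by
  rw [← IntermediateField.restrictScalars_adjoin_eq_sup, IntermediateField.mem_restrictScalars,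
    ← IntermediateField.mem_toSubalgebra,
    IntermediateField.adjoin_simple_toSubalgebra_of_isAlgebraic hτ,
    Algebra.adjoin_singleton_eq_range_aeval] at hz
  obtain ⟨q, hq⟩ := hz
  exact ⟨q, hq.symm⟩

end

theorem etale_unit {k W : Type} [Field k] [NormedField W] [IsUltrametricDist W] [Algebra k W]
    (E : IntermediateField k W) (P : Polynomial E) (τ : W) (h : Et E P τ) (hd : τ ∈ cl E)
    (hnt : ∃ z ∈ E, z ≠ 0 ∧ ‖z‖ < 1) (z : W) (hz : z ∈ E ⊔ IntermediateField.adjoin k {τ})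
    (h0 : z ≠ 0) :
    ∃ b ∈ E, ∃ u ∈ locV (ball W) (Subring.closure ({e : W | e ∈ E ∧ ‖e‖ ≤ 1} ∪ {τ})),
      ‖u‖ = 1 ∧ z = b * u := by
  set R : Subring W := Subring.closure ({e : W | e ∈ E ∧ ‖e‖ ≤ 1} ∪ {τ}) with hRdef
  have hER : ∀ e ∈ E, ‖e‖ ≤ 1 → e ∈ R := fun e he h1 =>
    Subring.subset_closure (Or.inl ⟨he, h1⟩)
  have hτR : τ ∈ R := Subring.subset_closure (Or.inr rfl)
  have hR1 : ∀ w ∈ R, ‖w‖ ≤ 1 := by
    have : R ≤ (ball W).toSubring := by
      rw [hRdef, Subring.closure_le]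
      rintro w (⟨-, hw⟩ | hw)
      · exact hw
      · rw [Set.mem_singleton_iff] at hw
        rw [hw]; exact h.lt.le
    intro w hw
    exact this hw
  have hτ : IsAlgebraic E τ := ⟨P, h.irr.ne_zero, h.root⟩
  obtain ⟨q, hq⟩ := etl_poly E τ hτ z hz
  have hq0 : q ≠ 0 := by
    rintro rfl
    rw [map_zero] at hq
    exact h0 hq
  obtain ⟨c, g, hc, hqg, hg1⟩ := etl_scale E q hq0
  have hz1 : z = (c : W) * Polynomial.aeval τ g := by
    rw [hq, hqg, map_mul, Polynomial.aeval_C]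
    rfl
  have hg0 : Polynomial.aeval τ g ≠ 0 := by
    intro hh
    rw [hz1, hh, mul_zero] at h0
    exact h0 rfl
  have hgpos : 0 < ‖Polynomial.aeval τ g‖ := norm_pos_iff.2 hg0
  obtain ⟨t, htE, ht⟩ := (mem_cl_iff E τ).1 hd (min ‖Polynomial.aeval τ g‖ 1)
    (lt_min hgpos one_pos)
  have ht1 : ‖τ - t‖ < ‖Polynomial.aeval τ g‖ := ht.trans_le (min_le_left _ _)
  have ht2 : ‖τ - t‖ < 1 := ht.trans_le (min_le_right _ _)
  have htn : ‖t‖ ≤ 1 := by
    have : t = τ - (τ - t) := by ring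
    rw [this, sub_eq_add_neg]
    refine (IsUltrametricDist.norm_add_le_max _ _).trans (max_le h.lt.le ?_)
    rw [norm_neg]; exact ht2.le
  have htR : t ∈ R := hER t htE htn
  -- the polynomial P - X
  have hPX : ∀ j, ‖(((P - Polynomial.X).coeff j : E) : W)‖ < 1 := by
    intro j
    rw [Polynomial.coeff_sub, Polynomial.coeff_X]
    by_cases hj : j = 1
    · subst hj
      rw [if_pos rfl, h.c1, sub_self]
      have : ((0 : E) : W) = 0 := rfl
      rw [this, norm_zero]; exact one_pos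
    · rw [if_neg (fun hh => hj hh.symm), sub_zero]
      exact h.cj j hj
  obtain ⟨m, hmR, hm, hmlt⟩ := etl_diff E R hR1 hER (P - Polynomial.X) (fun j => (hPX j).le)
    τ t hτR htR
  have hm1 : ‖m‖ < 1 := hmlt hPX
  obtain ⟨h1, hh1R, hh1, -⟩ := etl_diff E R hR1 hER g hg1 τ t hτR htR
  have hP1 : ∀ w : W, Polynomial.aeval w (P - Polynomial.X) = Polynomial.aeval w P - w := by
    intro w; rw [map_sub, Polynomial.aeval_X]
  rw [hP1, hP1, h.root] at hm
  -- P(t) = -(1 + m) (τ - t)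
  have hPt : Polynomial.aeval t P = -((1 + m) * (τ - t)) := by linear_combination -hm
  have hone : ‖1 + m‖ = 1 := by
    have h2 := IsUltrametricDist.norm_add_eq_max_of_norm_ne_norm (x := (1 : W)) (y := m)
      (by rw [norm_one]; exact hm1.ne')
    rw [h2, norm_one]; exact max_eq_left hm1.le
  have hPc : ∀ j, ‖((P.coeff j : E) : W)‖ ≤ 1 := by
    intro j
    by_cases hj : j = 1
    · rw [hj, h.c1]
      have : ((1 : E) : W) = 1 := rfl
      rw [this, norm_one]
    · exact (h.cj j hj).le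
  have hPtE := (etl_val E P hPc t htE htn).1
  have hgtE := (etl_val E g hg1 t htE htn).1
  have hgt : Polynomial.aeval τ g = Polynomial.aeval t g + h1 * (τ - t) := by
    linear_combination hh1
  have hsm : ‖h1 * (τ - t)‖ < ‖Polynomial.aeval τ g‖ := by
    rw [norm_mul]
    calc ‖h1‖ * ‖τ - t‖ ≤ 1 * ‖τ - t‖ :=
          mul_le_mul_of_nonneg_right (hR1 _ hh1R) (norm_nonneg _)
      _ < _ := by rw [one_mul]; exact ht1
  have hgtn : ‖Polynomial.aeval t g‖ = ‖Polynomial.aeval τ g‖ := by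
    have h2 : Polynomial.aeval t g = Polynomial.aeval τ g + -(h1 * (τ - t)) := by
      rw [hgt]; ring
    rw [h2]
    have h3 := IsUltrametricDist.norm_add_eq_max_of_norm_ne_norm
      (x := Polynomial.aeval τ g) (y := -(h1 * (τ - t))) (by rw [norm_neg]; exact hsm.ne')
    rw [h3, norm_neg]; exact max_eq_left hsm.le
  have hgt0 : Polynomial.aeval t g ≠ 0 := by
    rw [← norm_pos_iff, hgtn]; exact hgpos
  have hone0 : (1 + m) ≠ 0 := by
    rw [← norm_pos_iff, hone]; exact one_pos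
  -- the quotient P(t)/g(t)
  have hquo : Polynomial.aeval t P / Polynomial.aeval t g ∈ R := by
    refine hER _ (div_mem hPtE hgtE) ?_
    rw [norm_div, hPt, norm_neg, norm_mul, hone, one_mul, hgtn]
    exact (div_le_one hgpos).2 ht1.le
  refine ⟨(c : W) * Polynomial.aeval t g, mul_mem c.2 hgtE,
    Polynomial.aeval τ g / Polynomial.aeval t g, ?_, ?_, ?_⟩
  · refine ⟨(1 + m) - Polynomial.aeval t P / Polynomial.aeval t g * h1, ?_, 1 + m, ?_, ?_, ?_⟩
    · exact Subring.sub_mem _ (Subring.add_mem _ (Subring.one_mem _) hmR)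
        (Subring.mul_mem _ hquo hh1R)
    · exact Subring.add_mem _ (Subring.one_mem _) hmR
    · exact (ball_val_eq_one _).2 hone
    · rw [hPt, hgt]
      field_simp
      ring
  · rw [norm_div, hgtn, div_self hgpos.ne']
  · rw [hz1]
    field_simp

end Pool.Agent.Lib.TDO
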