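import Mathlib

/-!
# Module HenExt: extension of an absolute value by Hensel

`g` nonarchimedean on `E`, `P = c_0 + T + c_2 T^2 + ..` irreducible over `E` with all `g (c_j) < 1`
(`j ≠ 1`), `N = E(τ)`, `P(τ) = 0`.
Proof.  Let `E^` be the completion of `E` for `g` (`AbsoluteValue.Completion`, a complete normed
field; the ultrametric inequality passes to the completion).  The map
`t ↦ -(c_0 + c_2 t^2 + ..)` is a contraction of the closed ball of radius `ρ = max g (c_j) < 1`,
so `P` has a root `t` in `E^` with `‖t‖ ≤ ρ < 1`.  As `P` is irreducible, `N = E(τ) = E[T]/(P)`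
(`IntermediateField.adjoin` and `AdjoinRoot` / `minpoly` up to a constant), there is an
`E`-homomorphism `N → E^`, `τ ↦ t`.  `G` is the norm of the image.
-/

namespace Pool.Agent.Lib.TDO

section contraction

variable {K : Type*} [NormedField K] [IsUltrametricDist K]

private theorem henExt_pow_sub {t s : K} (ht : ‖t‖ ≤ 1) (hs : ‖s‖ ≤ 1) (j : ℕ) :
    ‖t ^ j - s ^ j‖ ≤ ‖t - s‖ := by
  induction j with
  | zero => simp
  | succ j ih =>
    have e : t ^ (j + 1) - s ^ (j + 1) = t * (t ^ j - s ^ j) + (t - s) * s ^ j := by ring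
    rw [e]
    refine (IsUltrametricDist.norm_add_le_max _ _).trans (max_le ?_ ?_)
    · rw [norm_mul]
      calc ‖t‖ * ‖t ^ j - s ^ j‖ ≤ 1 * ‖t - s‖ :=
            mul_le_mul ht ih (norm_nonneg _) zero_le_one
        _ = ‖t - s‖ := one_mul _
    · rw [norm_mul, norm_pow]
      exact mul_le_of_le_one_right (norm_nonneg _) (pow_le_one₀ (norm_nonneg _) hs)

private theorem henExt_eval_le {Q : Polynomial K} {ρ : ℝ} (hρ : 0 ≤ ρ)
    (hQ : ∀ j, ‖Q.coeff j‖ ≤ ρ) {t : K} (ht : ‖t‖ ≤ 1) : ‖Q.eval t‖ ≤ ρ := by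
  rw [Polynomial.eval_eq_sum_range]
  refine IsUltrametricDist.norm_sum_le_of_forall_le_of_nonneg hρ fun j _ => ?_
  rw [norm_mul, norm_pow]
  calc ‖Q.coeff j‖ * ‖t‖ ^ j ≤ ρ * 1 :=
        mul_le_mul (hQ j) (pow_le_one₀ (norm_nonneg _) ht) (by positivity) hρ
    _ = ρ := mul_one _

private theorem henExt_eval_sub_le {Q : Polynomial K} {ρ : ℝ} (hρ : 0 ≤ ρ)
    (hQ : ∀ j, ‖Q.coeff j‖ ≤ ρ) {t s : K} (ht : ‖t‖ ≤ 1) (hs : ‖s‖ ≤ 1) :
    ‖Q.eval t - Q.eval s‖ ≤ ρ * ‖t - s‖ := by
  rw [Polynomial.eval_eq_sum_range, Polynomial.eval_eq_sum_range, ← Finset.sum_sub_distrib]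
  refine IsUltrametricDist.norm_sum_le_of_forall_le_of_nonneg (by positivity) fun j _ => ?_
  rw [← mul_sub, norm_mul]
  exact mul_le_mul (hQ j) (henExt_pow_sub ht hs j) (norm_nonneg _) hρ

private theorem henExt_root [CompleteSpace K] {Q : Polynomial K} {ρ : ℝ} (hρ : 0 ≤ ρ)
    (hρ1 : ρ < 1) (hQ : ∀ j, ‖Q.coeff j‖ ≤ ρ) : ∃ t : K, ‖t‖ ≤ ρ ∧ Q.eval t = t := by
  have hsc : IsComplete (Metric.closedBall (0 : K) ρ) := Metric.isClosed_closedBall.isComplete
  have hmem : ∀ {t : K}, t ∈ Metric.closedBall (0 : K) ρ → ‖t‖ ≤ ρ := fun {t} ht => by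
    simpa using ht
  have hmaps : Set.MapsTo (fun t => Q.eval t) (Metric.closedBall (0 : K) ρ)
      (Metric.closedBall (0 : K) ρ) := by
    intro t ht
    have h := henExt_eval_le hρ hQ ((hmem ht).trans hρ1.le)
    simpa using h
  have hc : ContractingWith (⟨ρ, hρ⟩ : NNReal)
      (hmaps.restrict (fun t => Q.eval t) (Metric.closedBall (0 : K) ρ)
        (Metric.closedBall (0 : K) ρ)) := by
    refine ⟨?_, ?_⟩
    · exact_mod_cast hρ1
    · refine LipschitzWith.of_dist_le_mul fun x y => ?_
      rw [Subtype.dist_eq, Subtype.dist_eq, dist_eq_norm, dist_eq_norm]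
      exact henExt_eval_sub_le hρ hQ ((hmem x.2).trans hρ1.le) ((hmem y.2).trans hρ1.le)
  obtain ⟨y, hy, hfix, -, -⟩ := ContractingWith.exists_fixedPoint' hsc hmaps hc
    (x := 0) (by simpa using hρ) (edist_ne_top _ _)
  exact ⟨y, hmem hy, hfix⟩

end contraction

theorem hen_ext {E N : Type} [Field E] [Field N] [Algebra E N] (g : AbsoluteValue E ℝ)
    (hg : ∀ a b, g (a + b) ≤ max (g a) (g b)) (P : Polynomial E) (hirr : Irreducible P)
    (h1 : P.coeff 1 = 1) (hj : ∀ j, j ≠ 1 → g (P.coeff j) < 1) (τ : N)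
    (hroot : Polynomial.aeval τ P = 0) (htop : IntermediateField.adjoin E {τ} = ⊤) :
    ∃ G : AbsoluteValue N ℝ, (∀ a b, G (a + b) ≤ max (G a) (G b)) ∧
      (∀ e : E, G (algebraMap E N e) = g e) ∧ G τ < 1 := by
  classical
  -- the completion
  let i : E →+* g.Completion :=
    (UniformSpace.Completion.coeRingHom).comp (WithAbs.equiv g).symm.toRingHom
  have hi : ∀ e : E, ‖i e‖ = g e := by
    intro e
    have h : i e = ((WithAbs.toAbs g e : WithAbs g) : g.Completion) := rfl
    rw [h, UniformSpace.Completion.norm_coe]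
    rfl
  have hnat : ∀ n : ℕ, g n ≤ 1 := by
    intro n
    induction n with
    | zero => simp
    | succ n ih =>
      push_cast
      exact (hg _ _).trans (max_le ih (by rw [map_one]))
  haveI : IsUltrametricDist g.Completion := by
    refine isUltrametricDist_iff_forall_norm_natCast_le_one.2 fun n => ?_
    rw [← map_natCast i n, hi]
    exact hnat n
  letI : Algebra E g.Completion := i.toAlgebra
  have halg : ∀ e : E, algebraMap E g.Completion e = i e := fun e => rfl
  -- the contraction
  obtain ⟨ρ, hρ0, hρ1, hρ⟩ : ∃ ρ : ℝ, 0 ≤ ρ ∧ ρ < 1 ∧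
      ∀ j, ‖(Polynomial.X - P.map i).coeff j‖ ≤ ρ := by
    let s : Finset ℕ := (Finset.range (P.natDegree + 1)).filter (fun j => j ≠ 1)
    let f : ℕ → NNReal := fun j => ⟨g (P.coeff j), g.nonneg _⟩
    have hlt : s.sup f < 1 := by
      refine (Finset.sup_lt_iff (by exact zero_lt_one)).2 fun j hjs => ?_
      have h := hj j (Finset.mem_filter.1 hjs).2
      exact_mod_cast h
    refine ⟨((s.sup f : NNReal) : ℝ), NNReal.coe_nonneg _, by exact_mod_cast hlt, fun j => ?_⟩
    rw [Polynomial.coeff_sub, Polynomial.coeff_map]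
    by_cases hj1 : j = 1
    · subst hj1
      rw [h1, map_one, Polynomial.coeff_X_one, sub_self, norm_zero]
      exact NNReal.coe_nonneg _
    · rw [Polynomial.coeff_X_of_ne_one hj1, zero_sub, norm_neg, hi]
      by_cases hjs : j ∈ s
      · have h : f j ≤ s.sup f := Finset.le_sup hjs
        exact_mod_cast h
      · have h0 : P.coeff j = 0 := by
          refine Polynomial.coeff_eq_zero_of_natDegree_lt ?_
          by_contra hcon
          exact hjs (Finset.mem_filter.2 ⟨Finset.mem_range.2 (by omega), hj1⟩)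
        rw [h0, map_zero]
        exact NNReal.coe_nonneg _
  obtain ⟨t, ht, hfix⟩ := henExt_root hρ0 hρ1 hρ
  have htP : Polynomial.aeval t P = 0 := by
    rw [Polynomial.eval_sub, Polynomial.eval_X] at hfix
    have h : (P.map i).eval t = 0 := by
      have h2 : t - (P.map i).eval t - t = 0 := by rw [hfix, sub_self]
      have h3 : t - (P.map i).eval t - t = -((P.map i).eval t) := by ring
      rw [h3] at h2
      exact neg_eq_zero.1 h2
    rw [← Polynomial.eval_map_algebraMap]
    exact h
  -- the homomorphism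
  have hP0 : P ≠ 0 := hirr.ne_zero
  have hint : IsIntegral E τ := by
    rw [← isAlgebraic_iff_isIntegral]
    exact ⟨P, hP0, hroot⟩
  have hassoc : Associated (minpoly E τ) P :=
    (minpoly.irreducible hint).associated_of_dvd hirr (minpoly.dvd E τ hroot)
  have htm : Polynomial.aeval t (minpoly E τ) = 0 := by
    obtain ⟨u, hu⟩ := hassoc.symm
    rw [← hu, map_mul, htP, zero_mul]
  let pb := IntermediateField.adjoin.powerBasis hint
  have hgen : minpoly E pb.gen = minpoly E τ := by
    change minpoly E (IntermediateField.adjoin.powerBasis hint).gen = minpoly E τ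
    rw [IntermediateField.adjoin.powerBasis_gen]
    exact IntermediateField.minpoly_gen E τ
  let φ₀ : IntermediateField.adjoin E {τ} →ₐ[E] g.Completion :=
    pb.lift t (by rw [hgen]; exact htm)
  let ψ : N →ₐ[E] IntermediateField.adjoin E {τ} :=
    ((IntermediateField.equivOfEq htop.symm).toAlgHom).comp
      (IntermediateField.topEquiv (F := E) (E := N)).symm.toAlgHom
  let φ : N →ₐ[E] g.Completion := φ₀.comp ψ
  have hφτ : φ τ = t := by
    have h2 : ψ τ = pb.gen := by
      change ψ τ = (IntermediateField.adjoin.powerBasis hint).gen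
      rw [IntermediateField.adjoin.powerBasis_gen]
      rfl
    change φ₀ (ψ τ) = t
    rw [h2]
    exact PowerBasis.lift_gen _ _ _
  refine ⟨{ toFun := fun z => ‖φ z‖
            map_mul' := fun a b => by rw [map_mul, norm_mul]
            nonneg' := fun z => norm_nonneg _
            eq_zero' := fun z => by
              rw [norm_eq_zero]
              exact map_eq_zero φ
            add_le' := fun a b => by
              rw [map_add]
              exact norm_add_le _ _ }, ?_, ?_, ?_⟩
  · intro a b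
    change ‖φ (a + b)‖ ≤ max ‖φ a‖ ‖φ b‖
    rw [map_add]
    exact IsUltrametricDist.norm_add_le_max _ _
  · intro e
    change ‖φ (algebraMap E N e)‖ = g e
    rw [AlgHom.commutes, halg, hi]
  · change ‖φ τ‖ < 1
    rw [hφτ]
    exact ht.trans_lt hρ1

end Pool.Agent.Lib.TDO
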