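import Pool.Agent.Lib.TDO.GDefs
import Pool.Agent.Lib.TDO.HenExt

/-!
# Module ExG: existence of the Gauss norm on `N = k(x, y)(τ)`

`exists_gauss_field` gives `g` on `Kxy k x y = E`; a coefficient `P.coeff j = mon x a * u`, `u ∈ OO`,
`‖u‖ = 1`: `u = n / d`, `n, d ∈ LO` of norm one, `n = ev P1`, all exponents of norm `≤ 1`, constant
coefficient nonzero, so `gauss = 1`: `g u = 1`, `g (P.coeff j) = ‖mon x a‖ = ‖P.coeff j‖ < 1`.
`hen_ext`; `IntermediateField.adjoin E {τ} = ⊤` from `htop`.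
-/

namespace Pool.Agent.Lib.TDO

open Pool.Agent.Lib.MP_3029eb_ag Pool.Agent.Lib.MP_3029eb_ag.Abh

theorem exists_GS {k N : Type} [Field k] [NormedField N] [IsUltrametricDist N] [Algebra k N]
    {r : ℕ} (hA : Amb r k N) {x : Fin r → N} {y : N} (hP : Par k x y)
    (E : IntermediateField k N) (hE : Kxy k x y = E) (P : Polynomial E) (τ : N) (hEt : Et E P τ)
    (hgood : ∀ j, j ≠ 1 → P.coeff j ≠ 0 → Mo (OO k x y) x ((P.coeff j : E) : N))
    (htop : E ⊔ IntermediateField.adjoin k {τ} = ⊤) :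
    ∃ G : AbsoluteValue N ℝ, GS k x y E P τ G := by
  classical
  subst hE
  obtain ⟨g, hg, hgv⟩ := exists_gauss_field (x := x) (y := y) hP
  have hx : ∀ i, x i ≠ 0 := hP.ind.ne
  have hy : ‖y‖ ≤ 1 := hP.y1.le
  -- elements of `LO` of norm one
  have hLO : ∀ z : Kxy k x y, (z : N) ∈ LO k x y → ‖(z : N)‖ = 1 → g z = 1 := by
    intro z hz hz1
    obtain ⟨Q, hQ, hzQ⟩ := (mem_LO_iff hx (z : N)).1 hz
    rw [hgv Q z hzQ]
    refine le_antisymm ?_ ?_
    · have h : gauss x Q ≤ 1 := by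
        unfold gauss
        refine Finset.sup_le fun m hm => ?_
        have h2 := hQ m.1 m.2 (Finsupp.mem_support_iff.1 hm)
        exact_mod_cast h2
      exact_mod_cast h
    · have h := norm_ev_le_gauss (x := x) (y := y) hA hy Q
      rw [← hzQ, hz1] at h
      exact h
  -- elements of `OO` of norm one
  have hOO : ∀ z : Kxy k x y, (z : N) ∈ OO k x y → ‖(z : N)‖ = 1 → g z = 1 := by
    intro z hz hz1
    obtain ⟨a, ha, b, hb, hb1, hab⟩ := hz
    rw [ball_val_eq_one] at hb1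
    have ha1 : ‖a‖ = 1 := by rw [← hab, norm_mul, hz1, hb1, one_mul]
    have haK : a ∈ Kxy k x y := OO_le_Kxy (LO_le_OO hA hy ha)
    have hbK : b ∈ Kxy k x y := OO_le_Kxy (LO_le_OO hA hy hb)
    have e : z * (⟨b, hbK⟩ : Kxy k x y) = ⟨a, haK⟩ := Subtype.ext hab
    have h := congrArg g e
    rw [map_mul, hLO ⟨b, hbK⟩ hb hb1, hLO ⟨a, haK⟩ ha ha1, mul_one] at h
    exact h
  -- monomials
  have hmon : ∀ a : Fin r → ℤ, g ⟨mon x a, mon_mem_Kxy x y a⟩ = ‖mon x a‖ := by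
    intro a
    have h1 : ((⟨mon x a, mon_mem_Kxy x y a⟩ : Kxy k x y) : N) =
        ev x y (AddMonoidAlgebra.single (a, 0) 1 : LP k r) := by
      rw [ev_single, map_one, pow_zero, mul_one, one_mul]
    rw [hgv _ _ h1]
    exact gauss_single a 0 1 one_ne_zero
  have hj : ∀ j, j ≠ 1 → g (P.coeff j) < 1 := by
    intro j hj1
    by_cases h0 : P.coeff j = 0
    · rw [h0, map_zero]
      exact zero_lt_one
    · obtain ⟨a, u, hu, hu1, hau⟩ := hgood j hj1 h0
      have huK : u ∈ Kxy k x y := OO_le_Kxy hu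
      have e : P.coeff j = (⟨mon x a, mon_mem_Kxy x y a⟩ : Kxy k x y) * ⟨u, huK⟩ :=
        Subtype.ext hau
      have h1 : ‖((P.coeff j : Kxy k x y) : N)‖ = ‖mon x a‖ := by
        rw [hau, norm_mul, hu1, mul_one]
      rw [e, map_mul, hmon, hOO ⟨u, huK⟩ hu hu1, mul_one, ← h1]
      exact hEt.cj j hj1
  have htop' : IntermediateField.adjoin (Kxy k x y) {τ} = ⊤ := by
    rw [← IntermediateField.restrictScalars_eq_top_iff (K := k), eq_top_iff, ← htop]
    refine sup_le ?_ ?_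
    · intro z hz
      exact (IntermediateField.adjoin (Kxy k x y) {τ}).algebraMap_mem ⟨z, hz⟩
    · rw [IntermediateField.adjoin_le_iff]
      rintro z hz
      rw [Set.mem_singleton_iff] at hz
      subst hz
      exact IntermediateField.subset_adjoin (Kxy k x y) {z} (Set.mem_singleton z)
  obtain ⟨G, hG1, hG2, hG3⟩ := hen_ext g hg P hEt.irr hEt.c1 hj τ hEt.root htop'
  refine ⟨G, ⟨hP, rfl, hEt, hgood, hG1, fun Q => ?_, hG3⟩⟩
  have hQK : ev x y Q ∈ Kxy k x y := LL_le_Kxy x y ((mem_LL_iff x y hx _).2 ⟨Q, rfl⟩)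
  have h := hG2 ⟨ev x y Q, hQK⟩
  rw [hgv Q ⟨ev x y Q, hQK⟩ rfl] at h
  exact h

end Pool.Agent.Lib.TDO
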