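import Pool.Agent.Lib.TDO.Gauss
import Pool.Agent.Lib.TDO.BDefs

/-!
# Definitions for the tame descent: good stages with Gauss norm
-/

namespace Pool.Agent.Lib.TDO

open Pool.Agent.Lib.MP_3029eb_ag Pool.Agent.Lib.MP_3029eb_ag.Abh

/-- A good stage `(x, y)` for the equation `P(τ) = 0` over `E = k(x, y)`: the coefficients are
monomial, and `G` is the Gauss norm, extended to `N ∋ τ` with `G τ < 1`. -/
structure GS (k : Type) {N : Type} [Field k] [NormedField N] [IsUltrametricDist N] [Algebra k N]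
    {r : ℕ} (x : Fin r → N) (y : N) (E : IntermediateField k N) (P : Polynomial E) (τ : N)
    (G : AbsoluteValue N ℝ) : Prop where
  par : Par k x y
  fld : Kxy k x y = E
  et : Et E P τ
  good : ∀ j, j ≠ 1 → P.coeff j ≠ 0 → Mo (OO k x y) x ((P.coeff j : E) : N)
  na : ∀ a b, G (a + b) ≤ max (G a) (G b)
  ev : ∀ Q : LP k r, G (ev x y Q) = gauss x Q
  lt : G τ < 1

end Pool.Agent.Lib.TDO
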