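import Pool.Agent.Lib.TDO.Ev

/-!
# Module Gauss: the Gauss norm of Laurent polynomials

`gauss x P` is the largest norm `‖mon x a‖` of an exponent `(a, j)` in the support of `P`.
Multiplicativity: if `Lead x P a0 d` and `Lead x Q b0 e` then `Lead x (P * Q) (a0 + b0) (d + e)`:
the coefficient of `P * Q` at `(a0 + b0, d + e)` is the product of the two leading coefficients,
because `a + b = a0 + b0` with `‖mon x a‖ ≤ ‖mon x a0‖`, `‖mon x b‖ ≤ ‖mon x b0‖` forces `a = a0`,
`b = b0` (independence), and then `i + j = d + e`, `i ≥ d`, `j ≥ e`.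
-/

namespace Pool.Agent.Lib.TDO

open Pool.Agent.Lib.MP_3029eb_ag Pool.Agent.Lib.MP_3029eb_ag.Abh

/-- The Gauss norm. -/
noncomputable def gauss {k W : Type} [Field k] [NormedField W] {r : ℕ} (x : Fin r → W)
    (P : LP k r) : NNReal :=
  P.coeff.support.sup fun m => ‖mon x m.1‖₊

section
variable {k W : Type} [Field k] [NormedField W] {r : ℕ} {x : Fin r → W}

theorem gauss_eq_zero_iff (hx : ∀ i, x i ≠ 0) (P : LP k r) : gauss x P = 0 ↔ P = 0 := by
  constructor
  · intro h
    by_contra hP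
    have h0 : P.coeff.support.Nonempty := by
      rw [Finsupp.support_nonempty_iff]
      exact fun h => hP (AddMonoidAlgebra.coeff_eq_zero.1 h)
    obtain ⟨m, hm⟩ := h0
    have h1 : ‖mon x m.1‖₊ ≤ gauss x P :=
      Finset.le_sup (f := fun m : (Fin r → ℤ) × ℕ => ‖mon x m.1‖₊) hm
    rw [h] at h1
    have h2 : ‖mon x m.1‖₊ = 0 := le_antisymm h1 zero_le
    exact mon_ne x hx m.1 (nnnorm_eq_zero.1 h2)
  · rintro rfl
    unfold gauss
    rw [AddMonoidAlgebra.coeff_zero, Finsupp.support_zero, Finset.sup_empty]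
    rfl

theorem gauss_add_le (P Q : LP k r) : gauss x (P + Q) ≤ max (gauss x P) (gauss x Q) := by
  unfold gauss
  refine Finset.sup_le fun m hm => ?_
  have h1 : (P + Q).coeff m ≠ 0 := Finsupp.mem_support_iff.1 hm
  rw [AddMonoidAlgebra.coeff_add, Finsupp.add_apply] at h1
  by_cases h2 : P.coeff m = 0
  · have h3 : Q.coeff m ≠ 0 := by
      intro h4
      rw [h2, h4, add_zero] at h1
      exact h1 rfl
    exact le_max_of_le_right (Finset.le_sup (f := fun m : (Fin r → ℤ) × ℕ => ‖mon x m.1‖₊)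
      (Finsupp.mem_support_iff.2 h3))
  · exact le_max_of_le_left (Finset.le_sup (f := fun m : (Fin r → ℤ) × ℕ => ‖mon x m.1‖₊)
      (Finsupp.mem_support_iff.2 h2))

theorem gauss_lead {P : LP k r} {a0 : Fin r → ℤ} {d : ℕ} (h : Lead x P a0 d) :
    (gauss x P : ℝ) = ‖mon x a0‖ := by
  have h1 : gauss x P = ‖mon x a0‖₊ := by
    apply le_antisymm
    · refine Finset.sup_le fun m hm => ?_
      exact h.max m.1 m.2 (Finsupp.mem_support_iff.1 hm)
    · exact Finset.le_sup (f := fun m : (Fin r → ℤ) × ℕ => ‖mon x m.1‖₊)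
        (Finsupp.mem_support_iff.2 h.mem)
  rw [h1]
  rfl

private theorem gauss_exists_lead (P : LP k r) (hP : P ≠ 0) : ∃ a0 d, Lead x P a0 d := by
  classical
  have h0 : P.coeff.support.Nonempty := by
    rw [Finsupp.support_nonempty_iff]
    exact fun h => hP (AddMonoidAlgebra.coeff_eq_zero.1 h)
  obtain ⟨m, hm, hmax⟩ := Finset.exists_max_image P.coeff.support (fun m => ‖mon x m.1‖) h0
  have hex : ∃ j, P.coeff (m.1, j) ≠ 0 := ⟨m.2, Finsupp.mem_support_iff.1 hm⟩
  exact ⟨m.1, Nat.find hex, Nat.find_spec hex,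
    fun a j haj => hmax (a, j) (Finsupp.mem_support_iff.2 haj),
    fun j hj => Nat.find_min' hex hj⟩

private theorem gauss_coeff_mul (P Q : LP k r) (m : (Fin r → ℤ) × ℕ) :
    (P * Q).coeff m = ∑ m1 ∈ P.coeff.support, ∑ m2 ∈ Q.coeff.support,
      if m1 + m2 = m then P.coeff m1 * Q.coeff m2 else 0 := by
  classical
  rw [AddMonoidAlgebra.coeff_mul]
  unfold Finsupp.sum
  refine Finset.sum_congr rfl fun m1 _ => Finset.sum_congr rfl fun m2 _ => ?_
  by_cases hh : m1 + m2 = m
  · simp only [if_pos hh]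
  · simp only [if_neg hh]

private theorem gauss_key (hx : Indep x) {P Q : LP k r} {a0 b0 : Fin r → ℤ} {d e : ℕ}
    (h : Lead x P a0 d) (h' : Lead x Q b0 e) {m1 m2 : (Fin r → ℤ) × ℕ}
    (h1 : P.coeff m1 ≠ 0) (h2 : Q.coeff m2 ≠ 0) (hs : m1.1 + m2.1 = a0 + b0) :
    m1.1 = a0 ∧ m2.1 = b0 := by
  have g1 := h.max m1.1 m1.2 h1
  have g2 := h'.max m2.1 m2.2 h2
  have g3 : ‖mon x m1.1‖ * ‖mon x m2.1‖ = ‖mon x a0‖ * ‖mon x b0‖ := by
    rw [← norm_mul, ← norm_mul, ← mon_add x hx.ne, ← mon_add x hx.ne, hs]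
  have p1 : 0 < ‖mon x m1.1‖ := norm_pos_iff.2 (mon_ne x hx.ne _)
  have p2 : 0 < ‖mon x m2.1‖ := norm_pos_iff.2 (mon_ne x hx.ne _)
  have p3 : 0 < ‖mon x a0‖ := norm_pos_iff.2 (mon_ne x hx.ne _)
  have p4 : 0 < ‖mon x b0‖ := norm_pos_iff.2 (mon_ne x hx.ne _)
  have e1 : ‖mon x m1.1‖ = ‖mon x a0‖ := by
    apply le_antisymm g1
    by_contra hlt
    push Not at hlt
    have : ‖mon x m1.1‖ * ‖mon x m2.1‖ < ‖mon x a0‖ * ‖mon x b0‖ :=
      mul_lt_mul hlt g2 p2 p3.le
    rw [g3] at this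
    exact lt_irrefl _ this
  have e2 : ‖mon x m2.1‖ = ‖mon x b0‖ := by
    rw [e1] at g3
    exact mul_left_cancel₀ p3.ne' g3
  exact ⟨norm_mon_inj hx e1, norm_mon_inj hx e2⟩

theorem lead_mul (hx : Indep x) {P Q : LP k r} {a0 b0 : Fin r → ℤ} {d e : ℕ}
    (h : Lead x P a0 d) (h' : Lead x Q b0 e) : Lead x (P * Q) (a0 + b0) (d + e) := by
  classical
  have hsupp : ∀ m, (P * Q).coeff m ≠ 0 → ∃ m1 m2, P.coeff m1 ≠ 0 ∧ Q.coeff m2 ≠ 0 ∧
      m1 + m2 = m := by
    intro m hm
    rw [gauss_coeff_mul] at hm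
    obtain ⟨m1, hm1, hm1'⟩ := Finset.exists_ne_zero_of_sum_ne_zero hm
    obtain ⟨m2, hm2, hm2'⟩ := Finset.exists_ne_zero_of_sum_ne_zero hm1'
    refine ⟨m1, m2, Finsupp.mem_support_iff.1 hm1, Finsupp.mem_support_iff.1 hm2, ?_⟩
    by_contra hne
    rw [if_neg hne] at hm2'
    exact hm2' rfl
  refine ⟨?_, ?_, ?_⟩
  · rw [gauss_coeff_mul]
    have h1 : (∑ m1 ∈ P.coeff.support, ∑ m2 ∈ Q.coeff.support,
        if m1 + m2 = (a0 + b0, d + e) then P.coeff m1 * Q.coeff m2 else 0) =
        P.coeff (a0, d) * Q.coeff (b0, e) := by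
      rw [Finset.sum_eq_single (a0, d)]
      · rw [Finset.sum_eq_single (b0, e)]
        · rw [if_pos (by rfl)]
        · intro m2 hm2 hne
          rw [if_neg]
          intro heq
          apply hne
          have h2 := congrArg Prod.fst heq
          have h3 := congrArg Prod.snd heq
          simp only [Prod.fst_add, Prod.snd_add] at h2 h3
          exact Prod.ext (add_left_cancel h2) (by simpa using h3)
        · intro hn
          exact absurd (Finsupp.mem_support_iff.2 h'.mem) hn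
      · intro m1 hm1 hne
        refine Finset.sum_eq_zero fun m2 hm2 => ?_
        rw [if_neg]
        intro heq
        apply hne
        have h2 := congrArg Prod.fst heq
        have h3 := congrArg Prod.snd heq
        simp only [Prod.fst_add, Prod.snd_add] at h2 h3
        have hc1 := Finsupp.mem_support_iff.1 hm1
        have hc2 := Finsupp.mem_support_iff.1 hm2
        obtain ⟨g1, g2⟩ := gauss_key hx h h' hc1 hc2 h2
        have g3 : d ≤ m1.2 := h.min m1.2 (by rw [← g1]; exact hc1)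
        have g4 : e ≤ m2.2 := h'.min m2.2 (by rw [← g2]; exact hc2)
        exact Prod.ext g1 (by show m1.2 = d; omega)
      · intro hn
        exact absurd (Finsupp.mem_support_iff.2 h.mem) hn
    rw [h1]
    exact mul_ne_zero h.mem h'.mem
  · intro a j haj
    obtain ⟨m1, m2, hm1, hm2, hm⟩ := hsupp (a, j) haj
    have h2 : m1.1 + m2.1 = a := congrArg Prod.fst hm
    rw [← h2, mon_add x hx.ne, mon_add x hx.ne, norm_mul, norm_mul]
    exact mul_le_mul (h.max m1.1 m1.2 hm1) (h'.max m2.1 m2.2 hm2) (norm_nonneg _) (norm_nonneg _)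
  · intro j hj
    obtain ⟨m1, m2, hm1, hm2, hm⟩ := hsupp _ hj
    have h2 : m1.1 + m2.1 = a0 + b0 := congrArg Prod.fst hm
    have h3 : m1.2 + m2.2 = j := congrArg Prod.snd hm
    obtain ⟨g1, g2⟩ := gauss_key hx h h' hm1 hm2 h2
    have g3 : d ≤ m1.2 := h.min m1.2 (by rw [← g1]; exact hm1)
    have g4 : e ≤ m2.2 := h'.min m2.2 (by rw [← g2]; exact hm2)
    omega

theorem gauss_mul (hx : Indep x) (P Q : LP k r) : gauss x (P * Q) = gauss x P * gauss x Q := by
  by_cases hP : P = 0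
  · rw [hP, zero_mul, (gauss_eq_zero_iff hx.ne (0 : LP k r)).2 rfl, zero_mul]
  by_cases hQ : Q = 0
  · rw [hQ, mul_zero, (gauss_eq_zero_iff hx.ne (0 : LP k r)).2 rfl, mul_zero]
  obtain ⟨a0, d, h⟩ := gauss_exists_lead (x := x) P hP
  obtain ⟨b0, e, h'⟩ := gauss_exists_lead (x := x) Q hQ
  apply NNReal.coe_injective
  rw [NNReal.coe_mul, gauss_lead h, gauss_lead h', gauss_lead (lead_mul hx h h'),
    mon_add x hx.ne, norm_mul]

theorem gauss_single (a : Fin r → ℤ) (j : ℕ) (c : k) (hc : c ≠ 0) :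
    (gauss x (AddMonoidAlgebra.single (a, j) c : LP k r) : ℝ) = ‖mon x a‖ := by
  unfold gauss
  rw [AddMonoidAlgebra.coeff_single, Finsupp.support_single _ hc, Finset.sup_singleton]
  rfl

end

section
variable {k W : Type} [Field k] [NormedField W] [IsUltrametricDist W] [Algebra k W] {r : ℕ}
  {x : Fin r → W} {y : W}

theorem norm_ev_le_gauss (hA : Amb r k W) (hy : ‖y‖ ≤ 1) (P : LP k r) :
    ‖ev x y P‖ ≤ gauss x P := by
  refine norm_ev_le hA P (gauss x P) (NNReal.coe_nonneg _) fun a j haj => ?_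
  have h1 : ‖mon x a‖₊ ≤ gauss x P :=
    Finset.le_sup (f := fun m : (Fin r → ℤ) × ℕ => ‖mon x m.1‖₊) (Finsupp.mem_support_iff.2 haj)
  have h2 : ‖mon x a‖ ≤ (gauss x P : ℝ) := h1
  rw [norm_mul, norm_pow]
  calc ‖mon x a‖ * ‖y‖ ^ j ≤ ‖mon x a‖ * 1 :=
        mul_le_mul_of_nonneg_left (pow_le_one₀ (norm_nonneg _) hy) (norm_nonneg _)
    _ = ‖mon x a‖ := mul_one _
    _ ≤ gauss x P := h2

/-- Equality exactly when `d = 0` (`lead_zero`, `norm_ev_le_lead`, `exists_lead`). -/
theorem norm_ev_eq_gauss (hA : Amb r k W) (hx : Indep x) (hy : ‖y‖ < 1) (P : LP k r)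
    (hP : P ≠ 0) (h : ‖ev x y P‖ = gauss x P) : Mo (OO k x y) x (ev x y P) := by
  obtain ⟨a0, d, hl⟩ := exists_lead hx P hP
  obtain ⟨h1, h2⟩ := norm_ev_le_lead hA hx hy hl
  rw [h, gauss_lead hl] at h2
  have hd : d = 0 := by
    by_contra hd
    exact lt_irrefl _ (h2 (by omega))
  subst hd
  exact (lead_zero hA hx hy hl).1

/-- The Gauss norm defines an absolute value on the field `k(x, y)`: `ev x y` is injective
(`Par.tr`), so `ev x y P ↦ gauss x P` is well defined and multiplicative on `LL k x y`, and extends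
to the quotients `n / d`. -/
theorem exists_gauss_field (hP : Par k x y) :
    ∃ g : AbsoluteValue (Kxy k x y) ℝ, (∀ a b, g (a + b) ≤ max (g a) (g b)) ∧
      ∀ (P : LP k r) (z : Kxy k x y), (z : W) = ev x y P → g z = gauss x P := by
  have hx := hP.ind
  have hne := hx.ne
  have hev : ∀ P : LP k r, P ≠ 0 → ev x y P ≠ 0 := fun P h1 h2 => h1 (hP.tr P h2)
  have hex : ∀ z : Kxy k x y, ∃ N D : LP k r, D ≠ 0 ∧ (z : W) * ev x y D = ev x y N := by
    intro z
    obtain ⟨n, hn, d, hd, hd0, hz⟩ := (mem_Kxy_iff x y (z : W)).1 z.2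
    obtain ⟨N, rfl⟩ := (mem_LL_iff x y hne n).1 hn
    obtain ⟨D, rfl⟩ := (mem_LL_iff x y hne d).1 hd
    refine ⟨N, D, ?_, hz⟩
    rintro rfl
    exact hd0 (ev_zero x y)
  have hgpos : ∀ P : LP k r, P ≠ 0 → 0 < gauss x P := by
    intro P h1
    have h0 : (0 : NNReal) ≤ gauss x P := zero_le
    rcases h0.lt_or_eq with h | h
    · exact h
    · exact absurd ((gauss_eq_zero_iff hne P).1 h.symm) h1
  have hmulne : ∀ P Q : LP k r, P ≠ 0 → Q ≠ 0 → P * Q ≠ 0 := by
    intro P Q h1 h2 h3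
    have h4 := (gauss_eq_zero_iff hne (P * Q)).2 h3
    rw [gauss_mul hx] at h4
    exact (mul_pos (hgpos P h1) (hgpos Q h2)).ne' h4
  choose N D hD hND using hex
  -- well defined
  have hwd : ∀ (z : Kxy k x y) (N' D' : LP k r), D' ≠ 0 → (z : W) * ev x y D' = ev x y N' →
      gauss x (N z) / gauss x (D z) = gauss x N' / gauss x D' := by
    intro z N' D' hD' hz
    have h1 : N z * D' = N' * D z := by
      have h2 : ev x y (N z * D' - N' * D z) = 0 := by
        rw [ev_sub, ev_mul x y hne, ev_mul x y hne, ← hND z, ← hz]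
        ring
      exact sub_eq_zero.1 (hP.tr _ h2)
    rw [div_eq_div_iff (hgpos _ (hD z)).ne' (hgpos _ hD').ne', ← gauss_mul hx, ← gauss_mul hx, h1]
  have hmul : ∀ z z' : Kxy k x y, gauss x (N (z * z')) / gauss x (D (z * z')) =
      gauss x (N z) / gauss x (D z) * (gauss x (N z') / gauss x (D z')) := by
    intro z z'
    rw [hwd (z * z') (N z * N z') (D z * D z') (hmulne _ _ (hD z) (hD z')) (by
      rw [ev_mul x y hne, ev_mul x y hne, ← hND z, ← hND z']
      show ((z : W) * (z' : W)) * _ = _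
      ring), gauss_mul hx, gauss_mul hx, div_mul_div_comm]
  have hadd : ∀ z z' : Kxy k x y, gauss x (N (z + z')) / gauss x (D (z + z')) ≤
      max (gauss x (N z) / gauss x (D z)) (gauss x (N z') / gauss x (D z')) := by
    intro z z'
    have e1 := hwd (z + z') (N z * D z' + N z' * D z) (D z * D z')
      (hmulne _ _ (hD z) (hD z')) (by
        rw [ev_add, ev_mul x y hne, ev_mul x y hne, ev_mul x y hne, ← hND z, ← hND z']
        show ((z : W) + (z' : W)) * _ = _
        ring)
    have p1 := hgpos _ (hD z)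
    have p2 := hgpos _ (hD z')
    have e2 : gauss x (N z) / gauss x (D z) =
        gauss x (N z * D z') / gauss x (D z * D z') := by
      rw [gauss_mul hx, gauss_mul hx, mul_div_mul_right _ _ p2.ne']
    have e3 : gauss x (N z') / gauss x (D z') =
        gauss x (N z' * D z) / gauss x (D z * D z') := by
      rw [gauss_mul hx, gauss_mul hx, mul_comm (gauss x (D z)), mul_div_mul_right _ _ p1.ne']
    rw [e1, e2, e3]
    have p3 : 0 < gauss x (D z * D z') := hgpos _ (hmulne _ _ (hD z) (hD z'))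
    rcases le_max_iff.1 (gauss_add_le (x := x) (N z * D z') (N z' * D z)) with h | h
    · exact le_max_of_le_left (div_le_div_of_nonneg_right h p3.le)
    · exact le_max_of_le_right (div_le_div_of_nonneg_right h p3.le)
  have hzero : ∀ z : Kxy k x y, gauss x (N z) / gauss x (D z) = 0 ↔ z = 0 := by
    intro z
    rw [div_eq_zero_iff]
    constructor
    · rintro (h | h)
      · have h1 := (gauss_eq_zero_iff hne (N z)).1 h
        have h2 := hND z
        rw [h1, ev_zero] at h2
        have h3 : (z : W) = 0 := (mul_eq_zero.1 h2).resolve_right (hev _ (hD z))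
        exact Subtype.ext h3
      · exact absurd h (hgpos _ (hD z)).ne'
    · rintro rfl
      left
      have h2 := hND (0 : Kxy k x y)
      have h4 : ((0 : Kxy k x y) : W) = 0 := rfl
      rw [h4, zero_mul] at h2
      exact (gauss_eq_zero_iff hne _).2 (hP.tr _ h2.symm)
  refine ⟨{ toFun := fun z => ((gauss x (N z) / gauss x (D z) : NNReal) : ℝ)
            map_mul' := fun z z' => ?_
            nonneg' := fun z => NNReal.coe_nonneg _
            eq_zero' := fun z => ?_
            add_le' := fun z z' => ?_ }, ?_, ?_⟩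
  · rw [hmul, NNReal.coe_mul]
  · rw [NNReal.coe_eq_zero]
    exact hzero z
  · rw [← NNReal.coe_add, NNReal.coe_le_coe]
    exact (hadd z z').trans (max_le_add_of_nonneg zero_le zero_le)
  · intro z z'
    have h1 := hadd z z'
    show ((gauss x (N (z + z')) / gauss x (D (z + z')) : NNReal) : ℝ) ≤
      max ((gauss x (N z) / gauss x (D z) : NNReal) : ℝ)
        ((gauss x (N z') / gauss x (D z') : NNReal) : ℝ)
    rw [← NNReal.coe_max, NNReal.coe_le_coe]
    exact h1
  · intro P z hz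
    show ((gauss x (N z) / gauss x (D z) : NNReal) : ℝ) = gauss x P
    have h1 : (1 : LP k r) ≠ 0 := by
      intro h
      have h2 := ev_one (k := k) x y
      rw [h, ev_zero] at h2
      exact zero_ne_one h2
    rw [hwd z P 1 h1 (by rw [ev_one, mul_one, hz])]
    have h2 : gauss x (1 : LP k r) = 1 := by
      have h3 : gauss x ((1 : LP k r) * 1) = gauss x (1 : LP k r) * gauss x (1 : LP k r) :=
        gauss_mul hx 1 1
      rw [mul_one] at h3
      exact (mul_eq_left₀ (hgpos _ h1).ne').1 h3.symm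
    rw [h2, div_one]

end

end Pool.Agent.Lib.TDO
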