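import Pool.Agent.Lib.TDO.ThmA2
import Pool.Agent.Lib.TDO.EtLem

/-!
# Module ThmB: monomialization in the finite extension `k(x, y)(τ)`
-/

namespace Pool.Agent.Lib.TDO

open Pool.Agent.Lib.MP_3029eb_ag Pool.Agent.Lib.MP_3029eb_ag.Abh

variable {k W : Type} [Field k] [NormedField W] [IsUltrametricDist W] [Algebra k W] {r : ℕ}

private theorem ThmB_val (z : W) : (ball W).valuation z = 1 ↔ ‖z‖ = 1 := by
  constructor
  · intro h
    have h0 : z ≠ 0 := by
      rintro rfl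
      rw [map_zero] at h
      exact zero_ne_one h
    have h1 : ‖z‖ ≤ 1 := (mem_ball z).1 ((ball W).valuation_le_one_iff z |>.1 h.le)
    have h2 : ‖z⁻¹‖ ≤ 1 := by
      apply (mem_ball z⁻¹).1 ((ball W).valuation_le_one_iff z⁻¹ |>.1 _)
      rw [map_inv₀, h, inv_one]
    rw [norm_inv] at h2
    exact le_antisymm h1 ((inv_le_one₀ (norm_pos_iff.2 h0)).1 h2)
  · intro h
    have h0 : z ≠ 0 := by
      rintro rfl
      rw [norm_zero] at h
      exact zero_ne_one h
    have h1 : (ball W).valuation z ≤ 1 := (ball W).valuation_le_one_iff z |>.2 ((mem_ball z).2 h.le)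
    have h2 : (ball W).valuation z⁻¹ ≤ 1 := by
      apply (ball W).valuation_le_one_iff z⁻¹ |>.2
      rw [mem_ball, norm_inv, h, inv_one]
    rw [map_inv₀] at h2
    have h3 : 0 < (ball W).valuation z := by
      rw [zero_lt_iff]
      exact (map_ne_zero _).2 h0
    exact le_antisymm h1 ((inv_le_one₀ h3).1 h2)

private theorem ThmB_locV_mono {A B : Subring W} (h : A ≤ B) :
    locV (ball W) A ≤ locV (ball W) B := by
  rintro z ⟨a, ha, b, hb, h1, h2⟩
  exact ⟨a, h ha, b, h hb, h1, h2⟩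

private theorem ThmB_le_locV (A : Subring W) : A ≤ locV (ball W) A :=
  fun z hz => ⟨z, hz, 1, one_mem _, map_one _, mul_one z⟩

private theorem ThmB_inv {A : Subring W} {z : W} (hz : z ∈ locV (ball W) A) (h1 : ‖z‖ = 1) :
    z⁻¹ ∈ locV (ball W) A := by
  obtain ⟨a, ha, b, hb, hb1, hab⟩ := hz
  have hz0 : z ≠ 0 := by
    rintro rfl
    rw [norm_zero] at h1
    exact zero_ne_one h1
  refine ⟨b, hb, a, ha, ?_, ?_⟩
  · rw [ThmB_val] at hb1 ⊢
    rw [← hab, norm_mul, h1, hb1, one_mul]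
  · rw [← hab, inv_mul_cancel_left₀ hz0]

/-- a subring containing the numerators and closed under inverses of units of norm one -/
private theorem ThmB_locV_le {A : Subring W} {B : Subring W} (h : A ≤ locV (ball W) B) :
    locV (ball W) A ≤ locV (ball W) B := by
  rintro z ⟨a, ha, b, hb, hb1, hab⟩
  have hb2 := (ThmB_val b).1 hb1
  have hb0 : b ≠ 0 := by
    rintro rfl
    rw [norm_zero] at hb2
    exact zero_ne_one hb2
  have h3 := mul_mem (h ha) (ThmB_inv (h hb) hb2)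
  have e : a * b⁻¹ = z := by
    rw [← hab, mul_inv_cancel_right₀ hb0]
  rw [e] at h3
  exact h3

theorem OO_le_BB (x : Fin r → W) (y τ : W) : OO k x y ≤ BB k x y τ :=
  ThmB_locV_mono (fun _ hz => Subring.subset_closure (Or.inl hz))

theorem tau_mem_BB (x : Fin r → W) (y τ : W) : τ ∈ BB k x y τ :=
  ThmB_le_locV _ (Subring.subset_closure (Or.inr rfl))

private theorem ThmB_LO_le_BB (x : Fin r → W) (y τ : W) : LO k x y ≤ BB k x y τ :=
  fun _ hz => ThmB_le_locV _ (Subring.subset_closure (Or.inl hz))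

theorem norm_le_of_mem_BB (hA : Amb r k W) {x : Fin r → W} {y τ : W} (hy : ‖y‖ ≤ 1)
    (hτ : ‖τ‖ ≤ 1) {z : W} (hz : z ∈ BB k x y τ) : ‖z‖ ≤ 1 := by
  obtain ⟨a, ha, b, hb, hb1, hab⟩ := hz
  have hb2 := (ThmB_val b).1 hb1
  have hle : Subring.closure ((LO k x y : Set W) ∪ {τ}) ≤ (ball W).toSubring := by
    rw [Subring.closure_le]
    rintro v (hv | hv)
    · exact norm_le_of_mem_LO hA hy hv
    · rw [Set.mem_singleton_iff] at hv
      rw [hv]
      exact hτ
  have ha1 : ‖a‖ ≤ 1 := hle ha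
  rw [← hab, norm_mul, hb2, mul_one] at ha1
  exact ha1

theorem inv_mem_BB {x : Fin r → W} {y τ : W} {z : W} (hz : z ∈ BB k x y τ) (h1 : ‖z‖ = 1) :
    z⁻¹ ∈ BB k x y τ := ThmB_inv hz h1

theorem BB_mono (hA : Amb r k W) {x x' : Fin r → W} {y y' τ : W} (hy' : ‖y'‖ ≤ 1) (hτ : ‖τ‖ ≤ 1)
    (h : OO k x y ≤ OO k x' y') : BB k x y τ ≤ BB k x' y' τ := by
  apply ThmB_locV_le
  rw [Subring.closure_le]
  rintro v (hv | hv)
  · exact OO_le_BB x' y' τ (h (ThmB_le_locV _ hv))
  · rw [Set.mem_singleton_iff] at hv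
    rw [hv]
    exact tau_mem_BB x' y' τ

theorem BB_le_field {x : Fin r → W} {y τ : W} {z : W} (hz : z ∈ BB k x y τ) :
    z ∈ Kxy k x y ⊔ IntermediateField.adjoin k {τ} := by
  obtain ⟨a, ha, b, hb, hb1, hab⟩ := hz
  have hb2 := (ThmB_val b).1 hb1
  have hb0 : b ≠ 0 := by
    rintro rfl
    rw [norm_zero] at hb2
    exact zero_ne_one hb2
  have hle : Subring.closure ((LO k x y : Set W) ∪ {τ}) ≤
      (Kxy k x y ⊔ IntermediateField.adjoin k {τ}).toSubalgebra.toSubring := by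
    rw [Subring.closure_le]
    rintro v (hv | hv)
    · exact (le_sup_left : Kxy k x y ≤ _) (LL_le_Kxy x y (LO_le_LL hv))
    · rw [Set.mem_singleton_iff] at hv
      rw [hv]
      exact (le_sup_right : IntermediateField.adjoin k {τ} ≤ _)
        (IntermediateField.mem_adjoin_simple_self k τ)
  have ha' : a ∈ Kxy k x y ⊔ IntermediateField.adjoin k {τ} := hle ha
  have hb' : b ∈ Kxy k x y ⊔ IntermediateField.adjoin k {τ} := hle hb
  have h3 := mul_mem ha' (inv_mem hb')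
  have e : a * b⁻¹ = z := by
    rw [← hab, mul_inv_cancel_right₀ hb0]
  rw [e] at h3
  exact h3

/-- `Mo` for `BB` is preserved by refinement. -/
theorem Mo.mono_BB (hA : Amb r k W) {x : Fin r → W} {y : W} (hP : Par k x y) {x' : Fin r → W}
    {y' : W} (hP' : Par k x' y') (h : Rf k x y x' y') {τ : W} (hτ : ‖τ‖ ≤ 1) {z : W}
    (hz : Mo (BB k x y τ) x z) : Mo (BB k x' y' τ) x' z := by
  obtain ⟨a, u, hu, hu1, rfl⟩ := hz
  obtain ⟨a', v, hv, hv1, hav⟩ := h.mo_mo hA hP hP' (Mo.mon (x := x) (OO k x y) a)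
  refine ⟨a', v * u, mul_mem (OO_le_BB x' y' τ hv) (BB_mono hA hP'.y1.le hτ h.le hu), ?_, ?_⟩
  · rw [norm_mul, hv1, hu1, one_mul]
  · rw [hav, mul_assoc]

/-- a finite subset of the generators suffices -/
private theorem ThmB_fin (S : Set W) (τ : W) {c : W} (hc : c ∈ Subring.closure (S ∪ {τ})) :
    ∃ F : Finset W, (∀ e ∈ F, e ∈ S) ∧ c ∈ Subring.closure ((F : Set W) ∪ {τ}) := by
  classical
  have hmono : ∀ F F' : Finset W, F ⊆ F' →
      Subring.closure ((F : Set W) ∪ {τ}) ≤ Subring.closure ((F' : Set W) ∪ {τ}) := by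
    intro F F' h
    exact Subring.closure_mono (Set.union_subset_union_left _ (Finset.coe_subset.2 h))
  have hbin : ∀ (a b : W), (∃ F : Finset W, (∀ e ∈ F, e ∈ S) ∧
      a ∈ Subring.closure ((F : Set W) ∪ {τ})) → (∃ F : Finset W, (∀ e ∈ F, e ∈ S) ∧
      b ∈ Subring.closure ((F : Set W) ∪ {τ})) → ∃ F : Finset W, (∀ e ∈ F, e ∈ S) ∧
      a ∈ Subring.closure ((F : Set W) ∪ {τ}) ∧ b ∈ Subring.closure ((F : Set W) ∪ {τ}) := by
    rintro a b ⟨F, h1, h2⟩ ⟨F', h1', h2'⟩
    refine ⟨F ∪ F', fun d hd => ?_, hmono _ _ Finset.subset_union_left h2,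
      hmono _ _ Finset.subset_union_right h2'⟩
    rcases Finset.mem_union.1 hd with hd | hd
    · exact h1 d hd
    · exact h1' d hd
  have hem : ∀ e ∈ (∅ : Finset W), e ∈ S := fun e he => absurd he (Finset.notMem_empty _)
  induction hc using Subring.closure_induction with
  | mem z hz =>
    rcases hz with hz | hz
    · refine ⟨{z}, fun e he => ?_, Subring.subset_closure (Or.inl ?_)⟩
      · rw [Finset.mem_singleton.1 he]
        exact hz
      · exact Finset.mem_coe.2 (Finset.mem_singleton_self z)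
    · exact ⟨∅, hem, Subring.subset_closure (Or.inr hz)⟩
  | zero => exact ⟨∅, hem, zero_mem _⟩
  | one => exact ⟨∅, hem, one_mem _⟩
  | add a b _ _ iha ihb =>
    obtain ⟨F, h1, h2, h3⟩ := hbin a b iha ihb
    exact ⟨F, h1, add_mem h2 h3⟩
  | neg a _ iha =>
    obtain ⟨F, h1, h2⟩ := iha
    exact ⟨F, h1, neg_mem h2⟩
  | mul a b _ _ iha ihb =>
    obtain ⟨F, h1, h2, h3⟩ := hbin a b iha ihb
    exact ⟨F, h1, mul_mem h2 h3⟩

private theorem ThmB_finloc (S : Set W) (τ : W) {u : W}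
    (hu : u ∈ locV (ball W) (Subring.closure (S ∪ {τ}))) :
    ∃ F : Finset W, (∀ e ∈ F, e ∈ S) ∧
      u ∈ locV (ball W) (Subring.closure ((F : Set W) ∪ {τ})) := by
  classical
  obtain ⟨a, ha, b, hb, hb1, hab⟩ := hu
  obtain ⟨F, h1, h2⟩ := ThmB_fin S τ ha
  obtain ⟨F', h1', h2'⟩ := ThmB_fin S τ hb
  refine ⟨F ∪ F', fun d hd => ?_, a, ?_, b, ?_, hb1, hab⟩
  · rcases Finset.mem_union.1 hd with hd | hd
    · exact h1 d hd
    · exact h1' d hd
  · exact Subring.closure_mono (Set.union_subset_union_left _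
      (Finset.coe_subset.2 Finset.subset_union_left)) h2
  · exact Subring.closure_mono (Set.union_subset_union_left _
      (Finset.coe_subset.2 Finset.subset_union_right)) h2'

/-- For each `z`: `z = b * u` (`etale_unit`), `b ∈ Kxy` is monomial at a later stage (`thmA`);
`u = N / D` with `N, D` in the ring generated by `τ` and finitely many elements of `Kxy` of norm
at most one (an element of `Subring.closure` of a set is in the closure of a finite subset; or
induction), which lie in `OO k x' y'` at a later stage (`thmA_OO`).  Finitely many `z`: induction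
with `Rf.trans`, `Mo.mono_BB`.  Also the coefficients of `P` are made monomial (or zero). -/
theorem thmB (hA : Amb r k W) (hr : 0 < r) {x : Fin r → W} {y : W} (hP : Par k x y)
    (E : IntermediateField k W) (hE : Kxy k x y = E) (P : Polynomial E) (τ : W) (hEt : Et E P τ)
    (hd : τ ∈ cl E) (Z : Finset W)
    (hZ : ∀ z ∈ Z, z ∈ E ⊔ IntermediateField.adjoin k {τ} ∧ z ≠ 0) :
    ∃ (x' : Fin r → W) (y' : W), Par k x' y' ∧ Rf k x y x' y' ∧
      (∀ j, j ≠ 1 → P.coeff j ≠ 0 → Mo (OO k x' y') x' ((P.coeff j : E) : W)) ∧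
      ∀ z ∈ Z, Mo (BB k x' y' τ) x' z := by
  classical
  have hnt : ∃ z ∈ E, z ≠ 0 ∧ ‖z‖ < 1 := by
    refine ⟨x ⟨0, hr⟩, ?_, hP.ind.ne _, hP.ind.lt _⟩
    rw [← hE]
    exact x_mem_Kxy x y _
  -- the data for each `z`
  have hdata : ∀ z : W, ∃ (b u : W) (F : Finset W), z ∈ Z → (b ∈ E ∧ b ≠ 0 ∧ ‖u‖ = 1 ∧
      z = b * u ∧ (∀ e ∈ F, e ∈ E ∧ ‖e‖ ≤ 1) ∧
      u ∈ locV (ball W) (Subring.closure ((F : Set W) ∪ {τ}))) := by
    intro z
    by_cases hz : z ∈ Z
    · obtain ⟨hz1, hz2⟩ := hZ z hz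
      obtain ⟨b, hb, u, hu, hu1, hbu⟩ := etale_unit E P τ hEt hd hnt z hz1 hz2
      obtain ⟨F, hF1, hF2⟩ := ThmB_finloc _ τ hu
      refine ⟨b, u, F, fun _ => ⟨hb, ?_, hu1, hbu, fun e he => hF1 e he, hF2⟩⟩
      rintro rfl
      rw [zero_mul] at hbu
      exact hz2 hbu
    · exact ⟨0, 0, ∅, fun h => absurd h hz⟩
  choose b u F hbuF using hdata
  set S : Finset W := (Z.image b ∪ P.support.image (fun j => ((P.coeff j : E) : W)) ∪
    Z.biUnion F).filter (fun z => z ≠ 0) with hS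
  have hSK : ∀ z ∈ S, z ∈ Kxy k x y ∧ z ≠ 0 := by
    intro z hz
    rw [hS, Finset.mem_filter, Finset.mem_union, Finset.mem_union] at hz
    refine ⟨?_, hz.2⟩
    rw [hE]
    rcases hz.1 with (h | h) | h
    · obtain ⟨w, hw, rfl⟩ := Finset.mem_image.1 h
      exact (hbuF w hw).1
    · obtain ⟨j, _, rfl⟩ := Finset.mem_image.1 h
      exact (P.coeff j).2
    · obtain ⟨w, hw, hzw⟩ := Finset.mem_biUnion.1 h
      exact ((hbuF w hw).2.2.2.2.1 z hzw).1
  obtain ⟨x', y', hP', hrf, hMo⟩ := thmA_finset hA hr hP S hSK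
  refine ⟨x', y', hP', hrf, ?_, ?_⟩
  · intro j _ hj
    apply hMo
    rw [hS, Finset.mem_filter]
    refine ⟨Finset.mem_union_left _ (Finset.mem_union_right _ (Finset.mem_image.2
      ⟨j, Polynomial.mem_support_iff.2 hj, rfl⟩)), ?_⟩
    intro h0
    apply hj
    exact Subtype.ext h0
  · intro z hz
    obtain ⟨hb1, hb2, hu1, hbu, hF1, hF2⟩ := hbuF z hz
    -- the elements of F are in OO
    have hFO : ∀ e ∈ F z, e ∈ OO k x' y' := by
      intro e he
      by_cases he0 : e = 0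
      · rw [he0]
        exact zero_mem _
      · refine Mo.mem_OO hA hP'.y1.le (hMo e ?_) (hF1 e he).2
        rw [hS, Finset.mem_filter]
        exact ⟨Finset.mem_union_right _ (Finset.mem_biUnion.2 ⟨z, hz, he⟩), he0⟩
    have huB : u z ∈ BB k x' y' τ := by
      refine ThmB_locV_le ?_ hF2
      rw [Subring.closure_le]
      rintro v (hv | hv)
      · exact OO_le_BB x' y' τ (hFO v hv)
      · rw [Set.mem_singleton_iff] at hv
        rw [hv]
        exact tau_mem_BB x' y' τ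
    obtain ⟨a, v, hv, hv1, hbv⟩ := hMo (b z) (by
      rw [hS, Finset.mem_filter]
      exact ⟨Finset.mem_union_left _ (Finset.mem_union_left _
        (Finset.mem_image_of_mem _ hz)), hb2⟩)
    refine ⟨a, v * u z, mul_mem (OO_le_BB x' y' τ hv) huB, ?_, ?_⟩
    · rw [norm_mul, hv1, hu1, one_mul]
    · rw [← mul_assoc, ← hbv]
      exact hbu

/-- Monomial elements of `BB` of norm at most one lie in `BB`. -/
theorem Mo.mem_BB (hA : Amb r k W) {x : Fin r → W} {y τ : W} {z : W}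
    (h : Mo (BB k x y τ) x z) (h1 : ‖z‖ ≤ 1) : z ∈ BB k x y τ := by
  obtain ⟨a, u, hu, hu1, rfl⟩ := h
  rw [norm_mul, hu1, mul_one] at h1
  exact mul_mem (ThmB_LO_le_BB x y τ (mon_mem_LO h1)) hu

end Pool.Agent.Lib.TDO
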