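import Pool.Agent.Lib.TDO.GDefs
import Pool.Agent.Lib.TDO.ThmB
import Pool.Agent.Lib.TDO.Appr
import Pool.Agent.Lib.MP_3029eb_ag.K3

/-!
# Module Gfac: values of the Gauss norm on `BB`

(AP) There is an exponent `b` with `‖mon x b‖ < 1` such that all coefficients `P.coeff j`, `j ≠ 1`,
are in `mon x b * OO` (they are `mon x a_j * u_j` with `‖mon x a_j‖ < 1`; take `b` with
`‖mon x b‖` the largest).  `appr` (`B = BB`, `R0 = OO`, `q = mon x b`): for every `z ∈ BB` and `M`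
there is `z' ∈ OO` with `z - z' ∈ mon x (M • b) * BB`; as `OO ∋ z' = n / d`, also
`z' ≡ n c⁻¹ (1 + δ + .. + δ^m)` ...; for the estimates use `z' d = n` with `n, d ∈ LO`, `‖d‖ = 1`,
`G d = 1`.
G1: on `LO` and `τ`, `G ≤ 1` (`gauss ≤ 1`), hence on the ring generated; `D` in this ring with
`‖D‖ = 1`: `D = D0 + τ D1`, `D0 ∈ LO`, `‖D0‖ = 1`, its constant coefficient is nonzero, `gauss = 1`,
so `G D = 1`.
-/

namespace Pool.Agent.Lib.TDO

open Pool.Agent.Lib.MP_3029eb_ag Pool.Agent.Lib.MP_3029eb_ag.Abh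

variable {k N : Type} [Field k] [NormedField N] [IsUltrametricDist N] [Algebra k N] {r : ℕ}
  {x : Fin r → N} {y : N} {E : IntermediateField k N} {P : Polynomial E} {τ : N}
  {G : AbsoluteValue N ℝ}

section aux

/-! ### Generalities -/

private lemma gf_val {z : N} : (ball N).valuation z = 1 ↔ ‖z‖ = 1 := by
  have h1 : (ball N).valuation z ≤ 1 ↔ ‖z‖ ≤ 1 := (ball N).valuation_le_one_iff z
  constructor
  · intro h
    have hz0 : z ≠ 0 := by
      rintro rfl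
      rw [map_zero] at h
      exact zero_ne_one h
    refine le_antisymm (h1.1 h.le) ?_
    have h2 : (ball N).valuation z⁻¹ ≤ 1 := by
      rw [map_inv₀, h, inv_one]
    have h3 : ‖z⁻¹‖ ≤ 1 := ((ball N).valuation_le_one_iff z⁻¹).1 h2
    rw [norm_inv] at h3
    exact (inv_le_one₀ (norm_pos_iff.2 hz0)).1 h3
  · intro h
    have hz0 : z ≠ 0 := by
      rintro rfl
      rw [norm_zero] at h
      exact zero_ne_one h
    refine le_antisymm (h1.2 h.le) ?_
    have h3 : ‖z⁻¹‖ ≤ 1 := by rw [norm_inv, h, inv_one]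
    have h2 : (ball N).valuation z⁻¹ ≤ 1 := ((ball N).valuation_le_one_iff z⁻¹).2 h3
    rw [map_inv₀] at h2
    exact (inv_le_one₀ (zero_lt_iff.2 ((Valuation.ne_zero_iff _).2 hz0))).1 h2

private lemma gf_nsub (a b : N) : ‖a - b‖ ≤ max ‖a‖ ‖b‖ := by
  have h := IsUltrametricDist.norm_add_le_max a (-b)
  rwa [norm_neg, ← sub_eq_add_neg] at h

private lemma gf_ne_of_norm {z : N} (h : ‖z‖ = 1) : z ≠ 0 := by
  rintro rfl
  rw [norm_zero] at h
  exact zero_ne_one h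

private lemma gf_sub (hna : ∀ a b, G (a + b) ≤ max (G a) (G b)) (a b : N) :
    G (a - b) ≤ max (G a) (G b) := by
  have h := hna a (-b)
  rwa [← sub_eq_add_neg, G.map_neg] at h

/-- the isosceles principle for `G` -/
private lemma gf_iso (hna : ∀ a b, G (a + b) ≤ max (G a) (G b)) {a b : N} (h : G (a - b) < G a) :
    G b = G a := by
  apply le_antisymm
  · have h1 := gf_sub hna a (a - b)
    rw [sub_sub_cancel, max_eq_left h.le] at h1
    exact h1
  · have h1 := hna (a - b) b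
    rw [sub_add_cancel] at h1
    rcases le_max_iff.1 h1 with h2 | h2
    · exact absurd h2 (not_le.2 h)
    · exact h2

private lemma gf_norm_iso {a b : N} (h : ‖a - b‖ < ‖a‖) : ‖b‖ = ‖a‖ := by
  apply le_antisymm
  · have h1 := gf_nsub a (a - b)
    rw [sub_sub_cancel, max_eq_left h.le] at h1
    exact h1
  · have h1 := IsUltrametricDist.norm_add_le_max (a - b) b
    rw [sub_add_cancel] at h1
    rcases le_max_iff.1 h1 with h2 | h2
    · exact absurd h2 (not_le.2 h)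
    · exact h2

/-! ### Elements of `LO` -/

private lemma gf_gauss_le {Q : LP k r} {C : ℝ} (hC : 0 ≤ C)
    (hQ : ∀ a j, Q.coeff (a, j) ≠ 0 → ‖mon x a‖ ≤ C) : (gauss x Q : ℝ) ≤ C := by
  have h1 : gauss x Q ≤ C.toNNReal := by
    unfold gauss
    refine Finset.sup_le (fun m hm => ?_)
    rw [← NNReal.coe_le_coe, Real.coe_toNNReal C hC]
    exact hQ m.1 m.2 (Finsupp.mem_support_iff.1 hm)
  have h2 := NNReal.coe_le_coe.2 h1
  rwa [Real.coe_toNNReal C hC] at h2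

private lemma gf_gauss_lt {Q : LP k r} {C : ℝ} (hC : 0 < C)
    (hQ : ∀ a j, Q.coeff (a, j) ≠ 0 → ‖mon x a‖ < C) : (gauss x Q : ℝ) < C := by
  have h1 : gauss x Q < C.toNNReal := by
    unfold gauss
    rw [Finset.sup_lt_iff (by rw [bot_lt_iff_ne_bot]; exact (Real.toNNReal_pos.2 hC).ne')]
    intro m hm
    rw [← NNReal.coe_lt_coe, Real.coe_toNNReal C hC.le]
    exact hQ m.1 m.2 (Finsupp.mem_support_iff.1 hm)
  have h2 := NNReal.coe_lt_coe.2 h1
  rwa [Real.coe_toNNReal C hC.le] at h2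

private lemma gf_le_gauss {Q : LP k r} {a : Fin r → ℤ} {j : ℕ} (h : Q.coeff (a, j) ≠ 0) :
    ‖mon x a‖ ≤ (gauss x Q : ℝ) := by
  have h1 : ‖mon x a‖₊ ≤ gauss x Q := by
    unfold gauss
    exact Finset.le_sup (f := fun m : (Fin r → ℤ) × ℕ => ‖mon x m.1‖₊)
      (Finsupp.mem_support_iff.2 h)
  exact_mod_cast h1

private lemma gf_LO (h : GS k x y E P τ G) {z : N} (hz : z ∈ LO k x y) :
    ∃ Q : LP k r, (∀ a j, Q.coeff (a, j) ≠ 0 → ‖mon x a‖ ≤ 1) ∧ z = ev x y Q ∧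
      G z = gauss x Q ∧ (gauss x Q : ℝ) ≤ 1 := by
  obtain ⟨Q, h1, rfl⟩ := (mem_LO_iff h.par.ind.ne z).1 hz
  exact ⟨Q, h1, rfl, h.ev Q, gf_gauss_le zero_le_one h1⟩

private lemma gf_LO_norm_le (hA : Amb r k N) (h : GS k x y E P τ G) {z : N}
    (hz : z ∈ LO k x y) : ‖z‖ ≤ G z := by
  obtain ⟨Q, h1, rfl, h2, _⟩ := gf_LO h hz
  rw [h2]
  exact norm_ev_le_gauss hA h.par.y1.le Q

private lemma gf_LO_one (hA : Amb r k N) (h : GS k x y E P τ G) {z : N}
    (hz : z ∈ LO k x y) (h1 : ‖z‖ = 1) : G z = 1 := by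
  have h2 := gf_LO_norm_le hA h hz
  obtain ⟨Q, _, _, h3, h4⟩ := gf_LO h hz
  rw [h1] at h2
  rw [h3] at h2 ⊢
  exact le_antisymm h4 h2

/-- the elements of the ring generated by `LO` and `τ` -/
private lemma gf_cl (hA : Amb r k N) (h : GS k x y E P τ G) {z : N}
    (hz : z ∈ Subring.closure ((LO k x y : Set N) ∪ {τ})) :
    G z ≤ 1 ∧ ‖z‖ ≤ 1 ∧ ∃ z0 ∈ LO k x y, ∃ z1, G z1 ≤ 1 ∧ ‖z1‖ ≤ 1 ∧ z = z0 + τ * z1 := by
  induction hz using Subring.closure_induction with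
  | mem z hz =>
    rcases hz with hz | hz
    · obtain ⟨Q, _, _, h3, h4⟩ := gf_LO h hz
      exact ⟨by rw [h3]; exact h4, norm_le_of_mem_LO hA h.par.y1.le hz, z, hz, 0,
        by rw [map_zero]; exact zero_le_one, by rw [norm_zero]; exact zero_le_one, by ring⟩
    · rw [Set.mem_singleton_iff] at hz
      subst hz
      exact ⟨h.lt.le, h.et.lt.le, 0, zero_mem _, 1, (map_one G).le, norm_one.le, by ring⟩
  | zero =>
    exact ⟨by rw [map_zero]; exact zero_le_one, by rw [norm_zero]; exact zero_le_one, 0,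
      zero_mem _, 0, by rw [map_zero]; exact zero_le_one, by rw [norm_zero]; exact zero_le_one,
      by ring⟩
  | one =>
    exact ⟨(map_one G).le, norm_one.le, 1, one_mem _, 0, by rw [map_zero]; exact zero_le_one,
      by rw [norm_zero]; exact zero_le_one, by ring⟩
  | add u v _ _ hu hv =>
    obtain ⟨hu1, hu2, u0, hu0, u1, hu3, hu4, hu5⟩ := hu
    obtain ⟨hv1, hv2, v0, hv0, v1, hv3, hv4, hv5⟩ := hv
    refine ⟨(h.na u v).trans (max_le hu1 hv1),
      (IsUltrametricDist.norm_add_le_max u v).trans (max_le hu2 hv2), u0 + v0, add_mem hu0 hv0,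
      u1 + v1, (h.na u1 v1).trans (max_le hu3 hv3),
      (IsUltrametricDist.norm_add_le_max u1 v1).trans (max_le hu4 hv4), ?_⟩
    rw [hu5, hv5]; ring
  | neg u _ hu =>
    obtain ⟨hu1, hu2, u0, hu0, u1, hu3, hu4, hu5⟩ := hu
    refine ⟨by rw [G.map_neg]; exact hu1, by rw [norm_neg]; exact hu2, -u0, neg_mem hu0, -u1,
      by rw [G.map_neg]; exact hu3, by rw [norm_neg]; exact hu4, ?_⟩
    rw [hu5]; ring
  | mul u v _ _ hu hv =>
    obtain ⟨hu1, hu2, u0, hu0, u1, hu3, hu4, hu5⟩ := hu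
    obtain ⟨hv1, hv2, v0, hv0, v1, hv3, hv4, hv5⟩ := hv
    have hGu0 : G u0 ≤ 1 := by
      obtain ⟨Q, _, _, h3, h4⟩ := gf_LO h hu0
      rw [h3]; exact h4
    have hnu0 : ‖u0‖ ≤ 1 := norm_le_of_mem_LO hA h.par.y1.le hu0
    have hm : ∀ a b : ℝ, 0 ≤ a → a ≤ 1 → b ≤ 1 → 0 ≤ b → a * b ≤ 1 := fun a b ha0 ha hb hb0 =>
      mul_le_one₀ ha hb0 hb
    refine ⟨by rw [map_mul]; exact hm _ _ (G.nonneg _) hu1 hv1 (G.nonneg _),
      by rw [norm_mul]; exact hm _ _ (norm_nonneg _) hu2 hv2 (norm_nonneg _), u0 * v0,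
      mul_mem hu0 hv0, u0 * v1 + u1 * v, ?_, ?_, ?_⟩
    · refine (h.na _ _).trans (max_le ?_ ?_)
      · rw [map_mul]; exact hm _ _ (G.nonneg _) hGu0 hv3 (G.nonneg _)
      · rw [map_mul]; exact hm _ _ (G.nonneg _) hu3 hv1 (G.nonneg _)
    · refine (IsUltrametricDist.norm_add_le_max _ _).trans (max_le ?_ ?_)
      · rw [norm_mul]; exact hm _ _ (norm_nonneg _) hnu0 hv4 (norm_nonneg _)
      · rw [norm_mul]; exact hm _ _ (norm_nonneg _) hu4 hv2 (norm_nonneg _)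
    · rw [hu5, hv5]; ring

private lemma gf_cl_one (hA : Amb r k N) (h : GS k x y E P τ G) {z : N}
    (hz : z ∈ Subring.closure ((LO k x y : Set N) ∪ {τ})) (h1 : ‖z‖ = 1) : G z = 1 := by
  obtain ⟨hz1, _, z0, hz0, z1, hz3, hz4, hz5⟩ := gf_cl hA h hz
  have hτ1 : ‖τ * z1‖ < 1 := by
    rw [norm_mul]
    have := h.et.lt
    nlinarith [norm_nonneg z1, norm_nonneg τ]
  have hτ2 : G (τ * z1) < 1 := by
    rw [map_mul]
    have := h.lt
    nlinarith [G.nonneg z1, G.nonneg τ]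
  have h2 : ‖z0‖ = 1 := by
    rw [← h1]
    apply gf_norm_iso
    rw [hz5, add_sub_cancel_left, ← hz5, h1]
    exact hτ1
  have h3 : G z0 = 1 := gf_LO_one hA h hz0 h2
  rw [← h3]
  apply gf_iso h.na
  rw [hz5, h3]
  have h4 : z0 - (z0 + τ * z1) = -(τ * z1) := by ring
  rw [h4, G.map_neg]
  exact hτ2

private lemma gf_mon_eq (h : GS k x y E P τ G) (a : Fin r → ℤ) : G (mon x a) = ‖mon x a‖ := by
  have h1 := h.ev (AddMonoidAlgebra.single (a, 0) 1)
  rw [ev_single, map_one, one_mul, pow_zero, mul_one, gauss_single a 0 1 one_ne_zero] at h1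
  exact h1

/-- elements of `OO` -/
private lemma gf_OO (hA : Amb r k N) (h : GS k x y E P τ G) {z : N} (hz : z ∈ OO k x y) :
    ∃ n ∈ LO k x y, ∃ d ∈ LO k x y, ‖d‖ = 1 ∧ G d = 1 ∧ z * d = n ∧ G z = G n ∧ ‖z‖ = ‖n‖ := by
  obtain ⟨n, hn, d, hd, hd1, he⟩ := hz
  have hd2 : ‖d‖ = 1 := gf_val.1 hd1
  have hd3 : G d = 1 := gf_LO_one hA h hd hd2
  refine ⟨n, hn, d, hd, hd2, hd3, he, ?_, ?_⟩
  · rw [← he, map_mul, hd3, mul_one]
  · rw [← he, norm_mul, hd2, mul_one]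

private lemma gf_OO_div (hA : Amb r k N) (h : GS k x y E P τ G) {n d : N} (hn : n ∈ LO k x y)
    (hd : d ∈ LO k x y) (h1 : ‖d‖ = 1) : n * d⁻¹ ∈ OO k x y :=
  mul_mem (LO_le_OO hA h.par.y1.le hn)
    (inv_mem_OO hA h.par.y1.le (LO_le_OO hA h.par.y1.le hd) h1)

end aux

/-- (AP) -/
theorem GS.ap (hA : Amb r k N) (hr : 0 < r) (h : GS k x y E P τ G) (ε : ℝ) (hε : 0 < ε) {z : N}
    (hz : z ∈ BB k x y τ) : ∃ z' ∈ OO k x y, ∃ a : Fin r → ℤ, ‖mon x a‖ < ε ∧
      ∃ b ∈ BB k x y τ, z - z' = mon x a * b := by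
  classical
  have hy := h.par.y1
  have hxne := h.par.ind.ne
  have hPO : ∀ j, ((P.coeff j : E) : N) ∈ OO k x y := by
    intro j
    by_cases hj : j = 1
    · rw [hj, h.et.c1]; exact one_mem _
    · by_cases h0 : P.coeff j = 0
      · rw [h0]; exact zero_mem _
      · exact Mo.mem_OO hA hy.le (h.good j hj h0) (h.et.cj j hj).le
  -- the exponent `b`
  obtain ⟨b, hb1, hb⟩ : ∃ b : Fin r → ℤ, ‖mon x b‖ < 1 ∧ ∀ j, j ≠ 1 →
      ∃ c ∈ OO k x y, ((P.coeff j : E) : N) = mon x b * c := by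
    have hmo : ∀ j, j ≠ 1 → P.coeff j ≠ 0 → ∃ a : Fin r → ℤ, ∃ u ∈ OO k x y, ‖u‖ = 1 ∧
        ((P.coeff j : E) : N) = mon x a * u ∧ ‖mon x a‖ < 1 := by
      intro j hj h0
      obtain ⟨a, u, hu, hu1, he⟩ := h.good j hj h0
      refine ⟨a, u, hu, hu1, he, ?_⟩
      have h1 := h.et.cj j hj
      rw [he, norm_mul, hu1, mul_one] at h1
      exact h1
    have key : ∀ s : Finset ℕ, (∀ j ∈ s, j ≠ 1 ∧ P.coeff j ≠ 0) → ∃ b : Fin r → ℤ,
        ‖mon x b‖ < 1 ∧ ∀ j ∈ s, ∃ c ∈ OO k x y, ((P.coeff j : E) : N) = mon x b * c := by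
      intro s
      induction s using Finset.induction_on with
      | empty =>
        intro _
        obtain ⟨b, _, hb⟩ := exists_mon_lt hr h.par.ind 1 one_pos
        exact ⟨b, hb, fun j hj => absurd hj (Finset.notMem_empty j)⟩
      | insert j s hjs ih =>
        intro hs
        obtain ⟨b, hb1, hb⟩ := ih (fun i hi => hs i (Finset.mem_insert_of_mem hi))
        obtain ⟨hj1, hj0⟩ := hs j (Finset.mem_insert_self j s)
        obtain ⟨a, u, hu, hu1, he, ha1⟩ := hmo j hj1 hj0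
        rcases le_total ‖mon x a‖ ‖mon x b‖ with hle | hle
        · refine ⟨b, hb1, fun i hi => ?_⟩
          rcases Finset.mem_insert.1 hi with rfl | hi
          · refine ⟨mon x (a - b) * u, mul_mem (LO_le_OO hA hy.le (mon_mem_LO ?_)) hu, ?_⟩
            · rw [sub_eq_add_neg, mon_add x hxne, mon_neg, norm_mul, norm_inv]
              exact mul_inv_le_one_of_le₀ hle (norm_nonneg _)
            · rw [he, ← mul_assoc, ← mon_add x hxne, add_sub_cancel]
          · exact hb i hi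
        · refine ⟨a, ha1, fun i hi => ?_⟩
          rcases Finset.mem_insert.1 hi with rfl | hi
          · exact ⟨u, hu, he⟩
          · obtain ⟨c, hc, hci⟩ := hb i hi
            refine ⟨mon x (b - a) * c, mul_mem (LO_le_OO hA hy.le (mon_mem_LO ?_)) hc, ?_⟩
            · rw [sub_eq_add_neg, mon_add x hxne, mon_neg, norm_mul, norm_inv]
              exact mul_inv_le_one_of_le₀ hle (norm_nonneg _)
            · rw [hci, ← mul_assoc, ← mon_add x hxne, add_sub_cancel]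
    obtain ⟨b, hb1, hb⟩ := key (P.support.erase 1) (fun j hj =>
      ⟨(Finset.mem_erase.1 hj).1, Polynomial.mem_support_iff.1 (Finset.mem_erase.1 hj).2⟩)
    refine ⟨b, hb1, fun j hj => ?_⟩
    by_cases h0 : P.coeff j = 0
    · exact ⟨0, zero_mem _, by rw [h0]; simp⟩
    · exact hb j (Finset.mem_erase.2 ⟨hj, Polynomial.mem_support_iff.2 h0⟩)
  obtain ⟨M, hM⟩ := exists_pow_lt_of_lt_one hε hb1
  have hbO : mon x b ∈ OO k x y := LO_le_OO hA hy.le (mon_mem_LO hb1.le)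
  have hBball : BB k x y τ ≤ (ball N).toSubring := fun w hw =>
    norm_le_of_mem_BB hA hy.le h.et.lt.le hw
  have hz' : z ∈ locV (ball N) (Subring.closure ((OO k x y : Set N) ∪ {τ})) := by
    refine locV_mono (ball N) (Subring.closure_mono ?_) hz
    exact Set.union_subset_union_left _ (LO_le_OO hA hy.le)
  obtain ⟨z', hz1, b', hb', he⟩ := appr (BB k x y τ) (OO k x y) hBball
    (locV_locV (ball N) _) (OO_le_BB x y τ) (locV_locV (ball N) _) (mon x b)
    (OO_le_BB x y τ hbO) hb1 τ (tau_mem_BB x y τ) (P.map (algebraMap E N))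
    (fun j => by rw [Polynomial.coeff_map]; exact hPO j)
    (by rw [Polynomial.coeff_map, h.et.c1, map_one])
    (fun j hj => by
      obtain ⟨c, hc, hcj⟩ := hb j hj
      exact ⟨c, OO_le_BB x y τ hc, by rw [Polynomial.coeff_map]; exact hcj⟩)
    (by
      have h1 := h.et.root
      rw [Polynomial.aeval_def, ← Polynomial.eval_map] at h1
      exact h1) M z hz'
  refine ⟨z', hz1, M • b, ?_, b', hb', ?_⟩
  · rw [mon_nsmul, norm_pow]; exact hM
  · rw [mon_nsmul]; exact he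

theorem GS.mon (h : GS k x y E P τ G) (a : Fin r → ℤ) : G (mon x a) = ‖mon x a‖ :=
  gf_mon_eq h a

theorem GS.le_one (hA : Amb r k N) (h : GS k x y E P τ G) {z : N} (hz : z ∈ BB k x y τ) :
    G z ≤ 1 := by
  obtain ⟨a, ha, b, hb, hb1, he⟩ := hz
  have h1 : G b = 1 := gf_cl_one hA h hb (gf_val.1 hb1)
  have h2 : G z = G a := by rw [← he, map_mul, h1, mul_one]
  rw [h2]
  exact (gf_cl hA h ha).1

theorem GS.eq_one (hA : Amb r k N) (h : GS k x y E P τ G) {z : N} (hz : z ∈ BB k x y τ)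
    (h1 : ‖z‖ = 1) : G z = 1 := by
  obtain ⟨a, ha, b, hb, hb1, he⟩ := hz
  have hb2 : ‖b‖ = 1 := gf_val.1 hb1
  have h2 : G b = 1 := gf_cl_one hA h hb hb2
  have h3 : ‖a‖ = 1 := by rw [← he, norm_mul, h1, hb2, mul_one]
  have h4 : G a = 1 := gf_cl_one hA h ha h3
  rw [← he, map_mul, h2, mul_one] at h4
  exact h4

/-- `Mo` elements have `G z = ‖z‖`. -/
theorem GS.mo (hA : Amb r k N) (h : GS k x y E P τ G) {z : N} (hz : Mo (BB k x y τ) x z) :
    G z = ‖z‖ := by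
  obtain ⟨a, u, hu, hu1, rfl⟩ := hz
  rw [map_mul, norm_mul, h.mon, h.eq_one hA hu hu1, hu1]

/-- `‖z‖ ≤ G z` on `BB`: true on `OO` (`norm_ev_le_gauss`), then by (AP) (if `G z < ‖z‖` choose
`ε < ‖z‖, G z`; `z ≠ 0`). -/
theorem GS.norm_le (hA : Amb r k N) (hr : 0 < r) (h : GS k x y E P τ G) {z : N}
    (hz : z ∈ BB k x y τ) : ‖z‖ ≤ G z := by
  by_contra hcon
  rw [not_le] at hcon
  have hz0 : z ≠ 0 := by
    rintro rfl
    rw [map_zero, norm_zero] at hcon
    exact lt_irrefl _ hcon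
  have hG0 : 0 < G z := G.pos hz0
  obtain ⟨z', hz', a, ha, b, hb, he⟩ := h.ap hA hr (G z) hG0 hz
  have hGd : G (z - z') < G z := by
    rw [he, map_mul, h.mon]
    have h1 := h.le_one hA hb
    have h2 := G.nonneg b
    nlinarith [norm_nonneg (Abh.mon x a)]
  have hnd : ‖z - z'‖ < ‖z‖ := by
    rw [he, norm_mul]
    have h1 := norm_le_of_mem_BB hA h.par.y1.le h.et.lt.le hb
    nlinarith [norm_nonneg b, norm_nonneg (Abh.mon x a)]
  have h3 := gf_iso h.na hGd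
  have h4 := gf_norm_iso hnd
  obtain ⟨n, hn, d, hd, _, _, _, h5, h6⟩ := gf_OO hA h hz'
  have h7 := gf_LO_norm_le hA h hn
  rw [← h5, ← h6, h3, h4] at h7
  exact absurd h7 (not_le.2 hcon)

/-- Equality: (AP) with `ε < ‖z‖`: `‖z'‖ = ‖z‖ = G z = G z'`, `z' d = n`, `n = ev x y Q`,
`‖n‖ = gauss Q`: `norm_ev_eq_gauss`: `z' = mon x a1 * u1`; `z = z' (1 + mon x (a - a1) b u1⁻¹)`
with `‖mon x (a - a1)‖ < 1`. -/
theorem GS.mo_of_eq (hA : Amb r k N) (hr : 0 < r) (h : GS k x y E P τ G) {z : N}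
    (hz : z ∈ BB k x y τ) (h0 : z ≠ 0) (h1 : G z = ‖z‖) : Mo (BB k x y τ) x z := by
  have hy := h.par.y1
  have hxne := h.par.ind.ne
  obtain ⟨z', hz', a, ha, b, hb, he⟩ := h.ap hA hr ‖z‖ (norm_pos_iff.2 h0) hz
  have hbn := norm_le_of_mem_BB hA hy.le h.et.lt.le hb
  have hnd : ‖z - z'‖ < ‖z‖ := by
    rw [he, norm_mul]
    nlinarith [norm_nonneg b, norm_nonneg (Abh.mon x a)]
  have hGd : G (z - z') < G z := by
    rw [he, map_mul, h.mon, h1]
    have h2 := h.le_one hA hb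
    nlinarith [G.nonneg b, norm_nonneg (Abh.mon x a)]
  have h3 := gf_iso h.na hGd
  have h4 := gf_norm_iso hnd
  obtain ⟨n, hn, d, hd, hd1, _, hnd', h5, h6⟩ := gf_OO hA h hz'
  obtain ⟨Q, _, hQ, h7, _⟩ := gf_LO h hn
  have hn0 : n ≠ 0 := by
    intro hn0
    rw [hn0, norm_zero, h4] at h6
    exact (norm_pos_iff.2 h0).ne' h6
  have hQ0 : Q ≠ 0 := by
    rintro rfl
    rw [ev_zero] at hQ
    exact hn0 hQ
  have h8 : ‖Pool.Agent.Lib.TDO.ev x y Q‖ = gauss x Q := by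
    rw [← hQ, ← h7, ← h6, ← h5, h3, h4, h1]
  obtain ⟨a1, u1, hu1, hu2, hu3⟩ := norm_ev_eq_gauss hA h.par.ind hy Q hQ0 h8
  rw [← hQ] at hu3
  have hdi : d⁻¹ ∈ OO k x y := inv_mem_OO hA hy.le (LO_le_OO hA hy.le hd) hd1
  have hd0 : d ≠ 0 := gf_ne_of_norm hd1
  have hz'' : z' = Abh.mon x a1 * (u1 * d⁻¹) := by
    rw [← mul_assoc, ← hu3, ← hnd', mul_assoc, mul_inv_cancel₀ hd0, mul_one]
  have hma : ‖Abh.mon x a1‖ = ‖z‖ := by
    rw [← h4, hz'', norm_mul, norm_mul, hu2, norm_inv, hd1, inv_one, mul_one, mul_one]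
  have hlt : ‖Abh.mon x (a - a1)‖ < 1 := by
    rw [sub_eq_add_neg, mon_add x hxne, mon_neg, norm_mul, norm_inv, hma]
    rw [← div_eq_mul_inv, div_lt_one (norm_pos_iff.2 h0)]
    exact ha
  refine ⟨a1, u1 * d⁻¹ + Abh.mon x (a - a1) * b, ?_, ?_, ?_⟩
  · exact add_mem (OO_le_BB x y τ (mul_mem hu1 hdi))
      (mul_mem (OO_le_BB x y τ (LO_le_OO hA hy.le (mon_mem_LO hlt.le))) hb)
  · have h9 : ‖u1 * d⁻¹‖ = 1 := by rw [norm_mul, norm_inv, hu2, hd1, inv_one, mul_one]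
    have h10 : ‖Abh.mon x (a - a1) * b‖ < 1 := by
      rw [norm_mul]
      nlinarith [norm_nonneg b, norm_nonneg (Abh.mon x (a - a1))]
    rw [← h9]
    apply gf_norm_iso
    have h11 : u1 * d⁻¹ - (u1 * d⁻¹ + Abh.mon x (a - a1) * b) = -(Abh.mon x (a - a1) * b) := by
      ring
    rw [h11, norm_neg, h9]
    exact h10
  · have h12 : z = z' + Abh.mon x a * b := by rw [← he]; ring
    rw [mul_add, ← hz'', ← mul_assoc, ← mon_add x hxne, add_sub_cancel, ← h12]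

/-- `G (mon x a * z) ≤ 1` implies `mon x a * z ∈ BB`: (AP) for `z` with `ε ≤ ‖mon x a‖⁻¹`; reduces
to `mon x a * z'`, `z' d = n`, `n = ev x y Q`: all exponents `a + a'` of `mon x a * n` have norm
`≤ gauss ≤ 1`, so it is in `LO`. -/
theorem GS.mem_of_le (hA : Amb r k N) (hr : 0 < r) (h : GS k x y E P τ G) {z : N}
    (hz : z ∈ BB k x y τ) (a : Fin r → ℤ) (h1 : G (Abh.mon x a * z) ≤ 1) :
    Abh.mon x a * z ∈ BB k x y τ := by
  have hy := h.par.y1
  have hxne := h.par.ind.ne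
  have hma0 : 0 < ‖Abh.mon x a‖ := norm_pos_iff.2 (mon_ne x hxne a)
  obtain ⟨z', hz', a', ha', b, hb, he⟩ := h.ap hA hr ‖Abh.mon x a‖⁻¹ (inv_pos.2 hma0) hz
  have hlt : ‖Abh.mon x (a + a')‖ < 1 := by
    rw [mon_add x hxne, norm_mul]
    calc ‖Abh.mon x a‖ * ‖Abh.mon x a'‖ < ‖Abh.mon x a‖ * ‖Abh.mon x a‖⁻¹ :=
          mul_lt_mul_of_pos_left ha' hma0
      _ = 1 := mul_inv_cancel₀ hma0.ne'
  have hsplit : Abh.mon x a * z = Abh.mon x a * z' + Abh.mon x (a + a') * b := by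
    have h2 : z = z' + Abh.mon x a' * b := by rw [← he]; ring
    rw [h2, mon_add x hxne]; ring
  have hmem : Abh.mon x (a + a') * b ∈ BB k x y τ :=
    mul_mem (OO_le_BB x y τ (LO_le_OO hA hy.le (mon_mem_LO hlt.le))) hb
  have hG1 : G (Abh.mon x a * z') ≤ 1 := by
    have h3 : Abh.mon x a * z' = Abh.mon x a * z - Abh.mon x (a + a') * b := by
      rw [hsplit]; ring
    rw [h3]
    exact (gf_sub h.na _ _).trans (max_le h1 (h.le_one hA hmem))
  obtain ⟨n, hn, d, hd, hd1, hGd1, hnd', h5, h6⟩ := gf_OO hA h hz'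
  obtain ⟨Q, _, hQ, h7, _⟩ := gf_LO h hn
  have hd0 : d ≠ 0 := gf_ne_of_norm hd1
  have hmn : Abh.mon x a * n ∈ LO k x y := by
    obtain ⟨Q', hQ', hc⟩ := exists_shift x y hxne Q a
    rw [mem_LO_iff hxne]
    refine ⟨Q', fun a'' j hne => ?_, by rw [hQ', ← hQ]⟩
    rw [hc] at hne
    have h8 := gf_le_gauss (x := x) hne
    have h9 : ‖Abh.mon x a‖ * (gauss x Q : ℝ) ≤ 1 := by
      rw [map_mul, h5, h7, h.mon] at hG1
      exact hG1
    have h10 : Abh.mon x a'' = Abh.mon x a * Abh.mon x (a'' - a) := by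
      rw [← mon_add x hxne, add_sub_cancel]
    rw [h10, norm_mul]
    exact (mul_le_mul_of_nonneg_left h8 hma0.le).trans h9
  have hfin : Abh.mon x a * z' = (Abh.mon x a * n) * d⁻¹ := by
    rw [← hnd', mul_assoc, mul_assoc, mul_inv_cancel₀ hd0, mul_one]
  rw [hsplit, hfin]
  exact add_mem (OO_le_BB x y τ (gf_OO_div hA h hmn hd hd1)) hmem

/-- `G z < 1`: (AP) with `ε = 1` and `z' d = n = ev x y Q` with all exponents of norm `< 1`; take
the largest norm of an exponent (also of the `a` in (AP)). -/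
theorem GS.lt_one (hA : Amb r k N) (hr : 0 < r) (h : GS k x y E P τ G) {z : N}
    (hz : z ∈ BB k x y τ) (h1 : G z < 1) :
    ∃ a : Fin r → ℤ, ‖Abh.mon x a‖ < 1 ∧ ∃ b ∈ BB k x y τ, z = Abh.mon x a * b := by
  have hy := h.par.y1
  have hxne := h.par.ind.ne
  obtain ⟨z', hz', a', ha', b', hb', he⟩ := h.ap hA hr 1 one_pos hz
  have hzs : z = z' + Abh.mon x a' * b' := by rw [← he]; ring
  obtain ⟨n, hn, d, hd, hd1, hGd1, hnd', h5, h6⟩ := gf_OO hA h hz'
  obtain ⟨Q, _, hQ, h7, _⟩ := gf_LO h hn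
  have hd0 : d ≠ 0 := gf_ne_of_norm hd1
  by_cases hQ0 : Q = 0
  · refine ⟨a', ha', b', hb', ?_⟩
    have hn0 : n = 0 := by rw [hQ, hQ0, ev_zero]
    have hz0 : z' = 0 := by
      rw [hn0] at hnd'
      exact (mul_eq_zero.1 hnd').resolve_right hd0
    rw [hzs, hz0, zero_add]
  · have hG' : G z' < 1 := by
      have h3 : z' = z - Abh.mon x a' * b' := by rw [hzs]; ring
      rw [h3]
      refine (gf_sub h.na _ _).trans_lt (max_lt h1 ?_)
      rw [map_mul, h.mon]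
      have h4 := h.le_one hA hb'
      nlinarith [G.nonneg b', norm_nonneg (Abh.mon x a')]
    obtain ⟨a0, d0, hlead⟩ := exists_lead h.par.ind Q hQ0
    have hg : (gauss x Q : ℝ) = ‖Abh.mon x a0‖ := gauss_lead hlead
    have ha0 : ‖Abh.mon x a0‖ < 1 := by
      rw [← hg, ← h7, ← h5]; exact hG'
    have hma0 : 0 < ‖Abh.mon x a0‖ := norm_pos_iff.2 (mon_ne x hxne a0)
    have hn1 : Abh.mon x (-a0) * n ∈ LO k x y := by
      obtain ⟨Q', hQ', hc⟩ := exists_shift x y hxne Q (-a0)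
      rw [mem_LO_iff hxne]
      refine ⟨Q', fun a'' j hne => ?_, by rw [hQ', ← hQ]⟩
      rw [hc] at hne
      have h8 := gf_le_gauss (x := x) hne
      rw [hg] at h8
      have h10 : Abh.mon x a'' = Abh.mon x (-a0) * Abh.mon x (a'' - -a0) := by
        rw [← mon_add x hxne, add_sub_cancel]
      rw [h10, norm_mul, mon_neg, norm_inv]
      calc ‖Abh.mon x a0‖⁻¹ * ‖Abh.mon x (a'' - -a0)‖ ≤ ‖Abh.mon x a0‖⁻¹ * ‖Abh.mon x a0‖ :=
            mul_le_mul_of_nonneg_left h8 (inv_pos.2 hma0).le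
        _ = 1 := inv_mul_cancel₀ hma0.ne'
    have hz'' : z' = Abh.mon x a0 * ((Abh.mon x (-a0) * n) * d⁻¹) := by
      rw [← mul_assoc, ← mul_assoc, ← mon_add x hxne, add_neg_cancel, mon_zero, one_mul, ← hnd',
        mul_assoc, mul_inv_cancel₀ hd0, mul_one]
    have hc0 := OO_le_BB x y τ (gf_OO_div hA h hn1 hd hd1)
    rcases le_total ‖Abh.mon x a0‖ ‖Abh.mon x a'‖ with hle | hle
    · refine ⟨a', ha', Abh.mon x (a0 - a') * ((Abh.mon x (-a0) * n) * d⁻¹) + b',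
        add_mem (mul_mem (OO_le_BB x y τ (LO_le_OO hA hy.le (mon_mem_LO ?_))) hc0) hb', ?_⟩
      · rw [sub_eq_add_neg, mon_add x hxne, mon_neg, norm_mul, norm_inv]
        exact mul_inv_le_one_of_le₀ hle (norm_nonneg _)
      · rw [mul_add, ← mul_assoc, ← mon_add x hxne, add_sub_cancel, ← hz'', ← hzs]
    · refine ⟨a0, ha0, (Abh.mon x (-a0) * n) * d⁻¹ + Abh.mon x (a' - a0) * b',
        add_mem hc0 (mul_mem (OO_le_BB x y τ (LO_le_OO hA hy.le (mon_mem_LO ?_))) hb'), ?_⟩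
      · rw [sub_eq_add_neg, mon_add x hxne, mon_neg, norm_mul, norm_inv]
        exact mul_inv_le_one_of_le₀ hle (norm_nonneg _)
      · rw [mul_add, ← hz'', ← mul_assoc, ← mon_add x hxne, add_sub_cancel, ← hzs]

/-- `‖z‖ < 1`: `z ≡ n / d` modulo `G < 1`, `n ∈ LO` with `‖n‖ < 1`: `n = (terms with exponent norm < 1)
+ y * n1` (the constant coefficient is zero). -/
theorem GS.norm_lt (hA : Amb r k N) (hr : 0 < r) (h : GS k x y E P τ G) {z : N}
    (hz : z ∈ BB k x y τ) (h1 : ‖z‖ < 1) : ∃ b ∈ BB k x y τ, G (z - y * b) < 1 := by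
  classical
  have hy := h.par.y1
  have hxne := h.par.ind.ne
  obtain ⟨z', hz', a', ha', b', hb', he⟩ := h.ap hA hr 1 one_pos hz
  have hbn := norm_le_of_mem_BB hA hy.le h.et.lt.le hb'
  have hGd : G (z - z') < 1 := by
    rw [he, map_mul, h.mon]
    have h4 := h.le_one hA hb'
    nlinarith [G.nonneg b', norm_nonneg (Abh.mon x a')]
  have hnz' : ‖z'‖ < 1 := by
    have h2 : ‖z - z'‖ < 1 := by
      rw [he, norm_mul]
      nlinarith [norm_nonneg b', norm_nonneg (Abh.mon x a')]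
    have h3 := gf_nsub z (z - z')
    rw [sub_sub_cancel] at h3
    exact h3.trans_lt (max_lt h1 h2)
  obtain ⟨n, hn, d, hd, hd1, hGd1, hnd', h5, h6⟩ := gf_OO hA h hz'
  obtain ⟨Q, hQe, hQ, h7, _⟩ := gf_LO h hn
  have hd0 : d ≠ 0 := gf_ne_of_norm hd1
  have hnn : ‖n‖ < 1 := by rw [← h6]; exact hnz'
  -- split `Q`
  have hsum : n = ∑ m ∈ Q.coeff.support,
      algebraMap k N (Q.coeff m) * (Abh.mon x m.1 * y ^ m.2) := by rw [hQ]; rfl
  set S1 := Q.coeff.support.filter (fun m => ‖Abh.mon x m.1‖ < 1) with hS1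
  set S2 := Q.coeff.support.filter (fun m => ¬ ‖Abh.mon x m.1‖ < 1) with hS2
  set n1 : N := ∑ m ∈ S1, algebraMap k N (Q.coeff m) * (Abh.mon x m.1 * y ^ m.2) with hn1
  set n2 : N := ∑ m ∈ S2, algebraMap k N (Q.coeff m) * (Abh.mon x m.1 * y ^ m.2) with hn2
  have hn12 : n = n1 + n2 := by
    rw [hsum, hn1, hn2, hS1, hS2, Finset.sum_filter_add_sum_filter_not]
  have hGn1 : G n1 < 1 := by
    have h8 : n1 = Pool.Agent.Lib.TDO.ev x y (∑ m ∈ S1, AddMonoidAlgebra.single m (Q.coeff m) : LP k r) := by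
      rw [ev_sum, hn1]
      exact Finset.sum_congr rfl (fun m _ => (ev_single x y m _).symm)
    rw [h8, h.ev]
    apply gf_gauss_lt one_pos
    intro a j hne
    rw [AddMonoidAlgebra.coeff_sum, Finsupp.finsetSum_apply] at hne
    obtain ⟨m, hm, hm1⟩ := Finset.exists_ne_zero_of_sum_ne_zero hne
    rw [AddMonoidAlgebra.coeff_single] at hm1
    have hma : m = (a, j) := by
      by_contra hcon
      exact hm1 (Finsupp.single_eq_of_ne (Ne.symm hcon))
    rw [hS1, Finset.mem_filter] at hm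
    have h9 := hm.2
    rw [hma] at h9
    exact h9
  have hnn1 : ‖n1‖ < 1 := by
    have hn1LO : n1 ∈ LO k x y := by
      rw [hn1]
      refine sum_mem (fun m hm => ?_)
      rw [hS1, Finset.mem_filter] at hm
      exact mul_mem (algebraMap_mem_LO _) (mul_mem (mon_mem_LO hm.2.le) (pow_mem y_mem_LO _))
    exact (gf_LO_norm_le hA h hn1LO).trans_lt hGn1
  have hnn2 : ‖n2‖ < 1 := by
    have h3 : n2 = n - n1 := by rw [hn12]; ring
    rw [h3]
    exact (gf_nsub _ _).trans_lt (max_lt hnn hnn1)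
  have hS2a : ∀ m ∈ S2, m.1 = 0 := by
    intro m hm
    rw [hS2, Finset.mem_filter] at hm
    apply h.par.ind.indep
    exact le_antisymm (hQe m.1 m.2 (Finsupp.mem_support_iff.1 hm.1)) (not_lt.1 hm.2)
  have hn2' : n2 = ∑ m ∈ S2, algebraMap k N (Q.coeff m) * y ^ m.2 := by
    rw [hn2]
    refine Finset.sum_congr rfl (fun m hm => ?_)
    rw [hS2a m hm, mon_zero, one_mul]
  -- the terms divisible by `y`
  set n3 : N := ∑ m ∈ S2.filter (fun m => m.2 ≠ 0), algebraMap k N (Q.coeff m) * y ^ (m.2 - 1)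
    with hn3
  have hn3LO : n3 ∈ LO k x y := by
    rw [hn3]
    exact sum_mem (fun m _ => mul_mem (algebraMap_mem_LO _) (pow_mem y_mem_LO _))
  set c : k := ∑ m ∈ S2.filter (fun m => ¬ m.2 ≠ 0), Q.coeff m with hc
  have hn23 : n2 = y * n3 + algebraMap k N c := by
    rw [hn2', ← Finset.sum_filter_add_sum_filter_not S2 (fun m => m.2 ≠ 0), hn3, hc,
      Finset.mul_sum, map_sum]
    congr 1
    · refine Finset.sum_congr rfl (fun m hm => ?_)
      rw [Finset.mem_filter] at hm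
      obtain ⟨j, hj⟩ := Nat.exists_eq_succ_of_ne_zero hm.2
      rw [hj, Nat.succ_eq_add_one, Nat.add_sub_cancel, pow_succ]
      ring
    · refine Finset.sum_congr rfl (fun m hm => ?_)
      rw [Finset.mem_filter, not_not] at hm
      rw [hm.2, pow_zero, mul_one]
  have hc0 : c = 0 := by
    by_contra hne
    have h8 := hA.unit c hne
    have h9 : algebraMap k N c = n2 - y * n3 := by rw [hn23]; ring
    have h10 : ‖y * n3‖ < 1 := by
      rw [norm_mul]
      have h11 := norm_le_of_mem_LO hA hy.le hn3LO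
      nlinarith [norm_nonneg n3, norm_nonneg y]
    have h12 : ‖algebraMap k N c‖ < 1 := by
      rw [h9]
      exact (gf_nsub _ _).trans_lt (max_lt hnn2 h10)
    rw [h8] at h12
    exact lt_irrefl _ h12
  rw [hc0, map_zero, add_zero] at hn23
  refine ⟨n3 * d⁻¹, OO_le_BB x y τ (gf_OO_div hA h hn3LO hd hd1), ?_⟩
  have hz'' : z' = n * d⁻¹ := by rw [← hnd', mul_assoc, mul_inv_cancel₀ hd0, mul_one]
  have hfin : z - y * (n3 * d⁻¹) = (z - z') + n1 * d⁻¹ := by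
    rw [hz'', hn12, hn23]; ring
  rw [hfin]
  refine (h.na _ _).trans_lt (max_lt hGd ?_)
  rw [map_mul, map_inv₀, hGd1, inv_one, mul_one]
  exact hGn1

end Pool.Agent.Lib.TDO
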