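import Pool.Agent.Lib.TDO.CompG
import Pool.Agent.Lib.TDO.ExG

/-!
# Module InvG: the Gauss norms of late stages are invariant

Step lemma (`exists_next`): for a stage `(x, y)` there is a later good stage `(x', y')` with
`σ (BB s) ⊆ BB s'` and `σ (x i)` monomial at `s'`: `thmB` for `Z = {σ (x i)} ∪ {σ y, σ τ} \ 0`; the ring
`BB s` is generated (up to inverses of elements of norm one) by `k`, the monomials `mon x a` of
norm `≤ 1`, `y`, `τ`, and `σ (mon x a)` is monomial at `s'` of norm `≤ 1`.  It stays true at every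
later stage.
Main.  Choose `s_0, s_1, .., s_l`, `s_(i+1)` from `s_i` by the step lemma (`s_0` good and later than
`(x, y)`).  Let `t` be a good stage later than `s_l`, with `G`.  `comp_G` for `s_(l-1)`, `t`: say
`G (σ z) ≤ G z` on `BB s_(l-1)` (the other case is symmetric).  For `z ∈ BB s_0`,
`σ^i z ∈ BB s_i ≤ BB s_(l-1)` for `i ≤ l - 1`, so
`G z = G (σ^l z) ≤ G (σ^(l-1) z) ≤ .. ≤ G (σ z) ≤ G z`.  Hence `G (σ z) = G z` on `BB s_0`, and on
`N`, whose elements are quotients of elements of `BB s_0` (`N = E(τ)`; use `etale_unit` at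
`E = k(x, y)`, or: `N` is the fraction field, elements of `E ⊔ k(τ) = ⊤`; `mon x a` quotients).
-/

namespace Pool.Agent.Lib.TDO

open Pool.Agent.Lib.MP_3029eb_ag Pool.Agent.Lib.MP_3029eb_ag.Abh

section aux
variable {k W : Type} [Field k] [NormedField W] [IsUltrametricDist W] [Algebra k W] {r : ℕ}

private theorem invg_mo_one {A : Subring W} {x : Fin r → W} : Mo A x 1 :=
  ⟨0, 1, one_mem _, norm_one, by rw [mon_zero, one_mul]⟩

private theorem invg_mo_inv {x : Fin r → W} {y τ : W} {z : W} (h : Mo (BB k x y τ) x z) :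
    Mo (BB k x y τ) x z⁻¹ := by
  obtain ⟨a, u, hu, hu1, rfl⟩ := h
  refine ⟨-a, u⁻¹, inv_mem_BB hu hu1, by rw [norm_inv, hu1, inv_one], ?_⟩
  rw [mon_neg, mul_inv]

private theorem invg_mo_pow {A : Subring W} {x : Fin r → W} (hx : ∀ i, x i ≠ 0) {z : W}
    (h : Mo A x z) (n : ℕ) : Mo A x (z ^ n) := by
  induction n with
  | zero => rw [pow_zero]; exact invg_mo_one
  | succ n ih => rw [pow_succ]; exact Mo.mul hx ih h

private theorem invg_mo_zpow {x : Fin r → W} {y τ : W} (hx : ∀ i, x i ≠ 0) {z : W}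
    (h : Mo (BB k x y τ) x z) (n : ℤ) : Mo (BB k x y τ) x (z ^ n) := by
  cases n with
  | ofNat n =>
    rw [Int.ofNat_eq_natCast, zpow_natCast]
    exact invg_mo_pow hx h n
  | negSucc n =>
    rw [zpow_negSucc]
    exact invg_mo_inv (invg_mo_pow hx h (n + 1))

private theorem invg_mo_mon {s : ℕ} {x : Fin r → W} {y τ : W} (hx : ∀ i, x i ≠ 0) {w : Fin s → W}
    (h : ∀ i, Mo (BB k x y τ) x (w i)) (a : Fin s → ℤ) : Mo (BB k x y τ) x (mon w a) := by
  classical
  have h1 : ∀ S : Finset (Fin s), Mo (BB k x y τ) x (∏ i ∈ S, w i ^ a i) := by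
    intro S
    induction S using Finset.induction_on with
    | empty => rw [Finset.prod_empty]; exact invg_mo_one
    | insert i S hi ih =>
      rw [Finset.prod_insert hi]
      exact Mo.mul hx (invg_mo_zpow hx (h i) (a i)) ih
  exact h1 Finset.univ

private theorem invg_LO_le_BB (x : Fin r → W) (y τ : W) : LO k x y ≤ BB k x y τ := by
  intro z hz
  exact ⟨z, Subring.subset_closure (Or.inl hz), 1, one_mem _, map_one _, mul_one z⟩

/-- the image of `BB` under an isometry -/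
private theorem invg_map {x : Fin r → W} {y τ : W} {B : Subring W} (σ : W ≃ₐ[k] W)
    (hiso : ∀ z, ‖σ z‖ = ‖z‖) (hk : ∀ c : k, algebraMap k W c ∈ B)
    (hinv : ∀ z ∈ B, ‖z‖ = 1 → z⁻¹ ∈ B) (hm : ∀ a : Fin r → ℤ, ‖mon x a‖ ≤ 1 → σ (mon x a) ∈ B)
    (hy : σ y ∈ B) (hτ : σ τ ∈ B) {z : W} (hz : z ∈ BB k x y τ) : σ z ∈ B := by
  have h1 : LO k x y ≤ B.comap (σ : W →+* W) := by
    unfold LO
    rw [Subring.closure_le]
    rintro v ((⟨c, rfl⟩ | ⟨a, ha, rfl⟩) | hv)
    · show σ (algebraMap k W c) ∈ B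
      rw [AlgEquiv.commutes]
      exact hk c
    · exact hm a ha
    · rw [Set.mem_singleton_iff] at hv
      rw [hv]
      exact hy
  have h2 : Subring.closure ((LO k x y : Set W) ∪ {τ}) ≤ B.comap (σ : W →+* W) := by
    rw [Subring.closure_le]
    rintro v (hv | hv)
    · exact h1 hv
    · rw [Set.mem_singleton_iff] at hv
      rw [hv]
      exact hτ
  obtain ⟨a, ha, b, hb, hb1, hab⟩ := hz
  have hb2 : ‖b‖ = 1 := (ball_val_eq_one b).1 hb1
  have hb0 : b ≠ 0 := by
    rintro rfl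
    rw [norm_zero] at hb2
    exact zero_ne_one hb2
  have ha' : σ a ∈ B := h2 ha
  have hb' : σ b ∈ B := h2 hb
  have h3 : z = a * b⁻¹ := by
    rw [← hab, mul_assoc, mul_inv_cancel₀ hb0, mul_one]
  rw [h3, map_mul, map_inv₀]
  exact mul_mem ha' (hinv _ hb' (by rw [hiso, hb2]))

end aux

/-- The step lemma. -/
theorem exists_next {k N : Type} [Field k] [NormedField N] [IsUltrametricDist N] [Algebra k N]
    {r : ℕ} (hA : Amb r k N) (hr : 0 < r) {x : Fin r → N} {y : N} (hP : Par k x y)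
    (E : IntermediateField k N) (hE : Kxy k x y = E) (P : Polynomial E) (τ : N) (hEt : Et E P τ)
    (hd : τ ∈ cl E) (htop : E ⊔ IntermediateField.adjoin k {τ} = ⊤) (σ : N ≃ₐ[k] N)
    (hiso : ∀ z, ‖σ z‖ = ‖z‖) :
    ∃ (x' : Fin r → N) (y' : N), Par k x' y' ∧ Rf k x y x' y' ∧
      (∀ j, j ≠ 1 → P.coeff j ≠ 0 → Mo (OO k x' y') x' ((P.coeff j : E) : N)) ∧
      (∀ z ∈ BB k x y τ, σ z ∈ BB k x' y' τ) ∧ ∀ i, Mo (BB k x' y' τ) x' (σ (x i)) := by
  classical
  obtain ⟨Z, hZdef⟩ : ∃ Z : Finset N, Z = (insert (σ y) (insert (σ τ)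
      (Finset.univ.image fun i => σ (x i)))).filter (fun z => z ≠ 0) := ⟨_, rfl⟩
  have hZmem : ∀ z, z ∈ Z ↔ ((z = σ y ∨ z = σ τ ∨ ∃ i, σ (x i) = z) ∧ z ≠ 0) := by
    intro z
    rw [hZdef, Finset.mem_filter, Finset.mem_insert, Finset.mem_insert, Finset.mem_image]
    simp only [Finset.mem_univ, true_and]
  obtain ⟨x', y', hP', hrf, hgood, hmo⟩ := thmB hA hr hP E hE P τ hEt hd Z (fun z hz => by
    refine ⟨?_, ((hZmem z).1 hz).2⟩
    rw [htop]
    exact IntermediateField.mem_top)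
  have hx' := hP'.ind.ne
  have hmx : ∀ i, Mo (BB k x' y' τ) x' (σ (x i)) := by
    intro i
    refine hmo _ ((hZmem _).2 ⟨Or.inr (Or.inr ⟨i, rfl⟩), ?_⟩)
    rw [Ne, map_eq_zero_iff σ σ.injective]
    exact hP.ind.ne i
  have hy : σ y ∈ BB k x' y' τ := by
    by_cases h0 : σ y = 0
    · rw [h0]; exact zero_mem _
    · exact Mo.mem_BB hA (hmo _ ((hZmem _).2 ⟨Or.inl rfl, h0⟩)) (by rw [hiso]; exact hP.y1.le)
  have hτ : σ τ ∈ BB k x' y' τ := by
    by_cases h0 : σ τ = 0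
    · rw [h0]; exact zero_mem _
    · exact Mo.mem_BB hA (hmo _ ((hZmem _).2 ⟨Or.inr (Or.inl rfl), h0⟩))
        (by rw [hiso]; exact hEt.lt.le)
  refine ⟨x', y', hP', hrf, hgood, fun z hz => ?_, hmx⟩
  refine invg_map σ hiso (fun c => invg_LO_le_BB x' y' τ (algebraMap_mem_LO c))
    (fun z hz h1 => inv_mem_BB hz h1) (fun a ha => ?_) hy hτ hz
  have h1 : σ (mon x a) = mon (fun i => σ (x i)) a := by
    unfold mon
    rw [map_prod]
    exact Finset.prod_congr rfl fun i _ => map_zpow₀ σ _ _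
  refine Mo.mem_BB hA ?_ (by rw [hiso]; exact ha)
  rw [h1]
  exact invg_mo_mon hx' hmx a

theorem inv_G {k N : Type} [Field k] [NormedField N] [IsUltrametricDist N] [Algebra k N]
    {r : ℕ} (hA : Amb r k N) (hr : 0 < r) {x : Fin r → N} {y : N} (hP : Par k x y)
    (E : IntermediateField k N) (hE : Kxy k x y = E) (P : Polynomial E) (τ : N) (hEt : Et E P τ)
    (hd : τ ∈ cl E) (htop : E ⊔ IntermediateField.adjoin k {τ} = ⊤) (σ : N ≃ₐ[k] N)
    (hiso : ∀ z, ‖σ z‖ = ‖z‖) (l : ℕ) (hl : 1 ≤ l) (hσ : σ ^ l = 1) :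
    ∃ (x' : Fin r → N) (y' : N), Par k x' y' ∧ Rf k x y x' y' ∧
      ∀ (x1 : Fin r → N) (y1 : N) (G : AbsoluteValue N ℝ), Rf k x' y' x1 y1 →
        GS k x1 y1 E P τ G → ∀ z, G (σ z) = G z := by
  classical
  have hτ1 : ‖τ‖ ≤ 1 := hEt.lt.le
  -- the chain of stages
  let St : Type := {s : (Fin r → N) × N // Par k s.1 s.2 ∧ Kxy k s.1 s.2 = E}
  have hstep : ∀ s : St, ∃ s' : St, Rf k s.1.1 s.1.2 s'.1.1 s'.1.2 ∧
      (∀ j, j ≠ 1 → P.coeff j ≠ 0 → Mo (OO k s'.1.1 s'.1.2) s'.1.1 ((P.coeff j : E) : N)) ∧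
      (∀ z ∈ BB k s.1.1 s.1.2 τ, σ z ∈ BB k s'.1.1 s'.1.2 τ) ∧
      ∀ i, Mo (BB k s'.1.1 s'.1.2 τ) s'.1.1 (σ (s.1.1 i)) := by
    intro s
    obtain ⟨x', y', h1, h2, h3, h4, h5⟩ :=
      exists_next hA hr s.2.1 E s.2.2 P τ hEt hd htop σ hiso
    exact ⟨⟨(x', y'), h1, by rw [← s.2.2]; exact h2.fld⟩, h2, h3, h4, h5⟩
  choose nx hnx1 hnx2 hnx3 hnx4 using hstep
  let s0 : St := ⟨(x, y), hP, hE⟩
  let s : ℕ → St := fun i => nx^[i + 1] s0
  have hs0 : s 0 = nx s0 := rfl
  have hsucc : ∀ i, s (i + 1) = nx (s i) := fun i => Function.iterate_succ_apply' nx (i + 1) s0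
  have hgood : ∀ i, ∀ j, j ≠ 1 → P.coeff j ≠ 0 →
      Mo (OO k (s i).1.1 (s i).1.2) (s i).1.1 ((P.coeff j : E) : N) := by
    intro i
    cases i with
    | zero => rw [hs0]; exact hnx2 s0
    | succ i => rw [hsucc]; exact hnx2 (s i)
  have hrf0 : ∀ i, Rf k x y (s i).1.1 (s i).1.2 := by
    intro i
    induction i with
    | zero => rw [hs0]; exact hnx1 s0
    | succ i ih =>
      refine Rf.trans hA hP (s i).2.1 (s (i + 1)).2.1 ih ?_
      rw [hsucc]
      exact hnx1 (s i)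
  have hrf : ∀ i j, i ≤ j → Rf k (s i).1.1 (s i).1.2 (s j).1.1 (s j).1.2 := by
    intro i j hij
    induction j, hij using Nat.le_induction with
    | base => exact Rf.refl hA (s i).2.1
    | succ j hj ih =>
      refine Rf.trans hA (s i).2.1 (s j).2.1 (s (j + 1)).2.1 ih ?_
      rw [hsucc]
      exact hnx1 (s j)
  have hσB : ∀ i, ∀ z ∈ BB k (s i).1.1 (s i).1.2 τ, σ z ∈ BB k (s (i + 1)).1.1 (s (i + 1)).1.2 τ := by
    intro i z hz
    rw [hsucc]
    exact hnx3 (s i) z hz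
  have hpow : ∀ i, ∀ z ∈ BB k (s 0).1.1 (s 0).1.2 τ, (σ ^ i) z ∈ BB k (s i).1.1 (s i).1.2 τ := by
    intro i
    induction i with
    | zero => intro z hz; rw [pow_zero]; exact hz
    | succ i ih =>
      intro z hz
      have h1 : (σ ^ (i + 1)) z = σ ((σ ^ i) z) := by rw [pow_succ']; rfl
      rw [h1]
      exact hσB i _ (ih z hz)
  refine ⟨(s l).1.1, (s l).1.2, (s l).2.1, hrf0 l, ?_⟩
  intro x1 y1 G hR ht
  obtain ⟨m, rfl⟩ : ∃ m, l = m + 1 := ⟨l - 1, by omega⟩
  have hPt : Par k x1 y1 := ht.par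
  have hRt : ∀ i, i ≤ m + 1 → Rf k (s i).1.1 (s i).1.2 x1 y1 := fun i hi =>
    Rf.trans hA (s i).2.1 (s (m + 1)).2.1 hPt (hrf i (m + 1) hi) hR
  obtain ⟨G0, hG0⟩ := exists_GS hA (s m).2.1 E (s m).2.2 P τ hEt (hgood m) htop
  have hcomp := comp_G hA hr hG0 ht (hRt m (by omega)) σ hiso
    (fun z hz => BB_mono hA hPt.y1.le hτ1 (hRt (m + 1) le_rfl).le (hσB m z hz))
    (fun i => by
      have h1 : Mo (BB k (s (m + 1)).1.1 (s (m + 1)).1.2 τ) (s (m + 1)).1.1 (σ ((s m).1.1 i)) := by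
        rw [hsucc]
        exact hnx4 (s m) i
      exact Mo.mono_BB hA (s (m + 1)).2.1 hPt (hRt (m + 1) le_rfl) hτ1 h1)
  have hmem : ∀ i, i ≤ m → ∀ z ∈ BB k (s 0).1.1 (s 0).1.2 τ,
      (σ ^ i) z ∈ BB k (s m).1.1 (s m).1.2 τ := fun i hi z hz =>
    BB_mono hA (s m).2.1.y1.le hτ1 (hrf i m hi).le (hpow i z hz)
  have hBB : ∀ z ∈ BB k (s 0).1.1 (s 0).1.2 τ, G (σ z) = G z := by
    intro z hz
    have hlast : (σ ^ (m + 1)) z = z := by
      rw [hσ]
      rfl
    have hs1 : ∀ i, (σ ^ (i + 1)) z = σ ((σ ^ i) z) := fun i => by rw [pow_succ']; rfl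
    rcases hcomp with hc | hc
    · have h1 : ∀ i, i ≤ m → G ((σ ^ (i + 1)) z) ≤ G (σ z) := by
        intro i
        induction i with
        | zero => intro _; rw [zero_add, pow_one]
        | succ i ih =>
          intro hi
          rw [hs1 (i + 1)]
          exact (hc _ (hmem (i + 1) hi z hz)).trans (ih (by omega))
      have h2 := h1 m le_rfl
      rw [hlast] at h2
      have h3 : G (σ z) ≤ G z := hc z (by
        have := hmem 0 (Nat.zero_le m) z hz
        rw [pow_zero] at this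
        exact this)
      exact le_antisymm h3 h2
    · have h1 : ∀ i, i ≤ m → G (σ z) ≤ G ((σ ^ (i + 1)) z) := by
        intro i
        induction i with
        | zero => intro _; rw [zero_add, pow_one]
        | succ i ih =>
          intro hi
          rw [hs1 (i + 1)]
          exact (ih (by omega)).trans (hc _ (hmem (i + 1) hi z hz))
      have h2 := h1 m le_rfl
      rw [hlast] at h2
      have h3 : G z ≤ G (σ z) := hc z (by
        have := hmem 0 (Nat.zero_le m) z hz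
        rw [pow_zero] at this
        exact this)
      exact le_antisymm h2 h3
  -- all elements are quotients of elements of `BB`
  intro z
  obtain ⟨B, hB⟩ : ∃ B : Subring N, B = BB k (s 0).1.1 (s 0).1.2 τ := ⟨_, rfl⟩
  have hz : z ∈ Subfield.closure (B : Set N) := by
    let F : IntermediateField k N :=
      { Subfield.closure (B : Set N) with
        algebraMap_mem' := fun c => Subfield.subset_closure (by
          rw [hB]
          exact invg_LO_le_BB _ _ τ (algebraMap_mem_LO c)) }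
    have hF : ∀ v, v ∈ B → v ∈ F := fun v hv => Subfield.subset_closure hv
    have h1 : E ≤ F := by
      rw [← (s 0).2.2]
      refine Kxy_le _ _ (fun i => hF _ ?_) (hF _ ?_)
      · rw [hB]
        refine invg_LO_le_BB _ _ τ ?_
        rw [← mon_single (s 0).1.1 i]
        refine mon_mem_LO ?_
        rw [mon_single]
        exact ((s 0).2.1.ind.lt i).le
      · rw [hB]
        exact invg_LO_le_BB _ _ τ y_mem_LO
    have h2 : IntermediateField.adjoin k {τ} ≤ F := by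
      rw [IntermediateField.adjoin_le_iff]
      intro v hv
      rw [Set.mem_singleton_iff] at hv
      rw [hv]
      refine hF _ ?_
      rw [hB]
      exact tau_mem_BB _ _ τ
    have h3 : (⊤ : IntermediateField k N) ≤ F := by
      rw [← htop]
      exact sup_le h1 h2
    exact h3 IntermediateField.mem_top
  rw [Subfield.mem_closure_iff] at hz
  obtain ⟨a, ha, b, hb, hab⟩ := hz
  rw [Subring.closure_eq, hB] at ha hb
  rw [← hab, map_div₀ σ, map_div₀ G, map_div₀ G, hBB a ha, hBB b hb]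

end Pool.Agent.Lib.TDO
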