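import Pool.Agent.Lib.TDO.Kummer

/-!
# Module KumAut: the automorphism of a tame Kummer extension

`F0 ≤ W`, `cl F0` complete, `w^l ∈ F0`, `w ∉ cl F0`, `l` prime, invertible in `k`; `F1 = F0(w)`.
(1) `‖w‖^j ≠ ‖a‖` for `0 < j < l`, `a ∈ F0`: otherwise (Bezout, `‖w‖^l = ‖w^l‖` is also the norm of an
element of `F0`) `‖w‖ = ‖b‖` with `b ∈ F0`; `w / b` has norm one, residue `c ∈ k`, `c ≠ 0`;
`w / (b c) = 1 + ε`, `‖ε‖ < 1`, and `(1 + ε)^l ∈ F0`; `one_root` in `cl F0` gives `t ∈ cl F0` with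
`(1 + t)^l = (1 + ε)^l`, `‖t‖ < 1`; two such roots are equal (`(1+ε)/(1+t)` is an `l`-th root of unity
in `k`, congruent to `1`), so `w ∈ cl F0`, contradiction.
(2) So the elements `1, w, .., w^(l-1)` are linearly independent over `F0` and
`‖∑ a_j w^j‖ = max ‖a_j w^j‖`; `[F1 : F0] = l` and `F1 = ⊕ F0 w^j`.
(3) `ζ ∈ k` a primitive `l`-th root of unity; `σ (∑ a_j w^j) = ∑ ζ^j a_j w^j`: an automorphism of `F1`
over `F0` (e.g. from `X^l - w^l` irreducible over `F0`, or by `autAdjoinRoot..`), isometric by (2),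
`σ^l = 1`, fixed elements `F0`.
-/

namespace Pool.Agent.Lib.TDO

open Pool.Agent.Lib.MP_3029eb_ag Pool.Agent.Lib.MP_3029eb_ag.Abh

private theorem KumAut_mem_range {k W : Type} [Field k] [IsAlgClosed k] [Field W] [Algebra k W]
    (z : W) (l : ℕ) (hl : 0 < l) (hz : z ^ l = 1) : ∃ c : k, algebraMap k W c = z := by
  have hint : IsIntegral k z := by
    refine ⟨Polynomial.X ^ l - Polynomial.C 1, Polynomial.monic_X_pow_sub_C 1 hl.ne', ?_⟩
    simp [hz]
  have h1 := IsAlgClosed.degree_eq_one_of_irreducible k (minpoly.irreducible hint)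
  obtain ⟨c, hc⟩ := minpoly.mem_range_of_degree_eq_one k z h1
  exact ⟨c, hc⟩

private theorem KumAut_le_cl {k W : Type} [Field k] [NormedField W] [Algebra k W]
    (E : IntermediateField k W) : E ≤ cl E := fun _ hz => E.toSubfield.le_topologicalClosure hz

/-- sums of terms of distinct norms -/
private theorem KumAut_sum {W : Type} [NormedField W] [IsUltrametricDist W] (S : Finset ℕ)
    (f : ℕ → W) (hf : ∀ i ∈ S, ∀ j ∈ S, i ≠ j → f i ≠ 0 → ‖f i‖ ≠ ‖f j‖) :
    ∀ j ∈ S, ‖f j‖ ≤ ‖∑ i ∈ S, f i‖ := by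
  classical
  intro j hj
  obtain ⟨m, hm, hmax⟩ := Finset.exists_max_image S (fun i => ‖f i‖) ⟨j, hj⟩
  refine (hmax j hj).trans ?_
  by_cases h0 : f m = 0
  · rw [h0, norm_zero]
    exact norm_nonneg _
  · have hpos : 0 < ‖f m‖ := norm_pos_iff.2 h0
    have hlt : ‖∑ i ∈ S.erase m, f i‖ < ‖f m‖ := by
      rcases (S.erase m).eq_empty_or_nonempty with he | hne
      · rw [he, Finset.sum_empty, norm_zero]
        exact hpos
      · obtain ⟨i, hi, hi'⟩ := IsUltrametricDist.exists_norm_finsetSum_le_of_nonempty hne f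
        refine hi'.trans_lt (lt_of_le_of_ne (hmax i (Finset.mem_of_mem_erase hi)) ?_)
        exact (hf m hm i (Finset.mem_of_mem_erase hi) (Finset.ne_of_mem_erase hi).symm h0).symm
    rw [← Finset.add_sum_erase S f hm,
      IsUltrametricDist.norm_add_eq_max_of_norm_ne_norm hlt.ne', max_eq_left hlt.le]

private theorem KumAut_le {W : Type} [NormedField W] [IsUltrametricDist W] (S : Finset ℕ)
    (f g : ℕ → W) (hf : ∀ i ∈ S, ∀ j ∈ S, i ≠ j → f i ≠ 0 → ‖f i‖ ≠ ‖f j‖)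
    (hfg : ∀ i ∈ S, ‖g i‖ = ‖f i‖) : ‖∑ i ∈ S, g i‖ ≤ ‖∑ i ∈ S, f i‖ := by
  refine IsUltrametricDist.norm_sum_le_of_forall_le_of_nonneg (norm_nonneg _) fun i hi => ?_
  rw [hfg i hi]
  exact KumAut_sum S f hf i hi

section
variable {k W : Type} [Field k] [IsAlgClosed k] [NormedField W]
    [IsUltrametricDist W] [Algebra k W] {r : ℕ}

private theorem KumAut_base (hA : Amb r k W) (F0 : IntermediateField k W)
    (hc : IsComplete ((cl F0 : IntermediateField k W) : Set W)) (l : ℕ) (hl : l.Prime)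
    (hlk : (l : k) ≠ 0) (w : W) (hw : w ^ l ∈ F0) (hw0 : w ∉ cl F0) (b : W) (hb : b ∈ F0)
    (hb0 : b ≠ 0) : ‖w‖ ≠ ‖b‖ := by
  intro h
  have hwb : ‖w / b‖ = 1 := by
    rw [norm_div, h, div_self (norm_ne_zero_iff.2 hb0)]
  obtain ⟨c, hcc⟩ := hA.res (w / b) hwb.le
  have hc0 : c ≠ 0 := by
    rintro rfl
    rw [map_zero, sub_zero, hwb] at hcc
    exact lt_irrefl _ hcc
  have hcn := hA.unit c hc0
  have hcW : algebraMap k W c ≠ 0 := fun h0 => by
    rw [h0, norm_zero] at hcn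
    exact zero_ne_one hcn
  set ε : W := w / (b * algebraMap k W c) - 1 with hε
  have hε1 : ‖ε‖ < 1 := by
    have h1 : ε = (w / b - algebraMap k W c) / algebraMap k W c := by
      rw [hε]
      field_simp
    rw [h1, norm_div, hcn, div_one]
    exact hcc
  have hw1 : w = b * algebraMap k W c * (1 + ε) := by
    rw [hε]
    field_simp
    ring
  have hbc : b * algebraMap k W c ∈ F0 := mul_mem hb (F0.algebraMap_mem c)
  have hpow : (1 + ε) ^ l ∈ F0 := by
    have h1 : (1 + ε) ^ l = w ^ l / (b * algebraMap k W c) ^ l := by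
      rw [← div_pow]
      congr 1
      rw [hε]
      ring
    rw [h1]
    exact div_mem hw (pow_mem hbc l)
  have hδ : (1 + ε) ^ l - 1 ∈ cl F0 := KumAut_le_cl F0 (sub_mem hpow (one_mem _))
  have hn1 : ‖(1 : W) + ε‖ = 1 := by
    have h1 : ‖(1 : W)‖ ≠ ‖ε‖ := by rw [norm_one]; exact hε1.ne'
    rw [IsUltrametricDist.norm_add_eq_max_of_norm_ne_norm h1, norm_one, max_eq_left hε1.le]
  have hδ1 : ‖(1 + ε) ^ l - 1‖ < 1 := by
    have h1 : (1 + ε) ^ l - 1 = (∑ i ∈ Finset.range l, (1 + ε) ^ i) * ε := by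
      have h2 := geom_sum_mul (1 + ε) l
      rw [← h2]
      ring
    rw [h1, norm_mul]
    have h3 : ‖∑ i ∈ Finset.range l, (1 + ε) ^ i‖ ≤ 1 :=
      IsUltrametricDist.norm_sum_le_of_forall_le_of_nonneg zero_le_one fun i _ => by
        rw [norm_pow, hn1, one_pow]
    exact (mul_le_of_le_one_left (norm_nonneg _) h3).trans_lt hε1
  obtain ⟨t, ht, ht1, htl⟩ := one_root hA l hlk hc hδ hδ1
  rw [add_sub_cancel] at htl
  have hnt : ‖(1 : W) + t‖ = 1 := by
    have h1 : ‖(1 : W)‖ ≠ ‖t‖ := by rw [norm_one]; exact ht1.ne'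
    rw [IsUltrametricDist.norm_add_eq_max_of_norm_ne_norm h1, norm_one, max_eq_left ht1.le]
  have ht0 : (1 : W) + t ≠ 0 := norm_ne_zero_iff.1 (by rw [hnt]; exact one_ne_zero)
  obtain ⟨ρ, hρ⟩ := KumAut_mem_range (k := k) ((1 + ε) / (1 + t)) l hl.pos (by
    rw [div_pow, htl, div_self]
    exact pow_ne_zero _ (norm_ne_zero_iff.1 (by rw [hn1]; exact one_ne_zero)))
  have hρ1 : ρ = 1 := by
    by_contra hne
    have h1 := hA.unit (ρ - 1) (sub_ne_zero.2 hne)
    rw [map_sub, map_one, hρ] at h1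
    have h2 : (1 + ε) / (1 + t) - 1 = (ε - t) / (1 + t) := by
      field_simp
      ring
    rw [h2, norm_div, hnt, div_one] at h1
    have h3 : ‖ε - t‖ < 1 := by
      rw [sub_eq_add_neg]
      refine (IsUltrametricDist.norm_add_le_max _ _).trans_lt (max_lt hε1 ?_)
      rw [norm_neg]
      exact ht1
    linarith
  rw [hρ1, map_one] at hρ
  have h4 : (1 : W) + ε = 1 + t := by
    rw [eq_comm, div_eq_one_iff_eq ht0] at hρ
    exact hρ
  apply hw0
  rw [hw1, h4]
  exact mul_mem (KumAut_le_cl F0 hbc) (add_mem (one_mem _) ht)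

private theorem KumAut_norm (hA : Amb r k W) (F0 : IntermediateField k W)
    (hc : IsComplete ((cl F0 : IntermediateField k W) : Set W)) (l : ℕ) (hl : l.Prime)
    (hlk : (l : k) ≠ 0) (w : W) (hw : w ^ l ∈ F0) (hw0 : w ∉ cl F0) (m : ℕ) (hm0 : 0 < m)
    (hm : m < l) (a : W) (ha : a ∈ F0) (ha0 : a ≠ 0) : ‖w‖ ^ m ≠ ‖a‖ := by
  intro h
  have hwne : w ≠ 0 := fun h0 => hw0 (h0 ▸ zero_mem _)
  have hcop : Nat.Coprime m l := by
    rw [Nat.coprime_comm, hl.coprime_iff_not_dvd]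
    exact Nat.not_dvd_of_pos_of_lt hm0 hm
  have hbez := Nat.gcd_eq_gcd_ab m l
  rw [hcop] at hbez
  refine KumAut_base hA F0 hc l hl hlk w hw hw0 (a ^ (Nat.gcdA m l) * (w ^ l) ^ (Nat.gcdB m l))
    (mul_mem (zpow_mem ha _) (zpow_mem hw _))
    (mul_ne_zero (zpow_ne_zero _ ha0) (zpow_ne_zero _ (pow_ne_zero _ hwne))) ?_
  have hn : ‖w‖ ≠ 0 := norm_ne_zero_iff.2 hwne
  rw [norm_mul, norm_zpow, norm_zpow, norm_pow, ← h, ← zpow_natCast ‖w‖ m, ← zpow_natCast ‖w‖ l,
    ← zpow_mul, ← zpow_mul, ← zpow_add₀ hn, ← hbez]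
  simp

private theorem KumAut_dist (hA : Amb r k W) (F0 : IntermediateField k W)
    (hc : IsComplete ((cl F0 : IntermediateField k W) : Set W)) (l : ℕ) (hl : l.Prime)
    (hlk : (l : k) ≠ 0) (w : W) (hw : w ^ l ∈ F0) (hw0 : w ∉ cl F0) (a : ℕ → W)
    (ha : ∀ j, a j ∈ F0) : ∀ i ∈ Finset.range l, ∀ j ∈ Finset.range l, i ≠ j →
      a i * w ^ i ≠ 0 → ‖a i * w ^ i‖ ≠ ‖a j * w ^ j‖ := by
  have hwne : w ≠ 0 := fun h0 => hw0 (h0 ▸ zero_mem _)
  have hn : ‖w‖ ≠ 0 := norm_ne_zero_iff.2 hwne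
  have key : ∀ i j, j < l → i < j → a i ≠ 0 → a j ≠ 0 → ‖a i * w ^ i‖ ≠ ‖a j * w ^ j‖ := by
    intro i j hj hij hi0 hj0 h
    refine KumAut_norm hA F0 hc l hl hlk w hw hw0 (j - i) (by omega) (by omega)
      (a i / a j) (div_mem (ha i) (ha j)) (div_ne_zero hi0 hj0) ?_
    rw [norm_mul, norm_mul, norm_pow, norm_pow] at h
    have hj0' : ‖a j‖ ≠ 0 := norm_ne_zero_iff.2 hj0
    have h1 : ‖w‖ ^ j = ‖w‖ ^ (j - i) * ‖w‖ ^ i := by
      rw [← pow_add, Nat.sub_add_cancel hij.le]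
    rw [norm_div, eq_div_iff hj0']
    rw [h1] at h
    have h2 : ‖w‖ ^ i ≠ 0 := pow_ne_zero _ hn
    apply mul_right_cancel₀ h2
    rw [h]
    ring
  intro i hi j hj hij hi0 h
  have hi1 : a i ≠ 0 := left_ne_zero_of_mul hi0
  have hj1 : a j ≠ 0 := by
    intro h0
    rw [h0, zero_mul, norm_zero] at h
    exact hi0 (norm_eq_zero.1 h)
  rcases lt_or_gt_of_ne hij with h' | h'
  · exact key i j (Finset.mem_range.1 hj) h' hi1 hj1 h
  · exact key j i (Finset.mem_range.1 hi) h' hj1 hi1 h.symm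

omit [IsUltrametricDist W] in
private theorem KumAut_irr (F0 : IntermediateField k W) (l : ℕ) (hl : l.Prime)
    (w : W) (hw : w ^ l ∈ F0) (hw0 : w ∉ F0) :
    Irreducible (Polynomial.X ^ l - Polynomial.C (⟨w ^ l, hw⟩ : F0)) := by
  refine X_pow_sub_C_irreducible_of_prime hl fun b hb => hw0 ?_
  have hb' : (b : W) ^ l = w ^ l := congrArg Subtype.val hb
  by_cases hwne : w = 0
  · rw [hwne]
    exact zero_mem _
  · have hb0 : (b : W) ≠ 0 := by
      intro h0
      rw [h0, zero_pow hl.ne_zero] at hb'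
      exact hwne (eq_zero_of_pow_eq_zero hb'.symm)
    obtain ⟨c, hc⟩ := KumAut_mem_range (k := k) (w / b) l hl.pos (by
      rw [div_pow, hb', div_self (pow_ne_zero _ hwne)])
    have h1 : w = algebraMap k W c * b := by
      rw [hc]
      field_simp
    rw [h1]
    exact mul_mem (F0.algebraMap_mem c) b.2

omit [IsAlgClosed k] [IsUltrametricDist W] in
private theorem KumAut_repr (F0 : IntermediateField k W) (l : ℕ) (hl : l.Prime)
    (w : W) (hw : w ^ l ∈ F0) (z : W) (hz : z ∈ IntermediateField.adjoin F0 {w}) :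
    ∃ a : ℕ → W, (∀ j, a j ∈ F0) ∧ z = ∑ j ∈ Finset.range l, a j * w ^ j := by
  have halg : IsAlgebraic F0 w := by
    refine ⟨Polynomial.X ^ l - Polynomial.C (⟨w ^ l, hw⟩ : F0),
      (Polynomial.monic_X_pow_sub_C _ hl.ne_zero).ne_zero, ?_⟩
    rw [map_sub, map_pow, Polynomial.aeval_X, Polynomial.aeval_C]
    exact sub_self _
  have h1 : z ∈ (IntermediateField.adjoin F0 {w}).toSubalgebra := hz
  rw [IntermediateField.adjoin_simple_toSubalgebra_of_isAlgebraic halg,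
    Algebra.adjoin_singleton_eq_range_aeval] at h1
  obtain ⟨P, hP⟩ := h1
  have hmon := Polynomial.monic_X_pow_sub_C (⟨w ^ l, hw⟩ : F0) hl.ne_zero
  have hzero : Polynomial.aeval w (Polynomial.X ^ l - Polynomial.C (⟨w ^ l, hw⟩ : F0)) = 0 := by
    rw [map_sub, map_pow, Polynomial.aeval_X, Polynomial.aeval_C]
    exact sub_self _
  set q := Polynomial.X ^ l - Polynomial.C (⟨w ^ l, hw⟩ : F0) with hq
  have h2 : z = Polynomial.aeval w (P %ₘ q) := by
    have h3 := congrArg (Polynomial.aeval w) (Polynomial.modByMonic_add_div P q)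
    rw [map_add, map_mul, hzero, zero_mul, add_zero] at h3
    rw [h3]
    exact hP.symm
  have hdeg : (P %ₘ q).natDegree < l := by
    have h4 := Polynomial.natDegree_modByMonic_lt P hmon (by
      intro h5
      have h6 : q.natDegree = l := Polynomial.natDegree_X_pow_sub_C
      rw [h5, Polynomial.natDegree_one] at h6
      exact hl.ne_zero h6.symm)
    have h6 : q.natDegree = l := Polynomial.natDegree_X_pow_sub_C
    rwa [h6] at h4
  refine ⟨fun j => ((P %ₘ q).coeff j : W), fun j => ((P %ₘ q).coeff j).2, ?_⟩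
  rw [h2, Polynomial.aeval_eq_sum_range' hdeg]
  rfl

omit [IsUltrametricDist W] in
private theorem KumAut_hom (F0 E : IntermediateField k W) (l : ℕ) (hl : l.Prime)
    (w : W) (hw : w ^ l ∈ F0) (hwF : w ∉ F0)
    (hmem : ∀ z : W, z ∈ E → z ∈ IntermediateField.adjoin F0 {w}) (hF0E : F0 ≤ E) (hwE : w ∈ E)
    (ζW : W) (hζ0 : ζW ∈ F0) (hζl : ζW ^ l = 1) :
    ∃ σ : E →ₐ[k] E, ∀ (a : ℕ → W), (∀ j, a j ∈ F0) → ∀ z : E,
      (z : W) = ∑ j ∈ Finset.range l, a j * w ^ j →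
      ((σ z : E) : W) = ∑ j ∈ Finset.range l, (ζW ^ j * a j) * w ^ j := by
  have hirr := KumAut_irr F0 l hl w hw hwF
  have hmin : minpoly F0 w = Polynomial.X ^ l - Polynomial.C (⟨w ^ l, hw⟩ : F0) := by
    refine (minpoly.eq_of_irreducible_of_monic hirr ?_
      (Polynomial.monic_X_pow_sub_C _ hl.ne_zero)).symm
    rw [map_sub, map_pow, Polynomial.aeval_X, Polynomial.aeval_C]
    exact sub_self _
  have hint : IsIntegral F0 w := by
    refine ⟨Polynomial.X ^ l - Polynomial.C (⟨w ^ l, hw⟩ : F0),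
      Polynomial.monic_X_pow_sub_C _ hl.ne_zero, ?_⟩
    rw [Polynomial.eval₂_sub, Polynomial.eval₂_pow, Polynomial.eval₂_X, Polynomial.eval₂_C]
    exact sub_self _
  have hroot : ζW * w ∈ (minpoly F0 w).aroots W := by
    rw [Polynomial.mem_aroots]
    refine ⟨minpoly.ne_zero hint, ?_⟩
    rw [hmin, map_sub, map_pow, Polynomial.aeval_X, Polynomial.aeval_C, mul_pow, hζl, one_mul]
    exact sub_self _
  obtain ⟨φ, hφw⟩ : ∃ φ : IntermediateField.adjoin F0 {w} →ₐ[F0] W,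
      φ (IntermediateField.AdjoinSimple.gen F0 w) = ζW * w :=
    ⟨(IntermediateField.algHomAdjoinIntegralEquiv F0 hint).symm ⟨ζW * w, hroot⟩,
      IntermediateField.algHomAdjoinIntegralEquiv_symm_apply_gen F0 hint _⟩
  have hsform : ∀ (a : ℕ → W), (∀ j, a j ∈ F0) → ∀ z : E,
      (z : W) = ∑ j ∈ Finset.range l, a j * w ^ j →
      φ ⟨(z : W), hmem z.1 z.2⟩ = ∑ j ∈ Finset.range l, (ζW ^ j * a j) * w ^ j := by
    intro a ha z hz
    have h1 : (⟨(z : W), hmem z.1 z.2⟩ : IntermediateField.adjoin F0 {w}) =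
        ∑ j ∈ Finset.range l, algebraMap F0 _ (⟨a j, ha j⟩ : F0) *
          IntermediateField.AdjoinSimple.gen F0 w ^ j := by
      apply Subtype.ext
      rw [AddSubmonoidClass.coe_finsetSum]
      exact hz
    rw [h1, map_sum]
    refine Finset.sum_congr rfl fun j _ => ?_
    rw [map_mul, map_pow, hφw, AlgHom.commutes, mul_pow]
    change a j * (ζW ^ j * w ^ j) = _
    ring
  have hsF1 : ∀ z : E, φ ⟨(z : W), hmem z.1 z.2⟩ ∈ E := by
    intro z
    obtain ⟨a, ha, hz⟩ := KumAut_repr F0 l hl w hw z (hmem z.1 z.2)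
    rw [hsform a ha z hz]
    exact sum_mem fun j _ => mul_mem (mul_mem (pow_mem (hF0E hζ0) _)
      (hF0E (ha j))) (pow_mem hwE _)
  exact ⟨{ toFun := fun z => ⟨φ ⟨(z : W), hmem z.1 z.2⟩, hsF1 z⟩
           map_one' := Subtype.ext (map_one φ)
           map_mul' := fun x y => Subtype.ext (map_mul φ ⟨(x : W), hmem x.1 x.2⟩
             ⟨(y : W), hmem y.1 y.2⟩)
           map_zero' := Subtype.ext (map_zero φ)
           map_add' := fun x y => Subtype.ext (map_add φ ⟨(x : W), hmem x.1 x.2⟩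
             ⟨(y : W), hmem y.1 y.2⟩)
           commutes' := fun c => Subtype.ext (φ.commutes (algebraMap k F0 c)) }, hsform⟩

end

theorem exists_kum_aut {k W : Type} [Field k] [IsAlgClosed k] [NormedField W]
    [IsUltrametricDist W] [Algebra k W] {r : ℕ} (hA : Amb r k W) (F0 : IntermediateField k W)
    (hc : IsComplete ((cl F0 : IntermediateField k W) : Set W)) (l : ℕ) (hl : l.Prime)
    (hlk : (l : k) ≠ 0) (w : W) (hw : w ^ l ∈ F0) (hw0 : w ∉ cl F0) :
    ∃ σ : ↥(F0 ⊔ IntermediateField.adjoin k {w}) ≃ₐ[k] ↥(F0 ⊔ IntermediateField.adjoin k {w}),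
      (∀ z : ↥(F0 ⊔ IntermediateField.adjoin k {w}), ‖((σ z : _) : W)‖ = ‖(z : W)‖) ∧
      σ ^ l = 1 ∧
      (∀ z : ↥(F0 ⊔ IntermediateField.adjoin k {w}), (z : W) ∈ F0 → σ z = z) ∧
      (∀ z : ↥(F0 ⊔ IntermediateField.adjoin k {w}), σ z = z → (z : W) ∈ F0) ∧
      ∃ ζ : k, ζ ≠ 1 ∧ ζ ^ l = 1 ∧
        ∀ z : ↥(F0 ⊔ IntermediateField.adjoin k {w}), (z : W) = w →
          ((σ z : _) : W) = algebraMap k W ζ * w := by
  classical
  have hwF : w ∉ F0 := fun h => hw0 (KumAut_le_cl F0 h)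
  have : NeZero ((l : ℕ) : k) := ⟨hlk⟩
  obtain ⟨ζ, hζ⟩ := IsAlgClosed.exists_root (Polynomial.cyclotomic l k)
    (Polynomial.degree_cyclotomic_pos l k hl.pos).ne'
  have hprim : IsPrimitiveRoot ζ l := Polynomial.isRoot_cyclotomic_iff.1 hζ
  obtain ⟨ζW, hζW⟩ : ∃ z : W, z = algebraMap k W ζ := ⟨_, rfl⟩
  have hζl : ζW ^ l = 1 := by rw [hζW, ← map_pow, hprim.pow_eq_one, map_one]
  have hζn : ‖ζW‖ = 1 := by
    rw [hζW]
    exact hA.unit ζ (hprim.ne_zero hl.ne_zero)
  have hζF : ζW ∈ F0 := by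
    rw [hζW]
    exact F0.algebraMap_mem ζ
  have hE : (IntermediateField.adjoin F0 {w}).restrictScalars k =
    F0 ⊔ IntermediateField.adjoin k {w} := IntermediateField.restrictScalars_adjoin_eq_sup k F0 {w}
  have hmem : ∀ z : W, z ∈ F0 ⊔ IntermediateField.adjoin k {w} →
      z ∈ IntermediateField.adjoin F0 {w} := by
    intro z hz
    rw [← hE] at hz
    exact hz
  have hwF1 : w ∈ F0 ⊔ IntermediateField.adjoin k {w} :=
    (le_sup_right : IntermediateField.adjoin k {w} ≤ F0 ⊔ IntermediateField.adjoin k {w})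
    (IntermediateField.mem_adjoin_simple_self k w)
  have hF0F1 : F0 ≤ F0 ⊔ IntermediateField.adjoin k {w} := le_sup_left
  have hrepr : ∀ z : ↥(F0 ⊔ IntermediateField.adjoin k {w}), ∃ a : ℕ → W, (∀ j, a j ∈ F0) ∧
      (z : W) = ∑ j ∈ Finset.range l, a j * w ^ j := fun z =>
    KumAut_repr F0 l hl w hw z (hmem z.1 z.2)
  obtain ⟨σh, hσform⟩ := KumAut_hom F0 (F0 ⊔ IntermediateField.adjoin k {w}) l hl w hw hwF hmem
    hF0F1 hwF1 ζW hζF hζl
  generalize F0 ⊔ IntermediateField.adjoin k {w} = F1 at *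
  have hiter : ∀ (m : ℕ) (a : ℕ → W), (∀ j, a j ∈ F0) → ∀ z : F1,
      (z : W) = ∑ j ∈ Finset.range l, a j * w ^ j →
      (((σh ^ m) z : F1) : W) = ∑ j ∈ Finset.range l, ((ζW ^ j) ^ m * a j) * w ^ j := by
    intro m
    induction m with
    | zero =>
      intro a ha z hz
      rw [pow_zero]
      change (z : W) = _
      rw [hz]
      exact Finset.sum_congr rfl fun j _ => by rw [pow_zero, one_mul]
    | succ m ih =>
      intro a ha z hz
      rw [pow_succ]
      change (((σh ^ m) (σh z) : F1) : W) = _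
      rw [ih (fun j => ζW ^ j * a j) (fun j => mul_mem (pow_mem hζF _) (ha j))
        (σh z) (hσform a ha z hz)]
      exact Finset.sum_congr rfl fun j _ => by ring
  have hpowl : σh ^ l = 1 := by
    refine AlgHom.ext fun z => Subtype.ext ?_
    obtain ⟨a, ha, hz⟩ := hrepr z
    rw [hiter l a ha z hz]
    change _ = (z : W)
    rw [hz]
    refine Finset.sum_congr rfl fun j _ => ?_
    rw [← pow_mul, mul_comm j l, pow_mul, hζl, one_pow, one_mul]
  have hl1 : l - 1 + 1 = l := Nat.sub_add_cancel hl.one_lt.le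
  obtain ⟨σ, hσσ⟩ : ∃ σ : F1 ≃ₐ[k] F1, ∀ z, σ z = σh z :=
    ⟨AlgEquiv.ofAlgHom σh (σh ^ (l - 1))
      (by
        have h1 : σh * σh ^ (l - 1) = 1 := by rw [← pow_succ', hl1, hpowl]
        exact h1)
      (by
        have h1 : σh ^ (l - 1) * σh = 1 := by rw [← pow_succ, hl1, hpowl]
        exact h1), fun z => rfl⟩
  have hσpow : ∀ (m : ℕ) (z : F1), (σ ^ m) z = (σh ^ m) z := by
    intro m
    induction m with
    | zero => intro z; rfl
    | succ m ih =>
      intro z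
      rw [pow_succ, pow_succ]
      change (σ ^ m) (σ z) = (σh ^ m) (σh z)
      rw [ih, hσσ]
  refine ⟨σ, fun z => ?_, ?_, fun z hz => ?_, fun z hz => ?_, ζ, ?_, hprim.pow_eq_one,
    fun z hz => ?_⟩
  · obtain ⟨a, ha, hz⟩ := hrepr z
    rw [hσσ, hσform a ha z hz, hz]
    have hn : ∀ j ∈ Finset.range l, ‖ζW ^ j * a j * w ^ j‖ = ‖a j * w ^ j‖ := fun j _ => by
      rw [mul_assoc, norm_mul, norm_pow, hζn, one_pow, one_mul]
    refine le_antisymm ?_ ?_
    · exact KumAut_le _ (fun j => a j * w ^ j) (fun j => ζW ^ j * a j * w ^ j)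
        (KumAut_dist hA F0 hc l hl hlk w hw hw0 a ha) hn
    · exact KumAut_le _ (fun j => ζW ^ j * a j * w ^ j) (fun j => a j * w ^ j)
        (KumAut_dist hA F0 hc l hl hlk w hw hw0 (fun j => ζW ^ j * a j)
          fun j => mul_mem (pow_mem hζF _) (ha j)) fun j hj => (hn j hj).symm
  · refine AlgEquiv.ext fun z => ?_
    rw [hσpow, hpowl]
    rfl
  · apply Subtype.ext
    have h1 := hσform (fun j => if j = 0 then (z : W) else 0) (fun j => by
      split_ifs
      · exact hz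
      · exact zero_mem _) z (by
      rw [Finset.sum_eq_single_of_mem 0 (Finset.mem_range.2 hl.pos) fun j hj hj0 => by
        rw [if_neg hj0, zero_mul], if_pos rfl, pow_zero, mul_one])
    rw [hσσ, h1, Finset.sum_eq_single_of_mem 0 (Finset.mem_range.2 hl.pos) fun j hj hj0 => by
      rw [if_neg hj0, mul_zero, zero_mul], if_pos rfl, pow_zero, pow_zero, mul_one, one_mul]
  · obtain ⟨a, ha, hza⟩ := hrepr z
    have h1 := hσform a ha z hza
    rw [← hσσ, hz, hza] at h1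
    have h2 : ∑ j ∈ Finset.range l, ((ζW ^ j - 1) * a j) * w ^ j = 0 := by
      have h3 : ∑ j ∈ Finset.range l, ((ζW ^ j - 1) * a j) * w ^ j =
          ∑ j ∈ Finset.range l, (ζW ^ j * a j) * w ^ j -
            ∑ j ∈ Finset.range l, a j * w ^ j := by
        rw [← Finset.sum_sub_distrib]
        exact Finset.sum_congr rfl fun j _ => by ring
      rw [h3, ← h1, sub_self]
    have h4 : ∀ j ∈ Finset.range l, j ≠ 0 → a j = 0 := by
      intro j hj hj0
      have h5 := KumAut_sum (Finset.range l) (fun j => ((ζW ^ j - 1) * a j) * w ^ j)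
        (KumAut_dist hA F0 hc l hl hlk w hw hw0 (fun j => (ζW ^ j - 1) * a j)
          fun j => mul_mem (sub_mem (pow_mem hζF _) (one_mem _)) (ha j)) j hj
      rw [h2, norm_zero] at h5
      have h6 : ((ζW ^ j - 1) * a j) * w ^ j = 0 := norm_le_zero_iff.1 h5
      have hwne : w ≠ 0 := fun h0 => hw0 (h0 ▸ zero_mem _)
      have h7 : ζW ^ j - 1 ≠ 0 := by
        intro h8
        have h9 : ζ ^ j = 1 := by
          apply (algebraMap k W).injective
          rw [map_pow, map_one, ← hζW]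
          exact sub_eq_zero.1 h8
        exact hprim.pow_ne_one_of_pos_of_lt hj0 (Finset.mem_range.1 hj) h9
      rcases mul_eq_zero.1 h6 with h8 | h8
      · exact (mul_eq_zero.1 h8).resolve_left h7
      · exact absurd h8 (pow_ne_zero _ hwne)
    rw [hza, Finset.sum_eq_single_of_mem 0 (Finset.mem_range.2 hl.pos) fun j hj hj0 => by
      rw [h4 j hj hj0, zero_mul], pow_zero, mul_one]
    exact ha 0
  · exact hprim.ne_one hl.one_lt
  · have h1 := hσform (fun j => if j = 1 then (1 : W) else 0) (fun j => by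
      split_ifs
      · exact one_mem _
      · exact zero_mem _) z (by
      rw [Finset.sum_eq_single_of_mem 1 (Finset.mem_range.2 hl.one_lt) fun j hj hj0 => by
        rw [if_neg hj0, zero_mul], if_pos rfl, pow_one, one_mul, hz])
    rw [hσσ, h1, Finset.sum_eq_single_of_mem 1 (Finset.mem_range.2 hl.one_lt) fun j hj hj0 => by
      rw [if_neg hj0, mul_zero, zero_mul], if_pos rfl, pow_one, pow_one, mul_one, hζW]

end Pool.Agent.Lib.TDO
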