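import Pool.Agent.Lib.TDO.PerB
import Pool.Agent.Lib.MP_3029eb_ag.AbhBase
import Pool.Agent.Lib.TDO.Appr
import Pool.Agent.Lib.TDO.EtPres

/-!
# Module LemH1: the data for Lemma H

`(x, y)` a chart of `L = cl F1`, `K = Kxy k x y ≤ L ⊓ S`.  `F2 = F1 ⊔ K`.
(1) `F1` is generated by a finite set `G ⊆ L`, separable over `K` (`Chart.sep`), contained in
`L ≤ cl K`: `exists_et` for `E = K`: `F2 = K ⊔ adjoin k {τ}`, `Et K P τ`.
(2) `x i, y` are separable over `F1` (`FF.sep`) and in `cl F1`: `exists_et` for `E = F1`: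
`F2 = F1 ⊔ adjoin k {θ}`, `Et F1 Q θ`.
(3) `x i, y` have norm `< 1`: `etale_unit` for `F1`: `x i = b u`, `‖b‖ ≤ 1`, so `x i, y` are in
`locV (closure ({e ∈ F1 | ‖e‖ ≤ 1} ∪ {θ}))`, hence in `R1 = locV (closure (R0 ∪ {θ}))` with
`R0 = locV (closure (k ∪ Z0))`, `Z0 ⊆ {e ∈ F1 | ‖e‖ < 1}` finite (subtract constants), and the
coefficients of `Q` (index `≠ 1`) in `Z0`.
(4) `thmB` for `Z = (Z0 ∪ {θ, τ}) \ 0` gives a stage `(x1, y1)` where all `z ∈ Z0` are
`mon x1 a * u`, `u ∈ BB k x1 y1 τ`, `‖mon x1 a‖ < 1`, `θ ∈ BB`, and the coefficients of `P` are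
monomial; also by `Rf.mo` the `x i` are monomial, `y ∈ OO k x1 y1`, and by `Rf.genx, geny`
`x1 i * d_i = n_i`, `y1 * d = n` with `n_i, d_i, n, d ∈ LL k x y`, monomial except `n`.
`perron_BB` (applied to the finitely many units and their inverses, `θ`, the cofactors, and `Y` =
all exponents `a` of norm `< 1` occurring, in particular those of the `x i`) gives `x2`, such
that everything lies in `B := Bn k x2 y1 τ`; put `q = ∏ i, x2 i`: every `z ∈ Z0` is in `q B`;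
`τ ∈ q B` (`c_0 ∈ q B` and `τ (1 + c_2 τ + ..) = -c_0`); `x i`, `d_i`, `d`, `n_i` divide powers of
`q` in `B` (a monomial `mon x1 a * u` times its inverse...: `mon x1 a` is a Laurent monomial in `x2`
and `q^C` is divisible by any Laurent monomial for `C` large).  `x2 i = mon x1 a` (`Mt.inv`) is a
quotient of products of the `n_j, d_j`.
(5) `appr` with `R0 ≤ B`, `q`, `θ`, gives the approximations for every `N` (elements of `R0` are in
`F1`).
-/

namespace Pool.Agent.Lib.TDO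

open Pool.Agent.Lib.MP_3029eb_ag Pool.Agent.Lib.MP_3029eb_ag.Abh


section LemH1Aux

variable {k W : Type} [Field k] [NormedField W] [IsUltrametricDist W] [Algebra k W] {r : ℕ}

/-- the ring generated by the constants and `Z`, localized -/
private def H1R0 (k : Type) {W : Type} [Field k] [NormedField W] [IsUltrametricDist W]
    [Algebra k W] (Z : Set W) : Subring W :=
  locV (ball W) (Subring.closure (Set.range (algebraMap k W) ∪ Z))

private theorem H1_locV_closure_le {A B : Subring W} {T : Set W} (hA : A ≤ B) (hT : T ⊆ B)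
    (hB : locV (ball W) B = B) : locV (ball W) (Subring.closure ((A : Set W) ∪ T)) ≤ B := by
  rw [← hB]
  refine C2_locV_mono _ ?_
  rw [Subring.closure_le]
  rintro z (hz | hz)
  · exact hA hz
  · exact hT hz

omit [IsUltrametricDist W] in
private theorem H1_fin_closure (V1 T : Set W) {z : W} (hz : z ∈ Subring.closure (V1 ∪ T)) :
    ∃ F : Finset W, (F : Set W) ⊆ V1 ∧ z ∈ Subring.closure ((F : Set W) ∪ T) := by
  classical
  have hmono : ∀ {F F' : Finset W}, F ⊆ F' → Subring.closure ((F : Set W) ∪ T) ≤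
      Subring.closure ((F' : Set W) ∪ T) := fun {F F'} h =>
    Subring.closure_mono (Set.union_subset_union_left _ (Finset.coe_subset.2 h))
  induction hz using Subring.closure_induction with
  | mem x hx =>
    rcases hx with hx | hx
    · exact ⟨{x}, by simpa using hx, Subring.subset_closure (Or.inl (by simp))⟩
    · exact ⟨∅, by simp, Subring.subset_closure (Or.inr hx)⟩
  | zero => exact ⟨∅, by simp, zero_mem _⟩
  | one => exact ⟨∅, by simp, one_mem _⟩
  | add x y _ _ hx hy =>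
    obtain ⟨F, hF, hxF⟩ := hx
    obtain ⟨F', hF', hyF⟩ := hy
    refine ⟨F ∪ F', ?_, add_mem (hmono Finset.subset_union_left hxF)
      (hmono Finset.subset_union_right hyF)⟩
    rw [Finset.coe_union]
    exact Set.union_subset hF hF'
  | neg x _ hx =>
    obtain ⟨F, hF, hxF⟩ := hx
    exact ⟨F, hF, neg_mem hxF⟩
  | mul x y _ _ hx hy =>
    obtain ⟨F, hF, hxF⟩ := hx
    obtain ⟨F', hF', hyF⟩ := hy
    refine ⟨F ∪ F', ?_, mul_mem (hmono Finset.subset_union_left hxF)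
      (hmono Finset.subset_union_right hyF)⟩
    rw [Finset.coe_union]
    exact Set.union_subset hF hF'

private theorem H1_fin_locV (V1 T : Set W) {z : W}
    (hz : z ∈ locV (ball W) (Subring.closure (V1 ∪ T))) :
    ∃ F : Finset W, (F : Set W) ⊆ V1 ∧ z ∈ locV (ball W) (Subring.closure ((F : Set W) ∪ T)) := by
  classical
  obtain ⟨a, ha, b, hb, hb1, hab⟩ := hz
  obtain ⟨F, hF, haF⟩ := H1_fin_closure V1 T ha
  obtain ⟨F', hF', hbF⟩ := H1_fin_closure V1 T hb
  have hmono : ∀ {F F' : Finset W}, F ⊆ F' → Subring.closure ((F : Set W) ∪ T) ≤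
      Subring.closure ((F' : Set W) ∪ T) := fun {F F'} h =>
    Subring.closure_mono (Set.union_subset_union_left _ (Finset.coe_subset.2 h))
  refine ⟨F ∪ F', ?_, a, hmono Finset.subset_union_left haF, b,
    hmono Finset.subset_union_right hbF, hb1, hab⟩
  rw [Finset.coe_union]
  exact Set.union_subset hF hF'

private theorem H1_fin_many (V1 T : Set W) {ι : Type} [Fintype ι] (z : ι → W)
    (hz : ∀ i, z i ∈ locV (ball W) (Subring.closure (V1 ∪ T))) :
    ∃ F : Finset W, (F : Set W) ⊆ V1 ∧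
      ∀ i, z i ∈ locV (ball W) (Subring.closure ((F : Set W) ∪ T)) := by
  classical
  choose F hF hzF using fun i => H1_fin_locV V1 T (hz i)
  refine ⟨Finset.univ.biUnion F, ?_, fun i => ?_⟩
  · intro w hw
    rw [Finset.mem_coe, Finset.mem_biUnion] at hw
    obtain ⟨i, -, hi⟩ := hw
    exact hF i hi
  · refine C2_locV_mono _ (Subring.closure_mono (Set.union_subset_union_left _ ?_)) (hzF i)
    exact Finset.coe_subset.2 (Finset.subset_biUnion_of_mem F (Finset.mem_univ i))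

omit [IsUltrametricDist W] in
private theorem H1_const (hA : Amb r k W) (F1 : IntermediateField k W) (F : Finset W)
    (hF : ∀ e ∈ F, e ∈ F1 ∧ ‖e‖ ≤ 1) :
    ∃ Z : Finset W, (∀ z ∈ Z, z ∈ F1 ∧ ‖z‖ < 1) ∧
      (F : Set W) ⊆ Subring.closure (Set.range (algebraMap k W) ∪ (Z : Set W)) := by
  classical
  have h1 : ∀ e : W, ∃ c : k, e ∈ F → ‖e - algebraMap k W c‖ < 1 := by
    intro e
    by_cases he : e ∈ F
    · obtain ⟨c, hc⟩ := hA.res e (hF e he).2
      exact ⟨c, fun _ => hc⟩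
    · exact ⟨0, fun h => absurd h he⟩
  choose c hc using h1
  refine ⟨F.image fun e => e - algebraMap k W (c e), ?_, ?_⟩
  · intro z hz
    rw [Finset.mem_image] at hz
    obtain ⟨e, he, rfl⟩ := hz
    exact ⟨sub_mem (hF e he).1 (F1.algebraMap_mem _), hc e he⟩
  · intro e he
    have h2 : e = (e - algebraMap k W (c e)) + algebraMap k W (c e) := by ring
    rw [h2]
    refine add_mem (Subring.subset_closure (Or.inr ?_)) (Subring.subset_closure
      (Or.inl ⟨_, rfl⟩))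
    rw [Finset.mem_coe, Finset.mem_image]
    exact ⟨e, he, rfl⟩

/-- A nontrivial element of `F1`, approximating one of `cl F1`. -/
private theorem H1_nt (F1 : IntermediateField k W) {z : W} (hz : z ∈ cl F1) (h0 : z ≠ 0)
    (h1 : ‖z‖ < 1) : ∃ w ∈ F1, w ≠ 0 ∧ ‖w‖ < 1 := by
  obtain ⟨w, hw, hzw⟩ := (mem_cl_iff F1 z).1 hz ‖z‖ (norm_pos_iff.2 h0)
  refine ⟨w, hw, ?_, ?_⟩
  · rintro rfl
    rw [sub_zero] at hzw
    exact lt_irrefl _ hzw
  · have h2 : w = z - (z - w) := by ring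
    rw [h2]
    have h3 := IsUltrametricDist.norm_add_le_max z (-(z - w))
    rw [norm_neg, ← sub_eq_add_neg] at h3
    exact h3.trans_lt (max_lt h1 (hzw.trans h1))

/-- The finite set `Z0`. -/
private theorem H1_Z0 (hA : Amb r k W) (F1 : IntermediateField k W) (Q : Polynomial F1) (θ : W)
    (hQ : Et F1 Q θ) (hθ : θ ∈ cl F1) (hnt : ∃ z ∈ F1, z ≠ 0 ∧ ‖z‖ < 1) {ι : Type} [Fintype ι]
    (z : ι → W) (hz : ∀ i, z i ∈ F1 ⊔ IntermediateField.adjoin k {θ}) (hz1 : ∀ i, ‖z i‖ ≤ 1) :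
    ∃ Z : Finset W, (∀ w ∈ Z, w ∈ F1 ∧ ‖w‖ < 1) ∧
      (∀ j, j ≠ 1 → ((Q.coeff j : F1) : W) ∈ Z) ∧
      ∀ i, z i ∈ locV (ball W) (Subring.closure ((H1R0 k (Z : Set W) : Set W) ∪ {θ})) := by
  classical
  have h1 : ∀ i, z i ∈ locV (ball W)
      (Subring.closure ({e : W | e ∈ F1 ∧ ‖e‖ ≤ 1} ∪ {θ})) := by
    intro i
    by_cases h0 : z i = 0
    · rw [h0]; exact zero_mem _
    obtain ⟨b, hb, u, hu, hu1, hzu⟩ := etale_unit F1 Q θ hQ hθ hnt (z i) (hz i) h0
    rw [hzu]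
    refine mul_mem (C2_le_locV _ _ (Subring.subset_closure (Or.inl ⟨hb, ?_⟩))) hu
    have h2 := hz1 i
    rw [hzu, norm_mul, hu1, mul_one] at h2
    exact h2
  obtain ⟨F, hF, hzF⟩ := H1_fin_many _ _ z h1
  obtain ⟨Z1, hZ1, hFZ⟩ := H1_const hA F1 F (fun e he => hF he)
  refine ⟨Z1 ∪ (insert 0 (Q.support.erase 1 |>.image fun j => ((Q.coeff j : F1) : W))), ?_, ?_, ?_⟩
  · intro w hw
    rw [Finset.mem_union, Finset.mem_insert, Finset.mem_image] at hw
    rcases hw with hw | rfl | ⟨j, hj, rfl⟩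
    · exact hZ1 w hw
    · exact ⟨zero_mem _, by rw [norm_zero]; exact one_pos⟩
    · exact ⟨(Q.coeff j).2, hQ.cj j (Finset.ne_of_mem_erase hj)⟩
  · intro j hj
    rw [Finset.mem_union, Finset.mem_insert, Finset.mem_image]
    by_cases h0 : Q.coeff j = 0
    · right; left; rw [h0]; rfl
    · right; right
      exact ⟨j, Finset.mem_erase.2 ⟨hj, Polynomial.mem_support_iff.2 h0⟩, rfl⟩
  · intro i
    refine C2_locV_mono _ ?_ (hzF i)
    rw [Subring.closure_le]
    rintro e (he | he)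
    · refine Subring.subset_closure (Or.inl (C2_le_locV _ _ ?_))
      refine Subring.closure_mono (Set.union_subset_union_right _ ?_) (hFZ he)
      exact Finset.coe_subset.2 Finset.subset_union_left
    · exact Subring.subset_closure (Or.inr he)

/-- `z` divides a power of `q` in `B`. -/
private def H1D (B : Subring W) (q z : W) : Prop := ∃ C : ℕ, ∃ b ∈ B, q ^ C = z * b

omit [IsUltrametricDist W] in
private theorem H1D_mul {B : Subring W} {q z z' : W} (h : H1D B q z) (h' : H1D B q z') :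
    H1D B q (z * z') := by
  obtain ⟨C, b, hb, h1⟩ := h
  obtain ⟨C', b', hb', h1'⟩ := h'
  exact ⟨C + C', b * b', mul_mem hb hb', by rw [pow_add, h1, h1']; ring⟩

omit [IsUltrametricDist W] in
private theorem H1D_pow {B : Subring W} {q z : W} (h : H1D B q z) (n : ℕ) :
    H1D B q (z ^ n) := by
  induction n with
  | zero => exact ⟨0, 1, one_mem _, by simp⟩
  | succ n ih => rw [pow_succ]; exact H1D_mul ih h

omit [IsUltrametricDist W] in
private theorem H1D_prod {B : Subring W} {q : W} {ι : Type} (s : Finset ι) (f : ι → W)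
    (h : ∀ i ∈ s, H1D B q (f i)) : H1D B q (∏ i ∈ s, f i) := by
  classical
  induction s using Finset.induction_on with
  | empty => exact ⟨0, 1, one_mem _, by simp⟩
  | insert a s ha ih =>
    rw [Finset.prod_insert ha]
    exact H1D_mul (h a (Finset.mem_insert_self a s))
      (ih fun i hi => h i (Finset.mem_insert_of_mem hi))

omit [IsUltrametricDist W] in
private theorem H1_monN_mem {B : Subring W} {x : Fin r → W} (hx : ∀ i, x i ∈ B)
    (β : Fin r → ℕ) : monN x β ∈ B :=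
  prod_mem fun i _ => pow_mem (hx i) _

omit [IsUltrametricDist W] in
/-- Laurent monomials divide powers of the product of the variables. -/
private theorem H1D_mon {B : Subring W} {x : Fin r → W} (h0 : ∀ i, x i ≠ 0) (hx : ∀ i, x i ∈ B)
    (a : Fin r → ℤ) : H1D B (∏ i, x i) (mon x a) := by
  refine ⟨∑ i, (a i).natAbs, monN x (fun i => ((∑ i, (a i).natAbs : ℕ) - a i).toNat),
    H1_monN_mem hx _, ?_⟩
  unfold mon monN
  rw [← Finset.prod_pow, ← Finset.prod_mul_distrib]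
  refine Finset.prod_congr rfl fun i _ => ?_
  have h1 : a i ≤ ((∑ i, (a i).natAbs : ℕ) : ℤ) := by
    have h2 : (a i).natAbs ≤ ∑ i, (a i).natAbs :=
      Finset.single_le_sum (f := fun i => (a i).natAbs) (fun _ _ => Nat.zero_le _)
        (Finset.mem_univ i)
    omega
  rw [← zpow_natCast (x i) (((∑ i, (a i).natAbs : ℕ) - a i).toNat), Int.toNat_of_nonneg (by omega),
    ← zpow_add₀ (h0 i), add_sub_cancel, zpow_natCast]

omit [IsUltrametricDist W] in
/-- Monomials in the old variables are monomials in the new ones. -/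
private theorem H1_Mt_mon {x x' : Fin r → W} (h0 : ∀ i, x' i ≠ 0) (h : Mt x x')
    (a : Fin r → ℤ) : ∃ a' : Fin r → ℤ, mon x a = mon x' a' := by
  choose β hβ using h.pos
  refine ⟨_, T1_mon_mon x' x h0 (fun i j => (β i j : ℤ)) (fun i => ?_) a⟩
  rw [hβ i]
  exact (T1_mon_natCast x' (β i)).symm

private theorem H1_mem_Bn (x : Fin r → W) (y τ : W) (i : Fin r) : x i ∈ Bn k x y τ :=
  C2_le_locV _ _ (Subring.subset_closure (Or.inl (Or.inr ⟨i, rfl⟩)))

private theorem H1_algebraMap_mem_Bn (x : Fin r → W) (y τ : W) (c : k) :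
    algebraMap k W c ∈ Bn k x y τ :=
  C2_le_locV _ _ (Subring.subset_closure (Or.inl (Or.inl ⟨c, rfl⟩)))

/-- The package of consequences of the Perron transform. -/
private theorem H1_perron (hA : Amb r k W) {x : Fin r → W} {y τ : W} (hP : Par k x y)
    (hτ : ‖τ‖ ≤ 1) (G : Finset W) (hG : ∀ z ∈ G, Mo (BB k x y τ) x z) (Y0 : Finset W)
    (hY0 : ∀ z ∈ Y0, z ∈ BB k x y τ) :
    ∃ x2 : Fin r → W, Indep x2 ∧ Mt x x2 ∧ (∀ z ∈ Y0, z ∈ Bn k x2 y τ) ∧
      ∀ z ∈ G, H1D (Bn k x2 y τ) (∏ i, x2 i) z ∧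
        (‖z‖ < 1 → ∃ b ∈ Bn k x2 y τ, z = (∏ i, x2 i) * b) := by
  classical
  have h1 : ∀ z : W, ∃ (a : Fin r → ℤ) (u : W), z ∈ G →
      u ∈ BB k x y τ ∧ ‖u‖ = 1 ∧ z = mon x a * u := by
    intro z
    by_cases hz : z ∈ G
    · obtain ⟨a, u, hu⟩ := hG z hz
      exact ⟨a, u, fun _ => hu⟩
    · exact ⟨0, 0, fun h => absurd h hz⟩
  choose a u hu using h1
  obtain ⟨x2, hx2, hMt, hZ2, hY2⟩ := perron_BB hA hP hτ
    (Y0 ∪ (G.image u ∪ G.image fun z => (u z)⁻¹))
    (by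
      intro z hz
      rw [Finset.mem_union, Finset.mem_union, Finset.mem_image, Finset.mem_image] at hz
      rcases hz with hz | ⟨w, hw, rfl⟩ | ⟨w, hw, rfl⟩
      · exact hY0 z hz
      · exact (hu w hw).1
      · exact inv_mem_BB (hu w hw).1 (hu w hw).2.1)
    ((G.image a).filter fun b => ‖mon x b‖ < 1)
    (fun b hb => (Finset.mem_filter.1 hb).2)
  refine ⟨x2, hx2, hMt, fun z hz => hZ2 z (Finset.mem_union_left _ hz), fun z hz => ⟨?_, ?_⟩⟩
  · obtain ⟨a', ha'⟩ := H1_Mt_mon hx2.ne hMt (a z)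
    obtain ⟨C, b, hb, hC⟩ := H1D_mon (B := Bn k x2 y τ) hx2.ne (H1_mem_Bn x2 y τ) a'
    have hu0 : u z ≠ 0 := by
      intro h0
      have := (hu z hz).2.1
      rw [h0, norm_zero] at this
      exact zero_ne_one this
    refine ⟨C, (u z)⁻¹ * b, mul_mem (hZ2 _ (Finset.mem_union_right _ (Finset.mem_union_right _
      (Finset.mem_image.2 ⟨z, hz, rfl⟩)))) hb, ?_⟩
    rw [hC, ← ha']
    calc mon x (a z) * b = (mon x (a z) * u z) * ((u z)⁻¹ * b) := by
          rw [mul_assoc, ← mul_assoc (u z), mul_inv_cancel₀ hu0, one_mul]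
      _ = z * ((u z)⁻¹ * b) := by rw [← (hu z hz).2.2]
  · intro hz1
    have h2 : ‖mon x (a z)‖ < 1 := by
      rw [(hu z hz).2.2, norm_mul, (hu z hz).2.1, mul_one] at hz1
      exact hz1
    obtain ⟨β, hβ1, hβ⟩ := hY2 (a z) (Finset.mem_filter.2 ⟨Finset.mem_image.2 ⟨z, hz, rfl⟩, h2⟩)
    refine ⟨monN x2 (fun i => β i - 1) * u z, mul_mem (H1_monN_mem (H1_mem_Bn x2 y τ) _)
      (hZ2 _ (Finset.mem_union_right _ (Finset.mem_union_left _
      (Finset.mem_image.2 ⟨z, hz, rfl⟩)))), ?_⟩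
    have h3 : monN x2 β = (∏ i, x2 i) * monN x2 (fun i => β i - 1) := by
      unfold monN
      rw [← Finset.prod_mul_distrib]
      refine Finset.prod_congr rfl fun i _ => ?_
      rw [← pow_succ', Nat.sub_add_cancel (hβ1 i)]
    rw [← mul_assoc, ← h3, ← hβ]
    exact (hu z hz).2.2

omit [IsUltrametricDist W] in
/-- Quotient presentations of Laurent monomials. -/
private theorem H1_quot {B A : Subring W} {q : W} (x n d : Fin r → W) (hn : ∀ i, n i ∈ A)
    (hd : ∀ i, d i ∈ A) (hn0 : ∀ i, n i ≠ 0) (h : ∀ i, x i * d i = n i)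
    (hDn : ∀ i, H1D B q (n i)) (hDd : ∀ i, H1D B q (d i)) (a : Fin r → ℤ) :
    ∃ n' ∈ A, ∃ d' ∈ A, mon x a * d' = n' ∧ H1D B q d' := by
  refine ⟨∏ i, (n i ^ (a i).toNat * d i ^ (-a i).toNat),
    prod_mem fun i _ => mul_mem (pow_mem (hn i) _) (pow_mem (hd i) _),
    ∏ i, (d i ^ (a i).toNat * n i ^ (-a i).toNat),
    prod_mem fun i _ => mul_mem (pow_mem (hd i) _) (pow_mem (hn i) _), ?_,
    H1D_prod _ _ fun i _ => H1D_mul (H1D_pow (hDd i) _) (H1D_pow (hDn i) _)⟩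
  unfold mon
  rw [← Finset.prod_mul_distrib]
  refine Finset.prod_congr rfl fun i _ => ?_
  have hx : x i ≠ 0 := by
    intro h0
    have h1 := h i
    rw [h0, zero_mul] at h1
    exact hn0 i h1.symm
  rcases le_total 0 (a i) with h1 | h1
  · obtain ⟨m, hm⟩ := Int.eq_ofNat_of_zero_le h1
    have h2 : (-a i).toNat = 0 := by omega
    have h3 : (a i).toNat = m := by omega
    rw [h2, h3, hm, zpow_natCast, pow_zero, pow_zero, mul_one, mul_one, ← mul_pow, h i]
  · obtain ⟨m, hm⟩ := Int.eq_ofNat_of_zero_le (a := -a i) (by omega)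
    have h2 : (a i).toNat = 0 := by omega
    have h3 : (-a i).toNat = m := by omega
    have h4 : a i = -(m : ℤ) := by omega
    rw [h2, h3, h4, zpow_neg, zpow_natCast, pow_zero, pow_zero, one_mul, one_mul, ← h i, mul_pow,
      ← mul_assoc, inv_mul_cancel₀ (pow_ne_zero m hx), one_mul]

end LemH1Aux

theorem lemH_data {k W : Type} [Field k] [IsAlgClosed k] [NormedField W] [IsUltrametricDist W]
    [Algebra k W] {r : ℕ} (hA : Amb r k W) (hr : 0 < r) (S F1 : IntermediateField k W)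
    (hF : FF S F1) (x : Fin r → W) (y : W) (h : Chart S (cl F1) x y) :
    ∃ (x2 : Fin r → W) (y1 τ : W), Par k x2 y1 ∧ ‖τ‖ < 1 ∧
      Kxy k x2 y1 = Kxy k x y ∧
      F1 ⊔ Kxy k x y = Kxy k x y ⊔ IntermediateField.adjoin k {τ} ∧
      (∃ b ∈ Bn k x2 y1 τ, τ = (∏ i, x2 i) * b) ∧
      (∀ i, x i ∈ Bn k x2 y1 τ ∧ ∃ C : ℕ, ∃ b ∈ Bn k x2 y1 τ, (∏ i, x2 i) ^ C = x i * b) ∧
      y ∈ Bn k x2 y1 τ ∧
      (∀ i, ∃ n ∈ LL k x y, ∃ d ∈ LL k x y, x2 i * d = n ∧
        ∃ C : ℕ, ∃ b ∈ Bn k x2 y1 τ, (∏ i, x2 i) ^ C = d * b) ∧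
      (∃ n ∈ LL k x y, ∃ d ∈ LL k x y, y1 * d = n ∧
        ∃ C : ℕ, ∃ b ∈ Bn k x2 y1 τ, (∏ i, x2 i) ^ C = d * b) ∧
      ∀ N : ℕ, ∃ (rx : Fin r → W) (ry : W), (∀ i, rx i ∈ F1) ∧ ry ∈ F1 ∧
        (∀ i, ∃ b ∈ Bn k x2 y1 τ, rx i - x i = (∏ i, x2 i) ^ N * b) ∧
        ∃ b ∈ Bn k x2 y1 τ, ry - y = (∏ i, x2 i) ^ N * b := by
  classical
  have i0 : Fin r := ⟨0, hr⟩
  have hx0 : ∀ i, x i ≠ 0 := h.par.ind.ne
  have hKF : Kxy k x y ≤ cl F1 := Kxy_le x y h.xL h.yL
  have hnK : ∃ z ∈ Kxy k x y, z ≠ 0 ∧ ‖z‖ < 1 :=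
    ⟨x i0, x_mem_Kxy x y i0, hx0 i0, h.par.ind.lt i0⟩
  have hnF : ∃ z ∈ F1, z ≠ 0 ∧ ‖z‖ < 1 := H1_nt F1 (h.xL i0) (hx0 i0) (h.par.ind.lt i0)
  have hFK : F1 ≤ cl (Kxy k x y) := (le_cl F1).trans h.dense
  obtain ⟨G, hG⟩ := hF.fg
  have hGF : ∀ g ∈ G, g ∈ F1 := fun g hg => by
    rw [← hG]
    exact IntermediateField.subset_adjoin k _ hg
  obtain ⟨τ, P, hP, hτ⟩ := exists_et (Kxy k x y) hnK G
    (fun g hg => ⟨h.sep g (hF.le (hGF g hg)), hFK (hGF g hg)⟩)
  rw [hG] at hτ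
  have hyS : IsSeparable F1 y := hF.sep y h.yS
  obtain ⟨θ, Q, hQ, hθ⟩ := exists_et F1 hnF (Finset.univ.image x ∪ {y}) (by
    intro g hg
    rw [Finset.mem_union, Finset.mem_image, Finset.mem_singleton] at hg
    rcases hg with ⟨i, -, rfl⟩ | rfl
    · exact ⟨hF.sep _ (h.xS i), h.xL i⟩
    · exact ⟨hF.sep _ h.yS, h.yL⟩)
  have hKG : IntermediateField.adjoin k ((Finset.univ.image x ∪ {y} : Finset W) : Set W) =
      Kxy k x y := by
    unfold Kxy
    congr 1
    ext z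
    simp
  rw [hKG] at hθ
  have hKle : Kxy k x y ≤ cl (Kxy k x y) := le_cl _
  have hθm : θ ∈ F1 ⊔ Kxy k x y := by
    rw [← hθ]
    exact (le_sup_right : IntermediateField.adjoin k {θ} ≤ _)
      (IntermediateField.subset_adjoin k _ rfl)
  have hτm : τ ∈ Kxy k x y ⊔ F1 := by
    rw [← hτ]
    exact (le_sup_right : IntermediateField.adjoin k {τ} ≤ _)
      (IntermediateField.subset_adjoin k _ rfl)
  have hθcl : θ ∈ cl F1 := (sup_le (le_cl F1) hKF) hθm
  have hτcl : τ ∈ cl (Kxy k x y) := (sup_le hKle hFK) hτm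
  have hF2 : F1 ⊔ Kxy k x y = Kxy k x y ⊔ IntermediateField.adjoin k {τ} := by
    rw [hτ, sup_comm]
  -- the finite set `Z0`
  obtain ⟨Z0, hZ0, hQZ, hR1⟩ := H1_Z0 hA F1 Q θ hQ hθcl hnF (Fin.cons y x : Fin (r + 1) → W)
    (by
      intro i
      rw [hθ]
      refine (le_sup_right : Kxy k x y ≤ _) ?_
      refine Fin.cases ?_ (fun i => ?_) i
      · rw [Fin.cons_zero]; exact y_mem_Kxy x y
      · rw [Fin.cons_succ]; exact x_mem_Kxy x y i)
    (by
      intro i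
      refine Fin.cases ?_ (fun i => ?_) i
      · rw [Fin.cons_zero]; exact h.par.y1.le
      · rw [Fin.cons_succ]; exact (h.par.ind.lt i).le)
  have hR1y := hR1 0
  have hR1x : ∀ i : Fin r, _ := fun i => hR1 i.succ
  simp only [Fin.cons_zero, Fin.cons_succ] at hR1y hR1x
  -- the stage `(x1, y1)`
  obtain ⟨x1, y1, hP1, hrf, -, hZ⟩ := thmB hA hr h.par (Kxy k x y) rfl P τ hP hτcl
    ((Z0 ∪ {θ, τ}).erase 0) (by
      intro z hz
      rw [Finset.mem_erase, Finset.mem_union, Finset.mem_insert, Finset.mem_singleton] at hz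
      refine ⟨?_, hz.1⟩
      rw [hτ]
      rcases hz.2 with hz | rfl | rfl
      · exact (le_sup_right : F1 ≤ _) (hZ0 z hz).1
      · rw [sup_comm]; exact hθm
      · exact hτm)
  choose n hn d hd hnMo hdMo hnd using hrf.genx
  obtain ⟨n0, hn0, d0, hd0, hd0Mo, hnd0⟩ := hrf.geny
  have hMoBB : ∀ {z : W}, Mo (OO k x1 y1) x1 z → Mo (BB k x1 y1 τ) x1 z := by
    rintro z ⟨a, u, hu, hu1, hz⟩
    exact ⟨a, u, OO_le_BB x1 y1 τ hu, hu1, hz⟩
  -- the Perron transform
  obtain ⟨x2, hx2, hMt, hY, hGG⟩ := H1_perron hA hP1 hP.lt.le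
    ((Z0 ∪ {θ, τ}).erase 0 ∪ (Finset.univ.image x ∪ (Finset.univ.image n ∪
      (Finset.univ.image d ∪ {d0})))) (by
      intro z hz
      simp only [Finset.mem_union, Finset.mem_image, Finset.mem_singleton, Finset.mem_univ,
        true_and] at hz
      rcases hz with hz | ⟨i, rfl⟩ | ⟨i, rfl⟩ | ⟨i, rfl⟩ | rfl
      · exact hZ z (by simpa using hz)
      · exact hMoBB (hrf.mo i)
      · exact hMoBB (hnMo i)
      · exact hMoBB (hdMo i)
      · exact hMoBB hd0Mo)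
    {y} (by
      intro z hz
      rw [Finset.mem_singleton] at hz
      rw [hz]
      exact OO_le_BB x1 y1 τ (hrf.le (LO_le_OO hA h.par.y1.le y_mem_LO)))
  -- consequences for all the elements of the list
  have hmem1 : ∀ z ∈ Z0 ∪ {θ, τ}, ‖z‖ < 1 →
      ∃ b ∈ Bn k x2 y1 τ, z = (∏ i, x2 i) * b := by
    intro z hz hz1
    by_cases h0 : z = 0
    · exact ⟨0, zero_mem _, by rw [h0, mul_zero]⟩
    · exact (hGG z (Finset.mem_union_left _ (Finset.mem_erase.2 ⟨h0, hz⟩))).2 hz1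
  have hgx : ∀ i, H1D (Bn k x2 y1 τ) (∏ i, x2 i) (x i) ∧
      (‖x i‖ < 1 → ∃ b ∈ Bn k x2 y1 τ, x i = (∏ i, x2 i) * b) := fun i =>
    hGG (x i) (by simp)
  have hgn : ∀ i, H1D (Bn k x2 y1 τ) (∏ i, x2 i) (n i) := fun i =>
    (hGG (n i) (by simp)).1
  have hgd : ∀ i, H1D (Bn k x2 y1 τ) (∏ i, x2 i) (d i) := fun i =>
    (hGG (d i) (by simp)).1
  have hgd0 : H1D (Bn k x2 y1 τ) (∏ i, x2 i) d0 := (hGG d0 (by simp)).1
  have hqB : ∏ i, x2 i ∈ Bn k x2 y1 τ := prod_mem fun i _ => H1_mem_Bn x2 y1 τ i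
  have hq1 : ‖∏ i, x2 i‖ < 1 := by
    rw [norm_prod, ← Finset.mul_prod_erase Finset.univ (fun i => ‖x2 i‖) (Finset.mem_univ i0)]
    exact (mul_le_of_le_one_right (norm_nonneg _) (Finset.prod_le_one
      (fun i _ => norm_nonneg _) fun i _ => (hx2.lt i).le)).trans_lt (hx2.lt i0)
  have hBball : Bn k x2 y1 τ ≤ (ball W).toSubring := fun z hz =>
    norm_le_of_mem_BB hA hP1.y1.le hP.lt.le (Bn_le_BB hA hx2 hz)
  have hBloc : locV (ball W) (Bn k x2 y1 τ) = Bn k x2 y1 τ := C2_locV_locV _ _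
  have hR0B : H1R0 k (Z0 : Set W) ≤ Bn k x2 y1 τ := by
    rw [← hBloc]
    refine C2_locV_mono _ ?_
    rw [Subring.closure_le]
    rintro z (⟨c, rfl⟩ | hz)
    · exact H1_algebraMap_mem_Bn x2 y1 τ c
    · obtain ⟨b, hb, hzb⟩ := hmem1 z (Finset.mem_union_left _ hz) (hZ0 z hz).2
      rw [hzb]
      exact mul_mem hqB hb
  have hR0F : ∀ z ∈ H1R0 k (Z0 : Set W), z ∈ F1 := by
    rintro z ⟨a, ha, b, hb, hb1, hab⟩
    have h1 : Subring.closure (Set.range (algebraMap k W) ∪ (Z0 : Set W)) ≤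
        F1.toSubfield.toSubring := by
      rw [Subring.closure_le]
      rintro w (⟨c, rfl⟩ | hw)
      · exact F1.algebraMap_mem c
      · exact (hZ0 w hw).1
    have h2 : a ∈ F1 := h1 ha
    have h3 : b ∈ F1 := h1 hb
    have h4 : b ≠ 0 := by
      rintro rfl
      rw [map_zero] at hb1
      exact zero_ne_one hb1
    rw [eq_div_of_mul_eq h4 hab]
    exact div_mem h2 h3
  have hrf2 := Mt.rf hA hP1 hx2 hMt
  refine ⟨x2, y1, τ, Mt.par hP1 hx2 hMt, hP.lt, hrf2.fld.trans hrf.fld, hF2,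
    hmem1 τ (by simp) hP.lt, fun i => ⟨?_, ?_⟩, hY y (Finset.mem_singleton_self y), ?_, ?_, ?_⟩
  · obtain ⟨b, hb, hxb⟩ := (hgx i).2 (h.par.ind.lt i)
    rw [hxb]
    exact mul_mem hqB hb
  · exact (hgx i).1
  · intro i
    obtain ⟨a, ha⟩ := hMt.inv i
    have hn00 : ∀ j, n j ≠ 0 := fun j => Mo.ne hP1.ind.ne (hnMo j)
    obtain ⟨n', hn', d', hd', hnd', hD⟩ := H1_quot x1 n d hn hd hn00 hnd hgn hgd a
    exact ⟨n', hn', d', hd', by rw [ha]; exact hnd', hD⟩
  · exact ⟨n0, hn0, d0, hd0, hnd0, hgd0⟩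
  · intro N
    have happ : ∀ z ∈ locV (ball W) (Subring.closure ((H1R0 k (Z0 : Set W) : Set W) ∪ {θ})),
        ∃ z' ∈ F1, ∃ b ∈ Bn k x2 y1 τ, z' - z = (∏ i, x2 i) ^ N * b := by
      intro z hz
      obtain ⟨z', hz', b, hb, hzb⟩ := appr (Bn k x2 y1 τ) (H1R0 k (Z0 : Set W)) hBball hBloc hR0B
        (C2_locV_locV _ _) (∏ i, x2 i) hqB hq1 θ
        (by
          obtain ⟨b, hb, hzb⟩ := hmem1 θ (by simp) hQ.lt
          rw [hzb]
          exact mul_mem hqB hb)
        (Q.map (algebraMap F1 W))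
        (by
          intro j
          rw [Polynomial.coeff_map]
          by_cases hj : j = 1
          · rw [hj, hQ.c1, map_one]; exact one_mem _
          · exact C2_le_locV _ _ (Subring.subset_closure (Or.inr (hQZ j hj))))
        (by rw [Polynomial.coeff_map, hQ.c1, map_one])
        (by
          intro j hj
          rw [Polynomial.coeff_map]
          exact hmem1 _ (Finset.mem_union_left _ (hQZ j hj)) (hQ.cj j hj))
        (by
          rw [Polynomial.eval_map_algebraMap]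
          exact hQ.root) N z hz
      exact ⟨z', hR0F z' hz', -b, neg_mem hb, by rw [← neg_sub, hzb, mul_neg]⟩
    choose rx hrx hrx' using fun i => happ (x i) (hR1x i)
    obtain ⟨ry, hry, hry'⟩ := happ y hR1y
    exact ⟨rx, ry, hrx, hry, hrx', hry'⟩

end Pool.Agent.Lib.TDO
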