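import Pool.Agent.Lib.TDO.InvG

/-!
# Module StabG: the ring `BB` of a late stage is stable under `σ`

Let `s' = (x', y')` come from `inv_G`, `s'' ` from `exists_next` applied to the original `(x, y)`, and
take a good stage `t = (x1, y1)` later than `s'` with `σ (x i)` monomial at `t`, `σ y, σ τ ∈ BB t`
(`thmB` at `s'`), `G` from `exists_GS`; `G ∘ σ = G`.
By `Rf.genx` from `(x, y)` to `t`: `x1 i * d = n`, `n, d ∈ LL k x y` monomial at `t`: `G n = ‖n‖`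
(`GS.mo`).  `σ n = mon x1 a * b`, `b ∈ BB t` (as `σ (x i)` is monomial, `σ y ∈ BB t`), `σ n ≠ 0`,
`G (σ n) = G n = ‖n‖ = ‖σ n‖`, so `G b = ‖b‖` and `σ n` is monomial (`GS.mo_of_eq`); same for `d`.  So
`σ (x1 i)` is monomial, of the same norm as `x1 i`: `σ (x1 i) = x1 i * u`, `u ∈ BB t`, `‖u‖ = 1`
(`norm_mon_inj`).  `Rf.geny`: `y1 * d = n`: `σ y1 = σ n / σ d = mon x1 a * b`, `b ∈ BB t`, and
`G (σ y1) = G y1 = 1`, so `σ y1 ∈ BB t` (`GS.mem_of_le`).  Hence `σ (BB t) ⊆ BB t`.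
-/

namespace Pool.Agent.Lib.TDO

open Pool.Agent.Lib.MP_3029eb_ag Pool.Agent.Lib.MP_3029eb_ag.Abh

section aux
variable {k N : Type} [Field k] [NormedField N] [IsUltrametricDist N] [Algebra k N]
  {r : ℕ} {x : Fin r → N} {y τ : N}

private theorem stabG_inv {z : N} (h : Mo (BB k x y τ) x z) : Mo (BB k x y τ) x z⁻¹ := by
  obtain ⟨a, u, hu, h1, rfl⟩ := h
  refine ⟨-a, u⁻¹, inv_mem_BB hu h1, by rw [norm_inv, h1, inv_one], ?_⟩
  rw [mul_inv, mon_neg]

private theorem stabG_one : Mo (BB k x y τ) x (1 : N) :=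
  ⟨0, 1, Subring.one_mem _, norm_one, by rw [mon_zero, mul_one]⟩

private theorem stabG_zpow (hx : ∀ i, x i ≠ 0) {z : N} (h : Mo (BB k x y τ) x z) (n : ℤ) :
    Mo (BB k x y τ) x (z ^ n) := by
  have hnat : ∀ m : ℕ, Mo (BB k x y τ) x (z ^ m) := by
    intro m
    induction m with
    | zero => rw [pow_zero]; exact stabG_one
    | succ m ih => rw [pow_succ]; exact ih.mul hx h
  rcases Int.eq_nat_or_neg n with ⟨m, rfl | rfl⟩
  · rw [zpow_natCast]; exact hnat m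
  · rw [zpow_neg, zpow_natCast]; exact stabG_inv (hnat m)

private theorem stabG_mon {x0 : Fin r → N} (hx : ∀ i, x i ≠ 0) (σ : N ≃ₐ[k] N)
    (h : ∀ i, Mo (BB k x y τ) x (σ (x0 i))) (a : Fin r → ℤ) :
    Mo (BB k x y τ) x (σ (mon x0 a)) := by
  unfold mon
  rw [map_prod]
  refine Finset.prod_induction _ (fun z => Mo (BB k x y τ) x z) (fun _ _ h1 h2 => h1.mul hx h2)
    stabG_one fun i _ => ?_
  rw [map_zpow₀]
  exact stabG_zpow hx (h i) _

private theorem stabG_LL (hA : Amb r k N) (hy : ‖y‖ ≤ 1) {x0 : Fin r → N} {y0 : N}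
    (hx : ∀ i, x i ≠ 0) (σ : N ≃ₐ[k] N)
    (h : ∀ i, Mo (BB k x y τ) x (σ (x0 i))) (hy0 : σ y0 ∈ BB k x y τ) {n : N}
    (hn : n ∈ LL k x0 y0) : ∃ a : Fin r → ℤ, ∃ b ∈ BB k x y τ, σ n = mon x a * b := by
  have hmonB : ∀ a : Fin r → ℤ, ‖mon x a‖ ≤ 1 → mon x a ∈ BB k x y τ := fun a ha =>
    OO_le_BB x y τ (LO_le_OO hA hy (mon_mem_LO ha))
  induction hn using Subring.closure_induction with
  | mem z hz =>
    rcases hz with (⟨c, rfl⟩ | ⟨a, rfl⟩) | hz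
    · refine ⟨0, algebraMap k N c, OO_le_BB x y τ (LO_le_OO hA hy (algebraMap_mem_LO c)), ?_⟩
      rw [mon_zero, one_mul, σ.commutes]
    · obtain ⟨b, u, hu, -, hb⟩ := stabG_mon hx σ h a
      exact ⟨b, u, hu, hb⟩
    · rw [Set.mem_singleton_iff] at hz
      subst hz
      exact ⟨0, σ z, hy0, by rw [mon_zero, one_mul]⟩
  | zero => exact ⟨0, 0, Subring.zero_mem _, by rw [map_zero, mul_zero]⟩
  | one => exact ⟨0, 1, Subring.one_mem _, by rw [map_one, mon_zero, mul_one]⟩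
  | add z w _ _ hz hw =>
    obtain ⟨a, b, hb, h1⟩ := hz
    obtain ⟨a', b', hb', h2⟩ := hw
    have hne : ∀ a, ‖mon x a‖ ≠ 0 := fun a => norm_ne_zero_iff.2 (mon_ne x hx a)
    rcases le_total ‖mon x a‖ ‖mon x a'‖ with h3 | h3
    · refine ⟨a', mon x (a + -a') * b + b', Subring.add_mem _ (Subring.mul_mem _
        (hmonB _ ?_) hb) hb', ?_⟩
      · rw [mon_add x hx, mon_neg, norm_mul, norm_inv]
        exact mul_inv_le_one_of_le₀ h3 (norm_nonneg _)
      · rw [map_add, h1, h2, mon_add x hx, mon_neg]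
        have := mon_ne x hx a'
        field_simp
    · refine ⟨a, b + mon x (a' + -a) * b', Subring.add_mem _ hb (Subring.mul_mem _
        (hmonB _ ?_) hb'), ?_⟩
      · rw [mon_add x hx, mon_neg, norm_mul, norm_inv]
        exact mul_inv_le_one_of_le₀ h3 (norm_nonneg _)
      · rw [map_add, h1, h2, mon_add x hx, mon_neg]
        have := mon_ne x hx a
        field_simp
  | neg z _ hz =>
    obtain ⟨a, b, hb, h1⟩ := hz
    exact ⟨a, -b, Subring.neg_mem _ hb, by rw [map_neg, h1, mul_neg]⟩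
  | mul z w _ _ hz hw =>
    obtain ⟨a, b, hb, h1⟩ := hz
    obtain ⟨a', b', hb', h2⟩ := hw
    refine ⟨a + a', b * b', Subring.mul_mem _ hb hb', ?_⟩
    rw [map_mul, h1, h2, mon_add x hx]
    ring

end aux

theorem stab_G {k N : Type} [Field k] [NormedField N] [IsUltrametricDist N] [Algebra k N]
    {r : ℕ} (hA : Amb r k N) (hr : 0 < r) {x : Fin r → N} {y : N} (hP : Par k x y)
    (E : IntermediateField k N) (hE : Kxy k x y = E) (P : Polynomial E) (τ : N) (hEt : Et E P τ)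
    (hd : τ ∈ cl E) (htop : E ⊔ IntermediateField.adjoin k {τ} = ⊤) (σ : N ≃ₐ[k] N)
    (hiso : ∀ z, ‖σ z‖ = ‖z‖) (l : ℕ) (hl : 1 ≤ l) (hσ : σ ^ l = 1) :
    ∃ (x1 : Fin r → N) (y1 : N) (G : AbsoluteValue N ℝ), Rf k x y x1 y1 ∧
      GS k x1 y1 E P τ G ∧ (∀ z, G (σ z) = G z) ∧
      (∀ i, ∃ u ∈ BB k x1 y1 τ, ‖u‖ = 1 ∧ σ (x1 i) = x1 i * u) ∧
      ∀ z ∈ BB k x1 y1 τ, σ z ∈ BB k x1 y1 τ := by
  classical
  obtain ⟨x', y', hP', hrf', hinv⟩ := inv_G hA hr hP E hE P τ hEt hd htop σ hiso l hl hσ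
  have hE' : Kxy k x' y' = E := hrf'.fld.trans hE
  obtain ⟨x1, y1, hP1, hrf1, hgood, hZ⟩ := thmB hA hr hP' E hE' P τ hEt hd
    (((Finset.univ.image fun i => σ (x i)) ∪ {σ y, σ τ}).filter fun z => z ≠ 0) (by
      intro z hz
      rw [htop]
      exact ⟨IntermediateField.mem_top, (Finset.mem_filter.1 hz).2⟩)
  have hE1 : Kxy k x1 y1 = E := hrf1.fld.trans hE'
  obtain ⟨G, hG⟩ := exists_GS hA hP1 E hE1 P τ hEt hgood htop
  have hGσ := hinv x1 y1 G hrf1 hG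
  have hrf : Rf k x y x1 y1 := Rf.trans hA hP hP' hP1 hrf' hrf1
  have hy1 : ‖y1‖ ≤ 1 := hP1.y1.le
  have hx1 := hP1.ind.ne
  have hτ1 : ‖τ‖ ≤ 1 := hEt.lt.le
  -- the elements of `Z`
  have hσx : ∀ i, Mo (BB k x1 y1 τ) x1 (σ (x i)) := by
    intro i
    refine hZ _ (Finset.mem_filter.2 ⟨Finset.mem_union_left _
      (Finset.mem_image_of_mem _ (Finset.mem_univ i)), ?_⟩)
    rw [Ne, map_eq_zero_iff σ σ.injective]
    exact hP.ind.ne i
  have hσB : ∀ z : N, z ∈ ({σ y, σ τ} : Finset N) → ‖z‖ ≤ 1 → z ∈ BB k x1 y1 τ := by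
    intro z hz h1
    by_cases hz0 : z = 0
    · rw [hz0]; exact Subring.zero_mem _
    · exact Mo.mem_BB hA (hZ z (Finset.mem_filter.2 ⟨Finset.mem_union_right _ hz, hz0⟩)) h1
  have hσy : σ y ∈ BB k x1 y1 τ := hσB _ (by simp) (by rw [hiso]; exact hP.y1.le)
  have hστ : σ τ ∈ BB k x1 y1 τ := hσB _ (by simp) (by rw [hiso]; exact hτ1)
  -- monomial elements of `LL k x y`
  have hA1 : ∀ n ∈ LL k x y, Mo (OO k x1 y1) x1 n → Mo (BB k x1 y1 τ) x1 (σ n) := by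
    intro n hn hMn
    obtain ⟨a, b, hb, hσn⟩ := stabG_LL hA hy1 hx1 σ hσx hσy hn
    have hn0 : n ≠ 0 := hMn.ne hx1
    have hσn0 : σ n ≠ 0 := by rwa [Ne, map_eq_zero_iff σ σ.injective]
    have hma : mon x1 a ≠ 0 := mon_ne x1 hx1 a
    have hb0 : b ≠ 0 := by
      rintro rfl
      rw [mul_zero] at hσn
      exact hσn0 hσn
    have hMn' : Mo (BB k x1 y1 τ) x1 n := by
      obtain ⟨a', u', hu', h1, h2⟩ := hMn
      exact ⟨a', u', OO_le_BB x1 y1 τ hu', h1, h2⟩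
    have h1 : G (σ n) = ‖σ n‖ := by rw [hGσ, hG.mo hA hMn', hiso]
    rw [hσn, G.map_mul, norm_mul, hG.mon] at h1
    have h2 : G b = ‖b‖ := mul_left_cancel₀ (norm_ne_zero_iff.2 hma) h1
    have h3 := hG.mo_of_eq hA hr hb hb0 h2
    rw [hσn]
    exact (Mo.mon _ a).mul hx1 h3
  have hσx1 : ∀ i, ∃ u ∈ BB k x1 y1 τ, ‖u‖ = 1 ∧ σ (x1 i) = x1 i * u := by
    intro i
    obtain ⟨n, hn, d, hd', hMn, hMd, hnd⟩ := hrf.genx i
    have hd0 : d ≠ 0 := hMd.ne hx1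
    have hσd0 : σ d ≠ 0 := by rwa [Ne, map_eq_zero_iff σ σ.injective]
    have h1 : σ (x1 i) = σ n * (σ d)⁻¹ := by
      rw [← hnd, map_mul]
      field_simp
    have h2 := (hA1 n hn hMn).mul hx1 (stabG_inv (hA1 d hd' hMd))
    rw [← h1] at h2
    obtain ⟨a, u, hu, hu1, hau⟩ := h2
    have h3 : ‖mon x1 a‖ = ‖mon x1 (Pi.single i 1)‖ := by
      rw [mon_single, ← hiso (x1 i), hau, norm_mul, hu1, mul_one]
    have h4 := norm_mon_inj hP1.ind h3
    rw [h4, mon_single] at hau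
    exact ⟨u, hu, hu1, hau⟩
  have hσy1 : σ y1 ∈ BB k x1 y1 τ := by
    obtain ⟨n, hn, d, hd', hMd, hnd⟩ := hrf.geny
    have hd0 : d ≠ 0 := hMd.ne hx1
    have hσd0 : σ d ≠ 0 := by rwa [Ne, map_eq_zero_iff σ σ.injective]
    obtain ⟨a, b, hb, hσn⟩ := stabG_LL hA hy1 hx1 σ hσx hσy hn
    obtain ⟨a', u, hu, hu1, hσd⟩ := stabG_inv (hA1 d hd' hMd)
    have h1 : σ y1 = mon x1 (a + a') * (b * u) := by
      have h2 : σ y1 = σ n * (σ d)⁻¹ := by
        rw [← hnd, map_mul]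
        field_simp
      rw [h2, hσn, hσd, mon_add x1 hx1]
      ring
    have hy1B : y1 ∈ BB k x1 y1 τ := OO_le_BB x1 y1 τ (LO_le_OO hA hy1 y_mem_LO)
    have h3 := hG.mem_of_le hA hr (Subring.mul_mem _ hb hu) (a + a') (by
      rw [← h1, hGσ]
      exact hG.le_one hA hy1B)
    rwa [← h1] at h3
  refine ⟨x1, y1, G, hrf, hG, hGσ, hσx1, ?_⟩
  -- stability
  have hLO : ∀ z ∈ LO k x1 y1, σ z ∈ BB k x1 y1 τ := by
    intro z hz
    induction hz using Subring.closure_induction with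
    | mem z hz =>
      rcases hz with (⟨c, rfl⟩ | ⟨a, ha, rfl⟩) | hz
      · rw [σ.commutes]
        exact OO_le_BB x1 y1 τ (LO_le_OO hA hy1 (algebraMap_mem_LO c))
      · have hM : Mo (BB k x1 y1 τ) x1 (σ (mon x1 a)) := by
          refine stabG_mon hx1 σ (fun i => ?_) a
          obtain ⟨u, hu, hu1, h1⟩ := hσx1 i
          exact ⟨Pi.single i 1, u, hu, hu1, by rw [mon_single, h1]⟩
        exact hM.mem_BB hA (by rw [hiso]; exact ha)
      · rw [Set.mem_singleton_iff.1 hz]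
        exact hσy1
    | zero => rw [map_zero]; exact Subring.zero_mem _
    | one => rw [map_one]; exact Subring.one_mem _
    | add z w _ _ hz hw => rw [map_add]; exact Subring.add_mem _ hz hw
    | neg z _ hz => rw [map_neg]; exact Subring.neg_mem _ hz
    | mul z w _ _ hz hw => rw [map_mul]; exact Subring.mul_mem _ hz hw
  have hcl : ∀ z ∈ Subring.closure ((LO k x1 y1 : Set N) ∪ {τ}), σ z ∈ BB k x1 y1 τ := by
    intro z hz
    induction hz using Subring.closure_induction with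
    | mem z hz =>
      rcases hz with hz | hz
      · exact hLO z hz
      · rw [Set.mem_singleton_iff.1 hz]
        exact hστ
    | zero => rw [map_zero]; exact Subring.zero_mem _
    | one => rw [map_one]; exact Subring.one_mem _
    | add z w _ _ hz hw => rw [map_add]; exact Subring.add_mem _ hz hw
    | neg z _ hz => rw [map_neg]; exact Subring.neg_mem _ hz
    | mul z w _ _ hz hw => rw [map_mul]; exact Subring.mul_mem _ hz hw
  rintro z ⟨a, ha, b, hb, hb1, hzb⟩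
  have hbB : b ∈ BB k x1 y1 τ := ⟨b, hb, 1, Subring.one_mem _, map_one _, by rw [mul_one]⟩
  have hble : ‖b‖ ≤ 1 := norm_le_of_mem_BB hA hy1 hτ1 hbB
  have hb0 : b ≠ 0 := by
    rintro rfl
    rw [map_zero] at hb1
    exact zero_ne_one hb1
  have hbn : ‖b‖ = 1 := by
    refine le_antisymm hble ?_
    have h2 : (ball N).valuation b⁻¹ ≤ 1 := by rw [map_inv₀, hb1, inv_one]
    have h3 : ‖b⁻¹‖ ≤ 1 := ((ball N).valuation_le_one_iff b⁻¹).1 h2
    rw [norm_inv] at h3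
    exact (inv_le_one₀ (norm_pos_iff.2 hb0)).1 h3
  have hσb : (σ b)⁻¹ ∈ BB k x1 y1 τ := inv_mem_BB (hcl b hb) (by rw [hiso, hbn])
  have hσb0 : σ b ≠ 0 := by rwa [Ne, map_eq_zero_iff σ σ.injective]
  have h4 : σ z = σ a * (σ b)⁻¹ := by
    rw [← hzb, map_mul]
    field_simp
  rw [h4]
  exact Subring.mul_mem _ (hcl a ha) hσb

end Pool.Agent.Lib.TDO
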