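import Pool.Agent.Lib.TDO.LeadSt
import Pool.Agent.Lib.TDO.PolyB

/-!
# Module StageA: one stage for Theorem A
-/

namespace Pool.Agent.Lib.TDO

open Pool.Agent.Lib.MP_3029eb_ag Pool.Agent.Lib.MP_3029eb_ag.Abh

variable {k W : Type} [Field k] [NormedField W] [IsUltrametricDist W] [Algebra k W] {r : ℕ}

private theorem sta_ne (hA : Amb r k W) {x : Fin r → W} {y : W} (hP : Par k x y) : y ≠ 0 := by
  intro h0
  have h1 : ev x y (AddMonoidAlgebra.single ((0 : Fin r → ℤ), 1) (1 : k) : LP k r) = 0 := by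
    rw [ev_single, h0]
    simp
  have h2 := hP.tr _ h1
  have h3 : (AddMonoidAlgebra.single ((0 : Fin r → ℤ), 1) (1 : k) : LP k r).coeff (0, 1) =
      (0 : LP k r).coeff (0, 1) := by rw [h2]
  simp at h3

private theorem sta_low {x : Fin r → W} {y : W} (hx : ∀ i, x i ≠ 0) (hy : y ≠ 0)
    (s : Finset ((Fin r → ℤ) × ℕ)) : ∃ C : ℝ, 0 < C ∧ ∀ m ∈ s, C < ‖mon x m.1 * y ^ m.2‖ := by
  classical
  induction s using Finset.induction_on with
  | empty => exact ⟨1, one_pos, by simp⟩
  | insert a s _ ih =>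
    obtain ⟨C, hC, h⟩ := ih
    have h1 : 0 < ‖mon x a.1 * y ^ a.2‖ :=
      norm_pos_iff.2 (mul_ne_zero (mon_ne x hx _) (pow_ne_zero _ hy))
    refine ⟨min C (‖mon x a.1 * y ^ a.2‖ / 2), lt_min hC (by linarith), fun m hm => ?_⟩
    rcases Finset.mem_insert.1 hm with rfl | hm
    · exact (min_le_right _ _).trans_lt (by linarith)
    · exact (min_le_left _ _).trans_lt (h m hm)

/-- the leading exponent after substitution -/
private theorem sta_lead {x' : Fin r → W} {c : k}
    {T : ((Fin r → ℤ) × ℤ) ≃+ ((Fin r → ℤ) × ℤ)} (P : LP k r)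
    (hT : ∀ a j, P.coeff (a, j) ≠ 0 → 0 ≤ (T (a, (j : ℤ))).2) (P' : LP k r)
    (hP' : ∀ α i, P'.coeff (α, i) = (Polynomial.taylor c (part T P α)).coeff i)
    {α : Fin r → ℤ} {D : ℕ}
    (hmax : ∀ a j, P.coeff (a, j) ≠ 0 → ‖mon x' (T (a, (j : ℤ))).1‖ ≤ ‖mon x' α‖)
    (hex : ∃ i ≤ D, (Polynomial.taylor c (part T P α)).coeff i ≠ 0) :
    ∃ d' ≤ D, Lead x' P' α d' ∧ ∀ i < d', (Polynomial.taylor c (part T P α)).coeff i = 0 := by
  classical
  obtain ⟨i, hi, hne⟩ := hex
  have hex' : ∃ i, (Polynomial.taylor c (part T P α)).coeff i ≠ 0 := ⟨i, hne⟩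
  refine ⟨Nat.find hex', (Nat.find_min' hex' hne).trans hi, ⟨?_, ?_, ?_⟩, ?_⟩
  · rw [hP']
    exact Nat.find_spec hex'
  · intro a j haj
    rw [hP'] at haj
    have h1 : part T P a ≠ 0 := by
      intro h0
      rw [h0, map_zero] at haj
      exact haj (Polynomial.coeff_zero _)
    obtain ⟨a2, j2, h2, h3⟩ := part_coeff_ne T P hT a (part T P a).natDegree (by
      rw [Polynomial.coeff_natDegree]
      exact Polynomial.leadingCoeff_ne_zero.2 h1)
    have h4 := hmax a2 j2 h2
    rw [h3] at h4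
    exact h4
  · intro j hj
    rw [hP'] at hj
    exact Nat.find_min' hex' hj
  · intro j hj
    by_contra hne'
    exact absurd (Nat.find_min' hex' hne') (not_le.2 hj)

private theorem sta_norm (hA : Amb r k W) {c : k} (hc : c ≠ 0) {y' : W} (hy : ‖y'‖ < 1) :
    ‖algebraMap k W c + y'‖ = 1 := by
  have h1 := hA.unit c hc
  have h2 : ‖algebraMap k W c‖ ≠ ‖y'‖ := by rw [h1]; exact hy.ne'
  rw [IsUltrametricDist.norm_add_eq_max_of_norm_ne_norm h2, h1]
  exact max_eq_left hy.le

/-- One stage for Theorem A.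
Proof.  Multiply `P` by a monomial `mon x N` (`exists_shift`, `exists_mon_lt` for `(mon x N)⁻¹`) so
that all terms have norm `‖mon x a * y^j‖ > 1` (this only shifts `a0`); apply `exists_stage` with
`X` the support, `exists_subst`, `lead_stage`, and `taylor_bound`: some Taylor coefficient of
`part T P α` of index `≤ D` is not zero, so `Lead x' P' α d'` with `d' ≤ D`, `D ≤ d / e`.
If `e ≥ 2` or `D < d` this gives the first alternative.  If `e = 1` (then `x' = x`,
`T (a, j) = (a + j • B, j)`) no multiplication is needed: apply `exists_subst` to the original `P`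
(all second components are `j ≥ 0`); if `d' < d` first alternative with `N = 0`; if `d' = d`
then `j1 = 0`, `D = d`, and `taylor_eq_case` (`m1 = j1 = 0`) gives `part.coeff 0 ≠ 0`,
`part.coeff d ≠ 0`; the latter comes from `P.coeff (α - d • B, d) ≠ 0` with `‖mon x (α - d B)‖ ≥
‖mon x a0‖`, so `α - d B = a0`.  (Note: the stage must be chosen ONCE; to decide `e` first apply
`exists_stage` to the multiplied polynomial; in the case `e = 1` use it for the original `P`.) -/
theorem stage_A (hA : Amb r k W) (hr : 0 < r) {x : Fin r → W} {y : W} (hP : Par k x y)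
    (P : LP k r) {a0 : Fin r → ℤ} {d : ℕ} (hl : Lead x P a0 d) (hd : 1 ≤ d) :
    (∃ (x' : Fin r → W) (y' : W) (P' : LP k r) (N a0' : Fin r → ℤ) (d' : ℕ),
      Par k x' y' ∧ Rf k x y x' y' ∧ ev x' y' P' = mon x N * ev x y P ∧
      Lead x' P' a0' d' ∧ d' < d) ∨
    (∃ (y' : W) (P' : LP k r) (b : Fin r → ℤ) (c : k), c ≠ 0 ∧
      y = mon x b * (algebraMap k W c + y') ∧ Par k x y' ∧ Rf k x y x y' ∧
      ev x y' P' = ev x y P ∧ Lead x P' (a0 + d • b) d ∧ ‖mon x b‖ < 1 ∧
      P.coeff (a0 + d • b, 0) ≠ 0 ∧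
      ∀ a' j', P'.coeff (a', j') ≠ 0 → ∃ a j, P.coeff (a, j) ≠ 0 ∧ j' ≤ j ∧ a' = a + j • b) := by
  classical
  have hx := hP.ind.ne
  have hy0 := sta_ne hA hP
  obtain ⟨C, hC, hlow⟩ := sta_low hx hy0 P.coeff.support
  obtain ⟨N, hN0, hN⟩ := exists_mon_lt hr hP.ind C hC
  obtain ⟨P1, hev1, hco1⟩ := exists_shift x y hx P (-N)
  have hmN : 0 < ‖mon x N‖ := norm_pos_iff.2 (mon_ne x hx N)
  have hX1 : ∀ m ∈ P1.coeff.support, 1 < ‖mon x m.1 * y ^ m.2‖ := by
    rintro ⟨a, j⟩ hm
    rw [Finsupp.mem_support_iff, hco1, sub_neg_eq_add] at hm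
    have h1 := hlow (a + N, j) (Finsupp.mem_support_iff.2 hm)
    simp only at h1 ⊢
    rw [mon_add x hx, mul_assoc, mul_comm (mon x N), ← mul_assoc, norm_mul] at h1
    by_contra hcon
    rw [not_lt] at hcon
    have h2 : ‖mon x a * y ^ j‖ * ‖mon x N‖ ≤ 1 * ‖mon x N‖ :=
      mul_le_mul_of_nonneg_right hcon hmN.le
    linarith
  obtain ⟨x', y', e, B, c, T, hst, hT1, he1⟩ := exists_stage hA hP P1.coeff.support hX1
  have hpar := stage_par hA hP hst
  have hrf := (stage_rf hA hP hst).1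
  rcases Nat.lt_or_ge 1 e with he | he
  · -- `e ≥ 2`
    left
    have hT1' : ∀ a j, P1.coeff (a, j) ≠ 0 → 0 ≤ (T (a, (j : ℤ))).2 := fun a j h =>
      hT1 (a, j) (Finsupp.mem_support_iff.2 h)
    have hl1 : Lead x P1 (a0 - N) d := by
      constructor
      · rw [hco1, sub_neg_eq_add, sub_add_cancel]
        exact hl.mem
      · intro a j h
        rw [hco1, sub_neg_eq_add] at h
        have h1 := hl.max _ _ h
        have h2 : ‖mon x a‖ * ‖mon x N‖ ≤ ‖mon x (a0 - N)‖ * ‖mon x N‖ := by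
          rw [← norm_mul, ← norm_mul, ← mon_add x hx, ← mon_add x hx, sub_add_cancel]
          exact h1
        exact le_of_mul_le_mul_right h2 hmN
      · intro j h
        rw [hco1, sub_neg_eq_add, sub_add_cancel] at h
        exact hl.min j h
    obtain ⟨P', hevP', hcoP'⟩ := exists_subst hst P1 hT1'
    obtain ⟨α, a1, j1, m1, D, g1, g2, g3, g4, g5, g6, g7, g8, g9⟩ :=
      lead_stage hA hP hst P1 hT1' hl1
    have g10 := taylor_bound c hst.c0 (part T P1 α) g4 m1 D g6 g7
    obtain ⟨d', hd', hlead, -⟩ := sta_lead P1 hT1' P' hcoP' g5 g10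
    refine ⟨x', y', P', -N, α, d', hpar, hrf, ?_, hlead, ?_⟩
    · rw [hevP', hev1]
    · have h1 : D * 2 ≤ D * e := Nat.mul_le_mul_left D he
      omega
  · -- `e = 1`
    have he' : e = 1 := le_antisymm he hst.e1
    subst he'
    obtain ⟨rfl, hT⟩ := he1 rfl
    have hT0 : ∀ a j, P.coeff (a, j) ≠ 0 → 0 ≤ (T (a, (j : ℤ))).2 := by
      intro a j _
      rw [hT]
      exact Int.natCast_nonneg j
    obtain ⟨P', hevP', hcoP'⟩ := exists_subst hst P hT0
    obtain ⟨α, a1, j1, m1, D, g1, g2, g3, g4, g5, g6, g7, g8, g9⟩ :=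
      lead_stage hA hP hst P hT0 hl
    have g10 := taylor_bound c hst.c0 (part T P α) g4 m1 D g6 g7
    obtain ⟨d', hd', hlead, hzero⟩ := sta_lead P hT0 P' hcoP' g5 g10
    rw [hT] at g2
    have hα : a1 + (j1 : ℤ) • B = α := congrArg Prod.fst g2
    have hm1 : (j1 : ℤ) = (m1 : ℤ) := congrArg Prod.snd g2
    have hm1' : j1 = m1 := by exact_mod_cast hm1
    rcases lt_or_ge d' d with hlt | hge
    · left
      refine ⟨x', y', P', 0, α, d', hpar, hrf, ?_, hlead, hlt⟩
      rw [hevP', mon_zero, one_mul]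
    · right
      have hD : D = d := by omega
      have hj1 : j1 = 0 := by omega
      have hd'' : d' = d := by omega
      have hm0 : m1 = 0 := by omega
      rw [hm0, hD, zero_add] at g7
      rw [hd''] at hzero hlead
      obtain ⟨k1, k2, k3⟩ := taylor_eq_case c hst.c0 (part T P α) g4 d g7 hzero
      have hα' : a1 = α := by
        rw [← hα, hj1]
        simp
      obtain ⟨i, hi1, hi2, -⟩ := g8 d k2
      have hi : i = d := by omega
      rw [hi, hj1, zero_add, mul_one, hα'] at hi2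
      have hyB : ‖y‖ = ‖mon x' B‖ := by
        have h1 := hst.hw
        rw [pow_one] at h1
        rw [h1, norm_mul, sta_norm hA hst.c0 hst.y1, mul_one]
      have hBlt : ‖mon x' B‖ < 1 := by rw [← hyB]; exact hP.y1
      have hαB : α = (α - d • B) + d • B := (sub_add_cancel _ _).symm
      have hle : ‖mon x' a0‖ ≤ ‖mon x' (α - d • B)‖ := by
        have h1 : ‖mon x' a0‖ * ‖y‖ ^ d ≤ ‖mon x' (α - d • B)‖ * ‖y‖ ^ d := by
          have h2 : ‖mon x' α‖ = ‖mon x' (α - d • B)‖ * ‖y‖ ^ d := by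
            conv_lhs => rw [hαB]
            rw [mon_add x' hx, norm_mul, mon_nsmul, norm_pow, hyB]
          rw [← h2, ← norm_pow, ← norm_mul]
          exact g9
        exact le_of_mul_le_mul_right h1 (pow_pos (norm_pos_iff.2 hy0) _)
      have hEq : α - d • B = a0 :=
        norm_mon_inj hP.ind (le_antisymm (hl.max _ _ hi2) hle)
      have hα2 : α = a0 + d • B := by rw [← hEq, sub_add_cancel]
      refine ⟨y', P', B, c, hst.c0, ?_, hpar, hrf, hevP', ?_, hBlt, ?_, ?_⟩
      · have h1 := hst.hw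
        rw [pow_one] at h1
        exact h1
      · rw [← hα2]
        exact hlead
      · obtain ⟨i0, hi01, hi02, -⟩ := g8 0 k1
        have hi0 : i0 = 0 := by omega
        rw [hi0, hj1, zero_smul, sub_zero, zero_mul, add_zero, hα', hα2] at hi02
        exact hi02
      · intro a' j' haj
        rw [hcoP'] at haj
        have h1 : part T P a' ≠ 0 := by
          intro h0
          rw [h0, map_zero] at haj
          exact haj (Polynomial.coeff_zero _)
        have h2 : j' ≤ (part T P a').natDegree := by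
          rw [← Polynomial.natDegree_taylor (part T P a') c]
          exact Polynomial.le_natDegree_of_ne_zero haj
        obtain ⟨a2, j2, h3, h4⟩ := part_coeff_ne T P hT0 a' (part T P a').natDegree (by
          rw [Polynomial.coeff_natDegree]
          exact Polynomial.leadingCoeff_ne_zero.2 h1)
        rw [hT] at h4
        have h5 : a2 + (j2 : ℤ) • B = a' := congrArg Prod.fst h4
        have h6 : (j2 : ℤ) = ((part T P a').natDegree : ℤ) := congrArg Prod.snd h4
        have h7 : j2 = (part T P a').natDegree := by exact_mod_cast h6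
        refine ⟨a2, j2, h3, by rw [h7]; exact h2, ?_⟩
        rw [← h5, natCast_zsmul]

end Pool.Agent.Lib.TDO
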