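import Pool.Agent.Lib.TDO.LeadSt
import Pool.Agent.Lib.TDO.PolyB
import Pool.Agent.Lib.TDO.Red

/-!
# Module StageAS: one stage for the Artin-Schreier step
-/

namespace Pool.Agent.Lib.TDO

open Pool.Agent.Lib.MP_3029eb_ag Pool.Agent.Lib.MP_3029eb_ag.Abh

private theorem SAS_taylor {k : Type} [Field k] {c : k} {f : Polynomial k} {i : ℕ}
    (h : (Polynomial.taylor c f).coeff i ≠ 0) : ∃ n, i ≤ n ∧ f.coeff n ≠ 0 := by
  by_contra hcon
  push Not at hcon
  apply h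
  rw [Polynomial.taylor_coeff]
  have h0 : Polynomial.hasseDeriv i f = 0 := by
    ext n
    rw [Polynomial.hasseDeriv_coeff, hcon (n + i) (by omega), mul_zero, Polynomial.coeff_zero]
  rw [h0, Polynomial.eval_zero]

private theorem SAS_div {r p : ℕ} (T : ((Fin r → ℤ) × ℤ) ≃+ ((Fin r → ℤ) × ℤ))
    {a a' : Fin r → ℤ} {j m : ℤ} (h : T (a, j) = (p • a', (p : ℤ) * m)) :
    (∃ a'' : Fin r → ℤ, a = p • a'') ∧ (p : ℤ) ∣ j := by
  have h2 : (p • (a', m) : (Fin r → ℤ) × ℤ) = (p • a', (p : ℤ) * m) :=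
    Prod.ext rfl (nsmul_eq_mul p m)
  have h1 : (a, j) = p • T.symm (a', m) := by
    rw [← map_nsmul, h2, ← h, T.symm_apply_apply]
  have h3 : a = p • (T.symm (a', m)).1 := congrArg Prod.fst h1
  have h4 : j = p • (T.symm (a', m)).2 := congrArg Prod.snd h1
  exact ⟨⟨_, h3⟩, ⟨(T.symm (a', m)).2, by rw [h4, nsmul_eq_mul]⟩⟩

private theorem SAS_norm_w {k W : Type} [Field k] [NormedField W] [IsUltrametricDist W]
    [Algebra k W] {r : ℕ} (hA : Amb r k W) {c : k} (hc : c ≠ 0) {y' : W} (hy : ‖y'‖ < 1) :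
    ‖algebraMap k W c + y'‖ = 1 := by
  have h1 := hA.unit c hc
  rw [IsUltrametricDist.norm_add_eq_max_of_norm_ne_norm (by rw [h1]; exact hy.ne'), h1,
    max_eq_left hy.le]

/-- Proof.
(0) `exists_drop`: replace `P` by the part `P1` of the terms of norm `> 1`; `P1 ≠ 0` by `hne`
(otherwise `‖ev P - (c^p - c)‖ < 1`).  If `(a0, d)` is still in the support of `P1` its leading
exponent is `(a0, d)`; otherwise `‖mon x a0 * y^d‖ ≤ 1` and every `(a, j)` in the support of `P1` has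
`j < d` (for `j ≥ d`, `‖mon x a * y^j‖ ≤ ‖mon x a0 * y^d‖ ≤ 1`), its leading exponent is some `(a0', d1)` with
`d1 < d`; if `d1 ≤ 1` or more generally `d1 < d` we continue the same computation with `(a0', d1)`
(every bound below is then `≤ d1 < d`), OR simply stop: `P1` itself is reduced, with
`x' = x, y' = y` the first alternative holds.
(1) `exists_stage` with `X` the support of `P1`; `exists_subst` gives `P2` with
`ev x' y' P2 = ev x y P1`; `lead_stage` gives `α, a1, j1, m1, D`; `‖mon x' α‖ ≥ ‖mon x a0 * y^d‖ > 1`.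
`exists_red` gives `P'` reduced.
(2) All coefficients of `P2` at `(α, i)` are Taylor coefficients of `φ = part T P1 α`.
If `α ∉ pℤ^r`: `taylor_bound` gives `i ≤ D` with nonzero coefficient, unchanged in `P'`.
If `α ∈ pℤ^r`: all exponents `n` of `φ` are prime to `p`: `T (a, j) = (α, n)`, if `p ∣ n` then
`(a, j) = T.symm (α, n)` is divisible by `p`, contradicting `RedP p x P`; `taylor_bound_p` gives
`i ≤ D + 1` prime to `p`.
So `P' ≠ 0` has `Lead x' P' α d'` (exponents `a` of `P'` come from exponents `p^n a` of `P2`, with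
`‖mon x' a‖ ≤ ‖mon x' (p^n a)‖ ≤ ‖mon x' α‖`) with `d' ≤ D` resp. `d' ≤ D + 1`.
(3) `e = 1` (so `x' = x`, `T (a, j) = (a + j • B, j)`, `m1 = j1`).  `α ∉ pℤ^r`: if `d' ≥ d` then
`D = d`, `j1 = 0`, `taylor_eq_case`: `φ.coeff 0 ≠ 0`, `φ.coeff d ≠ 0`, whence `α - d B = a0`,
`P.coeff (a0 + d B, 0) ≠ 0`, `d' = d`.  `α ∈ pℤ^r`: `j1` is prime to `p` so `j1 ≥ 1`,
`D ≤ d - 1`, `d' ≤ d`; if `d' = d` then (`d ≥ 2`) the hypotheses of `taylor_eq_case_p` hold
(`natDegree φ ≤ d`; no nonzero Taylor coefficient of index `< d` prime to `p`):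
`φ.coeff 1 ≠ 0`: `P.coeff (α - B, 1) ≠ 0`, and `φ.coeff d ≠ 0` gives `α = a0 + d B`.
(4) `e ≥ 2`: `d' < d`.  `α ∉ pℤ^r`: `D e ≤ d`, `D ≤ d / 2 < d`.  `α ∈ pℤ^r`: `d' ≤ D + 1`,
`j1 + D e ≤ d`.  If `j1 ≥ 1`: `D ≤ (d-1)/2`, `D + 1 < d + 1/2 ...` precisely `D + 1 ≤ (d + 1)/2 < d`
as `d ≥ 2`.  If `j1 = 0`: `p ∣ e`, because `T (a1, 0) = (α, m1)`, `T (-B, e) = (0, 1)`, so
`T (a1 + m1 B, - m1 e) = (α, 0)` is divisible by `p`, hence `p ∣ m1 e`, and `p ∤ m1`.  If `e ≥ 3`: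
`D ≤ d / 3`, `D + 1 < d` or `d = 2, D = 0, d' ≤ 1`.  If `e = 2 = p`: if `d > 2`,
`D + 1 ≤ d / 2 + 1 < d`; if `d = 2`, `D ≤ 1`; the exponents of `φ` are in `{m1, m1 + 1}` and odd,
so `φ` is a monomial and `taylor_monomial_p` gives `d' ≤ 1`. -/
theorem stage_AS {k W : Type} [Field k] [IsAlgClosed k] [NormedField W] [IsUltrametricDist W]
    [Algebra k W] {r : ℕ} (hA : Amb r k W) (p : ℕ) [Fact p.Prime] [CharP k p] {x : Fin r → W}
    {y : W} (hP : Par k x y) (P : LP k r) (hred : RedP p x P) {a0 : Fin r → ℤ} {d : ℕ}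
    (hl : Lead x P a0 d) (hd : 2 ≤ d)
    (hne : ∀ s ∈ Kxy k x y, 1 ≤ ‖ev x y P - (s ^ p - s)‖) :
    (∃ (x' : Fin r → W) (y' : W) (P' : LP k r) (a0' : Fin r → ℤ) (d' : ℕ),
      Par k x' y' ∧ Rf k x y x' y' ∧ RedP p x' P' ∧
      (∃ s ∈ Kxy k x y, ‖ev x y P - ev x' y' P' - (s ^ p - s)‖ < 1) ∧
      Lead x' P' a0' d' ∧ d' < d) ∨
    (∃ (y' : W) (P' : LP k r) (b : Fin r → ℤ) (c : k), c ≠ 0 ∧
      y = mon x b * (algebraMap k W c + y') ∧ Par k x y' ∧ Rf k x y x y' ∧ RedP p x P' ∧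
      (∃ s ∈ Kxy k x y, ‖ev x y P - ev x y' P' - (s ^ p - s)‖ < 1) ∧
      Lead x P' (a0 + d • b) d ∧ ‖mon x b‖ < 1 ∧
      (P.coeff (a0 + d • b, 0) ≠ 0 ∨ P.coeff (a0 + (d - 1) • b, 1) ≠ 0) ∧
      ∀ a' j', P'.coeff (a', j') ≠ 0 → ∃ n : ℕ, ∃ a j, P.coeff (a, j) ≠ 0 ∧ p ^ n * j' ≤ j ∧
        p ^ n • a' = a + j • b) := by
  classical
  have hpp : p.Prime := Fact.out
  have hW : CharP W p := charP_of_injective_algebraMap (algebraMap k W).injective p
  have hxne := hP.ind.ne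
  -- step 0
  obtain ⟨P1, ⟨c0, hc0⟩, hP1⟩ := exists_drop hA p (x := x) (y := y) P
  have hP1s : ∀ a j, P1.coeff (a, j) ≠ 0 → P.coeff (a, j) ≠ 0 ∧ 1 < ‖mon x a * y ^ j‖ := by
    intro a j h
    rw [hP1] at h
    by_cases h1 : 1 < ‖mon x a * y ^ j‖
    · rw [if_pos h1] at h
      exact ⟨h, h1⟩
    · rw [if_neg h1] at h
      exact absurd rfl h
  have hc0K : algebraMap k W c0 ∈ Kxy k x y := (Kxy k x y).algebraMap_mem c0
  have hP1ne : P1 ≠ 0 := by
    intro h0
    rw [h0, ev_zero, sub_zero] at hc0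
    exact absurd (hne _ hc0K) (not_le.2 hc0)
  have hred1 : RedP p x P1 := fun a j h => hred a j (hP1s a j h).1
  by_cases hmem : P1.coeff (a0, d) ≠ 0
  swap
  · -- the leading term has been dropped
    left
    obtain ⟨a0', d1, hl1⟩ := exists_lead hP.ind P1 hP1ne
    refine ⟨x, y, P1, a0', d1, hP, Rf.refl hA hP, hred1, ⟨_, hc0K, hc0⟩, hl1, ?_⟩
    by_contra hdd
    push Not at hdd
    have h1 := hP1s _ _ hl1.mem
    have h2 : ¬ 1 < ‖mon x a0 * y ^ d‖ := by
      intro h3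
      apply hmem
      rw [hP1, if_pos h3]
      exact hl.mem
    apply h2
    refine lt_of_lt_of_le h1.2 ?_
    rw [norm_mul, norm_mul, norm_pow, norm_pow]
    exact mul_le_mul (hl.max _ _ h1.1) (pow_le_pow_of_le_one (norm_nonneg _) hP.y1.le hdd)
      (by positivity) (norm_nonneg _)
  -- step 1
  have hl1 : Lead x P1 a0 d := by
    refine ⟨hmem, fun a j h => hl.max a j (hP1s a j h).1, fun j h => hl.min j (hP1s a0 j h).1⟩
  obtain ⟨x', y', e, B, c, T, hst, hTX, he1⟩ := exists_stage hA hP P1.coeff.support (by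
    intro m hm
    exact (hP1s m.1 m.2 (Finsupp.mem_support_iff.1 hm)).2)
  have hT : ∀ a j, P1.coeff (a, j) ≠ 0 → 0 ≤ (T (a, (j : ℤ))).2 := fun a j h =>
    hTX (a, j) (Finsupp.mem_support_iff.2 h)
  obtain ⟨P2, hev2, hP2⟩ := exists_subst hst P1 hT
  obtain ⟨α, a1, j1, m1, D, ha1, hTa1, hjD, hφ0, hmax, hlow, hdeg, hφ, hnorm⟩ :=
    lead_stage hA hP hst P1 hT hl1
  set φ := part T P1 α with hφdef
  have hα1 : 1 < ‖mon x' α‖ := lt_of_lt_of_le (hP1s a0 d hmem).2 hnorm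
  obtain ⟨P', hred', ⟨s, hsLL, hs⟩, hcoef, hsame⟩ := exists_red hA p hst.ind hst.y1 P2
  have hpar' : Par k x' y' := stage_par hA hP hst
  have hrf' : Rf k x y x' y' := (stage_rf hA hP hst).1
  have hsK : s ∈ Kxy k x y := by
    rw [← hrf'.fld]
    exact LL_le_Kxy x' y' hsLL
  have hS : ∃ s ∈ Kxy k x y, ‖ev x y P - ev x' y' P' - (s ^ p - s)‖ < 1 := by
    refine ⟨s + algebraMap k W c0, add_mem hsK hc0K, ?_⟩
    have h1 : ev x y P - ev x' y' P' - ((s + algebraMap k W c0) ^ p - (s + algebraMap k W c0)) =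
        (ev x y P - ev x y P1 - ((algebraMap k W c0) ^ p - algebraMap k W c0)) +
        (ev x' y' P2 - ev x' y' P' - (s ^ p - s)) := by
      rw [add_pow_char, hev2]
      ring
    rw [h1]
    exact lt_of_le_of_lt (IsUltrametricDist.norm_add_le_max _ _) (max_lt hc0 hs)
  -- exponents of `P2`
  have hP2e : ∀ a i, P2.coeff (a, i) ≠ 0 → ∃ n, i ≤ n ∧ ∃ a'' j'', P1.coeff (a'', j'') ≠ 0 ∧
      T (a'', (j'' : ℤ)) = (a, (n : ℤ)) := by
    intro a i h
    rw [hP2] at h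
    obtain ⟨n, hn, h1⟩ := SAS_taylor h
    exact ⟨n, hn, part_coeff_ne T P1 hT a n h1⟩
  have hP2m : ∀ a i, P2.coeff (a, i) ≠ 0 → ‖mon x' a‖ ≤ ‖mon x' α‖ := by
    intro a i h
    obtain ⟨n, -, a'', j'', h1, h2⟩ := hP2e a i h
    have h3 := hmax a'' j'' h1
    rwa [h2] at h3
  have hcoα : ∀ j, ¬ ((∃ a' : Fin r → ℤ, α = p • a') ∧ p ∣ j) →
      P'.coeff (α, j) = (Polynomial.taylor c φ).coeff j := by
    intro j hj
    rw [hsame α hα1 hP2m j hj, hP2]
  have hP'm : ∀ a j, P'.coeff (a, j) ≠ 0 → ‖mon x' a‖ ≤ ‖mon x' α‖ := by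
    intro a j h
    obtain ⟨n, hn⟩ := hcoef a j h
    have h1 := hP2m _ _ hn
    rw [mon_nsmul, norm_pow] at h1
    refine le_trans ?_ h1
    exact le_self_pow₀ (hred' a j h).1.le (pow_ne_zero n hpp.ne_zero)
  have hlead : ∀ i, P'.coeff (α, i) ≠ 0 → ∃ d' ≤ i, Lead x' P' α d' := by
    intro i hi
    have hex : ∃ j, P'.coeff (α, j) ≠ 0 := ⟨i, hi⟩
    refine ⟨Nat.find hex, Nat.find_min' hex hi, ⟨Nat.find_spec hex, hP'm, ?_⟩⟩
    intro j hj
    exact Nat.find_min' hex hj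
  -- it is enough to find a small exponent
  by_cases hgood : ∃ i < d, P'.coeff (α, i) ≠ 0
  · obtain ⟨i, hid, hi⟩ := hgood
    obtain ⟨d', hd'i, hL⟩ := hlead i hi
    left
    exact ⟨x', y', P', α, d', hpar', hrf', hred', hS, hL, lt_of_le_of_lt hd'i hid⟩
  push Not at hgood
  -- exponents of `φ` when `α` is divisible by `p`
  have hφp : (∃ a' : Fin r → ℤ, α = p • a') → ∀ n, φ.coeff n ≠ 0 → ¬ p ∣ n := by
    rintro ⟨a', ha'⟩ n hn ⟨m, hm⟩
    obtain ⟨i, -, h2, h3⟩ := hφ n hn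
    have h4 : T (a1 - i • B, ((j1 + i * e : ℕ) : ℤ)) = (p • a', (p : ℤ) * (m : ℤ)) := by
      rw [h3, ha', hm, Nat.cast_mul]
    obtain ⟨h5, h6⟩ := SAS_div T h4
    exact (hred1 _ _ h2).2 ⟨h5, by exact_mod_cast h6⟩
  have hφm1 : φ.coeff m1 ≠ 0 := by
    have h1 := part_coeff T P1 hT a1 j1 ha1
    rw [hTa1] at h1
    have h2 : ((m1 : ℤ)).toNat = m1 := Int.toNat_natCast m1
    simp only [h2] at h1
    rw [hφdef, h1]
    exact ha1
  have he1' : 1 ≤ e := hst.e1
  have hw1 := SAS_norm_w hA hst.c0 hst.y1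
  -- the small exponents vanish
  have hvan1 : ¬ (∃ a' : Fin r → ℤ, α = p • a') → ∀ i < d, (Polynomial.taylor c φ).coeff i = 0 := by
    intro hα i hi
    rw [← hcoα i (fun h => hα h.1)]
    exact hgood i hi
  have hvan2 : ∀ i < d, ¬ p ∣ i → (Polynomial.taylor c φ).coeff i = 0 := by
    intro i hi hpi
    rw [← hcoα i (fun h => hpi h.2)]
    exact hgood i hi
  -- `e = 1`
  have hone : e = 1 := by
    by_contra hne1
    have he2 : 2 ≤ e := by omega
    have hDe : D * 2 ≤ D * e := Nat.mul_le_mul_left D he2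
    by_cases hα : ∃ a' : Fin r → ℤ, α = p • a'
    · obtain ⟨i, hiD, hpi, hi⟩ := taylor_bound_p p c hst.c0 φ hφ0 m1 D hlow hdeg (hφp hα)
      have hid : d ≤ i := by
        by_contra h
        exact hi (hvan2 i (by omega) hpi)
      have hj10 : j1 = 0 := by omega
      -- `p` divides `e`
      have hpm1 : ¬ p ∣ m1 := hφp hα m1 hφm1
      obtain ⟨a', ha'⟩ := hα
      have hTT : T (a1 + m1 • B, -((m1 : ℤ) * (e : ℤ))) = (p • a', (p : ℤ) * 0) := by
        have h1 : ((a1 + m1 • B, -((m1 : ℤ) * (e : ℤ))) : (Fin r → ℤ) × ℤ) =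
            (a1, (j1 : ℤ)) - m1 • ((-B, (e : ℤ)) : (Fin r → ℤ) × ℤ) := by
          rw [hj10]
          ext i
          · simp
          · simp
        rw [h1, map_sub, map_nsmul, hTa1, hst.hT, ha']
        ext i
        · simp
        · simp
      obtain ⟨-, h6⟩ := SAS_div T hTT
      have h7 : (p : ℤ) ∣ ((m1 * e : ℕ) : ℤ) := by
        rw [Nat.cast_mul]
        exact (dvd_neg.1 h6)
      have h8 : p ∣ m1 * e := by exact_mod_cast h7
      have hpe : p ∣ e := (hpp.dvd_mul.1 h8).resolve_left hpm1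
      have he2' : e = 2 := by
        by_contra h9
        have he3 : 3 ≤ e := by omega
        have hDe3 : D * 3 ≤ D * e := Nat.mul_le_mul_left D he3
        omega
      rw [he2'] at hpe hjD
      have hp2 : p = 2 := (Nat.prime_dvd_prime_iff_eq hpp Nat.prime_two).1 hpe
      have hd2 : d = 2 := by omega
      have hD1 : D = 1 := by omega
      -- `φ` is a monomial
      have hmono : φ = Polynomial.monomial m1 (φ.coeff m1) := by
        ext n
        rw [Polynomial.coeff_monomial]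
        split_ifs with hn
        · rw [hn]
        · by_contra hnn
          have h9 : m1 ≤ n := by
            by_contra h10
            exact hnn (hlow n (by omega))
          have h10 : n ≤ m1 + D := (Polynomial.le_natDegree_of_ne_zero hnn).trans hdeg
          have h11 : n = m1 + 1 := by omega
          have h12 := hφp ⟨a', ha'⟩ n hnn
          rw [h11, hp2] at h12
          rw [hp2] at hpm1
          omega
      have h13 := taylor_monomial_p p c hst.c0 (φ.coeff m1) hφm1 m1 hpm1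
      rw [← hmono] at h13
      exact h13 (hvan2 1 (by omega) (by rw [hp2]; norm_num))
    · obtain ⟨i, hiD, hi⟩ := taylor_bound c hst.c0 φ hφ0 m1 D hlow hdeg
      apply hi
      exact hvan1 hα i (by omega)
  subst hone
  obtain ⟨hx', hTf⟩ := he1 rfl
  subst hx'
  have hTa1' := hTa1
  rw [hTf] at hTa1'
  have hαa1 : α = a1 + (j1 : ℤ) • B := (congrArg Prod.fst hTa1').symm
  have hm1j1 : m1 = j1 := by
    have h1 : (j1 : ℤ) = (m1 : ℤ) := congrArg Prod.snd hTa1'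
    exact_mod_cast h1.symm
  -- norms
  have hyB : ‖y‖ = ‖mon x' B‖ := by
    have h1 := hst.hw
    rw [pow_one] at h1
    rw [h1, norm_mul, hw1, mul_one]
  have hBlt : ‖mon x' B‖ < 1 := by
    rw [← hyB]
    exact hP.y1
  have hyeq : y = mon x' B * (algebraMap k W c + y') := by
    have h1 := hst.hw
    rwa [pow_one] at h1
  -- the exponent `β` with `β + d B = α`
  have hβ : ∀ β : Fin r → ℤ, P1.coeff (β, d) ≠ 0 → β + d • B = α → β = a0 := by
    intro β hβ1 hβ2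
    have h1 : ‖mon x' β‖ ≤ ‖mon x' a0‖ := hl1.max β d hβ1
    have h2 : ‖mon x' a0‖ ≤ ‖mon x' β‖ := by
      have h3 := hnorm
      rw [← hβ2, mon_add _ hxne, mon_nsmul, norm_mul, norm_mul, norm_pow, norm_pow, hyB] at h3
      have h4 : 0 < ‖mon x' B‖ ^ d := pow_pos (norm_pos_iff.2 (mon_ne _ hxne _)) d
      exact le_of_mul_le_mul_right h3 h4
    exact norm_mon_inj hP.ind (le_antisymm h1 h2)
  have htrack : ∀ a' j', P'.coeff (a', j') ≠ 0 → ∃ n : ℕ, ∃ a j, P.coeff (a, j) ≠ 0 ∧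
      p ^ n * j' ≤ j ∧ p ^ n • a' = a + j • B := by
    intro a' j' h
    obtain ⟨n, hn⟩ := hcoef a' j' h
    obtain ⟨m, hm, a'', j'', h1, h2⟩ := hP2e _ _ hn
    rw [hTf] at h2
    have h3 : a'' + (j'' : ℤ) • B = p ^ n • a' := congrArg Prod.fst h2
    have h4 : (j'' : ℤ) = (m : ℤ) := congrArg Prod.snd h2
    have h5 : j'' = m := by exact_mod_cast h4
    refine ⟨n, a'', j'', (hP1s _ _ h1).1, by omega, ?_⟩
    rw [← h3, natCast_zsmul]
  right
  by_cases hα : ∃ a' : Fin r → ℤ, α = p • a'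
  · obtain ⟨i, hiD, hpi, hi⟩ := taylor_bound_p p c hst.c0 φ hφ0 m1 D hlow hdeg (hφp hα)
    have hid : d ≤ i := by
      by_contra h
      exact hi (hvan2 i (by omega) hpi)
    have hpm1 : ¬ p ∣ m1 := hφp hα m1 hφm1
    have hm1pos : 1 ≤ m1 := by
      rcases Nat.eq_zero_or_pos m1 with h | h
      · exact absurd (h ▸ dvd_zero p) hpm1
      · exact h
    have hi_eq : i = d := by omega
    have hj11 : j1 = 1 := by omega
    have hDd : D = d - 1 := by omega
    obtain ⟨h1, h2, -, -⟩ := taylor_eq_case_p p c hst.c0 φ hφ0 d (by omega)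
      (by omega) (hφp hα) hvan2
    obtain ⟨i2, hi2, h3, h4⟩ := hφ d h2
    have hi2' : i2 = d - 1 := by omega
    have hjd : j1 + i2 * 1 = d := by omega
    rw [hjd] at h3 h4
    rw [hTf] at h4
    have h5 : a1 - i2 • B + (d : ℤ) • B = α := congrArg Prod.fst h4
    have h6 := hβ (a1 - i2 • B) h3 (by rw [← h5, natCast_zsmul])
    have hαe : α = a0 + d • B := by rw [← h6, ← h5, natCast_zsmul]
    have hcα : P'.coeff (α, d) ≠ 0 := by
      rw [hcoα d (fun h => (hi_eq ▸ hpi) h.2), ← hi_eq]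
      exact hi
    obtain ⟨d', hd', hL⟩ := hlead d hcα
    have hd'' : d' = d := by
      by_contra h
      exact hL.mem (hgood d' (by omega))
    rw [hd'', hαe] at hL
    refine ⟨y', P', B, c, hst.c0, hyeq, hpar', hrf', hred', hS, hL, hBlt, Or.inr ?_, htrack⟩
    obtain ⟨i3, hi3, h7, h8⟩ := hφ 1 h1
    have hi30 : i3 = 0 := by omega
    rw [hi30, zero_smul, sub_zero, zero_mul, add_zero, hj11] at h7
    have h9 : a1 = a0 + (d - 1) • B := by
      rw [← h6, hi2']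
      abel
    rw [← h9]
    exact (hP1s _ _ h7).1
  · obtain ⟨i, hiD, hi⟩ := taylor_bound c hst.c0 φ hφ0 m1 D hlow hdeg
    have hid : d ≤ i := by
      by_contra h
      exact hi (hvan1 hα i (by omega))
    have hi_eq : i = d := by omega
    have hj10 : j1 = 0 := by omega
    have hDd : D = d := by omega
    obtain ⟨h1, h2, -⟩ := taylor_eq_case c hst.c0 φ hφ0 d (by omega) (hvan1 hα)
    obtain ⟨i2, hi2, h3, h4⟩ := hφ d h2
    have hi2' : i2 = d := by omega
    have hjd : j1 + i2 * 1 = d := by omega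
    rw [hjd] at h3 h4
    rw [hTf] at h4
    have h5 : a1 - i2 • B + (d : ℤ) • B = α := congrArg Prod.fst h4
    have h6 := hβ (a1 - i2 • B) h3 (by rw [← h5, natCast_zsmul])
    have hαe : α = a0 + d • B := by rw [← h6, ← h5, natCast_zsmul]
    have hcα : P'.coeff (α, d) ≠ 0 := by
      rw [hcoα d (fun h => hα h.1), ← hi_eq]
      exact hi
    obtain ⟨d', hd', hL⟩ := hlead d hcα
    have hd'' : d' = d := by
      by_contra h
      exact hL.mem (hgood d' (by omega))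
    rw [hd'', hαe] at hL
    refine ⟨y', P', B, c, hst.c0, hyeq, hpar', hrf', hred', hS, hL, hBlt, Or.inl ?_, htrack⟩
    obtain ⟨i3, hi3, h7, h8⟩ := hφ 0 h1
    have hi30 : i3 = 0 := by omega
    rw [hi30, zero_smul, sub_zero, zero_mul, add_zero, hj10] at h7
    have h9 : a1 = a0 + d • B := by
      rw [← h6, hi2']
      abel
    rw [← h9]
    exact (hP1s _ _ h7).1

end Pool.Agent.Lib.TDO
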