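import Pool.Agent.Lib.TDO.Um
import Pool.Agent.Lib.TDO.Ev

/-!
# Module StageEx: existence of a stage

Proof.  By `Amb.rank` applied to `(x, y)` and the independence of `x` some positive power of
`‖y‖` is the norm of a monomial in `x` (`y ≠ 0` by `Par.tr`, as `y = ev x y (single (0,1) 1)`);
take `e` minimal, `‖y‖^e = ‖mon x B‖`.  `w = y^e * mon x (-B)` has norm one; `Amb.res` gives `c`
with `‖w - c‖ < 1`, `c ≠ 0`; put `y' = w - c`.  If `e = 1` take `x' = x` and
`T (a, j) = (a + j • B, j)`; otherwise `exists_um_nonneg` for the image of `X` in `ℤ^r × ℤ`.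
-/

namespace Pool.Agent.Lib.TDO

open Pool.Agent.Lib.MP_3029eb_ag Pool.Agent.Lib.MP_3029eb_ag.Abh

/-- The shear `(a, j) ↦ (a + j • B, j)`. -/
private def stageEx_shear {r : ℕ} (B : Fin r → ℤ) :
    ((Fin r → ℤ) × ℤ) ≃+ ((Fin r → ℤ) × ℤ) where
  toFun m := (m.1 + m.2 • B, m.2)
  invFun m := (m.1 - m.2 • B, m.2)
  left_inv m := by
    refine Prod.ext ?_ rfl
    change m.1 + m.2 • B - m.2 • B = m.1
    rw [add_sub_cancel_right]
  right_inv m := by
    refine Prod.ext ?_ rfl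
    change m.1 - m.2 • B + m.2 • B = m.1
    rw [sub_add_cancel]
  map_add' m m' := by
    refine Prod.ext ?_ rfl
    change m.1 + m'.1 + (m.2 + m'.2) • B = (m.1 + m.2 • B) + (m'.1 + m'.2 • B)
    rw [add_smul]
    abel

private theorem stageEx_ne {k W : Type} [Field k] [NormedField W] [IsUltrametricDist W]
    [Algebra k W] {r : ℕ} {x : Fin r → W} {y : W} (hP : Par k x y) : y ≠ 0 := by
  rintro rfl
  have h1 : ev x (0 : W) (AddMonoidAlgebra.single ((0 : Fin r → ℤ), 1) (1 : k) : LP k r) = 0 := by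
    rw [ev_single, pow_one, mul_zero, mul_zero]
  have h2 := hP.tr _ h1
  rw [AddMonoidAlgebra.single_eq_zero] at h2
  exact one_ne_zero h2

private theorem stageEx_rank {k W : Type} [Field k] [NormedField W] [IsUltrametricDist W]
    [Algebra k W] {r : ℕ} (hA : Amb r k W) {x : Fin r → W} {y : W} (hP : Par k x y) :
    ∃ e : ℕ, 1 ≤ e ∧ ∃ B : Fin r → ℤ, ‖y‖ ^ e = ‖mon x B‖ := by
  have hy := stageEx_ne hP
  have hy0 : ‖y‖ ≠ 0 := norm_ne_zero_iff.2 hy
  obtain ⟨a, ha, hna⟩ := hA.rank (Fin.cons y x) (by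
    intro i
    refine Fin.cases ?_ (fun i => ?_) i
    · exact hy
    · exact hP.ind.ne i)
  have hm : mon (Fin.cons y x : Fin (r + 1) → W) a = y ^ a 0 * mon x (fun i => a i.succ) := by
    unfold mon
    rw [Fin.prod_univ_succ, Fin.cons_zero]
    congr 1
  rw [hm, norm_mul, norm_zpow] at hna
  have ha0 : a 0 ≠ 0 := by
    intro h0
    rw [h0, zpow_zero, one_mul] at hna
    have h1 := hP.ind.indep _ hna
    refine ha (funext fun i => ?_)
    refine Fin.cases ?_ (fun i => ?_) i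
    · exact h0
    · exact congrFun h1 i
  have hmon : ‖mon x (fun i => a i.succ)‖ ≠ 0 :=
    norm_ne_zero_iff.2 (mon_ne x hP.ind.ne _)
  rcases lt_or_gt_of_ne ha0 with h | h
  · refine ⟨(-(a 0)).toNat, by omega, fun i => a i.succ, ?_⟩
    rw [← zpow_natCast, Int.toNat_of_nonneg (by omega), zpow_neg]
    exact inv_eq_of_mul_eq_one_right hna
  · refine ⟨(a 0).toNat, by omega, -fun i => a i.succ, ?_⟩
    rw [← zpow_natCast, Int.toNat_of_nonneg (by omega), mon_neg, norm_inv]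
    exact eq_inv_of_mul_eq_one_left hna

theorem exists_stage {k W : Type} [Field k] [NormedField W] [IsUltrametricDist W] [Algebra k W]
    {r : ℕ} (hA : Amb r k W) {x : Fin r → W} {y : W} (hP : Par k x y)
    (X : Finset ((Fin r → ℤ) × ℕ)) (hX : ∀ m ∈ X, 1 < ‖mon x m.1 * y ^ m.2‖) :
    ∃ (x' : Fin r → W) (y' : W) (e : ℕ) (B : Fin r → ℤ) (c : k)
      (T : ((Fin r → ℤ) × ℤ) ≃+ ((Fin r → ℤ) × ℤ)), Stage x y x' y' e B c T ∧
      (∀ m ∈ X, 0 ≤ (T (m.1, (m.2 : ℤ))).2) ∧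
      (e = 1 → x' = x ∧ ∀ a j, T (a, j) = (a + j • B, j)) := by
  classical
  have hy := stageEx_ne hP
  have hex := stageEx_rank hA hP
  obtain ⟨e, heq⟩ : ∃ e, e = Nat.find hex := ⟨_, rfl⟩
  obtain ⟨he, B, hB⟩ := Nat.find_spec hex
  rw [← heq] at he hB
  have hmin : ∀ e' : ℕ, 1 ≤ e' → e' < e → ∀ B' : Fin r → ℤ, ‖y‖ ^ e' ≠ ‖mon x B'‖ := by
    intro e' h1 h2 B' h3
    rw [heq] at h2
    exact Nat.find_min hex h2 ⟨h1, B', h3⟩
  have hmB : mon x B ≠ 0 := mon_ne x hP.ind.ne B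
  obtain ⟨w, hw⟩ : ∃ w, w = y ^ e * mon x (-B) := ⟨_, rfl⟩
  have hw1 : ‖w‖ = 1 := by
    rw [hw, norm_mul, norm_pow, hB, mon_neg, norm_inv, mul_inv_cancel₀]
    exact norm_ne_zero_iff.2 hmB
  obtain ⟨c, hc⟩ := hA.res w hw1.le
  have hc0 : c ≠ 0 := by
    rintro rfl
    rw [map_zero, sub_zero, hw1] at hc
    exact lt_irrefl _ hc
  have hcy : algebraMap k W c + (w - algebraMap k W c) = w := by ring
  have hwB : y ^ e = mon x B * w := by
    rw [hw, mon_neg]
    field_simp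
  by_cases he1 : e = 1
  · refine ⟨x, w - algebraMap k W c, e, B, c, stageEx_shear B,
      ⟨he, hc0, hP.ind, hc, ?_, ?_, ?_⟩, ?_, ?_⟩
    · rw [he1]
      refine Prod.ext ?_ rfl
      change -B + ((1 : ℕ) : ℤ) • B = 0
      rw [Nat.cast_one, one_smul, neg_add_cancel]
    · rw [hcy]
      exact hwB
    · intro a j
      rw [hcy]
      change mon x a * y ^ j = mon x (a + j • B) * w ^ j
      rw [mon_add x hP.ind.ne, mon_zsmul, mul_assoc, ← mul_zpow, ← hwB, he1, pow_one]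
    · intro m _
      change (0 : ℤ) ≤ (m.2 : ℤ)
      exact Int.natCast_nonneg _
    · intro _
      exact ⟨rfl, fun a j => rfl⟩
  · obtain ⟨x', T, hx', hT, hm, hnn⟩ := exists_um_nonneg x hP.ind y hy e he B hB hmin
      (X.image fun m => (m.1, (m.2 : ℤ))) (by
      intro m hm
      obtain ⟨m', hm', rfl⟩ := Finset.mem_image.1 hm
      change 1 < ‖mon x m'.1 * y ^ (m'.2 : ℤ)‖
      rw [zpow_natCast]
      exact hX m' hm')
    refine ⟨x', w - algebraMap k W c, e, B, c, T, ⟨he, hc0, hx', hc, hT, ?_, ?_⟩, ?_,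
      fun h => absurd h he1⟩
    · rw [hcy]
      exact hwB
    · intro a j
      rw [hcy, hw]
      exact hm a j
    · intro m hm'
      exact hnn _ (Finset.mem_image_of_mem _ hm')

end Pool.Agent.Lib.TDO
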