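import Mathlib

/-!
# Module StepDefs (definitions)
-/

namespace Pool.Agent.Lib.TDO

/-- One Kummer step between intermediate fields. -/
def KStep {A N : Type} [Field A] [Field N] [Algebra A N] (E E' : IntermediateField A N) : Prop :=
  ∃ l : ℕ, l.Prime ∧ (l : A) ≠ 0 ∧ ∃ w : N, w ^ l ∈ E ∧ E' = E ⊔ IntermediateField.adjoin A {w}

/-- One Artin-Schreier step between intermediate fields. -/
def AStep {A N : Type} [Field A] [Field N] [Algebra A N] (p : ℕ)
    (E E' : IntermediateField A N) : Prop :=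
  ∃ θ : N, θ ^ p - θ ∈ E ∧ E' = E ⊔ IntermediateField.adjoin A {θ}

end Pool.Agent.Lib.TDO
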