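import Pool.Agent.Lib.TDO.EigCh
import Pool.Agent.Lib.TDO.EtPres

/-!
# Module TameCore: a chart of eigen-elements with invariant `y`

Given a chart `(x, y)` of `N` itself with `N / k` finitely generated: `exists_et` for
`E = Kxy k x y` and a finite set of generators gives `τ, P`; `eigen_chart` gives an eigen-chart
`(X, Y)`.  One more stage (`exists_stage` with empty `X`): `Y^e = mon X B * (c + Y')`,
`X' i = mon X a * Y^j` with `(a, j) = T.symm (single i 1, 0)` by `Stage.hm` (so `X' i` is an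
eigen-element); `w = c + Y' = Y^e * mon X (-B)` is an eigen-element of norm one with nonzero residue
`c ∈ k` fixed by `σ` (`‖σ w - c‖ = ‖w - c‖ < 1`), so its eigenvalue is `1`: `σ Y' = Y'`.
`stage_par`, `stage_rf` (`Rf.fld`): `Kxy k X' Y' = Kxy k X Y`.
-/

namespace Pool.Agent.Lib.TDO

open Pool.Agent.Lib.MP_3029eb_ag Pool.Agent.Lib.MP_3029eb_ag.Abh

private lemma tmc_mul {k N : Type} [Field k] [Field N] [Algebra k N] (σ : N ≃ₐ[k] N) {a b : N}
    (ha : ∃ c : k, σ a = algebraMap k N c * a) (hb : ∃ c : k, σ b = algebraMap k N c * b) :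
    ∃ c : k, σ (a * b) = algebraMap k N c * (a * b) := by
  obtain ⟨c, hc⟩ := ha
  obtain ⟨d, hd⟩ := hb
  exact ⟨c * d, by rw [map_mul, hc, hd, map_mul]; ring⟩

private lemma tmc_inv {k N : Type} [Field k] [Field N] [Algebra k N] (σ : N ≃ₐ[k] N) {a : N}
    (ha : ∃ c : k, σ a = algebraMap k N c * a) :
    ∃ c : k, σ a⁻¹ = algebraMap k N c * a⁻¹ := by
  obtain ⟨c, hc⟩ := ha
  exact ⟨c⁻¹, by rw [map_inv₀, hc, map_inv₀, mul_inv]⟩

private lemma tmc_zpow {k N : Type} [Field k] [Field N] [Algebra k N] (σ : N ≃ₐ[k] N) {a : N}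
    (ha : ∃ c : k, σ a = algebraMap k N c * a) (n : ℤ) :
    ∃ c : k, σ (a ^ n) = algebraMap k N c * a ^ n := by
  obtain ⟨c, hc⟩ := ha
  exact ⟨c ^ n, by rw [map_zpow₀, hc, mul_zpow, map_zpow₀]⟩

private lemma tmc_mon {k N : Type} [Field k] [Field N] [Algebra k N] {r : ℕ} (σ : N ≃ₐ[k] N)
    (X : Fin r → N) (h : ∀ i, ∃ c : k, σ (X i) = algebraMap k N c * X i) (a : Fin r → ℤ) :
    ∃ c : k, σ (mon X a) = algebraMap k N c * mon X a := by
  unfold mon
  refine Finset.prod_induction (fun i => X i ^ a i)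
    (fun z => ∃ c : k, σ z = algebraMap k N c * z) ?_ ?_ ?_
  · intro u v hu hv
    exact tmc_mul σ hu hv
  · exact ⟨1, by rw [map_one, map_one, mul_one]⟩
  · intro i _
    exact tmc_zpow σ (h i) (a i)

theorem tame_core {k N : Type} [Field k] [NormedField N] [IsUltrametricDist N] [Algebra k N]
    {r : ℕ} (hA : Amb r k N) (hr : 0 < r) {x : Fin r → N} {y : N} (hP : Par k x y)
    (hdense : ∀ z : N, z ∈ cl (Kxy k x y)) (hsep : ∀ z : N, IsSeparable (Kxy k x y) z)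
    (hfg : (⊤ : IntermediateField k N).FG) (σ : N ≃ₐ[k] N)
    (hiso : ∀ z, ‖σ z‖ = ‖z‖) (l : ℕ) (hl : (l : k) ≠ 0) (hσ : σ ^ l = 1) :
    ∃ (X : Fin r → N) (Y : N), Par k X Y ∧ (∀ z : N, z ∈ cl (Kxy k X Y)) ∧
      (∀ z : N, IsSeparable (Kxy k X Y) z) ∧
      (∀ i, ∃ c : k, σ (X i) = algebraMap k N c * X i) ∧ σ Y = Y := by
  obtain ⟨S, hS⟩ := hfg
  have hnt : ∃ z ∈ Kxy k x y, z ≠ 0 ∧ ‖z‖ < 1 :=
    ⟨x ⟨0, hr⟩, x_mem_Kxy x y _, hP.ind.ne _, hP.ind.lt _⟩
  obtain ⟨τ, P, hEt, hfld⟩ := exists_et (Kxy k x y) hnt S (fun g _ => ⟨hsep g, hdense g⟩)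
  have htop : Kxy k x y ⊔ IntermediateField.adjoin k {τ} = ⊤ := by
    rw [hfld, hS, sup_top_eq]
  obtain ⟨X, Y, hPX, hdX, hsX, hX, hY⟩ := eigen_chart hA hr hP (Kxy k x y) rfl P τ hEt
    (hdense τ) htop σ hiso l hl hσ
  obtain ⟨X', Y', e, B, c, T, hst, -, -⟩ := exists_stage hA hPX ∅
    (fun m hm => absurd hm (Finset.notMem_empty m))
  have hPX' := stage_par hA hPX hst
  have hrf := (stage_rf hA hPX hst).1
  have hXne : ∀ i, X i ≠ 0 := hPX.ind.ne
  refine ⟨X', Y', hPX', ?_, ?_, ?_, ?_⟩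
  · rw [hrf.fld]; exact hdX
  · rw [hrf.fld]; exact hsX
  · intro i
    have h1 := hst.hm (T.symm (Pi.single i 1, 0)).1 (T.symm (Pi.single i 1, 0)).2
    rw [Prod.mk.eta, T.apply_symm_apply] at h1
    have h2 : X' i = mon X (T.symm (Pi.single i 1, 0)).1 * Y ^ (T.symm (Pi.single i 1, 0)).2 := by
      rw [h1, mon_single, zpow_zero, mul_one]
    rw [h2]
    exact tmc_mul σ (tmc_mon σ X hX _) (tmc_zpow σ hY _)
  · set w : N := algebraMap k N c + Y' with hw
    have hmne : mon X B ≠ 0 := mon_ne X hXne B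
    have hw2 : w = Y ^ (e : ℤ) * (mon X B)⁻¹ := by
      rw [zpow_natCast, hst.hw, mul_comm (mon X B), mul_assoc, mul_inv_cancel₀ hmne, mul_one]
    have hwe : ∃ d : k, σ w = algebraMap k N d * w := by
      rw [hw2]
      exact tmc_mul σ (tmc_zpow σ hY _) (tmc_inv σ (tmc_mon σ X hX B))
    obtain ⟨d, hd⟩ := hwe
    have hc1 : ‖algebraMap k N c‖ = 1 := hA.unit c hst.c0
    have hwn : ‖w‖ = 1 := by
      rw [hw, IsUltrametricDist.norm_add_eq_max_of_norm_ne_norm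
        (by rw [hc1]; exact hst.y1.ne'), hc1]
      exact max_eq_left hst.y1.le
    have h1 : σ w - w = σ Y' - Y' := by
      rw [hw, map_add, AlgEquiv.commutes]; ring
    have h2 : ‖σ Y' - Y'‖ < 1 := by
      rw [sub_eq_add_neg]
      refine (IsUltrametricDist.norm_add_le_max _ _).trans_lt (max_lt ?_ ?_)
      · rw [hiso]; exact hst.y1
      · rw [norm_neg]; exact hst.y1
    have h3 : σ w - w = algebraMap k N (d - 1) * w := by
      rw [hd, map_sub, map_one]; ring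
    have hd1 : d - 1 = 0 := by
      by_contra hne
      have h4 := hA.unit (d - 1) hne
      rw [← h1, h3, norm_mul, h4, hwn, mul_one] at h2
      exact lt_irrefl _ h2
    rw [hd1, map_zero, zero_mul, h1] at h3
    exact sub_eq_zero.1 h3

end Pool.Agent.Lib.TDO
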