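import Pool.Agent.Lib.TDO.TameCore
import Pool.Agent.Lib.TDO.KumAut
import Pool.Agent.Lib.TDO.LemH

/-!
# Module TameD: tame descent

`F1 = F0 ⊔ k(w)`.  `FF S F1` holds; `lemH` gives a chart `(x, y)` of `cl F1` with `x i, y ∈ F1`.  Let
`N = F1` as a normed field (`Amb r k N` is inherited), `σ` from `exists_kum_aut`.  In `N`: `Par`,
density (`F1 ≤ cl F1 ≤ cl (Kxy k x y)`), separability (`F1 ≤ S`), finitely generated.  `tame_core`
gives `(X, Y)` in `N`, `σ (X i) = c_i X i`, `σ Y = Y` (so `Y ∈ F0`).
`M0 = {a | σ (mon X a) = mon X a}` is a subgroup of `ℤ^r`, the kernel of the homomorphism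
`a ↦ ∏ c_i^(a_i)` to the group of `l`-th roots of unity of `k` (order `l`, so index `1` or `l`); it has a
`ℤ`-basis `f_1, .., f_r`; choose signs such that `‖mon X (f_i)‖ < 1`; `X0 i = mon X (f_i) ∈ F0`.
`(X0, Y)` is a chart of `cl F0`:
density: let `z ∈ F0 ⊆ F1 ⊆ cl (Kxy k X Y)`.  The projection
`e z = (1/l) ∑_j σ^j z` is norm decreasing and `e z = z`.  It maps `Kxy k X Y` to `Kxy k X0 Y`, since
`Kxy k X Y` is spanned over `Kxy k X0 Y` (the `X i` are algebraic over it) by the monomials `mon X a`,
which are eigenvectors.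
separability: `Kxy k X Y` is generated over `Kxy k X0 Y` by the `X i`, with `(X i)^l ∈ Kxy k X0 Y`
(`l • single i 1 ∈ M0`), separable as `l` is invertible; `S` is separable over `Kxy k X Y`: `S` is
separable over `F1` and `F1` over `Kxy k X Y`.  `Par k X0 Y` by `tr_of_algebraic`.
-/

namespace Pool.Agent.Lib.TDO

open Pool.Agent.Lib.MP_3029eb_ag Pool.Agent.Lib.MP_3029eb_ag.Abh

/-- Transitivity of separability for intermediate fields. -/
private theorem tameD_sep_trans {k W : Type} [Field k] [Field W] [Algebra k W]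
    {E E' : IntermediateField k W} (h : E ≤ E') (hs : ∀ z ∈ E', IsSeparable E z) {z : W}
    (hz : IsSeparable E' z) : IsSeparable E z := by
  let _ : Algebra E E' := (IntermediateField.inclusion h).toAlgebra
  have _ : IsScalarTower E E' W := IsScalarTower.of_algebraMap_eq fun _ => rfl
  have _ : Algebra.IsSeparable E E' := ⟨fun z' => by
    have h1 : IsSeparable E (algebraMap E' W z') := hs z' z'.2
    exact h1.tower_bot⟩
  exact IsSeparable.of_algebra_isSeparable_of_isSeparable E hz

/-- Separability inside an intermediate field. -/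
private theorem tameD_sep_iff {k W : Type} [Field k] [Field W] [Algebra k W]
    {F1 : IntermediateField k W} (E' : IntermediateField k F1) (E : IntermediateField k W)
    (hle : E ≤ F1) (hE : ∀ z : F1, z ∈ E' ↔ (z : W) ∈ E) (z : F1) :
    IsSeparable E' z ↔ IsSeparable E (z : W) := by
  let e : E' ≃+* E :=
    { toFun := fun a => ⟨((a : F1) : W), (hE _).mp a.2⟩
      invFun := fun b => ⟨⟨(b : W), hle b.2⟩, (hE _).mpr b.2⟩
      left_inv := fun _ => rfl
      right_inv := fun _ => rfl
      map_mul' := fun _ _ => rfl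
      map_add' := fun _ _ => rfl }
  have h1 : IsSeparable E' z ↔ IsSeparable E' (algebraMap F1 W z) := by
    unfold IsSeparable
    rw [minpoly.algebraMap_eq (algebraMap F1 W).injective]
  rw [h1]
  constructor
  · intro h
    exact IsSeparable.of_equiv_equiv e (RingEquiv.refl W) (by ext a; rfl) h
  · intro h
    exact IsSeparable.of_equiv_equiv e.symm (RingEquiv.refl W) (by ext a; rfl) h

/-- Sublattices of full rank. -/
private theorem tameD_basis {r : ℕ} (M : Submodule ℤ (Fin r → ℤ)) (l : ℕ) (hl : 0 < l)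
    (h : ∀ a : Fin r → ℤ, (l : ℤ) • a ∈ M) :
    ∃ f : Fin r → (Fin r → ℤ), (∀ i, f i ∈ M) ∧ (∀ n : Fin r → ℤ, ∑ i, n i • f i = 0 → n = 0) ∧
      ∀ a ∈ M, ∃ n : Fin r → ℤ, a = ∑ i, n i • f i := by
  have hrank : Module.finrank ℤ M = r := by
    apply le_antisymm
    · have h1 := Submodule.finrank_le M
      rwa [Module.finrank_fin_fun] at h1
    · let φ : (Fin r → ℤ) →ₗ[ℤ] M :=
        { toFun := fun a => ⟨(l : ℤ) • a, h a⟩
          map_add' := fun a b => by
            apply Subtype.ext
            simp [smul_add]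
          map_smul' := fun c a => by
            apply Subtype.ext
            simp only [RingHom.id_apply, SetLike.mk_smul_mk]
            rw [smul_comm] }
      have hφ : Function.Injective φ := by
        intro a b hab
        have h2 : (l : ℤ) • a = (l : ℤ) • b := congrArg Subtype.val hab
        have hl' : (l : ℤ) ≠ 0 := by exact_mod_cast hl.ne'
        exact smul_right_injective _ hl' h2
      have h3 := LinearMap.finrank_le_finrank_of_injective hφ
      rwa [Module.finrank_fin_fun] at h3
  let b : Module.Basis (Fin r) ℤ M := (Module.finBasis ℤ M).reindex (finCongr hrank)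
  refine ⟨fun i => (b i : Fin r → ℤ), fun i => (b i).2, fun n hn => ?_, fun a ha => ?_⟩
  · have h1 : ∑ i, n i • b i = 0 := by
      apply Subtype.ext
      rw [AddSubmonoidClass.coe_finsetSum]
      simpa using hn
    have h2 := Fintype.linearIndependent_iff.mp b.linearIndependent n h1
    funext i
    exact h2 i
  · refine ⟨fun i => b.repr ⟨a, ha⟩ i, ?_⟩
    have h1 := b.sum_repr ⟨a, ha⟩
    have h2 := congrArg Subtype.val h1
    rw [AddSubmonoidClass.coe_finsetSum] at h2
    exact h2.symm

private theorem tameD_mon_sum {N : Type} [Field N] {r : ℕ} (x : Fin r → N) (hx : ∀ i, x i ≠ 0)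
    {ι : Type} (s : Finset ι) (f : ι → (Fin r → ℤ)) :
    mon x (∑ i ∈ s, f i) = ∏ i ∈ s, mon x (f i) := by
  classical
  induction s using Finset.induction_on with
  | empty => rw [Finset.sum_empty, Finset.prod_empty, mon_zero]
  | insert a s ha ih => rw [Finset.sum_insert ha, Finset.prod_insert ha, mon_add x hx, ih]

private theorem tameD_mon_comp {N : Type} [Field N] {r : ℕ} (x : Fin r → N) (hx : ∀ i, x i ≠ 0)
    (f : Fin r → (Fin r → ℤ)) (n : Fin r → ℤ) :
    mon (fun i => mon x (f i)) n = mon x (∑ i, n i • f i) := by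
  rw [tameD_mon_sum x hx]
  unfold mon
  refine Finset.prod_congr rfl fun i _ => ?_
  exact (mon_zsmul x (n i) (f i)).symm

/-- The key statement in `N`. -/
private theorem tameD_lattice {k N : Type} [Field k] [NormedField N] [IsUltrametricDist N]
    [Algebra k N] {r : ℕ} (hA : Amb r k N) {X : Fin r → N} {Y : N} (hP : Par k X Y)
    (hdense : ∀ z : N, z ∈ cl (Kxy k X Y)) (hsep : ∀ z : N, IsSeparable (Kxy k X Y) z)
    (σ : N ≃ₐ[k] N) (hiso : ∀ z, ‖σ z‖ = ‖z‖) (l : ℕ) (hl0 : 0 < l) (hl : (l : k) ≠ 0)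
    (hσ : σ ^ l = 1) (heig : ∀ i, ∃ c : k, σ (X i) = algebraMap k N c * X i) (hY : σ Y = Y) :
    ∃ X0 : Fin r → N, Par k X0 Y ∧ (∀ i, σ (X0 i) = X0 i) ∧
      (∀ z : N, IsSeparable (Kxy k X0 Y) z) ∧ (∀ z : N, σ z = z → z ∈ cl (Kxy k X0 Y)) := by
  classical
  choose c hc using heig
  have hX : ∀ i, X i ≠ 0 := hP.ind.ne
  have hc0 : ∀ i, c i ≠ 0 := by
    intro i h0
    have h1 := hc i
    rw [h0, map_zero, zero_mul] at h1
    exact hX i ((map_eq_zero_iff σ σ.injective).mp h1)
  -- the character
  have hmon : ∀ a, σ (mon X a) = algebraMap k N (mon c a) * mon X a := by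
    intro a
    unfold mon
    rw [map_prod, map_prod, ← Finset.prod_mul_distrib]
    refine Finset.prod_congr rfl fun i _ => ?_
    rw [map_zpow₀, hc, mul_zpow, map_zpow₀]
  have hpow : ∀ (n : ℕ) (z : N) (d : k), σ z = algebraMap k N d * z →
      (σ ^ n) z = algebraMap k N d ^ n * z := by
    intro n z d hd
    induction n with
    | zero => simp
    | succ n ih =>
      rw [pow_succ', AlgEquiv.mul_apply, ih, map_mul, map_pow, AlgEquiv.commutes, hd]
      ring
  have hchi : ∀ a, (mon c a) ^ l = 1 := by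
    intro a
    have h1 := hpow l (mon X a) (mon c a) (hmon a)
    rw [hσ, AlgEquiv.one_apply] at h1
    have h2 : (algebraMap k N (mon c a) ^ l - 1) * mon X a = 0 := by
      rw [sub_mul, one_mul, ← h1, sub_self]
    rcases mul_eq_zero.mp h2 with h3 | h3
    · have h4 : algebraMap k N (mon c a ^ l) = algebraMap k N 1 := by
        rw [map_pow, map_one]; exact sub_eq_zero.mp h3
      exact (algebraMap k N).injective h4
    · exact absurd h3 (mon_ne X hX a)
  -- the lattice
  let M : Submodule ℤ (Fin r → ℤ) :=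
    { carrier := {a | mon c a = 1}
      zero_mem' := mon_zero c
      add_mem' := fun {a b} ha hb => by
        change mon c (a + b) = 1
        rw [mon_add c hc0, show mon c a = 1 from ha, show mon c b = 1 from hb, one_mul]
      smul_mem' := fun n a ha => by
        change mon c (n • a) = 1
        rw [mon_zsmul, show mon c a = 1 from ha, one_zpow] }
  have hM : ∀ a, a ∈ M ↔ mon c a = 1 := fun a => Iff.rfl
  obtain ⟨f0, hf0M, hf0i, hf0s⟩ := tameD_basis M l hl0 fun a => by
    rw [hM, mon_zsmul, zpow_natCast]; exact hchi a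
  -- signs
  have hsgn : ∀ i, ∃ s : ℤ, s * s = 1 ∧ ‖mon X (s • f0 i)‖ < 1 := by
    intro i
    have hne : f0 i ≠ 0 := by
      intro h0
      have h1 := hf0i (Pi.single i 1) (by
        refine Finset.sum_eq_zero fun j _ => ?_
        by_cases hj : j = i
        · rw [hj, h0, smul_zero]
        · rw [Pi.single_eq_of_ne hj, zero_smul])
      have h2 := congrFun h1 i
      rw [Pi.single_eq_same] at h2
      exact one_ne_zero h2
    have h1 : ‖mon X (f0 i)‖ ≠ 1 := fun h => hne (hP.ind.indep _ h)
    rcases lt_or_gt_of_ne h1 with h2 | h2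
    · exact ⟨1, by norm_num, by rw [one_smul]; exact h2⟩
    · refine ⟨-1, by norm_num, ?_⟩
      rw [neg_smul, one_smul, mon_neg, norm_inv]
      exact inv_lt_one_of_one_lt₀ h2
  choose s hs hslt using hsgn
  set f : Fin r → (Fin r → ℤ) := fun i => s i • f0 i with hf
  have hfM : ∀ i, f i ∈ M := fun i => M.smul_mem _ (hf0M i)
  have hfi : ∀ n : Fin r → ℤ, ∑ i, n i • f i = 0 → n = 0 := by
    intro n hn
    have h1 := hf0i (fun i => n i * s i) (by
      rw [← hn]
      exact Finset.sum_congr rfl fun i _ => by rw [hf, mul_smul])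
    funext i
    have h2 : n i * s i = 0 := congrFun h1 i
    have h3 : n i = n i * s i * s i := by rw [mul_assoc, hs, mul_one]
    rw [h3, h2, zero_mul]; rfl
  have hfs : ∀ a ∈ M, ∃ n : Fin r → ℤ, a = ∑ i, n i • f i := by
    intro a ha
    obtain ⟨n, hn⟩ := hf0s a ha
    refine ⟨fun i => n i * s i, ?_⟩
    rw [hn]
    refine Finset.sum_congr rfl fun i _ => ?_
    rw [hf]
    simp only
    rw [smul_smul, mul_assoc, hs, mul_one]
  -- the new parameters
  set X0 : Fin r → N := fun i => mon X (f i) with hX0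
  have hX0ne : ∀ i, X0 i ≠ 0 := fun i => mon_ne X hX _
  have hmonX0 : ∀ n, mon X0 n = mon X (∑ i, n i • f i) := fun n => tameD_mon_comp X hX f n
  have hind : Indep X0 := by
    refine ⟨hX0ne, fun i => hslt i, fun n hn => ?_⟩
    rw [hmonX0] at hn
    exact hfi n (hP.ind.indep _ hn)
  have hmonmem : ∀ a ∈ M, mon X a ∈ Kxy k X0 Y := by
    intro a ha
    obtain ⟨n, hn⟩ := hfs a ha
    rw [hn, ← hmonX0]
    exact mon_mem_Kxy X0 Y n
  have hle : Kxy k X0 Y ≤ Kxy k X Y :=
    Kxy_le X0 Y (fun i => mon_mem_Kxy X Y _) (y_mem_Kxy X Y)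
  -- the elements `X i` are separable
  have hXl : ∀ i, X i ^ l ∈ Kxy k X0 Y := by
    intro i
    have h1 : X i ^ l = mon X ((l : ℤ) • Pi.single i 1) := by
      rw [mon_zsmul, mon_single, zpow_natCast]
    rw [h1]
    refine hmonmem _ ?_
    rw [hM, mon_zsmul, zpow_natCast]
    exact hchi _
  have hXsep : ∀ i, IsSeparable (Kxy k X0 Y) (X i) := by
    intro i
    have hl' : ((l : ℕ) : Kxy k X0 Y) ≠ 0 := by
      intro h0
      apply hl
      apply (algebraMap k (Kxy k X0 Y)).injective
      rw [map_natCast, map_zero, h0]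
    have h1 : (Polynomial.X ^ l - Polynomial.C (⟨X i ^ l, hXl i⟩ : Kxy k X0 Y)).Separable :=
      Polynomial.separable_X_pow_sub_C _ hl' (fun h0 => by
        have h2 : X i ^ l = 0 := congrArg Subtype.val h0
        exact pow_ne_zero l (hX i) h2)
    refine h1.of_dvd (minpoly.dvd _ _ ?_)
    simp
  have hKsep : ∀ z ∈ Kxy k X Y, IsSeparable (Kxy k X0 Y) z := by
    intro z hz
    have h1 : Kxy k X Y ≤ (separableClosure (Kxy k X0 Y) N).restrictScalars k := by
      refine Kxy_le X Y (fun i => ?_) ?_
      · exact mem_separableClosure_iff.mpr (hXsep i)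
      · exact mem_separableClosure_iff.mpr
          (isSeparable_algebraMap (K := N) (⟨Y, y_mem_Kxy X0 Y⟩ : Kxy k X0 Y))
    exact mem_separableClosure_iff.mp (h1 hz)
  have hsep0 : ∀ z : N, IsSeparable (Kxy k X0 Y) z := fun z =>
    tameD_sep_trans hle hKsep (hsep z)
  have hσX0 : ∀ i, σ (X0 i) = X0 i := by
    intro i
    rw [hX0]
    simp only
    rw [hmon, show mon c (f i) = 1 from hfM i, map_one, one_mul]
  have hpar : Par k X0 Y := by
    refine ⟨hind, hP.y1, ?_⟩
    exact tr_of_algebraic X Y hX hP.tr X0 Y hX0ne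
      (fun i => (hXsep i).isIntegral.isAlgebraic) ((hsep0 Y).isIntegral.isAlgebraic)
  -- `σ` fixes `Kxy k X0 Y`
  have hfix : ∀ z ∈ Kxy k X0 Y, σ z = z := by
    let Fx : IntermediateField k N :=
      { carrier := {z | σ z = z}
        mul_mem' := fun {a b} ha hb => by
          change σ (a * b) = a * b
          rw [map_mul, show σ a = a from ha, show σ b = b from hb]
        add_mem' := fun {a b} ha hb => by
          change σ (a + b) = a + b
          rw [map_add, show σ a = a from ha, show σ b = b from hb]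
        algebraMap_mem' := fun a => σ.commutes a
        inv_mem' := fun a ha => by
          change σ a⁻¹ = a⁻¹
          rw [map_inv₀, show σ a = a from ha] }
    have h1 : Kxy k X0 Y ≤ Fx := Kxy_le X0 Y hσX0 hY
    exact fun z hz => h1 hz
  -- the projection
  set e : N → N := fun z => algebraMap k N (l : k)⁻¹ * ∑ j ∈ Finset.range l, (σ ^ j) z with he
  have hlN : (l : N) ≠ 0 := by
    intro h0
    apply hl
    apply (algebraMap k N).injective
    rw [map_natCast, map_zero, h0]
  have hlinv : algebraMap k N (l : k)⁻¹ * (l : N) = 1 := by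
    rw [map_inv₀, map_natCast, inv_mul_cancel₀ hlN]
  have headd : ∀ u v, e (u + v) = e u + e v := by
    intro u v
    rw [he]
    simp only [map_add]
    rw [Finset.sum_add_distrib, mul_add]
  have heneg : ∀ u v, e (u - v) = e u - e v := by
    intro u v
    rw [he]
    simp only [map_sub]
    rw [Finset.sum_sub_distrib, mul_sub]
  have hefix : ∀ z, σ z = z → e z = z := by
    intro z hz
    have h1 : ∀ j, (σ ^ j) z = z := by
      intro j
      have h2 := hpow j z 1 (by rw [map_one, one_mul]; exact hz)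
      rwa [map_one, one_pow, one_mul] at h2
    rw [he]
    simp only [h1]
    rw [Finset.sum_const, Finset.card_range, nsmul_eq_mul, ← mul_assoc, hlinv, one_mul]
  have henorm : ∀ z, ‖e z‖ ≤ ‖z‖ := by
    intro z
    have h1 : ∀ j, ‖(σ ^ j) z‖ = ‖z‖ := by
      intro j
      induction j with
      | zero => simp
      | succ j ih => rw [pow_succ', AlgEquiv.mul_apply, hiso, ih]
    rw [he]
    simp only
    rw [norm_mul, hA.unit _ (inv_ne_zero hl), one_mul]
    exact IsUltrametricDist.norm_sum_le_of_forall_le_of_nonneg (norm_nonneg z)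
      fun j _ => (h1 j).le
  have heK : ∀ v ∈ Kxy k X Y, e v ∈ Kxy k X0 Y := by
    intro v hv
    set E0 := Kxy k X0 Y with hE0
    have h1 : Kxy k X Y ≤ (IntermediateField.adjoin E0 (Set.range X)).restrictScalars k := by
      refine Kxy_le X Y (fun i => ?_) ?_
      · exact IntermediateField.subset_adjoin E0 _ ⟨i, rfl⟩
      · exact (IntermediateField.adjoin E0 (Set.range X)).algebraMap_mem
          (⟨Y, y_mem_Kxy X0 Y⟩ : E0)
    have h2 : v ∈ (IntermediateField.adjoin E0 (Set.range X)).toSubalgebra := h1 hv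
    rw [IntermediateField.adjoin_toSubalgebra_of_isAlgebraic (by
      rintro _ ⟨i, rfl⟩
      exact (hXsep i).isIntegral.isAlgebraic)] at h2
    have h3 : v ∈ Submodule.span E0 (Submonoid.closure (Set.range X) : Set N) := by
      rw [← Algebra.adjoin_eq_span]
      exact h2
    have hsub : ∀ w ∈ Submonoid.closure (Set.range X), ∃ a, w = mon X a := by
      intro w hw
      induction hw using Submonoid.closure_induction with
      | mem w hw =>
        obtain ⟨i, rfl⟩ := hw
        exact ⟨Pi.single i 1, (mon_single X i).symm⟩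
      | one => exact ⟨0, (mon_zero X).symm⟩
      | mul w w' _ _ ih ih' =>
        obtain ⟨a, rfl⟩ := ih
        obtain ⟨a', rfl⟩ := ih'
        exact ⟨a + a', (mon_add X hX a a').symm⟩
    -- `e` on multiples of monomials
    have h4 : ∀ (g : E0) (a : Fin r → ℤ), e ((g : N) * mon X a) ∈ E0 := by
      intro g a
      have h5 : ∀ j, (σ ^ j) ((g : N) * mon X a) =
          (g : N) * mon X a * algebraMap k N (mon c a) ^ j := by
        intro j
        have h6 : σ ((g : N) * mon X a) = algebraMap k N (mon c a) * ((g : N) * mon X a) := by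
          rw [map_mul, hfix _ g.2, hmon]; ring
        rw [hpow j _ _ h6]; ring
      have h7 : e ((g : N) * mon X a) = (g : N) * mon X a *
          (algebraMap k N (l : k)⁻¹ * ∑ j ∈ Finset.range l, algebraMap k N (mon c a) ^ j) := by
        rw [he]
        simp only [h5]
        rw [← Finset.mul_sum]; ring
      rw [h7]
      by_cases h8 : mon c a = 1
      · have h9 : algebraMap k N (l : k)⁻¹ *
            ∑ j ∈ Finset.range l, algebraMap k N (mon c a) ^ j = 1 := by
          rw [h8, map_one]
          simp only [one_pow]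
          rw [Finset.sum_const, Finset.card_range, nsmul_eq_mul, mul_one, hlinv]
        rw [h9, mul_one]
        exact E0.mul_mem g.2 (hmonmem a h8)
      · have h9 : ∑ j ∈ Finset.range l, algebraMap k N (mon c a) ^ j = 0 := by
          have h10 : (∑ j ∈ Finset.range l, algebraMap k N (mon c a) ^ j) *
              (algebraMap k N (mon c a) - 1) = 0 := by
            rw [geom_sum_mul, ← map_pow, hchi, map_one, sub_self]
          rcases mul_eq_zero.mp h10 with h11 | h11
          · exact h11
          · exfalso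
            apply h8
            apply (algebraMap k N).injective
            rw [map_one]
            exact sub_eq_zero.mp h11
        rw [h9, mul_zero, mul_zero]
        exact E0.zero_mem
    have helin : ∀ (g : E0) (u : N), e ((g : N) * u) = (g : N) * e u := by
      intro g u
      have h5 : ∀ j, (σ ^ j) (g : N) = g := by
        intro j
        have h6 := hpow j (g : N) 1 (by rw [map_one, one_mul]; exact hfix _ g.2)
        rwa [map_one, one_pow, one_mul] at h6
      rw [he]
      simp only [map_mul, h5]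
      rw [← Finset.mul_sum]
      ring
    have h6 : ∀ u ∈ Submodule.span E0 (Submonoid.closure (Set.range X) : Set N), e u ∈ E0 := by
      intro u hu
      induction hu using Submodule.span_induction with
      | mem w hw =>
        obtain ⟨a, rfl⟩ := hsub w hw
        have h5 := h4 1 a
        rwa [OneMemClass.coe_one, one_mul] at h5
      | zero =>
        have h5 : e 0 = 0 := hefix 0 (map_zero σ)
        rw [h5]
        exact E0.zero_mem
      | add u v _ _ ihu ihv =>
        rw [headd]
        exact E0.add_mem ihu ihv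
      | smul g u _ ihu =>
        have h5 : e (g • u) = (g : N) * e u := helin g u
        rw [h5]
        exact E0.mul_mem g.2 ihu
    exact h6 v h3
  refine ⟨X0, hpar, hσX0, hsep0, fun z hz => ?_⟩
  rw [mem_cl_iff]
  intro ε hε
  obtain ⟨v, hv, hvε⟩ := (mem_cl_iff _ _).mp (hdense z) ε hε
  refine ⟨e v, heK v hv, ?_⟩
  have h1 : z - e v = e (z - v) := by rw [heneg, hefix z hz]
  rw [h1]
  exact (henorm _).trans_lt hvε

/-- Coercions from an intermediate field. -/
private theorem tameD_coe_mon {k W : Type} [Field k] [Field W] [Algebra k W]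
    {F1 : IntermediateField k W} {r : ℕ} (x : Fin r → F1) (a : Fin r → ℤ) :
    ((mon x a : F1) : W) = mon (fun i => (x i : W)) a := by
  have h1 : (algebraMap F1 W) (mon x a) = mon (fun i => (x i : W)) a := by
    unfold mon
    rw [map_prod]
    exact Finset.prod_congr rfl fun i _ => by rw [map_zpow₀]; rfl
  exact h1

private theorem tameD_coe_ev {k W : Type} [Field k] [Field W] [Algebra k W]
    {F1 : IntermediateField k W} {r : ℕ} (x : Fin r → F1) (y : F1) (P : LP k r) :
    ((ev x y P : F1) : W) = ev (fun i => (x i : W)) (y : W) P := by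
  have h1 : (algebraMap F1 W) (ev x y P) = ev (fun i => (x i : W)) (y : W) P := by
    unfold ev Finsupp.sum
    rw [map_sum]
    refine Finset.sum_congr rfl fun m _ => ?_
    rw [map_mul, map_mul, map_pow]
    have h2 : algebraMap F1 W (mon x m.1) = mon (fun i => (x i : W)) m.1 := tameD_coe_mon x m.1
    rw [h2]
    rfl
  exact h1

private theorem tameD_coe_Kxy {k W : Type} [Field k] [Field W] [Algebra k W]
    {F1 : IntermediateField k W} {r : ℕ} (x : Fin r → F1) (y : F1) :
    (Kxy k x y).map F1.val = Kxy k (fun i => (x i : W)) (y : W) := by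
  unfold Kxy
  rw [IntermediateField.adjoin_map, Set.image_union, Set.image_singleton, ← Set.range_comp]
  rfl

private theorem tameD_mem_Kxy {k W : Type} [Field k] [Field W] [Algebra k W]
    {F1 : IntermediateField k W} {r : ℕ} (x : Fin r → F1) (y : F1) (z : F1) :
    z ∈ Kxy k x y ↔ (z : W) ∈ Kxy k (fun i => (x i : W)) (y : W) := by
  rw [← tameD_coe_Kxy]
  constructor
  · intro h
    exact ⟨z, h, rfl⟩
  · rintro ⟨z', hz', h⟩
    have h1 : z' = z := Subtype.ext h
    rw [← h1]
    exact hz'

private theorem tameD_Kxy_le {k W : Type} [Field k] [Field W] [Algebra k W]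
    {F1 : IntermediateField k W} {r : ℕ} (x : Fin r → F1) (y : F1) :
    Kxy k (fun i => (x i : W)) (y : W) ≤ F1 :=
  Kxy_le _ _ (fun i => (x i).2) y.2

private theorem tameD_mem_cl {k W : Type} [Field k] [NormedField W] [Algebra k W]
    {F1 : IntermediateField k W} {r : ℕ} (x : Fin r → F1) (y : F1) (z : F1) :
    z ∈ cl (Kxy k x y) ↔ (z : W) ∈ cl (Kxy k (fun i => (x i : W)) (y : W)) := by
  rw [mem_cl_iff, mem_cl_iff]
  constructor
  · intro h ε hε
    obtain ⟨v, hv, hvε⟩ := h ε hε
    exact ⟨v, (tameD_mem_Kxy x y v).mp hv, hvε⟩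
  · intro h ε hε
    obtain ⟨v, hv, hvε⟩ := h ε hε
    have hv1 : v ∈ F1 := tameD_Kxy_le x y hv
    exact ⟨⟨v, hv1⟩, (tameD_mem_Kxy x y ⟨v, hv1⟩).mpr hv, hvε⟩

private theorem tameD_par {k W : Type} [Field k] [NormedField W] [Algebra k W]
    {F1 : IntermediateField k W} {r : ℕ} (x : Fin r → F1) (y : F1) :
    Par k x y ↔ Par k (fun i => (x i : W)) (y : W) := by
  constructor
  · intro h
    refine ⟨⟨fun i h0 => h.ind.ne i (Subtype.ext h0), fun i => h.ind.lt i, fun a ha =>
      h.ind.indep a ?_⟩, h.y1, fun P hP => h.tr P ?_⟩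
    · rw [← tameD_coe_mon] at ha
      exact ha
    · rw [← tameD_coe_ev] at hP
      exact Subtype.ext hP
  · intro h
    refine ⟨⟨fun i h0 => h.ind.ne i (congrArg Subtype.val h0), fun i => h.ind.lt i, fun a ha =>
      h.ind.indep a ?_⟩, h.y1, fun P hP => h.tr P ?_⟩
    · rw [← tameD_coe_mon]
      exact ha
    · rw [← tameD_coe_ev, hP]
      rfl

theorem tame_descent {k W : Type} [Field k] [IsAlgClosed k] [NontriviallyNormedField W]
    [IsUltrametricDist W] [Algebra k W] {r : ℕ} (hA : Amb r k W) (hr : 0 < r)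
    (S F0 : IntermediateField k W) (hS : ∀ z : W, IsSeparable S z → z ∈ S) (hF : FF S F0)
    (l : ℕ) (hl : l.Prime) (hlk : (l : k) ≠ 0) (w : W) (hw : w ^ l ∈ F0) (hw0 : w ∉ cl F0)
    (hF1 : FF S (F0 ⊔ IntermediateField.adjoin k {w}))
    (h : HasChart S r (cl (F0 ⊔ IntermediateField.adjoin k {w}))) :
    HasChart S r (cl F0) := by
  have hku := exists_kum_aut hA F0 hF.comp l hl hlk w hw hw0
  generalize hF1def : F0 ⊔ IntermediateField.adjoin k {w} = F1 at hF1 h hku
  have hF01 : F0 ≤ F1 := by
    rw [← hF1def]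
    exact le_sup_left
  obtain ⟨x, y, hch, hx1, hy1⟩ := lemH hA hr S _ hF1 h
  obtain ⟨σ, hσiso, hσl, hσF0, hσfix, -⟩ := hku
  have hAN : Amb r k F1 := by
    refine ⟨fun c hc => hA.unit c hc, fun z hz => hA.res z hz, fun z hz => ?_⟩
    obtain ⟨a, ha, ha1⟩ := hA.rank (fun i => (z i : W)) fun i h0 => hz i (Subtype.ext h0)
    refine ⟨a, ha, ?_⟩
    rw [← tameD_coe_mon] at ha1
    exact ha1
  let x' : Fin r → F1 := fun i => ⟨x i, hx1 i⟩
  let y' : F1 := ⟨y, hy1⟩
  have hpar : Par k x' y' := (tameD_par x' y').mpr hch.par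
  have hdense : ∀ z : F1, z ∈ cl (Kxy k x' y') := by
    intro z
    rw [tameD_mem_cl]
    exact hch.dense (le_cl F1 z.2)
  have hsep : ∀ z : F1, IsSeparable (Kxy k x' y') z := by
    intro z
    rw [tameD_sep_iff (Kxy k x' y') (Kxy k x y) (tameD_Kxy_le x' y')
      (fun z => tameD_mem_Kxy x' y' z)]
    exact hch.sep _ (hF1.le z.2)
  have hfg : (⊤ : IntermediateField k F1).FG :=
    IntermediateField.fg_top_iff.mpr (IntermediateField.essFiniteType_iff.mpr hF1.fg)
  obtain ⟨X, Y, hXY, hXYd, hXYs, hXYe, hXYf⟩ :=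
    tame_core hAN hr hpar hdense hsep hfg σ hσiso l hlk hσl
  obtain ⟨X0, hX0, hX0f, hX0s, hX0d⟩ :=
    tameD_lattice hAN hXY hXYd hXYs σ hσiso l hl.pos hlk hσl hXYe hXYf
  refine ⟨fun i => (X0 i : W), (Y : W), (tameD_par X0 Y).mp hX0, fun i => hF1.le (X0 i).2,
    hF1.le Y.2, fun i => le_cl F0 (hσfix _ (hX0f i)), le_cl F0 (hσfix _ hXYf), ?_, ?_⟩
  · refine cl_le_of_le_cl fun z hz => ?_
    have hz1 : z ∈ F1 := hF01 hz
    have h1 := hX0d ⟨z, hz1⟩ (hσF0 ⟨z, hz1⟩ hz)
    rw [tameD_mem_cl] at h1
    exact h1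
  · intro z hz
    refine tameD_sep_trans (tameD_Kxy_le X0 Y) (fun v hv => ?_) (hF1.sep z hz)
    exact (tameD_sep_iff (Kxy k X0 Y) _ (tameD_Kxy_le X0 Y)
      (fun z => tameD_mem_Kxy X0 Y z) ⟨v, hv⟩).mp (hX0s ⟨v, hv⟩)

end Pool.Agent.Lib.TDO
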