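import Pool.Agent.Lib.TDO.StageA
import Pool.Agent.Lib.TDO.StageRf
import Pool.Agent.Lib.TDO.Comb

/-!
# Module ThmA: monomialization of Laurent polynomials
-/

namespace Pool.Agent.Lib.TDO

open Pool.Agent.Lib.MP_3029eb_ag Pool.Agent.Lib.MP_3029eb_ag.Abh

variable {k W : Type} [Field k] [NormedField W] [IsUltrametricDist W] [Algebra k W] {r : ℕ}

/-- the conclusion -/
private def ThmAQ (k : Type) {W : Type} [Field k] [NormedField W] [IsUltrametricDist W]
    [Algebra k W] {r : ℕ} (x : Fin r → W) (y : W) (P : LP k r) : Prop :=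
  ∃ (x' : Fin r → W) (y' : W), Par k x' y' ∧ Rf k x y x' y' ∧ Mo (OO k x' y') x' (ev x y P)

private theorem thmA_aux (hA : Amb r k W) (hr : 0 < r) (d : ℕ) : ∀ (x : Fin r → W) (y : W)
    (P : LP k r) (a0 : Fin r → ℤ), Par k x y → Lead x P a0 d → ThmAQ k x y P := by
  classical
  induction d using Nat.strong_induction_on with
  | _ d ih =>
    intro x y0 P0 a00 hP0 hl0
    rcases Nat.eq_zero_or_pos d with rfl | hd
    · exact ⟨x, y0, hP0, Rf.refl hA hP0, (lead_zero hA hP0.ind hP0.y1 hl0).1⟩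
    by_contra hQ0
    -- states
    have hstep : ∀ s : {s : W × LP k r × (Fin r → ℤ) // Par k x s.1 ∧ Lead x s.2.1 s.2.2 d ∧
        ¬ ThmAQ k x s.1 s.2.1}, ∃ s' : {s : W × LP k r × (Fin r → ℤ) // Par k x s.1 ∧
        Lead x s.2.1 s.2.2 d ∧ ¬ ThmAQ k x s.1 s.2.1}, ∃ b : Fin r → ℤ,
        s'.1.2.2 = s.1.2.2 + d • b ∧ ‖mon x b‖ < 1 ∧
        s.1.2.1.coeff (s.1.2.2 + d • b, 0) ≠ 0 ∧
        ev x s'.1.1 s'.1.2.1 = ev x s.1.1 s.1.2.1 ∧
        ∀ a' j', s'.1.2.1.coeff (a', j') ≠ 0 →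
          ∃ a j, s.1.2.1.coeff (a, j) ≠ 0 ∧ j' ≤ j ∧ a' = a + j • b := by
      rintro ⟨⟨y, P, a0⟩, hP, hl, hQ⟩
      simp only at hP hl hQ
      rcases stage_A hA hr hP P hl hd with
        ⟨x', y', P', N, a0', d', hP', hrf, hev, hl', hd'⟩ |
        ⟨y', P', b, c, -, -, hP', hrf, hev, hl', hb, hc1, hX⟩
      · exfalso
        obtain ⟨x'', y'', hP'', hrf', hMo⟩ := ih d' hd' x' y' P' a0' hP' hl'
        have hrf'' := Rf.trans hA hP hP' hP'' hrf hrf'
        apply hQ
        refine ⟨x'', y'', hP'', hrf'', ?_⟩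
        have h1 : Mo (OO k x'' y'') x'' (mon x (-N)) :=
          Rf.mo_mo hA hP hP'' hrf'' (Mo.mon _ _)
        have h2 : ev x y P = mon x (-N) * ev x' y' P' := by
          rw [hev, mon_neg, inv_mul_cancel_left₀ (mon_ne x hP.ind.ne N)]
        rw [h2]
        exact Mo.mul hP''.ind.ne h1 hMo
      · refine ⟨⟨(y', P', a0 + d • b), hP', hl', ?_⟩, b, rfl, hb, hc1, hev, hX⟩
        rintro ⟨x'', y'', hP'', hrf', hMo⟩
        apply hQ
        refine ⟨x'', y'', hP'', Rf.trans hA hP hP' hP'' hrf hrf', ?_⟩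
        rw [← hev]
        exact hMo
    choose next b h1 h2 h3 h4 h5 using hstep
    set st : ℕ → {s : W × LP k r × (Fin r → ℤ) // Par k x s.1 ∧ Lead x s.2.1 s.2.2 d ∧
        ¬ ThmAQ k x s.1 s.2.1} := fun n => next^[n] ⟨(y0, P0, a00), hP0, hl0, hQ0⟩ with hst
    have hsucc : ∀ n, st (n + 1) = next (st n) := fun n => by
      rw [hst]; exact Function.iterate_succ_apply' _ _ _
    have hind : Indep x := hP0.ind
    have hev : ∀ n, ev x (st n).1.1 (st n).1.2.1 = ev x y0 P0 := by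
      intro n
      induction n with
      | zero => rfl
      | succ n ihn => rw [hsucc, h4, ihn]
    have hP0ne : P0 ≠ 0 := by
      rintro rfl
      exact hl0.mem rfl
    have hevne : ev x y0 P0 ≠ 0 := fun h => hP0ne (hP0.tr P0 h)
    refine comb (nu x) (nu_injective hind) 2 d le_rfl hd (fun n => (st n).1.2.1.coeff.support)
      (fun n => b (st n)) (fun n => (st n).1.2.2) ?_ ?_ ?_ ?_ ?_ ?_ ?_
    · intro n
      have h := h2 (st n)
      rw [← norm_one (α := W), ← mon_zero x, norm_mon_lt_iff hind, map_zero] at h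
      exact h
    · intro n
      rw [hsucc]
      exact h1 (st n)
    · intro n m hm
      have h := (st n).2.2.1.max m.1 m.2 (Finsupp.mem_support_iff.1 hm)
      rwa [norm_mon_le_iff hind] at h
    · intro n m' hm'
      rw [hsucc] at hm'
      obtain ⟨a, j, h6, h7, h8⟩ := h5 (st n) m'.1 m'.2 (Finsupp.mem_support_iff.1 hm')
      exact ⟨0, (a, j), Finsupp.mem_support_iff.2 h6, by simpa using h7, by simpa using h8⟩
    · intro n
      exact Or.inl (Finsupp.mem_support_iff.2 (h3 (st n)))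
    · refine ⟨-Real.log ‖ev x y0 P0‖, fun n => ?_⟩
      have h6 := (norm_ev_le_lead hA hind (st n).2.1.y1 (st n).2.2.1).1
      rw [hev, norm_mon_eq_exp x hind.ne] at h6
      have h7 := Real.log_le_log (norm_pos_iff.2 hevne) h6
      rw [Real.log_exp] at h7
      linarith
    · right
      intro n m' hm'
      rw [hsucc] at hm'
      obtain ⟨a, j, h6, h7, h8⟩ := h5 (st n) m'.1 m'.2 (Finsupp.mem_support_iff.1 hm')
      exact ⟨(a, j), Finsupp.mem_support_iff.2 h6, h7, h8⟩

/-- Strong induction on `d`, for all `x, y, P` simultaneously.  `d = 0`: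
`lead_zero`.  `d ≥ 1`: if the conclusion fails for `(x, y, P)` then (`stage_A` and the induction
hypothesis, `Rf.trans`, `Mo` of `mon x N`) the second alternative of `stage_A` holds and the
conclusion fails again for `(x, y', P')`.  By dependent choice there is an infinite sequence
`(y_s, P_s, b_s)` with `x` fixed, `a0_(s+1) = a0_s + d • b_s`; `comb` (with `nu x`, `p = 2`,
`X s = support of P_s`, second alternative in `h5`, `n = 0` in `h2`) gives a contradiction;
boundedness: `0 < ‖ev x y P‖ = ‖ev x y_s P_s‖ ≤ ‖mon x a0_s‖ = exp (-nu (a0_s))`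
(`norm_ev_le_lead`), where `ev x y P ≠ 0` by `Par.tr`. -/
theorem thmA_LP (hA : Amb r k W) (hr : 0 < r) {x : Fin r → W} {y : W} (hP : Par k x y)
    (P : LP k r) (h0 : P ≠ 0) :
    ∃ (x' : Fin r → W) (y' : W), Par k x' y' ∧ Rf k x y x' y' ∧
      Mo (OO k x' y') x' (ev x y P) := by
  obtain ⟨a0, d, hl⟩ := exists_lead hP.ind P h0
  exact thmA_aux hA hr d x y P a0 hP hl

end Pool.Agent.Lib.TDO
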