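import Pool.Agent.Lib.TDO.ThmA
import Pool.Agent.Lib.TDO.Cl
import Pool.Agent.Lib.MP_3029eb_ag.AbhBase

/-!
# Module ThmA2: Theorem A for elements of `k(x, y)`, and finite sets of elements
-/

namespace Pool.Agent.Lib.TDO

open Pool.Agent.Lib.MP_3029eb_ag Pool.Agent.Lib.MP_3029eb_ag.Abh

variable {k W : Type} [Field k] [NormedField W] [IsUltrametricDist W] [Algebra k W] {r : ℕ}

private lemma thma2_val (z : W) : (ball W).valuation z = 1 ↔ ‖z‖ = 1 :=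
  ball_val_eq_one z

/-- The elements `z` with `z * D ∈ LL k x' y'` for some `D ∈ LO k x' y'` of norm one form a subring
which contains `OO k x' y'`, the monomials in `x'`, hence the monomials in `x` (`Rf.mo`; for the
inverse of `x i = mon x' a * u` note `u⁻¹ ∈ OO k x' y'`) and `y ∈ LO k x y ≤ OO k x y`. -/
theorem LL_refine (hA : Amb r k W) {x : Fin r → W} {y : W} (hP : Par k x y) {x' : Fin r → W}
    {y' : W} (hP' : Par k x' y') (h : Rf k x y x' y') {z : W} (hz : z ∈ LL k x y) :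
    ∃ D ∈ LO k x' y', ‖D‖ = 1 ∧ z * D ∈ LL k x' y' := by
  have hxne := hP.ind.ne
  have hx'ne := hP'.ind.ne
  have hy' : ‖y'‖ ≤ 1 := hP'.y1.le
  have hOO : ∀ w ∈ OO k x' y', ∃ D ∈ LO k x' y', ‖D‖ = 1 ∧ w * D ∈ LL k x' y' := by
    rintro w ⟨a, ha, b, hb, hb1, hw⟩
    exact ⟨b, hb, (thma2_val b).1 hb1, by rw [hw]; exact LO_le_LL ha⟩
  have hmul : ∀ u v : W, (∃ D ∈ LO k x' y', ‖D‖ = 1 ∧ u * D ∈ LL k x' y') →
      (∃ D ∈ LO k x' y', ‖D‖ = 1 ∧ v * D ∈ LL k x' y') →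
      ∃ D ∈ LO k x' y', ‖D‖ = 1 ∧ u * v * D ∈ LL k x' y' := by
    rintro u v ⟨D, hD, hD1, hu⟩ ⟨D', hD', hD1', hv⟩
    refine ⟨D * D', mul_mem hD hD', by rw [norm_mul, hD1, hD1', one_mul], ?_⟩
    have h1 : u * v * (D * D') = (u * D) * (v * D') := by ring
    rw [h1]
    exact mul_mem hu hv
  unfold LL at hz
  refine Subring.closure_induction
    (p := fun z _ => ∃ D ∈ LO k x' y', ‖D‖ = 1 ∧ z * D ∈ LL k x' y') ?_ ?_ ?_ ?_ ?_ ?_ hz
  · rintro w ((⟨c, rfl⟩ | ⟨a, rfl⟩) | hw)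
    · exact ⟨1, one_mem _, norm_one, by rw [mul_one]; exact LO_le_LL (algebraMap_mem_LO c)⟩
    · obtain ⟨b, u, hu, hu1, hw⟩ := Rf.mo_mo hA hP hP' h (Mo.mon (OO k x y) a)
      rw [hw]
      refine hmul _ _ ⟨1, one_mem _, norm_one, ?_⟩ (hOO u hu)
      rw [mul_one]
      exact Subring.subset_closure (Or.inl (Or.inr ⟨b, rfl⟩))
    · rw [Set.mem_singleton_iff] at hw
      rw [hw]
      exact hOO y (h.le (LO_le_OO hA hP.y1.le y_mem_LO))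
  · exact ⟨1, one_mem _, norm_one, by rw [zero_mul]; exact zero_mem _⟩
  · exact ⟨1, one_mem _, norm_one, by rw [one_mul]; exact one_mem _⟩
  · rintro u v - - ⟨D, hD, hD1, hu⟩ ⟨D', hD', hD1', hv⟩
    refine ⟨D * D', mul_mem hD hD', by rw [norm_mul, hD1, hD1', one_mul], ?_⟩
    have h1 : (u + v) * (D * D') = (u * D) * D' + (v * D') * D := by ring
    rw [h1]
    exact add_mem (mul_mem hu (LO_le_LL hD')) (mul_mem hv (LO_le_LL hD))
  · rintro u - ⟨D, hD, hD1, hu⟩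
    exact ⟨D, hD, hD1, by rw [neg_mul]; exact neg_mem hu⟩
  · rintro u v - - hu hv
    exact hmul u v hu hv

/-- Theorem A.  `z * d = n` with `n, d ∈ LL k x y` (`mem_Kxy_iff`, `mem_LL_iff`).  `thmA_LP` for
`n` gives `(x1, y1)`; `LL_refine` for `d`: `d * D ∈ LL k x1 y1`; `thmA_LP` for `d * D` at
`(x1, y1)` gives `(x2, y2)`; `D` is a unit of `OO k x1 y1`, hence of `OO k x2 y2`; `Rf.mo_mo` for
`n`. -/
theorem thmA (hA : Amb r k W) (hr : 0 < r) {x : Fin r → W} {y : W} (hP : Par k x y) (z : W)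
    (hz : z ∈ Kxy k x y) (h0 : z ≠ 0) :
    ∃ (x' : Fin r → W) (y' : W), Par k x' y' ∧ Rf k x y x' y' ∧ Mo (OO k x' y') x' z := by
  obtain ⟨n, hn, d, hd, hd0, hnd⟩ := (mem_Kxy_iff x y z).1 hz
  have hn0 : n ≠ 0 := by rw [← hnd]; exact mul_ne_zero h0 hd0
  obtain ⟨P, hPn⟩ := (mem_LL_iff x y hP.ind.ne n).1 hn
  have hP0 : P ≠ 0 := by
    rintro rfl
    rw [ev_zero] at hPn
    exact hn0 hPn
  obtain ⟨x1, y1, hP1, hR1, hM1⟩ := thmA_LP hA hr hP P hP0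
  rw [← hPn] at hM1
  obtain ⟨D, hD, hD1, hdD⟩ := LL_refine hA hP hP1 hR1 hd
  have hD0 : D ≠ 0 := by rintro rfl; rw [norm_zero] at hD1; exact zero_ne_one hD1
  have hdD0 : d * D ≠ 0 := mul_ne_zero hd0 hD0
  obtain ⟨Q, hQ⟩ := (mem_LL_iff x1 y1 hP1.ind.ne (d * D)).1 hdD
  have hQ0 : Q ≠ 0 := by
    rintro rfl
    rw [ev_zero] at hQ
    exact hdD0 hQ
  obtain ⟨x2, y2, hP2, hR2, hM2⟩ := thmA_LP hA hr hP1 Q hQ0
  rw [← hQ] at hM2
  have hMD : Mo (OO k x1 y1) x1 D :=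
    ⟨0, D, LO_le_OO hA hP1.y1.le hD, hD1, by rw [mon_zero, one_mul]⟩
  have hMD2 := Rf.mo_mo hA hP1 hP2 hR2 hMD
  have hMn2 := Rf.mo_mo hA hP1 hP2 hR2 hM1
  refine ⟨x2, y2, hP2, Rf.trans hA hP hP1 hP2 hR1 hR2, ?_⟩
  have hz2 : z = n * D * (d * D)⁻¹ := by
    rw [← hnd]; field_simp
  rw [hz2]
  exact Mo.mul hP2.ind.ne (Mo.mul hP2.ind.ne hMn2 hMD2) (Mo.inv hA hP2.ind.ne hP2.y1.le hM2)

/-- Induction on the finite set, `Rf.fld`, `Rf.trans`, `Rf.mo_mo`. -/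
theorem thmA_finset (hA : Amb r k W) (hr : 0 < r) {x : Fin r → W} {y : W} (hP : Par k x y)
    (Z : Finset W) (hZ : ∀ z ∈ Z, z ∈ Kxy k x y ∧ z ≠ 0) :
    ∃ (x' : Fin r → W) (y' : W), Par k x' y' ∧ Rf k x y x' y' ∧
      ∀ z ∈ Z, Mo (OO k x' y') x' z := by
  classical
  induction Z using Finset.induction_on with
  | empty => exact ⟨x, y, hP, Rf.refl hA hP, fun z hz => absurd hz (Finset.notMem_empty z)⟩
  | insert z Z _ ih =>
    obtain ⟨x1, y1, hP1, hR1, hM1⟩ := ih fun w hw => hZ w (Finset.mem_insert_of_mem hw)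
    obtain ⟨hz, hz0⟩ := hZ z (Finset.mem_insert_self z Z)
    rw [← hR1.fld] at hz
    obtain ⟨x2, y2, hP2, hR2, hM2⟩ := thmA hA hr hP1 z hz hz0
    refine ⟨x2, y2, hP2, Rf.trans hA hP hP1 hP2 hR1 hR2, fun w hw => ?_⟩
    rcases Finset.mem_insert.1 hw with hw | hw
    · rw [hw]; exact hM2
    · exact Rf.mo_mo hA hP1 hP2 hR2 (hM1 w hw)

/-- Elements of norm at most one get into `OO` (`Mo.mem_OO`). -/
theorem thmA_OO (hA : Amb r k W) (hr : 0 < r) {x : Fin r → W} {y : W} (hP : Par k x y)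
    (Z : Finset W) (hZ : ∀ z ∈ Z, z ∈ Kxy k x y ∧ ‖z‖ ≤ 1) :
    ∃ (x' : Fin r → W) (y' : W), Par k x' y' ∧ Rf k x y x' y' ∧ ∀ z ∈ Z, z ∈ OO k x' y' := by
  classical
  obtain ⟨x1, y1, hP1, hR1, hM1⟩ := thmA_finset hA hr hP (Z.erase 0) (fun z hz =>
    ⟨(hZ z (Finset.mem_of_mem_erase hz)).1, (Finset.mem_erase.1 hz).1⟩)
  refine ⟨x1, y1, hP1, hR1, fun z hz => ?_⟩
  by_cases h0 : z = 0
  · rw [h0]; exact zero_mem _
  · exact Mo.mem_OO hA hP1.y1.le (hM1 z (Finset.mem_erase.2 ⟨h0, hz⟩)) (hZ z hz).2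

/-- Elements of `OO k x y` are approximated by elements of `LO k x y`: `z * D = N`,
`D = c (1 - δ)` (`LO_unit`), `z ≈ N c⁻¹ (1 + δ + .. + δ^M)`. -/
theorem OO_approx (hA : Amb r k W) {x : Fin r → W} {y : W} (hP : Par k x y) {z : W}
    (hz : z ∈ OO k x y) (ε : ℝ) (hε : 0 < ε) : ∃ z' ∈ LO k x y, ‖z - z'‖ < ε := by
  have hz1 : ‖z‖ ≤ 1 := norm_le_of_mem_OO hA hP.y1.le hz
  obtain ⟨n, hn, D, hD, hD1, hzD⟩ := hz
  obtain ⟨c, hc0, δ, hδ, hδ1, hDc⟩ := LO_unit hA hP.y1.le hD ((thma2_val D).1 hD1)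
  obtain ⟨M, hM⟩ := exists_pow_lt_of_lt_one hε hδ1
  have hc : algebraMap k W c ≠ 0 := by
    intro h
    have h2 := hA.unit c hc0
    rw [h, norm_zero] at h2
    exact zero_ne_one h2
  refine ⟨n * algebraMap k W c⁻¹ * ∑ i ∈ Finset.range M, δ ^ i,
    mul_mem (mul_mem hn (algebraMap_mem_LO _)) (sum_mem fun i _ => pow_mem hδ i), ?_⟩
  have h1 : n * algebraMap k W c⁻¹ = z * (1 - δ) := by
    rw [← hzD, hDc, map_inv₀]; field_simp
  have h2 : (1 - δ) * ∑ i ∈ Finset.range M, δ ^ i = 1 - δ ^ M := mul_neg_geom_sum δ M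
  have h3 : z - n * algebraMap k W c⁻¹ * ∑ i ∈ Finset.range M, δ ^ i = z * δ ^ M := by
    rw [h1, mul_assoc, h2]; ring
  rw [h3, norm_mul, norm_pow]
  calc ‖z‖ * ‖δ‖ ^ M ≤ 1 * ‖δ‖ ^ M :=
        mul_le_mul_of_nonneg_right hz1 (pow_nonneg (norm_nonneg _) _)
    _ < ε := by rw [one_mul]; exact hM

/-- Approximation of an element of the closure of `k(x, y)` by a Laurent polynomial at a later
stage: approximate by `g ∈ k(x, y)`; if `g ≠ 0` apply `thmA`: `g = mon x' a * u`, `u ∈ OO`;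
`OO_approx` for `u` with precision `ε / ‖mon x' a‖`; `mem_LL_iff`. -/
theorem approx_LP (hA : Amb r k W) (hr : 0 < r) {x : Fin r → W} {y : W} (hP : Par k x y)
    (f : W) (hf : f ∈ cl (Kxy k x y)) (ε : ℝ) (hε : 0 < ε) :
    ∃ (x' : Fin r → W) (y' : W) (P : LP k r), Par k x' y' ∧ Rf k x y x' y' ∧
      ‖f - ev x' y' P‖ < ε := by
  obtain ⟨g, hg, hfg⟩ := (mem_cl_iff (Kxy k x y) f).1 hf ε hε
  by_cases h0 : g = 0
  · refine ⟨x, y, 0, hP, Rf.refl hA hP, ?_⟩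
    rw [ev_zero, ← h0]
    exact hfg
  · obtain ⟨x', y', hP', hR, a, u, hu, -, hgu⟩ := thmA hA hr hP g hg h0
    have hmne : mon x' a ≠ 0 := mon_ne x' hP'.ind.ne a
    have hmpos : 0 < ‖mon x' a‖ := norm_pos_iff.2 hmne
    obtain ⟨z', hz', hz1⟩ := OO_approx hA hP' hu (ε / ‖mon x' a‖) (div_pos hε hmpos)
    have hLL : mon x' a * z' ∈ LL k x' y' :=
      mul_mem (Subring.subset_closure (Or.inl (Or.inr ⟨a, rfl⟩))) (LO_le_LL hz')
    obtain ⟨P, hPe⟩ := (mem_LL_iff x' y' hP'.ind.ne _).1 hLL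
    refine ⟨x', y', P, hP', hR, ?_⟩
    rw [← hPe]
    have h1 : f - mon x' a * z' = (f - g) + mon x' a * (u - z') := by rw [hgu]; ring
    rw [h1]
    refine (IsUltrametricDist.norm_add_le_max _ _).trans_lt (max_lt hfg ?_)
    rw [norm_mul]
    rw [lt_div_iff₀ hmpos] at hz1
    rw [mul_comm]; exact hz1

end Pool.Agent.Lib.TDO
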